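import Pool.Agent.H13K.StmK

/-!
# Project BH (helper13), parts S (sieved values, second moments) and F (final assembly): statements

`L = log H`. The systems: arrays `a i l`, `i < m`, `l ≤ dd i`, of integers in `[-H, H]`; `f_i(n) = Fv (a i) n`.
Stub `X`: file `Pool/Agent/H13K/X.lean`, theorem `Pool.Agent.H13K.X.t`.
-/

set_option autoImplicit false

namespace Pool.Agent.H13K

open Finset
open Pool.Agent.H373R2.T7 (lamz pz Vz)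

/-- the box of the arrays of coefficients -/
noncomputable def bx {m : ℕ} (dd : Fin m → ℕ) (H : ℕ) : Finset (∀ i : Fin m, Fin (dd i + 1) → ℤ) :=
  Fintype.piFinset fun _ => Fintype.piFinset fun _ => Icc (-(H : ℤ)) H

/-- the normalised indicator function of: no `f_i(n)` has a prime factor `≤ z` -/
noncomputable def sf {m : ℕ} {dd : Fin m → ℕ} (z : ℕ) (a : ∀ i : Fin m, Fin (dd i + 1) → ℤ) (n : ℤ) : ℝ :=
  ∏ i, lamz z (Fv (a i) n).natAbs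

/-- number of the zeros of `∏ f_i` modulo `p` -/
def om {m : ℕ} {dd : Fin m → ℕ} (p : ℕ) (a : ∀ i : Fin m, Fin (dd i + 1) → ℤ) : ℕ :=
  ((range p).filter (fun n : ℕ => (p : ℤ) ∣ ∏ i, Fv (a i) n)).card

/-- the Bateman-Horn constant, product over the primes `p ≤ z` -/
noncomputable def Cz {m : ℕ} {dd : Fin m → ℕ} (z : ℕ) (a : ∀ i : Fin m, Fin (dd i + 1) → ℤ) : ℝ :=
  ∏ p ∈ pz z, (1 - (om p a : ℝ) / p) / (1 - 1 / (p : ℝ)) ^ m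

/-- `1 / log |y|` for `|y| ≥ 2` -/
noncomputable def lg (y : ℤ) : ℝ := if 2 ≤ |y| then 1 / Real.log |(y : ℝ)| else 0

/-- the density of the primes at the values -/
noncomputable def Wf {m : ℕ} {dd : Fin m → ℕ} (a : ∀ i : Fin m, Fin (dd i + 1) → ℤ) (n : ℤ) : ℝ :=
  ∏ i, lg (Fv (a i) n)

/-- the number of the `1 ≤ n ≤ K` for which all `|f_i(n)|` are primes -/
noncomputable def Pf {m : ℕ} {dd : Fin m → ℕ} (a : ∀ i : Fin m, Fin (dd i + 1) → ℤ) (K : ℕ) : ℝ :=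
  ∑ n ∈ Icc 1 K, ∏ i, pr (Fv (a i) (n : ℤ)).natAbs

/-- the sum of `∏ 1 / log |f_i(n)|` over `1 ≤ n ≤ K` -/
noncomputable def Lf {m : ℕ} {dd : Fin m → ℕ} (a : ∀ i : Fin m, Fin (dd i + 1) → ℤ) (K : ℕ) : ℝ :=
  ∑ n ∈ Icc 1 K, Wf a (n : ℤ)

/-- the model of the correlation of `sf` at `α, α'`, `h = α - α'` -/
noncomputable def Ym (m z : ℕ) (h : ℤ) : ℝ :=
  ∏ p ∈ (pz z).filter (fun p : ℕ => (p : ℤ) ∣ h), ((1 - 1 / (p : ℝ)) ^ m)⁻¹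

/-- the mean value of `Ym` -/
noncomputable def Yb (m z : ℕ) : ℝ := ∏ p ∈ pz z, (1 + (((1 - 1 / (p : ℝ)) ^ m)⁻¹ - 1) / p)

/-- **CNTB**: residues of the box. The number of the arrays in the box which are congruent to `s` modulo `P` is
`#bx / P^D` up to the factor `(1 + P/H)^D`-like error, `D = ∑ (dd i + 1)`. Proof. For each entry the number of the integers of
`[-H, H]` in a given class modulo `P` is between `(2H+1)/P - 1` and `(2H+1)/P + 1`, i.e. `((2H+1)/P) (1 + ϑ P/(2H+1))`, `|ϑ| ≤ 1`,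
and `|(1 + ϑ t)^D - 1| ≤ 2^D t` for `0 ≤ t ≤ 1` (product over the entries). -/
def S_CNTB : Prop := ∀ (m : ℕ) (dd : Fin m → ℕ) (H P : ℕ), 1 ≤ H → 1 ≤ P → P ≤ H →
  ∀ s : ∀ i : Fin m, Fin (dd i + 1) → ℤ,
  |(((bx dd H).filter (fun a => ∀ i l, (P : ℤ) ∣ a i l - s i l)).card : ℝ) -
    ((bx dd H).card : ℝ) / (P : ℝ) ^ (∑ i, (dd i + 1))| ≤
    2 ^ (∑ i, (dd i + 1)) * (P / H) * (((bx dd H).card : ℝ) / (P : ℝ) ^ (∑ i, (dd i + 1)))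

/-- **LOC**: local densities. For a prime `p` and `α, α'`, the number of the arrays modulo `p` (entries in `range p`) for which `p`
divides no `f_i(α) f_i(α')` is `p^D (1 - 1/p)^m` if `p ∣ α - α'` and `p^D (1 - 1/p)^{2m}` otherwise. Proof: product over `i`;
for one `i` the map `a ↦ (f(α), f(α')) mod p` is onto `F_p^2` with fibres of equal size if `p ∤ α - α'` (`dd i ≥ 1`: solve for
the coefficients of `1` and `x`), and `f(α) ≡ f(α')` is equidistributed if `p ∣ α - α'` (solve for the constant term). -/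
def S_LOC : Prop := ∀ (m : ℕ) (dd : Fin m → ℕ), (∀ i, 1 ≤ dd i) → ∀ (p : ℕ), p.Prime → ∀ α α' : ℤ,
  (((Fintype.piFinset fun i : Fin m => Fintype.piFinset fun _ : Fin (dd i + 1) => (range p).map Nat.castEmbedding).filter
      (fun a : (∀ i : Fin m, Fin (dd i + 1) → ℤ) =>
        ∀ i, ¬ (p : ℤ) ∣ Fv (a i) α ∧ ¬ (p : ℤ) ∣ Fv (a i) α')).card : ℝ) =
    (p : ℝ) ^ (∑ i, (dd i + 1)) * (1 - 1 / (p : ℝ)) ^ (if (p : ℤ) ∣ α - α' then m else 2 * m)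

/-- **FL** (type `S_CNTB → S_LOC → S_FL`): the correlations of the sieved values at two arbitrary integers, uniformly.
Proof. `Pool.Agent.H373R2.T7.sieve_gen'` (`H373R2/T7/Bonf.lean`; see its use in `rough_ap`, `lamz_ap` in `LamZ.lean`) with
`s = bx dd H`, `w = 1`, the event `E p a`: `p` divides some `f_i(α)` or some `f_i(α')`, `T = pz z`, `X = #bx`,
`g p = 1 - (1 - 1/p)^{m or 2m}`. For `S ⊆ T`, `|S| ≤ r`, `P = ∏ S ≤ (z+1)^r ≤ H^{1/3}`: by CNTB (add over the residue classes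
modulo `P` which satisfy all the events; by the Chinese remainder theorem and LOC their number is `P^D ∏ g p`)
`|#{a : ∀ p ∈ S, E p a} - #bx ∏ g p| ≤ #bx 2^D P/H ≤ #bx 2^D H^{-2/3}`. Take `r = ⌊log H / (3 log (z + 2))⌋`; there are at most
`(z+1)^r ≤ H^{1/3}` sets `S`; the truncation error is `2 #bx (∑ g)^r / r!`-like with `∑ g ≤ 2 m (1 + log z)`, smaller than every
power of `L`. Multiply by `(Vz z)^{-2m} ≤ z^{2m} ≤ L^{2mE}`; `(Vz z)^{-2m} ∏ (1 - g p) = Ym`. (If `z ≤ 1`: both are `1`.) -/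
def S_FL : Prop := ∀ (m : ℕ) (dd : Fin m → ℕ) (E U : ℕ), (∀ i, 1 ≤ dd i) → ∃ H0 : ℕ, ∀ H : ℕ, H0 ≤ H →
  ∀ z : ℕ, (z : ℝ) ≤ Real.log H ^ E → ∀ α α' : ℤ,
  |(∑ a ∈ bx dd H, sf z a α * sf z a α') - ((bx dd H).card : ℝ) * Ym m z (α - α')| ≤
    ((bx dd H).card : ℝ) / Real.log H ^ U

/-- **CRT**: the constant `Cz` is the mean value of `sf` over a period. Proof: `sf z a n = (Vz z)^{-m} ∏_{p ≤ z} 1[p ∤ ∏ f_i(n)]`,
Chinese remainder theorem. -/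
def S_CRT : Prop := ∀ (m : ℕ) (dd : Fin m → ℕ) (z : ℕ) (a : ∀ i : Fin m, Fin (dd i + 1) → ℤ),
  (∑ α ∈ range (∏ p ∈ pz z, p), sf z a (α : ℤ)) = (∏ p ∈ pz z, p : ℕ) * Cz z a

/-- **AV**: means of `Ym`. Proof. `Ym h = ∑_{e ∣ P, e ∣ h} γ(e)`, `P = ∏_{p ≤ z} p`, `γ` multiplicative,
`γ(p) = ((1 - 1/p)^m)⁻¹ - 1 ≥ 0` (sum over the subsets of `pz z`). (1) the mean over a period is `∑ γ(e)/e = Yb`. (2) for each `n`
the number of the `n' ≤ N` with `e ∣ n - n'` differs from `N/e` by at most `1`; `∑_e γ(e) = ∏ (1 + γ(p)) = (Vz z)^{-m}`. -/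
def S_AV : Prop := ∀ m z : ℕ,
  (∀ n : ℤ, ∑ α ∈ range (∏ p ∈ pz z, p), Ym m z (n - α) = (∏ p ∈ pz z, p : ℕ) * Yb m z) ∧
  ∀ N : ℕ, ∑ n ∈ Icc 1 N, ∑ n' ∈ Icc 1 N, (Ym m z ((n : ℤ) - n') - Yb m z) ≤ N * ((Vz z)⁻¹) ^ m

/-- **SM** (type `S_FL → S_CRT → S_AV → S_SM`): second moment of the sieved values. Proof. By CRT
`∑_{n ≤ N} (sf n - Cz) = ∑_n sf n - (N/P) ∑_{α < P} sf α`. Square, sum over the box, insert FL (with `U + 3`) for all the pairs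
`(n, n')`, `(n, α)`, `(α, α')`: the main terms are `#bx ∑_{n,n'} (Ym(n - n') - Yb)` by AV (1), the errors `≤ 4 N^2 #bx / L^{U+3}`. -/
def S_SM : Prop := ∀ (m : ℕ) (dd : Fin m → ℕ) (E U : ℕ), (∀ i, 1 ≤ dd i) → ∃ H0 : ℕ, ∀ H : ℕ, H0 ≤ H →
  ∀ z : ℕ, (z : ℝ) ≤ Real.log H ^ E → ∀ N : ℕ,
  ∑ a ∈ bx dd H, (∑ n ∈ Icc 1 N, (sf z a (n : ℤ) - Cz z a)) ^ 2 ≤
    ((bx dd H).card : ℝ) * (N * ((Vz z)⁻¹) ^ m + (N : ℝ) ^ 2 / Real.log H ^ U)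

/-- **TV**: the density `Wf` is bounded and of bounded variation. Proof. For a polynomial `f` of degree `≤ d` (`f ≠ 0`) the real
line is cut by the zeros of `f` and `f'` into at most `2 d + 1` intervals on which `|f|` is monotone; `φ(v) = 1/log v` for
`v ≥ 2`, `0` for `v < 2`, is `≤ 1/log 2` and has total variation `≤ 2/log 2`; so `n ↦ lg (f n)` has total variation
`≤ 3 (2 d + 1)/log 2` over the integers (`f = 0`: it is `0`; `f` constant: trivial). The product of `m` bounded functions of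
bounded variation is of bounded variation. -/
def S_TV : Prop := ∀ (m : ℕ) (dd : Fin m → ℕ), ∃ C : ℝ, 1 ≤ C ∧ ∀ a : ∀ i : Fin m, Fin (dd i + 1) → ℤ,
  (∀ n : ℤ, 0 ≤ Wf a n ∧ Wf a n ≤ C) ∧
  ∀ N : ℕ, ∑ n ∈ Ico 1 N, |Wf a ((n : ℤ) + 1) - Wf a (n : ℤ)| ≤ C

/-- **T2** (type `S_VZ → S_SM → S_TV → S_T2`). Proof. Abel summation and TV:
`|∑_{n ≤ K} Wf (sf - Cz)| ≤ 2 C max_{N ≤ K} |∑_{n ≤ N} (sf - Cz)|`. `0 ≤ sf, Cz ≤ (Vz z)^{-m} ≤ (C log z)^m ≤ L` for large `H`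
(VZ). The maximum over `N ≤ K` is at most the maximum over the multiples `N ≤ K` of `⌈K/L^{U+2}⌉` plus
`2 L (K / L^{U+2} + 1)`; there are `≤ L^{U+2} + 1` such multiples, the square of the maximum is at most the sum of the squares,
SM with exponent `2 U + 8`, `K ≥ L^B`, `B = 3 U + 20`. -/
def S_T2 : Prop := ∀ (m : ℕ) (dd : Fin m → ℕ) (E U : ℕ), (∀ i, 1 ≤ dd i) → ∃ B H0 : ℕ, ∀ H : ℕ, H0 ≤ H →
  ∀ z : ℕ, (z : ℝ) ≤ Real.log H ^ E → ∀ K : ℕ, Real.log H ^ B ≤ K →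
  ∑ a ∈ bx dd H, (∑ n ∈ Icc 1 K, Wf a (n : ℤ) * (sf z a (n : ℤ) - Cz z a)) ^ 2 ≤
    ((bx dd H).card : ℝ) * (K : ℝ) ^ 2 / Real.log H ^ U

/-- **TEN**: tensor products of kernels which are small in `L^1` over the pairs. Proof. Expand the square; with
`P_i(k,k') = ∑_a W X_k X_k'`, `Q_i(k,k') = ∑_a W X_k Y_k'`, `R_i(k,k') = ∑_a W Y_k Y_k'` the left side is
`∑_{k,k'} (∏ P_i(k,k') - ∏ Q_i(k,k') - ∏ Q_i(k',k) + ∏ R_i(k,k'))` (`Finset.prod_univ_sum`). All are `≤ S^2 w_i` in absolute value, so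
(telescoping) `|∏ P_i - ∏ Q_i| ≤ ∑_i |P_i - Q_i| ∏_{j ≠ i} S^2 w_j`, and `P_i(k,k') - Q_i(k,k') = ∑ W (X_k' - Y_k') X_k`,
`Q_i(k',k) - R_i(k,k') = ∑ W (X_k' - Y_k') Y_k`. -/
def S_TEN : Prop := ∀ (m : ℕ) (α : Fin m → Type) (Ω : ∀ i, Finset (α i)) (W : ∀ i, α i → ℝ)
  (X Y : ∀ i, α i → ℕ → ℝ) (T : Finset ℕ) (S ε : ℝ) (w : Fin m → ℝ), 1 ≤ S → 0 ≤ ε → (∀ i, 0 ≤ w i) →
  (∀ i, ∀ a ∈ Ω i, 0 ≤ W i a) → (∀ i, ∑ a ∈ Ω i, W i a ≤ w i) →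
  (∀ i, ∀ a ∈ Ω i, ∀ k ∈ T, |X i a k| ≤ S ∧ |Y i a k| ≤ S) →
  (∀ i, ∑ k ∈ T, ∑ k' ∈ T, |∑ a ∈ Ω i, W i a * ((X i a k - Y i a k) * X i a k')| ≤ ε * w i) →
  (∀ i, ∑ k ∈ T, ∑ k' ∈ T, |∑ a ∈ Ω i, W i a * ((X i a k - Y i a k) * Y i a k')| ≤ ε * w i) →
  ∑ a ∈ Fintype.piFinset Ω, (∏ i, W i (a i)) * (∑ k ∈ T, (∏ i, X i (a i) k - ∏ i, Y i (a i) k)) ^ 2 ≤
    2 * m * S ^ (2 * m) * ε * ∏ i, w i

/-- **T1** (type `S_VZ → S_WTF → S_KER → S_TEN → S_T1`). Proof. `R i, M i` from KER for `d = dd i`, exponent `U + 2m + 2`,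
`E1` = the maximum. `Ω i = piFinset (cs (R i))`, `W i a = ∏_l wt (R i) (M i) (a l)`, `w i = (32 H)^{dd i + 1}` (WTF: the sum of the
weights is `(2N/M)^{d+1}`, `N ≤ 16 H M`), `X i a k = (per (R i) x pr (Fv a k)).re`, `Y` with `nu z`, `S = L`
(`nu ≤ 2 (Vz z)⁻¹`, VZ), `ε = K^2/L^{U + 2m + 2}` (`fz z n = pr n - nu z n`; `per` is additive and real-valued, `‖ker‖` is the absolute
value of the real sum). For `a` in the box `bx`: `|a i l| ≤ H ≤ R i`, all weights are `≥ 1` (`8 H M ≤ N`),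
`|Fv (a i) k| ≤ (d+1) H K^d = x ≤ R i`, so `bmod` is the identity and `X i (a i) k = pr |f_i(k)|`. Finally
`∏ (32H)^{dd i + 1} ≤ 16^D #bx`. -/
def S_T1 : Prop := ∀ (m : ℕ) (dd : Fin m → ℕ) (U : ℕ), (∀ i, 1 ≤ dd i) → ∃ E1 : ℕ, ∀ E : ℕ, E1 ≤ E →
  ∃ B H0 : ℕ, ∀ H : ℕ, H0 ≤ H → ∀ K : ℕ, Real.log H ^ B ≤ K → (K : ℝ) * Real.log H ^ B ≤ H →
  ∑ a ∈ bx dd H, (∑ n ∈ Icc 1 K, (∏ i, pr (Fv (a i) (n : ℤ)).natAbs -
      ∏ i, nu ⌊Real.log H ^ E⌋₊ (Fv (a i) (n : ℤ)).natAbs)) ^ 2 ≤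
    ((bx dd H).card : ℝ) * (K : ℝ) ^ 2 / Real.log H ^ U

/-- **SEC** (type `S_T1 → S_T2 → S_SEC`). Proof: `∏_i nu z |f_i(n)| = Wf a n · sf z a n`, so
`Pf a K - Cz z a Lf a K` is the sum of the two expressions of T1 and T2; `(u + v)^2 ≤ 2 u^2 + 2 v^2`. -/
def S_SEC : Prop := ∀ (m : ℕ) (dd : Fin m → ℕ) (U : ℕ), (∀ i, 1 ≤ dd i) → ∃ E1 : ℕ, ∀ E : ℕ, E1 ≤ E →
  ∃ B H0 : ℕ, ∀ H : ℕ, H0 ≤ H → ∀ K : ℕ, Real.log H ^ B ≤ K → (K : ℝ) * Real.log H ^ B ≤ H →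
  ∑ a ∈ bx dd H, (Pf a K - Cz ⌊Real.log H ^ E⌋₊ a * Lf a K) ^ 2 ≤
    ((bx dd H).card : ℝ) * (K : ℝ) ^ 2 / Real.log H ^ U

/-- **LOWC** (type `S_VZ → S_LOWC`): bounds for the constant. Proof. `D₀ = ∑ dd i`. If some `f_i` is `0` modulo `p` then
`om p a = p`; otherwise `om p a ≤ min(D₀, p)`, and `om p a ≠ p` gives `om p a ≤ p - 1`. The factors of the primes `p ≤ 2 D₀ + 2` are
`≥ 1/p`, the other ones `≥ 1 - D₀/p ≥ exp (-2 D₀/p)`, and `∑_{p ≤ z} 1/p ≤ log (Vz z)⁻¹ ≤ log (C log z)`. Upper bound: each factor is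
at most `(1 - 1/p)^{-m}`. -/
def S_LOWC : Prop := ∀ (m : ℕ) (dd : Fin m → ℕ), ∃ (c : ℝ) (D : ℕ), 0 < c ∧ ∀ (z : ℕ)
  (a : ∀ i : Fin m, Fin (dd i + 1) → ℤ), 3 ≤ z →
  0 ≤ Cz z a ∧ Cz z a ≤ ((Vz z)⁻¹) ^ m ∧ ((∀ p ∈ pz z, om p a ≠ p) → c / Real.log z ^ D ≤ Cz z a)

/-- **LOWL**: lower bound for the sum. Proof. `|f_i(n)| ≤ (dd i + 1) H K^{dd i} ≤ H^{dd i + 2}` for `K ≤ H`, `dd i + 1 ≤ H`. A
nonconstant polynomial takes each of the values `-1, 0, 1` at most `dd i` times, so all but `3 ∑ dd i ≤ K/2` of the `n ≤ K` have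
`|f_i(n)| ≥ 2` for all `i`. -/
def S_LOWL : Prop := ∀ (m : ℕ) (dd : Fin m → ℕ), (∀ i, 1 ≤ dd i) → ∃ K0 : ℕ, ∀ (H K : ℕ), K0 ≤ K → K ≤ H →
  ∀ a ∈ bx dd H, (∀ i, a i (Fin.last (dd i)) ≠ 0) →
  K / (2 * (∏ i, ((dd i : ℝ) + 2)) * Real.log H ^ m) ≤ Lf a K

/-- **ALL** (type `S_VZ → S_SEC → S_TV → S_LOWC → S_LOWL → S_ALL`): the theorem for all `K` simultaneously. Proof. `z = ⌊L^E⌋`.
Grid: `K_i = ⌈L^B (1 + L^{-U1})^i⌉`, `i ≤ 2 L^{U1 + 1}` (covers `[L^B, H/L^B]`; stop at the last `K_i` with `K_i L^B ≤ H`, and use a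
slightly larger `B` in the conclusion). SEC with exponent `U' = U + 2 U2 + U1 + 4` and Chebyshev: for all but
`#bx (2 L^{U1+1} + 1) L^{2 U2 - U'}` arrays, `|Pf a K_i - Cz Lf a K_i| ≤ K_i / L^{U2}` for all `i`. Add to `Bad` the arrays with some
leading coefficient `a i (last) = 0` (`≤ m #bx/(2H+1)`). For `K_i ≤ K ≤ K_{i+1}`: `Pf` and `Lf` are nondecreasing in `K`,
`Lf a K_{i+1} - Lf a K_i ≤ C (K_{i+1} - K_i)` (TV), `Cz ≤ (Vz z)^{-m} ≤ L`, so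
`|Pf a K - Cz Lf a K| ≤ 2 K/L^{U2} + C L (2 K/L^{U1})`, and `Cz Lf a K / L^U ≥ K/L^{U + m + 1}` by LOWC and LOWL. Take
`U1 = U + m + 4`, `U2 = U + m + 3`. -/
def S_ALL : Prop := ∀ (m : ℕ) (dd : Fin m → ℕ) (U : ℕ), (∀ i, 1 ≤ dd i) → ∃ E1 : ℕ, ∀ E : ℕ, E1 ≤ E →
  ∃ B H0 : ℕ, ∀ H : ℕ, H0 ≤ H → ∃ Bad ⊆ bx dd H, (Bad.card : ℝ) ≤ ((bx dd H).card : ℝ) / Real.log H ^ U ∧
  ∀ a ∈ bx dd H, a ∉ Bad → (∀ i, a i (Fin.last (dd i)) ≠ 0) ∧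
    ((∀ p ∈ pz ⌊Real.log H ^ E⌋₊, om p a ≠ p) → 0 < Cz ⌊Real.log H ^ E⌋₊ a ∧
      ∀ K : ℕ, Real.log H ^ B ≤ K → (K : ℝ) * Real.log H ^ B ≤ H →
        |Pf a K - Cz ⌊Real.log H ^ E⌋₊ a * Lf a K| ≤ Cz ⌊Real.log H ^ E⌋₊ a * Lf a K / Real.log H ^ U)

/-- **OMV** (type `S_CNTB → S_LOC → S_OMV`): the number of the zeros modulo different primes. `μ_p = p (1 - (1 - 1/p)^m)`.
Proof. `om p a = ∑_{n < p} 1[p ∣ ∏ f_i(n)]`. For uniform residues modulo `p` (LOC with `α = α' = n`) the mean is `μ_p`, and the mean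
of `om^2` is `≤ m + m^2` (pairs `n ≠ n'`: LOC, inclusion-exclusion; or `∑_{i,j}`); modulo `p p'` the two numbers are
independent. By CNTB with `P = p p'` (or `P = p`) the sums over the box differ from `#bx` times the uniform means by at most the
factor `1 + 2^D P/H` for nonnegative functions. -/
def S_OMV : Prop := ∀ (m : ℕ) (dd : Fin m → ℕ), (∀ i, 1 ≤ dd i) → ∃ C : ℝ, 1 ≤ C ∧ ∀ (H p p' : ℕ), p.Prime →
  p'.Prime → p * p' ≤ H → p ≠ p' →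
  |∑ a ∈ bx dd H, ((om p a : ℝ) - p * (1 - (1 - 1 / (p : ℝ)) ^ m)) *
    ((om p' a : ℝ) - p' * (1 - (1 - 1 / (p' : ℝ)) ^ m))| ≤ C * (p * p' / H) * ((bx dd H).card : ℝ) ∧
  ∑ a ∈ bx dd H, ((om p a : ℝ) - p * (1 - (1 - 1 / (p : ℝ)) ^ m)) ^ 2 ≤ C * ((bx dd H).card : ℝ) ∧
  (((bx dd H).filter (fun a => om p a = p ∧ 2 * (∑ i, dd i) < p)).card : ℝ) ≤ C * ((bx dd H).card : ℝ) / (p : ℝ) ^ 2

/-- **PY** (type `S_OMV → S_PY`): the constants cut at different points agree for almost all systems. Proof. `D₀ = ∑ dd i`.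
`Bad` contains the `a` with `om p a = p` for some `p > z`, `p^4 ≤ H` (`∑_{p > z} C/p^2 ≤ C/z`; for the others `om p a ≤ D₀`). For each
`Y0 = 2^j z` with `Y0^4 ≤ H` divide `(Y0, 2 Y0]` by the points `y_i = ⌊Y0 (1 + i Y0^{-1/10})⌋`, `i ≤ Y0^{1/10} + 1`; by OMV the mean
square over the box of `∑_{Y0 < p ≤ y_i} (om p - μ_p)/p` is `≤ C (∑ 1/p^2 + Y0^2/H) ≤ C'/Y0`, so for all but
`C' Y0^{1/2 + 1/10 - 1} #bx` arrays all these sums are `≤ Y0^{-1/4}`; between two points the sum of the absolute values is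
`≤ (D₀ + m) 2 Y0^{-1/10} + 1/Y0`. Add over `j` (geometric series). `|μ_p - m| ≤ C/p`, and for `p > z ≥ z0` the logarithm of the
factor of `Cz` at `p` is `(m - om p)/p + O(1/p^2)`. -/
def S_PY : Prop := ∀ (m : ℕ) (dd : Fin m → ℕ), (∀ i, 1 ≤ dd i) → ∃ (C : ℝ) (z0 : ℕ), 1 ≤ C ∧ ∀ H z : ℕ, z0 ≤ z →
  1 ≤ H → ∃ Bad ⊆ bx dd H, (Bad.card : ℝ) ≤ C * ((bx dd H).card : ℝ) * (z : ℝ) ^ (-(1 / 4) : ℝ) ∧
  ∀ a ∈ bx dd H, a ∉ Bad → ∀ Y : ℕ, z ≤ Y → Y ^ 4 ≤ H →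
    |Cz Y a - Cz z a| ≤ C * (z : ℝ) ^ (-(1 / 20) : ℝ) * Cz z a

end Pool.Agent.H13K
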