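import Pool.Agent.H13K.StmS

/-!
# AV: means of `Ym`
-/

set_option autoImplicit false

namespace Pool.Agent.H13K.AV

open Finset
open Pool.Agent.H373R2.T7 (lamz pz Vz mem_pz prod_dvd_iff)
open Pool.Agent.H13K

/-- the weights -/
noncomputable def ga (m p : ℕ) : ℝ := ((1 - 1 / (p : ℝ)) ^ m)⁻¹ - 1

lemma ga_nonneg (m : ℕ) {z p : ℕ} (hp : p ∈ pz z) : 0 ≤ ga m p := by
  unfold ga
  have h2 : (2 : ℝ) ≤ p := by exact_mod_cast (mem_pz.1 hp).2.two_le
  have h3 : 1 / (p : ℝ) ≤ 1 / 2 := one_div_le_one_div_of_le (by norm_num) h2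
  have h4 : 0 < 1 / (p : ℝ) := by positivity
  have h5 : (0 : ℝ) < (1 - 1 / (p : ℝ)) ^ m := pow_pos (by linarith) m
  have h6 : (1 - 1 / (p : ℝ)) ^ m ≤ 1 := pow_le_one₀ (by linarith) (by linarith)
  have := (one_le_inv₀ h5).2 h6
  linarith

lemma Ym_eq (m z : ℕ) (h : ℤ) : Ym m z h = ∑ S ∈ (pz z).powerset,
    (∏ p ∈ S, ga m p) * (if ((∏ p ∈ S, p : ℕ) : ℤ) ∣ h then 1 else 0) := by
  have h1 : Ym m z h = ∏ p ∈ pz z, (1 + (if (p : ℤ) ∣ h then ga m p else 0)) := by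
    unfold Ym
    rw [Finset.prod_filter]
    apply Finset.prod_congr rfl
    intro p _
    unfold ga
    split_ifs <;> ring
  rw [h1, Finset.prod_one_add]
  apply Finset.sum_congr rfl
  intro S hS
  rw [Finset.mem_powerset] at hS
  rw [Finset.prod_ite_zero]
  have h2 : (∀ p ∈ S, (p : ℤ) ∣ h) ↔ ((∏ p ∈ S, p : ℕ) : ℤ) ∣ h := by
    have h3 := prod_dvd_iff S (fun p hp => (mem_pz.1 (hS hp)).2) h.natAbs
    rw [Int.natCast_dvd]
    rw [← h3]
    constructor
    · intro h4 p hp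
      exact Int.natCast_dvd.1 (h4 p hp)
    · intro h4 p hp
      exact Int.natCast_dvd.2 (h4 p hp)
  by_cases h4 : ∀ p ∈ S, (p : ℤ) ∣ h
  · rw [if_pos h4, if_pos (h2.1 h4), mul_one]
  · rw [if_neg h4, if_neg (fun h5 => h4 (h2.2 h5)), mul_zero]

lemma Yb_eq (m z : ℕ) : Yb m z = ∑ S ∈ (pz z).powerset,
    (∏ p ∈ S, ga m p) / ((∏ p ∈ S, p : ℕ) : ℝ) := by
  unfold Yb
  rw [Finset.prod_one_add]
  apply Finset.sum_congr rfl
  intro S _
  rw [Finset.prod_div_distrib, Nat.cast_prod]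
  rfl

/-- the number of the `α < N` in a class -/
lemma cnt (e N : ℕ) (he : 0 < e) (n : ℤ) :
    ((range N).filter (fun α : ℕ => (e : ℤ) ∣ n - α)).card =
      N / e + if (n % e).toNat % e < N % e then 1 else 0 := by
  have he' : (0 : ℤ) < e := by exact_mod_cast he
  have h0 : (((n % e).toNat : ℕ) : ℤ) = n % e := Int.toNat_of_nonneg (Int.emod_nonneg _ he'.ne')
  rw [← Nat.count_modEq_card N he, Nat.count_eq_card_filter_range]
  congr 1
  apply Finset.filter_congr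
  intro α _
  rw [← Int.natCast_modEq_iff, h0]
  constructor
  · intro h
    have h1 : (α : ℤ) ≡ n [ZMOD e] := (Int.modEq_iff_dvd).2 h
    exact h1.trans (Int.mod_modEq n e).symm
  · intro h
    exact (Int.modEq_iff_dvd).1 (h.trans (Int.mod_modEq n e))

lemma cnt_dvd (e N : ℕ) (he : 0 < e) (hN : e ∣ N) (n : ℤ) :
    (((range N).filter (fun α : ℕ => (e : ℤ) ∣ n - α)).card : ℝ) = N / e := by
  rw [cnt e N he n, Nat.mod_eq_zero_of_dvd hN, if_neg (Nat.not_lt_zero _), add_zero,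
    Nat.cast_div hN (by exact_mod_cast he.ne')]

lemma cnt_le (e N : ℕ) (he : 0 < e) (n : ℤ) :
    (((range N).filter (fun α : ℕ => (e : ℤ) ∣ n - α)).card : ℝ) ≤ N / e + 1 := by
  rw [cnt e N he n]
  have h1 : (((N / e : ℕ) : ℕ) : ℝ) ≤ (N : ℝ) / e := Nat.cast_div_le
  push_cast
  split_ifs
  · linarith
  · linarith

lemma prod_pos' {z : ℕ} {S : Finset ℕ} (hS : S ⊆ pz z) : 0 < ∏ p ∈ S, p :=
  Finset.prod_pos fun p hp => (mem_pz.1 (hS hp)).2.pos

lemma sum_ind (e N : ℕ) (n : ℤ) : ∑ α ∈ range N, (if (e : ℤ) ∣ n - α then (1 : ℝ) else 0) =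
    (((range N).filter (fun α : ℕ => (e : ℤ) ∣ n - α)).card : ℝ) := by
  rw [← Finset.sum_filter, Finset.sum_const, nsmul_eq_mul, mul_one]

theorem t : S_AV := by
  intro m z
  refine ⟨fun n => ?_, fun N => ?_⟩
  · have h1 : ∑ α ∈ range (∏ p ∈ pz z, p), Ym m z (n - α) = ∑ S ∈ (pz z).powerset,
        (∏ p ∈ S, ga m p) * ∑ α ∈ range (∏ p ∈ pz z, p),
          (if ((∏ p ∈ S, p : ℕ) : ℤ) ∣ n - α then (1 : ℝ) else 0) := by
      have h2 : ∀ α ∈ range (∏ p ∈ pz z, p), Ym m z (n - (α : ℤ)) = _ := fun α _ => Ym_eq m z (n - (α : ℤ))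
      rw [Finset.sum_congr rfl h2, Finset.sum_comm]
      apply Finset.sum_congr rfl
      intro S _
      rw [Finset.mul_sum]
    rw [h1, Yb_eq, Finset.mul_sum]
    apply Finset.sum_congr rfl
    intro S hS
    rw [Finset.mem_powerset] at hS
    rw [sum_ind, cnt_dvd _ _ (prod_pos' hS) (Finset.prod_dvd_prod_of_subset _ _ _ hS)]
    ring
  · have h1 : ∀ n ∈ Icc 1 N, ∑ n' ∈ Icc 1 N, (Ym m z ((n : ℤ) - n') - Yb m z) ≤ ((Vz z)⁻¹) ^ m := by
      intro n _
      have h2 : ∑ n' ∈ Icc 1 N, Ym m z ((n : ℤ) - n') = ∑ S ∈ (pz z).powerset,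
          (∏ p ∈ S, ga m p) * ∑ α ∈ range N,
            (if ((∏ p ∈ S, p : ℕ) : ℤ) ∣ ((n : ℤ) - 1) - α then (1 : ℝ) else 0) := by
        have h3 : ∑ n' ∈ Icc 1 N, Ym m z ((n : ℤ) - n') = ∑ α ∈ range N, Ym m z (((n : ℤ) - 1) - α) := by
          rw [Finset.range_eq_Ico, Finset.sum_Ico_eq_sum_range]
          have h4 : Icc 1 N = Ico 1 (N + 1) := by
            ext x; rw [Finset.mem_Icc, Finset.mem_Ico]; omega
          rw [h4, Finset.sum_Ico_eq_sum_range, Nat.add_sub_cancel, Nat.sub_zero]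
          apply Finset.sum_congr rfl
          intro α _
          congr 1
          push_cast
          ring
        have h8 : ∀ α ∈ range N, Ym m z (((n : ℤ) - 1) - (α : ℤ)) = _ :=
          fun α _ => Ym_eq m z (((n : ℤ) - 1) - (α : ℤ))
        rw [h3, Finset.sum_congr rfl h8, Finset.sum_comm]
        apply Finset.sum_congr rfl
        intro S _
        rw [Finset.mul_sum]
      have h5 : ∑ n' ∈ Icc 1 N, Yb m z = ∑ S ∈ (pz z).powerset,
          (∏ p ∈ S, ga m p) * (N / ((∏ p ∈ S, p : ℕ) : ℝ)) := by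
        rw [Finset.sum_const, nsmul_eq_mul, Nat.card_Icc, Nat.add_sub_cancel, Yb_eq, Finset.mul_sum]
        apply Finset.sum_congr rfl
        intro S _
        ring
      have h6 : ((Vz z)⁻¹) ^ m = ∑ S ∈ (pz z).powerset, ∏ p ∈ S, ga m p := by
        rw [← Finset.prod_one_add]
        unfold Vz
        rw [← Finset.prod_inv_distrib, ← Finset.prod_pow]
        apply Finset.prod_congr rfl
        intro p _
        unfold ga
        rw [inv_pow]
        ring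
      rw [Finset.sum_sub_distrib, h2, h5, h6, ← Finset.sum_sub_distrib]
      apply Finset.sum_le_sum
      intro S hS
      rw [Finset.mem_powerset] at hS
      rw [sum_ind, ← mul_sub]
      have h7 : 0 ≤ ∏ p ∈ S, ga m p := Finset.prod_nonneg fun p hp => ga_nonneg m (hS hp)
      have h8 := cnt_le (∏ p ∈ S, p) N (prod_pos' hS) ((n : ℤ) - 1)
      calc (∏ p ∈ S, ga m p) * _ ≤ (∏ p ∈ S, ga m p) * 1 :=
            mul_le_mul_of_nonneg_left (by linarith) h7
        _ = _ := mul_one _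
    calc ∑ n ∈ Icc 1 N, ∑ n' ∈ Icc 1 N, (Ym m z ((n : ℤ) - n') - Yb m z) ≤ ∑ _n ∈ Icc 1 N, ((Vz z)⁻¹) ^ m :=
          Finset.sum_le_sum h1
      _ = N * ((Vz z)⁻¹) ^ m := by
          rw [Finset.sum_const, nsmul_eq_mul, Nat.card_Icc, Nat.add_sub_cancel]

end Pool.Agent.H13K.AV
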