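import Pool.Agent.H13K.StmS

set_option autoImplicit false

namespace Pool.Agent.H13K.CNTB

open Finset

theorem prod_bd {ι : Type*} [DecidableEq ι] (s : Finset ι) (c y : ι → ℝ) (n : ι → ℕ) (t : ℝ) (ht : 0 ≤ t)
    (hy : ∀ j ∈ s, 0 ≤ y j) (h : ∀ j ∈ s, |c j - y j| ≤ y j * ((1 + t) ^ n j - 1)) :
    |∏ j ∈ s, c j - ∏ j ∈ s, y j| ≤ (∏ j ∈ s, y j) * ((1 + t) ^ (∑ j ∈ s, n j) - 1) := by
  induction s using Finset.induction_on with
  | empty => simp
  | insert a s ha ih =>
    have ih' := ih (fun j hj => hy j (mem_insert_of_mem hj)) (fun j hj => h j (mem_insert_of_mem hj))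
    have hY : 0 ≤ ∏ j ∈ s, y j := prod_nonneg fun j hj => hy j (mem_insert_of_mem hj)
    have hya := hy a (mem_insert_self _ _)
    have hha := h a (mem_insert_self _ _)
    rw [prod_insert ha, prod_insert ha, sum_insert ha, pow_add]
    set A := (1 + t) ^ n a with hA
    set B := (1 + t) ^ (∑ j ∈ s, n j) with hB
    have hA1 : 1 ≤ A := one_le_pow₀ (by linarith)
    have hB1 : 1 ≤ B := one_le_pow₀ (by linarith)
    have hc : |c a| ≤ y a * A := by
      have : |c a| ≤ |c a - y a| + |y a| := by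
        have := abs_add_le (c a - y a) (y a)
        simpa using this
      rw [abs_of_nonneg hya] at this
      linarith
    have e : c a * ∏ j ∈ s, c j - y a * ∏ j ∈ s, y j =
        c a * (∏ j ∈ s, c j - ∏ j ∈ s, y j) + (c a - y a) * ∏ j ∈ s, y j := by ring
    rw [e]
    refine (abs_add_le _ _).trans ?_
    rw [abs_mul, abs_mul, abs_of_nonneg hY]
    calc |c a| * |∏ j ∈ s, c j - ∏ j ∈ s, y j| + |c a - y a| * ∏ j ∈ s, y j ≤
        (y a * A) * ((∏ j ∈ s, y j) * (B - 1)) + (y a * (A - 1)) * ∏ j ∈ s, y j := by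
          refine add_le_add (mul_le_mul hc ih' (abs_nonneg _) (by positivity)) (mul_le_mul_of_nonneg_right hha hY)
      _ = _ := by ring

theorem pow_bd (n : ℕ) {t : ℝ} (ht : 0 ≤ t) (ht1 : t ≤ 1) : (1 + t) ^ n - 1 ≤ (2 ^ n - 1) * t := by
  induction n with
  | zero => simp
  | succ n ih =>
    have h2 : (1 : ℝ) ≤ 2 ^ n := one_le_pow₀ (by norm_num)
    calc (1 + t) ^ (n + 1) - 1 = (1 + t) * ((1 + t) ^ n - 1) + t := by ring
      _ ≤ 2 * ((2 ^ n - 1) * t) + t := by
          have h3 : 0 ≤ (1 + t) ^ n - 1 := by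
            have := one_le_pow₀ (a := 1 + t) (by linarith) (n := n)
            linarith
          nlinarith
      _ = _ := by ring

theorem count (H P : ℕ) (hP : 1 ≤ P) (hPH : P ≤ H) (v : ℤ) :
    |(((Icc (-(H : ℤ)) H).filter fun x => (P : ℤ) ∣ x - v).card : ℝ) - (2 * H + 1) / P| ≤ 1 := by
  have hP0 : (0 : ℤ) < P := by omega
  have e1 : (Icc (-(H : ℤ)) H).filter (fun x => (P : ℤ) ∣ x - v) =
      (Ioc (-(H : ℤ) - 1) H).filter (fun x => x ≡ v [ZMOD P]) := by
    ext x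
    simp only [mem_filter, mem_Icc, mem_Ioc]
    constructor
    · rintro ⟨h1, h2⟩
      exact ⟨by omega, (Int.modEq_iff_dvd.2 h2).symm⟩
    · rintro ⟨h1, h2⟩
      exact ⟨by omega, Int.modEq_iff_dvd.1 h2.symm⟩
  rw [e1]
  have h1 := Int.Ioc_filter_modEq_card (-(H : ℤ) - 1) H hP0 v
  set a : ℚ := (((H : ℤ) : ℚ) - v) / ((P : ℤ) : ℚ) with ha
  set b : ℚ := (((-(H : ℤ) - 1 : ℤ) : ℚ) - v) / ((P : ℤ) : ℚ) with hb
  have hPq : (0 : ℚ) < ((P : ℤ) : ℚ) := by exact_mod_cast hP0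
  have hab : a - b = (2 * H + 1) / P := by
    rw [ha, hb]
    push_cast
    field_simp
    ring
  have h2 := Int.floor_le a
  have h3 := Int.lt_floor_add_one a
  have h4 := Int.floor_le b
  have h5 := Int.lt_floor_add_one b
  have h6 : b ≤ a := by
    have : 0 ≤ a - b := by rw [hab]; positivity
    linarith
  have h7 : ⌊b⌋ ≤ ⌊a⌋ := Int.floor_le_floor h6
  rw [max_eq_left (by linarith)] at h1
  set k := ((Ioc (-(H : ℤ) - 1) H).filter (fun x => x ≡ v [ZMOD P])).card with hk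
  have h8 : ((k : ℤ) : ℚ) = (⌊a⌋ : ℚ) - ⌊b⌋ := by
    rw [h1]
    push_cast
    rfl
  have h9 : |((k : ℤ) : ℚ) - (2 * H + 1) / P| ≤ 1 := by
    rw [h8, ← hab, abs_le]
    constructor <;> linarith
  have h10 : |((k : ℚ) : ℝ) - (((2 * H + 1) / P : ℚ) : ℝ)| ≤ 1 := by
    have : |(k : ℚ) - (2 * H + 1) / P| ≤ 1 := by exact_mod_cast h9
    exact_mod_cast this
  push_cast at h10
  exact h10

theorem t : S_CNTB := by
  intro m dd H P hH hP hPH s
  have hPr : (0 : ℝ) < P := by exact_mod_cast hP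
  have hHr : (0 : ℝ) < H := by exact_mod_cast hH
  set D : ℕ := ∑ i, (dd i + 1) with hD
  set y : ℝ := (2 * H + 1) / P with hy
  set t : ℝ := P / (2 * H + 1) with ht
  have hy0 : 0 ≤ y := by positivity
  have ht0 : 0 ≤ t := by positivity
  have htH : t ≤ P / H := by
    rw [ht]
    gcongr
    linarith
  have ht1 : t ≤ 1 := by
    rw [ht, div_le_one (by positivity)]
    have : (P : ℝ) ≤ H := by exact_mod_cast hPH
    linarith
  have hyt : y * t = 1 := by
    rw [hy, ht]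
    field_simp
  have e1 : (bx dd H).filter (fun a => ∀ i l, (P : ℤ) ∣ a i l - s i l) =
      Fintype.piFinset fun i => Fintype.piFinset fun l => (Icc (-(H : ℤ)) H).filter fun x => (P : ℤ) ∣ x - s i l := by
    ext a
    simp only [bx, mem_filter, Fintype.mem_piFinset]
    constructor
    · rintro ⟨h1, h2⟩ i l
      exact ⟨h1 i l, h2 i l⟩
    · intro h
      exact ⟨fun i l => (h i l).1, fun i l => (h i l).2⟩
  have e2 : (((bx dd H).filter (fun a => ∀ i l, (P : ℤ) ∣ a i l - s i l)).card : ℝ) =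
      ∏ i, ∏ l, (((Icc (-(H : ℤ)) H).filter fun x => (P : ℤ) ∣ x - s i l).card : ℝ) := by
    rw [e1, Fintype.card_piFinset]
    push_cast
    refine prod_congr rfl fun i _ => ?_
    rw [Fintype.card_piFinset]
    push_cast
    rfl
  have e3 : ((bx dd H).card : ℝ) / (P : ℝ) ^ D = ∏ i : Fin m, y ^ (dd i + 1) := by
    unfold bx
    rw [Fintype.card_piFinset]
    simp only [Fintype.card_piFinset, prod_const, card_univ, Fintype.card_fin, Int.card_Icc]
    rw [prod_pow_eq_pow_sum, prod_pow_eq_pow_sum, hy, div_pow]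
    have : ((((H : ℤ) + 1 - -(H : ℤ)).toNat : ℕ) : ℝ) = 2 * H + 1 := by
      have h1 : ((H : ℤ) + 1 - -(H : ℤ)).toNat = 2 * H + 1 := by omega
      rw [h1]
      push_cast
      ring
    push_cast
    rw [this]
  rw [e2, e3]
  have h1 : ∀ i : Fin m, |∏ l : Fin (dd i + 1), (((Icc (-(H : ℤ)) H).filter fun x => (P : ℤ) ∣ x - s i l).card : ℝ) -
      y ^ (dd i + 1)| ≤ y ^ (dd i + 1) * ((1 + t) ^ (dd i + 1) - 1) := by
    intro i
    have h2 := prod_bd (univ : Finset (Fin (dd i + 1)))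
      (fun l => (((Icc (-(H : ℤ)) H).filter fun x => (P : ℤ) ∣ x - s i l).card : ℝ)) (fun _ => y) (fun _ => 1) t ht0
      (fun _ _ => hy0) (fun l _ => by
        rw [pow_one, add_sub_cancel_left, hyt]
        exact count H P hP hPH (s i l))
    simp only [prod_const, card_univ, Fintype.card_fin, sum_const, smul_eq_mul, mul_one] at h2
    exact h2
  have h2 := prod_bd (univ : Finset (Fin m))
      (fun i => ∏ l : Fin (dd i + 1), (((Icc (-(H : ℤ)) H).filter fun x => (P : ℤ) ∣ x - s i l).card : ℝ))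
      (fun i => y ^ (dd i + 1)) (fun i => dd i + 1) t ht0 (fun _ _ => by positivity) (fun i _ => h1 i)
  refine h2.trans ?_
  rw [← hD, mul_comm]
  refine mul_le_mul_of_nonneg_right ?_ (prod_nonneg fun _ _ => by positivity)
  refine (pow_bd D ht0 ht1).trans ?_
  have h3 : (1 : ℝ) ≤ 2 ^ D := one_le_pow₀ (by norm_num)
  calc (2 ^ D - 1) * t ≤ 2 ^ D * t := mul_le_mul_of_nonneg_right (by linarith) ht0
    _ ≤ 2 ^ D * (P / H) := mul_le_mul_of_nonneg_left htH (by positivity)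

end Pool.Agent.H13K.CNTB
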