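import Pool.Agent.H13K.StmS

/-! Stub CRT (helper13). -/

set_option autoImplicit false

namespace Pool.Agent.H13K.CRT

open Finset
open Pool.Agent.H373R2.T7 (lamz pz Vz mem_pz)

/-- Chinese remainder for sums -/
lemma crt_sum (m n : ℕ) (hmn : Nat.Coprime m n) (hm : 0 < m) (hn : 0 < n) (u v : ℕ → ℝ)
    (hu : ∀ a, u (a % m) = u a) (hv : ∀ a, v (a % n) = v a) :
    ∑ a ∈ range (m * n), u a * v a = (∑ a ∈ range m, u a) * (∑ a ∈ range n, v a) := by
  rw [Finset.sum_mul_sum, ← Finset.sum_product']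
  refine Finset.sum_nbij' (fun a => (a % m, a % n))
    (fun x => (Nat.chineseRemainder hmn x.1 x.2 : ℕ)) ?_ ?_ ?_ ?_ ?_
  · intro a _
    simp only [mem_product, mem_range]
    exact ⟨Nat.mod_lt _ hm, Nat.mod_lt _ hn⟩
  · intro x _
    simp only [mem_range]
    exact Nat.chineseRemainder_lt_mul hmn _ _ hm.ne' hn.ne'
  · intro a ha
    simp only [mem_range] at ha
    have h := Nat.chineseRemainder_modEq_unique hmn (Nat.mod_modEq a m).symm (Nat.mod_modEq a n).symm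
    have h3 := Nat.chineseRemainder_lt_mul hmn (a % m) (a % n) hm.ne' hn.ne'
    exact (Nat.ModEq.eq_of_lt_of_lt h ha h3).symm
  · rintro ⟨x, y⟩ hx
    simp only [mem_product, mem_range] at hx
    have h := (Nat.chineseRemainder hmn x y).2
    have h1 : (Nat.chineseRemainder hmn x y : ℕ) % m = x := by
      have := h.1; unfold Nat.ModEq at this; rw [this, Nat.mod_eq_of_lt hx.1]
    have h2 : (Nat.chineseRemainder hmn x y : ℕ) % n = y := by
      have := h.2; unfold Nat.ModEq at this; rw [this, Nat.mod_eq_of_lt hx.2]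
    simp [h1, h2]
  · intro a _
    simp only [hu, hv]

lemma prod_period (s : Finset ℕ) (g : ℕ → ℕ → ℝ) (hg : ∀ p ∈ s, ∀ a, g p (a % p) = g p a) (a : ℕ) :
    ∏ p ∈ s, g p (a % ∏ p ∈ s, p) = ∏ p ∈ s, g p a := by
  apply prod_congr rfl
  intro p hp
  rw [← hg p hp, Nat.mod_mod_of_dvd _ (dvd_prod_of_mem _ hp), hg p hp]

lemma prod_sum (s : Finset ℕ) (hs : ∀ p ∈ s, p.Prime) (g : ℕ → ℕ → ℝ)
    (hg : ∀ p ∈ s, ∀ a, g p (a % p) = g p a) :
    ∑ a ∈ range (∏ p ∈ s, p), ∏ p ∈ s, g p a = ∏ p ∈ s, ∑ a ∈ range p, g p a := by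
  classical
  induction s using Finset.induction_on with
  | empty => simp
  | insert q s hq ih =>
    have ih' := ih (fun p hp => hs p (mem_insert_of_mem hp)) (fun p hp => hg p (mem_insert_of_mem hp))
    have hcop : Nat.Coprime q (∏ p ∈ s, p) := by
      apply Nat.Coprime.prod_right
      intro p hp
      rw [Nat.coprime_primes (hs q (mem_insert_self _ _)) (hs p (mem_insert_of_mem hp))]
      exact fun h => hq (h ▸ hp)
    rw [prod_insert hq, prod_insert hq, ← ih']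
    rw [← crt_sum q (∏ p ∈ s, p) hcop (hs q (mem_insert_self _ _)).pos
      (prod_pos fun p hp => (hs p (mem_insert_of_mem hp)).pos) (g q) (fun a => ∏ p ∈ s, g p a)
      (hg q (mem_insert_self _ _)) (fun a => prod_period s g (fun p hp => hg p (mem_insert_of_mem hp)) a)]
    exact sum_congr rfl fun a _ => prod_insert hq

lemma Fv_congr {d : ℕ} (a : Fin (d + 1) → ℤ) (p : ℤ) (x y : ℤ) (h : p ∣ x - y) : p ∣ Fv a x - Fv a y := by
  unfold Fv
  rw [← sum_sub_distrib]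
  refine dvd_sum fun l _ => ?_
  rw [← mul_sub]
  exact Dvd.dvd.mul_left (h.trans (sub_dvd_pow_sub_pow x y _)) _

/-- indicator function: no value is divisible by `p` -/
noncomputable def ind {m : ℕ} {dd : Fin m → ℕ} (a : ∀ i : Fin m, Fin (dd i + 1) → ℤ) (p : ℕ) (α : ℤ) : ℝ :=
  ∏ i, if (p : ℤ) ∣ Fv (a i) α then 0 else 1

lemma lamz_eq (z n : ℕ) : lamz z n = (Vz z)⁻¹ * ∏ p ∈ pz z, if p ∣ n then (0 : ℝ) else 1 := by
  unfold lamz
  split_ifs with h
  · rw [prod_eq_one, mul_one]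
    intro p hp
    rw [if_neg (h p hp)]
  · push Not at h
    obtain ⟨p, hp, hpn⟩ := h
    have h0 : (∏ p ∈ pz z, if p ∣ n then (0 : ℝ) else 1) = 0 := prod_eq_zero hp (by rw [if_pos hpn])
    rw [h0, mul_zero]

/-- product formula for `sf` -/
lemma sf_eq {m : ℕ} {dd : Fin m → ℕ} (z : ℕ) (a : ∀ i : Fin m, Fin (dd i + 1) → ℤ) (n : ℤ) :
    sf z a n = ((Vz z)⁻¹) ^ m * ∏ p ∈ pz z, ind a p n := by
  unfold sf ind
  rw [prod_comm]
  simp only [lamz_eq, prod_mul_distrib, prod_const, card_univ, Fintype.card_fin, Int.natCast_dvd]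

lemma ind_mod {m : ℕ} {dd : Fin m → ℕ} (a : ∀ i : Fin m, Fin (dd i + 1) → ℤ) (p : ℕ) (α : ℕ) :
    ind a p ((α % p : ℕ) : ℤ) = ind a p (α : ℤ) := by
  unfold ind
  refine prod_congr rfl fun i _ => ?_
  have h : (p : ℤ) ∣ ((α % p : ℕ) : ℤ) - (α : ℤ) := by
    push_cast
    have := Int.dvd_self_sub_emod (x := (α : ℤ)) (m := (p : ℤ))
    rw [← neg_sub]
    exact (dvd_neg).2 this
  have h2 := Fv_congr (a i) p _ _ h
  have h3 : ((p : ℤ) ∣ Fv (a i) ((α % p : ℕ) : ℤ)) ↔ ((p : ℤ) ∣ Fv (a i) (α : ℤ)) :=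
    (dvd_iff_dvd_of_dvd_sub h2)
  simp only [h3]

lemma sum_ind {m : ℕ} {dd : Fin m → ℕ} (a : ∀ i : Fin m, Fin (dd i + 1) → ℤ) (p : ℕ) (hp : p.Prime) :
    ∑ α ∈ range p, ind a p (α : ℤ) = (p : ℝ) - om p a := by
  have h1 : ∀ α ∈ range p, ind a p (α : ℤ) = 1 - (if (p : ℤ) ∣ ∏ i, Fv (a i) (α : ℤ) then (1 : ℝ) else 0) := by
    intro α _
    unfold ind
    have hpp : Prime (p : ℤ) := Nat.prime_iff_prime_int.1 hp
    by_cases h : (p : ℤ) ∣ ∏ i, Fv (a i) (α : ℤ)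
    · rw [if_pos h, sub_self]
      obtain ⟨i, hi, hd⟩ := (hpp.dvd_finsetProd_iff _).1 h
      exact prod_eq_zero hi (if_pos hd)
    · rw [if_neg h, sub_zero]
      refine prod_eq_one fun i hi => if_neg fun hd => h ((hpp.dvd_finsetProd_iff _).2 ⟨i, hi, hd⟩)
  rw [sum_congr rfl h1, sum_sub_distrib, sum_const, card_range, nsmul_eq_mul, mul_one, sum_ite, sum_const, sum_const_zero,
    add_zero, nsmul_eq_mul, mul_one]
  rfl

theorem t : S_CRT := by
  intro m dd z a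
  simp only [sf_eq]
  rw [← mul_sum]
  have hs : ∀ p ∈ pz z, p.Prime := fun p hp => (mem_pz.1 hp).2
  have h1 := prod_sum (pz z) hs (fun p α => ind a p (α : ℤ)) (fun p _ α => ind_mod a p α)
  rw [h1]
  unfold Cz Vz
  rw [← prod_inv_distrib, ← prod_pow, ← prod_mul_distrib]
  push_cast
  rw [← prod_mul_distrib]
  refine prod_congr rfl fun p hp => ?_
  have hp2 := (hs p hp).two_le
  have hpr : (2 : ℝ) ≤ p := by exact_mod_cast hp2
  have hp0 : (p : ℝ) ≠ 0 := by linarith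
  have hp1 : (1 - 1 / (p : ℝ)) ≠ 0 := by
    have : (1 : ℝ) / p ≤ 1 / 2 := one_div_le_one_div_of_le (by norm_num) hpr
    linarith
  rw [sum_ind a p (hs p hp), inv_pow]
  have hp2 : (1 - 1 / (p : ℝ)) ^ m ≠ 0 := pow_ne_zero _ hp1
  set w := (1 - 1 / (p : ℝ)) ^ m with hw
  rw [show (1 : ℝ) - (om p a : ℝ) / p = ((p : ℝ) - om p a) / p by field_simp]
  field_simp

end Pool.Agent.H13K.CRT
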