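import Pool.Agent.H13K.StmS

set_option autoImplicit false

namespace Pool.Agent.H13K.FL

open Finset
open Pool.Agent.H373R2.T7

/-- arrays -/
abbrev Arr {m : ℕ} (dd : Fin m → ℕ) := ∀ i : Fin m, Fin (dd i + 1) → ℤ

/-- arrays of residues -/
noncomputable def Om {m : ℕ} (dd : Fin m → ℕ) (P : ℕ) : Finset (Arr dd) :=
  Fintype.piFinset fun i : Fin m => Fintype.piFinset fun _ : Fin (dd i + 1) => (range P).map Nat.castEmbedding

section

variable {m : ℕ} {dd : Fin m → ℕ}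

theorem mem_Om {P : ℕ} {s : Arr dd} : s ∈ Om dd P ↔ ∀ i l, 0 ≤ s i l ∧ s i l < P := by
  unfold Om
  simp only [Fintype.mem_piFinset, mem_map, mem_range, Nat.castEmbedding_apply]
  constructor
  · intro h i l
    obtain ⟨n, hn, he⟩ := h i l
    omega
  · intro h i l
    obtain ⟨h1, h2⟩ := h i l
    exact ⟨(s i l).toNat, by omega, by omega⟩

theorem card_Om (P : ℕ) : (Om dd P).card = P ^ (∑ i, (dd i + 1)) := by
  unfold Om
  rw [Fintype.card_piFinset]
  simp only [Fintype.card_piFinset, card_map, card_range, prod_const, card_univ, Fintype.card_fin]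
  rw [Finset.prod_pow_eq_pow_sum]

/-- congruent modulo `P` -/
def Cg (P : ℕ) (a s : Arr dd) : Prop := ∀ i l, (P : ℤ) ∣ a i l - s i l

theorem Cg.mono {P p : ℕ} {a s : Arr dd} (h : Cg P a s) (hp : p ∣ P) : Cg p a s :=
  fun i l => (Int.natCast_dvd_natCast.2 hp).trans (h i l)

/-- the event of the sieve -/
def Ev (α α' : ℤ) (p : ℕ) (a : Arr dd) : Prop := ∃ i, (p : ℤ) ∣ Fv (a i) α ∨ (p : ℤ) ∣ Fv (a i) α'

theorem Fv_cg {d P : ℕ} {a s : Fin (d + 1) → ℤ} (h : ∀ l, (P : ℤ) ∣ a l - s l) (k : ℤ) :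
    (P : ℤ) ∣ Fv a k - Fv s k := by
  unfold Fv
  rw [← sum_sub_distrib]
  refine dvd_sum fun l _ => ?_
  rw [← sub_mul]
  exact (h l).mul_right _

theorem Ev_cg {P : ℕ} {a s : Arr dd} (h : Cg P a s) (α α' : ℤ) : Ev α α' P a ↔ Ev α α' P s := by
  unfold Ev
  refine exists_congr fun i => ?_
  have h1 := Fv_cg (h i) α
  have h2 := Fv_cg (h i) α'
  have e1 : (P : ℤ) ∣ Fv (a i) α ↔ (P : ℤ) ∣ Fv (s i) α := by
    constructor
    · intro h3
      have := dvd_sub h3 h1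
      simpa using this
    · intro h3
      have := dvd_add h1 h3
      simpa using this
  have e2 : (P : ℤ) ∣ Fv (a i) α' ↔ (P : ℤ) ∣ Fv (s i) α' := by
    constructor
    · intro h3
      have := dvd_sub h3 h2
      simpa using this
    · intro h3
      have := dvd_add h2 h3
      simpa using this
  rw [e1, e2]

theorem crt_ex {P Q : ℕ} (hP : 1 ≤ P) (hQ : 1 ≤ Q) (h : P.Coprime Q) (x y : ℤ) :
    ∃ w : ℤ, (0 ≤ w ∧ w < P * Q) ∧ (P : ℤ) ∣ w - x ∧ (Q : ℤ) ∣ w - y := by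
  have hP0 : (0 : ℤ) < P := by omega
  have hQ0 : (0 : ℤ) < Q := by omega
  obtain ⟨k, hk1, hk2⟩ := Nat.chineseRemainder h (x % P).toNat (y % Q).toNat
  have hx : ((x % P).toNat : ℤ) = x % P := Int.toNat_of_nonneg (Int.emod_nonneg _ hP0.ne')
  have hy : ((y % Q).toNat : ℤ) = y % Q := Int.toNat_of_nonneg (Int.emod_nonneg _ hQ0.ne')
  have h1 : (P : ℤ) ∣ (k : ℤ) - x := by
    have h2 := (Nat.modEq_iff_dvd.1 hk1)
    rw [hx] at h2
    have h3 : (P : ℤ) ∣ x - x % P := Int.dvd_self_sub_emod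
    have h4 := dvd_add h2 h3
    have h5 : x % (P : ℤ) - k + (x - x % P) = -((k : ℤ) - x) := by ring
    rw [h5] at h4
    exact (dvd_neg).1 h4
  have h1' : (Q : ℤ) ∣ (k : ℤ) - y := by
    have h2 := (Nat.modEq_iff_dvd.1 hk2)
    rw [hy] at h2
    have h3 : (Q : ℤ) ∣ y - y % Q := Int.dvd_self_sub_emod
    have h4 := dvd_add h2 h3
    have h5 : y % (Q : ℤ) - k + (y - y % Q) = -((k : ℤ) - y) := by ring
    rw [h5] at h4
    exact (dvd_neg).1 h4
  have hPQ : (0 : ℤ) < P * Q := by positivity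
  have h6 : ((P : ℤ) * Q) ∣ (k : ℤ) % (P * Q) - k := by
    have := Int.dvd_self_sub_emod (x := (k : ℤ)) (m := (P : ℤ) * Q)
    have h7 : (k : ℤ) % (P * Q) - k = -((k : ℤ) - k % (P * Q)) := by ring
    rw [h7]
    exact (dvd_neg).2 this
  refine ⟨(k : ℤ) % (P * Q), ⟨Int.emod_nonneg _ hPQ.ne', Int.emod_lt_of_pos _ hPQ⟩, ?_, ?_⟩
  · have h8 := dvd_add ((dvd_mul_right (P : ℤ) Q).trans h6) h1
    have h9 : (k : ℤ) % (P * Q) - k + (k - x) = (k : ℤ) % (P * Q) - x := by ring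
    rwa [h9] at h8
  · have h8 := dvd_add ((dvd_mul_left (Q : ℤ) P).trans h6) h1'
    have h9 : (k : ℤ) % (P * Q) - k + (k - y) = (k : ℤ) % (P * Q) - y := by ring
    rwa [h9] at h8

open Classical in
theorem card_crt {P Q : ℕ} (hP : 1 ≤ P) (hQ : 1 ≤ Q) (h : P.Coprime Q) (A B : Arr dd → Prop)
    (hA : ∀ a s, Cg P a s → (A a ↔ A s)) (hB : ∀ a s, Cg Q a s → (B a ↔ B s)) :
    ((Om dd (P * Q)).filter fun a => A a ∧ B a).card = ((Om dd P).filter A).card * ((Om dd Q).filter B).card := by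
  have hP0 : (0 : ℤ) < P := by omega
  have hQ0 : (0 : ℤ) < Q := by omega
  rw [← card_product]
  choose W hW0 hW1 hW2 using fun x y => crt_ex hP hQ h x y
  refine card_nbij' (fun a => ((fun i l => a i l % P : Arr dd), (fun i l => a i l % Q : Arr dd)))
    (fun p => (fun i l => W (p.1 i l) (p.2 i l) : Arr dd)) ?_ ?_ ?_ ?_
  · intro a ha
    have ha' := (mem_filter.1 ha)
    refine mem_product.2 ⟨mem_filter.2 ⟨mem_Om.2 fun i l => ⟨Int.emod_nonneg _ hP0.ne', Int.emod_lt_of_pos _ hP0⟩, ?_⟩,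
      mem_filter.2 ⟨mem_Om.2 fun i l => ⟨Int.emod_nonneg _ hQ0.ne', Int.emod_lt_of_pos _ hQ0⟩, ?_⟩⟩
    · exact (hA _ _ fun i l => Int.dvd_self_sub_emod).1 ha'.2.1
    · exact (hB _ _ fun i l => Int.dvd_self_sub_emod).1 ha'.2.2
  · intro p hp
    have hp' := mem_product.1 hp
    have h1 := mem_filter.1 hp'.1
    have h2 := mem_filter.1 hp'.2
    refine mem_filter.2 ⟨mem_Om.2 fun i l => ?_, ?_, ?_⟩
    · have := hW0 (p.1 i l) (p.2 i l)
      push_cast
      exact this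
    · exact (hA _ _ fun i l => hW1 _ _).2 h1.2
    · exact (hB _ _ fun i l => hW2 _ _).2 h2.2
  · intro a ha
    have ha' := mem_Om.1 (mem_filter.1 ha).1
    funext i l
    have h1 := hW1 (a i l % P) (a i l % Q)
    have h2 := hW2 (a i l % P) (a i l % Q)
    have h3 := hW0 (a i l % P) (a i l % Q)
    have h4 := ha' i l
    push_cast at h4
    have h5 : (P : ℤ) ∣ W (a i l % P) (a i l % Q) - a i l := by
      have := dvd_sub h1 (Int.dvd_self_sub_emod (x := a i l) (m := (P : ℤ)))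
      have e : W (a i l % P) (a i l % Q) - a i l % P - (a i l - a i l % P) = W (a i l % P) (a i l % Q) - a i l := by ring
      rwa [e] at this
    have h6 : (Q : ℤ) ∣ W (a i l % P) (a i l % Q) - a i l := by
      have := dvd_sub h2 (Int.dvd_self_sub_emod (x := a i l) (m := (Q : ℤ)))
      have e : W (a i l % P) (a i l % Q) - a i l % Q - (a i l - a i l % Q) = W (a i l % P) (a i l % Q) - a i l := by ring
      rwa [e] at this
    have h7 : ((P : ℤ) * Q) ∣ W (a i l % P) (a i l % Q) - a i l :=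
      (Nat.isCoprime_iff_coprime.2 h).mul_dvd h5 h6
    have h8 := Int.eq_zero_of_abs_lt_dvd h7 (by rw [abs_lt]; constructor <;> linarith [h3.1, h3.2, h4.1, h4.2])
    simp only
    linarith
  · intro p hp
    have hp' := mem_product.1 hp
    have h1 := mem_Om.1 (mem_filter.1 hp'.1).1
    have h2 := mem_Om.1 (mem_filter.1 hp'.2).1
    refine Prod.ext ?_ ?_
    · funext i l
      have h3 := hW1 (p.1 i l) (p.2 i l)
      simp only
      rw [Int.emod_eq_emod_iff_emod_sub_eq_zero.2 (Int.emod_eq_zero_of_dvd h3)]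
      exact Int.emod_eq_of_lt (h1 i l).1 (h1 i l).2
    · funext i l
      have h3 := hW2 (p.1 i l) (p.2 i l)
      simp only
      rw [Int.emod_eq_emod_iff_emod_sub_eq_zero.2 (Int.emod_eq_zero_of_dvd h3)]
      exact Int.emod_eq_of_lt (h2 i l).1 (h2 i l).2

open Classical in
theorem card_S (α α' : ℤ) (S : Finset ℕ) (hS : ∀ p ∈ S, p.Prime) :
    ((Om dd (∏ p ∈ S, p)).filter fun a => ∀ p ∈ S, Ev α α' p a).card =
      ∏ p ∈ S, ((Om dd p).filter fun a => Ev α α' p a).card := by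
  induction S using Finset.induction_on with
  | empty =>
    simp only [prod_empty, notMem_empty, false_implies, implies_true, filter_true]
    rw [card_Om, one_pow]
  | insert p S hp ih =>
    rw [prod_insert hp, prod_insert hp]
    have hSp : ∀ q ∈ S, q.Prime := fun q hq => hS q (mem_insert_of_mem hq)
    have h1 : ((Om dd (p * ∏ q ∈ S, q)).filter fun a => ∀ q ∈ insert p S, Ev α α' q a) =
        ((Om dd (p * ∏ q ∈ S, q)).filter fun a => Ev α α' p a ∧ ∀ q ∈ S, Ev α α' q a) := by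
      refine filter_congr fun a _ => ?_
      rw [forall_mem_insert]
    have h2 := card_crt (dd := dd) (P := p) (Q := ∏ q ∈ S, q) (hS p (mem_insert_self _ _)).one_le
      (Nat.one_le_iff_ne_zero.2 (prod_ne_zero_iff.2 fun q hq => (hSp q hq).ne_zero))
      (Nat.Coprime.prod_right fun q hq => (Nat.coprime_primes (hS p (mem_insert_self _ _)) (hSp q hq)).2 (by
        rintro rfl
        exact hp hq)) (fun a => Ev α α' p a) (fun a => ∀ q ∈ S, Ev α α' q a)
      (fun a s h => Ev_cg h α α') (fun a s h => by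
        constructor
        · intro h2 q hq
          exact (Ev_cg (h.mono (dvd_prod_of_mem _ hq)) α α').1 (h2 q hq)
        · intro h2 q hq
          exact (Ev_cg (h.mono (dvd_prod_of_mem _ hq)) α α').2 (h2 q hq))
    rw [h1, ← ih hSp]
    convert h2

open Classical in
theorem box_count (P H : ℕ) (hP : 1 ≤ P) (A : Arr dd → Prop) (hA : ∀ a s, Cg P a s → (A a ↔ A s)) :
    ((bx dd H).filter A).card = ∑ s ∈ (Om dd P).filter A, ((bx dd H).filter fun a => Cg P a s).card := by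
  have hP0 : (0 : ℤ) < P := by omega
  rw [card_eq_sum_card_fiberwise (f := fun a => (fun i l => a i l % P : Arr dd)) (t := (Om dd P).filter A)]
  · refine sum_congr rfl fun s hs => ?_
    rw [mem_filter] at hs
    congr 1
    ext a
    simp only [mem_filter]
    constructor
    · rintro ⟨⟨h1, h2⟩, h3⟩
      refine ⟨h1, fun i l => ?_⟩
      rw [← h3]
      exact Int.dvd_self_sub_emod
    · rintro ⟨h1, h2⟩
      refine ⟨⟨h1, (hA a s h2).2 hs.2⟩, ?_⟩
      funext i l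
      have h3 := mem_Om.1 hs.1 i l
      rw [Int.emod_eq_emod_iff_emod_sub_eq_zero.2 (Int.emod_eq_zero_of_dvd (h2 i l))]
      exact Int.emod_eq_of_lt h3.1 h3.2
  · intro a ha
    have ha' := mem_filter.1 (Finset.mem_coe.1 ha)
    refine Finset.mem_coe.2 (mem_filter.2 ⟨mem_Om.2 fun i l => ⟨Int.emod_nonneg _ hP0.ne', Int.emod_lt_of_pos _ hP0⟩, ?_⟩)
    exact (hA _ _ fun i l => Int.dvd_self_sub_emod).1 ha'.2

/-- the density of the event -/
noncomputable def g (m : ℕ) (α α' : ℤ) (p : ℕ) : ℝ := 1 - (1 - 1 / (p : ℝ)) ^ (if (p : ℤ) ∣ α - α' then m else 2 * m)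

theorem pw_bounds {p : ℕ} (hp : p.Prime) : 0 ≤ 1 - 1 / (p : ℝ) ∧ 1 - 1 / (p : ℝ) ≤ 1 := by
  have h2 : (2 : ℝ) ≤ p := by exact_mod_cast hp.two_le
  have h3 : 1 / (p : ℝ) ≤ 1 := by
    rw [div_le_one (by linarith)]
    linarith
  have h4 : 0 ≤ 1 / (p : ℝ) := by positivity
  constructor <;> linarith

theorem g_bounds (α α' : ℤ) {p : ℕ} (hp : p.Prime) : 0 ≤ g m α α' p ∧ g m α α' p ≤ 1 := by
  unfold g
  obtain ⟨h1, h2⟩ := pw_bounds hp
  have h3 := pow_le_one₀ h1 h2 (n := if (p : ℤ) ∣ α - α' then m else 2 * m)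
  have h4 := pow_nonneg h1 (if (p : ℤ) ∣ α - α' then m else 2 * m)
  constructor <;> linarith

theorem g_le (α α' : ℤ) {p : ℕ} (hp : p.Prime) : g m α α' p ≤ 2 * m * (1 / (p : ℝ)) := by
  unfold g
  obtain ⟨h1, h2⟩ := pw_bounds hp
  have h5 : (1 - 1 / (p : ℝ)) ^ (2 * m) ≤ (1 - 1 / (p : ℝ)) ^ (if (p : ℤ) ∣ α - α' then m else 2 * m) := by
    refine pow_le_pow_of_le_one h1 h2 ?_
    split_ifs <;> omega
  have h6 := one_add_mul_le_pow (a := -(1 / (p : ℝ))) (by linarith) (2 * m)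
  have h7 : (1 + -(1 / (p : ℝ))) = 1 - 1 / (p : ℝ) := by ring
  rw [h7] at h6
  push_cast at h6
  linarith

open Classical in
theorem local_card (hloc : S_LOC) (hdd : ∀ i, 1 ≤ dd i) (α α' : ℤ) {p : ℕ} (hp : p.Prime) :
    (((Om dd p).filter fun a => Ev α α' p a).card : ℝ) = (p : ℝ) ^ (∑ i, (dd i + 1)) * g m α α' p := by
  have h1 := hloc m dd hdd p hp α α'
  have h2 := card_filter_add_card_filter_not (s := Om dd p) (fun a => Ev α α' p a)
  have h3 : ((Om dd p).filter fun a => ¬ Ev α α' p a).card =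
      ((Fintype.piFinset fun i : Fin m => Fintype.piFinset fun _ : Fin (dd i + 1) => (range p).map Nat.castEmbedding).filter
      (fun a : (∀ i : Fin m, Fin (dd i + 1) → ℤ) =>
        ∀ i, ¬ (p : ℤ) ∣ Fv (a i) α ∧ ¬ (p : ℤ) ∣ Fv (a i) α')).card := by
    congr 1
    ext a
    simp only [mem_filter, Om, Ev, not_exists, not_or]
  rw [← h3] at h1
  rw [card_Om] at h2
  have h4 : (((Om dd p).filter fun a => Ev α α' p a).card : ℝ) + (((Om dd p).filter fun a => ¬ Ev α α' p a).card : ℝ) =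
      (p : ℝ) ^ (∑ i, (dd i + 1)) := by exact_mod_cast h2
  rw [h1] at h4
  unfold g
  linarith

open Classical in
theorem main_S (hcnt : S_CNTB) (hloc : S_LOC) (hdd : ∀ i, 1 ≤ dd i) (α α' : ℤ) (S : Finset ℕ)
    (hS : ∀ p ∈ S, p.Prime) (H : ℕ) (hH : 1 ≤ H) (hP : ∏ p ∈ S, p ≤ H) :
    |(((bx dd H).filter fun a => ∀ p ∈ S, Ev α α' p a).card : ℝ) - (bx dd H).card * ∏ p ∈ S, g m α α' p| ≤
      2 ^ (∑ i, (dd i + 1)) * (((∏ p ∈ S, p : ℕ) : ℝ) / H) * (bx dd H).card := by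
  set P : ℕ := ∏ p ∈ S, p with hPd
  set D : ℕ := ∑ i, (dd i + 1) with hD
  have hP1 : 1 ≤ P := Nat.one_le_iff_ne_zero.2 (prod_ne_zero_iff.2 fun q hq => (hS q hq).ne_zero)
  have hP0 : (0 : ℝ) < (P : ℝ) ^ D := by positivity
  set X : ℝ := ((bx dd H).card : ℝ) with hX
  have hX0 : 0 ≤ X := Nat.cast_nonneg _
  have h1 : (((bx dd H).filter fun a => ∀ p ∈ S, Ev α α' p a).card : ℝ) =
      ∑ s ∈ (Om dd P).filter (fun a => ∀ p ∈ S, Ev α α' p a), (((bx dd H).filter fun a => Cg P a s).card : ℝ) := by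
    have h0 := box_count (dd := dd) P H hP1 (fun a => ∀ p ∈ S, Ev α α' p a) (fun a s h => by
        constructor
        · intro h2 q hq
          exact (Ev_cg (h.mono (dvd_prod_of_mem _ hq)) α α').1 (h2 q hq)
        · intro h2 q hq
          exact (Ev_cg (h.mono (dvd_prod_of_mem _ hq)) α α').2 (h2 q hq))
    rw [← Nat.cast_sum]
    congr 1
    convert h0
  have h2 : (((Om dd P).filter fun a => ∀ p ∈ S, Ev α α' p a).card : ℝ) = (P : ℝ) ^ D * ∏ p ∈ S, g m α α' p := by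
    rw [hPd, card_S α α' S hS]
    push_cast
    rw [← Finset.prod_pow, ← prod_mul_distrib]
    exact prod_congr rfl fun p hp => local_card hloc hdd α α' (hS p hp)
  have h3 : X * ∏ p ∈ S, g m α α' p = ∑ _s ∈ (Om dd P).filter (fun a => ∀ p ∈ S, Ev α α' p a), X / (P : ℝ) ^ D := by
    rw [sum_const, nsmul_eq_mul, h2]
    field_simp
  rw [h1, h3, ← sum_sub_distrib]
  refine (abs_sum_le_sum_abs _ _).trans ?_
  have h4 : ∀ s ∈ (Om dd P).filter (fun a => ∀ p ∈ S, Ev α α' p a),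
      |(((bx dd H).filter fun a => Cg P a s).card : ℝ) - X / (P : ℝ) ^ D| ≤ 2 ^ D * (P / H) * (X / (P : ℝ) ^ D) := by
    intro s _
    have h5 := hcnt m dd H P hH hP1 hP s
    unfold Cg
    convert h5
  refine (sum_le_sum h4).trans ?_
  rw [sum_const, nsmul_eq_mul]
  have h7 : (((Om dd P).filter fun a => ∀ p ∈ S, Ev α α' p a).card : ℝ) ≤ (P : ℝ) ^ D := by
    have := (card_filter_le (Om dd P) (fun a => ∀ p ∈ S, Ev α α' p a))
    rw [card_Om] at this
    exact_mod_cast this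
  calc _ ≤ (P : ℝ) ^ D * (2 ^ D * (P / H) * (X / (P : ℝ) ^ D)) := mul_le_mul_of_nonneg_right h7 (by positivity)
    _ = _ := by field_simp

open Classical in
theorem sf_mul (z : ℕ) (a : Arr dd) (α α' : ℤ) :
    sf z a α * sf z a α' = if ∀ p ∈ pz z, ¬ Ev α α' p a then ((Vz z)⁻¹) ^ (2 * m) else 0 := by
  unfold sf
  by_cases h : ∀ p ∈ pz z, ¬ Ev α α' p a
  · rw [if_pos h]
    have h1 : ∀ i : Fin m, lamz z (Fv (a i) α).natAbs = (Vz z)⁻¹ := by
      intro i
      unfold lamz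
      rw [if_pos]
      intro p hp hd
      exact h p hp ⟨i, Or.inl (Int.natCast_dvd.2 hd)⟩
    have h2 : ∀ i : Fin m, lamz z (Fv (a i) α').natAbs = (Vz z)⁻¹ := by
      intro i
      unfold lamz
      rw [if_pos]
      intro p hp hd
      exact h p hp ⟨i, Or.inr (Int.natCast_dvd.2 hd)⟩
    simp only [h1, h2, prod_const, card_univ, Fintype.card_fin]
    rw [← pow_add]
    congr 1
    ring
  · rw [if_neg h]
    push Not at h
    obtain ⟨p, hp, i, hi⟩ := h
    rcases hi with hi | hi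
    · rw [prod_eq_zero (mem_univ i), zero_mul]
      unfold lamz
      rw [if_neg]
      intro h
      exact h p hp (Int.natCast_dvd.1 hi)
    · rw [mul_comm, prod_eq_zero (mem_univ i), zero_mul]
      unfold lamz
      rw [if_neg]
      intro h
      exact h p hp (Int.natCast_dvd.1 hi)

theorem Ym_eq (z : ℕ) (α α' : ℤ) :
    ((Vz z)⁻¹) ^ (2 * m) * ∏ p ∈ pz z, (1 - g m α α' p) = Ym m z (α - α') := by
  unfold Ym Vz g
  rw [← prod_inv_distrib, ← prod_pow, ← prod_mul_distrib, prod_filter]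
  refine prod_congr rfl fun p hp => ?_
  have h1 : 1 - 1 / (p : ℝ) ≠ 0 := by
    have h2 : (2 : ℝ) ≤ p := by exact_mod_cast (mem_pz.1 hp).2.two_le
    have h3 : 1 / (p : ℝ) < 1 := by
      rw [div_lt_one (by linarith)]
      linarith
    linarith
  rw [sub_sub_cancel]
  split_ifs
  · rw [inv_pow, two_mul, pow_add]
    field_simp
  · rw [inv_pow]
    field_simp

open Classical in
theorem sum_eq (z H : ℕ) (α α' : ℤ) : ∑ a ∈ bx dd H, sf z a α * sf z a α' =
    ((Vz z)⁻¹) ^ (2 * m) * (((bx dd H).filter fun a => ∀ p ∈ pz z, ¬ Ev α α' p a).card : ℝ) := by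
  simp only [sf_mul]
  rw [← sum_filter, sum_const, nsmul_eq_mul, mul_comm]

end

theorem t (hcnt : S_CNTB) (hloc : S_LOC) : S_FL := by
  classical
  intro m dd E U hdd
  set D : ℕ := ∑ i, (dd i + 1) with hD
  obtain ⟨N0, h0⟩ := choice (2 * m) E (U + 2 * m * E + 1) 4
  obtain ⟨n1, h1⟩ := ev_log' (U + 2 * m * E + 1) 1
  obtain ⟨n2, h2⟩ := ev_L' (2 ^ D + 2)
  refine ⟨max (max N0 n1) (max n2 1), fun H hH z hz α α' => ?_⟩
  have a0 := h0 H (le_trans (le_trans (le_max_left _ _) (le_max_left _ _)) hH) z hz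
  have a1 := h1 H (le_trans (le_trans (le_max_right _ _) (le_max_left _ _)) hH)
  have hL := h2 H (le_trans (le_trans (le_max_left _ _) (le_max_right _ _)) hH)
  have hH1 : 1 ≤ H := le_trans (le_trans (le_max_right _ _) (le_max_right _ _)) hH
  have hHr : (1 : ℝ) ≤ H := by exact_mod_cast hH1
  have hH0 : (0 : ℝ) < H := by linarith
  set L := Real.log H with hLd
  have h2D : (1 : ℝ) ≤ 2 ^ D := one_le_pow₀ (by norm_num)
  have hL1 : 1 ≤ L := by linarith
  have hL0 : 0 < L := by linarith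
  obtain ⟨r, hr1, hr2, _⟩ := a0
  set X : ℝ := ((bx dd H).card : ℝ) with hX
  have hX0 : 0 ≤ X := Nat.cast_nonneg _
  have hz1 : (1 : ℝ) ≤ ((z : ℝ) + 1) ^ r := one_le_pow₀ (by have : (0 : ℝ) ≤ z := Nat.cast_nonneg _; linarith)
  set Q : ℝ := ((z : ℝ) + 1) ^ r with hQ
  have hQ2 : Q * Q ≤ √H := by
    rw [← Real.sqrt_sq (by positivity : (0 : ℝ) ≤ Q * Q)]
    refine Real.sqrt_le_sqrt ?_
    calc (Q * Q) ^ 2 = Q ^ 4 := by ring
      _ ≤ (H : ℝ) := hr2
  have hQH : Q ≤ H := by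
    calc Q ≤ Q ^ 4 := le_self_pow₀ hz1 (by norm_num)
      _ ≤ (H : ℝ) := hr2
  rw [sum_eq, ← Ym_eq]
  have key := sieve_gen' (bx dd H) (fun _ => (1 : ℝ)) (fun _ _ => zero_le_one)
    (fun p a => Ev α α' p a) (pz z) (fun p => g m α α' p) (fun p hp => g_bounds α α' (mem_pz.1 hp).2) X hX0
    (fun _ => 2 ^ D * (Q / H) * X) r (by
      intro S hS hSr
      have hSp : ∀ p ∈ S, p.Prime := fun p hp => (mem_pz.1 (hS hp)).2
      have h3 : ((∏ p ∈ S, p : ℕ) : ℝ) ≤ Q := by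
        have := prod_le_pow S z r hS hSr
        rw [hQ]
        exact_mod_cast this
      have h4 : ∏ p ∈ S, p ≤ H := by
        have : ((∏ p ∈ S, p : ℕ) : ℝ) ≤ (H : ℝ) := h3.trans hQH
        exact_mod_cast this
      have h5 := main_S hcnt hloc hdd α α' S hSp H hH1 h4
      rw [sum_const, nsmul_eq_mul, mul_one]
      refine h5.trans ?_
      gcongr)
  rw [sum_const, nsmul_eq_mul, mul_one] at key
  have h4 : ∑ j ∈ range (r + 1), ∑ S ∈ (pz z).powersetCard j, (2 ^ D * (Q / H) * X) ≤ 2 ^ D * X * (√H / H) := by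
    have h5 := card_small (pz z) r
    have h6 : ∑ j ∈ range (r + 1), ∑ S ∈ (pz z).powersetCard j, (2 ^ D * (Q / H) * X) =
        ((∑ j ∈ range (r + 1), ((pz z).powersetCard j).card : ℕ) : ℝ) * (2 ^ D * (Q / H) * X) := by
      push_cast
      rw [sum_mul]
      refine sum_congr rfl fun j _ => ?_
      rw [sum_const, nsmul_eq_mul]
    rw [h6]
    have h7 : (((pz z).card : ℝ) + 1) ^ r ≤ Q := by
      have h8 : ((pz z).card : ℝ) ≤ z := by exact_mod_cast card_pz_le z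
      rw [hQ]
      gcongr
    calc _ ≤ Q * (2 ^ D * (Q / H) * X) := mul_le_mul_of_nonneg_right (h5.trans h7) (by positivity)
      _ = 2 ^ D * X * (Q * Q / H) := by ring
      _ ≤ _ := by gcongr
  have h5 : es (fun p => g m α α' p) (pz z) r ≤ 1 / L ^ (U + 2 * m * E + 1) := by
    refine (es_le (fun p hp => (g_bounds α α' (mem_pz.1 hp).2).1) r).trans (le_trans ?_ hr1)
    apply Real.exp_le_exp.2
    have h6 : ∑ p ∈ pz z, g m α α' p ≤ 2 * m * ∑ p ∈ pz z, 1 / (p : ℝ) := by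
      rw [mul_sum]
      exact sum_le_sum fun p hp => g_le α α' (mem_pz.1 hp).2
    have h7 := sum_pz_le z
    have h8 : (2 * m : ℝ) * ∑ p ∈ pz z, 1 / (p : ℝ) ≤ 2 * m * (1 + Real.log z) :=
      mul_le_mul_of_nonneg_left h7 (by positivity)
    push_cast
    linarith
  have hV : ((Vz z)⁻¹) ^ (2 * m) ≤ L ^ (2 * m * E) := by
    have h6 : (Vz z)⁻¹ ≤ L ^ E := by
      rcases Nat.eq_zero_or_pos z with h | h
      · subst h
        have h7 : Vz 0 = 1 := by
          unfold Vz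
          have : pz 0 = ∅ := by
            unfold pz
            simp
          rw [this, prod_empty]
        rw [h7, inv_one]
        exact one_le_pow₀ hL1
      · exact (Vz_inv_le z h).trans hz
    calc ((Vz z)⁻¹) ^ (2 * m) ≤ (L ^ E) ^ (2 * m) := pow_le_pow_left₀ (inv_pos.2 (Vz_pos z)).le h6 _
      _ = L ^ (2 * m * E) := by rw [← pow_mul]; congr 1; ring
  have hV0 : 0 ≤ ((Vz z)⁻¹) ^ (2 * m) := pow_nonneg (inv_pos.2 (Vz_pos z)).le _
  have h8 : √(H : ℝ) / H ≤ 1 / L ^ (U + 2 * m * E + 1) := by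
    rw [div_le_div_iff₀ hH0 (by positivity), one_mul]
    rw [one_mul] at a1
    calc √(H : ℝ) * L ^ (U + 2 * m * E + 1) ≤ √(H : ℝ) * √(H : ℝ) := by gcongr
      _ = H := Real.mul_self_sqrt hH0.le
  have e1 : ((Vz z)⁻¹) ^ (2 * m) * (((bx dd H).filter fun a => ∀ p ∈ pz z, ¬ Ev α α' p a).card : ℝ) -
      X * (((Vz z)⁻¹) ^ (2 * m) * ∏ p ∈ pz z, (1 - g m α α' p)) =
      ((Vz z)⁻¹) ^ (2 * m) * ((((bx dd H).filter fun a => ∀ p ∈ pz z, ¬ Ev α α' p a).card : ℝ) -
        X * ∏ p ∈ pz z, (1 - g m α α' p)) := by ring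
  rw [e1, abs_mul, abs_of_nonneg hV0]
  calc _ ≤ L ^ (2 * m * E) * (2 ^ D * X * (1 / L ^ (U + 2 * m * E + 1)) + 2 * X * (1 / L ^ (U + 2 * m * E + 1))) := by
        refine mul_le_mul hV (key.trans (add_le_add (h4.trans ?_) ?_)) (abs_nonneg _) (by positivity)
        · gcongr
        · gcongr
    _ = (2 ^ D + 2) / L * (X / L ^ U) := by
        rw [pow_succ, pow_add]
        field_simp
    _ ≤ 1 * (X / L ^ U) := by
        refine mul_le_mul_of_nonneg_right ?_ (by positivity)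
        rw [div_le_one hL0]
        exact hL
    _ = X / L ^ U := one_mul _

end Pool.Agent.H13K.FL
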