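import Pool.Agent.H13K.StmS

/-! Project BH, stub LOC: local densities. -/

set_option autoImplicit false

namespace Pool.Agent.H13K.LOC

open Finset Pool.Agent.H13K

/-- preimages under surjective homomorphisms of finite groups -/
theorem pre {G K : Type*} [AddGroup G] [Fintype G] [AddGroup K] [Fintype K] [DecidableEq K]
    (φ : G →+ K) (hs : Function.Surjective φ) (S : Finset K) :
    ((univ.filter (fun g => φ g ∈ S)).card) * Fintype.card K = S.card * Fintype.card G := by
  classical
  have hf : ∀ y : K, (univ.filter (fun g => φ g = y)).card =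
      (univ.filter (fun g => φ g = 0)).card := fun y =>
    AddMonoidHom.card_fiber_eq_of_mem_range φ (hs y) (hs 0)
  set k := (univ.filter (fun g => φ g = 0)).card with hk
  have h1 : ∀ T : Finset K, (univ.filter (fun g => φ g ∈ T)).card = T.card * k := by
    intro T
    rw [card_eq_sum_card_fiberwise (f := φ) (t := T)]
    · have : ∀ y ∈ T, ((univ.filter (fun g => φ g ∈ T)).filter (fun g => φ g = y)).card = k := by
        intro y hy
        rw [← hf y]
        congr 1
        ext g
        simp only [mem_filter, mem_univ, true_and]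
        constructor
        · exact fun h => h.2
        · exact fun h => ⟨h ▸ hy, h⟩
      rw [sum_congr rfl this]
      simp
    · intro g hg
      simpa using hg
  have h2 : Fintype.card G = Fintype.card K * k := by
    have := h1 univ
    simpa using this
  rw [h1, h2]
  ring

/-- the evaluation as an additive homomorphism -/
noncomputable def ev (p d : ℕ) (x : ZMod p) : (Fin (d + 1) → ZMod p) →+ ZMod p where
  toFun b := ∑ l : Fin (d + 1), b l * x ^ (l : ℕ)
  map_zero' := by simp
  map_add' a b := by simp [add_mul, sum_add_distrib]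

theorem ev_apply (p d : ℕ) (x : ZMod p) (b : Fin (d + 1) → ZMod p) :
    ev p d x b = ∑ l : Fin (d + 1), b l * x ^ (l : ℕ) := rfl

theorem ev_zero (p d : ℕ) (x y : ZMod p) : ev p d x (Pi.single 0 y) = y := by
  rw [ev_apply, Finset.sum_eq_single 0]
  · simp
  · intro b _ hb; simp [hb]
  · simp

theorem ev_one (p d : ℕ) (hd : 1 ≤ d) (x y : ZMod p) :
    ev p d x (Pi.single (⟨1, by omega⟩ : Fin (d + 1)) y) = y * x := by
  rw [ev_apply, Finset.sum_eq_single (⟨1, by omega⟩ : Fin (d + 1))]
  · simp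
  · intro b _ hb; simp [hb]
  · simp

/-- transfer to `ZMod p` -/
theorem transfer (p d : ℕ) [Fact p.Prime] (α α' : ℤ) :
    ((Fintype.piFinset fun _ : Fin (d + 1) => (range p).map Nat.castEmbedding).filter
      (fun b : (Fin (d + 1) → ℤ) => ¬ (p : ℤ) ∣ Fv b α ∧ ¬ (p : ℤ) ∣ Fv b α')).card =
    (univ.filter (fun b : Fin (d + 1) → ZMod p => ev p d (α : ZMod p) b ≠ 0 ∧
      ev p d (α' : ZMod p) b ≠ 0)).card := by
  have hcast : ∀ (b : Fin (d + 1) → ℤ) (x : ℤ),
      ((Fv b x : ℤ) : ZMod p) = ev p d (x : ZMod p) (fun l => (b l : ZMod p)) := by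
    intro b x
    rw [ev_apply]
    simp [Fv]
  have hdvd : ∀ (b : Fin (d + 1) → ℤ) (x : ℤ),
      (p : ℤ) ∣ Fv b x ↔ ev p d (x : ZMod p) (fun l => (b l : ZMod p)) = 0 := by
    intro b x
    rw [← hcast, ZMod.intCast_zmod_eq_zero_iff_dvd]
  refine card_nbij' (fun b l => (b l : ZMod p)) (fun c l => ((c l).val : ℤ)) ?_ ?_ ?_ ?_
  · intro b hb
    simp only [coe_filter, Set.mem_setOf_eq] at hb
    simp only [coe_filter, Set.mem_setOf_eq, mem_univ, true_and]
    exact ⟨fun h => hb.2.1 ((hdvd b α).mpr h), fun h => hb.2.2 ((hdvd b α').mpr h)⟩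
  · intro c hc
    simp only [coe_filter, Set.mem_setOf_eq, mem_univ, true_and] at hc
    simp only [coe_filter, Set.mem_setOf_eq]
    have hcc : (fun l => ((((c l).val : ℤ)) : ZMod p)) = c := by
      funext l; simp
    refine ⟨?_, fun h => hc.1 ?_, fun h => hc.2 ?_⟩
    · rw [Fintype.mem_piFinset]
      intro l
      rw [mem_map]
      exact ⟨(c l).val, mem_range.mpr (ZMod.val_lt _), rfl⟩
    · have := (hdvd _ α).mp h
      rwa [hcc] at this
    · have := (hdvd _ α').mp h
      rwa [hcc] at this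
  · intro b hb
    simp only [coe_filter, Set.mem_setOf_eq] at hb
    funext l
    have h := Fintype.mem_piFinset.mp hb.1 l
    rw [mem_map] at h
    obtain ⟨x, hx, hxb⟩ := h
    have hx' := mem_range.mp hx
    have hxb' : b l = (x : ℤ) := by rw [← hxb]; rfl
    simp only [hxb', Int.cast_natCast]
    rw [ZMod.val_natCast_of_lt hx']
  · intro c hc
    funext l
    simp

theorem one (p d : ℕ) (hd : 1 ≤ d) (hp : p.Prime) (α α' : ℤ) :
    (((Fintype.piFinset fun _ : Fin (d + 1) => (range p).map Nat.castEmbedding).filter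
      (fun b : (Fin (d + 1) → ℤ) => ¬ (p : ℤ) ∣ Fv b α ∧ ¬ (p : ℤ) ∣ Fv b α')).card : ℝ) =
    (p : ℝ) ^ (d + 1) * (1 - 1 / (p : ℝ)) ^ (if (p : ℤ) ∣ α - α' then 1 else 2) := by
  haveI : Fact p.Prime := ⟨hp⟩
  have hp0 : (p : ℝ) ≠ 0 := by exact_mod_cast hp.ne_zero
  rw [transfer]
  have hcardG : Fintype.card (Fin (d + 1) → ZMod p) = p ^ (d + 1) := by
    simp [ZMod.card]
  have hp1 : ((p - 1 : ℕ) : ℝ) = (p : ℝ) - 1 := by
    rw [Nat.cast_sub hp.one_lt.le]; simp
  have hS1 : ((univ : Finset (ZMod p)).erase 0).card = p - 1 := by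
    rw [card_erase_of_mem (mem_univ _), card_univ, ZMod.card]
  by_cases hαα : (p : ℤ) ∣ α - α'
  · have heq : (α : ZMod p) = (α' : ZMod p) := by
      have := (ZMod.intCast_zmod_eq_zero_iff_dvd (α - α') p).mpr hαα
      push_cast at this
      exact sub_eq_zero.mp this
    rw [if_pos hαα, pow_one, ← heq]
    have h := pre (ev p d (α : ZMod p)) (fun y => ⟨_, ev_zero p d _ y⟩) (univ.erase 0)
    rw [hcardG, ZMod.card, hS1] at h
    have hset : (univ.filter (fun b : Fin (d + 1) → ZMod p => ev p d (α : ZMod p) b ≠ 0 ∧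
      ev p d (α : ZMod p) b ≠ 0)) = univ.filter (fun g => ev p d (α : ZMod p) g ∈ (univ : Finset (ZMod p)).erase 0) := by
      ext b; simp
    rw [hset]
    have h' : ((univ.filter (fun g => ev p d (α : ZMod p) g ∈ (univ : Finset (ZMod p)).erase 0)).card : ℝ) * p
        = ((p - 1 : ℕ) : ℝ) * (p : ℝ) ^ (d + 1) := by exact_mod_cast h
    rw [hp1] at h'
    field_simp
    linear_combination h'
  · have hne : (α : ZMod p) - (α' : ZMod p) ≠ 0 := by
      intro h
      apply hαα
      rw [← ZMod.intCast_zmod_eq_zero_iff_dvd]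
      push_cast
      exact h
    rw [if_neg hαα]
    have hsurj : Function.Surjective ((ev p d (α : ZMod p)).prod (ev p d (α' : ZMod p))) := by
      rintro ⟨x, y⟩
      refine ⟨Pi.single 0 (x - (x - y) / ((α : ZMod p) - α') * α) +
        Pi.single (⟨1, by omega⟩ : Fin (d + 1)) ((x - y) / ((α : ZMod p) - α')), ?_⟩
      rw [AddMonoidHom.prod_apply, map_add, map_add, ev_zero, ev_zero, ev_one p d hd, ev_one p d hd]
      ext
      · simp
      · simp only
        field_simp
        ring
    have h := pre ((ev p d (α : ZMod p)).prod (ev p d (α' : ZMod p))) hsurj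
      ((univ.erase 0) ×ˢ (univ.erase 0))
    rw [hcardG, Fintype.card_prod, ZMod.card, card_product, hS1] at h
    have hset : (univ.filter (fun b : Fin (d + 1) → ZMod p => ev p d (α : ZMod p) b ≠ 0 ∧
      ev p d (α' : ZMod p) b ≠ 0)) = univ.filter (fun g =>
        ((ev p d (α : ZMod p)).prod (ev p d (α' : ZMod p))) g ∈
          ((univ : Finset (ZMod p)).erase 0) ×ˢ ((univ : Finset (ZMod p)).erase 0)) := by
      ext b; simp
    rw [hset]
    have h' : ((univ.filter (fun g =>
        ((ev p d (α : ZMod p)).prod (ev p d (α' : ZMod p))) g ∈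
          ((univ : Finset (ZMod p)).erase 0) ×ˢ ((univ : Finset (ZMod p)).erase 0))).card : ℝ) * (p * p)
        = (((p - 1 : ℕ) : ℝ) * ((p - 1 : ℕ) : ℝ)) * (p : ℝ) ^ (d + 1) := by exact_mod_cast h
    rw [hp1] at h'
    field_simp
    linear_combination h'

theorem t : S_LOC := by
  intro m dd hdd p hp α α'
  have hset : ((Fintype.piFinset fun i : Fin m => Fintype.piFinset fun _ : Fin (dd i + 1) =>
      (range p).map Nat.castEmbedding).filter
      (fun a : (∀ i : Fin m, Fin (dd i + 1) → ℤ) =>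
        ∀ i, ¬ (p : ℤ) ∣ Fv (a i) α ∧ ¬ (p : ℤ) ∣ Fv (a i) α')) =
      Fintype.piFinset fun i : Fin m => (Fintype.piFinset fun _ : Fin (dd i + 1) =>
        (range p).map Nat.castEmbedding).filter
        (fun b : (Fin (dd i + 1) → ℤ) => ¬ (p : ℤ) ∣ Fv b α ∧ ¬ (p : ℤ) ∣ Fv b α') := by
    ext a
    simp only [mem_filter, Fintype.mem_piFinset]
    constructor
    · rintro ⟨h1, h2⟩ i
      exact ⟨h1 i, h2 i⟩
    · intro h
      exact ⟨fun i => (h i).1, fun i => (h i).2⟩
  rw [hset, Fintype.card_piFinset, Nat.cast_prod]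
  rw [prod_congr rfl fun i _ => one p (dd i) (hdd i) hp α α']
  rw [prod_mul_distrib, prod_pow_eq_pow_sum, prod_const, card_univ, Fintype.card_fin, ← pow_mul]
  congr 2
  split_ifs <;> ring

end Pool.Agent.H13K.LOC
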