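import Pool.Agent.H13K.StmS

/-!
# Project BH (helper13), part S, stub LOWC (helper95)
-/

set_option autoImplicit false

namespace Pool.Agent.H13K.LOWC

open Finset Polynomial
open Pool.Agent.H373R2.T7 (lamz pz Vz Vz_pos)

lemma om_le {m : ℕ} {dd : Fin m → ℕ} (p : ℕ) (a : ∀ i : Fin m, Fin (dd i + 1) → ℤ) : om p a ≤ p := by
  unfold om
  exact (card_filter_le _ _).trans (card_range p).le

lemma om_deg {m : ℕ} {dd : Fin m → ℕ} (p : ℕ) (hp : p.Prime) (a : ∀ i : Fin m, Fin (dd i + 1) → ℤ)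
    (h : om p a ≠ p) : om p a ≤ ∑ i, dd i := by
  haveI : Fact p.Prime := ⟨hp⟩
  set F : (ZMod p)[X] := ∏ i : Fin m, ∑ l : Fin (dd i + 1), C (a i l : ZMod p) * X ^ (l : ℕ) with hF
  have hev : ∀ n : ℕ, F.eval (n : ZMod p) = ((∏ i, Fv (a i) (n : ℤ) : ℤ) : ZMod p) := by
    intro n
    rw [hF, eval_prod]
    push_cast
    refine prod_congr rfl fun i _ => ?_
    rw [eval_finsetSum]
    unfold Fv
    push_cast
    refine sum_congr rfl fun l _ => ?_
    simp
  have hz : ∀ n : ℕ, F.eval (n : ZMod p) = 0 ↔ (p : ℤ) ∣ ∏ i, Fv (a i) (n : ℤ) := by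
    intro n
    rw [hev, ZMod.intCast_zmod_eq_zero_iff_dvd]
  have hF0 : F ≠ 0 := by
    intro h0
    apply h
    unfold om
    rw [filter_true_of_mem, card_range]
    intro n _
    rw [← hz, h0, eval_zero]
  have hdeg : F.natDegree ≤ ∑ i, dd i := by
    rw [hF]
    refine (natDegree_prod_le _ _).trans (sum_le_sum fun i _ => ?_)
    refine natDegree_sum_le_of_forall_le _ _ fun l _ => ?_
    refine (natDegree_C_mul_X_pow_le _ _).trans ?_
    have := l.2
    omega
  refine le_trans ?_ (((Multiset.toFinset_card_le F.roots).trans (card_roots' F)).trans hdeg)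
  unfold om
  refine card_le_card_of_injOn (fun n : ℕ => (n : ZMod p)) ?_ ?_
  · intro n hn
    rw [mem_coe, mem_filter] at hn
    rw [mem_coe, Multiset.mem_toFinset, mem_roots hF0]
    exact (hz n).mpr hn.2
  · intro x hx y hy hxy
    rw [mem_coe, mem_filter, mem_range] at hx hy
    simp only at hxy
    rw [ZMod.natCast_eq_natCast_iff', Nat.mod_eq_of_lt hx.1, Nat.mod_eq_of_lt hy.1] at hxy
    exact hxy

/-- the elementary inequality `(1 - 1/p)^{2D} ≤ 1 - D/p` for `2 D ≤ p` -/
lemma elem (p D : ℕ) (hp : 2 ≤ p) (hD : 2 * D ≤ p) :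
    (1 - 1 / (p : ℝ)) ^ (2 * D) ≤ 1 - (D : ℝ) / p := by
  have hp2 : (2 : ℝ) ≤ p := by exact_mod_cast hp
  have hp0 : (0 : ℝ) < p := by linarith
  have hD' : 2 * (D : ℝ) ≤ p := by exact_mod_cast hD
  have hx : (D : ℝ) / p ≤ 1 / 2 := by
    rw [div_le_div_iff₀ hp0 (by norm_num)]
    linarith
  have hx0 : 0 ≤ (D : ℝ) / p := by positivity
  have h1 : 1 / (p : ℝ) ≤ 1 / 2 := one_div_le_one_div_of_le (by norm_num) hp2
  have h1' : 0 < 1 / (p : ℝ) := by positivity
  have h2 : 1 + (2 * D : ℕ) * (1 / (p : ℝ)) ≤ (1 + 1 / (p : ℝ)) ^ (2 * D) :=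
    one_add_mul_le_pow (by linarith) _
  have h3 : (1 - 1 / (p : ℝ)) ^ (2 * D) * (1 + 1 / (p : ℝ)) ^ (2 * D) ≤ 1 := by
    rw [← mul_pow]
    apply pow_le_one₀
    · apply mul_nonneg <;> linarith
    · nlinarith
  have h4 : 0 ≤ (1 - 1 / (p : ℝ)) ^ (2 * D) := pow_nonneg (by linarith) _
  have h5 : (1 - 1 / (p : ℝ)) ^ (2 * D) * (1 + 2 * ((D : ℝ) / p)) ≤ 1 := by
    refine le_trans (mul_le_mul_of_nonneg_left ?_ h4) h3
    refine le_trans (le_of_eq ?_) h2
    push_cast
    ring
  have h6 : 1 ≤ (1 - (D : ℝ) / p) * (1 + 2 * ((D : ℝ) / p)) := by nlinarith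
  have h7 : 0 < 1 + 2 * ((D : ℝ) / p) := by linarith
  exact le_of_mul_le_mul_right (h5.trans h6) h7

theorem t (hVZ : S_VZ) : S_LOWC := by
  obtain ⟨C, hC, hVZ⟩ := hVZ
  intro m dd
  set D0 : ℕ := ∑ i, dd i with hD0
  set w : ℝ := 1 / (2 * (D0 : ℝ) + 2) with hw
  have hw0 : 0 < w := by positivity
  have hw1 : w ≤ 1 := by
    rw [hw, div_le_one (by positivity)]
    have : (0 : ℝ) ≤ D0 := Nat.cast_nonneg _
    linarith
  refine ⟨w ^ (2 * D0 + 2) / C ^ (2 * D0), 2 * D0, by positivity, ?_⟩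
  intro z a hz
  have hfac : ∀ p ∈ pz z, (2 : ℝ) ≤ p := by
    intro p hp
    have : p.Prime := by
      unfold pz at hp
      exact (mem_filter.mp hp).2
    exact_mod_cast this.two_le
  have hpr : ∀ p ∈ pz z, p.Prime := by
    intro p hp
    unfold pz at hp
    exact (mem_filter.mp hp).2
  have hone : ∀ p ∈ pz z, 0 < 1 - 1 / (p : ℝ) ∧ 1 - 1 / (p : ℝ) ≤ 1 := by
    intro p hp
    have h1 := hfac p hp
    have h2 : 1 / (p : ℝ) ≤ 1 / 2 := one_div_le_one_div_of_le (by norm_num) h1
    have h3 : 0 < 1 / (p : ℝ) := by positivity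
    constructor <;> linarith
  have hom1 : ∀ p ∈ pz z, 0 ≤ 1 - (om p a : ℝ) / p := by
    intro p hp
    have h1 := hfac p hp
    have h2 : (om p a : ℝ) ≤ p := by exact_mod_cast om_le p a
    have h3 : (om p a : ℝ) / p ≤ 1 := by
      rw [div_le_one (by linarith)]
      exact h2
    linarith
  refine ⟨?_, ?_, ?_⟩
  · unfold Cz
    exact prod_nonneg fun p hp => div_nonneg (hom1 p hp) (pow_nonneg (hone p hp).1.le _)
  · unfold Cz Vz
    rw [← prod_inv_distrib, ← prod_pow]
    refine prod_le_prod (fun p hp => div_nonneg (hom1 p hp) (pow_nonneg (hone p hp).1.le _)) fun p hp => ?_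
    rw [inv_pow, ← one_div]
    have h1 := (hone p hp).1
    have h2 : 0 ≤ (om p a : ℝ) / p := by positivity
    gcongr
    linarith
  · intro hne
    have hV : 1 / (C * Real.log z) ≤ Vz z := by
      have h1 := hVZ z (by omega)
      have h2 := Vz_pos z
      have h3 : 0 < Real.log z := Real.log_pos (by exact_mod_cast (by omega : 1 < z))
      rw [div_le_iff₀ (by positivity)]
      calc 1 = Vz z * (Vz z)⁻¹ := (mul_inv_cancel₀ h2.ne').symm
        _ ≤ Vz z * (C * Real.log z) := by gcongr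
    have hlog : 0 < Real.log z := Real.log_pos (by exact_mod_cast (by omega : 1 < z))
    have hstep : ∀ p ∈ pz z, (if p < 2 * D0 + 2 then w else 1) * (1 - 1 / (p : ℝ)) ^ (2 * D0) ≤
        (1 - (om p a : ℝ) / p) / (1 - 1 / (p : ℝ)) ^ m := by
      intro p hp
      have h1 := hfac p hp
      obtain ⟨h2, h3⟩ := hone p hp
      have h4 : (1 - (om p a : ℝ) / p) ≤ (1 - (om p a : ℝ) / p) / (1 - 1 / (p : ℝ)) ^ m := by
        rw [le_div_iff₀ (by positivity)]
        have h5 : (1 - 1 / (p : ℝ)) ^ m ≤ 1 := pow_le_one₀ h2.le h3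
        have h6 := hom1 p hp
        nlinarith
      refine le_trans ?_ h4
      split_ifs with hlt
      · have h5 : om p a + 1 ≤ p := by
          have h6 := om_le p a
          have h7 := hne p hp
          omega
        have h5' : (om p a : ℝ) + 1 ≤ p := by exact_mod_cast h5
        have h6 : 1 / (p : ℝ) ≤ 1 - (om p a : ℝ) / p := by
          rw [le_sub_iff_add_le, ← add_div, div_le_one (by linarith)]
          linarith
        have h7 : w ≤ 1 / (p : ℝ) := by
          rw [hw]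
          apply one_div_le_one_div_of_le (by linarith)
          have : p ≤ 2 * D0 + 2 := by omega
          exact_mod_cast this
        have h8 : (1 - 1 / (p : ℝ)) ^ (2 * D0) ≤ 1 := pow_le_one₀ h2.le h3
        calc w * (1 - 1 / (p : ℝ)) ^ (2 * D0) ≤ w * 1 := by gcongr
          _ ≤ _ := by linarith
      · rw [one_mul]
        have h5 := om_deg p (hpr p hp) a (hne p hp)
        have h5' : (om p a : ℝ) ≤ D0 := by exact_mod_cast h5
        have h6 := elem p D0 (hpr p hp).two_le (by omega)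
        refine h6.trans ?_
        gcongr
    have hprod : ∏ p ∈ pz z, ((if p < 2 * D0 + 2 then w else 1) * (1 - 1 / (p : ℝ)) ^ (2 * D0)) ≤ Cz z a := by
      unfold Cz
      refine prod_le_prod (fun p hp => ?_) hstep
      have h2 := (hone p hp).1
      apply mul_nonneg _ (by positivity)
      split_ifs
      · exact hw0.le
      · norm_num
    have hwprod : w ^ (2 * D0 + 2) ≤ ∏ p ∈ pz z, (if p < 2 * D0 + 2 then w else 1) := by
      rw [prod_ite, prod_const_one, mul_one, prod_const]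
      apply pow_le_pow_of_le_one hw0.le hw1
      calc ((pz z).filter (fun p => p < 2 * D0 + 2)).card ≤ (range (2 * D0 + 2)).card := by
            apply card_le_card
            intro p hp
            rw [mem_filter] at hp
            rw [mem_range]
            exact hp.2
        _ = 2 * D0 + 2 := card_range _
    refine le_trans ?_ hprod
    rw [prod_mul_distrib, prod_pow]
    have hVV : (∏ p ∈ pz z, (1 - 1 / (p : ℝ))) = Vz z := rfl
    rw [hVV]
    calc w ^ (2 * D0 + 2) / C ^ (2 * D0) / Real.log z ^ (2 * D0)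
        = w ^ (2 * D0 + 2) * (1 / (C * Real.log z)) ^ (2 * D0) := by
          rw [one_div, inv_pow, mul_pow, div_div, div_eq_mul_inv]
      _ ≤ _ := by
          gcongr

end Pool.Agent.H13K.LOWC
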