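import Pool.Agent.H13K.StmS

set_option autoImplicit false

/-!
# Project BH, part S, stub OMV: the number of the zeros modulo different primes
-/

namespace Pool.Agent.H13K.OMV

open Finset
open Pool.Agent.H13K

/-- arrays of coefficients -/
abbrev Arr {m : ℕ} (dd : Fin m → ℕ) : Type := ∀ i : Fin m, Fin (dd i + 1) → ℤ

variable {m : ℕ} (dd : Fin m → ℕ)

/-- the residues modulo `P` -/
noncomputable def res (P : ℕ) : Finset (Arr dd) :=
  Fintype.piFinset fun i : Fin m => Fintype.piFinset fun _ : Fin (dd i + 1) =>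
    (range P).map Nat.castEmbedding

/-- the dimension -/
abbrev DD : ℕ := ∑ i, (dd i + 1)

lemma mem_res {P : ℕ} {s : Arr dd} : s ∈ res dd P ↔ ∀ i l, 0 ≤ s i l ∧ s i l < P := by
  unfold res
  rw [Fintype.mem_piFinset]
  refine forall_congr' fun i => ?_
  rw [Fintype.mem_piFinset]
  refine forall_congr' fun l => ?_
  rw [mem_map]
  constructor
  · rintro ⟨n, hn, h⟩
    rw [mem_range] at hn
    rw [← h]
    simp only [Nat.castEmbedding_apply]
    omega
  · rintro ⟨h1, h2⟩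
    refine ⟨(s i l).toNat, ?_, ?_⟩
    · rw [mem_range]; omega
    · simp only [Nat.castEmbedding_apply]
      omega

lemma card_res (P : ℕ) : (res dd P).card = P ^ DD dd := by
  unfold res DD
  rw [Fintype.card_piFinset]
  simp only [Fintype.card_piFinset, card_map, card_range, prod_const, card_univ, Fintype.card_fin]
  rw [Finset.prod_pow_eq_pow_sum]

/-- `g` depends on the residues modulo `P` only -/
def Per (P : ℕ) (g : Arr dd → ℝ) : Prop :=
  ∀ a b, (∀ i l, (P : ℤ) ∣ a i l - b i l) → g a = g b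

variable {dd}

/-- reduction modulo `P` -/
def md (P : ℕ) (a : Arr dd) : Arr dd := fun i l => a i l % P

lemma md_mem {P : ℕ} (hP : 1 ≤ P) (a : Arr dd) : md P a ∈ res dd P := by
  rw [mem_res]
  intro i l
  exact ⟨Int.emod_nonneg _ (by omega), Int.emod_lt_of_pos _ (by omega)⟩

lemma md_eq {P : ℕ} {a s : Arr dd} (hs : s ∈ res dd P) :
    md P a = s ↔ ∀ i l, (P : ℤ) ∣ a i l - s i l := by
  rw [mem_res] at hs
  constructor
  · rintro rfl i l
    unfold md
    exact Int.dvd_self_sub_emod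
  · intro h
    funext i l
    unfold md
    have h1 := (Int.emod_emod_of_dvd (a i l) (dvd_refl (P : ℤ)))
    have h2 : a i l % P = s i l % P := (Int.emod_emod_of_dvd _ (dvd_refl _)).symm ▸
      (Int.emod_emod_of_dvd _ (dvd_refl _)).symm ▸ Int.ModEq.symm (Int.modEq_iff_dvd.2 (h i l))
    rw [h2, Int.emod_eq_of_lt (hs i l).1 (hs i l).2]

lemma box_sum (hC : S_CNTB) {H P : ℕ} (h1 : 1 ≤ P) (h2 : P ≤ H) {g : Arr dd → ℝ}
    (hg : Per dd P g) :
    |∑ a ∈ bx dd H, g a - ((bx dd H).card : ℝ) / (P : ℝ) ^ DD dd * ∑ s ∈ res dd P, g s| ≤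
      2 ^ DD dd * (P / H) * (((bx dd H).card : ℝ) / (P : ℝ) ^ DD dd) * ∑ s ∈ res dd P, |g s| := by
  classical
  have h3 : ∑ a ∈ bx dd H, g a = ∑ s ∈ res dd P,
      (((bx dd H).filter (fun a => ∀ i l, (P : ℤ) ∣ a i l - s i l)).card : ℝ) * g s := by
    rw [← Finset.sum_fiberwise_of_maps_to (s := bx dd H) (t := res dd P) (g := md P)
      (fun a _ => md_mem h1 a)]
    refine Finset.sum_congr rfl fun s hs => ?_
    have h4 : (bx dd H).filter (fun a => md P a = s) =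
        (bx dd H).filter (fun a => ∀ i l, (P : ℤ) ∣ a i l - s i l) := by
      ext a
      rw [mem_filter, mem_filter, md_eq hs]
    rw [h4, Finset.sum_congr rfl (g := fun _ => g s) fun a ha => hg _ _ (mem_filter.1 ha).2,
      Finset.sum_const, nsmul_eq_mul]
  rw [h3, Finset.mul_sum, ← Finset.sum_sub_distrib, Finset.mul_sum]
  refine (Finset.abs_sum_le_sum_abs _ _).trans (Finset.sum_le_sum fun s _ => ?_)
  rw [← sub_mul, abs_mul]
  exact mul_le_mul_of_nonneg_right (hC m dd H P (h1.trans h2) h1 h2 s) (abs_nonneg _)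

lemma crt {p q : ℕ} (hp : 1 ≤ p) (hq : 1 ≤ q) (hc : Nat.Coprime p q) {g h : Arr dd → ℝ}
    (hg : Per dd p g) (hh : Per dd q h) :
    ∑ s ∈ res dd (p * q), g s * h s = (∑ s ∈ res dd p, g s) * ∑ s ∈ res dd q, h s := by
  classical
  rw [Finset.sum_mul_sum, ← Finset.sum_product']
  have hinj : Set.InjOn (fun s : Arr dd => (md p s, md q s)) (res dd (p * q)) := by
    intro s hs t ht hst
    rw [mem_coe, mem_res] at hs ht
    obtain ⟨h1, h2⟩ := Prod.mk.inj hst
    funext i l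
    have h3 : s i l % p = t i l % p := congrFun (congrFun h1 i) l
    have h4 : s i l % q = t i l % q := congrFun (congrFun h2 i) l
    have h5 : (p : ℤ) ∣ s i l - t i l := Int.ModEq.dvd (Int.ModEq.symm h3)
    have h6 : (q : ℤ) ∣ s i l - t i l := Int.ModEq.dvd (Int.ModEq.symm h4)
    have h7 : (p : ℤ) * q ∣ s i l - t i l :=
      IsCoprime.mul_dvd (Nat.isCoprime_iff_coprime.2 hc) h5 h6
    have h8 := Int.eq_zero_of_abs_lt_dvd h7 (by
      have := hs i l
      have := ht i l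
      push_cast at *
      rw [abs_lt]
      constructor <;> linarith)
    linarith
  have hmaps : ∀ s ∈ res dd (p * q), (md p s, md q s) ∈ res dd p ×ˢ res dd q := fun s _ =>
    mem_product.2 ⟨md_mem hp s, md_mem hq s⟩
  have hsurj : Set.SurjOn (fun s : Arr dd => (md p s, md q s)) (res dd (p * q))
      (res dd p ×ˢ res dd q : Finset _) := by
    refine Finset.surjOn_of_injOn_of_card_le _ hmaps hinj ?_
    rw [card_product, card_res, card_res, card_res, mul_pow]
  refine Finset.sum_nbij (fun s => (md p s, md q s)) hmaps hinj hsurj fun s _ => ?_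
  simp only
  rw [hg s (md p s) fun i l => Int.dvd_self_sub_emod, hh s (md q s) fun i l => Int.dvd_self_sub_emod]

/-! ### The number of the zeros -/

/-- no `f_i(n)` is divisible by `p` -/
noncomputable def w (p : ℕ) (a : Arr dd) (n : ℕ) : ℝ :=
  open Classical in if ∀ i, ¬ (p : ℤ) ∣ Fv (a i) n then 1 else 0

/-- the mean value of `w` -/
noncomputable def qq (m p : ℕ) : ℝ := (1 - 1 / (p : ℝ)) ^ m

lemma Fv_dvd {d : ℕ} {P : ℤ} {a b : Fin (d + 1) → ℤ} (h : ∀ l, P ∣ a l - b l) (n : ℤ) :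
    P ∣ Fv a n - Fv b n := by
  unfold Fv
  rw [← Finset.sum_sub_distrib]
  refine Finset.dvd_sum fun l _ => ?_
  rw [← sub_mul]
  exact dvd_mul_of_dvd_left (h l) _

lemma w_per (p n : ℕ) : Per dd p (fun a => w p a n) := by
  intro a b h
  have h1 : ∀ i, (p : ℤ) ∣ Fv (a i) n ↔ (p : ℤ) ∣ Fv (b i) n := fun i =>
    (dvd_iff_dvd_of_dvd_sub (Fv_dvd (h i) n))
  unfold w
  simp only [h1]

lemma om_eq {p : ℕ} (hp : p.Prime) (a : Arr dd) : (om p a : ℝ) = p - ∑ n ∈ range p, w p a n := by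
  classical
  have h0 : Prime (p : ℤ) := Nat.prime_iff_prime_int.1 hp
  have h1 : ∀ n : ℕ, (p : ℤ) ∣ ∏ i, Fv (a i) n ↔ ¬ ∀ i, ¬ (p : ℤ) ∣ Fv (a i) n := by
    intro n
    rw [Prime.dvd_finsetProd_iff h0]
    push Not
    simp
  have h2 : (om p a : ℝ) = ∑ n ∈ range p, (1 - w p a n) := by
    unfold om
    rw [Finset.card_filter, Nat.cast_sum]
    refine Finset.sum_congr rfl fun n _ => ?_
    unfold w
    by_cases h : ∀ i, ¬ (p : ℤ) ∣ Fv (a i) n
    · rw [if_neg (by rw [h1]; exact fun h' => h' h), if_pos h]; simp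
    · rw [if_pos (by rw [h1]; exact h), if_neg h]; simp
  rw [h2, Finset.sum_sub_distrib]
  simp

/-- the centred number of the zeros -/
noncomputable def FF (p : ℕ) (a : Arr dd) : ℝ :=
  (om p a : ℝ) - p * (1 - (1 - 1 / (p : ℝ)) ^ m)

lemma FF_eq {p : ℕ} (hp : p.Prime) (a : Arr dd) :
    FF p a = -∑ n ∈ range p, (w p a n - qq m p) := by
  unfold FF
  rw [om_eq hp, Finset.sum_sub_distrib, Finset.sum_const, card_range, nsmul_eq_mul]
  unfold qq
  ring

lemma FF_per {p : ℕ} (hp : p.Prime) : Per dd p (FF p) := by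
  intro a b h
  rw [FF_eq hp, FF_eq hp]
  congr 1
  exact Finset.sum_congr rfl fun n _ => by rw [show w p a n = w p b n from w_per p n a b h]

lemma sum_ww (hL : S_LOC) (hd : ∀ i, 1 ≤ dd i) {p : ℕ} (hp : p.Prime) (n n' : ℕ) :
    ∑ s ∈ res dd p, w p s n * w p s n' =
      (p : ℝ) ^ DD dd * (1 - 1 / (p : ℝ)) ^ (if (p : ℤ) ∣ (n : ℤ) - n' then m else 2 * m) := by
  classical
  rw [← hL m dd hd p hp n n']
  have h1 : ∀ s ∈ res dd p, w p s n * w p s n' =
      if ∀ i, ¬ (p : ℤ) ∣ Fv (s i) n ∧ ¬ (p : ℤ) ∣ Fv (s i) n' then (1 : ℝ) else 0 := by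
    intro s _
    unfold w
    by_cases h1 : ∀ i, ¬ (p : ℤ) ∣ Fv (s i) n
    · by_cases h2 : ∀ i, ¬ (p : ℤ) ∣ Fv (s i) n'
      · rw [if_pos h1, if_pos h2, if_pos fun i => ⟨h1 i, h2 i⟩, mul_one]
      · have h3 : ¬ ∀ i, ¬ (p : ℤ) ∣ Fv (s i) n ∧ ¬ (p : ℤ) ∣ Fv (s i) n' :=
          fun h => h2 fun i => (h i).2
        rw [if_neg h2, if_neg h3, mul_zero]
    · have h3 : ¬ ∀ i, ¬ (p : ℤ) ∣ Fv (s i) n ∧ ¬ (p : ℤ) ∣ Fv (s i) n' :=
        fun h => h1 fun i => (h i).1
      rw [if_neg h1, if_neg h3, zero_mul]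
  rw [Finset.sum_congr rfl h1, ← Finset.sum_filter, Finset.sum_const, nsmul_eq_mul, mul_one]
  rfl

lemma w_sq (p : ℕ) (s : Arr dd) (n : ℕ) : w p s n * w p s n = w p s n := by
  unfold w
  split_ifs <;> simp

lemma sum_w (hL : S_LOC) (hd : ∀ i, 1 ≤ dd i) {p : ℕ} (hp : p.Prime) (n : ℕ) :
    ∑ s ∈ res dd p, w p s n = (p : ℝ) ^ DD dd * qq m p := by
  have h1 := sum_ww hL hd hp n n
  rw [sub_self, if_pos (dvd_zero _)] at h1
  rw [← Finset.sum_congr rfl fun s _ => w_sq p s n]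
  exact h1

lemma sum_FF (hL : S_LOC) (hd : ∀ i, 1 ≤ dd i) {p : ℕ} (hp : p.Prime) :
    ∑ s ∈ res dd p, FF p s = 0 := by
  rw [Finset.sum_congr rfl fun s _ => FF_eq hp s, Finset.sum_neg_distrib, Finset.sum_comm, neg_eq_zero]
  refine Finset.sum_eq_zero fun n _ => ?_
  rw [Finset.sum_sub_distrib, sum_w hL hd hp, Finset.sum_const, card_res, nsmul_eq_mul]
  push_cast
  ring

lemma qq_nonneg (m : ℕ) {p : ℕ} (hp : p.Prime) : 0 ≤ qq m p := by
  unfold qq
  have h1 : (1 : ℝ) ≤ p := by exact_mod_cast hp.one_lt.le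
  have h2 : 1 / (p : ℝ) ≤ 1 := by
    rw [div_le_one (by linarith)]; exact h1
  exact pow_nonneg (by linarith) _

lemma qq_le (m : ℕ) {p : ℕ} (hp : p.Prime) : qq m p ≤ 1 := by
  unfold qq
  have h1 : (1 : ℝ) ≤ p := by exact_mod_cast hp.one_lt.le
  have h2 : 1 / (p : ℝ) ≤ 1 := by
    rw [div_le_one (by linarith)]; exact h1
  have h3 : 0 ≤ 1 / (p : ℝ) := by positivity
  exact pow_le_one₀ (by linarith) (by linarith)

lemma mu_le (m : ℕ) {p : ℕ} (hp : p.Prime) : (p : ℝ) * (1 - qq m p) ≤ m := by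
  have h1 : (1 : ℝ) ≤ p := by exact_mod_cast hp.one_lt.le
  have h2 : 1 / (p : ℝ) ≤ 1 := by
    rw [div_le_one (by linarith)]; exact h1
  have h3 := one_add_mul_le_pow (a := -(1 / (p : ℝ))) (by linarith) m
  have h4 : 1 - m * (1 / (p : ℝ)) ≤ qq m p := by
    unfold qq
    rw [sub_eq_add_neg, sub_eq_add_neg]
    linarith
  have h5 : (p : ℝ) * (1 - qq m p) ≤ p * (m * (1 / (p : ℝ))) := by
    refine mul_le_mul_of_nonneg_left (by linarith) (by linarith)
  have h6 : (p : ℝ) * (m * (1 / (p : ℝ))) = m := by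
    field_simp
  linarith

lemma sum_FF_sq (hL : S_LOC) (hd : ∀ i, 1 ≤ dd i) {p : ℕ} (hp : p.Prime) :
    ∑ s ∈ res dd p, FF p s ^ 2 ≤ m * (p : ℝ) ^ DD dd := by
  have h0 : ∀ s ∈ res dd p, FF p s ^ 2 =
      ∑ n ∈ range p, ∑ n' ∈ range p, (w p s n - qq m p) * (w p s n' - qq m p) := by
    intro s _
    rw [FF_eq hp, neg_sq, sq, Finset.sum_mul_sum]
  have h1 : ∀ n ∈ range p, ∀ n' ∈ range p, ∑ s ∈ res dd p, (w p s n - qq m p) * (w p s n' - qq m p) =
      if n = n' then (p : ℝ) ^ DD dd * (qq m p - qq m p ^ 2) else 0 := by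
    intro n hn n' hn'
    rw [mem_range] at hn hn'
    have h2 : ∑ s ∈ res dd p, (w p s n - qq m p) * (w p s n' - qq m p) =
        ∑ s ∈ res dd p, w p s n * w p s n' - qq m p * ∑ s ∈ res dd p, w p s n' -
          qq m p * ∑ s ∈ res dd p, w p s n + (res dd p).card * qq m p ^ 2 := by
      rw [Finset.mul_sum, Finset.mul_sum, ← Finset.sum_sub_distrib, ← Finset.sum_sub_distrib,
        ← nsmul_eq_mul, ← Finset.sum_const, ← Finset.sum_add_distrib]
      refine Finset.sum_congr rfl fun s _ => ?_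
      ring
    rw [h2, sum_ww hL hd hp, sum_w hL hd hp, sum_w hL hd hp, card_res]
    by_cases h : n = n'
    · subst h
      rw [sub_self, if_pos (dvd_zero _), if_pos rfl]
      unfold qq
      push_cast
      ring
    · rw [if_neg h, if_neg]
      · unfold qq
        push_cast
        ring
      · intro h3
        have h4 := Int.eq_zero_of_abs_lt_dvd h3 (by rw [abs_lt]; omega)
        omega
  rw [Finset.sum_congr rfl h0, Finset.sum_comm]
  have h2 : ∑ n ∈ range p, ∑ s ∈ res dd p, ∑ n' ∈ range p,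
      (w p s n - qq m p) * (w p s n' - qq m p) =
      ∑ n ∈ range p, (p : ℝ) ^ DD dd * (qq m p - qq m p ^ 2) := by
    refine Finset.sum_congr rfl fun n hn => ?_
    rw [Finset.sum_comm, Finset.sum_congr rfl fun n' hn' => h1 n hn n' hn', Finset.sum_ite_eq,
      if_pos hn]
  rw [h2, Finset.sum_const, card_range, nsmul_eq_mul]
  have h3 := qq_nonneg m hp
  have h4 := qq_le m hp
  have h5 := mu_le m hp
  have h6 : (p : ℝ) * ((p : ℝ) ^ DD dd * (qq m p - qq m p ^ 2)) =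
      (p : ℝ) ^ DD dd * ((p : ℝ) * (1 - qq m p) * qq m p) := by ring
  rw [h6, mul_comm (m : ℝ)]
  refine mul_le_mul_of_nonneg_left ?_ (by positivity)
  have h7 : 0 ≤ (p : ℝ) * (1 - qq m p) := mul_nonneg (Nat.cast_nonneg _) (by linarith)
  nlinarith

lemma sum_abs_FF (hL : S_LOC) (hd : ∀ i, 1 ≤ dd i) {p : ℕ} (hp : p.Prime) :
    ∑ s ∈ res dd p, |FF p s| ≤ (m + 1) * (p : ℝ) ^ DD dd := by
  have h1 : ∀ s ∈ res dd p, |FF p s| ≤ FF p s ^ 2 + 1 := by
    intro s _
    have h2 := sq_abs (FF p s)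
    nlinarith [sq_nonneg (|FF p s| - 1), abs_nonneg (FF p s)]
  refine (Finset.sum_le_sum h1).trans ?_
  rw [Finset.sum_add_distrib, Finset.sum_const, card_res, nsmul_eq_mul, mul_one]
  have h3 := sum_FF_sq hL hd hp
  push_cast
  linarith

theorem t (hC : S_CNTB) (hL : S_LOC) : S_OMV := by
  classical
  intro m dd hd
  refine ⟨4 * 2 ^ DD dd * (m + 1) ^ 2 + 8 * (1 + 2 ^ DD dd) * (m + 1), ?_, ?_⟩
  · have h1 : (0 : ℝ) ≤ 4 * 2 ^ DD dd * (m + 1) ^ 2 := by positivity
    have h2 : (1 : ℝ) ≤ 8 * (1 + 2 ^ DD dd) * (m + 1) := by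
      have h3 : (1 : ℝ) ≤ 1 + 2 ^ DD dd := by
        have : (0 : ℝ) ≤ 2 ^ DD dd := by positivity
        linarith
      have h4 : (1 : ℝ) ≤ (m : ℝ) + 1 := by
        have : (0 : ℝ) ≤ m := Nat.cast_nonneg _
        linarith
      nlinarith
    linarith
  intro H p p' hp hp' hH hne
  set D := DD dd with hD
  set B : ℝ := ((bx dd H).card : ℝ) with hB
  have hB0 : 0 ≤ B := Nat.cast_nonneg _
  have hp1 : 1 ≤ p := hp.one_lt.le
  have hp1' : 1 ≤ p' := hp'.one_lt.le
  have hpR : (0 : ℝ) < p := by exact_mod_cast hp.pos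
  have hpR' : (0 : ℝ) < p' := by exact_mod_cast hp'.pos
  have hpH : p ≤ H := (Nat.le_mul_of_pos_right p hp'.pos).trans hH
  have hHR : (0 : ℝ) < H := by exact_mod_cast (hp.pos.trans_le hpH)
  have hm : (0 : ℝ) ≤ m := Nat.cast_nonneg _
  have h2D : (0 : ℝ) < 2 ^ D := by positivity
  have hCC0 : (0 : ℝ) ≤ 4 * 2 ^ D * (m + 1) ^ 2 := by positivity
  have hCC1 : (0 : ℝ) ≤ 8 * (1 + 2 ^ D) * (m + 1) := by positivity
  have key2 : ∑ a ∈ bx dd H, FF p a ^ 2 ≤ (1 + 2 ^ D) * (m + 1) * B := by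
    have hper : Per dd p (fun a => FF p a ^ 2) := fun a b h => by
      simp only; rw [FF_per hp a b h]
    have h1 := box_sum hC hp1 hpH hper
    have h2 : ∑ s ∈ res dd p, |FF p s ^ 2| = ∑ s ∈ res dd p, FF p s ^ 2 :=
      Finset.sum_congr rfl fun s _ => abs_of_nonneg (sq_nonneg _)
    rw [h2] at h1
    have h3 := sum_FF_sq hL hd hp
    have h4 : (0 : ℝ) ≤ ∑ s ∈ res dd p, FF p s ^ 2 := Finset.sum_nonneg fun s _ => sq_nonneg _
    have h5 := (abs_le.1 h1).2
    have h6 : B / (p : ℝ) ^ D * ∑ s ∈ res dd p, FF p s ^ 2 ≤ m * B := by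
      calc B / (p : ℝ) ^ D * ∑ s ∈ res dd p, FF p s ^ 2
          ≤ B / (p : ℝ) ^ D * (m * (p : ℝ) ^ D) := by gcongr
        _ = m * B := by field_simp
    have h7 : (p : ℝ) / H ≤ 1 := by
      rw [div_le_one hHR]; exact_mod_cast hpH
    have h8 : 2 ^ D * ((p : ℝ) / H) * (B / (p : ℝ) ^ D) * ∑ s ∈ res dd p, FF p s ^ 2 ≤
        2 ^ D * (m * B) := by
      calc _ = 2 ^ D * ((p : ℝ) / H) * (B / (p : ℝ) ^ D * ∑ s ∈ res dd p, FF p s ^ 2) := by ring
        _ ≤ 2 ^ D * 1 * (m * B) := by gcongr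
        _ = _ := by ring
    nlinarith
  refine ⟨?_, ?_, ?_⟩
  · have hper : Per dd (p * p') (fun a => FF p a * FF p' a) := fun a b h => by
      simp only
      rw [FF_per hp a b fun i l => (Dvd.intro _ rfl).trans (by have := h i l; push_cast at this; exact this),
        FF_per hp' a b fun i l => (Dvd.intro_left _ rfl).trans
          (by have := h i l; push_cast at this; exact this)]
    have hc : Nat.Coprime p p' := (Nat.coprime_primes hp hp').2 hne
    have h1 := box_sum hC (Nat.one_le_iff_ne_zero.2 (Nat.mul_ne_zero hp.ne_zero hp'.ne_zero)) hH hper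
    rw [crt hp1 hp1' hc (FF_per hp) (FF_per hp'), sum_FF hL hd hp, zero_mul, mul_zero, sub_zero] at h1
    have hper1 : Per dd p (fun a => |FF p a|) := fun a b h => by
      simp only; rw [FF_per hp a b h]
    have hper2 : Per dd p' (fun a => |FF p' a|) := fun a b h => by
      simp only; rw [FF_per hp' a b h]
    have h2 : ∑ s ∈ res dd (p * p'), |FF p s * FF p' s| =
        (∑ s ∈ res dd p, |FF p s|) * ∑ s ∈ res dd p', |FF p' s| := by
      rw [← crt hp1 hp1' hc hper1 hper2]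
      exact Finset.sum_congr rfl fun s _ => abs_mul _ _
    rw [h2] at h1
    refine h1.trans ?_
    have h3 := sum_abs_FF hL hd hp
    have h4 := sum_abs_FF hL hd hp'
    have h5 : (0 : ℝ) ≤ ∑ s ∈ res dd p, |FF p s| := Finset.sum_nonneg fun s _ => abs_nonneg _
    have h6 : (0 : ℝ) ≤ ∑ s ∈ res dd p', |FF p' s| := Finset.sum_nonneg fun s _ => abs_nonneg _
    calc 2 ^ D * (((p * p' : ℕ) : ℝ) / H) * (B / ((p * p' : ℕ) : ℝ) ^ D) *
          ((∑ s ∈ res dd p, |FF p s|) * ∑ s ∈ res dd p', |FF p' s|)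
        ≤ 2 ^ D * (((p * p' : ℕ) : ℝ) / H) * (B / ((p * p' : ℕ) : ℝ) ^ D) *
          (((m + 1) * (p : ℝ) ^ D) * ((m + 1) * (p' : ℝ) ^ D)) := by gcongr
      _ = 2 ^ D * (m + 1) ^ 2 * (p * p' / H) * B := by
          push_cast
          rw [mul_pow]
          field_simp
      _ ≤ _ := by
          have h7 : (0 : ℝ) ≤ (p * p' / H) * B := by positivity
          nlinarith
  · refine key2.trans ?_
    nlinarith
  · rw [le_div_iff₀ (by positivity)]
    have h1 : ∀ a ∈ (bx dd H).filter (fun a => om p a = p ∧ 2 * (∑ i, dd i) < p),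
        (p : ℝ) ^ 2 / 4 ≤ FF p a ^ 2 := by
      intro a ha
      rw [mem_filter] at ha
      obtain ⟨-, h2, h3⟩ := ha
      have h4 : m ≤ ∑ i, dd i := by
        calc m = ∑ _i : Fin m, 1 := by simp
          _ ≤ ∑ i, dd i := Finset.sum_le_sum fun i _ => hd i
      have h5 : (2 : ℝ) * m ≤ p := by
        have : 2 * m ≤ p := by omega
        exact_mod_cast this
      have h6 := mu_le m hp
      have h7 : (p : ℝ) / 2 ≤ FF p a := by
        unfold FF
        unfold qq at h6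
        rw [h2]
        linarith
      have h8 : (p : ℝ) ^ 2 / 4 = (p / 2) ^ 2 := by ring
      rw [h8]
      gcongr
    have h2 : (((bx dd H).filter (fun a => om p a = p ∧ 2 * (∑ i, dd i) < p)).card : ℝ) *
        ((p : ℝ) ^ 2 / 4) ≤ ∑ a ∈ bx dd H, FF p a ^ 2 := by
      rw [← nsmul_eq_mul, ← Finset.sum_const]
      refine (Finset.sum_le_sum h1).trans ?_
      exact Finset.sum_le_sum_of_subset_of_nonneg (filter_subset _ _) fun _ _ _ => sq_nonneg _
    have h3 := h2.trans key2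
    have h4 : (0 : ℝ) ≤ 4 * 2 ^ D * (m + 1) ^ 2 * B := by positivity
    have h5 : (0 : ℝ) ≤ (1 + 2 ^ D) * (m + 1) * B := by positivity
    nlinarith

end Pool.Agent.H13K.OMV
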