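import Pool.Agent.H13K.StmS

set_option autoImplicit false

/-!
Project BH (helper13), stub PY (helper33): the constants cut at different points agree for almost all systems.
The blocks are `(k^6, (k+1)^6]`.
-/

namespace Pool.Agent.H13K.PY

open Finset
open Pool.Agent.H373R2.T7 (lamz pz Vz mem_pz)

/-! ### the number of zeros -/

open Polynomial in
lemma om_le {m : ℕ} {dd : Fin m → ℕ} {p : ℕ} (hp : p.Prime) (a : ∀ i : Fin m, Fin (dd i + 1) → ℤ)
    (h : om p a ≠ p) : om p a ≤ ∑ i, dd i := by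
  have := Fact.mk hp
  set g : (ZMod p)[X] := ∏ i, ∑ l : Fin (dd i + 1), C ((a i l : ZMod p)) * X ^ (l : ℕ) with hg
  have hev : ∀ n : ℕ, g.eval (n : ZMod p) = ((∏ i, Fv (a i) (n : ℤ) : ℤ) : ZMod p) := by
    intro n
    rw [hg, eval_prod]
    push_cast
    refine Finset.prod_congr rfl fun i _ => ?_
    rw [eval_finsetSum]
    unfold Fv
    push_cast
    refine Finset.sum_congr rfl fun l _ => ?_
    simp
  have hdeg : g.natDegree ≤ ∑ i, dd i := by
    refine (natDegree_prod_le _ _).trans (Finset.sum_le_sum fun i _ => ?_)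
    refine natDegree_sum_le_of_forall_le _ _ fun l _ => ?_
    exact (natDegree_C_mul_X_pow_le _ _).trans (Nat.lt_succ_iff.1 l.2)
  have hmem : ∀ n : ℕ, (p : ℤ) ∣ ∏ i, Fv (a i) (n : ℤ) ↔ g.eval (n : ZMod p) = 0 := by
    intro n
    rw [hev, ZMod.intCast_zmod_eq_zero_iff_dvd]
  have hg0 : g ≠ 0 := by
    intro h0
    apply h
    unfold om
    rw [Finset.filter_true_of_mem, Finset.card_range]
    intro n _
    rw [hmem, h0, eval_zero]
  unfold om
  set S := (range p).filter (fun n : ℕ => (p : ℤ) ∣ ∏ i, Fv (a i) (n : ℤ)) with hS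
  have hinj : Set.InjOn (fun n : ℕ => (n : ZMod p)) S := by
    intro x hx y hy hxy
    rw [hS, Finset.mem_coe, Finset.mem_filter, Finset.mem_range] at hx hy
    have h1 := (ZMod.natCast_eq_natCast_iff' x y p).1 hxy
    rwa [Nat.mod_eq_of_lt hx.1, Nat.mod_eq_of_lt hy.1] at h1
  have hcard : (S.image (fun n : ℕ => (n : ZMod p))).card = S.card :=
    Finset.card_image_of_injOn hinj
  have hle : (S.image (fun n : ℕ => (n : ZMod p))).card ≤ g.natDegree := by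
    apply card_le_degree_of_subset_roots
    intro x hx
    rw [Finset.mem_val, Finset.mem_image] at hx
    obtain ⟨n, hn, rfl⟩ := hx
    rw [mem_roots hg0, IsRoot.def, ← hmem]
    exact (Finset.mem_filter.1 hn).2
  omega

lemma om_le_self {m : ℕ} {dd : Fin m → ℕ} (p : ℕ) (a : ∀ i : Fin m, Fin (dd i + 1) → ℤ) :
    om p a ≤ p := by
  unfold om
  exact (card_filter_le _ _).trans (card_range p).le

/-! ### logarithms -/

lemma log_est {u : ℝ} (h0 : 0 ≤ u) (h1 : u ≤ 1 / 2) : |Real.log (1 - u) + u| ≤ 2 * u ^ 2 := by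
  have hp : 0 < 1 - u := by linarith
  have k1 := Real.log_le_sub_one_of_pos hp
  have k2 := Real.one_sub_inv_le_log_of_pos hp
  have k3 : -(u + 2 * u ^ 2) ≤ 1 - (1 - u)⁻¹ := by
    have h3 : (1 - u)⁻¹ ≤ 1 + u + 2 * u ^ 2 := by
      rw [inv_le_iff_one_le_mul₀ hp]
      nlinarith [mul_nonneg (sq_nonneg u) (by linarith : (0 : ℝ) ≤ 1 - 2 * u)]
    linarith
  rw [abs_le]
  constructor
  · linarith
  · nlinarith [sq_nonneg u]

lemma pow_est {t : ℝ} (_h0 : 0 ≤ t) (h1 : t ≤ 1) (m : ℕ) :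
    1 - m * t ≤ (1 - t) ^ m ∧ (1 - t) ^ m ≤ 1 - m * t + (m : ℝ) ^ 2 * t ^ 2 := by
  induction m with
  | zero => simp
  | succ m ih =>
    have hp : 0 ≤ 1 - t := by linarith
    have hm : (0 : ℝ) ≤ m := Nat.cast_nonneg _
    rw [pow_succ]
    push_cast
    constructor
    · have h2 := mul_le_mul_of_nonneg_right ih.1 hp
      nlinarith [mul_nonneg hm (sq_nonneg t)]
    · have h2 := mul_le_mul_of_nonneg_right ih.2 hp
      have h3 : 0 ≤ (m : ℝ) ^ 2 * t ^ 2 * t := by positivity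
      have h4 : 0 ≤ (m : ℝ) * t ^ 2 := by positivity
      nlinarith [sq_nonneg t]

lemma mu_est {p m : ℕ} (hp : 1 ≤ p) :
    0 ≤ m - (p : ℝ) * (1 - (1 - 1 / (p : ℝ)) ^ m) ∧
      m - (p : ℝ) * (1 - (1 - 1 / (p : ℝ)) ^ m) ≤ (m : ℝ) ^ 2 / p := by
  have hp0 : (0 : ℝ) < p := by exact_mod_cast hp
  have hp1 : (1 : ℝ) ≤ p := by exact_mod_cast hp
  have h1 : 1 / (p : ℝ) ≤ 1 := by rw [div_le_one hp0]; exact hp1
  obtain ⟨k1, k2⟩ := pow_est (by positivity : 0 ≤ 1 / (p : ℝ)) h1 m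
  have h2 : (p : ℝ) * (1 / p) = 1 := by field_simp
  constructor
  · have h3 := mul_le_mul_of_nonneg_left k1 hp0.le
    have h4 : (p : ℝ) * (1 - m * (1 / p)) = p - m := by
      field_simp
    nlinarith
  · have h3 := mul_le_mul_of_nonneg_left k2 hp0.le
    have h4 : (p : ℝ) * (1 - m * (1 / p) + (m : ℝ) ^ 2 * (1 / p) ^ 2) = p - m + (m : ℝ) ^ 2 / p := by
      field_simp
    nlinarith

/-! ### the chain of the blocks -/

lemma root6 (z : ℕ) : ∃ k, k ^ 6 ≤ z ∧ z < (k + 1) ^ 6 := by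
  have hex : ∃ k, z < (k + 1) ^ 6 :=
    ⟨z, lt_of_lt_of_le (Nat.lt_succ_self z) (Nat.le_self_pow (by norm_num) _)⟩
  classical
  refine ⟨Nat.find hex, ?_, Nat.find_spec hex⟩
  rcases Nat.eq_zero_or_pos (Nat.find hex) with h | h
  · rw [h]; simp
  · have h1 := Nat.find_min hex (m := Nat.find hex - 1) (by omega)
    rw [Nat.sub_add_cancel h] at h1
    exact not_lt.1 h1

lemma gap6 {k : ℕ} (hk : 1 ≤ k) : (((k + 1) ^ 6 : ℕ) : ℝ) - ((k ^ 6 : ℕ) : ℝ) ≤ 63 * (k : ℝ) ^ 5 := by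
  have h1 : (1 : ℝ) ≤ k := by exact_mod_cast hk
  push_cast
  have h2 : (k : ℝ) ^ 4 ≤ (k : ℝ) ^ 5 := pow_le_pow_right₀ h1 (by norm_num)
  have h3 : (k : ℝ) ^ 3 ≤ (k : ℝ) ^ 5 := pow_le_pow_right₀ h1 (by norm_num)
  have h4 : (k : ℝ) ^ 2 ≤ (k : ℝ) ^ 5 := pow_le_pow_right₀ h1 (by norm_num)
  have h5 : (k : ℝ) ≤ (k : ℝ) ^ 5 := by
    calc (k : ℝ) = (k : ℝ) ^ 1 := (pow_one _).symm
      _ ≤ _ := pow_le_pow_right₀ h1 (by norm_num)
  have h6 : (1 : ℝ) ≤ (k : ℝ) ^ 5 := one_le_pow₀ h1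
  nlinarith

lemma triv (g : ℕ → ℝ) {B : ℝ} (hB : 0 ≤ B) {z Y k0 k u v : ℕ} (hk0 : 1 ≤ k0) (hk : k0 ≤ k)
    (hg : ∀ n, z < n → n ≤ Y → |g n| ≤ B / n) (hzu : z ≤ u) (hvY : v ≤ Y) (hu : k ^ 6 ≤ u)
    (hv : v ≤ (k + 1) ^ 6) : |∑ n ∈ Ioc u v, g n| ≤ 63 * B / k0 := by
  have hk1 : 1 ≤ k := hk0.trans hk
  have hkr : (0 : ℝ) < k := by exact_mod_cast hk1
  have hk0r : (0 : ℝ) < k0 := by exact_mod_cast hk0
  have hkk : (k0 : ℝ) ≤ k := by exact_mod_cast hk
  have h1 : |∑ n ∈ Ioc u v, g n| ≤ ∑ n ∈ Ioc u v, B / (k : ℝ) ^ 6 := by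
    refine (abs_sum_le_sum_abs _ _).trans (sum_le_sum fun n hn => ?_)
    rw [mem_Ioc] at hn
    refine (hg n (by omega) (by omega)).trans ?_
    apply div_le_div_of_nonneg_left hB (by positivity)
    have h2 : k ^ 6 ≤ n := by omega
    exact_mod_cast h2
  refine h1.trans ?_
  rw [sum_const, Nat.card_Ioc, nsmul_eq_mul]
  have h2 : ((v - u : ℕ) : ℝ) ≤ 63 * (k : ℝ) ^ 5 := by
    refine le_trans ?_ (gap6 hk1)
    rcases le_total v u with h | h
    · rw [Nat.sub_eq_zero_of_le h]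
      have : ((k ^ 6 : ℕ) : ℝ) ≤ (((k + 1) ^ 6 : ℕ) : ℝ) := by
        exact_mod_cast Nat.pow_le_pow_left (Nat.le_succ k) 6
      push_cast at this ⊢
      linarith
    · rw [Nat.cast_sub h]
      have h3 : ((k ^ 6 : ℕ) : ℝ) ≤ u := by exact_mod_cast hu
      have h4 : (v : ℝ) ≤ (((k + 1) ^ 6 : ℕ) : ℝ) := by exact_mod_cast hv
      linarith
  calc ((v - u : ℕ) : ℝ) * (B / (k : ℝ) ^ 6) ≤ 63 * (k : ℝ) ^ 5 * (B / (k : ℝ) ^ 6) :=
        mul_le_mul_of_nonneg_right h2 (by positivity)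
    _ = 63 * B / k := by field_simp
    _ ≤ 63 * B / k0 := div_le_div_of_nonneg_left (by positivity) hk0r hkk

lemma chain (g : ℕ → ℝ) {B : ℝ} (hB : 0 ≤ B) {z Y k0 : ℕ} (hk0 : 1 ≤ k0) (h1 : k0 ^ 6 ≤ z)
    (h2 : z < (k0 + 1) ^ 6) (hzY : z ≤ Y) (hg : ∀ n, z < n → n ≤ Y → |g n| ≤ B / n)
    (hblk : ∀ k, k0 < k → (k + 1) ^ 6 ≤ Y →
      |∑ n ∈ Ioc (k ^ 6) ((k + 1) ^ 6), g n| ≤ 1 / (k : ℝ) ^ 2) :
    |∑ n ∈ Ioc z Y, g n| ≤ (126 * B + 1) / k0 := by
  obtain ⟨K, hK1, hK2⟩ := root6 Y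
  have hk0r : (0 : ℝ) < k0 := by exact_mod_cast hk0
  have hkK : k0 ≤ K := by
    by_contra hc
    have h3 : (K + 1) ^ 6 ≤ k0 ^ 6 := Nat.pow_le_pow_left (by omega) 6
    omega
  rcases Nat.eq_or_lt_of_le hkK with hc | hc
  · subst hc
    refine (triv g hB hk0 le_rfl hg le_rfl le_rfl h1 hK2.le).trans ?_
    apply div_le_div_of_nonneg_right _ hk0r.le
    linarith
  · have hclaim : ∀ i, k0 ≤ i → i + 1 ≤ K →
        |∑ n ∈ Ioc z ((i + 1) ^ 6), g n| ≤ 63 * B / k0 + (1 / (k0 : ℝ) - 1 / (i : ℝ)) := by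
      intro i hi
      induction i, hi using Nat.le_induction with
      | base =>
        intro hK
        rw [sub_self, add_zero]
        exact triv g hB hk0 le_rfl hg le_rfl
          ((Nat.pow_le_pow_left hK 6).trans hK1) h1 le_rfl
      | succ i hi ih =>
        intro hK
        have ih := ih (by omega)
        have hi0 : (0 : ℝ) < i := by exact_mod_cast (by omega : 0 < i)
        have hle1 : z ≤ (i + 1) ^ 6 := h2.le.trans (Nat.pow_le_pow_left (by omega) 6)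
        have hle2 : (i + 1) ^ 6 ≤ (i + 1 + 1) ^ 6 := Nat.pow_le_pow_left (by omega) 6
        rw [← sum_Ioc_consecutive g hle1 hle2]
        refine (abs_add_le _ _).trans ?_
        have h3 := hblk (i + 1) (by omega) ((Nat.pow_le_pow_left hK 6).trans hK1)
        have h4 : 1 / (((i + 1 : ℕ) : ℝ)) ^ 2 ≤ 1 / (i : ℝ) - 1 / ((i + 1 : ℕ) : ℝ) := by
          push_cast
          have h5 : 1 / (i : ℝ) - 1 / ((i : ℝ) + 1) = 1 / (i * (i + 1)) := by
            field_simp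
            ring
          rw [h5]
          apply one_div_le_one_div_of_le (by positivity)
          nlinarith
        linarith
    obtain ⟨i, rfl⟩ : ∃ i, K = i + 1 := ⟨K - 1, by omega⟩
    have h3 := hclaim i (by omega) le_rfl
    have hle1 : z ≤ (i + 1) ^ 6 := h2.le.trans (Nat.pow_le_pow_left (by omega) 6)
    rw [← sum_Ioc_consecutive g hle1 hK1]
    refine (abs_add_le _ _).trans ?_
    have h4 := triv g hB hk0 (by omega : k0 ≤ i + 1) hg hle1 le_rfl le_rfl hK2.le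
    have h5 : 0 ≤ 1 / (i : ℝ) := by positivity
    have h6 : (126 * B + 1) / (k0 : ℝ) = 63 * B / k0 + 63 * B / k0 + 1 / k0 := by ring
    rw [h6]
    linarith

lemma sum_sq {k n : ℕ} (hk : 1 ≤ k) : ∑ i ∈ Ioc k n, 1 / (i : ℝ) ^ 2 ≤ 1 / (k : ℝ) := by
  rcases le_total k n with h | h
  · have h1 := sum_Ioc_inv_sq_le_sub (α := ℝ) (k := k) (n := n) (by omega) h
    simp only [one_div]
    have h2 : 0 ≤ (n : ℝ)⁻¹ := by positivity
    linarith
  · rw [Ioc_eq_empty_of_le h, sum_empty]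
    positivity

/-! ### the deterministic part -/

/-- the normalised number of zeros at the primes -/
noncomputable def gg {m : ℕ} {dd : Fin m → ℕ} (a : ∀ i : Fin m, Fin (dd i + 1) → ℤ) (n : ℕ) : ℝ :=
  if n.Prime then ((om n a : ℝ) - n * (1 - (1 - 1 / (n : ℝ)) ^ m)) / n else 0

lemma det {m : ℕ} {dd : Fin m → ℕ} (a : ∀ i : Fin m, Fin (dd i + 1) → ℤ) {z Y k0 D : ℕ}
    (hD : ∀ p : ℕ, p.Prime → z < p → p ≤ Y → om p a ≤ D) (hzD : 2 * D ≤ z)
    (hk0 : 126 * (D + m) + 1 + (2 * D ^ 2 + 2 * m + m ^ 2) ≤ k0) (h1 : k0 ^ 6 ≤ z)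
    (h2 : z < (k0 + 1) ^ 6) (hzY : z ≤ Y)
    (hblk : ∀ k, k0 < k → (k + 1) ^ 6 ≤ Y →
      |∑ n ∈ Ioc (k ^ 6) ((k + 1) ^ 6), gg a n| ≤ 1 / (k : ℝ) ^ 2) :
    |Cz Y a - Cz z a| ≤
      2 * ((126 * ((D : ℝ) + m) + 1 + (2 * (D : ℝ) ^ 2 + 2 * m + (m : ℝ) ^ 2)) / k0) * Cz z a := by
  have hk1 : 1 ≤ k0 := by omega
  have hk0r : (0 : ℝ) < k0 := by exact_mod_cast hk1
  have hz1 : 1 ≤ z := (Nat.one_le_pow 6 k0 hk1).trans h1
  have hkz : k0 ≤ z := (Nat.le_self_pow (by norm_num) k0).trans h1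
  have hm0 : (0 : ℝ) ≤ m := Nat.cast_nonneg _
  have hD0 : (0 : ℝ) ≤ D := Nat.cast_nonneg _
  set P := (Ioc z Y).filter Nat.Prime with hP
  set F : ℕ → ℝ := fun p => (1 - (om p a : ℝ) / p) / (1 - 1 / (p : ℝ)) ^ m with hF
  have hCnn : 0 ≤ Cz z a := by
    unfold Cz
    refine prod_nonneg fun p hp => ?_
    rw [mem_pz] at hp
    have hp0 : (0 : ℝ) < p := by exact_mod_cast hp.2.pos
    have hp1 : (1 : ℝ) ≤ p := by exact_mod_cast hp.2.one_le
    have h3 : (om p a : ℝ) / p ≤ 1 := by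
      rw [div_le_one hp0]
      exact_mod_cast om_le_self p a
    have h4 : 1 / (p : ℝ) ≤ 1 := by rw [div_le_one hp0]; exact hp1
    exact div_nonneg (by linarith) (pow_nonneg (by linarith) _)
  have hsplit : Cz Y a = Cz z a * ∏ p ∈ P, F p := by
    unfold Cz
    have h3 : pz Y = pz z ∪ P := by
      ext p
      rw [mem_union, mem_pz, mem_pz, hP, mem_filter, mem_Ioc]
      constructor
      · rintro ⟨k1, k2⟩
        rcases le_or_gt p z with h | h
        · exact Or.inl ⟨h, k2⟩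
        · exact Or.inr ⟨⟨h, k1⟩, k2⟩
      · rintro (⟨k1, k2⟩ | ⟨⟨k1, k3⟩, k2⟩)
        · exact ⟨k1.trans hzY, k2⟩
        · exact ⟨k3, k2⟩
    have h4 : Disjoint (pz z) P := by
      rw [disjoint_left]
      intro p hp hp2
      rw [mem_pz] at hp
      rw [hP, mem_filter, mem_Ioc] at hp2
      omega
    rw [h3, prod_union h4]
  -- facts on the primes
  have hfact : ∀ p ∈ P, 0 < F p ∧ |Real.log (F p) + gg a p| ≤
      (2 * (D : ℝ) ^ 2 + 2 * m + (m : ℝ) ^ 2) * (1 / (p : ℝ) ^ 2) := by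
    intro p hp
    rw [hP, mem_filter, mem_Ioc] at hp
    obtain ⟨⟨hp1, hp2⟩, hpp⟩ := hp
    have hp0 : (0 : ℝ) < p := by exact_mod_cast hpp.pos
    have hp2' : (2 : ℝ) ≤ p := by exact_mod_cast hpp.two_le
    have hom := hD p hpp hp1 hp2
    have homr : (om p a : ℝ) ≤ D := by exact_mod_cast hom
    have hom0 : (0 : ℝ) ≤ om p a := Nat.cast_nonneg _
    have hDp : 2 * (D : ℝ) ≤ p := by exact_mod_cast (by omega : 2 * D ≤ p)
    have hu1 : (om p a : ℝ) / p ≤ 1 / 2 := by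
      rw [div_le_iff₀ hp0]
      linarith
    have hu2 : 1 / (p : ℝ) ≤ 1 / 2 := by
      rw [div_le_iff₀ hp0]
      linarith
    have hu0 : 0 ≤ (om p a : ℝ) / p := by positivity
    have hu3 : 0 ≤ 1 / (p : ℝ) := by positivity
    have q1 := log_est hu0 hu1
    have q2 := log_est hu3 hu2
    have hpos1 : 0 < 1 - (om p a : ℝ) / p := by linarith
    have hpos2 : 0 < (1 - 1 / (p : ℝ)) ^ m := pow_pos (by linarith) _
    refine ⟨div_pos hpos1 hpos2, ?_⟩
    simp only [hF]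
    rw [Real.log_div hpos1.ne' hpos2.ne', Real.log_pow]
    unfold gg
    rw [if_pos hpp]
    obtain ⟨q3, q4⟩ := mu_est (p := p) (m := m) hpp.one_le
    set μ := (p : ℝ) * (1 - (1 - 1 / (p : ℝ)) ^ m) with hμ
    have heq : Real.log (1 - (om p a : ℝ) / p) - m * Real.log (1 - 1 / (p : ℝ)) +
        ((om p a : ℝ) - μ) / p = (Real.log (1 - (om p a : ℝ) / p) + (om p a : ℝ) / p) -
        m * (Real.log (1 - 1 / (p : ℝ)) + 1 / p) + (m - μ) / p := by
      field_simp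
      ring
    rw [heq]
    have r1 : 2 * ((om p a : ℝ) / p) ^ 2 ≤ 2 * (D : ℝ) ^ 2 * (1 / (p : ℝ) ^ 2) := by
      rw [div_pow, mul_one_div, mul_div_assoc]
      apply mul_le_mul_of_nonneg_left _ (by norm_num)
      apply div_le_div_of_nonneg_right _ (by positivity)
      exact pow_le_pow_left₀ hom0 homr 2
    have r2 : |(m : ℝ) * (Real.log (1 - 1 / (p : ℝ)) + 1 / p)| ≤ 2 * m * (1 / (p : ℝ) ^ 2) := by
      rw [abs_mul, abs_of_nonneg hm0]
      have h3 : 2 * (m : ℝ) * (1 / (p : ℝ) ^ 2) = m * (2 * (1 / (p : ℝ)) ^ 2) := by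
        rw [one_div_pow]
        ring
      rw [h3]
      exact mul_le_mul_of_nonneg_left q2 hm0
    have r3 : |(m - μ) / p| ≤ (m : ℝ) ^ 2 * (1 / (p : ℝ) ^ 2) := by
      rw [abs_of_nonneg (div_nonneg q3 hp0.le)]
      have h3 : (m : ℝ) ^ 2 * (1 / (p : ℝ) ^ 2) = (m : ℝ) ^ 2 / p / p := by
        field_simp
      rw [h3]
      exact div_le_div_of_nonneg_right q4 hp0.le
    have r4 := abs_add_le ((Real.log (1 - (om p a : ℝ) / p) + (om p a : ℝ) / p) -
        m * (Real.log (1 - 1 / (p : ℝ)) + 1 / p)) ((m - μ) / p)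
    have r5 := abs_sub (Real.log (1 - (om p a : ℝ) / p) + (om p a : ℝ) / p)
        (m * (Real.log (1 - 1 / (p : ℝ)) + 1 / p))
    linarith
  -- the sum of the logarithms
  have hggsum : ∑ p ∈ P, gg a p = ∑ n ∈ Ioc z Y, gg a n := by
    rw [hP, sum_filter]
    refine sum_congr rfl fun n _ => ?_
    unfold gg
    split_ifs with h <;> rfl
  have hch := chain (gg a) (B := (D : ℝ) + m) (by positivity) hk1 h1 h2 hzY (by
    intro n hn1 hn2
    unfold gg
    split_ifs with hp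
    · have hp0 : (0 : ℝ) < n := by exact_mod_cast hp.pos
      rw [abs_div, abs_of_pos hp0]
      apply div_le_div_of_nonneg_right _ hp0.le
      obtain ⟨q3, q4⟩ := mu_est (p := n) (m := m) hp.one_le
      have homr : (om n a : ℝ) ≤ D := by exact_mod_cast hD n hp hn1 hn2
      have hom0 : (0 : ℝ) ≤ om n a := Nat.cast_nonneg _
      have q5 : 0 ≤ (n : ℝ) * (1 - (1 - 1 / (n : ℝ)) ^ m) := by
        apply mul_nonneg hp0.le
        have h3 : (1 - 1 / (n : ℝ)) ^ m ≤ 1 := by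
          apply pow_le_one₀
          · have : 1 / (n : ℝ) ≤ 1 := by
              rw [div_le_one hp0]
              exact_mod_cast hp.one_le
            linarith
          · have : 0 ≤ 1 / (n : ℝ) := by positivity
            linarith
        linarith
      rw [abs_le]
      constructor <;> linarith
    · rw [abs_zero]
      positivity) hblk
  rw [← hggsum] at hch
  have hsum2 : ∑ p ∈ P, 1 / (p : ℝ) ^ 2 ≤ 1 / (k0 : ℝ) := by
    calc ∑ p ∈ P, 1 / (p : ℝ) ^ 2 ≤ ∑ p ∈ Ioc z Y, 1 / (p : ℝ) ^ 2 :=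
          sum_le_sum_of_subset_of_nonneg (filter_subset _ _) fun _ _ _ => by positivity
      _ ≤ 1 / (z : ℝ) := sum_sq hz1
      _ ≤ 1 / (k0 : ℝ) := one_div_le_one_div_of_le hk0r (by exact_mod_cast hkz)
  set S := ∑ p ∈ P, Real.log (F p) with hS
  have hSb : |S| ≤ (126 * ((D : ℝ) + m) + 1 + (2 * (D : ℝ) ^ 2 + 2 * m + (m : ℝ) ^ 2)) / k0 := by
    have h3 : |S + ∑ p ∈ P, gg a p| ≤ (2 * (D : ℝ) ^ 2 + 2 * m + (m : ℝ) ^ 2) * (1 / k0) := by
      rw [hS, ← sum_add_distrib]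
      refine (abs_sum_le_sum_abs _ _).trans ?_
      refine (sum_le_sum fun p hp => (hfact p hp).2).trans ?_
      rw [← mul_sum]
      exact mul_le_mul_of_nonneg_left hsum2 (by positivity)
    have h4 : |S| ≤ |S + ∑ p ∈ P, gg a p| + |∑ p ∈ P, gg a p| := by
      have h5 := abs_sub (S + ∑ p ∈ P, gg a p) (∑ p ∈ P, gg a p)
      rwa [add_sub_cancel_right] at h5
    have h6 : (126 * ((D : ℝ) + m) + 1 + (2 * (D : ℝ) ^ 2 + 2 * m + (m : ℝ) ^ 2)) / k0 =
        (126 * ((D : ℝ) + m) + 1) / k0 + (2 * (D : ℝ) ^ 2 + 2 * m + (m : ℝ) ^ 2) * (1 / k0) := by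
      ring
    rw [h6]
    linarith
  have hS1 : |S| ≤ 1 := by
    refine hSb.trans ?_
    rw [div_le_one hk0r]
    exact_mod_cast hk0
  have hprod : ∏ p ∈ P, F p = Real.exp S := by
    rw [hS, Real.exp_sum]
    exact prod_congr rfl fun p hp => (Real.exp_log (hfact p hp).1).symm
  rw [hsplit, hprod]
  have h3 : Cz z a * Real.exp S - Cz z a = (Real.exp S - 1) * Cz z a := by ring
  rw [h3, abs_mul, abs_of_nonneg hCnn]
  apply mul_le_mul_of_nonneg_right _ hCnn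
  have h4 := Real.abs_exp_sub_one_le hS1
  linarith

/-! ### the second moment of a block -/

lemma block_mom {m : ℕ} {dd : Fin m → ℕ} {H : ℕ} {C : ℝ} (hC : 0 ≤ C)
    (hO : ∀ p p' : ℕ, p.Prime → p'.Prime → p * p' ≤ H → p ≠ p' →
      |∑ a ∈ bx dd H, ((om p a : ℝ) - p * (1 - (1 - 1 / (p : ℝ)) ^ m)) *
        ((om p' a : ℝ) - p' * (1 - (1 - 1 / (p' : ℝ)) ^ m))| ≤
          C * (p * p' / H) * ((bx dd H).card : ℝ) ∧
      ∑ a ∈ bx dd H, ((om p a : ℝ) - p * (1 - (1 - 1 / (p : ℝ)) ^ m)) ^ 2 ≤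
        C * ((bx dd H).card : ℝ))
    {k : ℕ} (hk : 2 ≤ k) (hkH : ((k + 1) ^ 6) ^ 4 ≤ H) :
    ∑ a ∈ bx dd H, (∑ n ∈ Ioc (k ^ 6) ((k + 1) ^ 6), gg a n) ^ 2 ≤
      4032 * C * ((bx dd H).card : ℝ) / (k : ℝ) ^ 7 := by
  set P := (Ioc (k ^ 6) ((k + 1) ^ 6)).filter Nat.Prime with hP
  have hk1 : 1 ≤ k := by omega
  have hkr : (0 : ℝ) < k := by exact_mod_cast hk1
  have hkr1 : (1 : ℝ) ≤ k := by exact_mod_cast hk1
  have hbig : 64 ≤ k ^ 6 := by
    calc 64 = 2 ^ 6 := by norm_num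
      _ ≤ k ^ 6 := Nat.pow_le_pow_left hk 6
  have hW2 : 64 ≤ (k + 1) ^ 6 := hbig.trans (Nat.pow_le_pow_left (by omega) 6)
  have hW3 : (k + 1) ^ 6 * (k + 1) ^ 6 ≤ H := by
    refine le_trans ?_ hkH
    calc (k + 1) ^ 6 * (k + 1) ^ 6 = ((k + 1) ^ 6) ^ 2 := by ring
      _ ≤ ((k + 1) ^ 6) ^ 4 := Nat.pow_le_pow_right (by omega) (by norm_num)
  have hHk : (k : ℝ) ^ 24 ≤ H := by
    have h1 : k ^ 24 ≤ H := by
      refine le_trans ?_ hkH
      calc k ^ 24 = (k ^ 6) ^ 4 := by ring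
        _ ≤ ((k + 1) ^ 6) ^ 4 := Nat.pow_le_pow_left (Nat.pow_le_pow_left (by omega) 6) 4
    exact_mod_cast h1
  have hH0 : (0 : ℝ) < H := lt_of_lt_of_le (by positivity) hHk
  set b := ((bx dd H).card : ℝ) with hb
  have hb0 : 0 ≤ b := Nat.cast_nonneg _
  set X : ℕ → (∀ i : Fin m, Fin (dd i + 1) → ℤ) → ℝ :=
    fun p a => (om p a : ℝ) - p * (1 - (1 - 1 / (p : ℝ)) ^ m) with hX
  have hgg : ∀ a, ∑ n ∈ Ioc (k ^ 6) ((k + 1) ^ 6), gg (dd := dd) a n = ∑ p ∈ P, X p a / p := by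
    intro a
    rw [hP, sum_filter]
    refine sum_congr rfl fun n _ => ?_
    unfold gg
    rfl
  have hPc : (P.card : ℝ) ≤ 63 * (k : ℝ) ^ 5 := by
    refine le_trans ?_ (gap6 hk1)
    have h1 : P.card ≤ (k + 1) ^ 6 - k ^ 6 := by
      refine (card_filter_le _ _).trans ?_
      rw [Nat.card_Ioc]
    have h2 : k ^ 6 ≤ (k + 1) ^ 6 := Nat.pow_le_pow_left (by omega) 6
    have h3 : (P.card : ℝ) ≤ (((k + 1) ^ 6 - k ^ 6 : ℕ) : ℝ) := by exact_mod_cast h1
    rwa [Nat.cast_sub h2] at h3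
  have hterm : ∀ p ∈ P, ∀ p' ∈ P, ∑ a ∈ bx dd H, (X p a / p) * (X p' a / p') ≤
      C * b * ((if p = p' then 1 / (k : ℝ) ^ 12 else 0) + 1 / (k : ℝ) ^ 24) := by
    intro p hp p' hp'
    rw [hP, mem_filter, mem_Ioc] at hp hp'
    obtain ⟨⟨a1, a2⟩, a3⟩ := hp
    obtain ⟨⟨b1, b2⟩, b3⟩ := hp'
    have hp0 : (0 : ℝ) < p := by exact_mod_cast a3.pos
    have hp0' : (0 : ℝ) < p' := by exact_mod_cast b3.pos
    have hrew : ∑ a ∈ bx dd H, (X p a / p) * (X p' a / p') =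
        (∑ a ∈ bx dd H, X p a * X p' a) / (p * p') := by
      rw [sum_div]
      refine sum_congr rfl fun a _ => ?_
      field_simp
    rw [hrew]
    by_cases hpp : p = p'
    · subst hpp
      rw [if_pos rfl]
      have h1 := (hO p 2 a3 Nat.prime_two (by
        calc p * 2 ≤ (k + 1) ^ 6 * (k + 1) ^ 6 := Nat.mul_le_mul a2 (by omega)
          _ ≤ H := hW3) (by omega)).2
      have h2 : ∑ a ∈ bx dd H, X p a * X p a ≤ C * b := by
        refine le_trans (le_of_eq ?_) h1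
        refine sum_congr rfl fun a _ => ?_
        simp only [hX]
        ring
      have h3 : (k : ℝ) ^ 12 ≤ (p : ℝ) * p := by
        have h4 : (k : ℝ) ^ 6 ≤ p := by exact_mod_cast a1.le
        calc (k : ℝ) ^ 12 = (k : ℝ) ^ 6 * (k : ℝ) ^ 6 := by ring
          _ ≤ (p : ℝ) * p := mul_le_mul h4 h4 (by positivity) hp0.le
      calc (∑ a ∈ bx dd H, X p a * X p a) / (p * p) ≤ C * b / (p * p) :=
            div_le_div_of_nonneg_right h2 (by positivity)
        _ ≤ C * b / (k : ℝ) ^ 12 := div_le_div_of_nonneg_left (by positivity) (by positivity) h3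
        _ = C * b * (1 / (k : ℝ) ^ 12) := by ring
        _ ≤ _ := by
            apply mul_le_mul_of_nonneg_left _ (by positivity)
            have : 0 ≤ 1 / (k : ℝ) ^ 24 := by positivity
            linarith
    · rw [if_neg hpp, zero_add]
      have h1 := (hO p p' a3 b3 ((Nat.mul_le_mul a2 b2).trans hW3) hpp).1
      have h2 := (le_abs_self _).trans h1
      calc (∑ a ∈ bx dd H, X p a * X p' a) / (p * p') ≤
            (C * (p * p' / H) * b) / (p * p') :=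
            div_le_div_of_nonneg_right h2 (by positivity)
        _ = C * b * (1 / H) := by field_simp
        _ ≤ _ := by
            apply mul_le_mul_of_nonneg_left _ (by positivity)
            exact one_div_le_one_div_of_le (by positivity) hHk
  have hexp : ∑ a ∈ bx dd H, (∑ n ∈ Ioc (k ^ 6) ((k + 1) ^ 6), gg a n) ^ 2 =
      ∑ p ∈ P, ∑ p' ∈ P, ∑ a ∈ bx dd H, (X p a / p) * (X p' a / p') := by
    simp only [hgg]
    simp_rw [sq, sum_mul_sum]
    rw [sum_comm]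
    refine sum_congr rfl fun p _ => ?_
    rw [sum_comm]
  rw [hexp]
  have h1 : ∑ p ∈ P, ∑ p' ∈ P, ∑ a ∈ bx dd H, (X p a / p) * (X p' a / p') ≤
      ∑ p ∈ P, ∑ p' ∈ P, C * b * ((if p = p' then 1 / (k : ℝ) ^ 12 else 0) + 1 / (k : ℝ) ^ 24) :=
    sum_le_sum fun p hp => sum_le_sum fun p' hp' => hterm p hp p' hp'
  refine h1.trans ?_
  have h2 : ∑ p ∈ P, ∑ p' ∈ P, C * b *
      ((if p = p' then 1 / (k : ℝ) ^ 12 else 0) + 1 / (k : ℝ) ^ 24) =
      C * b * (P.card * (1 / (k : ℝ) ^ 12) + (P.card : ℝ) ^ 2 * (1 / (k : ℝ) ^ 24)) := by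
    simp_rw [← mul_sum, sum_add_distrib]
    congr 1
    congr 1
    · rw [show (∑ p ∈ P, ∑ p' ∈ P, if p = p' then 1 / (k : ℝ) ^ 12 else 0) =
          ∑ p ∈ P, 1 / (k : ℝ) ^ 12 from sum_congr rfl fun p hp => by
            rw [sum_ite_eq, if_pos hp]]
      rw [sum_const, nsmul_eq_mul]
    · simp only [sum_const, nsmul_eq_mul]
      ring
  rw [h2]
  have h3 : (P.card : ℝ) * (1 / (k : ℝ) ^ 12) ≤ 63 / (k : ℝ) ^ 7 := by
    calc (P.card : ℝ) * (1 / (k : ℝ) ^ 12) ≤ 63 * (k : ℝ) ^ 5 * (1 / (k : ℝ) ^ 12) :=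
          mul_le_mul_of_nonneg_right hPc (by positivity)
      _ = _ := by field_simp
  have h4 : (P.card : ℝ) ^ 2 * (1 / (k : ℝ) ^ 24) ≤ 3969 / (k : ℝ) ^ 7 := by
    calc (P.card : ℝ) ^ 2 * (1 / (k : ℝ) ^ 24) ≤ (63 * (k : ℝ) ^ 5) ^ 2 * (1 / (k : ℝ) ^ 24) :=
          mul_le_mul_of_nonneg_right (pow_le_pow_left₀ (Nat.cast_nonneg _) hPc 2) (by positivity)
      _ = 3969 / (k : ℝ) ^ 14 := by
          field_simp
          ring
      _ ≤ _ := by
          apply div_le_div_of_nonneg_left (by norm_num) (by positivity)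
          exact pow_le_pow_right₀ hkr1 (by norm_num)
  calc C * b * (P.card * (1 / (k : ℝ) ^ 12) + (P.card : ℝ) ^ 2 * (1 / (k : ℝ) ^ 24)) ≤
        C * b * (63 / (k : ℝ) ^ 7 + 3969 / (k : ℝ) ^ 7) :=
        mul_le_mul_of_nonneg_left (add_le_add h3 h4) (by positivity)
    _ = _ := by ring

/-- Chebyshev's inequality -/
lemma cheb {α : Type*} (s : Finset α) (f : α → ℝ) {t M : ℝ} (ht : 0 < t)
    (hM : ∑ a ∈ s, f a ^ 2 ≤ M) : ((s.filter (fun a => t < |f a|)).card : ℝ) ≤ M / t ^ 2 := by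
  rw [le_div_iff₀ (by positivity)]
  refine le_trans ?_ hM
  calc ((s.filter (fun a => t < |f a|)).card : ℝ) * t ^ 2 =
        ∑ a ∈ s.filter (fun a => t < |f a|), t ^ 2 := by rw [sum_const, nsmul_eq_mul]
    _ ≤ ∑ a ∈ s.filter (fun a => t < |f a|), f a ^ 2 := by
        refine sum_le_sum fun a ha => ?_
        rw [← sq_abs (f a)]
        exact pow_le_pow_left₀ ht.le (mem_filter.1 ha).2.le 2
    _ ≤ _ := sum_le_sum_of_subset_of_nonneg (filter_subset _ _) fun _ _ _ => sq_nonneg _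

/-- **PY** -/
theorem t (hO : S_OMV) : S_PY := by
  classical
  intro m dd hdd
  obtain ⟨C, hC1, hO⟩ := hO m dd hdd
  have hC0 : 0 < C := by linarith
  set D := ∑ i, dd i with hD
  set Q := 126 * (D + m) + 1 + (2 * D ^ 2 + 2 * m + m ^ 2) with hQ
  have hQ1 : 1 ≤ Q := by omega
  refine ⟨16132 * C + 4 * Q, (Q + 1) ^ 6, ?_, ?_⟩
  · have : (0 : ℝ) ≤ Q := Nat.cast_nonneg _
    linarith
  intro H z hz hH
  obtain ⟨k0, h1, h2⟩ := root6 z
  have hkQ : Q + 1 ≤ k0 := by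
    by_contra hc
    have h3 : (k0 + 1) ^ 6 ≤ (Q + 1) ^ 6 := Nat.pow_le_pow_left (by omega) 6
    omega
  have hk2 : 2 ≤ k0 := by omega
  have hk1 : 1 ≤ k0 := by omega
  have hk0r : (0 : ℝ) < k0 := by exact_mod_cast hk1
  have hkz : k0 ≤ z := (Nat.le_self_pow (by norm_num) k0).trans h1
  have hz1 : 1 ≤ z := by omega
  have hz0r : (0 : ℝ) < z := by exact_mod_cast hz1
  have hz1r : (1 : ℝ) ≤ z := by exact_mod_cast hz1
  have hDz : 2 * D ≤ z := by
    have : 2 * D ≤ Q := by omega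
    omega
  set b := ((bx dd H).card : ℝ) with hb
  have hb0 : 0 ≤ b := Nat.cast_nonneg _
  -- comparison of `k0` and `z`
  have hroot : (z : ℝ) ^ (1 / 6 : ℝ) ≤ 2 * k0 := by
    have h3 : (z : ℝ) ≤ (2 * (k0 : ℝ)) ^ 6 := by
      have h4 : z ≤ (2 * k0) ^ 6 := h2.le.trans (Nat.pow_le_pow_left (by omega) 6)
      exact_mod_cast h4
    calc (z : ℝ) ^ (1 / 6 : ℝ) ≤ ((2 * (k0 : ℝ)) ^ 6) ^ (1 / 6 : ℝ) :=
          Real.rpow_le_rpow hz0r.le h3 (by norm_num)
      _ = 2 * k0 := by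
          rw [← Real.rpow_natCast, ← Real.rpow_mul (by positivity)]
          norm_num
  have hinv1 : 1 / (k0 : ℝ) ≤ 2 * (z : ℝ) ^ (-(1 / 20) : ℝ) := by
    have h3 : (z : ℝ) ^ (1 / 20 : ℝ) ≤ 2 * k0 :=
      (Real.rpow_le_rpow_of_exponent_le hz1r (by norm_num)).trans hroot
    rw [Real.rpow_neg hz0r.le, div_le_iff₀ hk0r, mul_assoc, mul_comm _ (k0 : ℝ), ← mul_assoc,
      ← div_eq_mul_inv, le_div_iff₀ (Real.rpow_pos_of_pos hz0r _), one_mul]
    exact h3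
  have hinv2 : 1 / (k0 : ℝ) ^ 2 ≤ 4 * (z : ℝ) ^ (-(1 / 4) : ℝ) := by
    have h3 : (z : ℝ) ^ (1 / 4 : ℝ) ≤ 4 * (k0 : ℝ) ^ 2 := by
      calc (z : ℝ) ^ (1 / 4 : ℝ) ≤ (z : ℝ) ^ (1 / 3 : ℝ) :=
            Real.rpow_le_rpow_of_exponent_le hz1r (by norm_num)
        _ = ((z : ℝ) ^ (1 / 6 : ℝ)) ^ 2 := by
            rw [← Real.rpow_natCast, ← Real.rpow_mul hz0r.le]
            norm_num
        _ ≤ (2 * (k0 : ℝ)) ^ 2 := pow_le_pow_left₀ (Real.rpow_nonneg hz0r.le _) hroot 2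
        _ = _ := by ring
    rw [Real.rpow_neg hz0r.le, div_le_iff₀ (by positivity), mul_assoc,
      mul_comm _ ((k0 : ℝ) ^ 2), ← mul_assoc, ← div_eq_mul_inv,
      le_div_iff₀ (Real.rpow_pos_of_pos hz0r _), one_mul]
    exact h3
  set G : ℕ → (∀ i : Fin m, Fin (dd i + 1) → ℤ) → ℝ :=
    fun k a => ∑ n ∈ Ioc (k ^ 6) ((k + 1) ^ 6), gg a n with hG
  set B1 : ℕ → Finset (∀ i : Fin m, Fin (dd i + 1) → ℤ) :=
    fun k => if ((k + 1) ^ 6) ^ 4 ≤ H then (bx dd H).filter (fun a => 1 / (k : ℝ) ^ 2 < |G k a|)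
      else ∅ with hB1
  set B2 : ℕ → Finset (∀ i : Fin m, Fin (dd i + 1) → ℤ) :=
    fun p => if p.Prime ∧ p ^ 4 ≤ H then
      (bx dd H).filter (fun a => om p a = p ∧ 2 * D < p) else ∅ with hB2
  have hB1s : ∀ k, B1 k ⊆ bx dd H := by
    intro k
    simp only [hB1]
    split_ifs
    · exact filter_subset _ _
    · exact empty_subset _
  have hB2s : ∀ k, B2 k ⊆ bx dd H := by
    intro k
    simp only [hB2]
    split_ifs
    · exact filter_subset _ _
    · exact empty_subset _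
  refine ⟨(Ioc k0 H).biUnion B1 ∪ (Ioc z H).biUnion B2, ?_, ?_, ?_⟩
  · apply union_subset
    · exact biUnion_subset.2 fun k _ => hB1s k
    · exact biUnion_subset.2 fun k _ => hB2s k
  · -- the size of `Bad`
    have hc1 : ∀ k ∈ Ioc k0 H, ((B1 k).card : ℝ) ≤ 4032 * C * b / k0 * (1 / (k : ℝ) ^ 2) := by
      intro k hk
      rw [mem_Ioc] at hk
      have hkr : (0 : ℝ) < k := by exact_mod_cast (by omega : 0 < k)
      simp only [hB1]
      split_ifs with hc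
      · have h3 := block_mom (dd := dd) hC0.le (fun p p' a b c d =>
          ⟨(hO H p p' a b c d).1, (hO H p p' a b c d).2.1⟩) (by omega : 2 ≤ k) hc
        have h4 := cheb (bx dd H) (G k) (t := 1 / (k : ℝ) ^ 2) (by positivity) h3
        refine h4.trans ?_
        have h5 : 4032 * C * ((bx dd H).card : ℝ) / (k : ℝ) ^ 7 / (1 / (k : ℝ) ^ 2) ^ 2 =
            4032 * C * b / k * (1 / (k : ℝ) ^ 2) := by
          rw [hb]
          field_simp
        rw [h5]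
        apply mul_le_mul_of_nonneg_right _ (by positivity)
        apply div_le_div_of_nonneg_left (by positivity) hk0r
        exact_mod_cast hk.1.le
      · rw [card_empty, Nat.cast_zero]
        positivity
    have hc2 : ∀ p ∈ Ioc z H, ((B2 p).card : ℝ) ≤ C * b * (1 / (p : ℝ) ^ 2) := by
      intro p hp
      rw [mem_Ioc] at hp
      simp only [hB2]
      split_ifs with hc
      · have hp2 : 64 ≤ z := by
          calc 64 = 2 ^ 6 := by norm_num
            _ ≤ k0 ^ 6 := Nat.pow_le_pow_left hk2 6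
            _ ≤ z := h1
        have h3 := (hO H p 2 hc.1 Nat.prime_two (by
          calc p * 2 ≤ p * p := Nat.mul_le_mul_left _ (by omega)
            _ = p ^ 2 := by ring
            _ ≤ p ^ 4 := Nat.pow_le_pow_right (by omega) (by norm_num)
            _ ≤ H := hc.2) (by omega)).2.2
        rw [mul_one_div]
        exact h3
      · rw [card_empty, Nat.cast_zero]
        positivity
    have hcard : (((Ioc k0 H).biUnion B1 ∪ (Ioc z H).biUnion B2).card : ℝ) ≤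
        ∑ k ∈ Ioc k0 H, ((B1 k).card : ℝ) + ∑ p ∈ Ioc z H, ((B2 p).card : ℝ) := by
      have h3 : ((Ioc k0 H).biUnion B1 ∪ (Ioc z H).biUnion B2).card ≤
          ∑ k ∈ Ioc k0 H, (B1 k).card + ∑ p ∈ Ioc z H, (B2 p).card :=
        (card_union_le _ _).trans (add_le_add card_biUnion_le card_biUnion_le)
      exact_mod_cast h3
    refine hcard.trans ?_
    have h3 : ∑ k ∈ Ioc k0 H, ((B1 k).card : ℝ) ≤ 4032 * C * b / k0 * (1 / k0) := by
      refine (sum_le_sum hc1).trans ?_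
      rw [← mul_sum]
      exact mul_le_mul_of_nonneg_left (sum_sq hk1) (by positivity)
    have h4 : ∑ p ∈ Ioc z H, ((B2 p).card : ℝ) ≤ C * b * (1 / (k0 : ℝ) ^ 2) := by
      refine (sum_le_sum hc2).trans ?_
      rw [← mul_sum]
      apply mul_le_mul_of_nonneg_left _ (by positivity)
      refine (sum_sq hz1).trans ?_
      apply one_div_le_one_div_of_le (by positivity)
      have h5 : k0 ^ 2 ≤ z := (Nat.pow_le_pow_right hk1 (by norm_num)).trans h1
      exact_mod_cast h5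
    have h5 : 4032 * C * b / k0 * (1 / k0) + C * b * (1 / (k0 : ℝ) ^ 2) =
        4033 * C * b * (1 / (k0 : ℝ) ^ 2) := by
      field_simp
      ring
    have h6 : 4033 * C * b * (1 / (k0 : ℝ) ^ 2) ≤ 4033 * C * b * (4 * (z : ℝ) ^ (-(1 / 4) : ℝ)) :=
      mul_le_mul_of_nonneg_left hinv2 (by positivity)
    have h7 : 0 ≤ 4 * (Q : ℝ) * b * (z : ℝ) ^ (-(1 / 4) : ℝ) := by positivity
    have h8 : (16132 * C + 4 * (Q : ℝ)) * b * (z : ℝ) ^ (-(1 / 4) : ℝ) =
        4033 * C * b * (4 * (z : ℝ) ^ (-(1 / 4) : ℝ)) +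
          4 * (Q : ℝ) * b * (z : ℝ) ^ (-(1 / 4) : ℝ) := by ring
    rw [h8]
    linarith
  · intro a ha hbad Y hzY hYH
    rw [mem_union, not_or, mem_biUnion, mem_biUnion] at hbad
    obtain ⟨hb1, hb2⟩ := hbad
    push Not at hb1 hb2
    have hYY : Y ≤ H := (Nat.le_self_pow (by norm_num) Y).trans hYH
    have hDD : ∀ p : ℕ, p.Prime → z < p → p ≤ Y → om p a ≤ D := by
      intro p hp hp1 hp2
      apply om_le hp
      intro heq
      have h3 := hb2 p (mem_Ioc.2 ⟨hp1, hp2.trans hYY⟩)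
      simp only [hB2] at h3
      rw [if_pos ⟨hp, (Nat.pow_le_pow_left hp2 4).trans hYH⟩, mem_filter] at h3
      exact h3 ⟨ha, heq, by omega⟩
    have hblk : ∀ k, k0 < k → (k + 1) ^ 6 ≤ Y →
        |∑ n ∈ Ioc (k ^ 6) ((k + 1) ^ 6), gg a n| ≤ 1 / (k : ℝ) ^ 2 := by
      intro k hk hkY
      have hkH : k ≤ H := by
        have h3 : k + 1 ≤ (k + 1) ^ 6 := Nat.le_self_pow (by norm_num) _
        omega
      have h3 := hb1 k (mem_Ioc.2 ⟨hk, hkH⟩)
      simp only [hB1] at h3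
      rw [if_pos ((Nat.pow_le_pow_left hkY 4).trans hYH), mem_filter] at h3
      by_contra hc
      exact h3 ⟨ha, not_le.1 hc⟩
    have h3 := det a hDD hDz (by omega : 126 * (D + m) + 1 + (2 * D ^ 2 + 2 * m + m ^ 2) ≤ k0)
      h1 h2 hzY hblk
    refine h3.trans ?_
    have hCnn : 0 ≤ Cz z a := by
      unfold Cz
      refine prod_nonneg fun p hp => ?_
      rw [mem_pz] at hp
      have hp0 : (0 : ℝ) < p := by exact_mod_cast hp.2.pos
      have hp1 : (1 : ℝ) ≤ p := by exact_mod_cast hp.2.one_le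
      have h3 : (om p a : ℝ) / p ≤ 1 := by
        rw [div_le_one hp0]
        exact_mod_cast om_le_self p a
      have h4 : 1 / (p : ℝ) ≤ 1 := by rw [div_le_one hp0]; exact hp1
      exact div_nonneg (by linarith) (pow_nonneg (by linarith) _)
    apply mul_le_mul_of_nonneg_right _ hCnn
    have hQr : 126 * ((D : ℝ) + m) + 1 + (2 * (D : ℝ) ^ 2 + 2 * m + (m : ℝ) ^ 2) = Q := by
      rw [hQ]
      push_cast
      ring
    rw [hQr]
    have h4 : 2 * ((Q : ℝ) / k0) = 2 * Q * (1 / k0) := by ring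
    rw [h4]
    have h5 : 2 * (Q : ℝ) * (1 / k0) ≤ 2 * Q * (2 * (z : ℝ) ^ (-(1 / 20) : ℝ)) :=
      mul_le_mul_of_nonneg_left hinv1 (by positivity)
    have h6 : 0 ≤ 16132 * C * (z : ℝ) ^ (-(1 / 20) : ℝ) := by positivity
    have h7 : (16132 * C + 4 * (Q : ℝ)) * (z : ℝ) ^ (-(1 / 20) : ℝ) =
        16132 * C * (z : ℝ) ^ (-(1 / 20) : ℝ) + 2 * Q * (2 * (z : ℝ) ^ (-(1 / 20) : ℝ)) := by
      ring
    rw [h7]
    linarith

end Pool.Agent.H13K.PY
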