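import Pool.Agent.H13K.StmS

/-! Project BH, stub SM: second moment of the sieved values. -/

set_option autoImplicit false

namespace Pool.Agent.H13K.SM

open Finset Pool.Agent.H13K
open Pool.Agent.H373R2.T7 (lamz pz Vz)

/-- expansion of the second moment -/
theorem expand {ι : Type} (B : Finset ι) (s : ι → ℤ → ℝ) (N P : ℕ) (c : ℝ) :
    ∑ a ∈ B, (∑ n ∈ Icc 1 N, s a (n : ℤ) - c * ∑ α ∈ range P, s a (α : ℤ)) ^ 2 =
      ∑ n ∈ Icc 1 N, ∑ n' ∈ Icc 1 N, ∑ a ∈ B, s a (n : ℤ) * s a (n' : ℤ)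
      - 2 * c * ∑ n ∈ Icc 1 N, ∑ α ∈ range P, ∑ a ∈ B, s a (n : ℤ) * s a (α : ℤ)
      + c ^ 2 * ∑ α ∈ range P, ∑ α' ∈ range P, ∑ a ∈ B, s a (α : ℤ) * s a (α' : ℤ) := by
  have h1 : ∀ (I J : Finset ℕ), ∑ n ∈ I, ∑ n' ∈ J, ∑ a ∈ B, s a (n : ℤ) * s a (n' : ℤ) =
      ∑ a ∈ B, (∑ n ∈ I, s a (n : ℤ)) * (∑ n' ∈ J, s a (n' : ℤ)) := by
    intro I J
    have : ∀ n ∈ I, ∑ n' ∈ J, ∑ a ∈ B, s a (n : ℤ) * s a (n' : ℤ) =
        ∑ a ∈ B, ∑ n' ∈ J, s a (n : ℤ) * s a (n' : ℤ) := fun n _ => sum_comm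
    rw [sum_congr rfl this, sum_comm]
    refine sum_congr rfl fun a _ => ?_
    rw [sum_mul_sum]
  rw [h1, h1, h1, mul_sum, mul_sum, ← sum_sub_distrib, ← sum_add_distrib]
  refine sum_congr rfl fun a _ => ?_
  ring

theorem t (hFL : S_FL) (hCRT : S_CRT) (hAV : S_AV) : S_SM := by
  intro m dd E U hdd
  obtain ⟨H1, hH1⟩ := hFL m dd E (U + 2) hdd
  refine ⟨max H1 8, ?_⟩
  intro H hH z hz N
  have hHH1 : H1 ≤ H := le_trans (le_max_left _ _) hH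
  have hH8 : 8 ≤ H := le_trans (le_max_right _ _) hH
  have hF := hH1 H hHH1 z hz
  obtain ⟨hAV1, hAV2⟩ := hAV m z
  have hC := fun a => hCRT m dd z a
  set P : ℕ := ∏ p ∈ pz z, p with hP
  have hPpos : 0 < P := by
    rw [hP]
    refine prod_pos fun p hp => ?_
    have : p ∈ (Icc 1 z).filter Nat.Prime := hp
    exact (mem_filter.mp this).2.pos
  have hPr : (0 : ℝ) < P := by exact_mod_cast hPpos
  set X : ℝ := ((bx dd H).card : ℝ) with hX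
  have hX0 : 0 ≤ X := by rw [hX]; positivity
  have hlog : (2 : ℝ) ≤ Real.log H := by
    have h8 : Real.log 8 ≤ Real.log H := Real.log_le_log (by norm_num) (by exact_mod_cast hH8)
    have : Real.log 8 = 3 * Real.log 2 := by
      rw [show (8 : ℝ) = 2 ^ 3 by norm_num, Real.log_pow]; norm_num
    have h2 := Real.log_two_gt_d9
    linarith
  set L : ℝ := Real.log H with hL
  have hL0 : 0 < L := by linarith
  set ε : ℝ := X / L ^ (U + 2) with hε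
  have hε0 : 0 ≤ ε := by positivity
  have h4ε : 4 * ε ≤ X / L ^ U := by
    rw [hε, pow_add, ← div_div]
    have h1 : 4 ≤ L ^ 2 := by nlinarith
    have h2 : 0 ≤ X / L ^ U := by positivity
    rw [← mul_div_assoc, div_le_iff₀ (by positivity)]
    nlinarith
  set c : ℝ := (N : ℝ) / P with hc
  have hc0 : 0 ≤ c := by positivity
  have hcP : c * P = N := by rw [hc]; field_simp
  have hrew : ∀ a ∈ bx dd H, (∑ n ∈ Icc 1 N, (sf z a (n : ℤ) - Cz z a)) ^ 2 =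
      (∑ n ∈ Icc 1 N, sf z a (n : ℤ) - c * ∑ α ∈ range P, sf z a (α : ℤ)) ^ 2 := by
    intro a _
    rw [sum_sub_distrib, hC a, sum_const, Nat.card_Icc, Nat.add_sub_cancel, nsmul_eq_mul]
    congr 2
    rw [← mul_assoc, hcP]
  rw [sum_congr rfl hrew, expand]
  -- the three main terms
  have key : ∀ x y : ℤ, (∑ a ∈ bx dd H, sf z a x * sf z a y) ≤ X * Ym m z (x - y) + ε ∧
      X * Ym m z (x - y) - ε ≤ ∑ a ∈ bx dd H, sf z a x * sf z a y := by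
    intro x y
    have h := abs_le.mp (hF x y)
    constructor <;> linarith [h.1, h.2]
  have t1 : ∑ n ∈ Icc 1 N, ∑ n' ∈ Icc 1 N, ∑ a ∈ bx dd H, sf z a (n : ℤ) * sf z a (n' : ℤ) ≤
      X * ∑ n ∈ Icc 1 N, ∑ n' ∈ Icc 1 N, Ym m z ((n : ℤ) - n') + (N : ℝ) ^ 2 * ε := by
    calc _ ≤ ∑ n ∈ Icc 1 N, ∑ n' ∈ Icc 1 N, (X * Ym m z ((n : ℤ) - n') + ε) :=
          sum_le_sum fun n _ => sum_le_sum fun n' _ => (key n n').1
      _ = _ := by
          simp only [sum_add_distrib, sum_const, Nat.card_Icc, Nat.add_sub_cancel, nsmul_eq_mul,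
            mul_sum]
          ring
  have t2 : X * ∑ n ∈ Icc 1 N, ∑ α ∈ range P, Ym m z ((n : ℤ) - α) - (N : ℝ) * P * ε ≤
      ∑ n ∈ Icc 1 N, ∑ α ∈ range P, ∑ a ∈ bx dd H, sf z a (n : ℤ) * sf z a (α : ℤ) := by
    calc _ = ∑ n ∈ Icc 1 N, ∑ α ∈ range P, (X * Ym m z ((n : ℤ) - α) - ε) := by
          simp only [sum_sub_distrib, sum_const, Nat.card_Icc, Nat.add_sub_cancel, nsmul_eq_mul,
            mul_sum, card_range]
          ring
      _ ≤ _ := sum_le_sum fun n _ => sum_le_sum fun n' _ => (key n n').2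
  have t3 : ∑ α ∈ range P, ∑ α' ∈ range P, ∑ a ∈ bx dd H, sf z a (α : ℤ) * sf z a (α' : ℤ) ≤
      X * ∑ α ∈ range P, ∑ α' ∈ range P, Ym m z ((α : ℤ) - α') + (P : ℝ) ^ 2 * ε := by
    calc _ ≤ ∑ n ∈ range P, ∑ n' ∈ range P, (X * Ym m z ((n : ℤ) - n') + ε) :=
          sum_le_sum fun n _ => sum_le_sum fun n' _ => (key n n').1
      _ = _ := by
          simp only [sum_add_distrib, sum_const, card_range, nsmul_eq_mul, mul_sum]
          ring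
  have m2 : ∑ n ∈ Icc 1 N, ∑ α ∈ range P, Ym m z ((n : ℤ) - α) = N * (P * Yb m z) := by
    have h : ∀ n ∈ Icc 1 N, ∑ α ∈ range P, Ym m z ((n : ℤ) - α) = P * Yb m z :=
      fun n _ => hAV1 (n : ℤ)
    rw [sum_congr rfl h]
    simp [Nat.card_Icc]
  have m3 : ∑ n ∈ range P, ∑ α ∈ range P, Ym m z ((n : ℤ) - α) = P * (P * Yb m z) := by
    have h : ∀ n ∈ range P, ∑ α ∈ range P, Ym m z ((n : ℤ) - α) = P * Yb m z :=
      fun n _ => hAV1 (n : ℤ)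
    rw [sum_congr rfl h]
    simp
  have m1 : ∑ n ∈ Icc 1 N, ∑ n' ∈ Icc 1 N, Ym m z ((n : ℤ) - n') ≤
      (N : ℝ) ^ 2 * Yb m z + N * ((Vz z)⁻¹) ^ m := by
    have h := hAV2 N
    simp only [sum_sub_distrib, sum_const, Nat.card_Icc, Nat.add_sub_cancel, nsmul_eq_mul] at h
    nlinarith [h]
  rw [m2] at t2
  rw [m3] at t3
  have e2 : c * (N * (P * Yb m z)) = (N : ℝ) ^ 2 * Yb m z := by
    have : c * (N * (P * Yb m z)) = (c * P) * N * Yb m z := by ring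
    rw [this, hcP]; ring
  have e3 : c ^ 2 * (P * (P * Yb m z)) = (N : ℝ) ^ 2 * Yb m z := by
    have : c ^ 2 * (P * (P * Yb m z)) = (c * P) ^ 2 * Yb m z := by ring
    rw [this, hcP]
  have f2 := mul_le_mul_of_nonneg_left t2 (by positivity : 0 ≤ 2 * c)
  have f3 := mul_le_mul_of_nonneg_left t3 (by positivity : 0 ≤ c ^ 2)
  have f1 := mul_le_mul_of_nonneg_left m1 hX0
  have g2 : 2 * c * (X * (N * (P * Yb m z)) - (N : ℝ) * P * ε) =
      2 * X * ((N : ℝ) ^ 2 * Yb m z) - 2 * (N : ℝ) ^ 2 * ε := by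
    have : 2 * c * (X * (N * (P * Yb m z)) - (N : ℝ) * P * ε) =
      2 * X * (c * (N * (P * Yb m z))) - 2 * (c * P) * N * ε := by ring
    rw [this, e2, hcP]; ring
  have g3 : c ^ 2 * (X * (P * (P * Yb m z)) + (P : ℝ) ^ 2 * ε) =
      X * ((N : ℝ) ^ 2 * Yb m z) + (N : ℝ) ^ 2 * ε := by
    have : c ^ 2 * (X * (P * (P * Yb m z)) + (P : ℝ) ^ 2 * ε) =
      X * (c ^ 2 * (P * (P * Yb m z))) + (c * P) ^ 2 * ε := by ring
    rw [this, e3, hcP]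
  rw [g2] at f2
  rw [g3] at f3
  have fin : (N : ℝ) ^ 2 * (4 * ε) ≤ (N : ℝ) ^ 2 * (X / L ^ U) :=
    mul_le_mul_of_nonneg_left h4ε (by positivity)
  have goal : X * (N * ((Vz z)⁻¹) ^ m + (N : ℝ) ^ 2 / L ^ U) =
      X * (N * ((Vz z)⁻¹) ^ m) + (N : ℝ) ^ 2 * (X / L ^ U) := by ring
  rw [goal]
  nlinarith [t1, f1, f2, f3, fin]

end Pool.Agent.H13K.SM
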