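import Pool.Agent.H13K.StmK
import Pool.Agent.Helper256.KM.Mertens

/-!
# Project BH, stub VZ: Mertens' bound for the inverse product
-/

set_option autoImplicit false

namespace Pool.Agent.H13K.VZ

open Finset
open Pool.Agent.H373R2.T7 (lamz pz Vz)

theorem mp : ∃ C : ℝ, 0 < C ∧ ∀ N : ℕ, 3 ≤ N →
    ∏ p ∈ (Icc 1 N).filter Nat.Prime, (1 - 1 / (p : ℝ))⁻¹ ≤ C * Real.log N := by
  obtain ⟨C, hC⟩ := Pool.Agent.Helper256.KM.mertens_inv
  have hs : Summable (fun n : ℕ => 1 / (n : ℝ) ^ 2) := Real.summable_one_div_nat_pow.2 (by norm_num)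
  obtain ⟨D, hD⟩ : ∃ D, D = ∑' n : ℕ, 1 / (n : ℝ) ^ 2 := ⟨_, rfl⟩
  refine ⟨Real.exp (C + 2 * D), Real.exp_pos _, fun N hN => ?_⟩
  have hlog : 0 < Real.log N := Real.log_pos (by exact_mod_cast (by omega : 1 < N))
  have h1 : ∏ p ∈ (Icc 1 N).filter Nat.Prime, (1 - 1 / (p : ℝ))⁻¹ ≤
      Real.exp (∑ p ∈ (Icc 1 N).filter Nat.Prime, (1 / (p : ℝ) + 2 * (1 / (p : ℝ) ^ 2))) := by
    rw [Real.exp_sum]
    apply prod_le_prod
    · intro p hp
      have hp2 : (2 : ℝ) ≤ p := by exact_mod_cast (mem_filter.1 hp).2.two_le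
      have : 1 / (p : ℝ) ≤ 1 := by
        rw [div_le_one (by linarith)]; linarith
      exact inv_nonneg.2 (by linarith)
    · intro p hp
      have hp2 : (2 : ℝ) ≤ p := by exact_mod_cast (mem_filter.1 hp).2.two_le
      have h0 : (1 - 1 / (p : ℝ))⁻¹ = 1 + 1 / ((p : ℝ) - 1) := by
        have h5 : (p : ℝ) ≠ 0 := by linarith
        have h6 : (p : ℝ) - 1 ≠ 0 := by linarith
        have h7 : 1 - 1 / (p : ℝ) = ((p : ℝ) - 1) / p := by field_simp
        rw [h7, inv_div]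
        field_simp
        ring
      have h2 : 1 / ((p : ℝ) - 1) ≤ 1 / (p : ℝ) + 2 * (1 / (p : ℝ) ^ 2) := by
        have e : 1 / (p : ℝ) + 2 * (1 / (p : ℝ) ^ 2) = (p + 2) / (p : ℝ) ^ 2 := by
          field_simp
        rw [e, div_le_div_iff₀ (by linarith) (by positivity)]
        nlinarith
      have h3 := Real.add_one_le_exp (1 / (p : ℝ) + 2 * (1 / (p : ℝ) ^ 2))
      rw [h0]
      linarith
  refine h1.trans ?_
  have h2 : ∑ p ∈ (Icc 1 N).filter Nat.Prime, (1 / (p : ℝ) + 2 * (1 / (p : ℝ) ^ 2)) ≤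
      Real.log (Real.log N) + (C + 2 * D) := by
    rw [sum_add_distrib, ← mul_sum]
    have h3 := (abs_le.1 (hC N hN)).2
    have h4 : ∑ p ∈ (Icc 1 N).filter Nat.Prime, 1 / (p : ℝ) ^ 2 ≤ D := by
      rw [hD]
      exact hs.sum_le_tsum _ (fun _ _ => by positivity)
    linarith
  calc Real.exp (∑ p ∈ (Icc 1 N).filter Nat.Prime, (1 / (p : ℝ) + 2 * (1 / (p : ℝ) ^ 2)))
      ≤ Real.exp (Real.log (Real.log N) + (C + 2 * D)) := Real.exp_le_exp.2 h2
    _ = Real.exp (C + 2 * D) * Real.log N := by rw [Real.exp_add, Real.exp_log hlog]; ring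

theorem t : Pool.Agent.H13K.S_VZ := by
  obtain ⟨C, hC0, hC⟩ := mp
  refine ⟨max C 3, le_trans (by norm_num) (le_max_right _ _), fun z hz => ?_⟩
  have hlog : 0 < Real.log z := Real.log_pos (by exact_mod_cast (by omega : 1 < z))
  have hV : (Vz z)⁻¹ = ∏ p ∈ (Icc 1 z).filter Nat.Prime, (1 - 1 / (p : ℝ))⁻¹ := by
    rw [prod_inv_distrib]
    rfl
  rw [hV]
  rcases Nat.lt_or_ge z 3 with h | h
  · have h2 : z = 2 := by omega
    subst h2
    have hs : (Icc 1 2).filter Nat.Prime = {2} := by decide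
    rw [hs, prod_singleton]
    have := Real.log_two_gt_d9
    have h3 : (3 : ℝ) ≤ max C 3 := le_max_right _ _
    have h4 : (3 : ℝ) * Real.log ((2 : ℕ) : ℝ) ≤ max C 3 * Real.log ((2 : ℕ) : ℝ) :=
      mul_le_mul_of_nonneg_right h3 hlog.le
    refine le_trans ?_ h4
    push_cast
    norm_num
    linarith
  · exact (hC z h).trans (mul_le_mul_of_nonneg_right (le_max_left _ _) hlog.le)

end Pool.Agent.H13K.VZ
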