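import Pool.Agent.H13K.StmS

/-!
Project BH (helper13), stub T1 (helper39): primes at the values of the systems against the sieve model.
-/

set_option autoImplicit false

namespace Pool.Agent.H13K.T1

open Finset Filter
open Pool.Agent.H373R2.T7 (lamz pz Vz lamz_nonneg Vz_pos)
open Pool.Agent.H13V (fz)

/-- the real-valued version of `per` -/
noncomputable def pR (R x : ℕ) (u : ℕ → ℝ) (y : ℤ) : ℝ :=
  if (Int.bmod y (2 * R + 1)).natAbs ≤ x then u (Int.bmod y (2 * R + 1)).natAbs else 0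

lemma per_eq (R x : ℕ) (u : ℕ → ℝ) (y : ℤ) : per R x u y = ((pR R x u y : ℝ) : ℂ) := by
  unfold per pR
  split_ifs <;> simp

lemma pR_sub (R x z : ℕ) (y : ℤ) : pR R x pr y - pR R x (nu z) y = pR R x (fz z) y := by
  unfold pR
  split_ifs
  · rfl
  · simp

lemma pR_abs {R x : ℕ} {u : ℕ → ℝ} {S : ℝ} (hS : 0 ≤ S) (hu : ∀ n, |u n| ≤ S) (y : ℤ) : |pR R x u y| ≤ S := by
  unfold pR
  split_ifs
  · exact hu _
  · rw [abs_zero]
    exact hS

lemma pR_small {R x : ℕ} {u : ℕ → ℝ} {y : ℤ} (hy : |y| ≤ x) (hx : x ≤ R) : pR R x u y = u y.natAbs := by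
  have h0 : |y| ≤ R := hy.trans (by exact_mod_cast hx)
  rw [abs_le] at h0
  have h1 : Int.bmod y (2 * R + 1) = y := by
    apply Int.bmod_eq_of_le_mul_two
    · push_cast
      linarith [h0.1]
    · push_cast
      linarith [h0.2]
  unfold pR
  rw [h1, if_pos]
  have : ((y.natAbs : ℕ) : ℤ) ≤ (x : ℤ) := by
    rw [Int.natCast_natAbs]
    exact hy
  exact_mod_cast this

lemma ker_eq (d R M x z : ℕ) (v : ℕ → ℝ) (k k' : ℕ) :
    ‖ker d R M (per R x (fz z)) (per R x v) k k'‖ =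
      |∑ a ∈ Fintype.piFinset (fun _ : Fin (d + 1) => cs R), (∏ l, wt R M (a l)) *
        ((pR R x pr (Fv a k) - pR R x (nu z) (Fv a k)) * pR R x v (Fv a k'))| := by
  have h : ker d R M (per R x (fz z)) (per R x v) k k' =
      ((∑ a ∈ Fintype.piFinset (fun _ : Fin (d + 1) => cs R), (∏ l, wt R M (a l)) *
        ((pR R x pr (Fv a k) - pR R x (nu z) (Fv a k)) * pR R x v (Fv a k')) : ℝ) : ℂ) := by
    unfold ker
    rw [Complex.ofReal_sum]
    refine sum_congr rfl fun a _ => ?_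
    rw [per_eq, per_eq, pR_sub, Complex.ofReal_mul, Complex.ofReal_mul]
  rw [h, Complex.norm_real, Real.norm_eq_abs]

lemma Fv_abs {d H K : ℕ} {a : Fin (d + 1) → ℤ} (ha : ∀ l, a l ∈ Icc (-(H : ℤ)) H) {k : ℕ} (hk : k ∈ Icc 1 K) :
    |Fv a k| ≤ (((d + 1) * H * K ^ d : ℕ) : ℤ) := by
  rw [mem_Icc] at hk
  unfold Fv
  refine (abs_sum_le_sum_abs _ _).trans ?_
  have h1 : ∀ l ∈ (univ : Finset (Fin (d + 1))), |a l * (k : ℤ) ^ (l : ℕ)| ≤ (H : ℤ) * (K : ℤ) ^ d := by
    intro l _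
    rw [abs_mul]
    have h2 := ha l
    rw [mem_Icc] at h2
    have h3 : |a l| ≤ H := abs_le.mpr h2
    have h4 : |(k : ℤ) ^ (l : ℕ)| ≤ (K : ℤ) ^ d := by
      rw [abs_of_nonneg (by positivity)]
      calc (k : ℤ) ^ (l : ℕ) ≤ (K : ℤ) ^ (l : ℕ) :=
            pow_le_pow_left₀ (by positivity) (by exact_mod_cast hk.2) _
        _ ≤ (K : ℤ) ^ d := pow_le_pow_right₀ (by exact_mod_cast hk.1.trans hk.2) (by omega)
    exact mul_le_mul h3 h4 (abs_nonneg _) (by positivity)
  refine (sum_le_sum h1).trans (le_of_eq ?_)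
  rw [sum_const, card_univ, Fintype.card_fin]
  push_cast
  ring

theorem t (hVZ : S_VZ) (hW : S_WTF) (hK : S_KER) (hT : S_TEN) : S_T1 := by
  classical
  intro m dd U hdd
  obtain ⟨U', hU'⟩ : ∃ U' : ℕ, U' = U + 2 * m + 1 := ⟨_, rfl⟩
  choose E1 hE1 using fun i => hK (dd i) U' (hdd i)
  refine ⟨univ.sup E1 + 1, fun E hE => ?_⟩
  have hEi : ∀ i, E1 i ≤ E := fun i => (le_sup (f := E1) (mem_univ i)).trans (by omega)
  choose B H0 hB using fun i => hE1 i E (hEi i)
  obtain ⟨C, hC, hVZ⟩ := hVZ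
  set D : ℕ := ∑ i, (dd i + 1) with hD
  -- large `H`
  have hev : ∀ᶠ L : ℝ in atTop, 2 ≤ L ∧ 2 * (C * (E * Real.log L)) ≤ L ∧ 2 * m * 16 ^ D ≤ L := by
    have h1 := Real.isLittleO_log_id_atTop.bound (show (0 : ℝ) < 1 / (2 * C * E + 1) by positivity)
    filter_upwards [h1, eventually_ge_atTop 2, eventually_ge_atTop (2 * m * 16 ^ D : ℝ)] with L h2 h3 h4
    refine ⟨h3, ?_, h4⟩
    rw [Real.norm_of_nonneg (Real.log_nonneg (by linarith)), id, Real.norm_of_nonneg (by linarith)] at h2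
    have h5 : 0 ≤ Real.log L := Real.log_nonneg (by linarith)
    calc 2 * (C * (E * Real.log L)) ≤ (2 * C * E + 1) * Real.log L := by nlinarith
      _ ≤ (2 * C * E + 1) * (1 / (2 * C * E + 1) * L) := mul_le_mul_of_nonneg_left h2 (by positivity)
      _ = L := by field_simp
  obtain ⟨L0, hL0⟩ := eventually_atTop.1 hev
  obtain ⟨H1, hH1⟩ : ∃ H1 : ℕ, ∀ H : ℕ, H1 ≤ H → L0 ≤ Real.log H := by
    have h1 := (Real.tendsto_log_atTop.comp tendsto_natCast_atTop_atTop).eventually_ge_atTop L0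
    exact eventually_atTop.1 h1
  refine ⟨univ.sup B, univ.sup H0 + H1 + 2, fun H hH K hK1 hK2 => ?_⟩
  have hHi : ∀ i, H0 i ≤ H := fun i => (le_sup (f := H0) (mem_univ i)).trans (by omega)
  obtain ⟨hL2, hLV, hLm⟩ := hL0 _ (hH1 H (by omega))
  set L : ℝ := Real.log H with hL
  have hL1 : 1 ≤ L := by linarith
  have hLp : 0 < L := by linarith
  have hH1' : (1 : ℝ) ≤ H := by
    have : 1 ≤ H := by omega
    exact_mod_cast this
  have hBi : ∀ i, L ^ B i ≤ L ^ univ.sup B := fun i => pow_le_pow_right₀ hL1 (le_sup (f := B) (mem_univ i))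
  set z : ℕ := ⌊L ^ E⌋₊ with hz
  -- the sieve model
  have hz2 : 2 ≤ z := by
    apply Nat.le_floor
    push_cast
    calc (2 : ℝ) ≤ L := hL2
      _ = L ^ 1 := (pow_one L).symm
      _ ≤ L ^ E := pow_le_pow_right₀ hL1 (by omega)
  have hzL : Real.log z ≤ E * Real.log L := by
    rw [← Real.log_pow]
    apply Real.log_le_log (by positivity)
    exact Nat.floor_le (by positivity)
  have hV : (Vz z)⁻¹ * 2 ≤ L := by
    have h1 := hVZ z hz2
    have h2 : C * Real.log z ≤ C * (E * Real.log L) := mul_le_mul_of_nonneg_left hzL (by linarith)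
    linarith
  have hVp : 0 < (Vz z)⁻¹ := inv_pos.2 (Vz_pos z)
  have hnu : ∀ n, |nu z n| ≤ L := by
    intro n
    unfold nu
    split_ifs with hn
    · have h1 : (0.6931471803 : ℝ) ≤ Real.log n := by
        refine Real.log_two_gt_d9.le.trans (Real.log_le_log (by norm_num) (by exact_mod_cast hn))
      have h2 : lamz z n ≤ (Vz z)⁻¹ := by
        unfold lamz
        split_ifs
        · exact le_rfl
        · exact hVp.le
      rw [abs_of_nonneg (div_nonneg (lamz_nonneg z n) (by linarith)), div_le_iff₀ (by linarith)]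
      nlinarith
    · rw [abs_zero]
      exact hLp.le
  have hpr : ∀ n, |pr n| ≤ L := by
    intro n
    unfold pr
    split_ifs
    · rw [abs_one]
      exact hL1
    · rw [abs_zero]
      exact hLp.le
  -- the parameters
  have hex := fun i => hB i H (hHi i) K ((hBi i).trans hK1)
    ((mul_le_mul_of_nonneg_left (hBi i) (Nat.cast_nonneg K)).trans hK2)
  choose R M hM hxR h8 h16 hker using hex
  have hMN : ∀ i, M i ≤ 2 * R i + 1 := by
    intro i
    have h1 : 1 ≤ H := by omega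
    calc M i ≤ 8 * H * M i := by nlinarith [hM i]
      _ ≤ 2 * R i + 1 := h8 i
  set x : Fin m → ℕ := fun i => (dd i + 1) * H * K ^ dd i with hx
  have key := hT m (fun i => Fin (dd i + 1) → ℤ) (fun i => Fintype.piFinset fun _ => cs (R i))
    (fun i a => ∏ l, wt (R i) (M i) (a l)) (fun i a k => pR (R i) (x i) pr (Fv a k))
    (fun i a k => pR (R i) (x i) (nu z) (Fv a k)) (Icc 1 K) L ((K : ℝ) ^ 2 / L ^ U')
    (fun i => (32 * H : ℝ) ^ (dd i + 1)) hL1 (by positivity) (fun i => by positivity)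
    (fun i a _ => prod_nonneg fun l _ => (hW (R i) (M i) (hM i) (hMN i)).1 _)
    (fun i => by
      have h1 := (hW (R i) (M i) (hM i) (hMN i)).2.2.2.2.2.2.2.1
      rw [← Finset.prod_univ_sum (fun _ : Fin (dd i + 1) => cs (R i)) (fun _ c => wt (R i) (M i) c), prod_const,
        card_univ, Fintype.card_fin, h1]
      have hMp : (0 : ℝ) < M i := by exact_mod_cast (hM i)
      apply pow_le_pow_left₀ (by positivity)
      rw [div_le_iff₀ hMp]
      have h2 : ((2 * R i + 1 : ℕ) : ℝ) ≤ ((16 * H * M i : ℕ) : ℝ) := by exact_mod_cast h16 i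
      push_cast at h2
      linarith)
    (fun i a _ k _ => ⟨pR_abs hLp.le hpr _, pR_abs hLp.le hnu _⟩)
    (fun i => by
      have h1 := hker i pr (Or.inl rfl)
      simp_rw [ker_eq] at h1
      refine h1.trans ?_
      rw [div_mul_eq_mul_div]
      apply div_le_div_of_nonneg_right _ (by positivity)
      apply mul_le_mul_of_nonneg_left _ (by positivity)
      apply pow_le_pow_left₀ (by positivity)
      linarith)
    (fun i => by
      have h1 := hker i (nu z) (Or.inr rfl)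
      simp_rw [ker_eq] at h1
      refine h1.trans ?_
      rw [div_mul_eq_mul_div]
      apply div_le_div_of_nonneg_right _ (by positivity)
      apply mul_le_mul_of_nonneg_left _ (by positivity)
      apply pow_le_pow_left₀ (by positivity)
      linarith)
  -- the box
  have hsub : bx dd H ⊆ Fintype.piFinset (fun i : Fin m => Fintype.piFinset fun _ : Fin (dd i + 1) => cs (R i)) := by
    unfold bx
    apply Fintype.piFinset_subset
    intro i
    by_cases hK0 : K = 0
    · exfalso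
      rw [hK0, Nat.cast_zero] at hK1
      have : 0 < L ^ univ.sup B := by positivity
      linarith
    apply Fintype.piFinset_subset
    intro l
    unfold cs
    apply Icc_subset_Icc
    · have h1 : H ≤ R i := by
        refine le_trans ?_ (hxR i)
        have h2 : 1 ≤ K ^ dd i := Nat.one_le_pow _ _ (by omega)
        calc H = 1 * H * 1 := by ring
          _ ≤ (dd i + 1) * H * K ^ dd i := Nat.mul_le_mul (Nat.mul_le_mul_right _ (by omega)) h2
      have : (H : ℤ) ≤ R i := by exact_mod_cast h1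
      linarith
    · have h1 : H ≤ R i := by
        refine le_trans ?_ (hxR i)
        have h2 : 1 ≤ K ^ dd i := Nat.one_le_pow _ _ (by omega)
        calc H = 1 * H * 1 := by ring
          _ ≤ (dd i + 1) * H * K ^ dd i := Nat.mul_le_mul (Nat.mul_le_mul_right _ (by omega)) h2
      exact_mod_cast h1
  have hstep : ∑ a ∈ bx dd H, (∑ n ∈ Icc 1 K, (∏ i, pr (Fv (a i) (n : ℤ)).natAbs -
      ∏ i, nu z (Fv (a i) (n : ℤ)).natAbs)) ^ 2 ≤
      ∑ a ∈ Fintype.piFinset (fun i : Fin m => Fintype.piFinset fun _ : Fin (dd i + 1) => cs (R i)),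
        (∏ i, ∏ l, wt (R i) (M i) (a i l)) * (∑ k ∈ Icc 1 K, (∏ i, pR (R i) (x i) pr (Fv (a i) k) -
          ∏ i, pR (R i) (x i) (nu z) (Fv (a i) k))) ^ 2 := by
    refine le_trans (sum_le_sum fun a ha => ?_) (sum_le_sum_of_subset_of_nonneg hsub fun a _ _ => ?_)
    · have ha' : ∀ i l, a i l ∈ Icc (-(H : ℤ)) H := by
        intro i l
        unfold bx at ha
        exact Fintype.mem_piFinset.mp (Fintype.mem_piFinset.mp ha i) l
      have h1 : ∀ k ∈ Icc 1 K, ∏ i, pR (R i) (x i) pr (Fv (a i) k) = ∏ i, pr (Fv (a i) (k : ℤ)).natAbs := by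
        intro k hk
        exact prod_congr rfl fun i _ => pR_small (Fv_abs (ha' i) hk) (hxR i)
      have h2 : ∀ k ∈ Icc 1 K, ∏ i, pR (R i) (x i) (nu z) (Fv (a i) k) =
          ∏ i, nu z (Fv (a i) (k : ℤ)).natAbs := by
        intro k hk
        exact prod_congr rfl fun i _ => pR_small (Fv_abs (ha' i) hk) (hxR i)
      have h12 : ∑ k ∈ Icc 1 K, (∏ i, pR (R i) (x i) pr (Fv (a i) k) -
          ∏ i, pR (R i) (x i) (nu z) (Fv (a i) k)) = ∑ k ∈ Icc 1 K, (∏ i, pr (Fv (a i) (k : ℤ)).natAbs -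
          ∏ i, nu z (Fv (a i) (k : ℤ)).natAbs) :=
        sum_congr rfl fun k hk => by rw [h1 k hk, h2 k hk]
      rw [h12]
      refine le_mul_of_one_le_left (sq_nonneg _) ?_
      have h3 : ∀ i l, 1 ≤ wt (R i) (M i) (a i l) := by
        intro i l
        apply (hW (R i) (M i) (hM i) (hMN i)).2.2.2.1
        have h4 := ha' i l
        rw [mem_Icc] at h4
        have h5 : |a i l| ≤ H := abs_le.mpr h4
        have h6 : ((8 * H * M i : ℕ) : ℤ) ≤ ((2 * R i + 1 : ℕ) : ℤ) := by exact_mod_cast h8 i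
        push_cast at h6
        calc 8 * |a i l| * (M i : ℤ) ≤ 8 * (H : ℤ) * M i := by
              apply mul_le_mul_of_nonneg_right _ (Int.natCast_nonneg _)
              linarith
          _ ≤ 2 * R i + 1 := h6
      calc (1 : ℝ) = ∏ _i : Fin m, (1 : ℝ) := by simp
        _ ≤ ∏ i, ∏ l, wt (R i) (M i) (a i l) := by
          apply prod_le_prod (fun _ _ => zero_le_one)
          intro i _
          calc (1 : ℝ) = ∏ _l : Fin (dd i + 1), (1 : ℝ) := by simp
            _ ≤ ∏ l, wt (R i) (M i) (a i l) := prod_le_prod (fun _ _ => zero_le_one) fun l _ => h3 i l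
    · exact mul_nonneg (prod_nonneg fun i _ => prod_nonneg fun l _ => (hW (R i) (M i) (hM i) (hMN i)).1 _)
        (sq_nonneg _)
  refine (hstep.trans key).trans ?_
  -- the number of elements of the box
  have hcard : ∏ i : Fin m, (32 * H : ℝ) ^ (dd i + 1) ≤ 16 ^ D * ((bx dd H).card : ℝ) := by
    unfold bx
    rw [Fintype.card_piFinset]
    simp only [Fintype.card_piFinset, prod_const, card_univ, Fintype.card_fin]
    push_cast
    rw [hD, ← prod_pow_eq_pow_sum, ← prod_mul_distrib]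
    apply prod_le_prod (fun i _ => by positivity)
    intro i _
    rw [← mul_pow]
    apply pow_le_pow_left₀ (by positivity)
    have h1 : ((Icc (-(H : ℤ)) H).card : ℝ) = 2 * H + 1 := by
      rw [Int.card_Icc]
      have : ((H : ℤ) + 1 - -(H : ℤ)).toNat = 2 * H + 1 := by omega
      rw [this]
      push_cast
      ring
    rw [h1]
    linarith
  have hb0 : (0 : ℝ) ≤ ((bx dd H).card : ℝ) := Nat.cast_nonneg _
  have hfin : 2 * m * L ^ (2 * m) * ((K : ℝ) ^ 2 / L ^ U') * 16 ^ D ≤ (K : ℝ) ^ 2 / L ^ U := by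
    rw [le_div_iff₀ (by positivity)]
    have e1 : 2 * m * L ^ (2 * m) * ((K : ℝ) ^ 2 / L ^ U') * 16 ^ D * L ^ U =
        (2 * m * 16 ^ D) * (K : ℝ) ^ 2 * (L ^ (2 * m) * L ^ U) / L ^ U' := by
      ring
    rw [e1, div_le_iff₀ (by positivity), hU']
    have e2 : L ^ (U + 2 * m + 1) = L * (L ^ (2 * m) * L ^ U) := by
      rw [pow_add, pow_add, pow_one]
      ring
    rw [e2]
    have h3 : (2 * m * 16 ^ D) * ((K : ℝ) ^ 2 * (L ^ (2 * m) * L ^ U)) ≤
        L * ((K : ℝ) ^ 2 * (L ^ (2 * m) * L ^ U)) :=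
      mul_le_mul_of_nonneg_right hLm (by positivity)
    linarith
  calc 2 * m * L ^ (2 * m) * ((K : ℝ) ^ 2 / L ^ U') * ∏ i : Fin m, (32 * H : ℝ) ^ (dd i + 1)
      ≤ 2 * m * L ^ (2 * m) * ((K : ℝ) ^ 2 / L ^ U') * (16 ^ D * ((bx dd H).card : ℝ)) :=
        mul_le_mul_of_nonneg_left hcard (by positivity)
    _ = 2 * m * L ^ (2 * m) * ((K : ℝ) ^ 2 / L ^ U') * 16 ^ D * ((bx dd H).card : ℝ) := by ring
    _ ≤ (K : ℝ) ^ 2 / L ^ U * ((bx dd H).card : ℝ) := mul_le_mul_of_nonneg_right hfin hb0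
    _ = ((bx dd H).card : ℝ) * (K : ℝ) ^ 2 / L ^ U := by ring

end Pool.Agent.H13K.T1
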