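import Pool.Agent.H13K.StmK

set_option autoImplicit false

/-!
# Project BH, part K, stub WTF: properties of the weights of the coefficients
-/

namespace Pool.Agent.H13K.WTF

open Finset
open Pool.Agent.H469R2.NK (e norm_e e_add conj_e e_zero)
open Pool.Agent.H442R2.EHI (nint)
open Pool.Agent.H13K

/-- the modulus -/
abbrev NN (R : ℕ) : ℝ := 2 * R + 1

lemma NN_pos (R : ℕ) : 0 < NN R := by unfold NN; positivity

/-- the exponential sum -/
noncomputable def SS (R M : ℕ) (a : ℤ) : ℂ := ∑ h ∈ range M, e ((a : ℝ) * h / (2 * R + 1))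

lemma wt_eq (R M : ℕ) (a : ℤ) : wt R M a = 2 / (M : ℝ) ^ 2 * ‖SS R M a‖ ^ 2 := rfl

lemma e_int (n : ℤ) : e (n : ℝ) = 1 := by
  unfold e
  rw [Complex.exp_eq_one_iff]
  exact ⟨n, by push_cast; ring⟩

lemma e_add_int (x : ℝ) (n : ℤ) : e (x + n) = e x := by
  rw [e_add, e_int, mul_one]

lemma e_nat_mul (x : ℝ) (n : ℕ) : e (n * x) = e x ^ n := by
  unfold e
  rw [← Complex.exp_nat_mul]
  congr 1
  push_cast
  ring

lemma e_re (x : ℝ) : (e x).re = Real.cos (2 * Real.pi * x) := by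
  unfold e
  exact Complex.exp_ofReal_mul_I_re _

lemma norm_e_sub_one (x : ℝ) : ‖e x - 1‖ = 2 * |Real.sin (Real.pi * x)| := by
  have h1 : ‖e x - 1‖ ^ 2 = (2 * |Real.sin (Real.pi * x)|) ^ 2 := by
    rw [mul_pow, sq_abs, Complex.sq_norm, Complex.normSq_apply]
    have h2 : (e x - 1).re = Real.cos (2 * (Real.pi * x)) - 1 := by
      rw [Complex.sub_re, e_re, Complex.one_re]; ring_nf
    have h3 : (e x - 1).im = Real.sin (2 * (Real.pi * x)) := by
      unfold e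
      rw [Complex.sub_im, Complex.exp_ofReal_mul_I_im, Complex.one_im]; ring_nf
    rw [h2, h3, Real.cos_two_mul, Real.sin_two_mul]
    have := Real.sin_sq_add_cos_sq (Real.pi * x)
    nlinarith
  exact (pow_left_inj₀ (norm_nonneg _) (by positivity) two_ne_zero).1 h1

lemma norm_e_sub (x y : ℝ) : ‖e x - e y‖ ≤ 2 * Real.pi * |x - y| := by
  have h1 : e x - e y = e y * (e (x - y) - 1) := by
    rw [mul_sub, ← e_add, mul_one]; ring_nf
  rw [h1, norm_mul, norm_e, one_mul, norm_e_sub_one]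
  have h2 : |Real.sin (Real.pi * (x - y))| ≤ |Real.pi * (x - y)| := Real.abs_sin_le_abs
  rw [abs_mul, abs_of_pos Real.pi_pos] at h2
  linarith

lemma card_cs (R : ℕ) : (cs R).card = 2 * R + 1 := by
  unfold cs
  rw [Int.card_Icc]
  omega

lemma sum_cs {A : Type*} [AddCommMonoid A] (R : ℕ) (f : ℤ → A) :
    ∑ a ∈ cs R, f a = ∑ j ∈ range (2 * R + 1), f ((j : ℤ) - R) := by
  refine (Finset.sum_bij (fun (j : ℕ) _ => (j : ℤ) - R) ?_ ?_ ?_ ?_).symm
  · intro j hj
    rw [mem_range] at hj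
    unfold cs
    rw [mem_Icc]
    omega
  · intro i _ j _ h
    omega
  · intro a ha
    unfold cs at ha
    rw [mem_Icc] at ha
    exact ⟨(a + R).toNat, by rw [mem_range]; omega, by omega⟩
  · intro j _
    rfl

lemma orth (R : ℕ) (t : ℤ) : ∑ a ∈ cs R, e ((a : ℝ) * t / (2 * R + 1)) =
    if (2 * (R : ℤ) + 1) ∣ t then (2 * R + 1 : ℂ) else 0 := by
  have hN : (2 * (R : ℝ) + 1) ≠ 0 := (NN_pos R).ne'
  split_ifs with h
  · obtain ⟨s, rfl⟩ := h
    have h1 : ∀ a ∈ cs R, e ((a : ℝ) * ((2 * (R : ℤ) + 1) * s : ℤ) / (2 * R + 1)) = 1 := by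
      intro a _
      have h2 : (a : ℝ) * ((2 * (R : ℤ) + 1) * s : ℤ) / (2 * R + 1) = ((a * s : ℤ) : ℝ) := by
        push_cast
        field_simp
      rw [h2, e_int]
    rw [Finset.sum_congr rfl h1, Finset.sum_const, card_cs, nsmul_eq_mul, mul_one]
    push_cast
    ring
  · rw [sum_cs]
    have h1 : ∀ j ∈ range (2 * R + 1), e ((((j : ℤ) - R : ℤ) : ℝ) * t / (2 * R + 1)) =
        e (-(R * t / (2 * R + 1))) * e (t / (2 * R + 1)) ^ j := by
      intro j _
      rw [← e_nat_mul, ← e_add]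
      congr 1
      push_cast
      ring
    rw [Finset.sum_congr rfl h1, ← Finset.mul_sum]
    have h2 : e (t / (2 * R + 1)) ≠ 1 := by
      intro h3
      unfold e at h3
      rw [Complex.exp_eq_one_iff] at h3
      obtain ⟨n, hn⟩ := h3
      apply h
      have h4 : (2 * Real.pi * Complex.I) ≠ 0 := by
        simp [Real.pi_ne_zero, Complex.I_ne_zero]
      have h5 : ((t / (2 * R + 1) : ℝ) : ℂ) = n := by
        apply mul_right_cancel₀ h4
        rw [← hn]
        push_cast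
        ring
      have h6 : (t / (2 * R + 1) : ℝ) = n := by exact_mod_cast h5
      rw [div_eq_iff hN] at h6
      refine ⟨n, ?_⟩
      have h7 : (t : ℝ) = ((2 * (R : ℤ) + 1) * n : ℤ) := by
        rw [h6]; push_cast; ring
      exact_mod_cast h7
    have h3 : e (t / (2 * R + 1)) ^ (2 * R + 1) = 1 := by
      rw [← e_nat_mul]
      have h4 : ((2 * R + 1 : ℕ) : ℝ) * (t / (2 * R + 1)) = (t : ℝ) := by
        push_cast
        field_simp
      rw [h4, e_int]
    have h4 := geom_sum_eq h2 (2 * R + 1)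
    rw [h4, h3, sub_self, zero_div, mul_zero]

lemma norm_SS_le (R M : ℕ) (a : ℤ) : ‖SS R M a‖ ≤ M := by
  unfold SS
  refine (norm_sum_le _ _).trans ?_
  rw [Finset.sum_congr rfl fun h _ => norm_e _]
  simp

lemma wt_nonneg (R M : ℕ) (a : ℤ) : 0 ≤ wt R M a := by
  rw [wt_eq]; positivity

lemma wt_le (R M : ℕ) (hM : 1 ≤ M) (a : ℤ) : wt R M a ≤ 2 := by
  rw [wt_eq]
  have h1 := norm_SS_le R M a
  have h2 : (0 : ℝ) < M := by exact_mod_cast hM
  calc 2 / (M : ℝ) ^ 2 * ‖SS R M a‖ ^ 2 ≤ 2 / (M : ℝ) ^ 2 * (M : ℝ) ^ 2 := by gcongr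
    _ = 2 := by field_simp

lemma wt_per (R M : ℕ) (a : ℤ) : wt R M (a + (2 * R + 1)) = wt R M a := by
  have hN : (2 * (R : ℝ) + 1) ≠ 0 := (NN_pos R).ne'
  rw [wt_eq, wt_eq]
  congr 3
  unfold SS
  refine Finset.sum_congr rfl fun h _ => ?_
  have h1 : ((a + (2 * R + 1) : ℤ) : ℝ) * h / (2 * R + 1) = (a : ℝ) * h / (2 * R + 1) + (h : ℤ) := by
    push_cast
    field_simp
  rw [h1, e_add_int]

lemma one_le_wt (R M : ℕ) (hM : 1 ≤ M) (a : ℤ) (h : 8 * |a| * M ≤ 2 * R + 1) : 1 ≤ wt R M a := by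
  rw [wt_eq]
  have hM' : (0 : ℝ) < M := by exact_mod_cast hM
  have hN := NN_pos R
  have h0 : 8 * |(a : ℝ)| * M ≤ 2 * R + 1 := by exact_mod_cast h
  have h1 : M * (√2 / 2) ≤ (SS R M a).re := by
    unfold SS
    rw [Complex.re_sum]
    have h2 : ∀ h ∈ range M, √2 / 2 ≤ (e ((a : ℝ) * h / (2 * R + 1))).re := by
      intro k hk
      rw [mem_range] at hk
      have hk' : (k : ℝ) ≤ M := by exact_mod_cast hk.le
      rw [e_re, ← Real.cos_pi_div_four, ← Real.cos_abs (2 * Real.pi * _)]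
      have h3 : |(a : ℝ) * k / (2 * R + 1)| ≤ 1 / 8 := by
        rw [abs_div, abs_of_pos hN, div_le_div_iff₀ hN (by norm_num), abs_mul,
          (abs_of_nonneg (Nat.cast_nonneg k) : |(k : ℝ)| = k)]
        have : |(a : ℝ)| * k ≤ |(a : ℝ)| * M := by gcongr
        linarith
      have hpi := Real.pi_pos
      refine Real.cos_le_cos_of_nonneg_of_le_pi (abs_nonneg _) (by linarith) ?_
      rw [abs_mul, abs_of_pos (by positivity : (0 : ℝ) < 2 * Real.pi)]
      nlinarith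
    calc M * (√2 / 2) = ∑ _h ∈ range M, √2 / 2 := by simp
      _ ≤ _ := Finset.sum_le_sum h2
  have h2 : M * (√2 / 2) ≤ ‖SS R M a‖ := h1.trans (Complex.re_le_norm _)
  have h3 : (M * (√2 / 2)) ^ 2 ≤ ‖SS R M a‖ ^ 2 := by gcongr
  have h4 : (M * (√2 / 2)) ^ 2 = (M : ℝ) ^ 2 / 2 := by
    rw [mul_pow, div_pow, Real.sq_sqrt (by norm_num)]; ring
  rw [h4] at h3
  calc (1 : ℝ) = 2 / (M : ℝ) ^ 2 * ((M : ℝ) ^ 2 / 2) := by field_simp
    _ ≤ _ := by gcongr

lemma wt_decay (R M : ℕ) (hM : 1 ≤ M) (a : ℤ) (ha : a ∈ cs R) (h0 : a ≠ 0) :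
    wt R M a ≤ ((2 * R + 1 : ℝ) / M) ^ 2 / (2 * (a : ℝ) ^ 2) := by
  rw [wt_eq]
  have hM' : (0 : ℝ) < M := by exact_mod_cast hM
  have hN := NN_pos R
  have hN' : (2 * (R : ℝ) + 1) ≠ 0 := hN.ne'
  unfold cs at ha
  rw [mem_Icc] at ha
  have ha1 : |(a : ℝ)| ≤ R := by
    rw [abs_le]
    constructor
    · exact_mod_cast ha.1
    · exact_mod_cast ha.2
  have ha2 : 0 < |(a : ℝ)| := by
    rw [abs_pos]; exact_mod_cast h0
  have h1 : 2 * |(a : ℝ)| / (2 * R + 1) ≤ |Real.sin (Real.pi * (a / (2 * R + 1)))| := by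
    have h2 := Real.mul_abs_le_abs_sin (x := Real.pi * (a / (2 * R + 1))) (by
      rw [abs_mul, abs_of_pos Real.pi_pos, abs_div, abs_of_pos hN]
      have h3 : |(a : ℝ)| / (2 * R + 1) ≤ 1 / 2 := by
        rw [div_le_div_iff₀ hN (by norm_num)]
        linarith
      have := Real.pi_pos
      nlinarith)
    rw [abs_mul, abs_of_pos Real.pi_pos, abs_div, abs_of_pos hN] at h2
    calc 2 * |(a : ℝ)| / (2 * R + 1) = 2 / Real.pi * (Real.pi * (|(a : ℝ)| / (2 * R + 1))) := by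
          field_simp
      _ ≤ _ := h2
  have h2 : ‖SS R M a‖ * (2 * |Real.sin (Real.pi * (a / (2 * R + 1)))|) ≤ 2 := by
    rw [← norm_e_sub_one, ← norm_mul]
    have h3 : SS R M a * (e (a / (2 * R + 1)) - 1) = e (a / (2 * R + 1)) ^ M - 1 := by
      unfold SS
      have h4 : ∀ h ∈ range M, e ((a : ℝ) * h / (2 * R + 1)) = e (a / (2 * R + 1)) ^ h := by
        intro k _
        rw [← e_nat_mul]
        congr 1
        ring
      rw [Finset.sum_congr rfl h4]
      exact geom_sum_mul _ _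
    rw [h3]
    refine (norm_sub_le _ _).trans ?_
    rw [norm_pow, norm_e, one_pow, norm_one]
    norm_num
  have h3 : ‖SS R M a‖ ≤ (2 * R + 1) / (2 * |(a : ℝ)|) := by
    rw [le_div_iff₀ (by positivity)]
    have h4 : ‖SS R M a‖ * (2 * (2 * |(a : ℝ)| / (2 * R + 1))) ≤ 2 :=
      (mul_le_mul_of_nonneg_left (mul_le_mul_of_nonneg_left h1 (by norm_num))
        (norm_nonneg _)).trans h2
    have h5 : ‖SS R M a‖ * (2 * (2 * |(a : ℝ)| / (2 * R + 1))) =
        2 * (‖SS R M a‖ * (2 * |(a : ℝ)|)) / (2 * R + 1) := by ring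
    rw [h5, div_le_iff₀ hN] at h4
    linarith
  calc 2 / (M : ℝ) ^ 2 * ‖SS R M a‖ ^ 2 ≤ 2 / (M : ℝ) ^ 2 * ((2 * R + 1) / (2 * |(a : ℝ)|)) ^ 2 := by
        gcongr
    _ = ((2 * R + 1 : ℝ) / M) ^ 2 / (2 * (a : ℝ) ^ 2) := by
        rw [div_pow, div_pow, mul_pow, sq_abs]
        have : (a : ℝ) ≠ 0 := by exact_mod_cast h0
        field_simp

lemma norm_SS_sub (R M : ℕ) (a b : ℤ) :
    ‖SS R M a - SS R M b‖ ≤ Real.pi * (M : ℝ) ^ 2 * |(a : ℝ) - b| / (2 * R + 1) := by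
  have hN := NN_pos R
  have h1 : ∀ h ∈ range M, ‖e ((a : ℝ) * h / (2 * R + 1)) - e ((b : ℝ) * h / (2 * R + 1))‖ ≤
      2 * Real.pi * |(a : ℝ) - b| / (2 * R + 1) * h := by
    intro h _
    refine (norm_e_sub _ _).trans (le_of_eq ?_)
    have h2 : (a : ℝ) * h / (2 * R + 1) - (b : ℝ) * h / (2 * R + 1) =
        ((a : ℝ) - b) * h / (2 * R + 1) := by ring
    rw [h2, abs_div, abs_of_pos hN, abs_mul,
      (abs_of_nonneg (Nat.cast_nonneg h) : |(h : ℝ)| = h)]
    ring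
  unfold SS
  rw [← Finset.sum_sub_distrib]
  refine (norm_sum_le _ _).trans ((Finset.sum_le_sum h1).trans ?_)
  rw [← Finset.mul_sum]
  have h2 : ∑ i ∈ range M, (i : ℝ) ≤ (M : ℝ) ^ 2 / 2 := by
    have h3 := Finset.sum_range_id_mul_two M
    have h4 : (∑ i ∈ range M, (i : ℝ)) * 2 = M * ((M - 1 : ℕ) : ℝ) := by
      rw [← Nat.cast_mul, ← h3]
      push_cast
      rfl
    have h5 : ((M - 1 : ℕ) : ℝ) ≤ M := by exact_mod_cast Nat.sub_le M 1
    have h6 : (M : ℝ) * ((M - 1 : ℕ) : ℝ) ≤ M * M := by gcongr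
    nlinarith
  calc 2 * Real.pi * |(a : ℝ) - b| / (2 * R + 1) * ∑ i ∈ range M, (i : ℝ)
      ≤ 2 * Real.pi * |(a : ℝ) - b| / (2 * R + 1) * ((M : ℝ) ^ 2 / 2) := by
        refine mul_le_mul_of_nonneg_left h2 ?_
        have := Real.pi_pos
        positivity
    _ = _ := by ring

lemma wt_lip (R M : ℕ) (hM : 1 ≤ M) (a b : ℤ) :
    |wt R M a - wt R M b| ≤ 13 * (M / (2 * R + 1 : ℝ)) * |(a : ℝ) - b| := by
  have hM' : (0 : ℝ) < M := by exact_mod_cast hM
  have hN := NN_pos R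
  rw [wt_eq, wt_eq, ← mul_sub, abs_mul, abs_of_pos (by positivity : (0 : ℝ) < 2 / (M : ℝ) ^ 2)]
  have h1 : |‖SS R M a‖ ^ 2 - ‖SS R M b‖ ^ 2| ≤
      2 * M * (Real.pi * (M : ℝ) ^ 2 * |(a : ℝ) - b| / (2 * R + 1)) := by
    rw [sq_sub_sq, abs_mul]
    have h2 : |‖SS R M a‖ + ‖SS R M b‖| ≤ 2 * M := by
      rw [abs_of_nonneg (by positivity)]
      have := norm_SS_le R M a
      have := norm_SS_le R M b
      linarith
    have h3 : |‖SS R M a‖ - ‖SS R M b‖| ≤ ‖SS R M a - SS R M b‖ := abs_norm_sub_norm_le _ _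
    exact mul_le_mul h2 (h3.trans (norm_SS_sub R M a b)) (abs_nonneg _) (by positivity)
  refine (mul_le_mul_of_nonneg_left h1 (by positivity)).trans ?_
  have h4 : 2 / (M : ℝ) ^ 2 * (2 * M * (Real.pi * (M : ℝ) ^ 2 * |(a : ℝ) - b| / (2 * R + 1))) =
      4 * Real.pi * (M / (2 * R + 1 : ℝ)) * |(a : ℝ) - b| := by
    field_simp
    ring
  rw [h4]
  have h5 := Real.pi_lt_d2
  have h6 : 4 * Real.pi ≤ 13 := by linarith
  gcongr

lemma norm_SS_sq (R M : ℕ) (a : ℤ) : ((‖SS R M a‖ ^ 2 : ℝ) : ℂ) =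
    ∑ p ∈ range M ×ˢ range M, e ((a : ℝ) * ((p.1 : ℤ) - p.2 : ℤ) / (2 * R + 1)) := by
  have h1 : ((‖SS R M a‖ ^ 2 : ℝ) : ℂ) = SS R M a * (starRingEnd ℂ) (SS R M a) := by
    rw [Complex.mul_conj, Complex.normSq_eq_norm_sq]
  rw [h1]
  unfold SS
  rw [map_sum, Finset.sum_mul_sum, Finset.sum_product]
  refine Finset.sum_congr rfl fun i _ => Finset.sum_congr rfl fun j _ => ?_
  rw [conj_e, ← e_add]
  congr 1
  push_cast
  ring

lemma ft (R M : ℕ) (t : ℤ) :
    ∑ a ∈ cs R, (wt R M a : ℂ) * e ((a : ℝ) * t / (2 * R + 1)) = (wh R M t : ℂ) := by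
  have h1 : ∀ a ∈ cs R, (wt R M a : ℂ) * e ((a : ℝ) * t / (2 * R + 1)) =
      2 / (M : ℂ) ^ 2 * ∑ p ∈ range M ×ˢ range M,
        e ((a : ℝ) * ((p.1 : ℤ) - p.2 + t : ℤ) / (2 * R + 1)) := by
    intro a _
    rw [wt_eq, Complex.ofReal_mul, norm_SS_sq, mul_assoc, Finset.sum_mul]
    congr 1
    · push_cast; rfl
    · refine Finset.sum_congr rfl fun p _ => ?_
      rw [← e_add]
      congr 1
      push_cast
      ring
  rw [Finset.sum_congr rfl h1, ← Finset.mul_sum, Finset.sum_comm,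
    Finset.sum_congr rfl fun p _ => orth R _, ← Finset.sum_filter, Finset.sum_const, nsmul_eq_mul]
  unfold wh
  push_cast
  ring

lemma card_le (R M : ℕ) (hM : M ≤ 2 * R + 1) (t : ℤ) :
    ((range M ×ˢ range M).filter
      (fun p : ℕ × ℕ => (2 * (R : ℤ) + 1) ∣ (p.1 : ℤ) - p.2 + t)).card ≤ M := by
  calc _ ≤ (range M).card := by
        refine Finset.card_le_card_of_injOn Prod.fst ?_ ?_
        · intro p hp
          simp only [coe_filter, mem_product, Set.mem_ofPred_eq] at hp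
          exact hp.1.1
        · intro p hp p' hp' h
          simp only [coe_filter, mem_product, Set.mem_ofPred_eq, mem_range] at hp hp'
          refine Prod.ext h ?_
          have h1 : (2 * (R : ℤ) + 1) ∣ (p.2 : ℤ) - p'.2 := by
            have h2 := dvd_sub hp'.2 hp.2
            rw [h] at h2
            have h3 : (p'.1 : ℤ) - p'.2 + t - (p'.1 - p.2 + t) = (p.2 : ℤ) - p'.2 := by ring
            rw [h3] at h2
            exact h2
          have h4 := Int.eq_zero_of_abs_lt_dvd h1 (by rw [abs_lt]; omega)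
          omega
    _ = M := card_range M

lemma card_zero (R M : ℕ) (hM : M ≤ 2 * R + 1) :
    ((range M ×ˢ range M).filter
      (fun p : ℕ × ℕ => (2 * (R : ℤ) + 1) ∣ (p.1 : ℤ) - p.2 + 0)).card = M := by
  refine le_antisymm (card_le R M hM 0) ?_
  calc M = (range M).card := (card_range M).symm
    _ ≤ _ := by
        refine Finset.card_le_card_of_injOn (fun i => (i, i)) ?_ ?_
        · intro i hi
          simp only [coe_filter, mem_product, Set.mem_ofPred_eq]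
          refine ⟨⟨hi, hi⟩, ?_⟩
          simp
        · intro i _ j _ h
          exact (Prod.mk.inj h).1

theorem t : S_WTF := by
  intro R M hM hMR
  have hM' : (0 : ℝ) < M := by exact_mod_cast hM
  have hN := NN_pos R
  refine ⟨wt_nonneg R M, wt_le R M hM, wt_per R M, one_le_wt R M hM,
    fun a ha h0 => wt_decay R M hM a ha h0, wt_lip R M hM, ft R M, ?_, ?_, ?_⟩
  · have h1 := ft R M 0
    have h2 : ∑ a ∈ cs R, (wt R M a : ℂ) * e ((a : ℝ) * (0 : ℤ) / (2 * R + 1)) =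
        ((∑ a ∈ cs R, wt R M a : ℝ) : ℂ) := by
      rw [Complex.ofReal_sum]
      refine Finset.sum_congr rfl fun a _ => ?_
      rw [Int.cast_zero, mul_zero, zero_div, e_zero, mul_one]
    rw [h2] at h1
    have h3 := Complex.ofReal_injective h1
    rw [h3]
    unfold wh
    rw [card_zero R M hMR]
    field_simp
  · intro t
    unfold wh
    refine ⟨by positivity, ?_⟩
    have h1 : (((range M ×ˢ range M).filter
      (fun p : ℕ × ℕ => (2 * (R : ℤ) + 1) ∣ (p.1 : ℤ) - p.2 + t)).card : ℝ) ≤ M := by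
      exact_mod_cast card_le R M hMR t
    calc _ ≤ 2 * (2 * (R : ℝ) + 1) / (M : ℝ) ^ 2 * M := by gcongr
      _ = 2 * (2 * R + 1) / M := by field_simp
  · intro t ht
    unfold wh at ht
    have h1 : ((range M ×ˢ range M).filter
      (fun p : ℕ × ℕ => (2 * (R : ℤ) + 1) ∣ (p.1 : ℤ) - p.2 + t)).Nonempty := by
      rw [Finset.nonempty_iff_ne_empty]
      intro h
      rw [h] at ht
      simp at ht
    obtain ⟨p, hp⟩ := h1
    rw [mem_filter, mem_product, mem_range, mem_range] at hp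
    obtain ⟨⟨h1, h2⟩, m, hm⟩ := hp
    unfold nint
    have h3 : |(t : ℝ) / (2 * R + 1) - round ((t : ℝ) / (2 * R + 1))| ≤
        |(t : ℝ) / (2 * R + 1) - m| := round_le _ _
    refine h3.trans_lt ?_
    have h4 : (t : ℝ) / (2 * R + 1) - m = ((p.2 : ℝ) - p.1) / (2 * R + 1) := by
      have h5 : (t : ℝ) = (2 * R + 1) * m - ((p.1 : ℝ) - p.2) := by
        have h6 : (t : ℤ) = (2 * R + 1) * m - (p.1 - p.2) := by linarith
        rw [h6]; push_cast; ring
      rw [h5]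
      field_simp
      ring
    rw [h4, abs_div, abs_of_pos hN]
    refine div_lt_div_of_pos_right ?_ hN
    rw [abs_lt]
    have h5 : (p.1 : ℝ) < M := by exact_mod_cast h1
    have h6 : (p.2 : ℝ) < M := by exact_mod_cast h2
    have h7 : (0 : ℝ) ≤ p.1 := Nat.cast_nonneg _
    have h8 : (0 : ℝ) ≤ p.2 := Nat.cast_nonneg _
    constructor <;> linarith

end Pool.Agent.H13K.WTF
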