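import Pool.Agent.H13K.ARC4

/-!
# Project BH, part K, ARC: from the weighted sum over the coefficients to rays
-/

set_option autoImplicit false

namespace Pool.Agent.H13K.ARC

open Finset
open Pool.Agent.H300R2.FB (pw tR)
open Pool.Agent.H13K

theorem prod_lip (g1 g2 : ℝ → ℂ) (G δ : ℝ) (hG : 0 ≤ G) (hδ : 0 ≤ δ) (hg : ∀ y, ‖g1 y‖ ≤ G ∧ ‖g2 y‖ ≤ G)
    (hl : ∀ y y', ‖g1 y - g1 y'‖ ≤ G * δ * |y - y'| ∧ ‖g2 y - g2 y'‖ ≤ G * δ * |y - y'|)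
    (x x' y y' Z : ℝ) (h1 : |x - x'| ≤ Z) (h2 : |y - y'| ≤ Z) :
    ‖g1 x * g2 y - g1 x' * g2 y'‖ ≤ 2 * G ^ 2 * δ * Z := by
  have e : g1 x * g2 y - g1 x' * g2 y' = (g1 x - g1 x') * g2 y + g1 x' * (g2 y - g2 y') := by ring
  rw [e]
  refine (norm_add_le _ _).trans ?_
  rw [norm_mul, norm_mul]
  have h3 : ‖g1 x - g1 x'‖ * ‖g2 y‖ ≤ (G * δ * Z) * G :=
    mul_le_mul ((hl x x').1.trans (mul_le_mul_of_nonneg_left h1 (mul_nonneg hG hδ))) (hg y).2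
      (norm_nonneg _) (mul_nonneg (mul_nonneg hG hδ) ((abs_nonneg _).trans h1))
  have h4 : ‖g1 x'‖ * ‖g2 y - g2 y'‖ ≤ G * (G * δ * Z) :=
    mul_le_mul (hg x').1 ((hl y y').2.trans (mul_le_mul_of_nonneg_left h2 (mul_nonneg hG hδ)))
      (norm_nonneg _) hG
  nlinarith [h3, h4]

/-- the integral on a ray -/
noncomputable def JJ {n : ℕ} (g1 g2 : ℝ → ℂ) (a : Fin (n + 1) → ℤ) (s : ℤ) (D D' : ℝ) (k k' : ℕ) : ℝ :=
  ‖∫ u in D..D', g1 (s * (u * pw (n + 1) (bb a s D) (k + cc a s D))) *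
    g2 (s * (u * pw (n + 1) (bb a s D) (k' + cc a s D)))‖

theorem pair (n : ℕ) (R H K I : ℕ) (w : ℤ → ℝ) (Λ κ δ G : ℝ) (g1 g2 : ℝ → ℂ) (k k' : ℕ) (D : ℕ → ℝ)
    (hH : 1 ≤ H) (hΛ : 1 ≤ Λ) (hκ : 0 < κ) (hδ : 0 ≤ δ) (hG : 0 ≤ G)
    (hw0 : ∀ a, 0 ≤ w a) (hw2 : ∀ a, w a ≤ 2) (hwl : ∀ a b : ℤ, |w a - w b| ≤ 2 / H * |(a : ℝ) - b|)
    (hg : ∀ y, ‖g1 y‖ ≤ G ∧ ‖g2 y‖ ≤ G)
    (hl : ∀ y y', ‖g1 y - g1 y'‖ ≤ G * δ * |y - y'| ∧ ‖g2 y - g2 y'‖ ≤ G * δ * |y - y'|)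
    (hk : Λ ^ 2 ≤ k) (hk' : Λ ^ 2 ≤ k') (hkK : k ≤ K) (hkK' : k' ≤ K)
    (hD0 : D 0 = H / Λ) (hDs : ∀ i, D (i + 1) = D i + κ * D i)
    (hlt : ∀ i < I, D i ≤ H * Λ) (hI : D I ≤ 2 * (H * Λ)) (hR : 2 * (H * Λ) ≤ R)
    (Tl : ℝ) (ht : ∑ m ∈ Ioc ⌊D I⌋₊ R, (w (m : ℤ) + w (-(m : ℤ))) ≤ Tl)
    (a : Fin (n + 1) → ℤ) (ha : ∀ l, |(a l : ℝ)| ≤ H * Λ) :
    ‖∑ m ∈ cs R, (w m : ℂ) * (g1 ((Fl a k + m * (k : ℤ) ^ (n + 1) : ℤ) : ℝ) *
      g2 ((Fl a k' + m * (k' : ℤ) ^ (n + 1) : ℤ) : ℝ))‖ ≤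
      ∑ i ∈ range I, (2 * JJ g1 g2 a 1 (D i) (D (i + 1)) k k' + 2 * JJ g1 g2 a (-1) (D i) (D (i + 1)) k k') +
      (2 * G ^ 2 + 4 * (H / Λ) * G ^ 2 + Tl * G ^ 2 + 2 * ((2 * (H * Λ) + I) *
      (2 / H * (κ * (H * Λ) + 1) * G ^ 2 + 2 * (2 * G ^ 2 * δ * ((n + 1) * κ * (H * Λ) * (K : ℝ) ^ n +
        (if 2 ≤ n + 1 then 1 else 0) * (H * Λ))) +
        2 * (2 * G ^ 2 * δ * ((n + 2) * (K : ℝ) ^ (n + 1)))) + I * (4 * G ^ 2))) := by
  have hHr : (1 : ℝ) ≤ H := by exact_mod_cast hH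
  have hΛ0 : 0 < Λ := by linarith
  have hk1 : 1 ≤ k := by
    have : (1 : ℝ) ≤ k := le_trans (by nlinarith) hk
    exact_mod_cast this
  have hk1' : 1 ≤ k' := by
    have : (1 : ℝ) ≤ k' := le_trans (by nlinarith) hk'
    exact_mod_cast this
  have hD0' : 0 < D 0 := by rw [hD0]; positivity
  have hpos : ∀ i, 0 < D i := by
    intro i
    induction i with
    | zero => exact hD0'
    | succ i ih => rw [hDs]; positivity
  have hge : ∀ i, H / Λ ≤ D i := by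
    intro i
    induction i with
    | zero => rw [hD0]
    | succ i ih =>
      rw [hDs]
      have := hpos i
      nlinarith
  -- coefficients
  have hquot : ∀ i < I, ∀ x : ℝ, |x| ≤ H * Λ → |x / D i| ≤ Λ ^ 2 := by
    intro i _ x hx
    rw [abs_div, abs_of_pos (hpos i), div_le_iff₀ (hpos i)]
    refine hx.trans ?_
    have h1 : Λ ^ 2 * (H / Λ) ≤ Λ ^ 2 * D i := mul_le_mul_of_nonneg_left (hge i) (by positivity)
    have h2 : Λ ^ 2 * (H / Λ) = H * Λ := by field_simp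
    linarith
  have hbb : ∀ i < I, ∀ s : ℤ, (s = 1 ∨ s = -1) → ∀ j, |bb a s (D i) j| ≤ Λ ^ 2 := by
    intro i hi s hs j
    refine hquot i hi _ ?_
    rw [abs_mul, s_abs hs, one_mul]
    exact ha _
  have hcc : ∀ i < I, ∀ s : ℤ, (s = 1 ∨ s = -1) → |cc a s (D i)| ≤ Λ ^ 2 := by
    intro i hi s hs
    unfold cc
    split_ifs
    · refine hquot i hi _ ?_
      rw [abs_mul, s_abs hs, one_mul]
      exact ha _
    · rw [abs_zero]; positivity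
  have hcc2 : ∀ i : ℕ, ∀ s : ℤ, 2 ≤ n + 1 → cc a s (D i) = 0 := by
    intro i s h
    unfold cc
    rw [if_neg (by omega)]
  have hpw : ∀ i < I, ∀ s : ℤ, (s = 1 ∨ s = -1) → ∀ j : ℕ, Λ ^ 2 ≤ j → j ≤ K →
      |pw (n + 1) (bb a s (D i)) (j + cc a s (D i))| ≤ (n + 2) * (K : ℝ) ^ (n + 1) := by
    intro i hi s hs j hj hjK
    have hj1 : 1 ≤ j := by
      have : (1 : ℝ) ≤ j := le_trans (by nlinarith) hj
      exact_mod_cast this
    refine (pw_bound (n + 1) (by omega) _ _ (Λ ^ 2) j K (hbb i hi s hs) (hcc i hi s hs) (hcc2 i s) hj hj1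
      hjK).trans (le_of_eq ?_)
    push_cast
    ring
  have key := inner R I w hw0 hw2 (2 / H) hwl (by positivity) D κ (H * Λ) hκ hD0' hDs hlt hI hR
    (by positivity) Tl ht
    (fun m => g1 ((Fl a k + m * (k : ℤ) ^ (n + 1) : ℤ) : ℝ) * g2 ((Fl a k' + m * (k' : ℤ) ^ (n + 1) : ℤ) : ℝ))
    (fun i s u => g1 (s * (u * pw (n + 1) (bb a s (D i)) (k + cc a s (D i)))) *
      g2 (s * (u * pw (n + 1) (bb a s (D i)) (k' + cc a s (D i))))) (G ^ 2)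
    (2 * G ^ 2 * δ * ((n + 1) * κ * (H * Λ) * (K : ℝ) ^ n + (if 2 ≤ n + 1 then 1 else 0) * (H * Λ)))
    (2 * G ^ 2 * δ * ((n + 2) * (K : ℝ) ^ (n + 1))) ?_ ?_ ?_ ?_ ?_ ?_
  · refine key.trans (le_of_eq ?_)
    rw [hD0]
    unfold JJ
    rfl
  · intro m
    rw [norm_mul, sq]
    exact mul_le_mul (hg _).1 (hg _).2 (norm_nonneg _) hG
  · intro i _ s _ u
    rw [norm_mul, sq]
    exact mul_le_mul (hg _).1 (hg _).2 (norm_nonneg _) hG
  · positivity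
  · intro i hi s hs u v
    have h1 : ∀ j : ℕ, Λ ^ 2 ≤ j → j ≤ K →
        |(s : ℝ) * (u * pw (n + 1) (bb a s (D i)) (j + cc a s (D i))) -
          s * (v * pw (n + 1) (bb a s (D i)) (j + cc a s (D i)))| ≤
          (n + 2) * (K : ℝ) ^ (n + 1) * |u - v| := by
      intro j hj hjK
      rw [← mul_sub, ← sub_mul, abs_mul, abs_mul, s_abs hs, one_mul, mul_comm]
      exact mul_le_mul_of_nonneg_right (hpw i hi s hs j hj hjK) (abs_nonneg _)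
    refine (prod_lip g1 g2 G δ hG hδ hg hl _ _ _ _ _ (h1 k hk hkK) (h1 k' hk' hkK')).trans (le_of_eq ?_)
    ring
  · intro i hi s hs m hm1 hm2
    have h1 : ∀ j : ℕ, 1 ≤ j → j ≤ K → |((Fl a j + (s * m) * (j : ℤ) ^ (n + 1) : ℤ) : ℝ) -
        s * (m * pw (n + 1) (bb a s (D i)) (j + cc a s (D i)))| ≤
        (n + 1) * κ * (H * Λ) * (K : ℝ) ^ n + (if 2 ≤ n + 1 then 1 else 0) * (H * Λ) := by
      intro j hj hjK
      refine (freeze a s hs (D i) κ (H * Λ) m j K (hpos i) hκ.le hm1 (by rw [← hDs]; exact hm2) ha hj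
        hjK).trans (le_of_eq ?_)
      split_ifs <;> simp
    exact prod_lip g1 g2 G δ hG hδ hg hl _ _ _ _ _ (h1 k hk1 hkK) (h1 k' hk1' hkK')
  · have : (0 : ℝ) ≤ (if 2 ≤ n + 1 then 1 else 0) := by split_ifs <;> norm_num
    positivity

theorem quot (H Λ D x : ℝ) (hH : 0 < H) (hΛ : 0 < Λ) (hD : H / Λ ≤ D) (hx : |x| ≤ H * Λ) : |x / D| ≤ Λ ^ 2 := by
  have hD0 : 0 < D := lt_of_lt_of_le (by positivity) hD
  rw [abs_div, abs_of_pos hD0, div_le_iff₀ hD0]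
  refine hx.trans ?_
  have h1 : Λ ^ 2 * (H / Λ) ≤ Λ ^ 2 * D := mul_le_mul_of_nonneg_left hD (by positivity)
  have h2 : Λ ^ 2 * (H / Λ) = H * Λ := by field_simp
  linarith

theorem bb_le {n : ℕ} (a : Fin (n + 1) → ℤ) (s : ℤ) (hs : s = 1 ∨ s = -1) (H Λ D : ℝ) (hH : 0 < H) (hΛ : 0 < Λ)
    (hD : H / Λ ≤ D) (ha : ∀ l, |(a l : ℝ)| ≤ H * Λ) (j : Fin (n + 1 - 1)) : |bb a s D j| ≤ Λ ^ 2 := by
  refine quot H Λ D _ hH hΛ hD ?_
  rw [abs_mul, s_abs hs, one_mul]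
  exact ha _

theorem cc_le {n : ℕ} (a : Fin (n + 1) → ℤ) (s : ℤ) (hs : s = 1 ∨ s = -1) (H Λ D : ℝ) (hH : 0 < H) (hΛ : 0 < Λ)
    (hD : H / Λ ≤ D) (ha : ∀ l, |(a l : ℝ)| ≤ H * Λ) : |cc a s D| ≤ Λ ^ 2 := by
  unfold cc
  split_ifs
  · refine quot H Λ D _ hH hΛ hD ?_
    rw [abs_mul, s_abs hs, one_mul]
    exact ha _
  · rw [abs_zero]; positivity

theorem cc_zero {n : ℕ} (a : Fin (n + 1) → ℤ) (s : ℤ) (D : ℝ) (h : 2 ≤ n + 1) : cc a s D = 0 := by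
  unfold cc
  rw [if_neg (by omega)]

theorem floor_half (x : ℝ) (hx : 1 ≤ x) : x / 2 ≤ ⌊x⌋₊ ∧ 1 ≤ ⌊x⌋₊ := by
  have h1 : 1 ≤ ⌊x⌋₊ := by
    rw [Nat.one_le_iff_ne_zero, ← Nat.pos_iff_ne_zero, Nat.floor_pos]; exact hx
  have h2 := Nat.lt_floor_add_one x
  have h3 : (1 : ℝ) ≤ ⌊x⌋₊ := by exact_mod_cast h1
  exact ⟨by linarith, h1⟩

theorem fin1 (n : ℕ) (H Λ G Z E0 Q : ℝ) (hH : 1 ≤ H) (hΛ : 0 < Λ) (hZ1 : 1 / Λ ≤ Z)
    (hE0b : E0 ≤ (600 + 48 * (n + 2)) * H * G ^ 2 * Z) :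
    Q ^ 2 * ((n + 1) * (512 * H / Λ * (32 * H) ^ n) * (32 * H * G ^ 2) + (32 * H) ^ (n + 1) * E0) ≤
      32 ^ (n + 1) * (512 * (n + 1) + (600 + 48 * (n + 2)) + 8) * H ^ (n + 1 + 1) * G ^ 2 * Q ^ 2 * Z := by
  have hZ0 : 0 ≤ Z := le_trans (by positivity) hZ1
  set B : ℝ := 32 ^ (n + 1) * (H ^ (n + 2) * G ^ 2) with hB
  have hB0 : 0 ≤ B := by positivity
  have h1 : (n + 1) * (512 * H / Λ * (32 * H) ^ n) * (32 * H * G ^ 2) =
      512 * (n + 1) * B * (1 / Λ) := by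
    rw [hB, mul_pow]
    ring
  have h2 : 512 * ((n : ℝ) + 1) * B * (1 / Λ) ≤ 512 * (n + 1) * B * Z :=
    mul_le_mul_of_nonneg_left hZ1 (by positivity)
  have h3 : (32 * H) ^ (n + 1) * E0 ≤ (32 * H) ^ (n + 1) *
      ((600 + 48 * (n + 2)) * H * G ^ 2 * Z) := mul_le_mul_of_nonneg_left hE0b (by positivity)
  have h4 : (32 * H) ^ (n + 1) * ((600 + 48 * (n + 2)) * H * G ^ 2 * Z) =
      (600 + 48 * (n + 2)) * B * Z := by
    rw [hB, mul_pow]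
    ring
  have h6 : 0 ≤ 8 * B * Z := by positivity
  have h5 : (n + 1) * (512 * H / Λ * (32 * H) ^ n) * (32 * H * G ^ 2) + (32 * H) ^ (n + 1) * E0 ≤
      (512 * (n + 1) + (600 + 48 * (n + 2)) + 8) * B * Z := by
    rw [h1]
    calc 512 * ((n : ℝ) + 1) * B * (1 / Λ) + (32 * H) ^ (n + 1) * E0 ≤
        512 * (n + 1) * B * Z + (600 + 48 * (n + 2)) * B * Z := add_le_add h2 (h3.trans h4.le)
      _ ≤ 512 * (n + 1) * B * Z + (600 + 48 * (n + 2)) * B * Z + 8 * B * Z := by linarith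
      _ = _ := by ring
  calc Q ^ 2 * ((n + 1) * (512 * H / Λ * (32 * H) ^ n) * (32 * H * G ^ 2) + (32 * H) ^ (n + 1) * E0) ≤
      Q ^ 2 * ((512 * (n + 1) + (600 + 48 * (n + 2)) + 8) * B * Z) :=
        mul_le_mul_of_nonneg_left h5 (by positivity)
    _ = _ := by rw [hB]; ring

theorem fin2 (n : ℕ) (H Λ κ I Rr : ℝ) (hH : 1 ≤ H) (hΛ : 0 < Λ) (hκ : 0 < κ) (hRr : 0 ≤ Rr)
    (hI4 : I ≤ 2 * Λ / κ) :
    (32 * H) ^ (n + 1) * (I * (4 * Rr)) ≤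
      32 ^ (n + 1) * (512 * (n + 1) + (600 + 48 * (n + 2)) + 8) * H ^ (n + 1) * (Λ / κ) * Rr := by
  have h1 : I * (4 * Rr) ≤ 2 * Λ / κ * (4 * Rr) := mul_le_mul_of_nonneg_right hI4 (by positivity)
  have h2 : (32 * H) ^ (n + 1) * (I * (4 * Rr)) ≤ (32 * H) ^ (n + 1) *
      (2 * Λ / κ * (4 * Rr)) := mul_le_mul_of_nonneg_left h1 (by positivity)
  refine h2.trans ?_
  set B : ℝ := 32 ^ (n + 1) * (H ^ (n + 1) * (Λ / κ) * Rr) with hB
  have hB0 : 0 ≤ B := by positivity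
  have h3 : (32 * H) ^ (n + 1) * (2 * Λ / κ * (4 * Rr)) = 8 * B := by
    rw [hB, mul_pow]; ring
  rw [h3]
  have hn : (0 : ℝ) ≤ n := Nat.cast_nonneg n
  have h5 : (8 : ℝ) ≤ 512 * (n + 1) + (600 + 48 * (n + 2)) + 8 := by linarith
  calc 8 * B ≤ (512 * (n + 1) + (600 + 48 * (n + 2)) + 8) * B := mul_le_mul_of_nonneg_right h5 hB0
    _ = _ := by rw [hB]; ring

theorem t : S_WTF → S_ARC := by
  classical
  intro hW d hd
  obtain ⟨n, rfl⟩ : ∃ n, d = n + 1 := ⟨d - 1, by omega⟩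
  refine ⟨32 ^ (n + 1) * (512 * (n + 1) + (600 + 48 * (n + 2)) + 8), ?_, ?_⟩
  · have h1 : (1 : ℝ) ≤ 32 ^ (n + 1) := one_le_pow₀ (by norm_num)
    have h2 : (0 : ℝ) ≤ n := Nat.cast_nonneg n
    nlinarith
  intro R M H K1 K T Λ κ δ G Rr g1 g2 hM hN1 hN2 hH hK1 hT hΛ hΛK hHR hκ hκ1 hδ hG hRr hg hl hray
  have hHr : (1 : ℝ) ≤ H := by exact_mod_cast hH
  have hΛ0 : 0 < Λ := by linarith
  have hn0 : (0 : ℝ) ≤ n := Nat.cast_nonneg n
  -- the weights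
  have hM2 : M ≤ 2 * R + 1 := by nlinarith
  obtain ⟨hw0, hw2, -, -, hdec, hlip, -, hsum, -, -⟩ := hW R M hM hM2
  have hMr : (1 : ℝ) ≤ M := by exact_mod_cast hM
  have hN1r : 8 * (H : ℝ) * M ≤ 2 * R + 1 := by exact_mod_cast hN1
  have hN2r : 2 * (R : ℝ) + 1 ≤ 16 * H * M := by exact_mod_cast hN2
  have hwl : ∀ a b : ℤ, |wt R M a - wt R M b| ≤ 2 / H * |(a : ℝ) - b| := by
    intro a b
    refine (hlip a b).trans (mul_le_mul_of_nonneg_right ?_ (abs_nonneg _))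
    rw [← mul_div_assoc, div_le_div_iff₀ (by positivity) (by linarith)]
    nlinarith
  have hNM : (2 * (R : ℝ) + 1) / M ≤ 16 * H := by
    rw [div_le_iff₀ (by linarith)]; exact hN2r
  have hwd : ∀ m ∈ cs R, m ≠ 0 → wt R M m ≤ (16 * (H : ℝ)) ^ 2 / (2 * (m : ℝ) ^ 2) := by
    intro m hm hm0
    refine (hdec m hm hm0).trans ?_
    refine div_le_div_of_nonneg_right ?_ (by positivity)
    exact pow_le_pow_left₀ (by positivity) hNM 2
  set W : ℝ := ∑ m ∈ cs R, wt R M m with hWdef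
  have hW0 : 0 ≤ W := sum_nonneg fun _ _ => hw0 _
  have hW32 : W ≤ 32 * H := by
    rw [hsum, mul_div_assoc]; linarith
  -- the intervals
  obtain ⟨I, hI1, hI2, hI3, hI4⟩ := exists_I κ Λ (H / Λ) hκ hκ1 hΛ (by positivity)
  have hA0 : (H : ℝ) / Λ * Λ ^ 2 = H * Λ := by field_simp
  rw [hA0] at hI1 hI2 hI3
  set D : ℕ → ℝ := fun i => H / Λ * (1 + κ) ^ i with hD
  have hD0 : D 0 = H / Λ := by simp [hD]
  have hDs1 : ∀ i, D (i + 1) = (1 + κ) * D i := by intro i; simp only [hD]; ring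
  have hDs : ∀ i, D (i + 1) = D i + κ * D i := by intro i; rw [hDs1]; ring
  have hDge : ∀ i, H / Λ ≤ D i := by
    intro i
    simp only [hD]
    have : (1 : ℝ) ≤ (1 + κ) ^ i := one_le_pow₀ (by linarith)
    have h0 : (0 : ℝ) ≤ H / Λ := by positivity
    nlinarith
  have hHΛ : 1 ≤ H * Λ := by nlinarith
  have hR2 : 2 * (H * Λ) ≤ R := by nlinarith
  have tl1 : ∀ x : ℝ, H * Λ ≤ x → x ≤ R →
      ∑ m ∈ Ioc ⌊x⌋₊ R, (wt R M (m : ℤ) + wt R M (-(m : ℤ))) ≤ 512 * H / Λ := by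
    intro x hx hxR
    obtain ⟨h1, h2⟩ := floor_half x (hHΛ.trans hx)
    have h3 : ⌊x⌋₊ ≤ R := by
      have := Nat.floor_le (by linarith : 0 ≤ x)
      exact_mod_cast (this.trans hxR)
    refine (tail R (wt R M) _ (by positivity) hwd _ h2 h3).trans ?_
    have h4 : (0 : ℝ) < ⌊x⌋₊ := by exact_mod_cast h2
    rw [div_le_div_iff₀ h4 hΛ0]
    have h5 : H * Λ / 2 ≤ ⌊x⌋₊ := by linarith
    have h6 : 512 * (H : ℝ) * (H * Λ / 2) ≤ 512 * H * ⌊x⌋₊ := mul_le_mul_of_nonneg_left h5 (by positivity)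
    nlinarith
  have htI := tl1 (D I) hI2 (by linarith)
  -- bad coefficients
  set A : ℕ := ⌊(H : ℝ) * Λ⌋₊ with hA
  have hAR : A ≤ R := by
    have := Nat.floor_le (by linarith : 0 ≤ (H : ℝ) * Λ)
    have h2 : (A : ℝ) ≤ R := by rw [hA]; linarith
    exact_mod_cast h2
  set P := Fintype.piFinset (fun _ : Fin (n + 1) => cs R) with hP
  have hbad : ∑ a ∈ P.filter (fun a => ∃ l, A < (a l).natAbs), ∏ l, wt R M (a l) ≤
      (n + 1) * (512 * H / Λ * (32 * H) ^ n) := by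
    have h1 := bad_mass (n + 1) (cs R) (wt R M) hw0 A (512 * H / Λ) (by
      rw [tail2 R _ A hAR]
      exact tl1 (H * Λ) le_rfl (by linarith))
    refine h1.trans ?_
    push_cast
    refine mul_le_mul_of_nonneg_left (mul_le_mul_of_nonneg_left ?_ (by positivity)) (by positivity)
    exact pow_le_pow_left₀ hW0 hW32 _
  have hmass : ∑ a ∈ P, ∏ l, wt R M (a l) ≤ (32 * (H : ℝ)) ^ (n + 1) := by
    rw [hP, mass]
    exact pow_le_pow_left₀ hW0 hW32 _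
  have hPi : ∀ a : Fin (n + 1) → ℤ, 0 ≤ ∏ l, wt R M (a l) := fun a => prod_nonneg fun _ _ => hw0 _
  -- the case of an empty set
  rcases T.eq_empty_or_nonempty with hTe | ⟨k0, hk0⟩
  · rw [hTe, sum_empty]
    positivity
  have hK1' : 1 ≤ K := by
    have := mem_Icc.1 (hT hk0)
    omega
  have hKr : (1 : ℝ) ≤ K := by exact_mod_cast hK1'
  have hTk : ∀ k ∈ T, Λ ^ 2 ≤ (k : ℝ) ∧ k ≤ K := by
    intro k hk
    obtain ⟨h1, h2⟩ := mem_Icc.1 (hT hk)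
    exact ⟨hΛK.trans (by exact_mod_cast h1), h2⟩
  set E0 : ℝ := (2 * G ^ 2 + 4 * (H / Λ) * G ^ 2 + (512 * H / Λ) * G ^ 2 + 2 * ((2 * (H * Λ) + I) *
      (2 / H * (κ * (H * Λ) + 1) * G ^ 2 + 2 * (2 * G ^ 2 * δ * ((n + 1) * κ * (H * Λ) * (K : ℝ) ^ n +
        (if 2 ≤ n + 1 then 1 else 0) * (H * Λ))) +
        2 * (2 * G ^ 2 * δ * ((n + 2) * (K : ℝ) ^ (n + 1)))) + I * (4 * G ^ 2))) with hE0
  have ht0 : (0 : ℝ) ≤ (if 2 ≤ n + 1 then 1 else 0) := by split_ifs <;> norm_num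
  have ht1 : (if 2 ≤ n + 1 then (1 : ℝ) else 0) ≤ 1 := by split_ifs <;> norm_num
  have hE0p : 0 ≤ E0 := by positivity
  have hKn : (1 : ℝ) ≤ (K : ℝ) ^ n := one_le_pow₀ hKr
  have hE0b := num n H Λ κ δ (G ^ 2) ((K : ℝ) ^ n) ((K : ℝ) ^ (n + 1)) I (512 * H / Λ)
    (if 2 ≤ n + 1 then 1 else 0) hHr hΛ hκ hκ1 hδ (by positivity) hKn
    (pow_le_pow_right₀ hKr (Nat.le_succ n)) (Nat.cast_nonneg _) hI4 ht0 ht1 le_rfl
  rw [← hE0] at hE0b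
  set Inn : (Fin (n + 1) → ℤ) → ℕ → ℕ → ℂ := fun a k k' =>
    ∑ m ∈ cs R, (wt R M m : ℂ) * (g1 ((Fl a k + m * (k : ℤ) ^ (n + 1) : ℤ) : ℝ) *
      g2 ((Fl a k' + m * (k' : ℤ) ^ (n + 1) : ℤ) : ℝ)) with hInn
  set JS : (Fin (n + 1) → ℤ) → ℕ → ℕ → ℝ := fun a k k' =>
    ∑ i ∈ range I, (2 * JJ g1 g2 a 1 (D i) (D (i + 1)) k k' + 2 * JJ g1 g2 a (-1) (D i) (D (i + 1)) k k')
    with hJS
  have hgood : ∀ k ∈ T, ∀ k' ∈ T, ∀ a : Fin (n + 1) → ℤ, (¬ ∃ l, A < (a l).natAbs) →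
      ‖Inn a k k'‖ ≤ JS a k k' + E0 := by
    intro k hk k' hk' a ha
    push Not at ha
    refine pair n R H K I (wt R M) Λ κ δ G g1 g2 k k' D hH hΛ hκ hδ hG hw0 hw2 hwl hg hl (hTk k hk).1
      (hTk k' hk').1 (hTk k hk).2 (hTk k' hk').2 hD0 hDs hI1 hI3 hR2 _ htI a ?_
    intro l
    have h1 : ((a l).natAbs : ℝ) ≤ A := by exact_mod_cast ha l
    rw [Nat.cast_natAbs] at h1
    push_cast at h1
    exact h1.trans (Nat.floor_le (by linarith))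
  have htriv : ∀ k k' : ℕ, ∀ a : Fin (n + 1) → ℤ, ‖Inn a k k'‖ ≤ 32 * H * G ^ 2 := by
    intro k k' a
    refine (norm_sum_le _ _).trans ?_
    have h1 : ∀ m ∈ cs R, ‖(wt R M m : ℂ) * (g1 ((Fl a k + m * (k : ℤ) ^ (n + 1) : ℤ) : ℝ) *
      g2 ((Fl a k' + m * (k' : ℤ) ^ (n + 1) : ℤ) : ℝ))‖ ≤ wt R M m * G ^ 2 := by
      intro m _
      rw [norm_mul, norm_mul, Complex.norm_real, Real.norm_eq_abs, abs_of_nonneg (hw0 _), sq]
      exact mul_le_mul_of_nonneg_left (mul_le_mul (hg _).1 (hg _).2 (norm_nonneg _) hG) (hw0 _)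
    refine (sum_le_sum h1).trans ?_
    rw [← sum_mul]
    exact mul_le_mul_of_nonneg_right hW32 (by positivity)
  have hJS0 : ∀ a k k', 0 ≤ JS a k k' := by
    intro a k k'
    refine sum_nonneg fun i _ => ?_
    unfold JJ
    positivity
  -- the sum for a pair
  set X0 : ℝ := (n + 1) * (512 * H / Λ * (32 * H) ^ n) * (32 * H * G ^ 2) + (32 * (H : ℝ)) ^ (n + 1) * E0
    with hX0
  have hpair : ∀ k ∈ T, ∀ k' ∈ T,
      ‖∑ a ∈ Fintype.piFinset (fun _ : Fin (n + 1 + 1) => cs R),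
        ((∏ l, wt R M (a l) : ℝ) : ℂ) * (g1 (Fv a k) * g2 (Fv a k'))‖ ≤
      X0 + ∑ a ∈ P.filter (fun a => ¬ ∃ l, A < (a l).natAbs), (∏ l, wt R M (a l)) * JS a k k' := by
    intro k hk k' hk'
    have h1 : ∑ a ∈ Fintype.piFinset (fun _ : Fin (n + 1 + 1) => cs R),
        ((∏ l, wt R M (a l) : ℝ) : ℂ) * (g1 (Fv a k) * g2 (Fv a k')) =
        ∑ a ∈ P, ((∏ l, wt R M (a l) : ℝ) : ℂ) * Inn a k k' := by
      rw [sum_pi]
      refine sum_congr rfl fun a _ => ?_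
      rw [hInn]
      simp only
      rw [mul_sum]
      refine sum_congr rfl fun m _ => ?_
      rw [prod_snoc, Fv_snoc, Fv_snoc]
      push_cast
      ring
    rw [h1]
    have h2 : ‖∑ a ∈ P, ((∏ l, wt R M (a l) : ℝ) : ℂ) * Inn a k k'‖ ≤
        ∑ a ∈ P, (∏ l, wt R M (a l)) * ‖Inn a k k'‖ := by
      refine (norm_sum_le _ _).trans (sum_le_sum fun a _ => le_of_eq ?_)
      rw [norm_mul, Complex.norm_real, Real.norm_eq_abs, abs_of_nonneg (hPi a)]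
    refine h2.trans ?_
    rw [← Finset.sum_filter_add_sum_filter_not P (fun a => ∃ l, A < (a l).natAbs), hX0, add_assoc]
    refine add_le_add ?_ ?_
    · refine (sum_le_sum fun a _ => mul_le_mul_of_nonneg_left (htriv k k' a) (hPi a)).trans ?_
      rw [← sum_mul]
      exact mul_le_mul_of_nonneg_right hbad (by positivity)
    · have h3 : ∑ a ∈ P.filter (fun a => ¬ ∃ l, A < (a l).natAbs), (∏ l, wt R M (a l)) * ‖Inn a k k'‖ ≤
          ∑ a ∈ P.filter (fun a => ¬ ∃ l, A < (a l).natAbs),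
            ((∏ l, wt R M (a l)) * E0 + (∏ l, wt R M (a l)) * JS a k k') := by
        refine sum_le_sum fun a ha => ?_
        rw [← mul_add]
        refine mul_le_mul_of_nonneg_left ?_ (hPi a)
        rw [add_comm]
        exact hgood k hk k' hk' a (mem_filter.1 ha).2
      refine h3.trans ?_
      rw [sum_add_distrib, ← sum_mul]
      refine add_le_add (mul_le_mul_of_nonneg_right ?_ hE0p) le_rfl
      exact (sum_le_sum_of_subset_of_nonneg (filter_subset _ _) fun a _ _ => hPi a).trans hmass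
  -- the sum over the pairs
  have hsumJ : ∀ a : Fin (n + 1) → ℤ, (¬ ∃ l, A < (a l).natAbs) →
      ∑ k ∈ T, ∑ k' ∈ T, JS a k k' ≤ I * (4 * Rr) := by
    intro a ha
    push Not at ha
    have ha' : ∀ l, |(a l : ℝ)| ≤ H * Λ := by
      intro l
      have h1 : ((a l).natAbs : ℝ) ≤ A := by exact_mod_cast ha l
      rw [Nat.cast_natAbs] at h1
      push_cast at h1
      exact h1.trans (Nat.floor_le (by linarith))
    have h1 : ∑ k ∈ T, ∑ k' ∈ T, JS a k k' = ∑ i ∈ range I,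
        (2 * ∑ k ∈ T, ∑ k' ∈ T, JJ g1 g2 a 1 (D i) (D (i + 1)) k k' +
          2 * ∑ k ∈ T, ∑ k' ∈ T, JJ g1 g2 a (-1) (D i) (D (i + 1)) k k') := by
      simp only [hJS]
      have h2 : ∀ k ∈ T, ∑ k' ∈ T, ∑ i ∈ range I, (2 * JJ g1 g2 a 1 (D i) (D (i + 1)) k k' +
          2 * JJ g1 g2 a (-1) (D i) (D (i + 1)) k k') = ∑ i ∈ range I, ∑ k' ∈ T,
          (2 * JJ g1 g2 a 1 (D i) (D (i + 1)) k k' +
          2 * JJ g1 g2 a (-1) (D i) (D (i + 1)) k k') := fun k _ => sum_comm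
      rw [sum_congr rfl h2, sum_comm]
      refine sum_congr rfl fun i _ => ?_
      rw [mul_sum, mul_sum, ← sum_add_distrib]
      refine sum_congr rfl fun k _ => ?_
      rw [mul_sum, mul_sum, ← sum_add_distrib]
    rw [h1]
    have h3 : ∀ i ∈ range I, ∀ s : ℤ, (s = 1 ∨ s = -1) →
        ∑ k ∈ T, ∑ k' ∈ T, JJ g1 g2 a s (D i) (D (i + 1)) k k' ≤ Rr := by
      intro i hi s hs
      have h4 := hray (s : ℝ) (D i) (bb a s (D i)) (cc a s (D i))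
        (by rcases hs with h | h <;> rw [h] <;> norm_num) (hDge i) (hI1 i (mem_range.1 hi))
        (bb_le a s hs H Λ (D i) (by linarith) hΛ0 (hDge i) ha')
        (cc_le a s hs H Λ (D i) (by linarith) hΛ0 (hDge i) ha') (cc_zero a s (D i))
      rw [hDs1 i]
      exact h4
    refine (sum_le_sum fun i hi => add_le_add
      (mul_le_mul_of_nonneg_left (h3 i hi 1 (Or.inl rfl)) (by norm_num : (0 : ℝ) ≤ 2))
      (mul_le_mul_of_nonneg_left (h3 i hi (-1) (Or.inr rfl)) (by norm_num : (0 : ℝ) ≤ 2))).trans ?_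
    rw [sum_const, card_range, nsmul_eq_mul]
    refine le_of_eq ?_
    ring
  have hfin : ∑ k ∈ T, ∑ k' ∈ T, ‖∑ a ∈ Fintype.piFinset (fun _ : Fin (n + 1 + 1) => cs R),
        ((∏ l, wt R M (a l) : ℝ) : ℂ) * (g1 (Fv a k) * g2 (Fv a k'))‖ ≤
      (T.card : ℝ) ^ 2 * X0 + (32 * (H : ℝ)) ^ (n + 1) * (I * (4 * Rr)) := by
    refine (sum_le_sum fun k hk => sum_le_sum fun k' hk' => hpair k hk k' hk').trans ?_
    have h1 : ∑ k ∈ T, ∑ k' ∈ T, (X0 + ∑ a ∈ P.filter (fun a => ¬ ∃ l, A < (a l).natAbs),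
        (∏ l, wt R M (a l)) * JS a k k') = (T.card : ℝ) ^ 2 * X0 +
        ∑ a ∈ P.filter (fun a => ¬ ∃ l, A < (a l).natAbs), (∏ l, wt R M (a l)) *
          ∑ k ∈ T, ∑ k' ∈ T, JS a k k' := by
      have h2 : ∀ k ∈ T, ∑ k' ∈ T, (X0 + ∑ a ∈ P.filter (fun a => ¬ ∃ l, A < (a l).natAbs),
          (∏ l, wt R M (a l)) * JS a k k') = T.card * X0 +
          ∑ a ∈ P.filter (fun a => ¬ ∃ l, A < (a l).natAbs), (∏ l, wt R M (a l)) *
            ∑ k' ∈ T, JS a k k' := by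
        intro k _
        rw [sum_add_distrib, sum_const, nsmul_eq_mul, sum_comm]
        congr 1
        refine sum_congr rfl fun a _ => ?_
        rw [mul_sum]
      rw [sum_congr rfl h2, sum_add_distrib, sum_const, nsmul_eq_mul, sum_comm]
      congr 1
      · ring
      · refine sum_congr rfl fun a _ => ?_
        rw [mul_sum]
    rw [h1]
    refine add_le_add le_rfl ?_
    refine (sum_le_sum fun a ha => mul_le_mul_of_nonneg_left (hsumJ a (mem_filter.1 ha).2) (hPi a)).trans ?_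
    rw [← sum_mul]
    refine mul_le_mul_of_nonneg_right ?_ (by positivity)
    exact (sum_le_sum_of_subset_of_nonneg (filter_subset _ _) fun a _ _ => hPi a).trans hmass
  refine hfin.trans (add_le_add ?_ ?_)
  · -- the error
    have hif : (if 2 ≤ n + 1 then (1 : ℝ) else 0) * H = if 2 ≤ n + 1 then (H : ℝ) else 0 := by
      split_ifs <;> simp
    rw [hif] at hE0b
    have hsub : n + 1 - 1 = n := rfl
    rw [hsub]
    refine fin1 n H Λ G _ E0 T.card hHr hΛ0 ?_ hE0b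
    have h1 : 0 ≤ κ * Λ ^ 2 := by positivity
    have h2 : 0 ≤ Λ ^ 2 / (κ * H) := by positivity
    have h3 : (0 : ℝ) ≤ (if 2 ≤ n + 1 then (H : ℝ) else 0) := by split_ifs <;> linarith
    have h4 : 0 ≤ δ * Λ ^ 2 * (κ * H * (K : ℝ) ^ n + (if 2 ≤ n + 1 then (H : ℝ) else 0) +
      (K : ℝ) ^ (n + 1) / κ) := by positivity
    linarith
  · exact fin2 n H Λ κ I Rr hHr hΛ0 hκ hRr hI4

end Pool.Agent.H13K.ARC
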