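import Pool.Agent.H13K.StmK

/-!
# Project BH, stub EXP: expansion of the correlation kernel
-/

set_option autoImplicit false

namespace Pool.Agent.H13K.EXP

open Finset Pool.Agent.H13K
open Pool.Agent.H469R2.NK (e e_add e_zero norm_e)

theorem e_sum {ι : Type*} (s : Finset ι) (f : ι → ℝ) : e (∑ i ∈ s, f i) = ∏ i ∈ s, e (f i) := by
  classical
  induction s using Finset.induction_on with
  | empty => simp [e_zero]
  | insert a s ha ih => rw [Finset.sum_insert ha, Finset.prod_insert ha, e_add, ih]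

theorem e_pair {d : ℕ} (R k k' h h' : ℕ) (a : Fin (d + 1) → ℤ) :
    e ((h : ℝ) * (Fv a k : ℤ) / (2 * R + 1)) * e ((h' : ℝ) * (Fv a k' : ℤ) / (2 * R + 1)) =
      ∏ l : Fin (d + 1), e ((a l : ℝ) *
        (((h : ℤ) * (k : ℤ) ^ (l : ℕ) + (h' : ℤ) * (k' : ℤ) ^ (l : ℕ) : ℤ) : ℝ) / (2 * R + 1)) := by
  rw [← e_add, ← e_sum]
  congr 1
  unfold Fv
  push_cast
  rw [Finset.mul_sum, Finset.mul_sum, ← add_div, ← Finset.sum_add_distrib, ← Finset.sum_div]
  congr 1
  refine Finset.sum_congr rfl fun l _ => ?_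
  ring

theorem t : S_WTF → S_EXP := by
  intro hW d R M c c' k k' hM
  rcases Nat.eq_zero_or_pos M with h0 | h0
  · subst h0
    unfold ker
    have h1 : ∀ a : ℤ, wt R 0 a = 0 := by
      intro a
      simp [wt]
    have h2 : ∀ t : ℤ, wh R 0 t = 0 := by
      intro t
      simp [wh]
    simp [h1, h2, Finset.prod_const, Finset.card_univ]
  · obtain ⟨-, -, -, -, -, -, hF, -⟩ := hW R M h0 hM
    have key : ∀ h h' : ℕ, ∑ a ∈ Fintype.piFinset (fun _ : Fin (d + 1) => cs R),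
        ((∏ l, wt R M (a l) : ℝ) : ℂ) * (e ((h : ℝ) * (Fv a k : ℤ) / (2 * R + 1)) *
          e ((h' : ℝ) * (Fv a k' : ℤ) / (2 * R + 1))) =
        ((∏ l : Fin (d + 1), wh R M ((h : ℤ) * (k : ℤ) ^ (l : ℕ) + (h' : ℤ) * (k' : ℤ) ^ (l : ℕ)) : ℝ) : ℂ) := by
      intro h h'
      have h1 : ∀ a ∈ Fintype.piFinset (fun _ : Fin (d + 1) => cs R),
          ((∏ l, wt R M (a l) : ℝ) : ℂ) * (e ((h : ℝ) * (Fv a k : ℤ) / (2 * R + 1)) *
          e ((h' : ℝ) * (Fv a k' : ℤ) / (2 * R + 1))) =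
          ∏ l : Fin (d + 1), ((wt R M (a l) : ℂ) * e ((a l : ℝ) *
        (((h : ℤ) * (k : ℤ) ^ (l : ℕ) + (h' : ℤ) * (k' : ℤ) ^ (l : ℕ) : ℤ) : ℝ) / (2 * R + 1))) := by
        intro a _
        rw [e_pair, Finset.prod_mul_distrib, Complex.ofReal_prod]
      rw [Finset.sum_congr rfl h1]
      rw [← Finset.prod_univ_sum (fun _ : Fin (d + 1) => cs R)
        (fun (l : Fin (d + 1)) (x : ℤ) => (wt R M x : ℂ) * e ((x : ℝ) *
        (((h : ℤ) * (k : ℤ) ^ (l : ℕ) + (h' : ℤ) * (k' : ℤ) ^ (l : ℕ) : ℤ) : ℝ) / (2 * R + 1)))]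
      rw [Complex.ofReal_prod]
      exact Finset.prod_congr rfl fun l _ => hF _
    calc ker d R M (tr R c) (tr R c') k k'
        = ∑ a ∈ Fintype.piFinset (fun _ : Fin (d + 1) => cs R), ∑ h ∈ range (2 * R + 1), ∑ h' ∈ range (2 * R + 1),
          c h * c' h' * (((∏ l, wt R M (a l) : ℝ) : ℂ) * (e ((h : ℝ) * (Fv a k : ℤ) / (2 * R + 1)) *
          e ((h' : ℝ) * (Fv a k' : ℤ) / (2 * R + 1)))) := by
          unfold ker
          refine Finset.sum_congr rfl fun a _ => ?_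
          unfold tr
          rw [Finset.sum_mul_sum, Finset.mul_sum]
          refine Finset.sum_congr rfl fun h _ => ?_
          rw [Finset.mul_sum]
          refine Finset.sum_congr rfl fun h' _ => ?_
          ring
      _ = ∑ h ∈ range (2 * R + 1), ∑ h' ∈ range (2 * R + 1), ∑ a ∈ Fintype.piFinset (fun _ : Fin (d + 1) => cs R),
          c h * c' h' * (((∏ l, wt R M (a l) : ℝ) : ℂ) * (e ((h : ℝ) * (Fv a k : ℤ) / (2 * R + 1)) *
          e ((h' : ℝ) * (Fv a k' : ℤ) / (2 * R + 1)))) := by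
          rw [Finset.sum_comm]
          refine Finset.sum_congr rfl fun h _ => ?_
          rw [Finset.sum_comm]
      _ = _ := by
          refine Finset.sum_congr rfl fun h _ => Finset.sum_congr rfl fun h' _ => ?_
          rw [← Finset.mul_sum, key]

end Pool.Agent.H13K.EXP
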