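import Pool.Agent.H13K.StmK

/-!
# Project BH, stub FIN: Fourier inversion and Parseval modulo `2 R + 1`
-/

set_option autoImplicit false

namespace Pool.Agent.H13K.FIN

open Finset Pool.Agent.H13K
open Pool.Agent.H469R2.NK (e e_add e_zero norm_e e_nat conj_e)

theorem e_int (n : ℤ) : e n = 1 := by
  unfold e
  rw [Complex.exp_eq_one_iff]
  exact ⟨n, by push_cast; ring⟩

theorem e_mul_nat (x : ℝ) (n : ℕ) : e ((n : ℝ) * x) = e x ^ n := by
  induction n with
  | zero => simp [e_zero]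
  | succ n ih =>
    rw [pow_succ, ← ih, ← e_add]
    congr 1
    push_cast
    ring

theorem orth (R : ℕ) (t : ℤ) : ∑ h ∈ range (2 * R + 1), e ((h : ℝ) * t / (2 * R + 1)) =
    if (2 * (R : ℤ) + 1) ∣ t then ((2 * R + 1 : ℕ) : ℂ) else 0 := by
  have hN : (2 * (R : ℝ) + 1) ≠ 0 := by positivity
  have h1 : ∀ h : ℕ, e ((h : ℝ) * t / (2 * R + 1)) = e ((t : ℝ) / (2 * R + 1)) ^ h := by
    intro h
    rw [← e_mul_nat]
    congr 1
    ring
  simp only [h1]
  split_ifs with hd
  · obtain ⟨s, rfl⟩ := hd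
    have h2 : (((2 * (R : ℤ) + 1) * s : ℤ) : ℝ) / (2 * R + 1) = (s : ℝ) := by
      push_cast
      field_simp
    rw [h2, e_int]
    simp
  · have hz : e ((t : ℝ) / (2 * R + 1)) ≠ 1 := by
      intro h
      unfold e at h
      rw [Complex.exp_eq_one_iff] at h
      obtain ⟨s, hs⟩ := h
      apply hd
      refine ⟨s, ?_⟩
      have h3 : ((2 * Real.pi * ((t : ℝ) / (2 * R + 1)) : ℝ) : ℂ) = ((2 * Real.pi * s : ℝ) : ℂ) := by
        have h4 : ((2 * Real.pi * ((t : ℝ) / (2 * R + 1)) : ℝ) : ℂ) * Complex.I =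
            ((2 * Real.pi * s : ℝ) : ℂ) * Complex.I := by
          rw [hs]
          push_cast
          ring
        exact mul_right_cancel₀ Complex.I_ne_zero h4
      have h5 : 2 * Real.pi * ((t : ℝ) / (2 * R + 1)) = 2 * Real.pi * s := by exact_mod_cast h3
      have h6 : (t : ℝ) / (2 * R + 1) = s := mul_left_cancel₀ (by positivity) h5
      have h7 : (t : ℝ) = (2 * R + 1) * s := by
        rw [div_eq_iff hN] at h6
        linarith
      exact_mod_cast h7
    have h2 : e ((t : ℝ) / (2 * R + 1)) ^ (2 * R + 1) = 1 := by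
      rw [← e_mul_nat]
      have h3 : ((2 * R + 1 : ℕ) : ℝ) * ((t : ℝ) / (2 * R + 1)) = (t : ℝ) := by
        push_cast
        field_simp
      rw [h3, e_int]
    rw [geom_sum_eq hz, h2]
    simp

/-- the representative of `y` in `cs R` -/
theorem rep (R : ℕ) (y : ℤ) : ∃ y0 ∈ cs R, (2 * (R : ℤ) + 1) ∣ y - y0 ∧
    ∀ y' ∈ cs R, (2 * (R : ℤ) + 1) ∣ y - y' → y' = y0 := by
  refine ⟨(y + R) % (2 * R + 1) - R, ?_, ?_, ?_⟩
  · unfold cs
    rw [mem_Icc]
    have h1 := Int.emod_nonneg (y + R) (show (2 * (R : ℤ) + 1) ≠ 0 by omega)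
    have h2 := Int.emod_lt_of_pos (y + R) (show 0 < (2 * (R : ℤ) + 1) by omega)
    constructor <;> omega
  · have := Int.emod_add_mul_ediv (y + R) (2 * R + 1)
    exact ⟨(y + R) / (2 * R + 1), by linarith⟩
  · intro y' hy' hd
    unfold cs at hy'
    rw [mem_Icc] at hy'
    have h1 : (y + R) % (2 * R + 1) = (y' + R) % (2 * R + 1) := by
      apply Int.emod_emod_of_dvd _ _ |>.symm.trans _ <;> first | exact dvd_refl _ | skip
      have : (y + R) ≡ (y' + R) [ZMOD (2 * R + 1)] := by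
        apply Int.ModEq.symm
        rw [Int.modEq_iff_dvd]
        have : y + R - (y' + R) = y - y' := by ring
        rw [this]
        exact hd
      rw [Int.emod_emod_of_dvd _ (dvd_refl _)]
      exact this
    have h2 : (y' + R) % (2 * R + 1) = y' + R := Int.emod_eq_of_lt (by omega) (by omega)
    rw [h1, h2]
    ring

theorem per_mul (R : ℕ) (U : ℤ → ℂ) (hU : ∀ y, U (y + (2 * R + 1)) = U y) (y s : ℤ) :
    U (y + (2 * R + 1) * s) = U y := by
  have hn : ∀ (n : ℕ) (y : ℤ), U (y + (2 * R + 1) * n) = U y := by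
    intro n
    induction n with
    | zero => intro y; simp
    | succ n ih =>
      intro y
      have h1 : y + (2 * (R : ℤ) + 1) * ((n + 1 : ℕ) : ℤ) = (y + (2 * R + 1) * n) + (2 * R + 1) := by
        push_cast
        ring
      rw [h1, hU, ih]
  rcases Int.eq_nat_or_neg s with ⟨n, rfl | rfl⟩
  · exact hn n y
  · have h1 := hn n (y + (2 * R + 1) * (-(n : ℤ)))
    have h2 : y + (2 * (R : ℤ) + 1) * (-(n : ℤ)) + (2 * R + 1) * n = y := by ring
    rw [h2] at h1
    exact h1.symm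

theorem t : S_FIN := by
  intro R U hU
  have hN : ((2 * R + 1 : ℕ) : ℂ) ≠ 0 := by exact_mod_cast (by omega : 2 * R + 1 ≠ 0)
  have hN' : (2 * (R : ℂ) + 1) ≠ 0 := by
    have := hN
    push_cast at this
    exact this
  constructor
  · intro y
    obtain ⟨y0, hy0, hd, hu⟩ := rep R y
    have hUy : U y = U y0 := by
      obtain ⟨s, hs⟩ := hd
      have : y = y0 + (2 * R + 1) * s := by linarith
      rw [this, per_mul R U hU]
    unfold tr fc
    have h1 : ∀ h : ℕ, (∑ y' ∈ cs R, U y' * e (-((h : ℝ) * y' / (2 * R + 1)))) / (2 * R + 1) *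
        e ((h : ℝ) * y / (2 * R + 1)) =
        ∑ y' ∈ cs R, U y' / (2 * R + 1) * e ((h : ℝ) * ((y - y' : ℤ) : ℝ) / (2 * R + 1)) := by
      intro h
      rw [Finset.sum_div, Finset.sum_mul]
      refine Finset.sum_congr rfl fun y' _ => ?_
      have h2 : (h : ℝ) * ((y - y' : ℤ) : ℝ) / (2 * R + 1) =
          -((h : ℝ) * y' / (2 * R + 1)) + (h : ℝ) * y / (2 * R + 1) := by
        push_cast
        ring
      rw [h2, e_add]
      ring
    simp only [h1]
    rw [Finset.sum_comm]
    have h3 : ∀ y' ∈ cs R, ∑ h ∈ range (2 * R + 1),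
        U y' / (2 * R + 1) * e ((h : ℝ) * ((y - y' : ℤ) : ℝ) / (2 * R + 1)) =
        if y' = y0 then U y0 else 0 := by
      intro y' hy'
      rw [← Finset.mul_sum, orth]
      by_cases hd' : (2 * (R : ℤ) + 1) ∣ y - y'
      · rw [if_pos hd', if_pos (hu y' hy' hd'), hu y' hy' hd']
        push_cast
        field_simp
      · rw [if_neg hd', if_neg, mul_zero]
        rintro rfl
        exact hd' hd
    rw [Finset.sum_congr rfl h3, Finset.sum_ite_eq' _ _ _, if_pos hy0, hUy]
  · have h1 : ∀ h : ℕ, ((‖fc R U h‖ ^ 2 : ℝ) : ℂ) = ∑ y ∈ cs R, ∑ y' ∈ cs R,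
        U y * (starRingEnd ℂ) (U y') / (2 * R + 1) ^ 2 * e ((h : ℝ) * ((y' - y : ℤ) : ℝ) / (2 * R + 1)) := by
      intro h
      rw [← Complex.normSq_eq_norm_sq, Complex.normSq_eq_conj_mul_self]
      unfold fc
      rw [map_div₀, map_sum, div_mul_div_comm]
      have hc : (starRingEnd ℂ) (2 * (R : ℂ) + 1) = 2 * R + 1 := by
        have h0 : (2 * (R : ℂ) + 1) = ((2 * R + 1 : ℝ) : ℂ) := by push_cast; rfl
        rw [h0, Complex.conj_ofReal]
      rw [hc, Finset.sum_mul_sum, Finset.sum_comm, Finset.sum_div]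
      refine Finset.sum_congr rfl fun y _ => ?_
      rw [Finset.sum_div]
      refine Finset.sum_congr rfl fun y' _ => ?_
      rw [map_mul, conj_e, neg_neg]
      have h2 : (h : ℝ) * ((y' - y : ℤ) : ℝ) / (2 * R + 1) =
          -((h : ℝ) * y / (2 * R + 1)) + (h : ℝ) * y' / (2 * R + 1) := by
        push_cast
        ring
      rw [h2, e_add]
      ring
    have h2 : ((∑ h ∈ range (2 * R + 1), ‖fc R U h‖ ^ 2 : ℝ) : ℂ) =
        (((∑ y ∈ cs R, ‖U y‖ ^ 2) / (2 * R + 1) : ℝ) : ℂ) := by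
      rw [Complex.ofReal_sum]
      rw [Finset.sum_congr rfl fun h _ => h1 h]
      rw [Finset.sum_comm]
      have h3 : ∀ y ∈ cs R, ∑ h ∈ range (2 * R + 1), ∑ y' ∈ cs R,
          U y * (starRingEnd ℂ) (U y') / (2 * R + 1) ^ 2 * e ((h : ℝ) * ((y' - y : ℤ) : ℝ) / (2 * R + 1)) =
          ((‖U y‖ ^ 2 : ℝ) : ℂ) / (2 * R + 1) := by
        intro y hy
        rw [Finset.sum_comm]
        have h4 : ∀ y' ∈ cs R, ∑ h ∈ range (2 * R + 1),
          U y * (starRingEnd ℂ) (U y') / (2 * R + 1) ^ 2 * e ((h : ℝ) * ((y' - y : ℤ) : ℝ) / (2 * R + 1)) =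
          if y' = y then ((‖U y‖ ^ 2 : ℝ) : ℂ) / (2 * R + 1) else 0 := by
          intro y' hy'
          rw [← Finset.mul_sum, orth]
          by_cases hd' : (2 * (R : ℤ) + 1) ∣ y' - y
          · obtain ⟨y0, _, _, hu⟩ := rep R y'
            have e1 : y = y0 := hu y hy hd'
            have e2 : y' = y0 := hu y' hy' (by simp)
            have e3 : y' = y := by rw [e1, e2]
            subst e3
            rw [if_pos hd', if_pos rfl, ← Complex.normSq_eq_norm_sq, ← Complex.mul_conj]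
            push_cast
            field_simp
          · rw [if_neg hd', if_neg, mul_zero]
            rintro rfl
            exact hd' (by simp)
        rw [Finset.sum_congr rfl h4, Finset.sum_ite_eq' _ _ _, if_pos hy]
      rw [Finset.sum_congr rfl h3, ← Finset.sum_div]
      push_cast
      rfl
    exact_mod_cast h2

end Pool.Agent.H13K.FIN
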