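import Pool.Agent.H13K.StmK

set_option autoImplicit false

/-!
Project BH (helper13), stub GQB (helper33): sup norm and Lipschitz bound of `gq`.
-/

namespace Pool.Agent.H13K.GQB

open Finset
open Pool.Agent.H469R2.NK (e norm_e e_add)

/-- the majorant is bounded by an increment of the arc tangent -/
lemma atan_step {s : ℝ} (hs0 : 0 < s) (hs1 : s ≤ 1) (t : ℝ) :
    s / (1 + s ^ 2 * t ^ 2) ≤ 2 * (Real.arctan (s * (t + 1 / 2)) - Real.arctan (s * (t - 1 / 2))) := by
  have hab : s * (t - 1 / 2) < s * (t + 1 / 2) := by nlinarith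
  obtain ⟨c, hc, hce⟩ := exists_hasDerivAt_eq_slope Real.arctan (fun x => 1 / (1 + x ^ 2)) hab
    Real.continuous_arctan.continuousOn (fun x _ => Real.hasDerivAt_arctan x)
  have hlen : s * (t + 1 / 2) - s * (t - 1 / 2) = s := by ring
  rw [hlen, eq_div_iff hs0.ne'] at hce
  rw [← hce]
  have hc2 : 1 + c ^ 2 ≤ 2 * (1 + s ^ 2 * t ^ 2) := by
    have h1 : |c| ≤ s * |t| + s / 2 := by
      rw [abs_le]
      have h2 := neg_abs_le t
      have h3 := le_abs_self t
      constructor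
      · nlinarith [hc.1]
      · nlinarith [hc.2]
    have h4 : c ^ 2 ≤ (s * |t| + s / 2) ^ 2 := by
      rw [← sq_abs c]
      exact pow_le_pow_left₀ (abs_nonneg _) h1 2
    have h5 : (s * |t|) ^ 2 = s ^ 2 * t ^ 2 := by rw [mul_pow, sq_abs]
    nlinarith [sq_nonneg (s * |t| - s / 2)]
  have h1 : 0 < 1 + c ^ 2 := by positivity
  have h2 : 0 < 1 + s ^ 2 * t ^ 2 := by positivity
  rw [div_le_iff₀ h2]
  have h3 : 2 * (1 / (1 + c ^ 2) * s) * (1 + s ^ 2 * t ^ 2) =
      s * (2 * (1 + s ^ 2 * t ^ 2) / (1 + c ^ 2)) := by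
    field_simp
  rw [h3]
  have h4 : 1 ≤ 2 * (1 + s ^ 2 * t ^ 2) / (1 + c ^ 2) := by
    rw [le_div_iff₀ h1, one_mul]
    exact hc2
  nlinarith

/-- telescoping over a symmetric interval -/
lemma sum_tel (A : ℝ → ℝ) (x : ℕ) (z : ℝ) :
    ∑ n ∈ Icc (-(x : ℤ)) x, (A (z - n + 1 / 2) - A (z - n - 1 / 2)) =
      A (z + x + 1 / 2) - A (z - x - 1 / 2) := by
  induction x with
  | zero => simp
  | succ x ih =>
    have h1 : Icc (-((x + 1 : ℕ) : ℤ)) ((x + 1 : ℕ) : ℤ) =
        insert (-((x : ℤ) + 1)) (insert ((x : ℤ) + 1) (Icc (-(x : ℤ)) x)) := by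
      ext n
      simp only [mem_Icc, mem_insert]
      push_cast
      omega
    rw [h1, sum_insert, sum_insert, ih]
    · push_cast
      ring_nf
    · simp
    · simp only [mem_insert, mem_Icc]
      omega

/-- the sum of the majorant -/
lemma sum_maj {s : ℝ} (hs0 : 0 < s) (hs1 : s ≤ 1) (x : ℕ) (z : ℝ) :
    ∑ n ∈ Icc (-(x : ℤ)) x, s / (1 + s ^ 2 * (z - n) ^ 2) ≤ 7 := by
  have h1 : ∑ n ∈ Icc (-(x : ℤ)) x, s / (1 + s ^ 2 * (z - n) ^ 2) ≤
      ∑ n ∈ Icc (-(x : ℤ)) x, 2 * ((fun v => Real.arctan (s * v)) (z - n + 1 / 2) -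
        (fun v => Real.arctan (s * v)) (z - n - 1 / 2)) :=
    sum_le_sum fun n _ => atan_step hs0 hs1 (z - n)
  refine h1.trans ?_
  rw [← mul_sum, sum_tel (fun v => Real.arctan (s * v)) x z]
  have h2 := Real.arctan_lt_pi_div_two (s * (z + x + 1 / 2))
  have h3 := Real.neg_pi_div_two_lt_arctan (s * (z - x - 1 / 2))
  have h4 := Real.pi_lt_d2
  linarith

/-- periodic functions with this majorant -/
lemma sum_per {s N c : ℝ} (hs0 : 0 < s) (hs1 : s ≤ 1) (hN : 0 < N) (hc : 0 ≤ c) (x : ℕ)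
    (hx : 2 * (x : ℝ) ≤ N) (f : ℝ → ℝ) (hf : ∀ t, f (t + N) = f t)
    (hb : ∀ t, |t| ≤ N / 2 → f t ≤ c * (s / (1 + s ^ 2 * t ^ 2))) (y : ℝ) :
    ∑ n ∈ Icc (-(x : ℤ)) x, f (y - n) ≤ 21 * c := by
  have hper : Function.Periodic f N := hf
  set m : ℤ := round (y / N) with hm
  set y' : ℝ := y - m * N with hy'
  have hy2 : |y'| ≤ N / 2 := by
    have h1 := abs_sub_round (y / N)
    rw [← hm] at h1
    have h2 : y' = (y / N - m) * N := by
      rw [hy']
      field_simp
    rw [h2, abs_mul, abs_of_pos hN]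
    nlinarith
  have hshift : ∀ n : ℤ, f (y - n) = f (y' - n) := by
    intro n
    have h1 : y' - n = (y - n) - m * N := by rw [hy']; ring
    rw [h1]
    exact (hper.sub_int_mul_eq m).symm
  have hg0 : ∀ t : ℝ, 0 ≤ c * (s / (1 + s ^ 2 * t ^ 2)) := fun t => by positivity
  have hpt : ∀ n ∈ Icc (-(x : ℤ)) x, f (y - n) ≤ c * (s / (1 + s ^ 2 * (y' - n) ^ 2)) +
      c * (s / (1 + s ^ 2 * ((y' - N) - n) ^ 2)) + c * (s / (1 + s ^ 2 * ((y' + N) - n) ^ 2)) := by
    intro n hn
    rw [mem_Icc] at hn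
    have hn1 : -(x : ℝ) ≤ n := by exact_mod_cast hn.1
    have hn2 : (n : ℝ) ≤ x := by exact_mod_cast hn.2
    rw [hshift n]
    rw [abs_le] at hy2
    by_cases h1 : y' - n ≤ N / 2
    · by_cases h2 : -(N / 2) ≤ y' - n
      · have h3 := hb (y' - n) (abs_le.2 ⟨h2, h1⟩)
        linarith [hg0 (y' - N - n), hg0 (y' + N - n)]
      · have h3 := hb (y' + N - n) (abs_le.2 ⟨by linarith, by linarith⟩)
        have h4 : y' + N - n = (y' - n) + N := by ring
        rw [h4, hf, ← h4] at h3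
        linarith [hg0 (y' - N - n), hg0 (y' - n)]
    · have h3 := hb (y' - N - n) (abs_le.2 ⟨by linarith, by linarith⟩)
      have h4 : y' - n = (y' - N - n) + N := by ring
      have h5 : f (y' - n) = f (y' - N - n) := by
        conv_lhs => rw [h4]
        rw [hf]
      rw [h5]
      linarith [hg0 (y' + N - n), hg0 (y' - n)]
  refine (sum_le_sum hpt).trans ?_
  rw [sum_add_distrib, sum_add_distrib, ← mul_sum, ← mul_sum, ← mul_sum]
  have h1 := mul_le_mul_of_nonneg_left (sum_maj hs0 hs1 x y') hc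
  have h2 := mul_le_mul_of_nonneg_left (sum_maj hs0 hs1 x (y' - N)) hc
  have h3 := mul_le_mul_of_nonneg_left (sum_maj hs0 hs1 x (y' + N)) hc
  linarith

lemma contDiff_e : ContDiff ℝ (⊤ : ℕ∞) e := by
  unfold e
  have h1 : ContDiff ℝ (⊤ : ℕ∞) (fun x : ℝ => ((2 * Real.pi * x : ℝ) : ℂ)) :=
    Complex.ofRealCLM.contDiff.comp (contDiff_const.mul contDiff_id)
  exact Complex.contDiff_exp.comp (h1.mul contDiff_const)

lemma hasDeriv_e (θ t : ℝ) : HasDerivAt (fun t => e (θ * t))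
    (2 * Real.pi * θ * Complex.I * e (θ * t)) t := by
  unfold e
  have h1 : HasDerivAt (fun t : ℝ => ((2 * Real.pi * (θ * t) : ℝ) : ℂ))
      ((2 * Real.pi * θ : ℝ) : ℂ) t := by
    have h2 : HasDerivAt (fun t : ℝ => 2 * Real.pi * (θ * t)) (2 * Real.pi * θ) t := by
      have h3 := (hasDerivAt_id t).const_mul (2 * Real.pi * θ)
      simp only [mul_one, id] at h3
      refine h3.congr_of_eventuallyEq (Filter.Eventually.of_forall fun x => ?_)
      ring
    exact h2.ofReal_comp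
  have h2 := (h1.mul_const Complex.I).cexp
  refine h2.congr_deriv ?_
  push_cast
  ring

lemma contDiff_vp (R M : ℕ) : ContDiff ℝ (⊤ : ℕ∞) (vp R M) := by
  unfold vp
  apply ContDiff.div_const
  apply ContDiff.sum
  intro j _
  exact contDiff_const.mul (contDiff_e.comp ((contDiff_const.mul contDiff_id).div_const _))

/-- **GQB** -/
theorem t (hV : S_VPB) : S_GQB := by
  obtain ⟨C, hC1, hV⟩ := hV
  refine ⟨2000 * C, by linarith, ?_⟩
  intro R M x q θ S b u hM hMR hxR hθ hu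
  have hC0 : 0 < C := by linarith
  have hM0 : (0 : ℝ) < M := by exact_mod_cast (by omega : 0 < M)
  have hR0 : (0 : ℝ) ≤ R := Nat.cast_nonneg _
  set N : ℝ := 2 * R + 1 with hN
  have hN0 : 0 < N := by positivity
  set s : ℝ := M / N with hs
  have hs0 : 0 < s := by positivity
  have hMR' : 2 * (M : ℝ) ≤ R := by exact_mod_cast hMR
  have hs1 : s ≤ 1 := by
    rw [hs, div_le_one hN0]
    linarith
  have hS0 : 0 ≤ S := (abs_nonneg _).trans (hu 0)
  have hx2 : 2 * (x : ℝ) ≤ N := by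
    have : (x : ℝ) ≤ R := by exact_mod_cast hxR
    rw [hN]
    linarith
  have hMs : (N : ℝ) / M = s⁻¹ := by rw [hs, inv_div]
  have hdiffvp : Differentiable ℝ (vp R M) := (hV R M 0 hM hMR).2.1
  have hper : ∀ t, vp R M (t + N) = vp R M t := fun t => (hV R M t hM hMR).1
  have hderper : ∀ t, deriv (vp R M) (t + N) = deriv (vp R M) t := by
    intro t
    have h1 : vp R M = fun t => vp R M (t + N) := by
      funext t
      exact (hper t).symm
    conv_rhs => rw [h1]
    rw [deriv_comp_add_const]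
  -- the majorants
  have hb1 : ∀ t, |t| ≤ N / 2 → ‖vp R M t‖ ≤ 2 * C * (s / (1 + s ^ 2 * t ^ 2)) := by
    intro t ht
    obtain ⟨k1, k2, _, _⟩ := (hV R M t hM hMR).2.2 ht
    rw [hMs] at k2
    have h1 : ‖vp R M t‖ * (1 + s ^ 2 * t ^ 2) ≤ 2 * C * s := by
      have h2 : ‖vp R M t‖ * (1 + s ^ 2 * t ^ 2) = ‖vp R M t‖ + s ^ 2 * (‖vp R M t‖ * t ^ 2) := by
        ring
      rw [h2]
      have h3 : s ^ 2 * (‖vp R M t‖ * t ^ 2) ≤ s ^ 2 * (C * s⁻¹) :=
        mul_le_mul_of_nonneg_left k2 (by positivity)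
      have h4 : s ^ 2 * (C * s⁻¹) = C * s := by field_simp
      linarith
    rw [← mul_div_assoc, le_div_iff₀ (by positivity)]
    exact h1
  have hb2 : ∀ t, |t| ≤ N / 2 → ‖deriv (vp R M) t‖ ≤ 2 * C * s * (s / (1 + s ^ 2 * t ^ 2)) := by
    intro t ht
    obtain ⟨_, _, k1, k2⟩ := (hV R M t hM hMR).2.2 ht
    have h1 : ‖deriv (vp R M) t‖ * (1 + s ^ 2 * t ^ 2) ≤ 2 * C * s * s := by
      have h2 : ‖deriv (vp R M) t‖ * (1 + s ^ 2 * t ^ 2) =
          ‖deriv (vp R M) t‖ + s ^ 2 * (‖deriv (vp R M) t‖ * t ^ 2) := by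
        ring
      rw [h2]
      have h3 : s ^ 2 * (‖deriv (vp R M) t‖ * t ^ 2) ≤ s ^ 2 * C :=
        mul_le_mul_of_nonneg_left k2 (by positivity)
      nlinarith
    rw [← mul_div_assoc, le_div_iff₀ (by positivity)]
    exact h1
  have hsum1 : ∀ y : ℝ, ∑ n ∈ Icc (-(x : ℤ)) x, ‖vp R M (y - n)‖ ≤ 42 * C := by
    intro y
    have h1 := sum_per hs0 hs1 hN0 (by positivity : 0 ≤ 2 * C) x hx2 (fun t => ‖vp R M t‖)
      (fun t => by rw [hper]) hb1 y
    linarith
  have hsum2 : ∀ y : ℝ, ∑ n ∈ Icc (-(x : ℤ)) x, ‖deriv (vp R M) (y - n)‖ ≤ 42 * C * s := by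
    intro y
    have h1 := sum_per hs0 hs1 hN0 (by positivity : 0 ≤ 2 * C * s) x hx2
      (fun t => ‖deriv (vp R M) t‖) (fun t => by rw [hderper]) hb2 y
    linarith
  -- the terms
  have hcoef : ∀ n : ℤ, ‖(u n.natAbs : ℂ) * e (-((b : ℝ) * n / q))‖ ≤ S := by
    intro n
    rw [norm_mul, norm_e, mul_one, Complex.norm_real, Real.norm_eq_abs]
    exact hu _
  refine ⟨fun y => ?_, ?_, ?_⟩
  · unfold gq
    calc ‖∑ n ∈ Icc (-(x : ℤ)) x, (u n.natAbs : ℂ) * e (-((b : ℝ) * n / q)) *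
          (e (θ * (y - n)) * vp R M (y - n))‖ ≤
        ∑ n ∈ Icc (-(x : ℤ)) x, S * ‖vp R M (y - n)‖ := by
          refine norm_sum_le_of_le _ fun n _ => ?_
          rw [norm_mul, norm_mul (e (θ * (y - n))), norm_e, one_mul]
          exact mul_le_mul_of_nonneg_right (hcoef n) (norm_nonneg _)
      _ ≤ S * (42 * C) := by
          rw [← mul_sum]
          exact mul_le_mul_of_nonneg_left (hsum1 y) hS0
      _ ≤ _ := by nlinarith [mul_nonneg hC0.le hS0]
  · have hder : ∀ y : ℝ, HasDerivAt (gq R M θ q b x u)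
        (∑ n ∈ Icc (-(x : ℤ)) x, (u n.natAbs : ℂ) * e (-((b : ℝ) * n / q)) *
          (2 * Real.pi * θ * Complex.I * e (θ * (y - n)) * vp R M (y - n) +
            e (θ * (y - n)) * deriv (vp R M) (y - n))) y := by
      intro y
      unfold gq
      apply HasDerivAt.fun_sum
      intro n _
      apply HasDerivAt.const_mul
      have h1 : HasDerivAt (fun t : ℝ => t - (n : ℝ)) 1 y := (hasDerivAt_id y).sub_const _
      have h2 := HasDerivAt.scomp (𝕜 := ℝ) (𝕜' := ℝ) y (hasDeriv_e θ (y - n)) h1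
      have h3 := HasDerivAt.scomp (𝕜 := ℝ) (𝕜' := ℝ) y (hdiffvp (y - n)).hasDerivAt h1
      rw [one_smul] at h2 h3
      exact h2.mul h3
    have hbound : ∀ y : ℝ, ‖deriv (gq R M θ q b x u) y‖ ≤ 2000 * C * S * s := by
      intro y
      rw [(hder y).deriv]
      have hθs : |θ| ≤ s := by
        refine hθ.trans ?_
        rw [hs]
        apply div_le_div_of_nonneg_right _ hN0.le
        exact_mod_cast hM
      calc _ ≤ ∑ n ∈ Icc (-(x : ℤ)) x,
            S * (7 * s * ‖vp R M (y - n)‖ + ‖deriv (vp R M) (y - n)‖) := by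
            refine norm_sum_le_of_le _ fun n _ => ?_
            rw [norm_mul]
            apply mul_le_mul (hcoef n) _ (norm_nonneg _) hS0
            refine (norm_add_le _ _).trans ?_
            apply add_le_add
            · rw [norm_mul, norm_mul, norm_e, mul_one]
              apply mul_le_mul_of_nonneg_right _ (norm_nonneg _)
              rw [norm_mul, Complex.norm_I, mul_one]
              have h1 : ‖(2 * Real.pi * θ : ℂ)‖ = 2 * Real.pi * |θ| := by
                rw [norm_mul, norm_mul, Complex.norm_real, Complex.norm_real, Real.norm_eq_abs,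
                  Real.norm_eq_abs, abs_of_pos Real.pi_pos]
                simp
              rw [h1]
              have h2 := Real.pi_lt_d2
              have h3 := Real.pi_pos
              nlinarith [abs_nonneg θ]
            · rw [norm_mul, norm_e, one_mul]
        _ = S * (7 * s * ∑ n ∈ Icc (-(x : ℤ)) x, ‖vp R M (y - n)‖ +
              ∑ n ∈ Icc (-(x : ℤ)) x, ‖deriv (vp R M) (y - n)‖) := by
            rw [← mul_sum, sum_add_distrib, ← mul_sum]
        _ ≤ S * (7 * s * (42 * C) + 42 * C * s) := by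
            apply mul_le_mul_of_nonneg_left _ hS0
            apply add_le_add _ (hsum2 y)
            exact mul_le_mul_of_nonneg_left (hsum1 y) (by positivity)
        _ ≤ _ := by nlinarith [mul_nonneg (mul_nonneg hC0.le hS0) hs0.le]
    intro y y'
    have h1 := Convex.norm_image_sub_le_of_norm_deriv_le (f := gq R M θ q b x u) (s := Set.univ)
      (C := 2000 * C * S * s) (x := y') (y := y) (fun z _ => (hder z).differentiableAt)
      (fun z _ => hbound z) convex_univ (Set.mem_univ _) (Set.mem_univ _)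
    rw [Real.norm_eq_abs] at h1
    exact h1
  · unfold gq
    apply ContDiff.sum
    intro n _
    apply contDiff_const.mul
    have h1 : ContDiff ℝ (⊤ : ℕ∞) (fun y : ℝ => y - (n : ℝ)) := contDiff_id.sub contDiff_const
    exact (contDiff_e.comp (contDiff_const.mul h1)).mul ((contDiff_vp R M).comp h1)

end Pool.Agent.H13K.GQB
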