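import Pool.Agent.H13K.StmK
import Pool.Agent.H993R2.FB_InvFull

/-!
Project BH (helper13), stub MAJ (helper39): the major arcs are localised in both variables.
-/

set_option autoImplicit false

namespace Pool.Agent.H13K.MAJ

open Finset
open Pool.Agent.H469R2.NK (e)
open Pool.Agent.H442R2.EHI (nint)
open Pool.Agent.H993R2.FB (dvd_of_nint nint_le_sub nint_le_abs nint_add nint_add_int nint_eq_abs)

/-- the Diophantine induction -/
lemma core {d K1 K q : ℕ} {b : ℤ} {ω δ₁ δ₂ : ℝ} (hd : 1 ≤ d) (hω : 0 < ω) (hq : 1 ≤ q)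
    (hbq : IsCoprime b (q : ℤ)) (hK1 : 1 ≤ K1) (hδ : 0 ≤ δ₁)
    (h4 : 4 * q * (K + 1) * (ω + δ₁ * (K : ℝ) ^ (d - 1)) ≤ 1)
    (h5 : ω + δ₁ * (K : ℝ) ^ d ≤ δ₂ * (K1 : ℝ) ^ d)
    {k k' : ℕ} (hk : k ∈ Icc K1 K) (hk' : k' ∈ Icc K1 K) {x y : ℝ} (hx : nint (x - b / q) ≤ δ₁)
    (hxy : ∀ l ≤ d, nint (x * (k : ℝ) ^ l + y * (k' : ℝ) ^ l) ≤ ω) :
    (q : ℤ) ∣ (k : ℤ) - k' ∧ nint (y + b / q) ≤ δ₂ := by
  rw [mem_Icc] at hk hk'
  have hq0 : (0 : ℝ) < q := by exact_mod_cast hq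
  have hq1 : (1 : ℝ) ≤ q := by exact_mod_cast hq
  have hK : 1 ≤ K := hK1.trans (hk.1.trans hk.2)
  have hKr : (1 : ℝ) ≤ K := by exact_mod_cast hK
  have hkK : (k : ℝ) ≤ K := by exact_mod_cast hk.2
  have hkK' : (k' : ℝ) ≤ K := by exact_mod_cast hk'.2
  have hk0 : (0 : ℝ) ≤ k := Nat.cast_nonneg k
  have hk0' : (0 : ℝ) ≤ k' := Nat.cast_nonneg k'
  set m : ℤ := round (x - b / q) with hm
  set n0 : ℤ := round (x + y) with hn0
  set β : ℝ := x - b / q - m with hβ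
  set β' : ℝ := y + b / q - ((n0 - m : ℤ) : ℝ) with hβ'
  have hβ1 : |β| ≤ δ₁ := hx
  have hβ2 : |β'| ≤ ω + δ₁ := by
    have h1 := hxy 0 (Nat.zero_le d)
    rw [pow_zero, pow_zero, mul_one, mul_one] at h1
    have h2 : |x + y - n0| ≤ ω := h1
    have h3 : β' = (x + y - n0) - β := by
      rw [hβ', hβ]
      push_cast
      ring
    rw [h3]
    exact (abs_sub _ _).trans (add_le_add h2 hβ1)
  -- the smallness
  have hKd : (K : ℝ) ^ d = K * (K : ℝ) ^ (d - 1) := by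
    rw [← pow_succ', Nat.sub_add_cancel hd]
  have hsm : ω + (K * ω + 2 * (δ₁ * (K : ℝ) ^ d)) < 1 / (2 * q) := by
    rw [lt_div_iff₀ (by positivity)]
    have h1 : 0 ≤ δ₁ * (K : ℝ) ^ (d - 1) := by positivity
    have h2 : δ₁ * (K : ℝ) ^ d = K * (δ₁ * (K : ℝ) ^ (d - 1)) := by rw [hKd]; ring
    rw [h2]
    set a := δ₁ * (K : ℝ) ^ (d - 1) with ha
    have h6 : (ω + (K * ω + 2 * (K * a))) < 2 * (K + 1) * (ω + a) := by nlinarith
    have h7 : (ω + (K * ω + 2 * (K * a))) * (2 * q) < 2 * (K + 1) * (ω + a) * (2 * q) :=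
      mul_lt_mul_of_pos_right h6 (by positivity)
    have h8 : 2 * (K + 1) * (ω + a) * (2 * q) = 4 * q * (K + 1) * (ω + a) := by ring
    linarith
  have h2q : 1 / (2 * (q : ℝ)) ≤ 1 / 2 := by
    apply one_div_le_one_div_of_le (by norm_num)
    linarith
  have h1q : 1 / (2 * (q : ℝ)) < 1 / q := by
    apply one_div_lt_one_div_of_lt hq0
    linarith
  have key : ∀ l : ℕ, l + 1 ≤ d → |β'| * (k' : ℝ) ^ l ≤ ω + δ₁ * (K : ℝ) ^ l →
      (q : ℤ) ∣ b * ((k : ℤ) ^ (l + 1) - (k' : ℤ) ^ (l + 1)) ∧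
        |β'| * (k' : ℝ) ^ (l + 1) ≤ ω + δ₁ * (K : ℝ) ^ (l + 1) := by
    intro l hl hP
    set γ : ℝ := β * (k : ℝ) ^ (l + 1) + β' * (k' : ℝ) ^ (l + 1) with hγ
    set X : ℝ := x * (k : ℝ) ^ (l + 1) + y * (k' : ℝ) ^ (l + 1) with hX
    set Bz : ℤ := b * ((k : ℤ) ^ (l + 1) - (k' : ℤ) ^ (l + 1)) with hBz
    set mz : ℤ := m * (k : ℤ) ^ (l + 1) + (n0 - m) * (k' : ℤ) ^ (l + 1) with hmz
    have hXe : X = (Bz : ℝ) / q + mz + γ := by
      have e1 : x = b / q + m + β := by rw [hβ]; ring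
      have e2 : y = -(b / q) + ((n0 - m : ℤ) : ℝ) + β' := by rw [hβ']; ring
      rw [hX, hγ, hBz, hmz]
      conv_lhs => rw [e1, e2]
      push_cast
      ring
    have hkl : (k : ℝ) ^ (l + 1) ≤ (K : ℝ) ^ (l + 1) := pow_le_pow_left₀ hk0 hkK _
    have hb1 : |β| * (k : ℝ) ^ (l + 1) ≤ δ₁ * (K : ℝ) ^ (l + 1) :=
      mul_le_mul hβ1 hkl (by positivity) hδ
    have hb2 : |β'| * (k' : ℝ) ^ (l + 1) ≤ K * (ω + δ₁ * (K : ℝ) ^ l) := by
      rw [pow_succ']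
      calc |β'| * (k' * (k' : ℝ) ^ l) = k' * (|β'| * (k' : ℝ) ^ l) := by ring
        _ ≤ K * (ω + δ₁ * (K : ℝ) ^ l) := mul_le_mul hkK' hP (by positivity) (by positivity)
    have hγa : |γ| ≤ |β| * (k : ℝ) ^ (l + 1) + |β'| * (k' : ℝ) ^ (l + 1) := by
      rw [hγ]
      refine (abs_add_le _ _).trans (le_of_eq ?_)
      rw [abs_mul, abs_mul, abs_of_nonneg (by positivity : (0 : ℝ) ≤ (k : ℝ) ^ (l + 1)),
        abs_of_nonneg (by positivity : (0 : ℝ) ≤ (k' : ℝ) ^ (l + 1))]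
    have hKl : δ₁ * (K : ℝ) ^ (l + 1) ≤ δ₁ * (K : ℝ) ^ d :=
      mul_le_mul_of_nonneg_left (pow_le_pow_right₀ hKr hl) hδ
    have hKe : K * (ω + δ₁ * (K : ℝ) ^ l) = K * ω + δ₁ * (K : ℝ) ^ (l + 1) := by
      rw [pow_succ]
      ring
    have hγb : |γ| ≤ K * ω + 2 * (δ₁ * (K : ℝ) ^ d) := by
      rw [hKe] at hb2
      linarith
    have hnX : nint X ≤ ω := hxy (l + 1) hl
    have hdvd : (q : ℤ) ∣ Bz := by
      apply dvd_of_nint hq
      have e3 : (Bz : ℝ) / q = (X + -γ) + ((-mz : ℤ) : ℝ) := by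
        rw [hXe]
        push_cast
        ring
      rw [e3, nint_add_int]
      have h6 := nint_add X (-γ)
      have h7 := nint_le_abs (-γ)
      rw [abs_neg] at h7
      linarith
    refine ⟨hdvd, ?_⟩
    obtain ⟨g, hg⟩ := hdvd
    have e4 : X = γ + ((g + mz : ℤ) : ℝ) := by
      rw [hXe, hg]
      push_cast
      field_simp
      ring
    have h6 : nint X = |γ| := by
      rw [e4, nint_add_int]
      exact nint_eq_abs (by linarith)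
    rw [h6] at hnX
    have h7 : |β' * (k' : ℝ) ^ (l + 1)| ≤ |γ| + |β * (k : ℝ) ^ (l + 1)| := by
      have e5 : β' * (k' : ℝ) ^ (l + 1) = γ - β * (k : ℝ) ^ (l + 1) := by rw [hγ]; ring
      rw [e5]
      exact abs_sub _ _
    rw [abs_mul, abs_mul, abs_of_nonneg (by positivity : (0 : ℝ) ≤ (k : ℝ) ^ (l + 1)),
        abs_of_nonneg (by positivity : (0 : ℝ) ≤ (k' : ℝ) ^ (l + 1))] at h7
    linarith
  have hP : ∀ l : ℕ, l ≤ d → |β'| * (k' : ℝ) ^ l ≤ ω + δ₁ * (K : ℝ) ^ l := by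
    intro l
    induction l with
    | zero =>
      intro _
      rw [pow_zero, pow_zero, mul_one, mul_one]
      exact hβ2
    | succ l ih =>
      intro hl
      exact (key l hl (ih (by omega))).2
  constructor
  · have h6 := (key 0 hd (hP 0 (Nat.zero_le d))).1
    rw [zero_add, pow_one, pow_one] at h6
    exact hbq.symm.dvd_of_dvd_mul_left h6
  · have h6 := (hP d le_rfl).trans h5
    have hK1p : (0 : ℝ) < (K1 : ℝ) ^ d := by
      have : (0 : ℝ) < K1 := by exact_mod_cast hK1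
      positivity
    have h7 : (K1 : ℝ) ^ d ≤ (k' : ℝ) ^ d :=
      pow_le_pow_left₀ (Nat.cast_nonneg _) (by exact_mod_cast hk'.1) _
    have h8 : |β'| * (K1 : ℝ) ^ d ≤ δ₂ * (K1 : ℝ) ^ d :=
      (mul_le_mul_of_nonneg_left h7 (abs_nonneg _)).trans h6
    have h9 : |β'| ≤ δ₂ := le_of_mul_le_mul_right h8 hK1p
    refine (nint_le_sub _ (n0 - m)).trans ?_
    exact h9

/-- **MAJ** -/
theorem t (hW : S_WTF) (hE : S_EXP) : S_MAJ := by
  intro d R M K1 K q b ω δ₁ δ₂ c c' χ hd hM hMN hMω hq hbq hK1 hδ h4 h5 hc hχ k hk k' hk'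
  have hN : (0 : ℝ) < 2 * R + 1 := by positivity
  have hM1 : (1 : ℝ) ≤ M := by exact_mod_cast hM
  have hω : 0 < ω := by
    by_contra hcon
    push Not at hcon
    have : ω * (2 * R + 1) ≤ 0 := mul_nonpos_of_nonpos_of_nonneg hcon hN.le
    linarith
  have hMω' : (M : ℝ) / (2 * R + 1) ≤ ω := by
    rw [div_le_iff₀ hN]
    exact hMω
  obtain ⟨-, -, -, -, -, -, -, -, -, hwh⟩ := hW R M hM hMN
  have main : ∀ h ∈ range (2 * R + 1), ∀ h' ∈ range (2 * R + 1), c h ≠ 0 →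
      (∏ l : Fin (d + 1), wh R M ((h : ℤ) * (k : ℤ) ^ (l : ℕ) + (h' : ℤ) * (k' : ℤ) ^ (l : ℕ))) ≠ 0 →
      (q : ℤ) ∣ (k : ℤ) - k' ∧ χ h' = 1 := by
    intro h hh h' hh' hch hprod
    have h6 : ∀ l ≤ d, nint ((h : ℝ) / (2 * R + 1) * (k : ℝ) ^ l + (h' : ℝ) / (2 * R + 1) * (k' : ℝ) ^ l) ≤ ω := by
      intro l hl
      have h7 := hwh _ (prod_ne_zero_iff.mp hprod ⟨l, by omega⟩ (mem_univ _))
      have h8 : (h : ℝ) / (2 * R + 1) * (k : ℝ) ^ l + (h' : ℝ) / (2 * R + 1) * (k' : ℝ) ^ l =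
          (((h : ℤ) * (k : ℤ) ^ l + (h' : ℤ) * (k' : ℤ) ^ l : ℤ) : ℝ) / (2 * R + 1) := by
        push_cast
        ring
      rw [h8]
      exact h7.le.trans hMω'
    obtain ⟨h7, h8⟩ := core hd hω hq hbq hK1 hδ h4 h5 hk hk' (hc h hh hch) h6
    exact ⟨h7, hχ h' hh' h8⟩
  rw [hE d R M c c' k k' hMN]
  split_ifs with hdvd
  · rw [hE d R M c _ k k' hMN]
    refine sum_congr rfl fun h hh => sum_congr rfl fun h' hh' => ?_
    by_cases h0 : c h = 0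
    · rw [h0]
      ring
    by_cases h1 : (∏ l : Fin (d + 1), wh R M ((h : ℤ) * (k : ℤ) ^ (l : ℕ) + (h' : ℤ) * (k' : ℤ) ^ (l : ℕ))) = 0
    · rw [h1]
      simp
    rw [(main h hh h' hh' h0 h1).2]
    simp
  · refine sum_eq_zero fun h hh => sum_eq_zero fun h' hh' => ?_
    by_cases h0 : c h = 0
    · rw [h0]
      ring
    by_cases h1 : (∏ l : Fin (d + 1), wh R M ((h : ℤ) * (k : ℤ) ^ (l : ℕ) + (h' : ℤ) * (k' : ℤ) ^ (l : ℕ))) = 0
    · rw [h1]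
      simp
    exact absurd (main h hh h' hh' h0 h1).1 hdvd

end Pool.Agent.H13K.MAJ
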