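import Pool.Agent.H13K.StmK

set_option autoImplicit false

namespace Pool.Agent.H13K.MEL

open Finset MeasureTheory
open Pool.Agent.H469R2.NK (e e_add norm_e e_zero)
open Pool.Agent.Q236.CR (nt)

lemma e_cont : Continuous e := by
  unfold Pool.Agent.H469R2.NK.e
  fun_prop

lemma e_lip (x y : ℝ) : ‖e x - e y‖ ≤ 2 * Real.pi * |x - y| := by
  have h : e x - e y = e y * (e (x - y) - 1) := by
    have : e x = e y * e (x - y) := by rw [← e_add]; congr 1; ring
    rw [this]; ring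
  rw [h, norm_mul, norm_e, one_mul]
  have h2 := Real.norm_exp_I_mul_ofReal_sub_one_le (x := 2 * Real.pi * (x - y))
  rw [mul_comm Complex.I] at h2
  refine h2.trans ?_
  rw [Real.norm_eq_abs, abs_mul, abs_of_pos (by positivity : (0:ℝ) < 2 * Real.pi)]

lemma abel (c w : ℕ → ℂ) (S1 : ℝ) (x : ℕ) (hx : 1 ≤ x) (hA : ∀ y ≤ x, ‖∑ n ∈ Icc 1 y, c n‖ ≤ S1) :
    ‖∑ n ∈ Icc 1 x, c n * w n‖ ≤ S1 * (‖w x‖ + ∑ n ∈ Ico 1 x, ‖w (n + 1) - w n‖) := by
  have hid : ∀ x : ℕ, 1 ≤ x → ∑ n ∈ Icc 1 x, c n * w n =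
      (∑ n ∈ Icc 1 x, c n) * w x - ∑ n ∈ Ico 1 x, (∑ m ∈ Icc 1 n, c m) * (w (n + 1) - w n) := by
    intro x hx
    induction x, hx using Nat.le_induction with
    | base => simp
    | succ k hk ih =>
      rw [Finset.sum_Icc_succ_top (by omega), ih, Finset.sum_Icc_succ_top (by omega),
        Finset.sum_Ico_succ_top hk]
      ring
  rw [hid x hx]
  have hS : 0 ≤ S1 := (norm_nonneg _).trans (hA 0 (Nat.zero_le _))
  refine (norm_sub_le _ _).trans ?_
  rw [mul_add, Finset.mul_sum]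
  refine add_le_add ?_ ?_
  · rw [norm_mul]
    exact mul_le_mul_of_nonneg_right (hA x le_rfl) (norm_nonneg _)
  · refine (norm_sum_le _ _).trans (Finset.sum_le_sum fun n hn => ?_)
    rw [norm_mul]
    rw [Finset.mem_Ico] at hn
    exact mul_le_mul_of_nonneg_right (hA n (by omega)) (norm_nonneg _)

lemma log_lip {p q : ℝ} (hp : 1 ≤ p) (hq : 1 ≤ q) : |Real.log p - Real.log q| ≤ |p - q| := by
  have key : ∀ p q : ℝ, 1 ≤ p → 1 ≤ q → q ≤ p → |Real.log p - Real.log q| ≤ |p - q| := by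
    intro p q hp hq h
    have hq0 : 0 < q := by linarith
    have hp0 : 0 < p := by linarith
    have h1 : Real.log q ≤ Real.log p := Real.log_le_log hq0 h
    rw [abs_of_nonneg (by linarith), abs_of_nonneg (by linarith), ← Real.log_div hp0.ne' hq0.ne']
    have h2 := Real.log_le_sub_one_of_pos (div_pos hp0 hq0)
    have h3 : p / q - 1 = (p - q) / q := by field_simp
    have h4 : (p - q) / q ≤ p - q := div_le_self (by linarith) hq
    linarith
  rcases le_total q p with h | h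
  · exact key p q hp hq h
  · rw [abs_sub_comm, abs_sub_comm p q]
    exact key q p hq hp h

lemma log_diff {y n : ℝ} (hy : 1 ≤ y) (hn : 1 ≤ n) :
    |(Real.log (y + 1) - Real.log (n + 1)) - (Real.log y - Real.log n)| ≤ |y - n| / (y * n) := by
  have hy0 : 0 < y := by linarith
  have hn0 : 0 < n := by linarith
  have h1 : (Real.log (y + 1) - Real.log (n + 1)) - (Real.log y - Real.log n) =
      Real.log ((y + 1) / y) - Real.log ((n + 1) / n) := by
    rw [Real.log_div (by positivity) hy0.ne', Real.log_div (by positivity) hn0.ne']; ring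
  rw [h1]
  refine (log_lip ?_ ?_).trans ?_
  · rw [le_div_iff₀ hy0]; linarith
  · rw [le_div_iff₀ hn0]; linarith
  · have : (y + 1) / y - (n + 1) / n = -((y - n) / (y * n)) := by field_simp; ring
    rw [this, abs_neg, abs_div, abs_of_pos (mul_pos hy0 hn0)]

lemma sum_split (f : ℤ → ℂ) (x : ℕ) :
    ∑ m ∈ Icc (-(x : ℤ)) x, f m = f 0 + ∑ n ∈ Icc 1 x, (f n + f (-(n : ℤ))) := by
  induction x with
  | zero => simp
  | succ k ih =>
    have : Icc (-((k + 1 : ℕ) : ℤ)) ((k + 1 : ℕ) : ℤ) =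
        insert ((k : ℤ) + 1) (insert (-((k : ℤ) + 1)) (Icc (-(k : ℤ)) k)) := by
      ext m; simp only [mem_insert, Finset.mem_Icc]; push_cast; omega
    rw [this, Finset.sum_insert (by simp; omega), Finset.sum_insert (by simp), ih,
      Finset.sum_Icc_succ_top (by omega)]
    push_cast
    ring

lemma sum_split' (f : ℤ → ℂ) (x : ℕ) (σ : ℤ) (hσ : σ = 1 ∨ σ = -1) :
    ∑ m ∈ Icc (-(x : ℤ)) x, f m = f 0 + ∑ n ∈ Icc 1 x, f (σ * n) + ∑ n ∈ Icc 1 x, f (-(σ * n)) := by
  rw [sum_split, Finset.sum_add_distrib, ← add_assoc]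
  rcases hσ with rfl | rfl
  · simp
  · simp only [neg_mul, one_mul, neg_neg]
    ring

lemma int1 (a R : ℝ) (ha : 0 < a) :
    ∫ t in (-R)..R, a / (a ^ 2 + t ^ 2) ≤ Real.pi := by
  have h : ∀ t ∈ Set.uIcc (-R) R, HasDerivAt (fun t => Real.arctan (t / a)) (a / (a ^ 2 + t ^ 2)) t := by
    intro t _
    have h1 : HasDerivAt (fun t : ℝ => t / a) (1 / a) t := (hasDerivAt_id t).div_const a
    have h2 := h1.arctan
    convert h2 using 1
    field_simp
  rw [intervalIntegral.integral_eq_sub_of_hasDerivAt h]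
  · have h1 := Real.arctan_lt_pi_div_two (R / a)
    have h2 := Real.neg_pi_div_two_lt_arctan (-R / a)
    linarith
  · apply Continuous.intervalIntegrable
    apply Continuous.div continuous_const (by fun_prop)
    intro t; positivity

lemma int2 (a R : ℝ) (ha : 1 ≤ a) (hR : 0 ≤ R) :
    ∫ t in (-R)..R, |t| * (a / (a ^ 2 + t ^ 2)) ≤ 2 * a * Real.log (1 + R) := by
  have ha0 : 0 < a := by linarith
  have hc : Continuous fun t : ℝ => |t| * (a / (a ^ 2 + t ^ 2)) := by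
    apply continuous_abs.mul
    apply Continuous.div continuous_const (by fun_prop)
    intro t; positivity
  have hpos : ∫ t in (0:ℝ)..R, |t| * (a / (a ^ 2 + t ^ 2)) ≤ a * Real.log (1 + R) := by
    have h1 : ∫ t in (0:ℝ)..R, |t| * (a / (a ^ 2 + t ^ 2)) = ∫ t in (0:ℝ)..R, t * (a / (a ^ 2 + t ^ 2)) := by
      apply intervalIntegral.integral_congr
      intro t ht
      rw [Set.uIcc_of_le hR] at ht
      simp only [abs_of_nonneg ht.1]
    rw [h1]
    have h : ∀ t ∈ Set.uIcc (0:ℝ) R, HasDerivAt (fun t => a / 2 * Real.log (a ^ 2 + t ^ 2))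
        (t * (a / (a ^ 2 + t ^ 2))) t := by
      intro t _
      have h1 : HasDerivAt (fun t : ℝ => a ^ 2 + t ^ 2) (2 * t) t := by
        simpa using (hasDerivAt_pow 2 t).const_add (a ^ 2)
      have h2 := (h1.log (by positivity)).const_mul (a / 2)
      exact h2.congr_deriv (by ring)
    rw [intervalIntegral.integral_eq_sub_of_hasDerivAt h]
    · have e1 : a / 2 * Real.log (a ^ 2 + R ^ 2) - a / 2 * Real.log (a ^ 2 + 0 ^ 2) =
          a / 2 * Real.log ((a ^ 2 + R ^ 2) / a ^ 2) := by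
        rw [Real.log_div (by positivity) (by positivity)]; ring_nf
      rw [e1]
      have e2 : (a ^ 2 + R ^ 2) / a ^ 2 ≤ (1 + R) ^ 2 := by
        rw [div_le_iff₀ (by positivity)]
        have : 1 ≤ a ^ 2 := by nlinarith
        nlinarith [mul_nonneg hR (sq_nonneg a), mul_nonneg (sq_nonneg R) (by linarith : 0 ≤ a ^ 2 - 1)]
      have e3 := Real.log_le_log (by positivity) e2
      rw [Real.log_pow] at e3
      push_cast at e3
      nlinarith
    · apply Continuous.intervalIntegrable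
      apply continuous_id.mul
      apply Continuous.div continuous_const (by fun_prop)
      intro t; positivity
  have hneg : ∫ t in (-R)..0, |t| * (a / (a ^ 2 + t ^ 2)) = ∫ t in (0:ℝ)..R, |t| * (a / (a ^ 2 + t ^ 2)) := by
    have := intervalIntegral.integral_comp_neg (a := -R) (b := 0) (fun t : ℝ => |t| * (a / (a ^ 2 + t ^ 2)))
    simp only [abs_neg, neg_neg, neg_zero, even_two, Even.neg_pow] at this
    exact this
  rw [← intervalIntegral.integral_add_adjacent_intervals (b := 0) (hc.intervalIntegrable _ _)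
    (hc.intervalIntegrable _ _), hneg]
  linarith


/-- `v^{-1/2} ρ(log v)` on `[x0, ∞)`, extended by its value at `x0` -/
noncomputable def Fy (x0 : ℝ) (ρ : ℝ → ℝ) (y : ℝ) : ℝ :=
  Real.exp (-(Real.log (max y x0)) / 2) * ρ (Real.log (max y x0))

/-- the phase -/
noncomputable def ph (x0 ξ : ℝ) (n : ℝ) (y : ℝ) : ℂ := e (-(ξ * (Real.log (max y x0) - Real.log n)))

lemma Fy_cont {x0 : ℝ} {ρ : ℝ → ℝ} (h0 : 1 ≤ x0) (hρ : Continuous ρ) : Continuous (Fy x0 ρ) := by
  have hl : Continuous fun y : ℝ => Real.log (max y x0) := by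
    apply Continuous.log (by fun_prop)
    intro y
    have := le_max_right y x0
    linarith
  unfold Fy
  fun_prop

lemma ph_cont {x0 ξ n : ℝ} (h0 : 1 ≤ x0) : Continuous (ph x0 ξ n) := by
  have hl : Continuous fun y : ℝ => Real.log (max y x0) := by
    apply Continuous.log (by fun_prop)
    intro y
    have := le_max_right y x0
    linarith
  unfold ph
  exact e_cont.comp (by fun_prop)

lemma Fy_lip {x0 Cr : ℝ} {ρ : ℝ → ℝ} (h0 : 1 ≤ x0) (hd : Differentiable ℝ ρ) (h1 : ∀ s, 0 ≤ ρ s ∧ ρ s ≤ 1)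
    (hCr : ∀ s, |deriv ρ s| ≤ Cr) (y : ℝ) :
    |Fy x0 ρ (y + 1) - Fy x0 ρ y| ≤ (1 / 2 + Cr) * Real.exp (-(3 / 2) * Real.log x0) := by
  have hCr0 : 0 ≤ Cr := (abs_nonneg _).trans (hCr 0)
  set g : ℝ → ℝ := fun v => Real.exp (-(Real.log v) / 2) * ρ (Real.log v) with hg
  have hder : ∀ v ∈ Set.Ici x0, HasDerivWithinAt g
      ((Real.exp (-(Real.log v) / 2) * (-(1 / v) / 2)) * ρ (Real.log v) +
        Real.exp (-(Real.log v) / 2) * (deriv ρ (Real.log v) * (1 / v))) (Set.Ici x0) v := by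
    intro v hv
    have hv0 : v ≠ 0 := by have : x0 ≤ v := hv; linarith
    have hl : HasDerivAt Real.log (1 / v) v := by simpa using Real.hasDerivAt_log hv0
    have h1 := ((hl.neg.div_const 2).exp).mul ((hd (Real.log v)).hasDerivAt.comp v hl)
    exact h1.hasDerivWithinAt
  have hbd : ∀ v ∈ Set.Ici x0, ‖(Real.exp (-(Real.log v) / 2) * (-(1 / v) / 2)) * ρ (Real.log v) +
        Real.exp (-(Real.log v) / 2) * (deriv ρ (Real.log v) * (1 / v))‖ ≤
        (1 / 2 + Cr) * Real.exp (-(3 / 2) * Real.log x0) := by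
    intro v hv
    have hv1 : x0 ≤ v := hv
    have hv0 : 0 < v := by linarith
    have hlog : Real.log x0 ≤ Real.log v := Real.log_le_log (by linarith) hv1
    have e1 : (1 / v) = Real.exp (-Real.log v) := by rw [Real.exp_neg, Real.exp_log hv0]; ring
    have e2 : (Real.exp (-(Real.log v) / 2) * (-(1 / v) / 2)) * ρ (Real.log v) +
        Real.exp (-(Real.log v) / 2) * (deriv ρ (Real.log v) * (1 / v)) =
        Real.exp (-(3 / 2) * Real.log v) * (-(ρ (Real.log v)) / 2 + deriv ρ (Real.log v)) := by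
      rw [e1]
      have : Real.exp (-(3 / 2) * Real.log v) = Real.exp (-(Real.log v) / 2) * Real.exp (-Real.log v) := by
        rw [← Real.exp_add]; congr 1; ring
      rw [this]; ring
    rw [e2, norm_mul, Real.norm_eq_abs, Real.norm_eq_abs, abs_of_pos (Real.exp_pos _), mul_comm]
    have h3 : |-(ρ (Real.log v)) / 2 + deriv ρ (Real.log v)| ≤ 1 / 2 + Cr := by
      have := h1 (Real.log v)
      have h4 := abs_le.mp (hCr (Real.log v))
      rw [abs_le]
      constructor <;> linarith [this.1, this.2, h4.1, h4.2]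
    exact mul_le_mul h3 (Real.exp_le_exp.mpr (by linarith)) (Real.exp_pos _).le (by linarith)
  have hm := Convex.norm_image_sub_le_of_norm_hasDerivWithin_le hder hbd (convex_Ici x0)
    (le_max_right y x0) (le_max_right (y + 1) x0)
  have h5 : Fy x0 ρ (y + 1) - Fy x0 ρ y = g (max (y + 1) x0) - g (max y x0) := rfl
  rw [h5]
  refine hm.trans ?_
  have h6 : ‖max (y + 1) x0 - max y x0‖ ≤ 1 := by
    rw [Real.norm_eq_abs]
    refine (abs_max_sub_max_le_abs _ _ _).trans ?_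
    simp
  have h7 : 0 ≤ (1 / 2 + Cr) * Real.exp (-(3 / 2) * Real.log x0) := by positivity
  nlinarith

lemma Fy_zero_left {x0 : ℝ} {ρ : ℝ → ℝ} (hl : ∀ s, s ≤ Real.log x0 → ρ s = 0) {y : ℝ} (hy : y ≤ x0) :
    Fy x0 ρ y = 0 := by
  unfold Fy
  rw [max_eq_right hy, hl _ le_rfl, mul_zero]

lemma Fy_zero_right {x0 x1 : ℝ} {ρ : ℝ → ℝ} (h0 : 1 ≤ x0) (h01 : x0 ≤ x1) (hr : ∀ s, Real.log x1 ≤ s → ρ s = 0) {y : ℝ} (hy : x1 ≤ y) :
    Fy x0 ρ y = 0 := by
  unfold Fy
  rw [max_eq_left (by linarith), hr _ (Real.log_le_log (by linarith) hy), mul_zero]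

lemma Fy_nonneg {x0 : ℝ} {ρ : ℝ → ℝ} (h1 : ∀ s, 0 ≤ ρ s ∧ ρ s ≤ 1) (y : ℝ) : 0 ≤ Fy x0 ρ y :=
  mul_nonneg (Real.exp_pos _).le (h1 _).1

lemma Fy_le {x0 : ℝ} {ρ : ℝ → ℝ} (h1 : ∀ s, 0 ≤ ρ s ∧ ρ s ≤ 1) {y : ℝ} (hy : x0 ≤ y) :
    Fy x0 ρ y ≤ Real.exp (-(Real.log y) / 2) := by
  unfold Fy
  rw [max_eq_left hy]
  exact mul_le_of_le_one_right (Real.exp_pos _).le (h1 _).2

lemma Fy_le' {x0 : ℝ} {ρ : ℝ → ℝ} (h0 : 1 ≤ x0) (h1 : ∀ s, 0 ≤ ρ s ∧ ρ s ≤ 1) (y : ℝ) :
    Fy x0 ρ y ≤ Real.exp (-(1 / 2) * Real.log x0) := by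
  unfold Fy
  refine (mul_le_of_le_one_right (Real.exp_pos _).le (h1 _).2).trans ?_
  apply Real.exp_le_exp.mpr
  have : Real.log x0 ≤ Real.log (max y x0) := Real.log_le_log (by linarith) (le_max_right _ _)
  linarith

/-- the difference of the two amplitudes -/
lemma G_diff {x0 Cr ξ : ℝ} {ρ : ℝ → ℝ} (h0 : 1 ≤ x0) (hd : Differentiable ℝ ρ) (h1 : ∀ s, 0 ≤ ρ s ∧ ρ s ≤ 1)
    (hCr : ∀ s, |deriv ρ s| ≤ Cr) (hl : ∀ s, s ≤ Real.log x0 → ρ s = 0) {n : ℝ} (hn : 1 ≤ n) (y : ℝ) :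
    ‖(Fy x0 ρ (y + 1) : ℂ) * ph x0 ξ (n + 1) (y + 1) - (Fy x0 ρ y : ℂ) * ph x0 ξ n y‖ ≤
      (1 / 2 + Cr) * Real.exp (-(3 / 2) * Real.log x0) +
        2 * Real.pi * |ξ| * Real.exp (-(3 / 2) * Real.log x0) / n * |y - n| := by
  have e1 : (Fy x0 ρ (y + 1) : ℂ) * ph x0 ξ (n + 1) (y + 1) - (Fy x0 ρ y : ℂ) * ph x0 ξ n y =
      ((Fy x0 ρ (y + 1) - Fy x0 ρ y : ℝ) : ℂ) * ph x0 ξ (n + 1) (y + 1) +
      (Fy x0 ρ y : ℂ) * (ph x0 ξ (n + 1) (y + 1) - ph x0 ξ n y) := by
    push_cast; ring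
  rw [e1]
  refine (norm_add_le _ _).trans (add_le_add ?_ ?_)
  · rw [norm_mul, Complex.norm_real]
    unfold ph
    rw [norm_e, mul_one]
    exact Fy_lip h0 hd h1 hCr y
  · rcases le_or_gt y x0 with hy | hy
    · rw [Fy_zero_left hl hy]
      simp only [Complex.ofReal_zero, zero_mul, norm_zero]
      positivity
    · have hy1 : 1 ≤ y := by linarith
      have hn0 : 0 < n := by linarith
      have hy0 : 0 < y := by linarith
      rw [norm_mul, Complex.norm_real, Real.norm_eq_abs, abs_of_nonneg (Fy_nonneg h1 y)]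
      have h2 : ‖ph x0 ξ (n + 1) (y + 1) - ph x0 ξ n y‖ ≤ 2 * Real.pi * (|ξ| * (|y - n| / (y * n))) := by
        unfold ph
        refine (e_lip _ _).trans ?_
        rw [max_eq_left hy.le, max_eq_left (by linarith : x0 ≤ y + 1)]
        have e3 : -(ξ * (Real.log (y + 1) - Real.log (n + 1))) - -(ξ * (Real.log y - Real.log n)) =
          -(ξ * ((Real.log (y + 1) - Real.log (n + 1)) - (Real.log y - Real.log n))) := by ring
        rw [e3, abs_neg, abs_mul]
        have := log_diff hy1 hn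
        gcongr
      have h3 : Fy x0 ρ y * (1 / y) ≤ Real.exp (-(3 / 2) * Real.log x0) := by
        have hlog : Real.log x0 ≤ Real.log y := Real.log_le_log (by linarith) hy.le
        have e4 : (1 / y) = Real.exp (-Real.log y) := by rw [Real.exp_neg, Real.exp_log hy0]; ring
        calc Fy x0 ρ y * (1 / y) ≤ Real.exp (-(Real.log y) / 2) * (1 / y) :=
              mul_le_mul_of_nonneg_right (Fy_le h1 hy.le) (by positivity)
          _ = Real.exp (-(3 / 2) * Real.log y) := by rw [e4, ← Real.exp_add]; congr 1; ring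
          _ ≤ _ := Real.exp_le_exp.mpr (by linarith)
      calc Fy x0 ρ y * ‖ph x0 ξ (n + 1) (y + 1) - ph x0 ξ n y‖
          ≤ Fy x0 ρ y * (2 * Real.pi * (|ξ| * (|y - n| / (y * n)))) :=
            mul_le_mul_of_nonneg_left h2 (Fy_nonneg h1 y)
        _ = (Fy x0 ρ y * (1 / y)) * (2 * Real.pi * |ξ| / n * |y - n|) := by field_simp
        _ ≤ Real.exp (-(3 / 2) * Real.log x0) * (2 * Real.pi * |ξ| / n * |y - n|) :=
            mul_le_mul_of_nonneg_right h3 (by positivity)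
        _ = _ := by ring

lemma bound_int {f : ℝ → ℂ} {g : ℝ → ℝ} {R : ℝ} (hR : 0 ≤ R) (hg : Continuous g) (h : ∀ t, |t| ≤ R → ‖f t‖ ≤ g t)
    (h0 : ∀ t, R < |t| → f t = 0) : ‖∫ t, f t‖ ≤ ∫ t in (-R)..R, g t := by
  have h1 : ∫ t in (-R)..R, g t = ∫ t, (Set.Icc (-R) R).indicator g t := by
    rw [intervalIntegral.integral_of_le (by linarith), ← integral_Icc_eq_integral_Ioc,
      integral_indicator measurableSet_Icc]
  rw [h1]
  apply norm_integral_le_of_norm_le
  · rw [integrable_indicator_iff measurableSet_Icc]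
    exact hg.continuousOn.integrableOn_Icc
  · refine Filter.Eventually.of_forall fun t => ?_
    by_cases ht : |t| ≤ R
    · rw [Set.indicator_of_mem (Set.mem_Icc.mpr (abs_le.mp ht))]
      exact h t ht
    · have hn : t ∉ Set.Icc (-R) R := fun hh => ht (abs_le.mpr ⟨hh.1, hh.2⟩)
      rw [h0 t (by linarith), norm_zero, Set.indicator_of_notMem hn]

/-- the amplitude integral -/
noncomputable def w (x0 ξ : ℝ) (ρ : ℝ → ℝ) (κ : ℝ → ℂ) (n : ℝ) : ℂ :=
  ∫ t : ℝ, ((Fy x0 ρ (t + n) : ℂ) * ph x0 ξ n (t + n)) * κ t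

lemma w_bound {x0 x1 ξ a K R : ℝ} {ρ : ℝ → ℝ} {κ : ℝ → ℂ} (h0 : 1 ≤ x0) (h01 : x0 ≤ x1)
    (h1 : ∀ s, 0 ≤ ρ s ∧ ρ s ≤ 1) (hl : ∀ s, s ≤ Real.log x0 → ρ s = 0)
    (hr : ∀ s, Real.log x1 ≤ s → ρ s = 0) (ha : 0 < a) (hK : 0 ≤ K)
    (hκ : ∀ t, |t| ≤ R → ‖κ t‖ ≤ K * (a / (a ^ 2 + t ^ 2))) {n : ℝ} (hn : 1 ≤ n) (hnR : n + x1 ≤ R) :
    ‖w x0 ξ ρ κ n‖ ≤ Real.exp (-(1 / 2) * Real.log x0) * (K * Real.pi) := by
  have hR : 0 ≤ R := by linarith
  have hc : Continuous fun t : ℝ => a / (a ^ 2 + t ^ 2) := by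
    apply Continuous.div continuous_const (by fun_prop)
    intro t; positivity
  unfold w
  refine (bound_int (g := fun t => Real.exp (-(1 / 2) * Real.log x0) * K * (a / (a ^ 2 + t ^ 2))) hR
    (continuous_const.mul hc) ?_ ?_).trans ?_
  · intro t ht
    rw [norm_mul, norm_mul, Complex.norm_real, Real.norm_eq_abs, abs_of_nonneg (Fy_nonneg h1 _)]
    unfold ph
    rw [norm_e, mul_one, mul_assoc]
    exact mul_le_mul (Fy_le' h0 h1 _) (hκ t ht) (norm_nonneg _) (Real.exp_pos _).le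
  · intro t ht
    have : Fy x0 ρ (t + n) = 0 := by
      rcases lt_abs.mp ht with h | h
      · exact Fy_zero_right h0 h01 hr (by linarith)
      · exact Fy_zero_left hl (by linarith)
    rw [this]; simp
  · rw [intervalIntegral.integral_const_mul, mul_assoc]
    have := int1 a R ha
    gcongr

lemma G_int {x0 x1 ξ n : ℝ} {ρ : ℝ → ℝ} {κ : ℝ → ℂ} (h0 : 1 ≤ x0) (h01 : x0 ≤ x1)
    (hρ : Continuous ρ) (hl : ∀ s, s ≤ Real.log x0 → ρ s = 0)
    (hr : ∀ s, Real.log x1 ≤ s → ρ s = 0) (hκ : Continuous κ) :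
    Integrable fun t : ℝ => ((Fy x0 ρ (t + n) : ℂ) * ph x0 ξ n (t + n)) * κ t := by
  apply Continuous.integrable_of_hasCompactSupport
  · have h1 : Continuous fun t : ℝ => ((Fy x0 ρ (t + n) : ℝ) : ℂ) :=
      Complex.continuous_ofReal.comp ((Fy_cont h0 hρ).comp (continuous_id.add continuous_const))
    have h2 : Continuous fun t : ℝ => ph x0 ξ n (t + n) := (ph_cont h0).comp (continuous_id.add continuous_const)
    exact (h1.mul h2).mul hκ
  · refine HasCompactSupport.intro (isCompact_Icc (a := x0 - n) (b := x1 - n)) ?_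
    intro t ht
    rw [Set.mem_Icc, not_and_or, not_le, not_le] at ht
    have : Fy x0 ρ (t + n) = 0 := by
      rcases ht with h | h
      · exact Fy_zero_left hl (by linarith)
      · exact Fy_zero_right h0 h01 hr (by linarith)
    rw [this]; simp

lemma w_diff {x0 x1 ξ a K R Cr : ℝ} {ρ : ℝ → ℝ} {κ : ℝ → ℂ} (h0 : 1 ≤ x0) (h01 : x0 ≤ x1)
    (hd : Differentiable ℝ ρ) (hCr : ∀ s, |deriv ρ s| ≤ Cr)
    (h1 : ∀ s, 0 ≤ ρ s ∧ ρ s ≤ 1) (hl : ∀ s, s ≤ Real.log x0 → ρ s = 0)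
    (hr : ∀ s, Real.log x1 ≤ s → ρ s = 0) (ha : 1 ≤ a) (hK : 0 ≤ K) (hκc : Continuous κ)
    (hκ : ∀ t, |t| ≤ R → ‖κ t‖ ≤ K * (a / (a ^ 2 + t ^ 2))) {n : ℝ} (hn : 1 ≤ n) (hnR : n + 1 + x1 ≤ R) :
    ‖w x0 ξ ρ κ (n + 1) - w x0 ξ ρ κ n‖ ≤ (1 / 2 + Cr) * Real.exp (-(3 / 2) * Real.log x0) * K * Real.pi +
      2 * Real.pi * |ξ| * Real.exp (-(3 / 2) * Real.log x0) / n * K * (2 * a * Real.log (1 + R)) := by
  have hR : 0 ≤ R := by linarith
  have ha0 : 0 < a := by linarith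
  have hCr0 : 0 ≤ Cr := (abs_nonneg _).trans (hCr 0)
  have hc : Continuous fun t : ℝ => a / (a ^ 2 + t ^ 2) := by
    apply Continuous.div continuous_const (by fun_prop)
    intro t; positivity
  have hw : w x0 ξ ρ κ (n + 1) - w x0 ξ ρ κ n =
      ∫ t : ℝ, ((Fy x0 ρ (t + n + 1) : ℂ) * ph x0 ξ (n + 1) (t + n + 1) -
        (Fy x0 ρ (t + n) : ℂ) * ph x0 ξ n (t + n)) * κ t := by
    unfold w
    rw [← integral_sub (G_int h0 h01 hd.continuous hl hr hκc) (G_int h0 h01 hd.continuous hl hr hκc)]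
    congr 1
    ext t
    rw [show t + (n + 1) = t + n + 1 by ring]
    ring
  rw [hw]
  set K1 := (1 / 2 + Cr) * Real.exp (-(3 / 2) * Real.log x0) with hK1
  set K2 := 2 * Real.pi * |ξ| * Real.exp (-(3 / 2) * Real.log x0) / n with hK2
  have hn0 : 0 < n := by linarith
  have hK1' : 0 ≤ K1 := by positivity
  have hK2' : 0 ≤ K2 := by positivity
  refine (bound_int (g := fun t => K1 * K * (a / (a ^ 2 + t ^ 2)) + K2 * K * (|t| * (a / (a ^ 2 + t ^ 2)))) hR
    ((continuous_const.mul hc).add (continuous_const.mul (continuous_abs.mul hc))) ?_ ?_).trans ?_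
  · intro t ht
    rw [norm_mul]
    have h2 := G_diff (ξ := ξ) h0 hd h1 hCr hl hn (t + n)
    rw [add_sub_cancel_right] at h2
    refine (mul_le_mul h2 (hκ t ht) (norm_nonneg _) (by positivity)).trans (le_of_eq ?_)
    ring
  · intro t ht
    have h3 : Fy x0 ρ (t + n) = 0 := by
      rcases lt_abs.mp ht with h | h
      · exact Fy_zero_right h0 h01 hr (by linarith)
      · exact Fy_zero_left hl (by linarith)
    have h4 : Fy x0 ρ (t + n + 1) = 0 := by
      rcases lt_abs.mp ht with h | h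
      · exact Fy_zero_right h0 h01 hr (by linarith)
      · exact Fy_zero_left hl (by linarith)
    rw [h3, h4]; simp
  · have hi1 : Continuous fun t : ℝ => K1 * K * (a / (a ^ 2 + t ^ 2)) := continuous_const.mul hc
    have hi2 : Continuous fun t : ℝ => K2 * K * (|t| * (a / (a ^ 2 + t ^ 2))) :=
      continuous_const.mul (continuous_abs.mul hc)
    rw [intervalIntegral.integral_add (hi1.intervalIntegrable _ _) (hi2.intervalIntegrable _ _),
      intervalIntegral.integral_const_mul, intervalIntegral.integral_const_mul]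
    have i1 := int1 a R ha0
    have i2 := int2 a R ha hR
    gcongr

/-- the substitution `y = exp s` -/
lemma J_eq {x0 x1 ξ : ℝ} {ρ : ℝ → ℝ} {κ : ℝ → ℂ} (h0 : 1 ≤ x0) (h01 : x0 ≤ x1) (hρ : Continuous ρ)
    (hl : ∀ s, s ≤ Real.log x0 → ρ s = 0) (hr : ∀ s, Real.log x1 ≤ s → ρ s = 0) (hκ : Continuous κ) (n : ℝ) :
    ∫ s : ℝ, ((Real.exp (s / 2) * ρ s : ℝ) : ℂ) * κ (Real.exp s - n) * e (-(ξ * s)) =
      e (-(ξ * Real.log n)) * w x0 ξ ρ κ n := by
  have hx0 : 0 < x0 := by linarith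
  have hx1 : 0 < x1 := by linarith
  set H : ℝ → ℂ := fun y => ((Fy x0 ρ y : ℂ) * ph x0 ξ n y) * κ (y - n) with hH
  have hHc : Continuous H := by
    have h1 : Continuous fun t : ℝ => ((Fy x0 ρ t : ℝ) : ℂ) := Complex.continuous_ofReal.comp (Fy_cont h0 hρ)
    exact (h1.mul (ph_cont h0)).mul (hκ.comp (continuous_id.sub continuous_const))
  have e1 : w x0 ξ ρ κ n = ∫ y, H y := by
    rw [← integral_add_right_eq_self H n]
    unfold w
    congr 1
    ext t
    simp only [hH, add_sub_cancel_right]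
  have e2 : ∫ y, H y = ∫ y in x0..x1, H y := by
    symm
    apply intervalIntegral.integral_eq_integral_of_support_subset
    intro y hy
    rw [Function.mem_support] at hy
    by_contra hn
    rw [Set.mem_Ioc, not_and_or, not_lt, not_le] at hn
    apply hy
    have : Fy x0 ρ y = 0 := by
      rcases hn with h | h
      · exact Fy_zero_left hl h
      · exact Fy_zero_right h0 h01 hr h.le
    simp only [hH, this]; simp
  have e3 : ∫ y in x0..x1, H y = ∫ s in Real.log x0..Real.log x1, Real.exp s • (H ∘ Real.exp) s := by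
    rw [intervalIntegral.integral_deriv_smul_comp (fun s _ => Real.hasDerivAt_exp s)
      Real.continuous_exp.continuousOn hHc, Real.exp_log hx0, Real.exp_log hx1]
  have e4 : ∫ s : ℝ, ((Real.exp (s / 2) * ρ s : ℝ) : ℂ) * κ (Real.exp s - n) * e (-(ξ * s)) =
      ∫ s in Real.log x0..Real.log x1, ((Real.exp (s / 2) * ρ s : ℝ) : ℂ) * κ (Real.exp s - n) * e (-(ξ * s)) := by
    symm
    apply intervalIntegral.integral_eq_integral_of_support_subset
    intro s hs
    rw [Function.mem_support] at hs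
    by_contra hn
    rw [Set.mem_Ioc, not_and_or, not_lt, not_le] at hn
    apply hs
    have : ρ s = 0 := by
      rcases hn with h | h
      · exact hl s h
      · exact hr s h.le
    rw [this]; simp
  rw [e4, e1, e2, e3, ← intervalIntegral.integral_const_mul]
  apply intervalIntegral.integral_congr
  intro s hs
  have hll : Real.log x0 ≤ Real.log x1 := Real.log_le_log hx0 h01
  rw [Set.uIcc_of_le hll] at hs
  have hm : max (Real.exp s) x0 = Real.exp s := by
    apply max_eq_left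
    have := Real.exp_le_exp.mpr hs.1
    rwa [Real.exp_log hx0] at this
  simp only [Function.comp, hH, Fy, ph, hm, Real.log_exp]
  have h5 : e (-(ξ * s)) = e (-(ξ * Real.log n)) * e (-(ξ * (s - Real.log n))) := by
    rw [← e_add]; congr 1; ring
  have h6 : (Real.exp (s / 2)) = Real.exp s * Real.exp (-s / 2) := by
    rw [← Real.exp_add]; congr 1; ring
  rw [h5, h6, Complex.real_smul]
  push_cast
  ring

lemma inv_sum (y : ℝ) (hy : 0 < y) (x : ℕ) : ∑ n ∈ Icc 1 x, 1 / (y + n) ^ 2 ≤ 1 / y := by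
  have h : ∑ n ∈ Icc 1 x, 1 / (y + n) ^ 2 ≤ 1 / y - 1 / (y + x) := by
    induction x with
    | zero => simp
    | succ k ih =>
      rw [Finset.sum_Icc_succ_top (by omega)]
      have h1 : 1 / (y + ((k + 1 : ℕ) : ℝ)) ^ 2 ≤ 1 / (y + k) - 1 / (y + ((k + 1 : ℕ) : ℝ)) := by
        push_cast
        rw [div_sub_div _ _ (by positivity) (by positivity), div_le_div_iff₀ (by positivity) (by positivity)]
        nlinarith [hy, (by positivity : (0:ℝ) ≤ k)]
      linarith
  have : 0 ≤ 1 / (y + (x : ℝ)) := by positivity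
  linarith

/-- the terms of the other sign -/
lemma neg_part {x0 x1 ξ B R S : ℝ} {ρ : ℝ → ℝ} {κ : ℝ → ℂ} (h0 : 1 ≤ x0) (h01 : x0 ≤ x1)
    (h1 : ∀ s, 0 ≤ ρ s ∧ ρ s ≤ 1)
    (hl : ∀ s, s ≤ Real.log x0 → ρ s = 0) (hr : ∀ s, Real.log x1 ≤ s → ρ s = 0)
    (hB : 0 ≤ B) (hκ : ∀ t, |t| ≤ R → ‖κ t‖ * t ^ 2 ≤ B) (hS : 0 ≤ S) (x : ℕ) (hx : x + x1 ≤ R) (c : ℕ → ℂ)
    (hc : ∀ n, ‖c n‖ ≤ S) :
    ‖∑ n ∈ Icc 1 x, c n * ∫ s : ℝ, ((Real.exp (s / 2) * ρ s : ℝ) : ℂ) * κ (Real.exp s + n) * e (-(ξ * s))‖ ≤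
      S * (B * (2 * Real.exp (-(1 / 2) * Real.log x0))) := by
  have hx0 : 0 < x0 := by linarith
  have hx1 : 0 < x1 := by linarith
  have hll : Real.log x0 ≤ Real.log x1 := Real.log_le_log hx0 h01
  have hcont : ∀ n : ℕ, Continuous fun s : ℝ => B * (Real.exp (s / 2) * (1 / (Real.exp s + n) ^ 2)) := by
    intro n
    apply continuous_const.mul
    apply Continuous.mul (by fun_prop)
    apply Continuous.div continuous_const (by fun_prop)
    intro s
    have := Real.exp_pos s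
    positivity
  have hb : ∀ n ∈ Icc 1 x, ‖∫ s : ℝ, ((Real.exp (s / 2) * ρ s : ℝ) : ℂ) * κ (Real.exp s + n) * e (-(ξ * s))‖ ≤
      ∫ s in Real.log x0..Real.log x1, B * (Real.exp (s / 2) * (1 / (Real.exp s + n) ^ 2)) := by
    intro n hn
    rw [Finset.mem_Icc] at hn
    rw [intervalIntegral.integral_of_le hll, ← integral_Icc_eq_integral_Ioc,
      ← integral_indicator measurableSet_Icc]
    apply norm_integral_le_of_norm_le
    · rw [integrable_indicator_iff measurableSet_Icc]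
      exact (hcont n).continuousOn.integrableOn_Icc
    · refine Filter.Eventually.of_forall fun s => ?_
      by_cases hs : s ∈ Set.Icc (Real.log x0) (Real.log x1)
      · rw [Set.indicator_of_mem hs, norm_mul, norm_mul, norm_e, mul_one, Complex.norm_real,
          Real.norm_eq_abs, abs_of_nonneg (mul_nonneg (Real.exp_pos _).le (h1 s).1)]
        have hp : 0 < Real.exp s + n := by have := Real.exp_pos s; positivity
        have hs1 : Real.exp s ≤ x1 := by
          have := Real.exp_le_exp.mpr hs.2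
          rwa [Real.exp_log hx1] at this
        have hnx : (n : ℝ) ≤ x := by exact_mod_cast hn.2
        have hk := hκ (Real.exp s + n) (by rw [abs_of_pos hp]; linarith)
        have hk2 : ‖κ (Real.exp s + n)‖ ≤ B * (1 / (Real.exp s + n) ^ 2) := by
          rw [mul_one_div, le_div_iff₀ (by positivity)]
          exact hk
        calc Real.exp (s / 2) * ρ s * ‖κ (Real.exp s + n)‖
            ≤ (Real.exp (s / 2) * 1) * (B * (1 / (Real.exp s + n) ^ 2)) := by
              apply mul_le_mul _ hk2 (norm_nonneg _) (by positivity)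
              exact mul_le_mul_of_nonneg_left (h1 s).2 (Real.exp_pos _).le
          _ = _ := by ring
      · rw [Set.indicator_of_notMem hs]
        rw [Set.mem_Icc, not_and_or, not_le, not_le] at hs
        have : ρ s = 0 := by
          rcases hs with h | h
          · exact hl s h.le
          · exact hr s h.le
        rw [this]; simp
  calc ‖∑ n ∈ Icc 1 x, c n * ∫ s : ℝ, ((Real.exp (s / 2) * ρ s : ℝ) : ℂ) * κ (Real.exp s + n) * e (-(ξ * s))‖
      ≤ ∑ n ∈ Icc 1 x, S * ∫ s in Real.log x0..Real.log x1, B * (Real.exp (s / 2) * (1 / (Real.exp s + n) ^ 2)) := by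
        refine (norm_sum_le _ _).trans (Finset.sum_le_sum fun n hn => ?_)
        rw [norm_mul]
        exact mul_le_mul (hc n) (hb n hn) (norm_nonneg _) hS
    _ = S * ∫ s in Real.log x0..Real.log x1, ∑ n ∈ Icc 1 x, B * (Real.exp (s / 2) * (1 / (Real.exp s + n) ^ 2)) := by
        rw [← Finset.mul_sum, intervalIntegral.integral_finsetSum]
        intro n _
        exact (hcont n).intervalIntegrable _ _
    _ ≤ S * ∫ s in Real.log x0..Real.log x1, B * Real.exp (-s / 2) := by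
        apply mul_le_mul_of_nonneg_left _ hS
        apply intervalIntegral.integral_mono_on hll
        · exact (continuous_finsetSum _ fun n _ => hcont n).intervalIntegrable _ _
        · exact (continuous_const.mul (by fun_prop)).intervalIntegrable _ _
        · intro s _
          rw [← Finset.mul_sum, ← Finset.mul_sum]
          apply mul_le_mul_of_nonneg_left _ hB
          calc Real.exp (s / 2) * ∑ n ∈ Icc 1 x, 1 / (Real.exp s + n) ^ 2
              ≤ Real.exp (s / 2) * (1 / Real.exp s) :=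
                mul_le_mul_of_nonneg_left (inv_sum _ (Real.exp_pos s) x) (Real.exp_pos _).le
            _ = Real.exp (-s / 2) := by
                rw [one_div, ← Real.exp_neg, ← Real.exp_add]; congr 1; ring
    _ ≤ S * (B * (2 * Real.exp (-(1 / 2) * Real.log x0))) := by
        apply mul_le_mul_of_nonneg_left _ hS
        rw [intervalIntegral.integral_const_mul]
        apply mul_le_mul_of_nonneg_left _ hB
        have hder : ∀ s ∈ Set.uIcc (Real.log x0) (Real.log x1),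
            HasDerivAt (fun s : ℝ => -2 * Real.exp (-s / 2)) (Real.exp (-s / 2)) s := by
          intro s _
          have h2 := (((hasDerivAt_id s).neg.div_const 2).exp).const_mul (-2 : ℝ)
          exact h2.congr_deriv (by simp; ring)
        rw [intervalIntegral.integral_eq_sub_of_hasDerivAt hder
          ((by fun_prop : Continuous fun s : ℝ => Real.exp (-s / 2)).intervalIntegrable _ _)]
        have h3 := Real.exp_pos (-Real.log x1 / 2)
        have h4 : -(1 / 2) * Real.log x0 = -Real.log x0 / 2 := by ring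
        rw [h4]
        linarith

lemma harm (x : ℕ) : ∑ n ∈ Ico 1 x, 1 / (n : ℝ) ≤ 1 + Real.log x := by
  have h1 : ∑ n ∈ Ico 1 x, 1 / (n : ℝ) ≤ ∑ n ∈ Icc 1 x, 1 / (n : ℝ) := by
    apply Finset.sum_le_sum_of_subset_of_nonneg
    · intro n hn
      rw [Finset.mem_Ico] at hn
      rw [Finset.mem_Icc]
      omega
    · intro n _ _
      positivity
  have h2 : ∑ n ∈ Icc 1 x, 1 / (n : ℝ) = (harmonic x : ℝ) := by
    rw [harmonic_eq_sum_Icc]
    push_cast
    simp
  rw [h2] at h1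
  exact h1.trans (harmonic_le_one_add_log x)

lemma nt_eq (ξ : ℝ) {n : ℕ} (hn : 1 ≤ n) : nt (2 * Real.pi * ξ) n = e (-(ξ * Real.log n)) := by
  have hn0 : (n : ℂ) ≠ 0 := by exact_mod_cast (by omega : n ≠ 0)
  unfold nt Pool.Agent.H469R2.NK.e
  rw [Complex.cpow_def_of_ne_zero hn0, ← Complex.natCast_log]
  congr 1
  push_cast
  ring

/-- the terms of the same sign -/
lemma pos_part {x0 x1 ξ a K R Cr S1 : ℝ} {ρ : ℝ → ℝ} {κ : ℝ → ℂ} (h0 : 1 ≤ x0) (h01 : x0 ≤ x1)
    (hd : Differentiable ℝ ρ) (hCr : ∀ s, |deriv ρ s| ≤ Cr)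
    (h1 : ∀ s, 0 ≤ ρ s ∧ ρ s ≤ 1) (hl : ∀ s, s ≤ Real.log x0 → ρ s = 0)
    (hr : ∀ s, Real.log x1 ≤ s → ρ s = 0) (ha : 1 ≤ a) (hK : 0 ≤ K) (hκc : Continuous κ)
    (hκ : ∀ t, |t| ≤ R → ‖κ t‖ ≤ K * (a / (a ^ 2 + t ^ 2))) (x : ℕ) (hx : 1 ≤ x) (hxR : x + x1 ≤ R)
    (c : ℕ → ℂ) (hc : ∀ y ≤ x, ‖∑ n ∈ Icc 1 y, c n * nt (2 * Real.pi * ξ) n‖ ≤ S1) :
    ‖∑ n ∈ Icc 1 x, c n * ∫ s : ℝ, ((Real.exp (s / 2) * ρ s : ℝ) : ℂ) * κ (Real.exp s - n) * e (-(ξ * s))‖ ≤
      S1 * (Real.exp (-(1 / 2) * Real.log x0) * (K * Real.pi) +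
        (x * ((1 / 2 + Cr) * Real.exp (-(3 / 2) * Real.log x0) * K * Real.pi) +
        2 * Real.pi * |ξ| * Real.exp (-(3 / 2) * Real.log x0) * K * (2 * a * Real.log (1 + R)) *
          (1 + Real.log x))) := by
  have hS : 0 ≤ S1 := (norm_nonneg _).trans (hc 0 (Nat.zero_le _))
  have hCr0 : 0 ≤ Cr := (abs_nonneg _).trans (hCr 0)
  have hR : 0 ≤ R := by
    have : (0:ℝ) ≤ x := by positivity
    linarith
  have hlR : 0 ≤ Real.log (1 + R) := Real.log_nonneg (by linarith)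
  have ha0 : 0 < a := by linarith
  have e1 : ∑ n ∈ Icc 1 x, c n * ∫ s : ℝ, ((Real.exp (s / 2) * ρ s : ℝ) : ℂ) * κ (Real.exp s - n) * e (-(ξ * s)) =
      ∑ n ∈ Icc 1 x, (c n * nt (2 * Real.pi * ξ) n) * w x0 ξ ρ κ (n : ℝ) := by
    apply Finset.sum_congr rfl
    intro n hn
    rw [Finset.mem_Icc] at hn
    rw [J_eq h0 h01 hd.continuous hl hr hκc, nt_eq ξ hn.1]
    ring
  rw [e1]
  refine (abel (fun n => c n * nt (2 * Real.pi * ξ) n) (fun n : ℕ => w x0 ξ ρ κ (n : ℝ)) S1 x hx hc).trans ?_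
  apply mul_le_mul_of_nonneg_left _ hS
  have hx1 : (1 : ℝ) ≤ x := by exact_mod_cast hx
  refine add_le_add (w_bound h0 h01 h1 hl hr ha0 hK hκ hx1 hxR) ?_
  have h2 : ∀ n ∈ Ico 1 x, ‖w x0 ξ ρ κ ((n + 1 : ℕ) : ℝ) - w x0 ξ ρ κ (n : ℝ)‖ ≤
      (1 / 2 + Cr) * Real.exp (-(3 / 2) * Real.log x0) * K * Real.pi +
      2 * Real.pi * |ξ| * Real.exp (-(3 / 2) * Real.log x0) * K * (2 * a * Real.log (1 + R)) * (1 / (n : ℝ)) := by
    intro n hn
    rw [Finset.mem_Ico] at hn
    push_cast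
    have hn1 : (1:ℝ) ≤ n := by exact_mod_cast hn.1
    have hnx : (n:ℝ) + 1 ≤ x := by exact_mod_cast hn.2
    refine (w_diff h0 h01 hd hCr h1 hl hr ha hK hκc hκ hn1 (by linarith)).trans (le_of_eq ?_)
    ring
  refine (Finset.sum_le_sum h2).trans ?_
  have h3 : ((x - 1 : ℕ) : ℝ) ≤ x := by exact_mod_cast Nat.sub_le _ _
  have h4 := harm x
  rw [Finset.sum_add_distrib]
  refine add_le_add ?_ ?_
  · rw [Finset.sum_const, Nat.card_Ico, nsmul_eq_mul]
    exact mul_le_mul_of_nonneg_right h3 (by positivity)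
  · rw [← Finset.mul_sum]
    exact mul_le_mul_of_nonneg_left h4 (by positivity)

theorem t (hV : S_VPB) : S_MEL := by
  intro Cr
  obtain ⟨C1, hC1, hV⟩ := hV
  have hpi : 3 < Real.pi := Real.pi_gt_three
  refine ⟨8 * Real.pi * C1 * (1 + |Cr|), ?_, ?_⟩
  · have : 1 ≤ 1 + |Cr| := by linarith [abs_nonneg Cr]
    have h8 : 1 ≤ 8 * Real.pi * C1 := by nlinarith
    nlinarith
  intro R M x q θ S S1 Ξ x0 x1 σ b u ρ hM hMR hx h0 h01 hxR hθ hσ hu hu0 hΞ hS1 hρ h1 hCr hl hr ξ hξ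
  have hMpos : (0:ℝ) < M := by exact_mod_cast hM
  have hMR' : 2 * (M : ℝ) ≤ R := by exact_mod_cast hMR
  have hR0 : (0:ℝ) < R := by linarith
  have hN : (0:ℝ) < 2 * (R:ℝ) + 1 := by linarith
  set a : ℝ := (2 * (R:ℝ) + 1) / M with ha
  have ha1 : 1 ≤ a := by rw [ha, le_div_iff₀ hMpos]; linarith
  have ha0 : 0 < a := by linarith
  have hd : Differentiable ℝ ρ := hρ.differentiable (by simp)
  have hS : 0 ≤ S := (abs_nonneg _).trans (hu 0)
  have hCr0 : 0 ≤ Cr := (abs_nonneg _).trans (hCr 0)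
  have hx0 : 0 < x0 := by linarith
  have hx1 : 0 < x1 := by linarith
  have hxr : (1:ℝ) ≤ x := by exact_mod_cast hx
  -- the kernel
  set κ0 : ℝ → ℂ := fun t => e (θ * t) * vp R M t with hκ0
  set κ : ℝ → ℂ := fun t => κ0 (σ * t) with hκ
  have hvpd : Differentiable ℝ (vp R M) := (hV R M 0 hM hMR).2.1
  have hκ0c : Continuous κ0 := (e_cont.comp (continuous_const.mul continuous_id)).mul hvpd.continuous
  have hκc : Continuous κ := hκ0c.comp (continuous_const.mul continuous_id)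
  have hσa : ∀ t : ℝ, |σ * t| = |t| := by
    intro t
    rcases hσ with h | h
    · rw [h, one_mul]
    · rw [h, neg_one_mul, abs_neg]
  have hkt : ∀ t : ℝ, |t| ≤ R → ‖κ t‖ ≤ C1 / a ∧ ‖κ t‖ * t ^ 2 ≤ C1 * a := by
    intro t ht
    have h2 := (hV R M (σ * t) hM hMR).2.2 (by rw [hσa]; linarith)
    have h3 : ‖κ t‖ = ‖vp R M (σ * t)‖ := by
      simp only [hκ, hκ0, norm_mul, norm_e, one_mul]
    have h4 : (σ * t) ^ 2 = t ^ 2 := by
      rw [← sq_abs (σ * t), hσa, sq_abs]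
    rw [h4] at h2
    rw [h3]
    refine ⟨h2.1.trans (le_of_eq ?_), h2.2.1⟩
    rw [ha]; field_simp
  have hk1 : ∀ t : ℝ, |t| ≤ R → ‖κ t‖ ≤ 2 * C1 * (a / (a ^ 2 + t ^ 2)) := by
    intro t ht
    obtain ⟨h2, h3⟩ := hkt t ht
    rw [← mul_div_assoc, le_div_iff₀ (by positivity), mul_add]
    have h4 : ‖κ t‖ * a ^ 2 ≤ C1 * a := by
      calc ‖κ t‖ * a ^ 2 ≤ C1 / a * a ^ 2 := mul_le_mul_of_nonneg_right h2 (by positivity)
        _ = C1 * a := by field_simp
    linarith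
  -- the expansion
  obtain ⟨σz, hσz, hσz'⟩ : ∃ σz : ℤ, (σz = 1 ∨ σz = -1) ∧ σ = (σz : ℝ) := by
    rcases hσ with h | h
    · exact ⟨1, Or.inl rfl, by simp [h]⟩
    · exact ⟨-1, Or.inr rfl, by simp [h]⟩
  set cm : ℤ → ℂ := fun m => (u m.natAbs : ℂ) * e (-((b : ℝ) * m / q)) with hcm
  set T : ℤ → ℝ → ℂ := fun m s => ((Real.exp (s / 2) * ρ s : ℝ) : ℂ) * κ0 (σ * Real.exp s - m) * e (-(ξ * s)) with hT
  have hTi : ∀ m : ℤ, Integrable (T m) := by
    intro m
    apply Continuous.integrable_of_hasCompactSupport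
    · have c1 : Continuous fun s : ℝ => ((Real.exp (s / 2) * ρ s : ℝ) : ℂ) :=
        Complex.continuous_ofReal.comp ((by fun_prop : Continuous fun s : ℝ => Real.exp (s / 2)).mul hd.continuous)
      have c2 : Continuous fun s : ℝ => κ0 (σ * Real.exp s - m) := hκ0c.comp (by fun_prop)
      have c3 : Continuous fun s : ℝ => e (-(ξ * s)) := e_cont.comp (by fun_prop)
      exact (c1.mul c2).mul c3
    · refine HasCompactSupport.intro (isCompact_Icc (a := Real.log x0) (b := Real.log x1)) ?_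
      intro s hs
      rw [Set.mem_Icc, not_and_or, not_le, not_le] at hs
      have : ρ s = 0 := by
        rcases hs with h | h
        · exact hl s h.le
        · exact hr s h.le
      simp only [hT, this]; simp
  have hexp : ∫ s : ℝ, ((Real.exp (s / 2) * ρ s : ℝ) : ℂ) * gq R M θ q b x u (σ * Real.exp s) * e (-(ξ * s)) =
      ∑ m ∈ Icc (-(x : ℤ)) x, cm m * ∫ s, T m s := by
    have e1 : ∀ s : ℝ, ((Real.exp (s / 2) * ρ s : ℝ) : ℂ) * gq R M θ q b x u (σ * Real.exp s) * e (-(ξ * s)) =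
        ∑ m ∈ Icc (-(x : ℤ)) x, cm m * T m s := by
      intro s
      unfold gq
      rw [Finset.mul_sum, Finset.sum_mul]
      apply Finset.sum_congr rfl
      intro m _
      simp only [hcm, hT, hκ0]
      ring
    simp_rw [e1]
    rw [integral_finsetSum]
    · apply Finset.sum_congr rfl
      intro m _
      rw [integral_const_mul]
    · intro m _
      exact (hTi m).const_mul _
  rw [hexp, sum_split' _ x σz hσz]
  have hz : cm 0 * ∫ s, T 0 s = 0 := by simp [hcm, hu0]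
  rw [hz, zero_add]
  have hnat : ∀ n : ℕ, (σz * (n : ℤ)).natAbs = n := by
    intro n
    rcases hσz with h | h <;> simp [h]
  have hpos : ∑ n ∈ Icc 1 x, cm (σz * (n : ℤ)) * ∫ s, T (σz * (n : ℤ)) s =
      ∑ n ∈ Icc 1 x, ((u n : ℂ) * e (-(σ * b * n / q))) *
        ∫ s : ℝ, ((Real.exp (s / 2) * ρ s : ℝ) : ℂ) * κ (Real.exp s - n) * e (-(ξ * s)) := by
    apply Finset.sum_congr rfl
    intro n _
    simp only [hcm, hT, hκ, hnat]
    congr 1
    · congr 2
      rw [hσz']; push_cast; ring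
    · congr 1
      ext s
      congr 3
      rw [hσz']; push_cast; ring
  have hneg : ∑ n ∈ Icc 1 x, cm (-(σz * (n : ℤ))) * ∫ s, T (-(σz * (n : ℤ))) s =
      ∑ n ∈ Icc 1 x, (cm (-(σz * (n : ℤ)))) *
        ∫ s : ℝ, ((Real.exp (s / 2) * ρ s : ℝ) : ℂ) * κ (Real.exp s + n) * e (-(ξ * s)) := by
    apply Finset.sum_congr rfl
    intro n _
    congr 1
    simp only [hT, hκ]
    congr 1
    ext s
    congr 3
    rw [hσz']; push_cast; ring
  rw [hpos, hneg]
  have hP := pos_part (ξ := ξ) (S1 := S1) h0 h01 hd hCr h1 hl hr ha1 (by positivity : 0 ≤ 2 * C1) hκc hk1 x hx hxR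
    (fun n => (u n : ℂ) * e (-(σ * b * n / q))) (by
      intro y hy
      apply hS1 (2 * Real.pi * ξ) _ y hy
      rw [abs_mul, abs_of_pos (by positivity : (0:ℝ) < 2 * Real.pi)]
      exact mul_le_mul_of_nonneg_left hξ (by positivity))
  have hQ := neg_part (ξ := ξ) h0 h01 h1 hl hr (by positivity : 0 ≤ C1 * a) (fun t ht => (hkt t ht).2) hS x hxR
    (fun n => cm (-(σz * (n : ℤ)))) (by
      intro n
      simp only [hcm, norm_mul, norm_e, mul_one, Complex.norm_real, Real.norm_eq_abs]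
      exact hu _)
  refine (norm_add_le _ _).trans ((add_le_add hP hQ).trans ?_)
  have hS10 : 0 ≤ S1 := (norm_nonneg _).trans (hS1 0 (by simp; positivity) 0 (Nat.zero_le _))
  have eE3 : x0 ^ (-(3 / 2) : ℝ) = Real.exp (-(3 / 2) * Real.log x0) := by
    rw [Real.rpow_def_of_pos hx0, mul_comm]
  have eE1 : x0 ^ (-(1 / 2) : ℝ) = Real.exp (-(1 / 2) * Real.log x0) := by
    rw [Real.rpow_def_of_pos hx0, mul_comm]
  rw [eE3, eE1]
  set E3 := Real.exp (-(3 / 2) * Real.log x0) with hE3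
  have eE13 : Real.exp (-(1 / 2) * Real.log x0) = x0 * E3 := by
    rw [hE3]
    nth_rewrite 2 [← Real.exp_log hx0]
    rw [← Real.exp_add]; congr 1; ring
  rw [eE13]
  have hE3p : 0 < E3 := Real.exp_pos _
  set lN := Real.log (2 * (R:ℝ) + 1) with hlN
  have hlN0 : 0 ≤ lN := Real.log_nonneg (by linarith)
  have hl1 : Real.log (1 + R) ≤ 1 + lN := by
    have : Real.log (1 + R) ≤ lN := Real.log_le_log (by linarith) (by linarith)
    linarith
  have hl2 : 1 + Real.log x ≤ 1 + lN := by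
    have : Real.log x ≤ lN := Real.log_le_log (by linarith) (by linarith)
    linarith
  have hl1' : 0 ≤ Real.log (1 + (R:ℝ)) := Real.log_nonneg (by linarith)
  have hl2' : 0 ≤ 1 + Real.log x := by
    have := Real.log_nonneg hxr
    linarith
  rw [abs_of_nonneg hCr0]
  set Cc := 8 * Real.pi * C1 * (1 + Cr) with hCc
  have hC1p : 0 < C1 := by linarith
  have q1 : 2 * C1 * Real.pi ≤ Cc := by
    rw [hCc]
    nlinarith [mul_pos Real.pi_pos hC1p, mul_nonneg (mul_pos Real.pi_pos hC1p).le hCr0]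
  have q2 : (1 / 2 + Cr) * (2 * C1) * Real.pi ≤ Cc := by
    rw [hCc]
    nlinarith [mul_pos Real.pi_pos hC1p, mul_nonneg (mul_pos Real.pi_pos hC1p).le hCr0]
  have q3 : 2 * Real.pi * (2 * C1) * 2 ≤ Cc := by
    rw [hCc]
    nlinarith [mul_pos Real.pi_pos hC1p, mul_nonneg (mul_pos Real.pi_pos hC1p).le hCr0]
  have q4 : 2 * C1 ≤ Cc := by nlinarith
  have hCcp : 0 < Cc := by linarith [mul_pos (mul_pos two_pos hC1p) Real.pi_pos]
  have r1 : x0 * E3 * (2 * C1 * Real.pi) ≤ Cc * (E3 * x0) := by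
    have : 0 ≤ x0 * E3 := by positivity
    nlinarith
  have r2 : x * ((1 / 2 + Cr) * E3 * (2 * C1) * Real.pi) ≤ Cc * (E3 * x) := by
    have : 0 ≤ x * E3 := by positivity
    nlinarith
  have r3 : 2 * Real.pi * |ξ| * E3 * (2 * C1) * (2 * a * Real.log (1 + R)) * (1 + Real.log x) ≤
      Cc * (E3 * (Ξ * a * (1 + lN) ^ 2)) := by
    calc 2 * Real.pi * |ξ| * E3 * (2 * C1) * (2 * a * Real.log (1 + R)) * (1 + Real.log x)
        ≤ 2 * Real.pi * Ξ * E3 * (2 * C1) * (2 * a * (1 + lN)) * (1 + lN) := by gcongr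
      _ = (2 * Real.pi * (2 * C1) * 2) * (E3 * (Ξ * a * (1 + lN) ^ 2)) := by ring
      _ ≤ _ := mul_le_mul_of_nonneg_right q3 (by positivity)
  have r4 : S * (C1 * a * (2 * (x0 * E3))) ≤ Cc * (S * a * (x0 * E3)) := by
    calc S * (C1 * a * (2 * (x0 * E3))) = (2 * C1) * (S * a * (x0 * E3)) := by ring
      _ ≤ _ := mul_le_mul_of_nonneg_right q4 (by positivity)
  calc S1 * (x0 * E3 * (2 * C1 * Real.pi) + (x * ((1 / 2 + Cr) * E3 * (2 * C1) * Real.pi) +
        2 * Real.pi * |ξ| * E3 * (2 * C1) * (2 * a * Real.log (1 + R)) * (1 + Real.log x))) +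
        S * (C1 * a * (2 * (x0 * E3)))
      ≤ S1 * (Cc * (E3 * x0) + (Cc * (E3 * x) + Cc * (E3 * (Ξ * a * (1 + lN) ^ 2)))) +
        Cc * (S * a * (x0 * E3)) := by gcongr
    _ = _ := by ring

end Pool.Agent.H13K.MEL
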