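import Pool.Agent.H13K.StmK
import Pool.Agent.H300R2.FB.F3

/-! **MIN**: the minor arcs in `L^1` over the pairs (project BH, helper13). -/

set_option autoImplicit false

namespace Pool.Agent.H13K.MIN

open Finset
open Pool.Agent.H469R2.NK (e)
open Pool.Agent.H442R2.EHI (nint)
open Pool.Agent.H300R2.FB (fibre_full)

theorem nint_neg (x : ℝ) : nint (-x) = nint x := by
  have h : ∀ x : ℝ, nint (-x) ≤ nint x := by
    intro x
    refine (Pool.Agent.H300R2.FB.F3.nint_le (-x) (-round x)).trans ?_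
    unfold nint
    rw [← abs_neg]
    apply le_of_eq
    congr 1
    push_cast
    ring
  refine le_antisymm (h x) ?_
  have := h (-x)
  rwa [neg_neg] at this

/-- the frequency in position `l` -/
def fr (k k' h h' l : ℕ) : ℤ := (h : ℤ) * (k : ℤ) ^ l + (h' : ℤ) * (k' : ℤ) ^ l

open Classical in
/-- indicator of the good quadruples -/
noncomputable def gd (d R M k k' h h' : ℕ) : ℝ :=
  if ∀ l : Fin (d + 1), wh R M (fr k k' h h' l) ≠ 0 then 1 else 0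

theorem gd_sq (d R M k k' h h' : ℕ) : gd d R M k k' h h' ^ 2 = gd d R M k k' h h' := by
  unfold gd; split_ifs <;> norm_num

theorem gd_nonneg (d R M k k' h h' : ℕ) : 0 ≤ gd d R M k k' h h' := by
  unfold gd; split_ifs <;> norm_num

theorem norm_ker (hW : S_WTF) (hE : S_EXP) (d R M : ℕ) (c c' : ℕ → ℂ) (k k' : ℕ) (hM : 1 ≤ M)
    (hMR : M ≤ 2 * R + 1) :
    ‖ker d R M (tr R c) (tr R c') k k'‖ ≤ (2 * (2 * R + 1) / M) ^ (d + 1) *
      ∑ h ∈ range (2 * R + 1), ∑ h' ∈ range (2 * R + 1), ‖c h‖ * ‖c' h'‖ * gd d R M k k' h h' := by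
  rw [hE d R M c c' k k' hMR, mul_sum]
  refine (norm_sum_le _ _).trans (sum_le_sum fun h _ => ?_)
  rw [mul_sum]
  refine (norm_sum_le _ _).trans (sum_le_sum fun h' _ => ?_)
  rw [norm_mul, norm_mul, Complex.norm_real, Real.norm_eq_abs]
  have hw := hW R M hM hMR
  obtain ⟨-, -, -, -, -, -, -, -, hw9, -⟩ := hw
  have h1 : |∏ l : Fin (d + 1), wh R M ((h : ℤ) * (k : ℤ) ^ (l : ℕ) + (h' : ℤ) * (k' : ℤ) ^ (l : ℕ))| ≤
      (2 * (2 * R + 1) / M) ^ (d + 1) * gd d R M k k' h h' := by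
    unfold gd
    split_ifs with hg
    · rw [mul_one, abs_of_nonneg (prod_nonneg fun l _ => (hw9 _).1)]
      calc ∏ l : Fin (d + 1), wh R M ((h : ℤ) * (k : ℤ) ^ (l : ℕ) + (h' : ℤ) * (k' : ℤ) ^ (l : ℕ))
          ≤ ∏ _l : Fin (d + 1), (2 * (2 * R + 1) / M : ℝ) :=
            prod_le_prod (fun l _ => (hw9 _).1) (fun l _ => (hw9 _).2)
        _ = _ := by rw [prod_const, card_univ, Fintype.card_fin]
    · rw [mul_zero]
      push Not at hg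
      obtain ⟨l, hl⟩ := hg
      rw [prod_eq_zero (mem_univ l) hl, abs_zero]
  calc ‖c h‖ * ‖c' h'‖ * |∏ l : Fin (d + 1), wh R M ((h : ℤ) * (k : ℤ) ^ (l : ℕ) + (h' : ℤ) * (k' : ℤ) ^ (l : ℕ))|
      ≤ ‖c h‖ * ‖c' h'‖ * ((2 * (2 * R + 1) / M) ^ (d + 1) * gd d R M k k' h h') := by gcongr
    _ = _ := by ring

/-- a good quadruple has all frequencies close to integers -/
theorem gd_fr (hW : S_WTF) (d R M A k k' h h' : ℕ) (hM : 1 ≤ M) (hMR : M ≤ 2 * R + 1)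
    (hA1 : 1 ≤ A) (hA : 2 * A * M ≤ 2 * R + 1)
    (hg : ∀ l : Fin (d + 1), wh R M (fr k k' h h' l) ≠ 0) (l : ℕ) (hl : l ≤ d) :
    nint ((fr k k' h h' l : ℝ) / (2 * R + 1)) ≤ 1 / (2 * (A : ℝ)) := by
  obtain ⟨-, -, -, -, -, -, -, -, -, hw10⟩ := hW R M hM hMR
  have h1 := hw10 _ (hg ⟨l, by omega⟩)
  refine h1.le.trans ?_
  have hN : (0 : ℝ) < 2 * R + 1 := by positivity
  have hA0 : (0 : ℝ) < A := by exact_mod_cast hA1
  rw [div_le_div_iff₀ hN (by positivity)]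
  have h2 : (2 * (A : ℝ) * M) ≤ 2 * R + 1 := by exact_mod_cast hA
  linarith

theorem fibre1 (hW : S_WTF) (d R M A K1 K k k' h : ℕ) (hd : 1 ≤ d) (hM : 1 ≤ M) (hMR : M ≤ 2 * R + 1)
    (hK1 : 1 ≤ K1) (hKA : 4 * K ≤ A) (hA1 : 1 ≤ A) (hA : 2 * A * M ≤ 2 * R + 1) (hk1 : K1 ≤ k') (hk2 : k' ≤ K) :
    ∑ h' ∈ range (2 * R + 1), gd d R M k k' h h' ≤ 4 * (2 * R + 1) / (A * (K1 : ℝ) ^ d) + 1 := by
  classical
  have h1 := fibre_full d hd (2 * R + 1) A A K K1 k' (by omega) hA1 hK1 hk1 hk2 hKA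
    (fun l => -((h : ℝ) * (k : ℝ) ^ l / (2 * R + 1)))
  push_cast at h1
  refine le_trans ?_ h1
  unfold gd
  rw [← sum_filter, sum_const, nsmul_eq_mul, mul_one]
  refine Nat.cast_le.2 (card_le_card fun h' hh' => ?_)
  rw [mem_filter] at hh' ⊢
  refine ⟨hh'.1, ?_⟩
  have key : ∀ l ≤ d, nint (-((h : ℝ) * (k : ℝ) ^ l / (2 * R + 1)) - (k' : ℝ) ^ l * h' / (2 * R + 1)) ≤
      1 / (2 * (A : ℝ)) := by
    intro l hl
    have h2 := gd_fr hW d R M A k k' h h' hM hMR hA1 hA hh'.2 l hl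
    have e1 : -((h : ℝ) * (k : ℝ) ^ l / (2 * R + 1)) - (k' : ℝ) ^ l * h' / (2 * R + 1) =
        -((fr k k' h h' l : ℝ) / (2 * R + 1)) := by
      unfold fr
      push_cast
      ring
    rw [e1, nint_neg]
    exact h2
  exact ⟨fun l hl => key l hl.le, key d le_rfl⟩

theorem fibre2 (hW : S_WTF) (d R M A K1 K k k' h' : ℕ) (hd : 1 ≤ d) (hM : 1 ≤ M) (hMR : M ≤ 2 * R + 1)
    (hK1 : 1 ≤ K1) (hKA : 4 * K ≤ A) (hA1 : 1 ≤ A) (hA : 2 * A * M ≤ 2 * R + 1) (hk1 : K1 ≤ k) (hk2 : k ≤ K) :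
    ∑ h ∈ range (2 * R + 1), gd d R M k k' h h' ≤ 4 * (2 * R + 1) / (A * (K1 : ℝ) ^ d) + 1 := by
  classical
  have h1 := fibre_full d hd (2 * R + 1) A A K K1 k (by omega) hA1 hK1 hk1 hk2 hKA
    (fun l => -((h' : ℝ) * (k' : ℝ) ^ l / (2 * R + 1)))
  push_cast at h1
  refine le_trans ?_ h1
  unfold gd
  rw [← sum_filter, sum_const, nsmul_eq_mul, mul_one]
  refine Nat.cast_le.2 (card_le_card fun h hh => ?_)
  rw [mem_filter] at hh ⊢
  refine ⟨hh.1, ?_⟩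
  have key : ∀ l ≤ d, nint (-((h' : ℝ) * (k' : ℝ) ^ l / (2 * R + 1)) - (k : ℝ) ^ l * h / (2 * R + 1)) ≤
      1 / (2 * (A : ℝ)) := by
    intro l hl
    have h2 := gd_fr hW d R M A k k' h h' hM hMR hA1 hA hh.2 l hl
    have e1 : -((h' : ℝ) * (k' : ℝ) ^ l / (2 * R + 1)) - (k : ℝ) ^ l * h / (2 * R + 1) =
        -((fr k k' h h' l : ℝ) / (2 * R + 1)) := by
      unfold fr
      push_cast
      ring
    rw [e1, nint_neg]
    exact h2
  exact ⟨fun l hl => key l hl.le, key d le_rfl⟩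

theorem t : S_WTF → S_EXP → S_MIN := by
  intro hW hE
  unfold S_MIN
  intro d R M A K1 K T c c' Rc hd hM hK1 hKA hA hT hRc hcount
  classical
  rcases T.eq_empty_or_nonempty with hT0 | ⟨k0, hk0⟩
  · rw [hT0]; simp
  have hk0' := mem_Icc.1 (hT hk0)
  have hA1 : 1 ≤ A := by omega
  have hMR : M ≤ 2 * R + 1 := by nlinarith
  set F : ℝ := 4 * (2 * R + 1) / (A * (K1 : ℝ) ^ d) + 1 with hF
  have hF0 : 0 ≤ F := by positivity
  set W : ℝ := (2 * (2 * R + 1) / M) ^ (d + 1) with hWd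
  have hW0 : 0 ≤ W := by positivity
  set N := 2 * R + 1 with hN
  -- first moment
  have m1 : ∀ h ∈ range N, ‖c h‖ ^ 2 * ∑ k ∈ T, ∑ k' ∈ T, ∑ h' ∈ range N, gd d R M k k' h h' ≤
      ‖c h‖ ^ 2 * (Rc * F) := by
    intro h hh
    by_cases hc : c h = 0
    · rw [hc]; simp
    apply mul_le_mul_of_nonneg_left _ (by positivity)
    rw [← sum_product']
    have h1 : ∀ kk ∈ T ×ˢ T, ∑ h' ∈ range N, gd d R M kk.1 kk.2 h h' ≤
        if (∃ β : ℝ,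
          (∀ l < d, nint ((h : ℝ) / (2 * R + 1) * (kk.1 : ℝ) ^ l - β * (kk.2 : ℝ) ^ l) ≤ 1 / (2 * (A : ℝ))) ∧
          nint ((h : ℝ) / (2 * R + 1) * (kk.1 : ℝ) ^ d - β * (kk.2 : ℝ) ^ d) ≤ 1 / (2 * (A : ℝ))) then F else 0 := by
      intro kk hkk
      rw [mem_product] at hkk
      have hk' := mem_Icc.1 (hT hkk.2)
      split_ifs with hex
      · exact fibre1 hW d R M A K1 K kk.1 kk.2 h hd hM hMR hK1 hKA hA1 hA hk'.1 hk'.2
      · apply le_of_eq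
        apply sum_eq_zero
        intro h' _
        unfold gd
        rw [if_neg]
        intro hg
        apply hex
        refine ⟨-((h' : ℝ) / (2 * R + 1)), ?_⟩
        have key : ∀ l ≤ d, nint ((h : ℝ) / (2 * R + 1) * (kk.1 : ℝ) ^ l -
            -((h' : ℝ) / (2 * R + 1)) * (kk.2 : ℝ) ^ l) ≤ 1 / (2 * (A : ℝ)) := by
          intro l hl
          have h2 := gd_fr hW d R M A kk.1 kk.2 h h' hM hMR hA1 hA hg l hl
          have e1 : (h : ℝ) / (2 * R + 1) * (kk.1 : ℝ) ^ l - -((h' : ℝ) / (2 * R + 1)) * (kk.2 : ℝ) ^ l =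
              (fr kk.1 kk.2 h h' l : ℝ) / (2 * R + 1) := by
            unfold fr
            push_cast
            ring
          rw [e1]
          exact h2
        exact ⟨fun l hl => key l hl.le, key d le_rfl⟩
    refine (sum_le_sum h1).trans ?_
    rw [← sum_filter, sum_const, nsmul_eq_mul]
    apply mul_le_mul_of_nonneg_right _ hF0
    have := hcount h hh hc
    convert this
  have s1 : ∑ k ∈ T, ∑ k' ∈ T, ∑ h ∈ range N, ∑ h' ∈ range N, ‖c h‖ ^ 2 * gd d R M k k' h h' ≤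
      Rc * F * ∑ h ∈ range N, ‖c h‖ ^ 2 := by
    have e1 : ∑ k ∈ T, ∑ k' ∈ T, ∑ h ∈ range N, ∑ h' ∈ range N, ‖c h‖ ^ 2 * gd d R M k k' h h' =
        ∑ h ∈ range N, ‖c h‖ ^ 2 * ∑ k ∈ T, ∑ k' ∈ T, ∑ h' ∈ range N, gd d R M k k' h h' := by
      simp only [mul_sum]
      have e2 : ∀ k ∈ T, ∑ k' ∈ T, ∑ h ∈ range N, ∑ h' ∈ range N, ‖c h‖ ^ 2 * gd d R M k k' h h' =
          ∑ h ∈ range N, ∑ k' ∈ T, ∑ h' ∈ range N, ‖c h‖ ^ 2 * gd d R M k k' h h' := fun k _ => sum_comm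
      rw [sum_congr rfl e2, sum_comm]
    rw [e1, mul_sum]
    refine (sum_le_sum m1).trans (le_of_eq ?_)
    apply sum_congr rfl
    intro h _
    ring
  have s2 : ∑ k ∈ T, ∑ k' ∈ T, ∑ h ∈ range N, ∑ h' ∈ range N, ‖c' h'‖ ^ 2 * gd d R M k k' h h' ≤
      (T.card : ℝ) ^ 2 * F * ∑ h ∈ range N, ‖c' h‖ ^ 2 := by
    have e1 : ∀ k ∈ T, ∀ k' ∈ T, ∑ h ∈ range N, ∑ h' ∈ range N, ‖c' h'‖ ^ 2 * gd d R M k k' h h' ≤
        F * ∑ h ∈ range N, ‖c' h‖ ^ 2 := by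
      intro k hk k' _
      have hk1 := mem_Icc.1 (hT hk)
      rw [sum_comm, mul_sum]
      apply sum_le_sum
      intro h' _
      rw [← mul_sum, mul_comm]
      apply mul_le_mul_of_nonneg_right _ (by positivity)
      exact fibre2 hW d R M A K1 K k k' h' hd hM hMR hK1 hKA hA1 hA hk1.1 hk1.2
    refine (sum_le_sum fun k hk => sum_le_sum fun k' hk' => e1 k hk k' hk').trans (le_of_eq ?_)
    simp only [sum_const, nsmul_eq_mul]
    ring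
  -- Cauchy-Schwarz
  have cs1 : ∑ k ∈ T, ∑ k' ∈ T, ∑ h ∈ range N, ∑ h' ∈ range N, ‖c h‖ * ‖c' h'‖ * gd d R M k k' h h' ≤
      √(Rc * F * ∑ h ∈ range N, ‖c h‖ ^ 2) * √((T.card : ℝ) ^ 2 * F * ∑ h ∈ range N, ‖c' h‖ ^ 2) := by
    have h1 := Real.sum_mul_le_sqrt_mul_sqrt ((T ×ˢ T) ×ˢ (range N ×ˢ range N))
      (fun q : (ℕ × ℕ) × (ℕ × ℕ) => ‖c q.2.1‖ * gd d R M q.1.1 q.1.2 q.2.1 q.2.2)
      (fun q : (ℕ × ℕ) × (ℕ × ℕ) => ‖c' q.2.2‖ * gd d R M q.1.1 q.1.2 q.2.1 q.2.2)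
    simp only [mul_pow, gd_sq] at h1
    have e1 : ∀ g : ℕ → ℕ → ℕ → ℕ → ℝ, ∑ q ∈ (T ×ˢ T) ×ˢ (range N ×ˢ range N), g q.1.1 q.1.2 q.2.1 q.2.2 =
        ∑ k ∈ T, ∑ k' ∈ T, ∑ h ∈ range N, ∑ h' ∈ range N, g k k' h h' := by
      intro g
      rw [sum_product, sum_product]
      apply sum_congr rfl
      intro k _
      apply sum_congr rfl
      intro k' _
      rw [sum_product]
    rw [e1 (fun k k' h h' => ‖c h‖ ^ 2 * gd d R M k k' h h'),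
      e1 (fun k k' h h' => ‖c' h'‖ ^ 2 * gd d R M k k' h h'),
      e1 (fun k k' h h' => ‖c h‖ * gd d R M k k' h h' * (‖c' h'‖ * gd d R M k k' h h'))] at h1
    have e2 : ∑ k ∈ T, ∑ k' ∈ T, ∑ h ∈ range N, ∑ h' ∈ range N, ‖c h‖ * ‖c' h'‖ * gd d R M k k' h h' =
        ∑ k ∈ T, ∑ k' ∈ T, ∑ h ∈ range N, ∑ h' ∈ range N,
          ‖c h‖ * gd d R M k k' h h' * (‖c' h'‖ * gd d R M k k' h h') := by
      apply sum_congr rfl; intro k _
      apply sum_congr rfl; intro k' _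
      apply sum_congr rfl; intro h _
      apply sum_congr rfl; intro h' _
      rw [show ‖c h‖ * gd d R M k k' h h' * (‖c' h'‖ * gd d R M k k' h h') =
        ‖c h‖ * ‖c' h'‖ * gd d R M k k' h h' ^ 2 by ring, gd_sq]
    rw [e2]
    refine h1.trans ?_
    gcongr
  have fin1 : ∑ k ∈ T, ∑ k' ∈ T, ‖ker d R M (tr R c) (tr R c') k k'‖ ≤
      W * ∑ k ∈ T, ∑ k' ∈ T, ∑ h ∈ range N, ∑ h' ∈ range N, ‖c h‖ * ‖c' h'‖ * gd d R M k k' h h' := by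
    rw [mul_sum]
    apply sum_le_sum
    intro k _
    rw [mul_sum]
    apply sum_le_sum
    intro k' _
    exact norm_ker hW hE d R M c c' k k' hM hMR
  refine fin1.trans ?_
  have fin2 : √(Rc * F * ∑ h ∈ range N, ‖c h‖ ^ 2) * √((T.card : ℝ) ^ 2 * F * ∑ h ∈ range N, ‖c' h‖ ^ 2) =
      F * √Rc * T.card * (√(∑ h ∈ range N, ‖c h‖ ^ 2) * √(∑ h ∈ range N, ‖c' h‖ ^ 2)) := by
    have a1 : 0 ≤ ∑ h ∈ range N, ‖c h‖ ^ 2 := sum_nonneg fun _ _ => by positivity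
    rw [Real.sqrt_mul (by positivity), Real.sqrt_mul hRc, Real.sqrt_mul (by positivity),
      Real.sqrt_mul (by positivity), Real.sqrt_sq (by positivity)]
    have a2 : √F * √F = F := Real.mul_self_sqrt hF0
    calc √Rc * √F * √(∑ h ∈ range N, ‖c h‖ ^ 2) * (T.card * √F * √(∑ h ∈ range N, ‖c' h‖ ^ 2)) =
        (√F * √F) * √Rc * T.card * (√(∑ h ∈ range N, ‖c h‖ ^ 2) * √(∑ h ∈ range N, ‖c' h‖ ^ 2)) := by ring
      _ = _ := by rw [a2]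
  calc W * ∑ k ∈ T, ∑ k' ∈ T, ∑ h ∈ range N, ∑ h' ∈ range N, ‖c h‖ * ‖c' h'‖ * gd d R M k k' h h'
      ≤ W * (√(Rc * F * ∑ h ∈ range N, ‖c h‖ ^ 2) * √((T.card : ℝ) ^ 2 * F * ∑ h ∈ range N, ‖c' h‖ ^ 2)) :=
        mul_le_mul_of_nonneg_left cs1 hW0
    _ = _ := by rw [fin2]; ring

end Pool.Agent.H13K.MIN
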