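import Pool.Agent.H13K.StmK

set_option autoImplicit false

namespace Pool.Agent.H13K.PRJ

open Finset
open Pool.Agent.H469R2.NK (e e_add e_zero)

theorem e_int (k : ℤ) : e (k : ℝ) = 1 := by
  unfold e
  rw [Complex.exp_eq_one_iff]
  exact ⟨k, by push_cast; ring⟩

theorem e_congr {R : ℕ} {a a' : ℤ} (h : (2 * (R : ℤ) + 1) ∣ a - a') (t : ℤ) :
    e ((a : ℝ) * t / (2 * R + 1)) = e ((a' : ℝ) * t / (2 * R + 1)) := by
  obtain ⟨k, hk⟩ := h
  have hN : (0 : ℝ) < 2 * R + 1 := by positivity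
  have h1 : (a : ℝ) = a' + (2 * R + 1) * k := by
    have : a = a' + (2 * (R : ℤ) + 1) * k := by linarith
    rw [this]
    push_cast
    ring
  have : (a : ℝ) * t / (2 * R + 1) = (a' : ℝ) * t / (2 * R + 1) + ((k * t : ℤ) : ℝ) := by
    rw [h1]
    push_cast
    field_simp
  rw [this, e_add, e_int, mul_one]

theorem bm_mem (R : ℕ) (a : ℤ) : Int.bmod a (2 * R + 1) ∈ Icc (-(R : ℤ)) R := by
  have h1 := Int.le_bmod (x := a) (m := 2 * R + 1) (by omega)
  have h2 := Int.bmod_lt (x := a) (m := 2 * R + 1) (by omega)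
  rw [mem_Icc]
  push_cast at h1 h2
  omega

theorem bm_dvd (R : ℕ) (a : ℤ) : (2 * (R : ℤ) + 1) ∣ a - Int.bmod a (2 * R + 1) := by
  rw [Int.bmod_def]
  have h1 := Int.emod_add_mul_ediv a ((2 * R + 1 : ℕ) : ℤ)
  push_cast at h1 ⊢
  split_ifs
  · exact ⟨a / (2 * R + 1), by linarith⟩
  · exact ⟨a / (2 * R + 1) + 1, by linarith⟩

theorem uniq {R : ℕ} {a a' : ℤ} (ha : a ∈ Icc (-(R : ℤ)) R) (ha' : a' ∈ Icc (-(R : ℤ)) R)
    (h : (2 * (R : ℤ) + 1) ∣ a - a') : a = a' := by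
  rw [mem_Icc] at ha ha'
  have h1 := Int.eq_zero_of_abs_lt_dvd h (by rw [abs_lt]; constructor <;> linarith [ha.1, ha.2, ha'.1, ha'.2])
  linarith

theorem bm_self {R : ℕ} {a : ℤ} (ha : a ∈ Icc (-(R : ℤ)) R) : Int.bmod a (2 * R + 1) = a :=
  (uniq ha (bm_mem R a) (bm_dvd R a)).symm

theorem tz_zero {M : ℕ} (hM : 1 ≤ M) {j : ℤ} (hj : 2 * (M : ℤ) ≤ |j|) : tz M j = 0 := by
  unfold tz
  have hM0 : (0 : ℝ) < M := by exact_mod_cast hM
  have h1 : (2 : ℝ) * M ≤ |(j : ℝ)| := by exact_mod_cast hj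
  have h2 : 2 - |(j : ℝ)| / M ≤ 0 := by
    rw [sub_nonpos, le_div_iff₀ hM0]
    exact h1
  rw [max_eq_left]
  exact (min_le_right _ _).trans h2

/-- the inner sum over `h` -/
theorem inner (R M : ℕ) (h0 : ℤ) (hM : 1 ≤ M) (hR : 2 * M ≤ R) (t : ℤ) :
    ∑ h ∈ range (2 * R + 1), (chi R M h0 h : ℂ) * e ((h : ℝ) * t / (2 * R + 1)) =
      e ((h0 : ℝ) * t / (2 * R + 1)) * ((2 * R + 1 : ℂ) * vp R M t) := by
  have hN : (2 * (R : ℂ) + 1) ≠ 0 := by
    have : (0 : ℝ) < 2 * R + 1 := by positivity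
    exact_mod_cast this.ne'
  have h1 : ∑ h ∈ range (2 * R + 1), (chi R M h0 h : ℂ) * e ((h : ℝ) * t / (2 * R + 1)) =
      ∑ j ∈ Icc (-(R : ℤ)) R, (tz M j : ℂ) * e (((h0 + j : ℤ) : ℝ) * t / (2 * R + 1)) := by
    refine Finset.sum_nbij' (fun h => Int.bmod ((h : ℤ) - h0) (2 * R + 1))
      (fun j => ((j + h0) % (2 * R + 1)).toNat) ?_ ?_ ?_ ?_ ?_
    · intro h _
      exact bm_mem R _
    · intro j _
      rw [mem_range]
      have h2 := Int.emod_nonneg (j + h0) (b := 2 * (R : ℤ) + 1) (by omega)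
      have h3 := Int.emod_lt_of_pos (j + h0) (b := 2 * (R : ℤ) + 1) (by omega)
      omega
    · intro h hh
      rw [mem_range] at hh
      have h4 := bm_dvd R ((h : ℤ) - h0)
      have h5 : ((Int.bmod ((h : ℤ) - h0) (2 * R + 1) + h0) % (2 * R + 1)) = (h : ℤ) := by
        have h6 : (Int.bmod ((h : ℤ) - h0) (2 * R + 1) + h0) % (2 * R + 1) = (h : ℤ) % (2 * R + 1) := by
          refine (Int.emod_emod_of_dvd _ (dvd_refl _)).symm.trans ?_
          rw [Int.emod_emod_of_dvd _ (dvd_refl _)]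
          refine Int.ModEq.symm ((Int.modEq_iff_dvd).2 ?_) |>.symm
          have : (h : ℤ) - (Int.bmod ((h : ℤ) - h0) (2 * R + 1) + h0) =
            (h : ℤ) - h0 - Int.bmod ((h : ℤ) - h0) (2 * R + 1) := by ring
          rw [this]
          exact h4
        rw [h6]
        exact Int.emod_eq_of_lt (by omega) (by omega)
      rw [h5]
      simp
    · intro j hj
      have h2 := Int.emod_nonneg (j + h0) (b := 2 * (R : ℤ) + 1) (by omega)
      have h3 : (((j + h0) % (2 * (R : ℤ) + 1)).toNat : ℤ) = (j + h0) % (2 * (R : ℤ) + 1) := Int.toNat_of_nonneg h2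
      refine uniq (bm_mem R _) hj ?_
      have h4 := bm_dvd R ((((j + h0) % (2 * (R : ℤ) + 1)).toNat : ℤ) - h0)
      rw [h3] at h4 ⊢
      have h5 := Int.emod_add_mul_ediv (j + h0) (2 * (R : ℤ) + 1)
      obtain ⟨k, hk⟩ := h4
      refine ⟨-k - (j + h0) / (2 * (R : ℤ) + 1), ?_⟩
      linear_combination (-1 : ℤ) * hk + h5
    · intro h _
      have h4 := bm_dvd R ((h : ℤ) - h0)
      have h5 : e ((h : ℝ) * t / (2 * R + 1)) =
          e (((h0 + Int.bmod ((h : ℤ) - h0) (2 * R + 1) : ℤ) : ℝ) * t / (2 * R + 1)) := by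
        have h6 := e_congr (R := R) (a := (h : ℤ)) (a' := h0 + Int.bmod ((h : ℤ) - h0) (2 * R + 1))
          (by
            have : (h : ℤ) - (h0 + Int.bmod ((h : ℤ) - h0) (2 * R + 1)) =
              (h : ℤ) - h0 - Int.bmod ((h : ℤ) - h0) (2 * R + 1) := by ring
            rw [this]
            exact h4) t
        rw [← h6]
        push_cast
        rfl
      rw [h5]
      rfl
  rw [h1]
  have h2 : ∀ j : ℤ, e (((h0 + j : ℤ) : ℝ) * t / (2 * R + 1)) =
      e ((h0 : ℝ) * t / (2 * R + 1)) * e ((j : ℝ) * t / (2 * R + 1)) := by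
    intro j
    rw [← e_add]
    congr 1
    push_cast
    ring
  simp only [h2]
  have h3 : ∑ j ∈ Icc (-(R : ℤ)) R, (tz M j : ℂ) * (e ((h0 : ℝ) * t / (2 * R + 1)) * e ((j : ℝ) * t / (2 * R + 1))) =
      e ((h0 : ℝ) * t / (2 * R + 1)) * ∑ j ∈ Icc (-(2 * (M : ℤ))) (2 * M), (tz M j : ℂ) * e ((j : ℝ) * t / (2 * R + 1)) := by
    rw [Finset.mul_sum]
    symm
    have hsub : Icc (-(2 * (M : ℤ))) (2 * M) ⊆ Icc (-(R : ℤ)) R := by
      intro j hj
      rw [mem_Icc] at hj ⊢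
      omega
    rw [← Finset.sum_subset hsub]
    · exact Finset.sum_congr rfl fun j _ => by ring
    · intro j _ hj2
      have : tz M j = 0 := by
        refine tz_zero hM ?_
        rw [mem_Icc] at hj2
        by_contra h
        rw [not_le, abs_lt] at h
        exact hj2 ⟨h.1.le, h.2.le⟩
      rw [this]
      simp
  rw [h3]
  congr 1
  unfold vp
  exact (mul_div_cancel₀ _ hN).symm

theorem t : S_PRJ := by
  intro R M x q h0 b u hM hR hx hq y
  have hN : (2 * (R : ℂ) + 1) ≠ 0 := by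
    have : (0 : ℝ) < 2 * R + 1 := by positivity
    exact_mod_cast this.ne'
  unfold tr fc
  have e1 : ∀ h ∈ range (2 * R + 1), (chi R M h0 h : ℂ) *
      ((∑ y ∈ cs R, per R x u y * e (-((h : ℝ) * y / (2 * R + 1)))) / (2 * R + 1)) *
      e ((h : ℝ) * y / (2 * R + 1)) =
      ∑ n ∈ cs R, (per R x u n / (2 * R + 1)) * ((chi R M h0 h : ℂ) * e ((h : ℝ) * ((y - n : ℤ) : ℝ) / (2 * R + 1))) := by
    intro h _
    rw [Finset.sum_div, Finset.mul_sum, Finset.sum_mul]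
    refine Finset.sum_congr rfl fun n _ => ?_
    have h2 : e ((h : ℝ) * ((y - n : ℤ) : ℝ) / (2 * R + 1)) = e (-((h : ℝ) * n / (2 * R + 1))) * e ((h : ℝ) * y / (2 * R + 1)) := by
      rw [← e_add]
      congr 1
      push_cast
      ring
    rw [h2]
    ring
  rw [Finset.sum_congr rfl e1, Finset.sum_comm]
  have e2 : ∀ n ∈ cs R, ∑ h ∈ range (2 * R + 1), (per R x u n / (2 * R + 1)) *
      ((chi R M h0 h : ℂ) * e ((h : ℝ) * ((y - n : ℤ) : ℝ) / (2 * R + 1))) =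
      per R x u n * (e ((h0 : ℝ) * ((y - n : ℤ) : ℝ) / (2 * R + 1)) * vp R M ((y - n : ℤ) : ℝ)) := by
    intro n _
    rw [← Finset.mul_sum, inner R M h0 hM hR (y - n)]
    field_simp
  rw [Finset.sum_congr rfl e2]
  unfold gq cs
  rw [Finset.mul_sum]
  have hsub : Icc (-(x : ℤ)) x ⊆ Icc (-(R : ℤ)) R := by
    intro j hj
    rw [mem_Icc] at hj ⊢
    omega
  rw [← Finset.sum_subset hsub]
  · refine Finset.sum_congr rfl fun n hn => ?_
    have h1 : per R x u n = (u n.natAbs : ℂ) := by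
      unfold per
      rw [bm_self (hsub hn), if_pos]
      rw [mem_Icc] at hn
      omega
    have h2 : e ((h0 : ℝ) * ((y - n : ℤ) : ℝ) / (2 * R + 1)) =
        e ((b : ℝ) * y / q) * (e (-((b : ℝ) * n / q)) * e (((h0 : ℝ) / (2 * R + 1) - b / q) * (y - n))) := by
      rw [← e_add, ← e_add]
      congr 1
      push_cast
      ring
    rw [h1, h2]
    push_cast
    ring
  · intro n hn hn2
    have h1 : per R x u n = 0 := by
      unfold per
      rw [bm_self hn, if_neg]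
      rw [mem_Icc] at hn2
      omega
    rw [h1, zero_mul]

end Pool.Agent.H13K.PRJ
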