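import Pool.Agent.H13K.RAYB

/-!
# Project BH, stub RAY
-/

set_option autoImplicit false

namespace Pool.Agent.H13K.RAY

open MeasureTheory Finset
open Pool.Agent.H469R2.NK (e e_add norm_e)
open Pool.Agent.H13K.RAYA Pool.Agent.H13K.RAYB

/-- the function in logarithmic coordinates -/
noncomputable def hh (ρ : ℝ → ℝ) (σ : ℝ) (g : ℝ → ℂ) (s : ℝ) : ℂ :=
  ((Real.exp (s / 2) * ρ s : ℝ) : ℂ) * g (σ * Real.exp s)

lemma hh_SC {ρ : ℝ → ℝ} {g : ℝ → ℂ} (σ : ℝ) (hρ : ContDiff ℝ (⊤ : ℕ∞) ρ)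
    (hg : ContDiff ℝ (⊤ : ℕ∞) g) {a b : ℝ} (h0 : ∀ s, s ≤ a → ρ s = 0)
    (h1 : ∀ s, b ≤ s → ρ s = 0) : SC (hh ρ σ g) := by
  constructor
  · unfold hh
    refine ContDiff.mul ?_ ?_
    · exact Complex.ofRealCLM.contDiff.comp
        ((Real.contDiff_exp.comp (contDiff_id.div_const _)).mul hρ)
    · exact hg.comp (contDiff_const.mul Real.contDiff_exp)
  · refine HasCompactSupport.intro (K := Set.Icc a b) isCompact_Icc fun x hx => ?_
    rw [Set.mem_Icc, not_and_or, not_le, not_le] at hx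
    unfold hh
    rcases hx with h | h
    · rw [h0 x h.le]; simp
    · rw [h1 x h.le]; simp

lemma sq_exp_half (s : ℝ) : Real.exp (s / 2) ^ 2 = Real.exp s := by
  rw [← Real.exp_nat_mul]
  congr 1
  push_cast
  ring

lemma hh_sq {ρ : ℝ → ℝ} {g : ℝ → ℂ} {σ G b : ℝ} (hG : 0 ≤ G) (hρ : ∀ s, 0 ≤ ρ s ∧ ρ s ≤ 1)
    (hg : ∀ y, ‖g y‖ ≤ G) (h1 : ∀ s, b ≤ s → ρ s = 0) :
    ∫ s, ‖hh ρ σ g s‖ ^ 2 ≤ G ^ 2 * Real.exp b := by
  have hi : Integrable (Set.indicator (Set.Iic b) (fun s => G ^ 2 * Real.exp s)) := by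
    rw [integrable_indicator_iff measurableSet_Iic]
    exact (integrableOn_exp_Iic b).const_mul _
  calc ∫ s, ‖hh ρ σ g s‖ ^ 2 ≤ ∫ s, Set.indicator (Set.Iic b) (fun s => G ^ 2 * Real.exp s) s := by
        refine integral_mono_of_nonneg (Filter.Eventually.of_forall fun s => by positivity) hi
          (Filter.Eventually.of_forall fun s => ?_)
        by_cases h : s ∈ Set.Iic b
        · rw [Set.indicator_of_mem h]
          simp only [hh, norm_mul, Complex.norm_real, Real.norm_eq_abs]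
          rw [abs_of_pos (Real.exp_pos _), abs_of_nonneg (hρ s).1, mul_pow, mul_pow, sq_exp_half]
          have a1 : ρ s ^ 2 ≤ 1 := pow_le_one₀ (hρ s).1 (hρ s).2
          have a2 : ‖g (σ * Real.exp s)‖ ^ 2 ≤ G ^ 2 := pow_le_pow_left₀ (norm_nonneg _) (hg _) 2
          calc Real.exp s * ρ s ^ 2 * ‖g (σ * Real.exp s)‖ ^ 2 ≤ Real.exp s * 1 * G ^ 2 := by
                gcongr
            _ = _ := by ring
        · rw [Set.indicator_of_notMem h]
          simp only [Set.mem_Iic, not_le] at h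
          simp [hh, h1 s h.le]
    _ = G ^ 2 * Real.exp b := by
        rw [integral_indicator measurableSet_Iic, integral_const_mul, integral_exp_Iic]

lemma hh_deriv {ρ : ℝ → ℝ} {g : ℝ → ℂ} (σ : ℝ) (hρ : ContDiff ℝ (⊤ : ℕ∞) ρ)
    (hg : ContDiff ℝ (⊤ : ℕ∞) g) (s : ℝ) :
    HasDerivAt (hh ρ σ g) (((Real.exp (s / 2) * (ρ s / 2 + deriv ρ s) : ℝ) : ℂ) * g (σ * Real.exp s) +
      ((Real.exp (s / 2) * ρ s : ℝ) : ℂ) * (((σ * Real.exp s : ℝ) : ℂ) * deriv g (σ * Real.exp s))) s := by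
  have h1 : HasDerivAt (fun s => Real.exp (s / 2) * ρ s)
      (Real.exp (s / 2) * (ρ s / 2 + deriv ρ s)) s := by
    have a1 : HasDerivAt (fun s : ℝ => Real.exp (s / 2)) (Real.exp (s / 2) * (1 / 2)) s :=
      ((hasDerivAt_id s).div_const 2).exp
    have a2 : HasDerivAt ρ (deriv ρ s) s := (hρ.differentiable (by simp) s).hasDerivAt
    refine (a1.mul a2).congr_deriv ?_
    ring
  have h2 : HasDerivAt (fun s => g (σ * Real.exp s))
      (((σ * Real.exp s : ℝ) : ℂ) * deriv g (σ * Real.exp s)) s := by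
    have a1 : HasDerivAt (fun s : ℝ => σ * Real.exp s) (σ * Real.exp s) s :=
      (Real.hasDerivAt_exp s).const_mul σ
    have a2 : HasDerivAt g (deriv g (σ * Real.exp s)) (σ * Real.exp s) :=
      (hg.differentiable (by simp) _).hasDerivAt
    have := a2.scomp s a1
    refine this.congr_deriv ?_
    rw [Complex.real_smul]
  exact h1.ofReal_comp.mul h2

lemma hh_dsq {ρ : ℝ → ℝ} {g : ℝ → ℂ} {σ G δ Cr b : ℝ} (hσ : σ = 1 ∨ σ = -1) (hG : 0 ≤ G)
    (hδ : 0 ≤ δ) (hCr : 0 ≤ Cr) (hρs : ContDiff ℝ (⊤ : ℕ∞) ρ) (hgs : ContDiff ℝ (⊤ : ℕ∞) g)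
    (hρ : ∀ s, 0 ≤ ρ s ∧ ρ s ≤ 1) (hρ' : ∀ s, |deriv ρ s| ≤ Cr)
    (hg : ∀ y, ‖g y‖ ≤ G) (hg' : ∀ y, ‖deriv g y‖ ≤ G * δ) (h1 : ∀ s, b ≤ s → ρ s = 0) :
    ∫ s, ‖deriv (hh ρ σ g) s‖ ^ 2 ≤ (G * (1 + Cr + δ * Real.exp b)) ^ 2 * Real.exp b := by
  set M : ℝ := G * (1 + Cr + δ * Real.exp b) with hM
  have hM0 : 0 ≤ M := by positivity
  have hi : Integrable (Set.indicator (Set.Iic b) (fun s => M ^ 2 * Real.exp s)) := by
    rw [integrable_indicator_iff measurableSet_Iic]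
    exact (integrableOn_exp_Iic b).const_mul _
  calc ∫ s, ‖deriv (hh ρ σ g) s‖ ^ 2 ≤ ∫ s, Set.indicator (Set.Iic b) (fun s => M ^ 2 * Real.exp s) s := by
        refine integral_mono_of_nonneg (Filter.Eventually.of_forall fun s => by positivity) hi
          (Filter.Eventually.of_forall fun s => ?_)
        by_cases h : s ∈ Set.Iic b
        · rw [Set.indicator_of_mem h]
          have h2 : ‖deriv (hh ρ σ g) s‖ ≤ Real.exp (s / 2) * M := by
            rw [(hh_deriv σ hρs hgs s).deriv]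
            refine (norm_add_le _ _).trans ?_
            rw [norm_mul, norm_mul, norm_mul, Complex.norm_real, Complex.norm_real, Complex.norm_real,
              Real.norm_eq_abs, Real.norm_eq_abs, Real.norm_eq_abs, abs_mul, abs_mul, abs_mul,
              abs_of_pos (Real.exp_pos _), abs_of_pos (Real.exp_pos _), abs_of_nonneg (hρ s).1]
            have hσ' : |σ| = 1 := by rcases hσ with h | h <;> simp [h]
            rw [hσ', one_mul]
            have b1 : |ρ s / 2 + deriv ρ s| ≤ 1 + Cr := by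
              refine (abs_add_le _ _).trans ?_
              have := hρ' s
              rw [abs_of_nonneg (by have := (hρ s).1; positivity)]
              linarith [(hρ s).2]
            have b2 : Real.exp s ≤ Real.exp b := Real.exp_le_exp.2 h
            calc Real.exp (s / 2) * |ρ s / 2 + deriv ρ s| * ‖g (σ * Real.exp s)‖ +
                Real.exp (s / 2) * ρ s * (Real.exp s * ‖deriv g (σ * Real.exp s)‖)
                ≤ Real.exp (s / 2) * (1 + Cr) * G + Real.exp (s / 2) * 1 * (Real.exp b * (G * δ)) := by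
                  gcongr
                  · exact hg _
                  · exact (hρ s).2
                  · exact hg' _
              _ = _ := by rw [hM]; ring
          calc ‖deriv (hh ρ σ g) s‖ ^ 2 ≤ (Real.exp (s / 2) * M) ^ 2 :=
                pow_le_pow_left₀ (norm_nonneg _) h2 2
            _ = M ^ 2 * Real.exp s := by rw [mul_pow, sq_exp_half]; ring
        · rw [Set.indicator_of_notMem h]
          simp only [Set.mem_Iic, not_le] at h
          have h3 : hh ρ σ g =ᶠ[nhds s] fun _ => 0 := by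
            filter_upwards [Ioi_mem_nhds h] with y hy
            simp [hh, h1 y (le_of_lt hy)]
          simp only
          rw [h3.deriv_eq, deriv_const]
          simp
    _ = M ^ 2 * Real.exp b := by
        rw [integral_indicator measurableSet_Iic, integral_const_mul, integral_exp_Iic]

/-- one pair: from the interval in `u` to the smooth cutoff in `s = log u` -/
lemma pair {D P0 P1 κ η p p' G σ : ℝ} {ρ : ℝ → ℝ} {g1 g2 : ℝ → ℂ} (hD : 0 < D) (hP0 : 0 < P0)
    (hp : P0 ≤ p ∧ p ≤ P1) (hp' : P0 ≤ p' ∧ p' ≤ P1) (hκ : 0 < κ) (hκ1 : κ ≤ 1) (hη : 0 < η)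
    (hη1 : η ≤ 1) (hG : 0 ≤ G) (hc1 : Continuous g1) (hc2 : Continuous g2)
    (hg1 : ∀ y, ‖g1 y‖ ≤ G) (hg2 : ∀ y, ‖g2 y‖ ≤ G)
    (hρ : ∀ s, Real.log (D * P0) - 1 ≤ s → s ≤ Real.log (2 * D * P1) + 1 → ρ s = 1) :
    ‖∫ u in D..((1 + κ) * D), g1 (σ * (u * p)) * g2 (σ * (u * p'))‖ ≤ 7 * G ^ 2 * D * η +
      (1 / P0) * ‖∫ s, cc (Real.log D) (Real.log ((1 + κ) * D)) η s *
        (hh ρ σ g1 (s + Real.log p) * hh ρ σ g2 (s + Real.log p'))‖ := by
  set a := Real.log D with ha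
  set b := Real.log ((1 + κ) * D) with hb
  have hp0 : 0 < p := hP0.trans_le hp.1
  have hp0' : 0 < p' := hP0.trans_le hp'.1
  have hP1 : 0 < P1 := hp0.trans_le hp.2
  have hDκ : 0 < (1 + κ) * D := by positivity
  have hea : Real.exp a = D := Real.exp_log hD
  have heb : Real.exp b = (1 + κ) * D := Real.exp_log hDκ
  have hab : a ≤ b := Real.log_le_log hD (by nlinarith)
  have hb2 : b ≤ Real.log (2 * D) := Real.log_le_log hDκ (by nlinarith)
  set m : ℝ → ℂ := fun s => (Real.exp s : ℂ) * (g1 (σ * (Real.exp s * p)) * g2 (σ * (Real.exp s * p')))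
    with hm
  have hmc : Continuous m := by
    refine Continuous.mul ?_ (Continuous.mul ?_ ?_)
    · exact Complex.continuous_ofReal.comp Real.continuous_exp
    · exact hc1.comp (continuous_const.mul (Real.continuous_exp.mul continuous_const))
    · exact hc2.comp (continuous_const.mul (Real.continuous_exp.mul continuous_const))
  have hmn : ∀ s, ‖m s‖ ≤ Real.exp s * G ^ 2 := by
    intro s
    simp only [hm, norm_mul, Complex.norm_real, Real.norm_eq_abs, abs_of_pos (Real.exp_pos s)]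
    calc Real.exp s * (‖g1 (σ * (Real.exp s * p))‖ * ‖g2 (σ * (Real.exp s * p'))‖)
        ≤ Real.exp s * (G * G) := by
          gcongr
          · exact hg1 _
          · exact hg2 _
      _ = _ := by ring
  -- change of variables
  have hcv : ∫ u in D..((1 + κ) * D), g1 (σ * (u * p)) * g2 (σ * (u * p')) = ∫ s in a..b, m s := by
    have hG' : Continuous (fun u : ℝ => g1 (σ * (u * p)) * g2 (σ * (u * p'))) := by
      refine Continuous.mul ?_ ?_
      · exact hc1.comp (continuous_const.mul (continuous_id.mul continuous_const))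
      · exact hc2.comp (continuous_const.mul (continuous_id.mul continuous_const))
    have := intervalIntegral.integral_deriv_smul_comp (a := a) (b := b) (f := Real.exp)
      (f' := Real.exp) (g := fun u : ℝ => g1 (σ * (u * p)) * g2 (σ * (u * p')))
      (fun x _ => Real.hasDerivAt_exp x) Real.continuous_exp.continuousOn hG'
    rw [hea, heb] at this
    rw [← this]
    refine intervalIntegral.integral_congr fun s _ => ?_
    simp only [hm, Function.comp, Complex.real_smul]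
  -- the smooth version
  have hsm : ∫ s, cc a b η s * (hh ρ σ g1 (s + Real.log p) * hh ρ σ g2 (s + Real.log p')) =
      ((√(p * p') : ℝ) : ℂ) * ∫ s, cc a b η s * m s := by
    rw [← integral_const_mul]
    refine integral_congr_ae (Filter.Eventually.of_forall fun s => ?_)
    simp only
    by_cases h1 : s ≤ a - η
    · simp [cc, cut_left hη h1]
    by_cases h2 : b + η ≤ s
    · simp [cc, cut_right hη h2]
    rw [not_le] at h1 h2
    have key : ∀ q : ℝ, P0 ≤ q → q ≤ P1 → ρ (s + Real.log q) = 1 := by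
      intro q hq hq'
      have hq0 : 0 < q := hP0.trans_le hq
      refine hρ _ ?_ ?_
      · rw [Real.log_mul hD.ne' hP0.ne']
        have := Real.log_le_log hP0 hq
        linarith
      · rw [Real.log_mul (by positivity) hP1.ne']
        have := Real.log_le_log hq0 hq'
        linarith
    have hq : ∀ q : ℝ, 0 < q → Real.exp (s + Real.log q) = Real.exp s * q := fun q hq0 => by
      rw [Real.exp_add, Real.exp_log hq0]
    have hq2 : ∀ q : ℝ, 0 < q → Real.exp ((s + Real.log q) / 2) = Real.exp (s / 2) * √q := by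
      intro q hq0
      rw [add_div, Real.exp_add, Real.sqrt_eq_rpow, Real.rpow_def_of_pos hq0]
      congr 2
      ring
    simp only [hh, key p hp.1 hp.2, key p' hp'.1 hp'.2, hq p hp0, hq p' hp0', hq2 p hp0, hq2 p' hp0',
      hm, Real.sqrt_mul hp0.le, mul_one]
    have h3 : (Real.exp s : ℂ) = (Real.exp (s / 2) : ℂ) * (Real.exp (s / 2) : ℂ) := by
      rw [← Complex.ofReal_mul, ← sq, sq_exp_half]
    push_cast at h3 ⊢
    rw [h3]
    ring
  have hsc := cc_SC (a := a) (b := b) hη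
  have hcn : ∀ s, ‖cc a b η s‖ ≤ 1 := fun s => by
    simp only [cc, Complex.norm_real, Real.norm_eq_abs, abs_of_nonneg (cut_nonneg _ _ _ _)]
    exact cut_le_one _ _ _ _
  have hcmc : Continuous (fun s => cc a b η s * m s) := hsc.1.continuous.mul hmc
  have hwh : ∫ s, cc a b η s * m s = (∫ s in (a - η)..a, cc a b η s * m s) +
      (∫ s in a..b, m s) + ∫ s in b..(b + η), cc a b η s * m s := by
    have e1 : ∫ s, cc a b η s * m s = ∫ s in (a - η)..(b + η), cc a b η s * m s := by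
      rw [intervalIntegral.integral_of_le (by linarith)]
      symm
      refine setIntegral_eq_integral_of_forall_compl_eq_zero fun s hs => ?_
      rw [Set.mem_Ioc, not_and_or, not_lt, not_le] at hs
      rcases hs with h | h
      · simp [cc, cut_left hη h]
      · simp [cc, cut_right hη h.le]
    have e2 : ∫ s in a..b, m s = ∫ s in a..b, cc a b η s * m s := by
      refine intervalIntegral.integral_congr fun s hs => ?_
      rw [Set.uIcc_of_le hab] at hs
      simp only [cc]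
      rw [cut_one hη hs.1 hs.2, Complex.ofReal_one, one_mul]
    rw [e1, e2, intervalIntegral.integral_add_adjacent_intervals,
      intervalIntegral.integral_add_adjacent_intervals]
    all_goals exact hcmc.intervalIntegrable _ _
  have hn1 : ‖∫ s in (a - η)..a, cc a b η s * m s‖ ≤ D * G ^ 2 * η := by
    have := intervalIntegral.norm_integral_le_of_norm_le_const (a := a - η) (b := a)
      (f := fun s => cc a b η s * m s) (C := D * G ^ 2) (fun s hs => ?_)
    · rwa [sub_sub_cancel, abs_of_pos hη] at this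
    · rw [Set.uIoc_of_le (by linarith)] at hs
      rw [norm_mul]
      have h4 : Real.exp s ≤ D := by rw [← hea]; exact Real.exp_le_exp.2 hs.2
      calc ‖cc a b η s‖ * ‖m s‖ ≤ 1 * (Real.exp s * G ^ 2) := by
            gcongr
            · exact hcn s
            · exact hmn s
        _ ≤ 1 * (D * G ^ 2) := by gcongr
        _ = _ := one_mul _
  have hn2 : ‖∫ s in b..(b + η), cc a b η s * m s‖ ≤ 6 * D * G ^ 2 * η := by
    have := intervalIntegral.norm_integral_le_of_norm_le_const (a := b) (b := b + η)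
      (f := fun s => cc a b η s * m s) (C := 6 * D * G ^ 2) (fun s hs => ?_)
    · rwa [add_sub_cancel_left, abs_of_pos hη] at this
    · rw [Set.uIoc_of_le (by linarith)] at hs
      rw [norm_mul]
      have h4 : Real.exp s ≤ 6 * D := by
        calc Real.exp s ≤ Real.exp (b + 1) := Real.exp_le_exp.2 (by linarith [hs.2])
          _ = (1 + κ) * D * Real.exp 1 := by rw [Real.exp_add, heb]
          _ ≤ 2 * D * 3 := by
              have := Real.exp_one_lt_d9
              gcongr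
              · linarith
              · linarith
          _ = 6 * D := by ring
      calc ‖cc a b η s‖ * ‖m s‖ ≤ 1 * (Real.exp s * G ^ 2) := by
            gcongr
            · exact hcn s
            · exact hmn s
        _ ≤ 1 * (6 * D * G ^ 2) := by gcongr
        _ = _ := one_mul _
  have hfin : ‖∫ s in a..b, m s‖ ≤ ‖∫ s, cc a b η s * m s‖ + 7 * G ^ 2 * D * η := by
    have e3 : ∫ s in a..b, m s = (∫ s, cc a b η s * m s) - (∫ s in (a - η)..a, cc a b η s * m s) -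
        ∫ s in b..(b + η), cc a b η s * m s := by rw [hwh]; ring
    rw [e3]
    refine (norm_sub_le _ _).trans ?_
    have := norm_sub_le (∫ s, cc a b η s * m s) (∫ s in (a - η)..a, cc a b η s * m s)
    linarith
  rw [hcv, hsm, norm_mul, Complex.norm_real, Real.norm_eq_abs, abs_of_nonneg (Real.sqrt_nonneg _)]
  have hsq : P0 ≤ √(p * p') := by
    rw [← Real.sqrt_sq hP0.le]
    refine Real.sqrt_le_sqrt ?_
    rw [sq]
    exact mul_le_mul hp.1 hp'.1 hP0.le hp0.le
  have h5 : ‖∫ s, cc a b η s * m s‖ ≤ 1 / P0 * (√(p * p') * ‖∫ s, cc a b η s * m s‖) := by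
    rw [one_div, ← mul_assoc]
    refine le_mul_of_one_le_left (norm_nonneg _) ?_
    rw [inv_mul_eq_div, one_le_div hP0]
    exact hsq
  linarith

/-- sum over the pairs -/
lemma sums {a b η R : ℝ} (hη : 0 < η) (T : Finset ℕ) (w : ℕ → ℕ → ℝ → ℂ)
    (hw : ∀ k k', SC (w k k'))
    (hR : ∀ ξ, ∑ k ∈ T, ∑ k' ∈ T, ‖ft (w k k') ξ‖ ≤ R) :
    ∑ k ∈ T, ∑ k' ∈ T, ‖∫ s, cc a b η s * w k k' s‖ ≤ R * ∫ ξ, ‖ft (cc a b η) ξ‖ := by
  have hsc := cc_SC (a := a) (b := b) hη
  have hm0 : MemLp (fun ξ => ‖ft (cc a b η) (-ξ)‖) 2 := by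
    have := memLp_refl (ft_cont hsc).norm (memLp_ft hsc) 0
    simpa using this
  have hi : ∀ k k', Integrable (fun ξ => ‖ft (cc a b η) (-ξ)‖ * ‖ft (w k k') ξ‖) := fun k k' =>
    hm0.integrable_mul (memLp_ft (hw k k'))
  calc ∑ k ∈ T, ∑ k' ∈ T, ‖∫ s, cc a b η s * w k k' s‖
      ≤ ∑ k ∈ T, ∑ k' ∈ T, ∫ ξ, ‖ft (cc a b η) (-ξ)‖ * ‖ft (w k k') ξ‖ := by
        refine Finset.sum_le_sum fun k _ => Finset.sum_le_sum fun k' _ => ?_
        rw [parseval hsc (hw k k')]
        refine (norm_integral_le_integral_norm _).trans (le_of_eq ?_)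
        refine integral_congr_ae (Filter.Eventually.of_forall fun ξ => ?_)
        simp only
        rw [norm_mul]
    _ = ∫ ξ, ‖ft (cc a b η) (-ξ)‖ * ∑ k ∈ T, ∑ k' ∈ T, ‖ft (w k k') ξ‖ := by
        simp only [Finset.mul_sum]
        rw [integral_finsetSum _ fun k _ => integrable_finsetSum _ fun k' _ => hi k k']
        refine Finset.sum_congr rfl fun k _ => ?_
        rw [integral_finsetSum _ fun k' _ => hi k k']
    _ ≤ ∫ ξ, ‖ft (cc a b η) (-ξ)‖ * R := by
        refine integral_mono_of_nonneg (Filter.Eventually.of_forall fun ξ => by positivity)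
          ((ft_int hsc).norm.comp_neg.mul_const R) (Filter.Eventually.of_forall fun ξ => ?_)
        exact mul_le_mul_of_nonneg_left (hR ξ) (norm_nonneg _)
    _ = R * ∫ ξ, ‖ft (cc a b η) ξ‖ := by
        rw [integral_mul_const, mul_comm, integral_neg_eq_self (fun ξ => ‖ft (cc a b η) ξ‖)]

lemma cs_pairs (T : Finset ℕ) (K : ℕ) (hT : T.card ≤ K) (x : ℕ → ℕ → ℝ) (S : ℝ)
    (h : ∑ k ∈ T, ∑ k' ∈ T, x k k' ^ 2 ≤ S) :
    ∑ k ∈ T, ∑ k' ∈ T, x k k' ≤ K * √S := by
  rw [← Finset.sum_product'] at h ⊢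
  have h1 := sq_sum_le_card_mul_sum_sq (s := T ×ˢ T) (f := fun p : ℕ × ℕ => x p.1 p.2)
  have hc : ((T ×ˢ T).card : ℝ) ≤ (K : ℝ) ^ 2 := by
    rw [Finset.card_product]
    push_cast
    rw [sq]
    have : (T.card : ℝ) ≤ K := by exact_mod_cast hT
    gcongr
  have hS0 : 0 ≤ ∑ p ∈ T ×ˢ T, x p.1 p.2 ^ 2 := Finset.sum_nonneg fun _ _ => sq_nonneg _
  refine le_trans (Real.le_sqrt_of_sq_le (h1.trans ?_)) (le_of_eq ?_) (b := √((K : ℝ) ^ 2 * S))
  · exact mul_le_mul hc h hS0 (by positivity)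
  · rw [Real.sqrt_mul (by positivity), Real.sqrt_sq (by positivity)]

lemma num {K G X c0 Y E Ξ X2 Z δ Cr : ℝ} (hK : 1 ≤ K) (hG : 0 < G) (hX : 0 < X) (hc0 : 1 ≤ c0)
    (hY : 0 ≤ Y) (hE : 0 ≤ E) (hΞ : 0 < Ξ) (hX2 : 0 < X2) (hδ : 0 ≤ δ) (hCr : 0 ≤ Cr) :
    K ^ 2 * ((G * √(c0 * X)) * (G * √(c0 * X))) * ((Y * √(2 * E) +
      (G * (1 + Cr + δ * (c0 * X)) * √(c0 * X)) / Ξ +
      4 * ((G * (1 + Cr + δ * (c0 * X)) * √(c0 * X)) / X2)) * (G * √(c0 * X))) +
      Z ^ 2 * ((G * √(c0 * X)) * (G * √(c0 * X))) ^ 2 ≤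
    (K * G ^ 2 * (c0 * X)) ^ 2 * (4 * (1 + Cr + c0)) * (Y * √E / (G * √X) +
      (1 + δ * X) * (1 / Ξ + 1 / X2) + (Z / K) ^ 2) := by
  set x1 := c0 * X with hx1
  have hx10 : 0 < x1 := by positivity
  set w := √x1 with hw
  set v := √X with hv
  have hw2 : w ^ 2 = x1 := Real.sq_sqrt hx10.le
  have hw0 : 0 < w := Real.sqrt_pos.2 hx10
  have hv0 : 0 < v := Real.sqrt_pos.2 hX
  have hvw : v ≤ w := Real.sqrt_le_sqrt (by nlinarith)
  have hs2 : √(2 * E) ≤ 2 * √E := by
    rw [Real.sqrt_mul (by norm_num)]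
    have : √2 ≤ 2 := by
      rw [Real.sqrt_le_left (by norm_num)]; norm_num
    gcongr
  set M1 := 1 + Cr + δ * x1 with hM1
  have hM10 : 0 < M1 := by positivity
  set B := K ^ 2 * G ^ 4 * w ^ 4 with hB
  have hB0 : 0 < B := by positivity
  set c1 := 4 * (1 + Cr + c0) with hc1
  have hc14 : 4 ≤ c1 := by rw [hc1]; linarith
  -- first term
  have t1 : K ^ 2 * ((G * w) * (G * w)) * (Y * √(2 * E) * (G * w)) ≤ B * (c1 * (Y * √E / (G * v))) := by
    have e1 : K ^ 2 * ((G * w) * (G * w)) * (Y * √(2 * E) * (G * w)) =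
        B * (Y * √(2 * E) / (G * w)) := by
      rw [hB]; field_simp
    rw [e1]
    refine mul_le_mul_of_nonneg_left ?_ hB0.le
    calc Y * √(2 * E) / (G * w) ≤ Y * (2 * √E) / (G * v) := by gcongr
      _ = 2 * (Y * √E / (G * v)) := by ring
      _ ≤ c1 * (Y * √E / (G * v)) := by
          refine mul_le_mul_of_nonneg_right (by linarith) (by positivity)
  have t2 : K ^ 2 * ((G * w) * (G * w)) * (((G * M1 * w) / Ξ + 4 * ((G * M1 * w) / X2)) * (G * w)) ≤
      B * (c1 * ((1 + δ * X) * (1 / Ξ + 1 / X2))) := by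
    have e1 : K ^ 2 * ((G * w) * (G * w)) * (((G * M1 * w) / Ξ + 4 * ((G * M1 * w) / X2)) * (G * w)) =
        B * (M1 * (1 / Ξ + 4 * (1 / X2))) := by
      rw [hB]; ring
    rw [e1]
    refine mul_le_mul_of_nonneg_left ?_ hB0.le
    have e2 : M1 ≤ (1 + Cr + c0) * (1 + δ * X) := by
      rw [hM1, hx1]
      have : 0 ≤ δ * X := by positivity
      nlinarith [mul_nonneg hCr this]
    calc M1 * (1 / Ξ + 4 * (1 / X2)) ≤ ((1 + Cr + c0) * (1 + δ * X)) * (4 * (1 / Ξ + 1 / X2)) := by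
          have h3 : 1 / Ξ + 4 * (1 / X2) ≤ 4 * (1 / Ξ + 1 / X2) := by
            have : 0 < 1 / Ξ := by positivity
            linarith
          gcongr
      _ = _ := by rw [hc1]; ring
  have t3 : Z ^ 2 * ((G * w) * (G * w)) ^ 2 ≤ B * (c1 * (Z / K) ^ 2) := by
    have e1 : Z ^ 2 * ((G * w) * (G * w)) ^ 2 = B * (Z / K) ^ 2 := by
      rw [hB]; field_simp
    rw [e1]
    refine mul_le_mul_of_nonneg_left ?_ hB0.le
    exact le_mul_of_one_le_left (by positivity) (by linarith)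
  have e3 : (K * G ^ 2 * x1) ^ 2 * c1 * (Y * √E / (G * v) +
      (1 + δ * X) * (1 / Ξ + 1 / X2) + (Z / K) ^ 2) = B * (c1 * (Y * √E / (G * v))) +
      B * (c1 * ((1 + δ * X) * (1 / Ξ + 1 / X2))) + B * (c1 * (Z / K) ^ 2) := by
    rw [hB, ← hw2]; ring
  rw [e3]
  have e4 : K ^ 2 * ((G * w) * (G * w)) * ((Y * √(2 * E) + (G * M1 * w) / Ξ +
      4 * ((G * M1 * w) / X2)) * (G * w)) = K ^ 2 * ((G * w) * (G * w)) * (Y * √(2 * E) * (G * w)) +
      K ^ 2 * ((G * w) * (G * w)) * (((G * M1 * w) / Ξ + 4 * ((G * M1 * w) / X2)) * (G * w)) := by ring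
  rw [e4]
  linarith

/-- **RAY** -/
theorem t : S_RAY := by
  obtain ⟨K0, hK0, hK1, -⟩ := Pool.Agent.H442R2.EHI.Cutoff_bounds
  obtain ⟨Cf, hCf, hl1⟩ := l1
  set c0 : ℝ := 2 * Real.exp 2 with hc0
  have hc01 : 1 ≤ c0 := by
    have := Real.add_one_le_exp 2
    rw [hc0]; linarith
  set Cr : ℝ := 1 + 2 * K0 with hCr
  set c1 : ℝ := 4 * (1 + Cr + c0) with hc1
  have hc10 : 0 < c1 := by positivity
  refine ⟨7 + Cf * c0 * √c1, Cr, ?_, by linarith, ?_⟩
  · have : 0 ≤ Cf * c0 * √c1 := by positivity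
    linarith
  intro T K p D P0 P1 κ δ G Y E Ξ X2 Z η σ g1 g2 hT hD hP0 hP01 hp hκ hκ1 hη hη1 hδ hG hY hE hΞ hX2
    hZ hσ hg1s hg2s hg hYb hZb
  have hP1 : 0 < P1 := hP0.trans_le hP01
  rcases Nat.eq_zero_or_pos K with hK | hK
  · have hT0 : T = ∅ := by
      rw [← Finset.card_eq_zero]; omega
    rw [hT0, hK]
    simp
  have hKr : (1 : ℝ) ≤ K := by exact_mod_cast hK
  -- the cutoff
  set ρ : ℝ → ℝ := cut (Real.log (D * P0) - 1) (Real.log (2 * D * P1) + 1) 1 with hρd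
  have hρs : ContDiff ℝ (⊤ : ℕ∞) ρ := cut_smooth _ _ _
  have hρ01 : ∀ s, 0 ≤ ρ s ∧ ρ s ≤ 1 := fun s => ⟨cut_nonneg _ _ _ _, cut_le_one _ _ _ _⟩
  have hρd' : ∀ s, |deriv ρ s| ≤ Cr := by
    intro s
    rw [hρd, (cut_d1 _ _ _ s).deriv, cut1, div_one, one_mul]
    refine (abs_sub _ _).trans ?_
    rw [abs_mul, abs_mul]
    have hp0 : ∀ x, |Real.smoothTransition x| ≤ 1 := fun x => by
      rw [abs_of_nonneg (Real.smoothTransition.nonneg x)]
      exact Real.smoothTransition.le_one x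
    have a1 := mul_le_mul (hK1 ((s - (Real.log (D * P0) - 1 - 1)) / 1))
      (hp0 ((Real.log (2 * D * P1) + 1 + 1 - s) / 1)) (abs_nonneg _) hK0.le
    have a2 := mul_le_mul (hp0 ((s - (Real.log (D * P0) - 1 - 1)) / 1))
      (hK1 ((Real.log (2 * D * P1) + 1 + 1 - s) / 1)) (abs_nonneg _) zero_le_one
    rw [hCr]
    linarith
  have hρl : ∀ s, s ≤ Real.log (D * P0) - 2 → ρ s = 0 := fun s hs =>
    cut_left one_pos (by linarith)
  have hρr : ∀ s, Real.log (2 * D * P1) + 2 ≤ s → ρ s = 0 := fun s hs =>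
    cut_right one_pos (by linarith)
  have hρ1 : ∀ s, Real.log (D * P0) - 1 ≤ s → s ≤ Real.log (2 * D * P1) + 1 → ρ s = 1 :=
    fun s h1 h2 => cut_one one_pos h1 h2
  set X : ℝ := D * P1 with hX
  have hX0 : 0 < X := by positivity
  have hexp : Real.exp (Real.log (2 * D * P1) + 2) = c0 * X := by
    rw [Real.exp_add, Real.exp_log (by positivity), hc0, hX]; ring
  have hS1 : SC (hh ρ σ g1) := hh_SC σ hρs hg1s hρl hρr
  have hS2 : SC (hh ρ σ g2) := hh_SC σ hρs hg2s hρl hρr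
  have hx0 : 0 < c0 * X := by positivity
  have hN1 : ∫ s, ‖hh ρ σ g1 s‖ ^ 2 ≤ (G * √(c0 * X)) ^ 2 := by
    rw [mul_pow, Real.sq_sqrt hx0.le, ← hexp]
    exact hh_sq hG.le hρ01 (fun y => (hg y).1) hρr
  have hN2 : ∫ s, ‖hh ρ σ g2 s‖ ^ 2 ≤ (G * √(c0 * X)) ^ 2 := by
    rw [mul_pow, Real.sq_sqrt hx0.le, ← hexp]
    exact hh_sq hG.le hρ01 (fun y => (hg y).2.1) hρr
  have hCr0 : 0 ≤ Cr := by positivity
  have hD1 : ∫ s, ‖deriv (hh ρ σ g1) s‖ ^ 2 ≤ (G * (1 + Cr + δ * (c0 * X)) * √(c0 * X)) ^ 2 := by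
    rw [mul_pow, Real.sq_sqrt hx0.le, ← hexp]
    exact hh_dsq hσ hG.le hδ hCr0 hρs hg1s hρ01 hρd' (fun y => (hg y).1) (fun y => (hg y).2.2) hρr
  have hYf : ∀ ξ, |ξ| ≤ Ξ → ‖ft (hh ρ σ g1) ξ‖ ≤ Y := hYb ρ hρs hρ01 hρd' hρl hρr
  set lam : ℕ → ℝ := fun k => Real.log (p k) with hlam
  set Q : ℝ := Y * √E / (G * √X) + (1 + δ * X) * (1 / Ξ + 1 / X2) + (Z / K) ^ 2 with hQ
  have hcore : ∀ τ : ℝ, ∑ k ∈ T, ∑ k' ∈ T,
      ‖ft (fun s => hh ρ σ g1 (s + lam k) * hh ρ σ g2 (s + lam k')) τ‖ ^ 2 ≤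
      (K * G ^ 2 * (c0 * X)) ^ 2 * c1 * Q := by
    intro τ
    have h1 := core hS1 hS2 T K lam (N1 := G * √(c0 * X)) (N2 := G * √(c0 * X))
      (D1 := G * (1 + Cr + δ * (c0 * X)) * √(c0 * X)) (Y := Y) (E := E) (Ξ := Ξ) (X2 := X2) (Z := Z)
      (τ := τ) hT (by positivity) (by positivity) (by positivity) hY (by linarith) hΞ hX2 hZ hN1 hN2 hD1
      hYf hZb
    exact h1.trans (num hKr hG hX0 hc01 hY (by linarith) hΞ hX2 hδ hCr0)
  have hR : ∀ τ : ℝ, ∑ k ∈ T, ∑ k' ∈ T,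
      ‖ft (fun s => hh ρ σ g1 (s + lam k) * hh ρ σ g2 (s + lam k')) τ‖ ≤
      K * (K * G ^ 2 * (c0 * X) * √c1 * √Q) := by
    intro τ
    have h1 := cs_pairs T K hT _ _ (hcore τ)
    refine h1.trans (le_of_eq ?_)
    rw [Real.sqrt_mul (by positivity), Real.sqrt_mul (by positivity), Real.sqrt_sq (by positivity)]
  have hsum := sums (a := Real.log D) (b := Real.log ((1 + κ) * D)) hη T
    (fun k k' s => hh ρ σ g1 (s + lam k) * hh ρ σ g2 (s + lam k'))
    (fun k k' => (hS1.shift (lam k)).mul (hS2.shift (lam k'))) hR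
  have hab : Real.log D ≤ Real.log ((1 + κ) * D) := Real.log_le_log hD (by nlinarith)
  have hba : Real.log ((1 + κ) * D) ≤ Real.log D + 1 := by
    rw [Real.log_mul (by positivity) hD.ne']
    have := Real.log_le_sub_one_of_pos (show 0 < 1 + κ by positivity)
    linarith
  have hL := hl1 (Real.log D) (Real.log ((1 + κ) * D)) η hη hη1 hab hba
  have hlog : Real.log η ≤ 0 := Real.log_nonpos hη.le hη1
  calc ∑ k ∈ T, ∑ k' ∈ T, ‖∫ u in D..((1 + κ) * D), g1 (σ * (u * p k)) * g2 (σ * (u * p k'))‖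
      ≤ ∑ k ∈ T, ∑ k' ∈ T, (7 * G ^ 2 * D * η + (1 / P0) *
        ‖∫ s, cc (Real.log D) (Real.log ((1 + κ) * D)) η s *
          (hh ρ σ g1 (s + Real.log (p k)) * hh ρ σ g2 (s + Real.log (p k')))‖) := by
        refine Finset.sum_le_sum fun k hk => Finset.sum_le_sum fun k' hk' => ?_
        exact pair hD hP0 (hp k hk) (hp k' hk') hκ hκ1 hη hη1 hG.le hg1s.continuous hg2s.continuous
          (fun y => (hg y).1) (fun y => (hg y).2.1) hρ1
    _ = (T.card : ℝ) ^ 2 * (7 * G ^ 2 * D * η) + (1 / P0) * ∑ k ∈ T, ∑ k' ∈ T,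
        ‖∫ s, cc (Real.log D) (Real.log ((1 + κ) * D)) η s *
          (hh ρ σ g1 (s + Real.log (p k)) * hh ρ σ g2 (s + Real.log (p k')))‖ := by
        simp only [Finset.sum_add_distrib, ← Finset.mul_sum, sum_const, nsmul_eq_mul]
        ring
    _ ≤ (K : ℝ) ^ 2 * (7 * G ^ 2 * D * η) + (1 / P0) *
        (K * (K * G ^ 2 * (c0 * X) * √c1 * √Q) * (Cf * (1 - Real.log η))) := by
        have hTK : (T.card : ℝ) ≤ K := by exact_mod_cast hT
        refine add_le_add ?_ ?_
        · gcongr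
        · refine mul_le_mul_of_nonneg_left (hsum.trans ?_) (by positivity)
          exact mul_le_mul_of_nonneg_left hL (by positivity)
    _ ≤ (7 + Cf * c0 * √c1) * G ^ 2 * (K : ℝ) ^ 2 * D * (η + (1 - Real.log η) * (P1 / P0) * √Q) := by
        have e1 : (1 / P0) * (K * (K * G ^ 2 * (c0 * X) * √c1 * √Q) * (Cf * (1 - Real.log η))) =
            (Cf * c0 * √c1) * G ^ 2 * (K : ℝ) ^ 2 * D * ((1 - Real.log η) * (P1 / P0) * √Q) := by
          rw [hX]; field_simp
        rw [e1]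
        have h1 : 0 ≤ (1 - Real.log η) * (P1 / P0) * √Q := by
          have : 0 ≤ 1 - Real.log η := by linarith
          positivity
        have h2 : 0 ≤ G ^ 2 * (K : ℝ) ^ 2 * D := by positivity
        have h3 : 0 ≤ Cf * c0 * √c1 := by positivity
        have h4 := mul_nonneg h2 h1
        have h5 := mul_nonneg (mul_nonneg h3 h2) hη.le
        nlinarith

end Pool.Agent.H13K.RAY
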