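import Pool.Agent.H13K.StmK
import Pool.Agent.H300R2.FB.Vdc
import Pool.Agent.H497R2.FB_KSumQ

/-!
# Project BH (helper13), part K, stub VDC (helper95)
-/

set_option autoImplicit false

namespace Pool.Agent.H13K.VDC

open Finset
open Pool.Agent.H469R2.NK (e)
open Pool.Agent.H442R2.EHI
open Pool.Agent.H300R2.BH
open Pool.Agent.H300R2.FB
open Pool.Agent.H497R2.FB

/-- the same as `large_xiQ`, with the number of blocks bounded by the ratio of the end points -/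
lemma large_xi {j M : ℕ} {κ η C : ℝ} (hη : 0 < η) (hC : 0 < C)
    (hv : ∀ (J L : ℕ) (u ξ : ℝ) (b : Fin (j - 1) → ℝ), 1 ≤ J → (J : ℝ) ≤ u → L ≤ J →
      u + L ≤ 3 * J → (∀ i, |b i| ≤ κ * (J : ℝ) ^ (j - 1 - (i : ℕ))) → 1 ≤ |ξ| →
      |ξ| ≤ (J : ℝ) ^ M →
      ‖∑ n ∈ range L, e (ξ * Real.log (pw j b (u + n)))‖ ≤ C * ((J : ℝ) ^ (1 - η) + J / |ξ|))
    (b : Fin (j - 1) → ℝ)
    (q r ξ : ℝ) (hq : 1 ≤ q) (hr : 0 ≤ r) (hrq : r < q) (K A B : ℕ) (hBK : B ≤ K)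
    (hκ : 0 ≤ κ) (hb : ∀ i, |b i| ≤ κ * (q * ((A : ℝ) + 1)) ^ (j - 1 - (i : ℕ)))
    (hpos : ∀ t : ℝ, (A : ℝ) + 1 ≤ t → 0 < pw j b (q * t + r))
    (hAK : (K : ℝ) ^ (1 / 2 : ℝ) ≤ (A : ℝ) + 1) (hξ1 : 1 ≤ |ξ|)
    (hξ2 : |ξ| ≤ ((A : ℝ) + 1) ^ M) (m : ℕ) (hm : B ≤ 2 ^ m * A) (hAb : A ≤ B) :
    ‖∑ n ∈ Ioc A B, gQ j b q r ξ n‖ ≤
      m * (C * ((K : ℝ) * (K : ℝ) ^ (-(η / 2)) + K / |ξ|)) := by
  have hq0 : 0 < q := by linarith
  refine KS.dyadic (fun n => gQ j b q r ξ n) A B _ (by positivity) ?_ m A B le_rfl hAb hm le_rfl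
  intro a b1 haA hab hb2 hbB
  rcases hab.eq_or_lt with rfl | hlt
  · simp only [Ioc_self, sum_empty, norm_zero]; positivity
  have haK : (a : ℝ) + 1 ≤ K := by
    have : a + 1 ≤ K := by omega
    exact_mod_cast this
  have haA' : (A : ℝ) ≤ a := by exact_mod_cast haA
  have hK0 : (0 : ℝ) < K := by
    have : (0 : ℝ) ≤ a := Nat.cast_nonneg _
    linarith
  have ha1 : (1 : ℝ) ≤ (a : ℝ) + 1 := by
    have : (0 : ℝ) ≤ a := Nat.cast_nonneg _
    linarith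
  have hrq' : r / q < 1 := by rw [div_lt_one hq0]; exact hrq
  have hrq0 : 0 ≤ r / q := by positivity
  have hba : (b1 : ℝ) ≤ 2 * a := by exact_mod_cast hb2
  have h1 := hv (a + 1) (b1 - a) ((a : ℝ) + 1 + r / q) ξ (bq j b q) (by omega)
    (by push_cast; linarith)
    (by omega)
    (by rw [Nat.cast_sub hab]; push_cast; linarith)
    (by
      intro i
      unfold bq
      rw [abs_div, abs_of_nonneg (by positivity : (0 : ℝ) ≤ q ^ (j - 1 - (i : ℕ))),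
        div_le_iff₀ (by positivity)]
      refine (hb i).trans ?_
      rw [mul_pow]
      push_cast
      have h2 : ((A : ℝ) + 1) ^ (j - 1 - (i : ℕ)) ≤ ((a : ℝ) + 1) ^ (j - 1 - (i : ℕ)) :=
        pow_le_pow_left₀ (by positivity) (by linarith) _
      calc κ * (q ^ (j - 1 - (i : ℕ)) * ((A : ℝ) + 1) ^ (j - 1 - (i : ℕ)))
          ≤ κ * (q ^ (j - 1 - (i : ℕ)) * ((a : ℝ) + 1) ^ (j - 1 - (i : ℕ))) := by gcongr
        _ = _ := by ring)
    hξ1
    (by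
      push_cast
      exact hξ2.trans (pow_le_pow_left₀ (by positivity) (by linarith) M))
  have h2 : ∑ n ∈ Ioc a b1, gQ j b q r ξ n = e (ξ * Real.log (q ^ j)) *
      ∑ n ∈ range (b1 - a),
        e (ξ * Real.log (pw j (bq j b q) ((a : ℝ) + 1 + r / q + n))) := by
    rw [KS.Ioc_sum_range (fun n => gQ j b q r ξ n), mul_sum]
    apply sum_congr rfl
    intro n _
    rw [gQ_shift j b q r ξ hq0]
    · congr 4
      push_cast
      ring_nf
    · apply hpos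
      push_cast
      have : (0 : ℝ) ≤ n := Nat.cast_nonneg _
      linarith
  rw [h2, norm_mul, Pool.Agent.H469R2.NK.norm_e, one_mul]
  refine h1.trans ?_
  push_cast
  apply mul_le_mul_of_nonneg_left _ hC.le
  apply add_le_add
  · rw [sub_eq_add_neg, Real.rpow_add (by linarith), Real.rpow_one]
    apply mul_le_mul haK _ (Real.rpow_nonneg (by linarith) _) hK0.le
    have h3 : (K : ℝ) ^ (-(η / 2)) = ((K : ℝ) ^ (1 / 2 : ℝ)) ^ (-η) := by
      rw [← Real.rpow_mul hK0.le]; congr 1; ring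
    rw [h3]
    apply Real.rpow_le_rpow_of_nonpos (by positivity) (by linarith) (by linarith)
  · gcongr

/-- rewriting the sum over a class -/
lemma class_sum (j : ℕ) (b : Fin (j - 1) → ℝ) (q r K1 K : ℕ) (hq : 0 < q) (hr : r < q)
    (c ξ : ℝ) (hw : 1 ≤ (((K1 - r) / q : ℕ) : ℤ) + ((r : ℤ) + ⌊c⌋) / q) (hrK : r ≤ K1) (hK : K1 ≤ K) :
    ∑ k ∈ (Ioc K1 K).filter (fun k => k % q = r), e (ξ * Real.log (pw j b (k + c))) =
      ∑ n ∈ Ioc ((((K1 - r) / q : ℕ) : ℤ) + ((r : ℤ) + ⌊c⌋) / q).toNat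
        ((((K - r) / q : ℕ) : ℤ) + ((r : ℤ) + ⌊c⌋) / q).toNat,
        gQ j b q ((((r : ℤ) + ⌊c⌋) % q : ℤ) + (c - ⌊c⌋)) ξ n := by
  set w : ℤ := ((r : ℤ) + ⌊c⌋) / q with hw'
  set s : ℤ := ((r : ℤ) + ⌊c⌋) % q with hs'
  have hws : (q : ℤ) * w + s = r + ⌊c⌋ := Int.mul_ediv_add_emod _ _
  set A := (K1 - r) / q with hA
  set B := (K - r) / q with hB
  have hAB : A ≤ B := Nat.div_le_div_right (by omega)
  have step1 : ∑ k ∈ (Ioc K1 K).filter (fun k => k % q = r), e (ξ * Real.log (pw j b (k + c))) =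
      ∑ n ∈ Ioc A B, e (ξ * Real.log (pw j b (((q * n + r : ℕ) : ℝ) + c))) := by
    refine Finset.sum_nbij' (fun k => k / q) (fun j => q * j + r) ?_ ?_ ?_ ?_ ?_
    · intro k hk
      rw [mem_filter, mem_Ioc] at hk
      have h1 := Nat.div_add_mod k q
      rw [hk.2] at h1
      rw [mem_Ioc, hA, hB, Nat.div_lt_iff_lt_mul (by omega), Nat.le_div_iff_mul_le (by omega)]
      have h2 : k / q * q = q * (k / q) := mul_comm _ _
      rw [h2]
      omega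
    · intro j hj
      rw [mem_Ioc, hA, hB, Nat.div_lt_iff_lt_mul (by omega), Nat.le_div_iff_mul_le (by omega),
        mul_comm j q] at hj
      rw [mem_filter, mem_Ioc]
      refine ⟨by omega, ?_⟩
      rw [Nat.mul_add_mod, Nat.mod_eq_of_lt hr]
    · intro k hk
      rw [mem_filter] at hk
      have h1 := Nat.div_add_mod k q
      rw [hk.2] at h1
      exact h1
    · intro j _
      rw [Nat.mul_add_div (by omega), Nat.div_eq_of_lt hr, add_zero]
    · intro k hk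
      rw [mem_filter] at hk
      have h1 := Nat.div_add_mod k q
      rw [hk.2] at h1
      rw [h1]
  rw [step1]
  clear_value A B
  refine Finset.sum_nbij' (fun m => ((m : ℤ) + w).toNat) (fun n => ((n : ℤ) - w).toNat) ?_ ?_ ?_ ?_ ?_
  · intro m hm
    rw [mem_Ioc] at hm ⊢
    omega
  · intro n hn
    rw [mem_Ioc] at hn ⊢
    omega
  · intro m hm
    rw [mem_Ioc] at hm
    omega
  · intro n hn
    rw [mem_Ioc] at hn
    omega
  · intro m hm
    rw [mem_Ioc] at hm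
    have h1 : (((((m : ℤ) + w).toNat : ℕ) : ℤ) : ℝ) = (m : ℝ) + w := by
      rw [Int.toNat_of_nonneg (by omega)]
      push_cast
      ring
    unfold gQ
    have h2 : (q : ℝ) * w + s = r + (⌊c⌋ : ℤ) := by exact_mod_cast hws
    have h3 : ((((m : ℤ) + w).toNat : ℕ) : ℝ) = (m : ℝ) + w := by
      rw [← h1]; push_cast; rfl
    rw [h3]
    congr 4
    push_cast
    linear_combination -h2

/-- the number of blocks -/
lemma blocks (Ea : ℕ) : ∃ L0 : ℝ, 1 ≤ L0 ∧ ∀ L : ℝ, L0 ≤ L → 4 * L ^ Ea ≤ (2 : ℝ) ^ ⌈L⌉₊ := by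
  have h := (isLittleO_pow_exp_pos_mul_atTop (k := Ea) (b := Real.log 2)
    (Real.log_pos (by norm_num))).bound (show (0 : ℝ) < 1 / 4 by norm_num)
  obtain ⟨L1, hL1⟩ := Filter.eventually_atTop.mp h
  refine ⟨max 1 L1, le_max_left _ _, fun L hL => ?_⟩
  have hL0 : 1 ≤ L := (le_max_left _ _).trans hL
  have h1 := hL1 L ((le_max_right _ _).trans hL)
  rw [Real.norm_of_nonneg (by positivity), Real.norm_of_nonneg (by positivity)] at h1
  have h2 : Real.exp (Real.log 2 * L) = (2 : ℝ) ^ L := by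
    rw [Real.rpow_def_of_pos (by norm_num)]
  have h3 : (2 : ℝ) ^ L ≤ (2 : ℝ) ^ ⌈L⌉₊ := by
    rw [← Real.rpow_natCast]
    exact Real.rpow_le_rpow_of_exponent_le (by norm_num) (Nat.le_ceil _)
  rw [h2] at h1
  linarith

/-- the sum over a class, for one set of parameters -/
lemma main_bound (d : ℕ) (hd : 1 ≤ d) {κ η0 C : ℝ} (hκ : 0 < κ) (hη : 0 < η0) (hC : 0 < C)
    (hv : ∀ (J L : ℕ) (u ξ : ℝ) (b : Fin (d - 1) → ℝ), 1 ≤ J → (J : ℝ) ≤ u → L ≤ J →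
      u + L ≤ 3 * J → (∀ i, |b i| ≤ κ * (J : ℝ) ^ (d - 1 - (i : ℕ))) → 1 ≤ |ξ| →
      |ξ| ≤ (J : ℝ) ^ 4 →
      ‖∑ n ∈ range L, e (ξ * Real.log (pw d b (u + n)))‖ ≤ C * ((J : ℝ) ^ (1 - η0) + J / |ξ|))
    (K K1 q r m : ℕ) (La Q c ξ : ℝ) (b : Fin (d - 1) → ℝ) (hLa : 1 ≤ La) (hK1K : K1 ≤ K)
    (hKK1 : (K : ℝ) ≤ K1 * La) (hq : 1 ≤ q) (hqL : (q : ℝ) ≤ La) (hb : ∀ i, |b i| ≤ La)
    (hc : |c| ≤ La) (hr : r < q) (h8 : 8 * La ^ 4 ≤ K) (hdK : 4 * d * La ^ 2 ≤ K)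
    (hκK : 2 * La ^ 2 ≤ κ * K) (hm : 4 * La ≤ 2 ^ m) (hξ1 : 1 ≤ |ξ|) (hξ2 : |ξ| ≤ (K : ℝ) ^ 2)
    (hKr : 8 * La ^ 2 ≤ K) :
    ‖∑ k ∈ (Ioc K1 K).filter (fun k => k % q = r), e (ξ * Real.log (pw d b (k + c)))‖ ≤
      m * (C * ((2 * K : ℕ) * ((2 * K : ℕ) : ℝ) ^ (-(η0 / 2)) + (2 * K : ℕ) / |ξ|)) := by
  have hq1 : (1 : ℝ) ≤ q := by exact_mod_cast hq
  have hLa0 : 0 < La := by linarith
  have hLa2 : La ≤ La ^ 2 := by nlinarith
  have hK1' : 8 * La ≤ K1 := by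
    have h1 : (8 * La) * La ≤ K1 * La := by
      have : 8 * La ^ 2 ≤ (K1 : ℝ) * La := hKr.trans hKK1
      nlinarith
    exact le_of_mul_le_mul_right h1 hLa0
  have hqK1 : (q : ℝ) ≤ K1 := by linarith
  have hqK1' : q ≤ K1 := by exact_mod_cast hqK1
  set z : ℤ := ⌊c⌋ with hz
  have hz1 : (z : ℝ) ≤ c := Int.floor_le c
  have hz2 : c < z + 1 := Int.lt_floor_add_one c
  have hc1 := (abs_le.mp hc).1
  have hc2 := (abs_le.mp hc).2
  set w : ℤ := ((r : ℤ) + z) / q with hw'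
  set s : ℤ := ((r : ℤ) + z) % q with hs'
  have hws : (q : ℤ) * w + s = r + z := Int.mul_ediv_add_emod _ _
  have hs0 : 0 ≤ s := Int.emod_nonneg _ (by omega)
  have hsq : s < q := Int.emod_lt_of_pos _ (by omega)
  have hwsR : (q : ℝ) * w + s = r + z := by exact_mod_cast hws
  have hs0R : (0 : ℝ) ≤ s := by exact_mod_cast hs0
  have hsqR : (s : ℝ) + 1 ≤ q := by exact_mod_cast hsq
  set A0 := (K1 - r) / q with hA0
  set B0 := (K - r) / q with hB0
  have hAB : A0 ≤ B0 := Nat.div_le_div_right (by omega)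
  have hA0q : K1 < q * (A0 + 1) + r := by
    have := Nat.lt_mul_div_succ (K1 - r) (show 0 < q by omega)
    rw [← hA0] at this
    omega
  have hB0q : q * B0 + r ≤ K := by
    have := Nat.mul_div_le (K - r) q
    rw [← hB0] at this
    omega
  have hA0R : (K1 : ℝ) < q * ((A0 : ℝ) + 1) + r := by exact_mod_cast hA0q
  have hB0R : (q : ℝ) * B0 + r ≤ K := by exact_mod_cast hB0q
  -- the integer end points
  have hAlow : (K1 : ℝ) / 2 ≤ q * ((A0 : ℝ) + w) := by nlinarith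
  have hK10 : (0 : ℝ) < K1 := by linarith
  have hApos : (0 : ℝ) < (A0 : ℝ) + w := by
    by_contra hcon
    push Not at hcon
    have : (q : ℝ) * ((A0 : ℝ) + w) ≤ 0 := mul_nonpos_of_nonneg_of_nonpos (by linarith) hcon
    linarith
  have hAint : (0 : ℤ) < (A0 : ℤ) + w := by
    have : ((0 : ℤ) : ℝ) < (((A0 : ℤ) + w : ℤ) : ℝ) := by push_cast; exact hApos
    exact_mod_cast this
  have hAint1 : 1 ≤ (A0 : ℤ) + w := by omega
  rw [class_sum d b q r K1 K (by omega) hr c ξ hAint1 (by omega) hK1K]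
  set A : ℕ := ((A0 : ℤ) + w).toNat with hA
  set B : ℕ := ((B0 : ℤ) + w).toNat with hB
  have hAB' : A ≤ B := by omega
  have hAz : ((A : ℕ) : ℤ) = A0 + w := Int.toNat_of_nonneg (by omega)
  have hBz : ((B : ℕ) : ℤ) = B0 + w := Int.toNat_of_nonneg (by omega)
  have hAR : (A : ℝ) = A0 + w := by exact_mod_cast hAz
  have hBR : (B : ℝ) = B0 + w := by exact_mod_cast hBz
  have hA0' : (0 : ℝ) ≤ A := Nat.cast_nonneg _
  have hB0' : (0 : ℝ) ≤ B := Nat.cast_nonneg _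
  have hK0 : (0 : ℝ) < K := by
    have : (K1 : ℝ) ≤ K := by exact_mod_cast hK1K
    linarith
  have hqA : (K1 : ℝ) / 2 ≤ q * A := by rw [hAR]; exact hAlow
  have hqB : (q : ℝ) * B ≤ 2 * K := by
    have h1 : (q : ℝ) * B = q * B0 + q * w := by rw [hBR]; ring
    have h2 : La ≤ K := by nlinarith
    have h3 : (z : ℝ) ≤ La := by linarith
    linarith
  have hBK : (B : ℝ) ≤ 2 * K := by nlinarith
  have hAKlow : (K : ℝ) / (2 * La ^ 2) ≤ A := by
    rw [div_le_iff₀ (by positivity)]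
    calc (K : ℝ) ≤ K1 * La := hKK1
      _ ≤ (2 * (q * A)) * La := by gcongr; linarith
      _ ≤ (2 * (La * A)) * La := by gcongr
      _ = A * (2 * La ^ 2) := by ring
  have hA2 : 2 * (K : ℝ) ≤ (A : ℝ) ^ 2 := by
    have h1 : ((K : ℝ) / (2 * La ^ 2)) ^ 2 ≤ (A : ℝ) ^ 2 := pow_le_pow_left₀ (by positivity) hAKlow 2
    refine le_trans ?_ h1
    rw [div_pow, le_div_iff₀ (by positivity)]
    nlinarith
  have hA12 : 2 * (K : ℝ) ≤ ((A : ℝ) + 1) ^ 2 := by nlinarith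
  have hqA1 : (K : ℝ) / (2 * La) ≤ q * ((A : ℝ) + 1) := by
    rw [div_le_iff₀ (by positivity)]
    calc (K : ℝ) ≤ K1 * La := hKK1
      _ ≤ (2 * (q * A)) * La := by gcongr; linarith
      _ ≤ (2 * (q * (A + 1))) * La := by gcongr; linarith
      _ = _ := by ring
  have hqA10 : (1 : ℝ) ≤ q * ((A : ℝ) + 1) := by nlinarith
  have hge : ∀ i : Fin (d - 1), q * ((A : ℝ) + 1) ≤ (q * ((A : ℝ) + 1)) ^ (d - 1 - (i : ℕ)) := by
    intro i
    have hi := i.2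
    exact le_self_pow₀ hqA10 (by omega)
  have hKLa : La ≤ κ * (K / (2 * La)) := by
    rw [← mul_div_assoc, le_div_iff₀ (by positivity)]
    nlinarith
  have hdLa : La * (2 * d) ≤ K / (2 * La) := by
    rw [le_div_iff₀ (by positivity)]
    nlinarith
  have hd0 : (1 : ℝ) ≤ d := by exact_mod_cast hd
  refine large_xi hη hC hv b q ((s : ℝ) + (c - z)) ξ hq1 (by linarith) (by linarith) (2 * K) A B
    (by exact_mod_cast hBK) hκ.le ?_ ?_ ?_ hξ1 ?_ m ?_ hAB'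
  · intro i
    calc |b i| ≤ La := hb i
      _ ≤ κ * (K / (2 * La)) := hKLa
      _ ≤ κ * (q * ((A : ℝ) + 1)) := by gcongr
      _ ≤ _ := by gcongr; exact hge i
  · intro t ht
    have h1 : (q : ℝ) * ((A : ℝ) + 1) ≤ q * t + ((s : ℝ) + (c - z)) := by nlinarith
    have h2 := pw_lower d b (2 * d) (q * ((A : ℝ) + 1)) (q * t + ((s : ℝ) + (c - z)))
      (by linarith) le_rfl (by linarith) (by
        intro i
        calc |b i| * (2 * d) ≤ La * (2 * d) := by gcongr; exact hb i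
          _ ≤ K / (2 * La) := hdLa
          _ ≤ q * ((A : ℝ) + 1) := hqA1
          _ ≤ _ := hge i) h1
    have h3 : (0 : ℝ) < q * t + ((s : ℝ) + (c - z)) := by linarith
    exact lt_of_lt_of_le (by positivity) h2
  · rw [← Real.sqrt_eq_rpow, Real.sqrt_le_left (by linarith)]
    push_cast
    exact hA12
  · calc |ξ| ≤ (K : ℝ) ^ 2 := hξ2
      _ ≤ (2 * K) ^ 2 := by gcongr; linarith
      _ ≤ (((A : ℝ) + 1) ^ 2) ^ 2 := by gcongr
      _ = _ := by ring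
  · have h1 : (q : ℝ) * B ≤ q * (2 ^ m * A) := by
      calc (q : ℝ) * B ≤ 2 * K := hqB
        _ ≤ 2 * (K1 * La) := by linarith
        _ ≤ 2 * ((2 * (q * A)) * La) := by gcongr; linarith
        _ = (4 * La) * (q * A) := by ring
        _ ≤ 2 ^ m * (q * A) := by gcongr
        _ = _ := by ring
    have h2 : (B : ℝ) ≤ 2 ^ m * A := le_of_mul_le_mul_left h1 (by linarith)
    exact_mod_cast h2

theorem t : S_VDC := by
  intro d Ea U hd
  obtain ⟨κ, hκ, η0, hη, C, hC, hv⟩ := vdcPoly d hd 4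
  obtain ⟨L1, hL1, hbl⟩ := blocks Ea
  set B : ℕ := ⌈2 * ((U : ℝ) + 2) / η0⌉₊ + 4 * Ea + 2 with hB
  refine ⟨U + 2, B, L1 + 8 * C + 4 * d + 2 / κ + 8, ?_, ?_⟩
  · have : 0 < 2 / κ := by positivity
    have : (0 : ℝ) ≤ d := Nat.cast_nonneg _
    linarith
  intro L hL K K1 q r hKB hK1K hKK1 hq hqL b c hb hc η hη1 hη2
  have hκ2 : 0 < 2 / κ := by positivity
  have hd0 : (0 : ℝ) ≤ d := Nat.cast_nonneg _
  have hLL1 : L1 ≤ L := by linarith
  have hL8 : 8 ≤ L := by linarith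
  have hLC : 8 * C ≤ L := by linarith
  have hLd : 4 * (d : ℝ) ≤ L := by linarith
  have hLκ : 2 ≤ κ * L := by
    have h1 : 2 / κ ≤ L := by linarith
    rw [div_le_iff₀ hκ] at h1
    linarith
  have hLpos : 0 < L := by linarith
  have hL1' : 1 ≤ L := by linarith
  rcases le_or_gt q r with hqr | hqr
  · have : (Ioc K1 K).filter (fun k => k % q = r) = ∅ := by
      rw [filter_eq_empty_iff]
      intro k _ hk
      have := Nat.mod_lt k (show q > 0 by omega)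
      omega
    rw [this, sum_empty, norm_zero]
    positivity
  have hLa : 1 ≤ L ^ Ea := one_le_pow₀ hL1'
  have hpw : ∀ n : ℕ, n ≤ B → L ^ n ≤ K := fun n hn =>
    (pow_le_pow_right₀ hL1' hn).trans hKB
  have h4 : 8 * (L ^ Ea) ^ 4 ≤ K := by
    refine le_trans ?_ (hpw (4 * Ea + 1) (by omega))
    have e1 : L ^ (4 * Ea + 1) = L * (L ^ Ea) ^ 4 := by ring
    rw [e1]
    gcongr
  have h24 : (L ^ Ea) ^ 2 ≤ (L ^ Ea) ^ 4 := pow_le_pow_right₀ hLa (by norm_num)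
  have h2 : L * (L ^ Ea) ^ 2 ≤ K := by
    refine le_trans ?_ (hpw (2 * Ea + 1) (by omega))
    have e1 : L ^ (2 * Ea + 1) = L * (L ^ Ea) ^ 2 := by ring
    rw [e1]
  have h20 : 0 ≤ (L ^ Ea) ^ 2 := by positivity
  have hη1' : 1 ≤ |η| := (one_le_pow₀ hL1').trans hη1
  have hη0 : 0 < |η| := by linarith
  have hK0 : (0 : ℝ) < K := lt_of_lt_of_le (by positivity) hKB
  have h := main_bound d hd hκ hη hC hv K K1 q r ⌈L⌉₊ (L ^ Ea) 0 c η b hLa hK1K hKK1 hq hqL hb hc hqr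
    h4 (by nlinarith) (by nlinarith) (hbl L hLL1) hη1' hη2 (by linarith)
  refine h.trans ?_
  have hm : ((⌈L⌉₊ : ℕ) : ℝ) ≤ 2 * L := by
    have := Nat.ceil_lt_add_one hLpos.le
    linarith
  have hr1 : ((2 * K : ℕ) : ℝ) ^ (-(η0 / 2)) ≤ 1 / L ^ (U + 2) := by
    rw [Real.rpow_neg (by positivity), one_div]
    apply inv_anti₀ (by positivity)
    calc L ^ (U + 2) = L ^ (((U + 2 : ℕ) : ℝ)) := (Real.rpow_natCast _ _).symm
      _ ≤ L ^ ((B : ℝ) * (η0 / 2)) := by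
          apply Real.rpow_le_rpow_of_exponent_le hL1'
          have h5 : 2 * ((U : ℝ) + 2) / η0 ≤ B := by
            have := Nat.le_ceil (2 * ((U : ℝ) + 2) / η0)
            rw [hB]
            push_cast
            have h6 : (0 : ℝ) ≤ Ea := Nat.cast_nonneg _
            linarith
          rw [div_le_iff₀ hη] at h5
          push_cast
          linarith
      _ = (L ^ B) ^ (η0 / 2) := by
          rw [Real.rpow_mul hLpos.le, Real.rpow_natCast]
      _ ≤ ((2 * K : ℕ) : ℝ) ^ (η0 / 2) := by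
          apply Real.rpow_le_rpow (by positivity) _ (by positivity)
          push_cast
          linarith
  have hr2 : ((2 * K : ℕ) : ℝ) / |η| ≤ (2 * K) * (1 / L ^ (U + 2)) := by
    push_cast
    rw [div_eq_mul_one_div]
    gcongr
  calc (⌈L⌉₊ : ℝ) * (C * ((2 * K : ℕ) * ((2 * K : ℕ) : ℝ) ^ (-(η0 / 2)) + (2 * K : ℕ) / |η|))
      ≤ (2 * L) * (C * ((2 * K : ℕ) * (1 / L ^ (U + 2)) + (2 * K) * (1 / L ^ (U + 2)))) := by
        gcongr
    _ = (8 * C) * K * (L / L ^ (U + 2)) := by push_cast; ring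
    _ ≤ L * K * (L / L ^ (U + 2)) := by gcongr
    _ = K / L ^ U := by
        rw [pow_add]
        field_simp

end Pool.Agent.H13K.VDC
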