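import Pool.Agent.H13K.StmK

/-!
# VPB: bounds for the kernel of de la Vallee Poussin (project BH of helper13)
-/

set_option autoImplicit false

namespace Pool.Agent.H13K.VPB

open Finset
open Pool.Agent.H469R2.NK (e norm_e e_add e_zero)

lemma shift (L : ℤ) (h : ℤ → ℂ) (h1 : ∀ j, h j ≠ 0 → j ∈ Icc (-L) L)
    (h2 : ∀ j, h (j + 1) ≠ 0 → j ∈ Icc (-L) L) :
    ∑ j ∈ Icc (-L) L, h (j + 1) = ∑ j ∈ Icc (-L) L, h j := by
  rw [← finsum_eq_sum_of_support_subset (fun j => h (j + 1)) (s := Icc (-L) L)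
    (fun j hj => mem_coe.mpr (h2 j hj)),
    ← finsum_eq_sum_of_support_subset h (s := Icc (-L) L) (fun j hj => mem_coe.mpr (h1 j hj))]
  exact finsum_comp_equiv (Equiv.addRight (1 : ℤ))

lemma e_cos (x : ℝ) : e x + e (-x) = ((2 * Real.cos (2 * Real.pi * x) : ℝ) : ℂ) := by
  unfold e
  rw [Complex.exp_mul_I, Complex.exp_mul_I]
  push_cast
  rw [show (2 * (Real.pi : ℂ) * -(x : ℂ)) = -(2 * (Real.pi : ℂ) * (x : ℂ)) by ring, Complex.cos_neg,
    Complex.sin_neg]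
  ring

lemma key (L : ℤ) (G : ℤ → ℝ) (hG : ∀ j : ℤ, L ≤ |j| → G j = 0) (u : ℝ) :
    ((2 - 2 * Real.cos (2 * Real.pi * u) : ℝ) : ℂ) * ∑ j ∈ Icc (-L) L, (G j : ℂ) * e ((j : ℝ) * u) =
      ∑ j ∈ Icc (-L) L, ((2 * G j - G (j - 1) - G (j + 1) : ℝ) : ℂ) * e ((j : ℝ) * u) := by
  have hG' : ∀ j : ℤ, (G j : ℂ) ≠ 0 → |j| < L := by
    intro j hj
    by_contra h
    exact hj (by rw [hG j (not_lt.mp h), Complex.ofReal_zero])
  have h1 : e u * ∑ j ∈ Icc (-L) L, (G j : ℂ) * e ((j : ℝ) * u) =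
      ∑ j ∈ Icc (-L) L, (G (j - 1) : ℂ) * e ((j : ℝ) * u) := by
    rw [← shift L (fun j => (G (j - 1) : ℂ) * e ((j : ℝ) * u))]
    · rw [mul_sum]
      refine sum_congr rfl fun j _ => ?_
      rw [add_sub_cancel_right]
      push_cast
      rw [show ((j : ℝ) + 1) * u = j * u + u by ring, e_add]
      ring
    · intro j hj
      have h2 := abs_lt.mp (hG' _ (left_ne_zero_of_mul hj))
      rw [mem_Icc]
      omega
    · intro j hj
      have h2 := abs_lt.mp (hG' _ (left_ne_zero_of_mul hj))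
      rw [mem_Icc]
      omega
  have h2 : e (-u) * ∑ j ∈ Icc (-L) L, (G j : ℂ) * e ((j : ℝ) * u) =
      ∑ j ∈ Icc (-L) L, (G (j + 1) : ℂ) * e ((j : ℝ) * u) := by
    have h3 := shift L (fun j => (G j : ℂ) * e (((j - 1 : ℤ) : ℝ) * u)) (by
      intro j hj
      have h2 := abs_lt.mp (hG' _ (left_ne_zero_of_mul hj))
      rw [mem_Icc]
      omega) (by
      intro j hj
      have h2 := abs_lt.mp (hG' _ (left_ne_zero_of_mul hj))
      rw [mem_Icc]
      omega)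
    simp only [add_sub_cancel_right] at h3
    rw [h3, mul_sum]
    refine sum_congr rfl fun j _ => ?_
    push_cast
    rw [show ((j : ℝ) - 1) * u = j * u + -u by ring, e_add]
    ring
  have h3 : ((2 - 2 * Real.cos (2 * Real.pi * u) : ℝ) : ℂ) = 2 - (e u + e (-u)) := by
    rw [e_cos]; push_cast; ring
  rw [h3, sub_mul, add_mul, h1, h2, mul_sum, ← sum_add_distrib, ← sum_sub_distrib]
  refine sum_congr rfl fun j _ => ?_
  push_cast
  ring

lemma key2 (L : ℤ) (G : ℤ → ℝ) (hG : ∀ j : ℤ, L ≤ |j| → G j = 0) (u : ℝ) (hu : |u| ≤ 1 / 2) :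
    16 * u ^ 2 * ‖∑ j ∈ Icc (-L) L, (G j : ℂ) * e ((j : ℝ) * u)‖ ≤
      ∑ j ∈ Icc (-L) L, |2 * G j - G (j - 1) - G (j + 1)| := by
  have h1 : 16 * u ^ 2 ≤ 2 - 2 * Real.cos (2 * Real.pi * u) := by
    have h2 : 2 - 2 * Real.cos (2 * Real.pi * u) = 4 * Real.sin (Real.pi * u) ^ 2 := by
      rw [show 2 * Real.pi * u = 2 * (Real.pi * u) by ring, Real.cos_two_mul]
      have := Real.sin_sq_add_cos_sq (Real.pi * u)
      linarith
    have hpi := Real.pi_pos
    have h3 : 2 * |u| ≤ |Real.sin (Real.pi * u)| := by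
      have h4 : |Real.pi * u| ≤ Real.pi / 2 := by
        rw [abs_mul, abs_of_pos hpi]
        nlinarith
      have h5 := Real.mul_abs_le_abs_sin h4
      rw [abs_mul, abs_of_pos hpi] at h5
      have h6 : 2 / Real.pi * (Real.pi * |u|) = 2 * |u| := by
        field_simp
      rwa [h6] at h5
    have h4 : (2 * |u|) ^ 2 ≤ |Real.sin (Real.pi * u)| ^ 2 := pow_le_pow_left₀ (by positivity) h3 2
    rw [sq_abs, mul_pow, sq_abs] at h4
    rw [h2]
    linarith
  have h2 := congrArg norm (key L G hG u)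
  rw [norm_mul, Complex.norm_real, Real.norm_of_nonneg (le_trans (by positivity) h1)] at h2
  calc 16 * u ^ 2 * ‖∑ j ∈ Icc (-L) L, (G j : ℂ) * e ((j : ℝ) * u)‖
      ≤ (2 - 2 * Real.cos (2 * Real.pi * u)) * ‖∑ j ∈ Icc (-L) L, (G j : ℂ) * e ((j : ℝ) * u)‖ :=
        mul_le_mul_of_nonneg_right h1 (norm_nonneg _)
    _ = ‖∑ j ∈ Icc (-L) L, ((2 * G j - G (j - 1) - G (j + 1) : ℝ) : ℂ) * e ((j : ℝ) * u)‖ := h2
    _ ≤ ∑ j ∈ Icc (-L) L, |2 * G j - G (j - 1) - G (j + 1)| := by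
        refine (norm_sum_le _ _).trans (le_of_eq (sum_congr rfl fun j _ => ?_))
        rw [norm_mul, norm_e, mul_one, Complex.norm_real, Real.norm_eq_abs]

/-- the tent function -/
def T (m j : ℤ) : ℤ := max 0 (m - (j.natAbs : ℤ))

lemma T_d2 (m j : ℤ) (hm : 1 ≤ m) : |2 * T m j - T m (j - 1) - T m (j + 1)| ≤
    (if j = m then 1 else 0) + (if j = -m then 1 else 0) + (if j = 0 then 2 else 0) := by
  unfold T
  rw [abs_le]
  constructor <;> omega

lemma T_d1 (m j : ℤ) : |T m (j - 1) - T m (j + 1)| ≤ 2 := by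
  unfold T
  rw [abs_le]
  constructor <;> omega

lemma T_j (m j : ℤ) (hm : 1 ≤ m) :
    |2 * (j * T m j) - (j - 1) * T m (j - 1) - (j + 1) * T m (j + 1)| ≤
    (if j = m then m else 0) + (if j = -m then m else 0) + 2 := by
  have h1 : 2 * (j * T m j) - (j - 1) * T m (j - 1) - (j + 1) * T m (j + 1) =
      j * (2 * T m j - T m (j - 1) - T m (j + 1)) + (T m (j - 1) - T m (j + 1)) := by ring
  rw [h1]
  refine (abs_add_le _ _).trans ?_
  have h2 := T_d1 m j
  have h3 := T_d2 m j hm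
  have h4 : |j * (2 * T m j - T m (j - 1) - T m (j + 1))| ≤
      (if j = m then m else 0) + (if j = -m then m else 0) := by
    rw [abs_mul]
    by_cases hj1 : j = m
    · rw [if_pos hj1, if_neg (by omega)]
      rw [if_pos hj1, if_neg (by omega), if_neg (by omega)] at h3
      have h5 : |j| = m := by rw [hj1]; exact abs_of_pos (by omega)
      rw [h5]
      nlinarith
    · by_cases hj2 : j = -m
      · rw [if_neg hj1, if_pos hj2]
        rw [if_neg hj1, if_pos hj2, if_neg (by omega)] at h3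
        have h5 : |j| = m := by rw [hj2, abs_neg]; exact abs_of_pos (by omega)
        rw [h5]
        nlinarith
      · rw [if_neg hj1, if_neg hj2]
        rw [if_neg hj1, if_neg hj2] at h3
        by_cases hj0 : j = 0
        · rw [hj0, abs_zero, zero_mul, add_zero]
        · rw [if_neg hj0] at h3
          have h5 := abs_nonneg (2 * T m j - T m (j - 1) - T m (j + 1))
          have h6 : |2 * T m j - T m (j - 1) - T m (j + 1)| = 0 := by omega
          rw [h6, mul_zero, add_zero]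
  linarith

lemma sum_one (L m : ℤ) (c : ℤ) (hc : 0 ≤ c) : ∑ j ∈ Icc (-L) L, (if j = m then c else 0) ≤ c := by
  rw [sum_ite_eq']
  split_ifs <;> omega

lemma sum_d2 (L m : ℤ) (hm : 1 ≤ m) :
    ∑ j ∈ Icc (-L) L, |2 * T m j - T m (j - 1) - T m (j + 1)| ≤ 4 := by
  refine (sum_le_sum fun j _ => T_d2 m j hm).trans ?_
  rw [sum_add_distrib, sum_add_distrib]
  have h1 := sum_one L m 1 (by norm_num)
  have h2 := sum_one L (-m) 1 (by norm_num)
  have h3 := sum_one L 0 2 (by norm_num)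
  linarith

lemma sum_j (L m : ℤ) (hL : 0 ≤ L) (hm : 1 ≤ m) :
    ∑ j ∈ Icc (-L) L, |2 * (j * T m j) - (j - 1) * T m (j - 1) - (j + 1) * T m (j + 1)| ≤
      2 * m + 2 * (2 * L + 1) := by
  refine (sum_le_sum fun j _ => T_j m j hm).trans ?_
  rw [sum_add_distrib, sum_add_distrib]
  have h1 := sum_one L m m (by omega)
  have h2 := sum_one L (-m) m (by omega)
  have h3 : ∑ _j ∈ Icc (-L) L, (2 : ℤ) = 2 * (2 * L + 1) := by
    rw [sum_const, Int.card_Icc, nsmul_eq_mul, Int.toNat_of_nonneg (by omega)]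
    ring
  linarith

lemma tz_eq (M : ℕ) (hM : 1 ≤ M) (j : ℤ) :
    tz M j = ((T (2 * M) j - T M j : ℤ) : ℝ) / M := by
  have hMp : (0 : ℝ) < M := by exact_mod_cast hM
  have hj : |(j : ℝ)| = (j.natAbs : ℝ) := by
    rw [Nat.cast_natAbs, Int.cast_abs]
  unfold tz T
  rw [hj, eq_div_iff hMp.ne']
  set a : ℕ := j.natAbs with ha
  rcases le_total (a : ℤ) M with h1 | h1
  · have h1' : (a : ℝ) ≤ M := by exact_mod_cast h1
    rw [max_eq_right (show (0 : ℤ) ≤ 2 * (M : ℤ) - a by omega),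
      max_eq_right (show (0 : ℤ) ≤ (M : ℤ) - a by omega)]
    have h2 : (a : ℝ) / M ≤ 1 := by rw [div_le_one hMp]; exact h1'
    rw [min_eq_left (by linarith), max_eq_right (by norm_num)]
    push_cast
    ring
  · rcases le_total (a : ℤ) (2 * M) with h3 | h3
    · have h1' : (M : ℝ) ≤ a := by exact_mod_cast h1
      have h3' : (a : ℝ) ≤ 2 * M := by exact_mod_cast h3
      rw [max_eq_right (show (0 : ℤ) ≤ 2 * (M : ℤ) - a by omega),
        max_eq_left (show (M : ℤ) - a ≤ 0 by omega)]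
      have h2 : 1 ≤ (a : ℝ) / M := by rw [one_le_div hMp]; exact h1'
      have h4 : (a : ℝ) / M ≤ 2 := by rw [div_le_iff₀ hMp]; exact h3'
      rw [min_eq_right (by linarith), max_eq_right (by linarith)]
      push_cast
      field_simp
      ring
    · have h3' : 2 * (M : ℝ) ≤ a := by exact_mod_cast h3
      rw [max_eq_left (show 2 * (M : ℤ) - a ≤ 0 by omega),
        max_eq_left (show (M : ℤ) - a ≤ 0 by omega)]
      have h4 : 2 ≤ (a : ℝ) / M := by rw [le_div_iff₀ hMp]; exact h3'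
      rw [min_eq_right (by linarith), max_eq_left (by linarith)]
      simp

lemma tz_nonneg (M : ℕ) (j : ℤ) : 0 ≤ tz M j := le_max_left _ _

lemma tz_le (M : ℕ) (j : ℤ) : tz M j ≤ 1 := max_le zero_le_one (min_le_left _ _)

lemma tz_zero (M : ℕ) (hM : 1 ≤ M) (j : ℤ) (hj : 2 * (M : ℤ) ≤ |j|) : tz M j = 0 := by
  rw [tz_eq M hM]
  unfold T
  rw [Int.abs_eq_natAbs] at hj
  rw [max_eq_left (by omega), max_eq_left (by omega)]
  simp

lemma S0_decay (M : ℕ) (hM : 1 ≤ M) (u : ℝ) (hu : |u| ≤ 1 / 2) :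
    16 * u ^ 2 * ‖∑ j ∈ Icc (-(2 * (M : ℤ))) (2 * M), (tz M j : ℂ) * e ((j : ℝ) * u)‖ ≤ 8 / M := by
  have hMp : (0 : ℝ) < M := by exact_mod_cast hM
  refine (key2 (2 * M) (fun j => tz M j) (tz_zero M hM) u hu).trans ?_
  have h1 : ∀ j : ℤ, |2 * tz M j - tz M (j - 1) - tz M (j + 1)| ≤
      ((|2 * T (2 * M) j - T (2 * M) (j - 1) - T (2 * M) (j + 1)| +
        |2 * T M j - T M (j - 1) - T M (j + 1)| : ℤ) : ℝ) / M := by
    intro j
    rw [tz_eq M hM, tz_eq M hM, tz_eq M hM]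
    have h2 : 2 * (((T (2 * M) j - T M j : ℤ) : ℝ) / M) - ((T (2 * M) (j - 1) - T M (j - 1) : ℤ) : ℝ) / M -
        ((T (2 * M) (j + 1) - T M (j + 1) : ℤ) : ℝ) / M =
        (((2 * T (2 * M) j - T (2 * M) (j - 1) - T (2 * M) (j + 1)) -
          (2 * T M j - T M (j - 1) - T M (j + 1)) : ℤ) : ℝ) / M := by
      push_cast
      field_simp
      ring
    rw [h2, abs_div, abs_of_pos hMp, ← Int.cast_abs]
    apply div_le_div_of_nonneg_right _ hMp.le
    exact_mod_cast abs_sub _ _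
  refine (sum_le_sum fun j _ => h1 j).trans ?_
  rw [← sum_div, ← Int.cast_sum, sum_add_distrib]
  apply div_le_div_of_nonneg_right _ hMp.le
  have h3 := sum_d2 (2 * M) (2 * M) (by omega)
  have h4 := sum_d2 (2 * M) M (by omega)
  refine le_trans (Int.cast_le.mpr (?_ : _ ≤ (8 : ℤ))) (by norm_num)
  linarith

lemma S1_decay (M : ℕ) (hM : 1 ≤ M) (u : ℝ) (hu : |u| ≤ 1 / 2) :
    16 * u ^ 2 * ‖∑ j ∈ Icc (-(2 * (M : ℤ))) (2 * M), (((j : ℝ) * tz M j : ℝ) : ℂ) * e ((j : ℝ) * u)‖ ≤ 26 := by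
  have hMp : (0 : ℝ) < M := by exact_mod_cast hM
  refine (key2 (2 * M) (fun j => (j : ℝ) * tz M j)
    (fun j hj => by rw [tz_zero M hM j hj, mul_zero]) u hu).trans ?_
  have h1 : ∀ j : ℤ, |2 * ((j : ℝ) * tz M j) - ((j - 1 : ℤ) : ℝ) * tz M (j - 1) -
      ((j + 1 : ℤ) : ℝ) * tz M (j + 1)| ≤
      ((|2 * (j * T (2 * M) j) - (j - 1) * T (2 * M) (j - 1) - (j + 1) * T (2 * M) (j + 1)| +
        |2 * (j * T M j) - (j - 1) * T M (j - 1) - (j + 1) * T M (j + 1)| : ℤ) : ℝ) / M := by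
    intro j
    rw [tz_eq M hM, tz_eq M hM, tz_eq M hM]
    have h2 : 2 * ((j : ℝ) * (((T (2 * M) j - T M j : ℤ) : ℝ) / M)) -
        ((j - 1 : ℤ) : ℝ) * (((T (2 * M) (j - 1) - T M (j - 1) : ℤ) : ℝ) / M) -
        ((j + 1 : ℤ) : ℝ) * (((T (2 * M) (j + 1) - T M (j + 1) : ℤ) : ℝ) / M) =
        (((2 * (j * T (2 * M) j) - (j - 1) * T (2 * M) (j - 1) - (j + 1) * T (2 * M) (j + 1)) -
          (2 * (j * T M j) - (j - 1) * T M (j - 1) - (j + 1) * T M (j + 1)) : ℤ) : ℝ) / M := by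
      push_cast
      field_simp
      ring
    rw [h2, abs_div, abs_of_pos hMp, ← Int.cast_abs]
    apply div_le_div_of_nonneg_right _ hMp.le
    exact_mod_cast abs_sub _ _
  refine (sum_le_sum fun j _ => h1 j).trans ?_
  rw [← sum_div, ← Int.cast_sum, sum_add_distrib, div_le_iff₀ hMp]
  have h3 := sum_j (2 * M) (2 * M) (by omega) (by omega)
  have h4 := sum_j (2 * M) M (by omega) (by omega)
  have h5 : (1 : ℤ) ≤ M := by exact_mod_cast hM
  refine le_trans (Int.cast_le.mpr (?_ : _ ≤ (26 : ℤ) * M)) (by push_cast; exact le_rfl)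
  linarith

lemma S0_triv (M : ℕ) (hM : 1 ≤ M) (u : ℝ) :
    ‖∑ j ∈ Icc (-(2 * (M : ℤ))) (2 * M), (tz M j : ℂ) * e ((j : ℝ) * u)‖ ≤ 5 * M := by
  have h5 : (1 : ℝ) ≤ M := by exact_mod_cast hM
  refine (norm_sum_le _ _).trans ((sum_le_sum fun j _ => (?_ : _ ≤ (1 : ℝ))).trans ?_)
  · rw [norm_mul, norm_e, mul_one, Complex.norm_real, Real.norm_of_nonneg (tz_nonneg M j)]
    exact tz_le M j
  · rw [sum_const, Int.card_Icc, nsmul_eq_mul, mul_one]
    have h6 : (((2 * (M : ℤ) + 1 - -(2 * (M : ℤ))).toNat : ℕ) : ℝ) = 4 * M + 1 := by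
      have h7 : (2 * (M : ℤ) + 1 - -(2 * (M : ℤ))).toNat = 4 * M + 1 := by omega
      rw [h7]; push_cast; ring
    rw [h6]
    linarith

lemma S1_triv (M : ℕ) (hM : 1 ≤ M) (u : ℝ) :
    ‖∑ j ∈ Icc (-(2 * (M : ℤ))) (2 * M), (((j : ℝ) * tz M j : ℝ) : ℂ) * e ((j : ℝ) * u)‖ ≤
      10 * (M : ℝ) ^ 2 := by
  have h5 : (1 : ℝ) ≤ M := by exact_mod_cast hM
  refine (norm_sum_le _ _).trans ((sum_le_sum fun j hj => (?_ : _ ≤ (2 * M : ℝ))).trans ?_)
  · rw [mem_Icc] at hj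
    rw [norm_mul, norm_e, mul_one, Complex.norm_real, Real.norm_eq_abs, abs_mul,
      abs_of_nonneg (tz_nonneg M j)]
    have h6 : |(j : ℝ)| ≤ 2 * M := by
      rw [abs_le]
      constructor
      · exact_mod_cast hj.1
      · exact_mod_cast hj.2
    calc |(j : ℝ)| * tz M j ≤ (2 * M) * 1 :=
          mul_le_mul h6 (tz_le M j) (tz_nonneg M j) (by positivity)
      _ = 2 * M := mul_one _
  · rw [sum_const, Int.card_Icc, nsmul_eq_mul]
    have h6 : (((2 * (M : ℤ) + 1 - -(2 * (M : ℤ))).toNat : ℕ) : ℝ) = 4 * M + 1 := by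
      have h7 : (2 * (M : ℤ) + 1 - -(2 * (M : ℤ))).toNat = 4 * M + 1 := by omega
      rw [h7]; push_cast; ring
    rw [h6]
    nlinarith

lemma e_int (j : ℤ) : e (j : ℝ) = 1 := by
  unfold e
  rw [Complex.exp_eq_one_iff]
  exact ⟨j, by push_cast; ring⟩

lemma hasDeriv_e (a t : ℝ) :
    HasDerivAt (fun t : ℝ => e (a * t)) (((2 * Real.pi * a : ℝ) : ℂ) * Complex.I * e (a * t)) t := by
  unfold e
  have h1 : HasDerivAt (fun t : ℝ => 2 * Real.pi * (a * t)) (2 * Real.pi * a) t := by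
    have h2 := ((hasDerivAt_id t).const_mul a).const_mul (2 * Real.pi)
    simp only [mul_one] at h2
    exact h2
  have h3 := (h1.ofReal_comp.mul_const Complex.I).cexp
  convert! h3 using 1
  ring

lemma hasDeriv_vp (R M : ℕ) (t : ℝ) : HasDerivAt (vp R M)
    (((2 * Real.pi / (2 * R + 1) ^ 2 : ℝ) : ℂ) * Complex.I *
      ∑ j ∈ Icc (-(2 * (M : ℤ))) (2 * M), (((j : ℝ) * tz M j : ℝ) : ℂ) * e ((j : ℝ) * (t / (2 * R + 1)))) t := by
  have hN : (2 * (R : ℝ) + 1) ≠ 0 := by positivity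
  have hNc : (2 * (R : ℂ) + 1) ≠ 0 := by exact_mod_cast hN
  have h1 : HasDerivAt (fun t : ℝ => ∑ j ∈ Icc (-(2 * (M : ℤ))) (2 * M),
      (tz M j : ℂ) * e ((j : ℝ) / (2 * R + 1) * t))
      (∑ j ∈ Icc (-(2 * (M : ℤ))) (2 * M), (tz M j : ℂ) *
        (((2 * Real.pi * ((j : ℝ) / (2 * R + 1)) : ℝ) : ℂ) * Complex.I * e ((j : ℝ) / (2 * R + 1) * t))) t := by
    apply HasDerivAt.fun_sum
    intro j _
    exact (hasDeriv_e _ t).const_mul _
  have h2 := h1.div_const (2 * (R : ℂ) + 1)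
  have h3 : vp R M = fun t : ℝ => (∑ j ∈ Icc (-(2 * (M : ℤ))) (2 * M),
      (tz M j : ℂ) * e ((j : ℝ) / (2 * R + 1) * t)) / (2 * (R : ℂ) + 1) := by
    funext t
    unfold vp
    congr 1
    refine sum_congr rfl fun j _ => ?_
    rw [show (j : ℝ) * t / (2 * R + 1) = (j : ℝ) / (2 * R + 1) * t by ring]
  rw [h3]
  convert! h2 using 1
  rw [mul_sum, sum_div]
  refine sum_congr rfl fun j _ => ?_
  rw [show (j : ℝ) * (t / (2 * R + 1)) = (j : ℝ) / (2 * R + 1) * t by ring]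
  push_cast
  field_simp

theorem t : S_VPB := by
  refine ⟨100, by norm_num, ?_⟩
  intro R M t hM hMR
  have hNp : (0 : ℝ) < 2 * R + 1 := by positivity
  have hMp : (0 : ℝ) < M := by exact_mod_cast hM
  have hNc : (2 * (R : ℂ) + 1) ≠ 0 := by exact_mod_cast hNp.ne'
  refine ⟨?_, fun s => (hasDeriv_vp R M s).differentiableAt, ?_⟩
  · unfold vp
    congr 1
    refine sum_congr rfl fun j _ => ?_
    have h1 : (j : ℝ) * (t + (2 * R + 1)) / (2 * R + 1) = (j : ℝ) * t / (2 * R + 1) + j := by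
      field_simp
    rw [h1, e_add, e_int, mul_one]
  · intro ht
    set u : ℝ := t / (2 * R + 1) with hu
    have htu : t = u * (2 * R + 1) := by rw [hu]; field_simp
    have hu2 : |u| ≤ 1 / 2 := by
      rw [hu, abs_div, abs_of_pos hNp, div_le_iff₀ hNp]
      linarith
    have hvp : vp R M t = (∑ j ∈ Icc (-(2 * (M : ℤ))) (2 * M), (tz M j : ℂ) * e ((j : ℝ) * u)) /
        (2 * (R : ℂ) + 1) := by
      unfold vp
      congr 1
      refine sum_congr rfl fun j _ => ?_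
      rw [hu, mul_div_assoc]
    have hnN : ‖(2 * (R : ℂ) + 1)‖ = 2 * R + 1 := by
      have : (2 * (R : ℂ) + 1) = ((2 * R + 1 : ℝ) : ℂ) := by push_cast; ring
      rw [this, Complex.norm_real, Real.norm_of_nonneg hNp.le]
    have h0 := S0_triv M hM u
    have h1 := S1_triv M hM u
    have h2 := S0_decay M hM u hu2
    have h3 := S1_decay M hM u hu2
    have hd := (hasDeriv_vp R M t).deriv
    rw [← hu] at hd
    set S0 := ‖∑ j ∈ Icc (-(2 * (M : ℤ))) (2 * M), (tz M j : ℂ) * e ((j : ℝ) * u)‖ with hS0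
    set S1 := ‖∑ j ∈ Icc (-(2 * (M : ℤ))) (2 * M), (((j : ℝ) * tz M j : ℝ) : ℂ) * e ((j : ℝ) * u)‖ with hS1
    have hS0p : 0 ≤ S0 := norm_nonneg _
    have hS1p : 0 ≤ S1 := norm_nonneg _
    have hn : ‖vp R M t‖ = S0 / (2 * R + 1) := by rw [hvp, norm_div, hnN]
    have hpi3 := Real.pi_le_four
    have hpi0 := Real.pi_pos
    have hn' : ‖deriv (vp R M) t‖ = 2 * Real.pi / (2 * R + 1) ^ 2 * S1 := by
      rw [hd, norm_mul, norm_mul, Complex.norm_I, mul_one, Complex.norm_real,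
        Real.norm_of_nonneg (by positivity)]
    refine ⟨?_, ?_, ?_, ?_⟩
    · rw [hn, div_le_iff₀ hNp]
      have : 100 * ((M : ℝ) / (2 * R + 1)) * (2 * R + 1) = 100 * M := by field_simp
      rw [this]
      linarith
    · rw [hn, htu]
      have h4 : S0 / (2 * R + 1) * (u * (2 * R + 1)) ^ 2 = (u ^ 2 * S0) * (2 * R + 1) := by
        field_simp
      rw [h4]
      have h5 : u ^ 2 * S0 ≤ 1 / M := by
        have : 8 / (M : ℝ) = 8 * (1 / M) := by ring
        rw [this] at h2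
        have h6 : (0 : ℝ) ≤ 1 / M := by positivity
        linarith
      calc u ^ 2 * S0 * (2 * R + 1) ≤ 1 / M * (2 * R + 1) := by gcongr
        _ = 1 * ((2 * R + 1) / M) := by ring
        _ ≤ 100 * ((2 * R + 1) / M) := by gcongr; norm_num
    · rw [hn']
      calc 2 * Real.pi / (2 * R + 1) ^ 2 * S1 ≤ 2 * 4 / (2 * R + 1) ^ 2 * (10 * (M : ℝ) ^ 2) := by
            gcongr
        _ = (80 : ℝ) * ((M : ℝ) / (2 * R + 1)) ^ 2 := by
            rw [div_pow]; ring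
        _ ≤ (100 : ℝ) * ((M : ℝ) / (2 * R + 1)) ^ 2 := by gcongr; norm_num
    · rw [hn', htu]
      have h4 : 2 * Real.pi / (2 * R + 1) ^ 2 * S1 * (u * (2 * R + 1)) ^ 2 = 2 * Real.pi * (u ^ 2 * S1) := by
        field_simp
      rw [h4]
      have h5 : u ^ 2 * S1 ≤ 2 := by linarith
      have h6 : 0 ≤ u ^ 2 * S1 := by positivity
      nlinarith

end Pool.Agent.H13K.VPB
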