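import Pool.Agent.H13K.StmS

/-! Stub LOWL (helper13), also for windows and in terms of `Polynomial ℤ`. -/

set_option autoImplicit false

namespace Pool.Agent.H13K.LOWL

open Finset
open scoped Polynomial

/-- the polynomial with the coefficients `a 0, ..., a d` -/
noncomputable def po {d : ℕ} (a : Fin (d + 1) → ℤ) : ℤ[X] := ∑ l : Fin (d + 1), Polynomial.C (a l) * Polynomial.X ^ (l : ℕ)

lemma eval_po {d : ℕ} (a : Fin (d + 1) → ℤ) (n : ℤ) : (po a).eval n = Fv a n := by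
  unfold po Fv
  rw [Polynomial.eval_finsetSum]
  refine sum_congr rfl fun l _ => ?_
  simp

lemma coeff_po {d : ℕ} (a : Fin (d + 1) → ℤ) (l : Fin (d + 1)) : (po a).coeff (l : ℕ) = a l := by
  unfold po
  rw [Polynomial.finsetSum_coeff]
  rw [Finset.sum_eq_single l]
  · simp
  · intro b _ hb
    rw [Polynomial.coeff_C_mul, Polynomial.coeff_X_pow, if_neg, mul_zero]
    exact fun h => hb (Fin.ext h.symm)
  · intro h
    exact absurd (mem_univ _) h

lemma natDegree_po_le {d : ℕ} (a : Fin (d + 1) → ℤ) : (po a).natDegree ≤ d := by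
  unfold po
  refine Polynomial.natDegree_sum_le_of_forall_le _ _ fun l _ => ?_
  refine (Polynomial.natDegree_C_mul_X_pow_le _ _).trans ?_
  have := l.isLt
  omega

lemma natDegree_po {d : ℕ} (a : Fin (d + 1) → ℤ) (h : a (Fin.last d) ≠ 0) : (po a).natDegree = d := by
  refine le_antisymm (natDegree_po_le a) (Polynomial.le_natDegree_of_ne_zero ?_)
  have := coeff_po a (Fin.last d)
  rw [Fin.val_last] at this
  rwa [this]

/-- a value is taken at most `d` times -/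
lemma card_val {d : ℕ} (hd : 1 ≤ d) (a : Fin (d + 1) → ℤ) (h : a (Fin.last d) ≠ 0) (c : ℤ) (S : Finset ℕ) :
    (S.filter (fun n : ℕ => Fv a (n : ℤ) = c)).card ≤ d := by
  set p := po a - Polynomial.C c with hp
  have hdeg : p.natDegree ≤ d := by
    refine (le_of_eq ?_).trans (natDegree_po_le a)
    exact Polynomial.natDegree_sub_C
  have hp0 : p ≠ 0 := by
    intro h0
    have h1 : p.coeff d = 0 := by rw [h0]; simp
    rw [hp, Polynomial.coeff_sub, Polynomial.coeff_C, if_neg (by omega), sub_zero] at h1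
    have := coeff_po a (Fin.last d)
    rw [Fin.val_last] at this
    exact h (this ▸ h1)
  have hmap : ((S.filter (fun n : ℕ => Fv a (n : ℤ) = c)).map Nat.castEmbedding : Finset ℤ) ⊆ p.roots.toFinset := by
    intro x hx
    rw [mem_map] at hx
    obtain ⟨n, hn, rfl⟩ := hx
    rw [mem_filter] at hn
    rw [Multiset.mem_toFinset, Polynomial.mem_roots hp0, Polynomial.IsRoot, hp, Polynomial.eval_sub, Polynomial.eval_C]
    change (po a).eval (n : ℤ) - c = 0
    rw [eval_po, hn.2, sub_self]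
  calc (S.filter (fun n : ℕ => Fv a (n : ℤ) = c)).card
      = ((S.filter (fun n : ℕ => Fv a (n : ℤ) = c)).map Nat.castEmbedding : Finset ℤ).card := (card_map _).symm
    _ ≤ p.roots.toFinset.card := card_le_card hmap
    _ ≤ Multiset.card p.roots := Multiset.toFinset_card_le _
    _ ≤ p.natDegree := Polynomial.card_roots' p
    _ ≤ d := hdeg

/-- the small values -/
lemma card_small {d : ℕ} (hd : 1 ≤ d) (a : Fin (d + 1) → ℤ) (h : a (Fin.last d) ≠ 0) (S : Finset ℕ) :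
    (S.filter (fun n : ℕ => ¬ 2 ≤ |Fv a (n : ℤ)|)).card ≤ 3 * d := by
  have hsub : S.filter (fun n : ℕ => ¬ 2 ≤ |Fv a (n : ℤ)|) ⊆
      (S.filter (fun n : ℕ => Fv a (n : ℤ) = 0) ∪ S.filter (fun n : ℕ => Fv a (n : ℤ) = 1)) ∪
        S.filter (fun n : ℕ => Fv a (n : ℤ) = -1) := by
    intro n hn
    rw [mem_filter] at hn
    rw [mem_union, mem_union, mem_filter, mem_filter, mem_filter]
    have h1 := hn.2
    push Not at h1
    rw [abs_lt] at h1
    have : Fv a (n : ℤ) = 0 ∨ Fv a (n : ℤ) = 1 ∨ Fv a (n : ℤ) = -1 := by omega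
    rcases this with h2 | h2 | h2
    · exact Or.inl (Or.inl ⟨hn.1, h2⟩)
    · exact Or.inl (Or.inr ⟨hn.1, h2⟩)
    · exact Or.inr ⟨hn.1, h2⟩
  have h0 := card_val hd a h 0 S
  have h1 := card_val hd a h 1 S
  have h2 := card_val hd a h (-1) S
  have h3 := card_le_card hsub
  have h4 := card_union_le ((S.filter (fun n : ℕ => Fv a (n : ℤ) = 0) ∪ S.filter (fun n : ℕ => Fv a (n : ℤ) = 1)))
    (S.filter (fun n : ℕ => Fv a (n : ℤ) = -1))
  have h5 := card_union_le (S.filter (fun n : ℕ => Fv a (n : ℤ) = 0)) (S.filter (fun n : ℕ => Fv a (n : ℤ) = 1))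
  omega

/-- bound for the values -/
lemma Fv_le {d : ℕ} (a : Fin (d + 1) → ℤ) (H : ℕ) (ha : ∀ l, |a l| ≤ (H : ℤ)) (n : ℕ) (hn : 1 ≤ n) :
    |Fv a (n : ℤ)| ≤ (d + 1) * H * (n : ℤ) ^ d := by
  unfold Fv
  calc |∑ l : Fin (d + 1), a l * (n : ℤ) ^ (l : ℕ)| ≤ ∑ l : Fin (d + 1), |a l * (n : ℤ) ^ (l : ℕ)| := abs_sum_le_sum_abs _ _
    _ ≤ ∑ l : Fin (d + 1), (H : ℤ) * (n : ℤ) ^ d := by
        refine sum_le_sum fun l _ => ?_
        rw [abs_mul, abs_of_nonneg (by positivity : (0 : ℤ) ≤ (n : ℤ) ^ (l : ℕ))]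
        refine mul_le_mul (ha l) ?_ (by positivity) (by positivity)
        refine pow_le_pow_right₀ (by exact_mod_cast hn) ?_
        have := l.isLt
        omega
    _ = (d + 1) * H * (n : ℤ) ^ d := by
        rw [sum_const, card_univ, Fintype.card_fin]
        simp
        ring

lemma mem_bx {m : ℕ} {dd : Fin m → ℕ} {H : ℕ} {a : ∀ i : Fin m, Fin (dd i + 1) → ℤ} (ha : a ∈ bx dd H) (i : Fin m)
    (l : Fin (dd i + 1)) : |a i l| ≤ (H : ℤ) := by
  unfold bx at ha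
  have h1 := Fintype.mem_piFinset.1 (Fintype.mem_piFinset.1 ha i) l
  rw [mem_Icc] at h1
  rw [abs_le]
  exact h1

/-- lower bound for one term -/
lemma lg_ge {d : ℕ} (a : Fin (d + 1) → ℤ) (H : ℕ) (hH : d + 1 ≤ H) (hH2 : 2 ≤ H) (ha : ∀ l, |a l| ≤ (H : ℤ)) (n : ℕ) (hn : 1 ≤ n)
    (hnH : n ≤ H) (h2 : 2 ≤ |Fv a (n : ℤ)|) : 1 / (((d : ℝ) + 2) * Real.log H) ≤ lg (Fv a (n : ℤ)) := by
  have hHr : (2 : ℝ) ≤ H := by exact_mod_cast hH2
  have hL : 0 < Real.log H := Real.log_pos (by linarith)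
  unfold lg
  rw [if_pos h2]
  have h2r : (2 : ℝ) ≤ |((Fv a (n : ℤ) : ℤ) : ℝ)| := by
    rw [← Int.cast_abs]
    exact_mod_cast h2
  have hlog : 0 < Real.log |((Fv a (n : ℤ) : ℤ) : ℝ)| := Real.log_pos (by linarith)
  refine one_div_le_one_div_of_le hlog ?_
  have h1 : |Fv a (n : ℤ)| ≤ (H : ℤ) ^ (d + 2) := by
    refine (Fv_le a H ha n hn).trans ?_
    calc ((d : ℤ) + 1) * H * (n : ℤ) ^ d ≤ (H : ℤ) * H * (H : ℤ) ^ d := by
          refine mul_le_mul (mul_le_mul_of_nonneg_right (by exact_mod_cast hH) (by positivity)) ?_ (by positivity) (by positivity)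
          exact pow_le_pow_left₀ (by positivity) (by exact_mod_cast hnH) _
      _ = (H : ℤ) ^ (d + 2) := by ring
  have h1r : |((Fv a (n : ℤ) : ℤ) : ℝ)| ≤ (H : ℝ) ^ (d + 2) := by
    rw [← Int.cast_abs]
    exact_mod_cast h1
  calc Real.log |((Fv a (n : ℤ) : ℤ) : ℝ)| ≤ Real.log ((H : ℝ) ^ (d + 2)) := Real.log_le_log (by linarith) h1r
    _ = ((d : ℝ) + 2) * Real.log H := by rw [Real.log_pow]; push_cast; ring

lemma lg_nonneg (y : ℤ) : 0 ≤ lg y := by
  unfold lg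
  split_ifs with h
  · have h2r : (2 : ℝ) ≤ |(y : ℝ)| := by
      rw [← Int.cast_abs]
      exact_mod_cast h
    exact one_div_nonneg.2 (Real.log_nonneg (by linarith))
  · exact le_rfl

lemma Wf_nonneg {m : ℕ} {dd : Fin m → ℕ} (a : ∀ i : Fin m, Fin (dd i + 1) → ℤ) (n : ℤ) : 0 ≤ Wf a n :=
  prod_nonneg fun i _ => lg_nonneg _

/-- lower bound in a window -/
theorem win {m : ℕ} (dd : Fin m → ℕ) (hdd : ∀ i, 1 ≤ dd i) (H u v : ℕ) (hH : ∀ i, dd i + 1 ≤ H) (hH2 : 2 ≤ H)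
    (huv : u + 6 * ∑ i, dd i ≤ v) (hv : v ≤ H) (a : ∀ i : Fin m, Fin (dd i + 1) → ℤ) (ha : a ∈ bx dd H)
    (hl : ∀ i, a i (Fin.last (dd i)) ≠ 0) :
    ((v : ℝ) - u) / (2 * (∏ i, ((dd i : ℝ) + 2)) * Real.log H ^ m) ≤ ∑ n ∈ Ioc u v, Wf a (n : ℤ) := by
  have hHr : (2 : ℝ) ≤ H := by exact_mod_cast hH2
  have hL : 0 < Real.log H := Real.log_pos (by linarith)
  set c : ℝ := 1 / ((∏ i, ((dd i : ℝ) + 2)) * Real.log H ^ m) with hc
  have hprod : 0 < (∏ i, ((dd i : ℝ) + 2)) := prod_pos fun i _ => by positivity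
  have hc0 : 0 ≤ c := by positivity
  set good := (Ioc u v).filter (fun n : ℕ => ∀ i, 2 ≤ |Fv (a i) (n : ℤ)|) with hg
  have hterm : ∀ n ∈ good, c ≤ Wf a (n : ℤ) := by
    intro n hn
    rw [hg, mem_filter, mem_Ioc] at hn
    have hn1 : 1 ≤ n := by omega
    have hnH : n ≤ H := by omega
    have h1 : c = ∏ i : Fin m, (1 / (((dd i : ℝ) + 2) * Real.log H)) := by
      rw [hc]
      simp only [one_div, mul_inv, prod_mul_distrib, prod_inv_distrib]
      congr 1
      simp [prod_const]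
    rw [h1]
    unfold Wf
    exact prod_le_prod (fun i _ => by positivity) fun i _ =>
      lg_ge (a i) H (hH i) hH2 (fun l => mem_bx ha i l) n hn1 hnH (hn.2 i)
  have hcard : (v : ℝ) - u ≤ 2 * good.card := by
    have h1 : (Ioc u v).card = good.card + ((Ioc u v).filter (fun n : ℕ => ¬ ∀ i, 2 ≤ |Fv (a i) (n : ℤ)|)).card := by
      rw [hg]
      exact (card_filter_add_card_filter_not _).symm
    have h2 : ((Ioc u v).filter (fun n : ℕ => ¬ ∀ i, 2 ≤ |Fv (a i) (n : ℤ)|)).card ≤ ∑ i : Fin m, 3 * dd i := by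
      have h3 : (Ioc u v).filter (fun n : ℕ => ¬ ∀ i, 2 ≤ |Fv (a i) (n : ℤ)|) ⊆
          univ.biUnion (fun i : Fin m => (Ioc u v).filter (fun n : ℕ => ¬ 2 ≤ |Fv (a i) (n : ℤ)|)) := by
        intro n hn
        rw [mem_filter] at hn
        obtain ⟨i, hi⟩ := not_forall.1 hn.2
        rw [mem_biUnion]
        exact ⟨i, mem_univ _, mem_filter.2 ⟨hn.1, hi⟩⟩
      exact (card_le_card h3).trans (card_biUnion_le.trans (sum_le_sum fun i _ => card_small (hdd i) (a i) (hl i) _))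
    rw [← mul_sum] at h2
    rw [Nat.card_Ioc] at h1
    have h5 : v ≤ 2 * good.card + u := by omega
    have h6 : (v : ℝ) ≤ 2 * good.card + u := by exact_mod_cast h5
    linarith
  calc ((v : ℝ) - u) / (2 * (∏ i, ((dd i : ℝ) + 2)) * Real.log H ^ m) = ((v : ℝ) - u) / 2 * c := by
        rw [hc]
        field_simp
    _ ≤ good.card * c := mul_le_mul_of_nonneg_right (by linarith) hc0
    _ = ∑ n ∈ good, c := by rw [sum_const, nsmul_eq_mul]
    _ ≤ ∑ n ∈ good, Wf a (n : ℤ) := sum_le_sum hterm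
    _ ≤ ∑ n ∈ Ioc u v, Wf a (n : ℤ) := sum_le_sum_of_subset_of_nonneg (filter_subset _ _) fun _ _ _ => Wf_nonneg a _

theorem t : S_LOWL := by
  intro m dd hdd
  refine ⟨6 * ∑ i, dd i + ∑ i, (dd i + 1) + 2, fun H K hK hKH a ha hl => ?_⟩
  have h1 : ∀ i, dd i + 1 ≤ H := by
    intro i
    have : dd i + 1 ≤ ∑ i, (dd i + 1) := single_le_sum (f := fun i => dd i + 1) (fun _ _ => Nat.zero_le _) (mem_univ i)
    omega
  have h2 := win dd hdd H 0 K h1 (by omega) (by omega) hKH a ha hl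
  unfold Lf
  have h3 : Icc 1 K = Ioc 0 K := by
    ext n
    rw [mem_Icc, mem_Ioc]
    omega
  rw [h3]
  simpa using h2

end Pool.Agent.H13K.LOWL
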