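import Pool.Agent.H13K.StmS

set_option autoImplicit false

namespace Pool.Agent.H13K.T2

open Finset Filter
open Pool.Agent.H373R2.T7 (lamz pz Vz)

theorem lamz_le' (z n : ℕ) : lamz z n ≤ (Vz z)⁻¹ := by
  unfold lamz
  split_ifs
  · exact le_rfl
  · exact (inv_pos.2 (Pool.Agent.H373R2.T7.Vz_pos z)).le

theorem sf_bd {m : ℕ} {dd : Fin m → ℕ} (z : ℕ) (a : ∀ i : Fin m, Fin (dd i + 1) → ℤ) (n : ℤ) :
    0 ≤ sf z a n ∧ sf z a n ≤ ((Vz z)⁻¹) ^ m := by
  unfold sf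
  refine ⟨prod_nonneg fun i _ => Pool.Agent.H373R2.T7.lamz_nonneg _ _, ?_⟩
  calc ∏ i, lamz z (Fv (a i) n).natAbs ≤ ∏ _i : Fin m, (Vz z)⁻¹ :=
        prod_le_prod (fun i _ => Pool.Agent.H373R2.T7.lamz_nonneg _ _) (fun i _ => lamz_le' _ _)
    _ = _ := by rw [prod_const, card_univ, Fintype.card_fin]

theorem Cz_bd {m : ℕ} {dd : Fin m → ℕ} (z : ℕ) (a : ∀ i : Fin m, Fin (dd i + 1) → ℤ) :
    0 ≤ Cz z a ∧ Cz z a ≤ ((Vz z)⁻¹) ^ m := by
  have hp : ∀ p ∈ pz z, 0 < 1 - 1 / (p : ℝ) := by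
    intro p hp
    have h := (Pool.Agent.H373R2.T7.mem_pz.1 hp).2.two_le
    have h2 : (2 : ℝ) ≤ p := by exact_mod_cast h
    have h3 : 1 / (p : ℝ) ≤ 1 / 2 := one_div_le_one_div_of_le (by norm_num) h2
    linarith
  have hom : ∀ p ∈ pz z, 0 ≤ 1 - (om p a : ℝ) / p ∧ 1 - (om p a : ℝ) / p ≤ 1 := by
    intro p hp
    have h := (Pool.Agent.H373R2.T7.mem_pz.1 hp).2.pos
    have h2 : (0 : ℝ) < p := by exact_mod_cast h
    have h3 : om p a ≤ p := by
      unfold om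
      exact (card_filter_le _ _).trans (by rw [card_range])
    have h4 : (om p a : ℝ) ≤ p := by exact_mod_cast h3
    have h5 : (om p a : ℝ) / p ≤ 1 := (div_le_one h2).2 h4
    have h6 : 0 ≤ (om p a : ℝ) / p := by positivity
    constructor <;> linarith
  unfold Cz
  refine ⟨prod_nonneg fun p hp' => div_nonneg (hom p hp').1 (pow_pos (hp p hp') m).le, ?_⟩
  have e : ((Vz z)⁻¹) ^ m = ∏ p ∈ pz z, 1 / (1 - 1 / (p : ℝ)) ^ m := by
    unfold Vz
    rw [← prod_inv_distrib, ← prod_pow]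
    refine prod_congr rfl fun p _ => ?_
    rw [inv_pow, one_div ((1 - 1 / (p : ℝ)) ^ m)]
  rw [e]
  refine prod_le_prod (fun p hp' => div_nonneg (hom p hp').1 (pow_pos (hp p hp') m).le)
    (fun p hp' => ?_)
  exact div_le_div_of_nonneg_right (hom p hp').2 (pow_pos (hp p hp') m).le

/-- Abel summation -/
theorem abel (W g : ℕ → ℝ) (K : ℕ) :
    ∑ n ∈ Icc 1 K, W n * g n = W K * (∑ n ∈ Icc 1 K, g n) -
      ∑ n ∈ Ico 1 K, (W (n + 1) - W n) * (∑ j ∈ Icc 1 n, g j) := by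
  induction K with
  | zero => simp
  | succ K ih =>
    rw [sum_Icc_succ_top (by omega), sum_Icc_succ_top (by omega), ih]
    rcases Nat.eq_zero_or_pos K with h0 | h0
    · subst h0
      simp
    · rw [sum_Ico_succ_top (by omega)]
      ring

theorem abel_bd (W g : ℕ → ℝ) (K : ℕ) (C M : ℝ) (hW : |W K| ≤ C)
    (hV : ∑ n ∈ Ico 1 K, |W (n + 1) - W n| ≤ C) (hM : 0 ≤ M)
    (hG : ∀ N ≤ K, |∑ n ∈ Icc 1 N, g n| ≤ M) :
    |∑ n ∈ Icc 1 K, W n * g n| ≤ 2 * C * M := by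
  rw [abel]
  have h1 : |W K * (∑ n ∈ Icc 1 K, g n)| ≤ C * M := by
    rw [abs_mul]
    exact mul_le_mul hW (hG K le_rfl) (abs_nonneg _) ((abs_nonneg _).trans hW)
  have h2 : |∑ n ∈ Ico 1 K, (W (n + 1) - W n) * (∑ j ∈ Icc 1 n, g j)| ≤ C * M := by
    calc |∑ n ∈ Ico 1 K, (W (n + 1) - W n) * (∑ j ∈ Icc 1 n, g j)|
        ≤ ∑ n ∈ Ico 1 K, |(W (n + 1) - W n) * (∑ j ∈ Icc 1 n, g j)| := abs_sum_le_sum_abs _ _
      _ ≤ ∑ n ∈ Ico 1 K, |W (n + 1) - W n| * M := by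
          refine sum_le_sum fun n hn => ?_
          rw [abs_mul]
          exact mul_le_mul_of_nonneg_left (hG n (mem_Ico.1 hn).2.le) (abs_nonneg _)
      _ = (∑ n ∈ Ico 1 K, |W (n + 1) - W n|) * M := by rw [sum_mul]
      _ ≤ C * M := mul_le_mul_of_nonneg_right hV hM
  calc _ ≤ |W K * (∑ n ∈ Icc 1 K, g n)| +
        |∑ n ∈ Ico 1 K, (W (n + 1) - W n) * (∑ j ∈ Icc 1 n, g j)| := abs_sub _ _
    _ ≤ _ := by linarith

/-- the maximum of the partial sums and the partial sums at the multiples of `D` -/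
theorem max_bd (g : ℕ → ℝ) (K D : ℕ) (hD : 1 ≤ D) (Λ : ℝ) (hΛ : 0 ≤ Λ) (hg : ∀ n, |g n| ≤ Λ) :
    ∀ N ≤ K, (∑ n ∈ Icc 1 N, g n) ^ 2 ≤
      2 * ∑ j ∈ Icc 1 (K / D), (∑ n ∈ Icc 1 (D * j), g n) ^ 2 + 2 * (D * Λ) ^ 2 := by
  intro N hN
  set j := N / D with hj
  have h1 : D * j ≤ N := Nat.mul_div_le N D
  have h2 : N < D * j + D := by
    have := Nat.lt_mul_div_succ N (show 0 < D by omega)
    rw [Nat.mul_succ] at this
    exact this
  have h3 : ∑ n ∈ Icc 1 N, g n = ∑ n ∈ Icc 1 (D * j), g n + ∑ n ∈ Ioc (D * j) N, g n := by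
    have e1 : Icc 1 N = Ioc 0 N := rfl
    have e2 : Icc 1 (D * j) = Ioc 0 (D * j) := rfl
    rw [e1, e2, sum_Ioc_consecutive _ (Nat.zero_le _) h1]
  have h4 : |∑ n ∈ Ioc (D * j) N, g n| ≤ D * Λ := by
    calc |∑ n ∈ Ioc (D * j) N, g n| ≤ ∑ n ∈ Ioc (D * j) N, |g n| := abs_sum_le_sum_abs _ _
      _ ≤ ∑ n ∈ Ioc (D * j) N, Λ := sum_le_sum fun n _ => hg n
      _ = ((N - D * j : ℕ) : ℝ) * Λ := by rw [sum_const, Nat.card_Ioc, nsmul_eq_mul]
      _ ≤ D * Λ := by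
          refine mul_le_mul_of_nonneg_right ?_ hΛ
          exact_mod_cast (by omega : N - D * j ≤ D)
  have h5 : (∑ n ∈ Icc 1 (D * j), g n) ^ 2 ≤
      ∑ j ∈ Icc 1 (K / D), (∑ n ∈ Icc 1 (D * j), g n) ^ 2 := by
    rcases Nat.eq_zero_or_pos j with h0 | h0
    · rw [h0]
      simp only [mul_zero]
      have : Icc 1 0 = (∅ : Finset ℕ) := rfl
      rw [this, sum_empty]
      have : (0 : ℝ) ^ 2 = 0 := by norm_num
      rw [this]
      exact sum_nonneg fun _ _ => sq_nonneg _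
    · exact single_le_sum (f := fun j => (∑ n ∈ Icc 1 (D * j), g n) ^ 2)
        (fun _ _ => sq_nonneg _) (mem_Icc.2 ⟨h0, Nat.div_le_div_right hN⟩)
  have h6 : (∑ n ∈ Ioc (D * j) N, g n) ^ 2 ≤ (D * Λ) ^ 2 := by
    rw [← sq_abs]
    exact pow_le_pow_left₀ (abs_nonneg _) h4 2
  rw [h3]
  nlinarith [sq_nonneg (∑ n ∈ Icc 1 (D * j), g n - ∑ n ∈ Ioc (D * j) N, g n)]

theorem t (hVZ : S_VZ) (hSM : S_SM) (hTV : S_TV) : S_T2 := by
  intro m dd E U hdd
  obtain ⟨C, hC, hTV⟩ := hTV m dd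
  obtain ⟨C', hC', hVZ⟩ := hVZ
  obtain ⟨H1, hSM⟩ := hSM m dd E (2 * U + 3) hdd
  -- `(Vz z)^(-m) ≤ L`
  have hlog : Tendsto (fun H : ℕ => Real.log H) atTop atTop :=
    Real.tendsto_log_atTop.comp tendsto_natCast_atTop_atTop
  have hsmall : ∀ᶠ H : ℕ in atTop, (C' * E * Real.log (Real.log H) + 1) ^ m ≤ Real.log H := by
    have h1 : ∀ᶠ x : ℝ in atTop, (C' * E * Real.log x + 1) ^ m ≤ x := by
      have h2 : (fun x : ℝ => Real.log x ^ m) =o[atTop] id := Real.isLittleO_pow_log_id_atTop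
      have h3 : 0 < 1 / (C' * E + 1) ^ m := by positivity
      have h4 := h2.bound h3
      filter_upwards [h4, eventually_ge_atTop (Real.exp 1)] with x hx hx1
      have hx0 : 0 < x := (Real.exp_pos 1).trans_le hx1
      have hl : 1 ≤ Real.log x := by
        rw [Real.le_log_iff_exp_le hx0]; exact hx1
      have h5 : C' * E * Real.log x + 1 ≤ (C' * E + 1) * Real.log x := by
        have : 0 ≤ C' * E := by positivity
        nlinarith
      have h6 : 0 ≤ C' * E * Real.log x + 1 := by positivity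
      calc (C' * E * Real.log x + 1) ^ m ≤ ((C' * E + 1) * Real.log x) ^ m :=
            pow_le_pow_left₀ h6 h5 m
        _ = (C' * E + 1) ^ m * Real.log x ^ m := mul_pow _ _ _
        _ ≤ (C' * E + 1) ^ m * (1 / (C' * E + 1) ^ m * x) := by
            refine mul_le_mul_of_nonneg_left ?_ (by positivity)
            have := hx
            rw [Real.norm_of_nonneg (by positivity), id, Real.norm_of_nonneg hx0.le] at this
            exact this
        _ = x := by field_simp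
    exact hlog.eventually h1
  obtain ⟨H2, hH2⟩ := eventually_atTop.1 (hsmall.and (hlog.eventually (eventually_ge_atTop
    (64 * C ^ 2 + Real.exp 1))))
  refine ⟨2 * U + 4, max H1 H2, ?_⟩
  intro H hH z hz K hK
  have hSM' := hSM H (le_trans (le_max_left _ _) hH) z hz
  obtain ⟨hA, hB⟩ := hH2 H (le_trans (le_max_right _ _) hH)
  set L := Real.log H with hL
  have hLe : Real.exp 1 ≤ L := by nlinarith [sq_nonneg C]
  have hL1 : 1 ≤ L := le_trans (by have := Real.add_one_le_exp (1 : ℝ); linarith) hLe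
  have hL64 : 64 * C ^ 2 ≤ L := by linarith [Real.exp_pos 1]
  have hL0 : 0 < L := by linarith
  have hV0 : 0 < (Vz z)⁻¹ := inv_pos.2 (Pool.Agent.H373R2.T7.Vz_pos z)
  have hloglog : 0 ≤ Real.log L := Real.log_nonneg hL1
  have hV : ((Vz z)⁻¹) ^ m ≤ L := by
    refine le_trans (pow_le_pow_left₀ hV0.le ?_ m) hA
    rcases Nat.lt_or_ge z 2 with h2 | h2
    · have : pz z = ∅ := by
        rw [eq_empty_iff_forall_notMem]
        intro p hp
        have h3 := Pool.Agent.H373R2.T7.mem_pz.1 hp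
        have := h3.2.two_le
        omega
      unfold Vz
      rw [this, prod_empty, inv_one]
      have : 0 ≤ C' * E * Real.log L := by positivity
      linarith
    · refine (hVZ z h2).trans ?_
      have hz0 : (0 : ℝ) < z := by exact_mod_cast (by omega : 0 < z)
      have h3 : Real.log z ≤ E * Real.log L := by
        rw [← Real.log_pow]
        exact Real.log_le_log hz0 hz
      calc C' * Real.log z ≤ C' * (E * Real.log L) :=
            mul_le_mul_of_nonneg_left h3 (by linarith)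
        _ ≤ _ := by linarith
  have hg : ∀ (a : ∀ i : Fin m, Fin (dd i + 1) → ℤ) (n : ℕ), |sf z a (n : ℤ) - Cz z a| ≤ L := by
    intro a n
    have h1 := sf_bd z a (n : ℤ)
    have h2 := Cz_bd z a
    rw [abs_le]
    constructor <;> linarith [h1.1, h1.2, h2.1, h2.2]
  -- the step
  have hKL : L ^ (U + 2) ≤ K := le_trans (pow_le_pow_right₀ hL1 (by omega)) hK
  have hK1 : (1 : ℝ) ≤ K := le_trans (one_le_pow₀ hL1) hKL
  have hK0 : (0 : ℝ) < K := by linarith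
  set D := ⌊(K : ℝ) / L ^ (U + 2)⌋₊ + 1 with hD
  have hDlow : (K : ℝ) / L ^ (U + 2) ≤ D := by
    rw [hD]; push_cast; exact (Nat.lt_floor_add_one _).le
  have hDup : (D : ℝ) ≤ 2 * (K : ℝ) / L ^ (U + 2) := by
    have h1 : (⌊(K : ℝ) / L ^ (U + 2)⌋₊ : ℝ) ≤ (K : ℝ) / L ^ (U + 2) := Nat.floor_le (by positivity)
    have h2 : 1 ≤ (K : ℝ) / L ^ (U + 2) := by
      rw [le_div_iff₀ (by positivity), one_mul]; exact hKL
    rw [hD]; push_cast
    have e : 2 * (K : ℝ) / L ^ (U + 2) = (K : ℝ) / L ^ (U + 2) + (K : ℝ) / L ^ (U + 2) := by ring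
    linarith
  have hD1 : 1 ≤ D := by omega
  have hD0 : (0 : ℝ) < D := by exact_mod_cast hD1
  have hJ : ((K / D : ℕ) : ℝ) ≤ L ^ (U + 2) := by
    refine Nat.cast_div_le.trans ?_
    rw [div_le_iff₀ hD0]
    rw [div_le_iff₀ (by positivity)] at hDlow
    linarith
  -- one array
  have hone : ∀ a ∈ bx dd H, (∑ n ∈ Icc 1 K, Wf a (n : ℤ) * (sf z a (n : ℤ) - Cz z a)) ^ 2 ≤
      8 * C ^ 2 * (∑ j ∈ Icc 1 (K / D), (∑ n ∈ Icc 1 (D * j), (sf z a (n : ℤ) - Cz z a)) ^ 2 +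
        (D * L) ^ 2) := by
    intro a _
    obtain ⟨hW1, hW2⟩ := hTV a
    set S := ∑ j ∈ Icc 1 (K / D), (∑ n ∈ Icc 1 (D * j), (sf z a (n : ℤ) - Cz z a)) ^ 2 with hS
    have hS0 : 0 ≤ S := sum_nonneg fun _ _ => sq_nonneg _
    have hmax := max_bd (fun n => sf z a (n : ℤ) - Cz z a) K D hD1 L hL0.le (hg a)
    have hM0 : 0 ≤ 2 * S + 2 * (D * L) ^ 2 := by positivity
    have h1 := abel_bd (fun n => Wf a (n : ℤ)) (fun n => sf z a (n : ℤ) - Cz z a) K C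
      (Real.sqrt (2 * S + 2 * (D * L) ^ 2)) (by
        rw [abs_of_nonneg (hW1 _).1]; exact (hW1 _).2) (by
        have := hW2 K
        push_cast
        exact this) (Real.sqrt_nonneg _) (fun N hN => by
        rw [← Real.sqrt_sq_eq_abs]
        exact Real.sqrt_le_sqrt (hmax N hN))
    calc _ = |∑ n ∈ Icc 1 K, Wf a (n : ℤ) * (sf z a (n : ℤ) - Cz z a)| ^ 2 := (sq_abs _).symm
      _ ≤ (2 * C * Real.sqrt (2 * S + 2 * (D * L) ^ 2)) ^ 2 := pow_le_pow_left₀ (abs_nonneg _) h1 2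
      _ = 4 * C ^ 2 * (2 * S + 2 * (D * L) ^ 2) := by
          rw [mul_pow, Real.sq_sqrt hM0]; ring
      _ = _ := by ring
  have hbx : (0 : ℝ) ≤ (bx dd H).card := Nat.cast_nonneg _
  have hsum : ∑ a ∈ bx dd H, ∑ j ∈ Icc 1 (K / D),
      (∑ n ∈ Icc 1 (D * j), (sf z a (n : ℤ) - Cz z a)) ^ 2 ≤
      L ^ (U + 2) * (((bx dd H).card : ℝ) * (K * L + (K : ℝ) ^ 2 / L ^ (2 * U + 3))) := by
    rw [sum_comm]
    calc _ ≤ ∑ j ∈ Icc 1 (K / D), ((bx dd H).card : ℝ) *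
          (K * L + (K : ℝ) ^ 2 / L ^ (2 * U + 3)) := by
          refine sum_le_sum fun j hj => (hSM' (D * j)).trans ?_
          have hjK : ((D * j : ℕ) : ℝ) ≤ K := by
            exact_mod_cast le_trans (Nat.mul_le_mul_left D (mem_Icc.1 hj).2) (Nat.mul_div_le K D)
          have hj0 : (0 : ℝ) ≤ ((D * j : ℕ) : ℝ) := Nat.cast_nonneg _
          refine mul_le_mul_of_nonneg_left (add_le_add ?_ ?_) hbx
          · exact mul_le_mul hjK hV (by positivity) hK0.le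
          · exact div_le_div_of_nonneg_right (pow_le_pow_left₀ hj0 hjK 2) (by positivity)
      _ = ((K / D : ℕ) : ℝ) * (((bx dd H).card : ℝ) * (K * L + (K : ℝ) ^ 2 / L ^ (2 * U + 3))) := by
          rw [sum_const, Nat.card_Icc, nsmul_eq_mul, Nat.add_sub_cancel]
      _ ≤ _ := mul_le_mul_of_nonneg_right hJ (by positivity)
  have hDL : (D * L) ^ 2 ≤ 4 * (K : ℝ) ^ 2 / L ^ (2 * U + 2) := by
    calc (D * L) ^ 2 ≤ (2 * (K : ℝ) / L ^ (U + 2) * L) ^ 2 :=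
          pow_le_pow_left₀ (by positivity) (mul_le_mul_of_nonneg_right hDup hL0.le) 2
      _ = 4 * (K : ℝ) ^ 2 / L ^ (2 * U + 2) := by
          rw [mul_pow, div_pow, ← pow_mul, show (U + 2) * 2 = (2 * U + 2) + 2 by ring, pow_add]
          field_simp
          ring
  have hKbig : L ^ (U + 2) * (K * L) ≤ (K : ℝ) ^ 2 / L ^ (U + 1) := by
    rw [le_div_iff₀ (by positivity)]
    calc L ^ (U + 2) * (K * L) * L ^ (U + 1) = K * L ^ (2 * U + 4) := by
          rw [show 2 * U + 4 = (U + 2) + 1 + (U + 1) by ring, pow_add, pow_add]; ring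
      _ ≤ K * K := mul_le_mul_of_nonneg_left hK hK0.le
      _ = (K : ℝ) ^ 2 := by ring
  have hKb2 : L ^ (U + 2) * ((K : ℝ) ^ 2 / L ^ (2 * U + 3)) = (K : ℝ) ^ 2 / L ^ (U + 1) := by
    rw [show 2 * U + 3 = (U + 2) + (U + 1) by ring, pow_add L (U + 2) (U + 1)]
    have h1 : L ^ (U + 2) ≠ 0 := (pow_pos hL0 _).ne'
    have h2 : L ^ (U + 1) ≠ 0 := (pow_pos hL0 _).ne'
    field_simp
  have hKb3 : 4 * (K : ℝ) ^ 2 / L ^ (2 * U + 2) ≤ 4 * ((K : ℝ) ^ 2 / L ^ (U + 1)) := by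
    rw [mul_div_assoc]
    refine mul_le_mul_of_nonneg_left ?_ (by norm_num)
    exact div_le_div_of_nonneg_left (by positivity) (by positivity)
      (pow_le_pow_right₀ hL1 (by omega))
  calc _ ≤ ∑ a ∈ bx dd H, 8 * C ^ 2 * (∑ j ∈ Icc 1 (K / D),
        (∑ n ∈ Icc 1 (D * j), (sf z a (n : ℤ) - Cz z a)) ^ 2 + (D * L) ^ 2) :=
        sum_le_sum hone
    _ = 8 * C ^ 2 * (∑ a ∈ bx dd H, ∑ j ∈ Icc 1 (K / D),
        (∑ n ∈ Icc 1 (D * j), (sf z a (n : ℤ) - Cz z a)) ^ 2 +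
        ((bx dd H).card : ℝ) * (D * L) ^ 2) := by
        rw [← mul_sum, sum_add_distrib, sum_const, nsmul_eq_mul]
    _ ≤ 8 * C ^ 2 * (((bx dd H).card : ℝ) * (6 * ((K : ℝ) ^ 2 / L ^ (U + 1)))) := by
        refine mul_le_mul_of_nonneg_left ?_ (by positivity)
        have h1 : L ^ (U + 2) * (((bx dd H).card : ℝ) * (K * L + (K : ℝ) ^ 2 / L ^ (2 * U + 3))) ≤
            ((bx dd H).card : ℝ) * (2 * ((K : ℝ) ^ 2 / L ^ (U + 1))) := by
          calc _ = ((bx dd H).card : ℝ) * (L ^ (U + 2) * (K * L) +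
                L ^ (U + 2) * ((K : ℝ) ^ 2 / L ^ (2 * U + 3))) := by ring
            _ ≤ ((bx dd H).card : ℝ) * (2 * ((K : ℝ) ^ 2 / L ^ (U + 1))) := by
                refine mul_le_mul_of_nonneg_left ?_ hbx
                rw [hKb2]
                linarith
        have h2 : ((bx dd H).card : ℝ) * (D * L) ^ 2 ≤
            ((bx dd H).card : ℝ) * (4 * ((K : ℝ) ^ 2 / L ^ (U + 1))) :=
          mul_le_mul_of_nonneg_left (hDL.trans hKb3) hbx
        calc _ ≤ ((bx dd H).card : ℝ) * (2 * ((K : ℝ) ^ 2 / L ^ (U + 1))) +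
              ((bx dd H).card : ℝ) * (4 * ((K : ℝ) ^ 2 / L ^ (U + 1))) :=
              add_le_add (hsum.trans h1) h2
          _ = _ := by ring
    _ = 48 * C ^ 2 / L * (((bx dd H).card : ℝ) * (K : ℝ) ^ 2 / L ^ U) := by
        rw [pow_succ]
        field_simp
        ring
    _ ≤ 1 * (((bx dd H).card : ℝ) * (K : ℝ) ^ 2 / L ^ U) := by
        refine mul_le_mul_of_nonneg_right ?_ (by positivity)
        rw [div_le_one hL0]
        nlinarith [sq_nonneg C]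
    _ = _ := one_mul _

end Pool.Agent.H13K.T2
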