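import Pool.Agent.H13K.StmS

/-! Stub SEC (helper13). -/

set_option autoImplicit false

namespace Pool.Agent.H13K.SEC

open Finset
open Pool.Agent.H373R2.T7 (lamz pz Vz)

lemma nu_eq (z : ℕ) (y : ℤ) : nu z y.natAbs = lg y * lamz z y.natAbs := by
  unfold nu lg
  have h1 : (2 ≤ y.natAbs) ↔ (2 ≤ |y|) := by
    rw [Int.abs_eq_natAbs]
    omega
  by_cases h : 2 ≤ |y|
  · rw [if_pos h, if_pos (h1.2 h), Nat.cast_natAbs, Int.cast_abs]
    ring
  · rw [if_neg h, if_neg (fun h2 => h (h1.1 h2)), zero_mul]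

lemma prod_nu {m : ℕ} {dd : Fin m → ℕ} (z : ℕ) (a : ∀ i : Fin m, Fin (dd i + 1) → ℤ) (n : ℤ) :
    ∏ i, nu z (Fv (a i) n).natAbs = Wf a n * sf z a n := by
  unfold Wf sf
  rw [← prod_mul_distrib]
  exact prod_congr rfl fun i _ => nu_eq z _

theorem t : S_T1 → S_T2 → S_SEC := by
  intro h1 h2 m dd U hdd
  obtain ⟨E1, hE1⟩ := h1 m dd (U + 1) hdd
  refine ⟨E1, fun E hE => ?_⟩
  obtain ⟨B1, H1, hB1⟩ := hE1 E hE
  obtain ⟨B2, H2, hB2⟩ := h2 m dd E (U + 1) hdd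
  obtain ⟨H3, hH3⟩ : ∃ H3 : ℕ, ∀ H : ℕ, H3 ≤ H → 4 ≤ Real.log H := by
    have := (Real.tendsto_log_atTop.comp tendsto_natCast_atTop_atTop).eventually_ge_atTop (4 : ℝ)
    exact Filter.eventually_atTop.1 this
  refine ⟨max B1 B2, max (max H1 H2) H3, fun H hH K hK hKH => ?_⟩
  have hL4 := hH3 H ((le_max_right _ _).trans hH)
  have hL1 : (1 : ℝ) ≤ Real.log H := by linarith
  have hL0 : (0 : ℝ) < Real.log H := by linarith
  have hp1 : Real.log H ^ B1 ≤ Real.log H ^ (max B1 B2) := pow_le_pow_right₀ hL1 (le_max_left _ _)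
  have hp2 : Real.log H ^ B2 ≤ Real.log H ^ (max B1 B2) := pow_le_pow_right₀ hL1 (le_max_right _ _)
  have hA := hB1 H (((le_max_left _ _).trans (le_max_left _ _)).trans hH) K (hp1.trans hK)
    ((mul_le_mul_of_nonneg_left hp1 (Nat.cast_nonneg _)).trans hKH)
  have hB := hB2 H (((le_max_right _ _).trans (le_max_left _ _)).trans hH) ⌊Real.log H ^ E⌋₊
    (Nat.floor_le (by positivity)) K (hp2.trans hK)
  set z := ⌊Real.log H ^ E⌋₊
  calc ∑ a ∈ bx dd H, (Pf a K - Cz z a * Lf a K) ^ 2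
      ≤ ∑ a ∈ bx dd H, (2 * (∑ n ∈ Icc 1 K, (∏ i, pr (Fv (a i) (n : ℤ)).natAbs -
        ∏ i, nu z (Fv (a i) (n : ℤ)).natAbs)) ^ 2 +
        2 * (∑ n ∈ Icc 1 K, Wf a (n : ℤ) * (sf z a (n : ℤ) - Cz z a)) ^ 2) := by
        refine sum_le_sum fun a _ => ?_
        have he : Pf a K - Cz z a * Lf a K = ∑ n ∈ Icc 1 K, (∏ i, pr (Fv (a i) (n : ℤ)).natAbs -
            ∏ i, nu z (Fv (a i) (n : ℤ)).natAbs) +
            ∑ n ∈ Icc 1 K, Wf a (n : ℤ) * (sf z a (n : ℤ) - Cz z a) := by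
          unfold Pf Lf
          rw [mul_sum, ← sum_sub_distrib, ← sum_add_distrib]
          refine sum_congr rfl fun n _ => ?_
          rw [prod_nu]
          ring
        rw [he]
        nlinarith [sq_nonneg (∑ n ∈ Icc 1 K, (∏ i, pr (Fv (a i) (n : ℤ)).natAbs -
            ∏ i, nu z (Fv (a i) (n : ℤ)).natAbs) -
            ∑ n ∈ Icc 1 K, Wf a (n : ℤ) * (sf z a (n : ℤ) - Cz z a))]
    _ = 2 * (∑ a ∈ bx dd H, (∑ n ∈ Icc 1 K, (∏ i, pr (Fv (a i) (n : ℤ)).natAbs -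
        ∏ i, nu z (Fv (a i) (n : ℤ)).natAbs)) ^ 2) +
        2 * ∑ a ∈ bx dd H, (∑ n ∈ Icc 1 K, Wf a (n : ℤ) * (sf z a (n : ℤ) - Cz z a)) ^ 2 := by
        rw [sum_add_distrib, mul_sum, mul_sum]
    _ ≤ 2 * (((bx dd H).card : ℝ) * (K : ℝ) ^ 2 / Real.log H ^ (U + 1)) +
        2 * (((bx dd H).card : ℝ) * (K : ℝ) ^ 2 / Real.log H ^ (U + 1)) := by gcongr
    _ = ((bx dd H).card : ℝ) * (K : ℝ) ^ 2 / Real.log H ^ U * (4 / Real.log H) := by
        rw [pow_succ]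
        field_simp
        ring
    _ ≤ ((bx dd H).card : ℝ) * (K : ℝ) ^ 2 / Real.log H ^ U * 1 := by
        refine mul_le_mul_of_nonneg_left ?_ (by positivity)
        rw [div_le_one hL0]
        exact hL4
    _ = ((bx dd H).card : ℝ) * (K : ℝ) ^ 2 / Real.log H ^ U := mul_one _

end Pool.Agent.H13K.SEC
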