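import Pool.Agent.H13K.StmS

/-!
# Project BH (helper13), part S, stub TV (helper95)
-/

set_option autoImplicit false

namespace Pool.Agent.H13K.TV

open Finset Polynomial MeasureTheory

/-- `f` as a real polynomial -/
noncomputable def PR {d : ℕ} (a : Fin (d + 1) → ℤ) : ℝ[X] := ∑ l : Fin (d + 1), C (a l : ℝ) * X ^ (l : ℕ)

lemma PR_eval {d : ℕ} (a : Fin (d + 1) → ℤ) (n : ℤ) : (PR a).eval (n : ℝ) = (Fv a n : ℝ) := by
  unfold PR Fv
  rw [eval_finsetSum]
  push_cast
  refine sum_congr rfl fun l _ => ?_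
  simp

lemma PR_deg {d : ℕ} (a : Fin (d + 1) → ℤ) : (PR a).natDegree ≤ d := by
  unfold PR
  refine natDegree_sum_le_of_forall_le _ _ fun l _ => ?_
  refine (natDegree_C_mul_X_pow_le _ _).trans ?_
  have := l.2
  omega

/-- the number of the roots in the intervals `[n, n+1)` -/
lemma cross1 (g : ℝ[X]) (hg : g ≠ 0) (S : Finset ℕ)
    (hS : ∀ n ∈ S, ∃ x ∈ Set.Ico (n : ℝ) (n + 1), g.eval x = 0) : S.card ≤ g.natDegree := by
  have h1 : S ⊆ g.roots.toFinset.image (fun x => ⌊x⌋₊) := by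
    intro n hn
    obtain ⟨x, hx, hx0⟩ := hS n hn
    rw [mem_image]
    refine ⟨x, ?_, ?_⟩
    · rw [Multiset.mem_toFinset, mem_roots hg]
      exact hx0
    · rw [Nat.floor_eq_iff (le_trans (Nat.cast_nonneg n) hx.1)]
      exact hx
  calc S.card ≤ (g.roots.toFinset.image (fun x => ⌊x⌋₊)).card := card_le_card h1
    _ ≤ g.roots.toFinset.card := card_image_le
    _ ≤ g.roots.card := Multiset.toFinset_card_le _
    _ ≤ g.natDegree := card_roots' g

/-- the number of the roots in the intervals `(n, n+1]` -/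
lemma cross2 (g : ℝ[X]) (hg : g ≠ 0) (S : Finset ℕ)
    (hS : ∀ n ∈ S, ∃ x ∈ Set.Ioc (n : ℝ) (n + 1), g.eval x = 0) : S.card ≤ g.natDegree := by
  have h1 : S ⊆ g.roots.toFinset.image (fun x => ⌈x⌉₊ - 1) := by
    intro n hn
    obtain ⟨x, hx, hx0⟩ := hS n hn
    rw [mem_image]
    refine ⟨x, ?_, ?_⟩
    · rw [Multiset.mem_toFinset, mem_roots hg]
      exact hx0
    · have : ⌈x⌉₊ = n + 1 := by
        rw [Nat.ceil_eq_iff (by omega)]
        push_cast
        simpa using hx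
      rw [this]
      rfl
  calc S.card ≤ (g.roots.toFinset.image (fun x => ⌈x⌉₊ - 1)).card := card_le_card h1
    _ ≤ g.roots.toFinset.card := card_image_le
    _ ≤ g.roots.card := Multiset.toFinset_card_le _
    _ ≤ g.natDegree := card_roots' g

lemma ivt_up (g : ℝ[X]) (x y : ℝ) (hxy : x ≤ y) (h1 : g.eval x ≤ 0) (h2 : 0 < g.eval y) :
    ∃ t ∈ Set.Ico x y, g.eval t = 0 := by
  have h := intermediate_value_Icc hxy (f := fun t => g.eval t) g.continuous.continuousOn
  obtain ⟨t, ht, ht0⟩ := h ⟨h1, h2.le⟩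
  refine ⟨t, ⟨ht.1, lt_of_le_of_ne ht.2 ?_⟩, ht0⟩
  rintro rfl
  simp only at ht0
  linarith

lemma ivt_down (g : ℝ[X]) (x y : ℝ) (hxy : x ≤ y) (h1 : 0 < g.eval x) (h2 : g.eval y ≤ 0) :
    ∃ t ∈ Set.Ioc x y, g.eval t = 0 := by
  have h := intermediate_value_Icc' hxy (f := fun t => g.eval t) g.continuous.continuousOn
  obtain ⟨t, ht, ht0⟩ := h ⟨h2, h1.le⟩
  refine ⟨t, ⟨lt_of_le_of_ne ht.1 ?_, ht.2⟩, ht0⟩
  rintro rfl
  simp only at ht0
  linarith

open Classical in
/-- the number of the changes of `c < |f|` -/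
lemma changes {d : ℕ} (a : Fin (d + 1) → ℤ) (hd : (PR a).natDegree ≠ 0) (c : ℝ) (hc : 0 ≤ c) (N : ℕ) :
    ((Ico 1 N).filter (fun n : ℕ => ¬ (c < |(Fv a (n : ℤ) : ℝ)| ↔ c < |(Fv a ((n : ℤ) + 1) : ℝ)|))).card ≤
      4 * d := by
  set g : ℝ[X] := PR a ^ 2 - C (c ^ 2) with hg
  have hgd : g.natDegree ≤ 2 * d := by
    rw [hg, natDegree_sub_C, natDegree_pow]
    have := PR_deg a
    omega
  have hg0 : g ≠ 0 := by
    intro h
    rw [hg, sub_eq_zero] at h
    have h1 := congrArg natDegree h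
    rw [natDegree_pow, natDegree_C] at h1
    omega
  have hev : ∀ n : ℤ, g.eval (n : ℝ) = (Fv a n : ℝ) ^ 2 - c ^ 2 := by
    intro n
    rw [hg, eval_sub, eval_pow, PR_eval, eval_C]
  have hpos : ∀ n : ℤ, 0 < g.eval (n : ℝ) ↔ c < |(Fv a n : ℝ)| := by
    intro n
    rw [hev, sub_pos, sq_lt_sq, abs_of_nonneg hc]
  have hsub : (Ico 1 N).filter (fun n : ℕ => ¬ (c < |(Fv a (n : ℤ) : ℝ)| ↔ c < |(Fv a ((n : ℤ) + 1) : ℝ)|)) ⊆
      (Ico 1 N).filter (fun n : ℕ => g.eval (n : ℝ) ≤ 0 ∧ 0 < g.eval ((n : ℝ) + 1)) ∪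
      (Ico 1 N).filter (fun n : ℕ => 0 < g.eval (n : ℝ) ∧ g.eval ((n : ℝ) + 1) ≤ 0) := by
    intro n hn
    rw [mem_filter] at hn
    rw [mem_union, mem_filter, mem_filter]
    have h1 := hpos (n : ℤ)
    have h2 := hpos ((n : ℤ) + 1)
    push_cast at h1 h2
    obtain ⟨hn1, hn2⟩ := hn
    rw [← h1, ← h2] at hn2
    by_cases h3 : 0 < g.eval (n : ℝ)
    · right
      refine ⟨hn1, h3, ?_⟩
      by_contra h4
      push Not at h4
      exact hn2 ⟨fun _ => h4, fun _ => h3⟩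
    · left
      refine ⟨hn1, not_lt.mp h3, ?_⟩
      by_contra h4
      exact hn2 ⟨fun h => absurd h h3, fun h => absurd h h4⟩
  have c1 : ((Ico 1 N).filter (fun n : ℕ => g.eval (n : ℝ) ≤ 0 ∧ 0 < g.eval ((n : ℝ) + 1))).card ≤
      g.natDegree := by
    refine cross1 g hg0 _ fun n hn => ?_
    rw [mem_filter] at hn
    exact ivt_up g _ _ (by linarith) hn.2.1 hn.2.2
  have c2 : ((Ico 1 N).filter (fun n : ℕ => 0 < g.eval (n : ℝ) ∧ g.eval ((n : ℝ) + 1) ≤ 0)).card ≤
      g.natDegree := by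
    refine cross2 g hg0 _ fun n hn => ?_
    rw [mem_filter] at hn
    exact ivt_down g _ _ (by linarith) hn.2.1 hn.2.2
  have h1 := (card_le_card hsub).trans (card_union_le _ _)
  omega

lemma lg_nonneg (y : ℤ) : 0 ≤ lg y := by
  unfold lg
  split_ifs with h
  · have h1 : (1 : ℝ) ≤ |(y : ℝ)| := by
      have : (2 : ℝ) ≤ |(y : ℝ)| := by exact_mod_cast h
      linarith
    have := Real.log_nonneg h1
    positivity
  · exact le_rfl

lemma lg_le (y : ℤ) : lg y ≤ 2 := by
  unfold lg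
  split_ifs with h
  · have h1 : (2 : ℝ) ≤ |(y : ℝ)| := by exact_mod_cast h
    have h2 : Real.log 2 ≤ Real.log |(y : ℝ)| := Real.log_le_log (by norm_num) h1
    have h3 := Real.log_two_gt_d9
    rw [div_le_iff₀ (by linarith)]
    linarith
  · norm_num

/-- the level sets of `lg` -/
lemma lg_level (y : ℤ) (t : ℝ) (ht : 0 < t) :
    t ≤ lg y ↔ (3 / 2 < |(y : ℝ)| ∧ ¬ (Real.exp (1 / t) < |(y : ℝ)|)) := by
  have h2 : (3 / 2 < |(y : ℝ)|) ↔ 2 ≤ |y| := by
    constructor
    · intro h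
      by_contra hcon
      push Not at hcon
      have h1 : |y| ≤ 1 := by omega
      have h3 : (|(y : ℝ)|) ≤ 1 := by exact_mod_cast h1
      linarith
    · intro h
      have h3 : (2 : ℝ) ≤ |(y : ℝ)| := by exact_mod_cast h
      linarith
  rw [h2]
  unfold lg
  split_ifs with h
  · have h3 : (2 : ℝ) ≤ |(y : ℝ)| := by exact_mod_cast h
    have h4 : 0 < Real.log |(y : ℝ)| := Real.log_pos (by linarith)
    rw [not_lt, ← Real.log_le_iff_le_exp (by linarith), le_div_iff₀ h4, le_div_iff₀ ht]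
    constructor
    · intro h5
      exact ⟨h, by linarith⟩
    · intro h5
      linarith [h5.2]
  · constructor
    · intro h5
      linarith
    · intro h5
      exact absurd h5.1 h

open Classical in
/-- the number of the changes of a level set -/
lemma level_count {d : ℕ} (a : Fin (d + 1) → ℤ) (hd : (PR a).natDegree ≠ 0) (t : ℝ) (ht : 0 < t) (N : ℕ) :
    ((Ico 1 N).filter (fun n : ℕ => ¬ (t ≤ lg (Fv a (n : ℤ)) ↔ t ≤ lg (Fv a ((n : ℤ) + 1))))).card ≤
      8 * d := by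
  have h1 := changes a hd (3 / 2) (by norm_num) N
  have h2 := changes a hd (Real.exp (1 / t)) (Real.exp_pos _).le N
  refine (card_le_card (t := (Ico 1 N).filter (fun n : ℕ => ¬ (3 / 2 < |(Fv a (n : ℤ) : ℝ)| ↔
    3 / 2 < |(Fv a ((n : ℤ) + 1) : ℝ)|)) ∪ (Ico 1 N).filter (fun n : ℕ =>
    ¬ (Real.exp (1 / t) < |(Fv a (n : ℤ) : ℝ)| ↔ Real.exp (1 / t) < |(Fv a ((n : ℤ) + 1) : ℝ)|))) ?_).trans
    ((card_union_le _ _).trans (by omega))
  intro n hn
  rw [mem_filter] at hn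
  rw [mem_union, mem_filter, mem_filter]
  by_contra hcon
  push Not at hcon
  have h3 := hcon.1 hn.1
  have h4 := hcon.2 hn.1
  apply hn.2
  rw [lg_level _ _ ht, lg_level _ _ ht, h3, h4]

/-- total variation for one polynomial -/
lemma tv_one {d : ℕ} (a : Fin (d + 1) → ℤ) (N : ℕ) :
    ∑ n ∈ Ico 1 N, |lg (Fv a ((n : ℤ) + 1)) - lg (Fv a (n : ℤ))| ≤ 16 * d := by
  classical
  by_cases hd : (PR a).natDegree = 0
  · have h1 : ∀ n : ℤ, Fv a (n + 1) = Fv a n := by
      intro n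
      have h2 := PR_eval a (n + 1)
      have h3 := PR_eval a n
      rw [eq_C_of_natDegree_eq_zero hd, eval_C] at h2 h3
      have h4 : (Fv a (n + 1) : ℝ) = Fv a n := by rw [← h2, ← h3]
      exact_mod_cast h4
    simp only [h1, sub_self, abs_zero, sum_const_zero]
    positivity
  set G : ℕ → ℝ := fun n => lg (Fv a (n : ℤ)) with hG
  set G' : ℕ → ℝ := fun n => lg (Fv a ((n : ℤ) + 1)) with hG'
  have hG0 : ∀ n, 0 ≤ G n := fun n => lg_nonneg _
  have hG'0 : ∀ n, 0 ≤ G' n := fun n => lg_nonneg _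
  have hG2 : ∀ n, G n ≤ 2 := fun n => lg_le _
  have hG'2 : ∀ n, G' n ≤ 2 := fun n => lg_le _
  set I : ℕ → Set ℝ := fun n => Set.Ioc (min (G n) (G' n)) (max (G n) (G' n)) with hI
  have hvol : ∀ n, ENNReal.ofReal |G' n - G n| = ∫⁻ t, (I n).indicator 1 t := by
    intro n
    rw [lintegral_indicator_one measurableSet_Ioc, Real.volume_Ioc, max_sub_min_eq_abs]
  have hpt : ∀ t : ℝ, ∑ n ∈ Ico 1 N, (I n).indicator (1 : ℝ → ENNReal) t ≤
      (Set.Ioc (0 : ℝ) 2).indicator (fun _ => ((8 * d : ℕ) : ENNReal)) t := by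
    intro t
    by_cases ht : t ∈ Set.Ioc (0 : ℝ) 2
    · rw [Set.indicator_of_mem ht]
      have h1 : ∑ n ∈ Ico 1 N, (I n).indicator (1 : ℝ → ENNReal) t =
          (((Ico 1 N).filter (fun n => t ∈ I n)).card : ENNReal) := by
        rw [card_filter]
        push_cast
        refine sum_congr rfl fun n _ => ?_
        simp only [Set.indicator_apply, Pi.one_apply]
      rw [h1]
      have h2 : ((Ico 1 N).filter (fun n => t ∈ I n)).card ≤ 8 * d := by
        refine (card_le_card ?_).trans (level_count a hd t ht.1 N)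
        intro n hn
        rw [mem_filter] at hn ⊢
        refine ⟨hn.1, ?_⟩
        have h3 := hn.2
        simp only [hI, Set.mem_Ioc, min_lt_iff, le_max_iff] at h3
        intro h4
        rcases h3 with ⟨h5 | h5, h6⟩
        · rcases h6 with h6 | h6
          · linarith
          · have := h4.mpr h6
            simp only [hG] at h5
            linarith
        · rcases h6 with h6 | h6
          · have := h4.mp h6
            simp only [hG'] at h5
            linarith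
          · linarith
      exact_mod_cast h2
    · rw [Set.indicator_of_notMem ht]
      have h1 : ∀ n ∈ Ico 1 N, (I n).indicator (1 : ℝ → ENNReal) t = 0 := by
        intro n _
        apply Set.indicator_of_notMem
        intro h2
        apply ht
        simp only [hI, Set.mem_Ioc] at h2
        refine ⟨lt_of_le_of_lt (le_min (hG0 n) (hG'0 n)) h2.1, h2.2.trans (max_le (hG2 n) (hG'2 n))⟩
      rw [sum_congr rfl h1]
      simp
  have hsum : ENNReal.ofReal (∑ n ∈ Ico 1 N, |G' n - G n|) ≤ ENNReal.ofReal (16 * d) := by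
    rw [ENNReal.ofReal_sum_of_nonneg (fun n _ => abs_nonneg _)]
    calc ∑ n ∈ Ico 1 N, ENNReal.ofReal |G' n - G n|
        = ∑ n ∈ Ico 1 N, ∫⁻ t, (I n).indicator 1 t := sum_congr rfl fun n _ => hvol n
      _ = ∫⁻ t, ∑ n ∈ Ico 1 N, (I n).indicator 1 t := by
          rw [lintegral_finsetSum]
          intro n _
          exact measurable_one.indicator measurableSet_Ioc
      _ ≤ ∫⁻ t, (Set.Ioc (0 : ℝ) 2).indicator (fun _ => ((8 * d : ℕ) : ENNReal)) t :=
          lintegral_mono hpt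
      _ = ENNReal.ofReal (16 * d) := by
          rw [lintegral_indicator measurableSet_Ioc, lintegral_const, Measure.restrict_apply_univ,
            Real.volume_Ioc]
          have h1 : ((8 * d : ℕ) : ENNReal) = ENNReal.ofReal (8 * d) := by
            rw [← ENNReal.ofReal_natCast]
            push_cast
            rfl
          rw [h1, ← ENNReal.ofReal_mul (by positivity)]
          congr 1
          ring
  exact (ENNReal.ofReal_le_ofReal_iff (by positivity)).mp hsum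

/-- products -/
lemma prod_diff {ι : Type} (s : Finset ι) (x y : ι → ℝ) (hx : ∀ i, 0 ≤ x i ∧ x i ≤ 2)
    (hy : ∀ i, 0 ≤ y i ∧ y i ≤ 2) :
    |∏ i ∈ s, x i - ∏ i ∈ s, y i| ≤ 2 ^ s.card * ∑ i ∈ s, |x i - y i| := by
  classical
  induction s using Finset.induction_on with
  | empty => simp
  | insert j s hj ih =>
    rw [prod_insert hj, prod_insert hj, sum_insert hj, card_insert_of_notMem hj]
    have h1 : x j * ∏ i ∈ s, x i - y j * ∏ i ∈ s, y i =
        x j * (∏ i ∈ s, x i - ∏ i ∈ s, y i) + (x j - y j) * ∏ i ∈ s, y i := by ring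
    have h2 : 0 ≤ ∏ i ∈ s, y i := prod_nonneg fun i _ => (hy i).1
    have h3 : ∏ i ∈ s, y i ≤ 2 ^ s.card := by
      calc ∏ i ∈ s, y i ≤ ∏ _i ∈ s, (2 : ℝ) := prod_le_prod (fun i _ => (hy i).1) fun i _ => (hy i).2
        _ = 2 ^ s.card := by rw [prod_const]
    rw [h1]
    have h4 : 0 ≤ ∑ i ∈ s, |x i - y i| := sum_nonneg fun i _ => abs_nonneg _
    calc |x j * (∏ i ∈ s, x i - ∏ i ∈ s, y i) + (x j - y j) * ∏ i ∈ s, y i|
        ≤ |x j| * |∏ i ∈ s, x i - ∏ i ∈ s, y i| + |x j - y j| * |∏ i ∈ s, y i| := by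
          rw [← abs_mul, ← abs_mul]
          exact abs_add_le _ _
      _ ≤ 2 * (2 ^ s.card * ∑ i ∈ s, |x i - y i|) + |x j - y j| * 2 ^ s.card := by
          rw [abs_of_nonneg (hx j).1, abs_of_nonneg h2]
          gcongr
          exact (hx j).2
      _ ≤ 2 ^ (s.card + 1) * (|x j - y j| + ∑ i ∈ s, |x i - y i|) := by
          rw [pow_succ]
          have h5 : 0 ≤ |x j - y j| := abs_nonneg _
          have h6 : (0 : ℝ) < 2 ^ s.card := by positivity
          nlinarith [mul_nonneg h5 h6.le]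

theorem t : S_TV := by
  intro m dd
  set V : ℝ := ∑ i : Fin m, 16 * (dd i : ℝ) with hV
  have hV0 : 0 ≤ V := sum_nonneg fun i _ => by positivity
  refine ⟨2 ^ m * (V + 1), ?_, ?_⟩
  · have h1 : (1 : ℝ) ≤ 2 ^ m := one_le_pow₀ (by norm_num)
    nlinarith
  intro a
  have hb : ∀ n : ℤ, ∀ i, 0 ≤ lg (Fv (a i) n) ∧ lg (Fv (a i) n) ≤ 2 := fun n i => ⟨lg_nonneg _, lg_le _⟩
  refine ⟨fun n => ⟨prod_nonneg fun i _ => (hb n i).1, ?_⟩, fun N => ?_⟩
  · calc Wf a n ≤ ∏ _i : Fin m, (2 : ℝ) := prod_le_prod (fun i _ => (hb n i).1) fun i _ => (hb n i).2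
      _ = 2 ^ m := by rw [prod_const, card_univ, Fintype.card_fin]
      _ ≤ 2 ^ m * (V + 1) := by
        have h1 : (0 : ℝ) < 2 ^ m := by positivity
        nlinarith
  · calc ∑ n ∈ Ico 1 N, |Wf a ((n : ℤ) + 1) - Wf a (n : ℤ)|
        ≤ ∑ n ∈ Ico 1 N, 2 ^ m * ∑ i : Fin m, |lg (Fv (a i) ((n : ℤ) + 1)) - lg (Fv (a i) (n : ℤ))| := by
          refine sum_le_sum fun n _ => ?_
          have h1 := prod_diff (univ : Finset (Fin m)) (fun i => lg (Fv (a i) ((n : ℤ) + 1)))
            (fun i => lg (Fv (a i) (n : ℤ))) (hb _) (hb _)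
          rw [card_univ, Fintype.card_fin] at h1
          exact h1
      _ = 2 ^ m * ∑ i : Fin m, ∑ n ∈ Ico 1 N, |lg (Fv (a i) ((n : ℤ) + 1)) - lg (Fv (a i) (n : ℤ))| := by
          rw [← mul_sum, sum_comm]
      _ ≤ 2 ^ m * ∑ i : Fin m, 16 * (dd i : ℝ) := by
          gcongr with i _
          exact tv_one (a i) N
      _ ≤ 2 ^ m * (V + 1) := by
          gcongr
          linarith

end Pool.Agent.H13K.TV
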