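import Pool.Agent.H13K.Fin

/-! Project BH: joining the low scales (helper11, part B: `Pool.Agent.H11B.lowT`) with the high scales (`Fin.core`). -/

set_option autoImplicit false

namespace Pool.Agent.H13K.Join

open Finset
open Pool.Agent.H373R2.T7 (lamz pz Vz mem_pz)
open Pool.Agent.H13K.Fin (PW LW)

/-- part B: the low scales -/
def S_LB : Prop := ∀ (m : ℕ) (dd : Fin m → ℕ), 1 ≤ m → (∀ i, 1 ≤ dd i) → ∀ (A : ℕ) (δ ε : ℝ), 0 < δ → 0 < ε →
    ∃ z0 H0 : ℕ, ∀ H : ℕ, H0 ≤ H → ∃ Bad ⊆ bx dd H, (Bad.card : ℝ) ≤ ε * (bx dd H).card ∧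
    ∀ a ∈ bx dd H, a ∉ Bad → (∀ p : ℕ, p.Prime → om p a ≠ p) → ∀ z : ℕ, z0 ≤ z → z ^ 4 ≤ H → 0 < Cz z a ∧
      ∀ N : ℕ, Real.log H ^ ((m : ℝ) + δ) ≤ N → (N : ℝ) ≤ Real.log H ^ A →
        |Pf a N - Cz z a * Lf a N| ≤ ε * (Cz z a * Lf a N)

/-- the conclusion of `Fin.core` for one array -/
def Good {m : ℕ} {dd : Fin m → ℕ} (A B H : ℕ) (a : ∀ i : Fin m, Fin (dd i + 1) → ℤ) : Prop :=
  (∀ i, a i (Fin.last (dd i)) ≠ 0) ∧
      ((∀ p : ℕ, p.Prime → om p a ≠ p) → ∀ z : ℕ, Real.log H ^ B ≤ z → z ^ 4 ≤ H → 0 < Cz z a ∧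
        ∀ u v : ℕ, Real.log H ^ B ≤ v → (v : ℝ) * Real.log H ^ B ≤ H → (v : ℝ) ≤ ((v : ℝ) - u) * Real.log H ^ A →
          Real.log H ≤ Cz z a * LW a u v ∧
          ((v : ℝ) - u) / (2 * (∏ i, ((dd i : ℝ) + 2)) * Real.log H ^ m) ≤ LW a u v ∧
          |PW a u v - Cz z a * LW a u v| ≤ Cz z a * LW a u v / Real.log H ^ A)

/-- comparison of two constants which both serve one sum -/
lemma cmp (c c' l P e e' : ℝ) (hc : 0 ≤ c) (hc' : 0 ≤ c') (hl : 0 < l) (he : 0 ≤ e) (he' : 0 ≤ e') (he1 : e ≤ 1 / 8)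
    (he1' : e' ≤ 1 / 8) (h : |P - c * l| ≤ e * (c * l)) (h' : |P - c' * l| ≤ e' * (c' * l)) :
    |c' - c| ≤ 2 * (e + e') * c := by
  have h1 := abs_le.1 h
  have h2 := abs_le.1 h'
  have h3 : c' * (1 - e') ≤ c * (1 + e) := by
    have : l * (c' * (1 - e')) ≤ l * (c * (1 + e)) := by nlinarith
    exact le_of_mul_le_mul_left this hl
  have h4 : c * (1 - e) ≤ c' * (1 + e') := by
    have : l * (c * (1 - e)) ≤ l * (c' * (1 + e')) := by nlinarith
    exact le_of_mul_le_mul_left this hl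
  have h5 : c' ≤ 9 / 7 * c := by
    have a1 : c' * (7 / 8) ≤ c' * (1 - e') := mul_le_mul_of_nonneg_left (by linarith) hc'
    have a2 : c * (1 + e) ≤ c * (9 / 8) := mul_le_mul_of_nonneg_left (by linarith) hc
    linarith
  have h6 : c' * e' ≤ 9 / 7 * c * e' := mul_le_mul_of_nonneg_right h5 he'
  have h7 : 0 ≤ c * e := mul_nonneg hc he
  have h8 : 0 ≤ c * e' := mul_nonneg hc he'
  rw [abs_le]
  constructor <;> nlinarith

theorem join (hLB : S_LB) (m : ℕ) (dd : Fin m → ℕ) (hm : 1 ≤ m) (hdd : ∀ i, 1 ≤ dd i) (A B : ℕ) (hA : 1 ≤ A)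
    (δ ε : ℝ) (hδ : 0 < δ) (hε : 0 < ε) :
    ∃ z0 H0 : ℕ, ∀ H : ℕ, H0 ≤ H → ∃ Bad ⊆ bx dd H,
      (Bad.card : ℝ) ≤ ε * ((bx dd H).card : ℝ) ∧
      ∀ a ∈ bx dd H, a ∉ Bad → Good A B H a → (∀ p : ℕ, p.Prime → om p a ≠ p) →
      ∀ z : ℕ, z0 ≤ z → z ^ 4 ≤ H → 0 < Cz z a ∧
      ∀ K : ℕ, Real.log H ^ ((m : ℝ) + δ) ≤ K → (K : ℝ) * Real.log H ^ B ≤ H →
        |PW a 0 K - Cz z a * LW a 0 K| ≤ ε * (Cz z a * LW a 0 K) := by
  set e : ℝ := min ε 1 / 16 with he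
  have hmin0 : 0 < min ε 1 := lt_min hε one_pos
  have hep : 0 < e := by positivity
  have he16 : e ≤ ε / 16 := by
    have := min_le_left ε 1
    rw [he]; linarith
  have he1 : e ≤ 1 / 16 := by
    have := min_le_right ε 1
    rw [he]; linarith
  set B' := B + m + ⌈δ⌉₊ + 1 with hB'
  obtain ⟨z0, H1, hlb⟩ := hLB m dd hm hdd B' δ e hδ hep
  have hlog : Filter.Tendsto (fun H : ℕ => Real.log H) Filter.atTop Filter.atTop :=
    Real.tendsto_log_atTop.comp tendsto_natCast_atTop_atTop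
  have hlil : Filter.Tendsto (fun H : ℕ => Real.log H ^ (8 * (B' + 2)) / (H : ℝ)) Filter.atTop (nhds 0) := by
    have h1 : (fun x : ℝ => Real.log x ^ (8 * (B' + 2))) =o[Filter.atTop] fun x : ℝ => x := by
      have := isLittleO_log_rpow_rpow_atTop (s := 1) (8 * (B' + 2) : ℕ) one_pos
      refine this.congr (fun x => ?_) (fun x => Real.rpow_one x)
      exact Real.rpow_natCast _ _
    exact h1.tendsto_div_nhds_zero.comp tendsto_natCast_atTop_atTop
  have hev := (hlil.eventually (ge_mem_nhds (show (0 : ℝ) < 1 by norm_num))).and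
    (hlog.eventually_ge_atTop (10 + 1 / e))
  obtain ⟨H2, hH2⟩ := Filter.eventually_atTop.1 hev
  refine ⟨z0, max H1 (max H2 2), fun H hH => ?_⟩
  obtain ⟨hHl, hL10⟩ := hH2 H (((le_max_left _ _).trans (le_max_right _ _)).trans hH)
  obtain ⟨Bad, hB1, hB2, hB3⟩ := hlb H ((le_max_left _ _).trans hH)
  have hH2' : 2 ≤ H := ((le_max_right _ _).trans (le_max_right _ _)).trans hH
  have hHr : (2 : ℝ) ≤ H := by exact_mod_cast hH2'
  rw [div_le_one (by linarith)] at hHl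
  set L := Real.log H with hLd
  have hie : 0 < 1 / e := by positivity
  have hL1 : 1 ≤ L := by linarith
  have hL0 : 0 < L := by linarith
  have heL : 1 / L ≤ e := by
    rw [div_le_iff₀ hL0]
    have : 1 / e ≤ L := by linarith
    rw [div_le_iff₀ hep] at this
    linarith
  refine ⟨Bad, hB1, hB2.trans ?_, ?_⟩
  · exact mul_le_mul_of_nonneg_right (by linarith) (Nat.cast_nonneg _)
  intro a ha hab hgood hadm z hz hz4
  obtain ⟨hlead, hwin⟩ := hgood
  have hw := hwin hadm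
  have hLA : L ≤ L ^ A := le_self_pow₀ hL1 (by omega)
  have hLA0 : 0 < L ^ A := by positivity
  obtain ⟨hcz, hlow⟩ := hB3 a ha hab hadm z hz hz4
  refine ⟨hcz, fun K hK1 hK2 => ?_⟩
  have hPe : ∀ K : ℕ, PW a 0 K = Pf a K := by
    intro K
    unfold PW Pf
    rw [Fin.Icc_eq]
  have hLe : ∀ K : ℕ, LW a 0 K = Lf a K := by
    intro K
    unfold LW Lf
    rw [Fin.Icc_eq]
  have hLf0 : 0 ≤ Lf a K := Fin.Lf_nonneg a K
  by_cases hKB : (K : ℝ) ≤ L ^ B'
  · have h1 := hlow K hK1 hKB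
    rw [hPe, hLe]
    refine h1.trans ?_
    exact mul_le_mul_of_nonneg_right (by linarith) (mul_nonneg hcz.le hLf0)
  · push Not at hKB
    have hBB' : L ^ B ≤ L ^ B' := pow_le_pow_right₀ hL1 (by omega)
    set z1 := ⌊L ^ B'⌋₊ with hz1
    have hz1b : (z1 : ℝ) ≤ L ^ B' := Nat.floor_le (by positivity)
    have hz1c : L ^ (B + m + ⌈δ⌉₊) ≤ z1 := by
      have h1 := Nat.lt_floor_add_one (L ^ B')
      rw [← hz1] at h1
      have h2 : L ^ B' = L ^ (B + m + ⌈δ⌉₊) * L := by rw [hB', pow_succ]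
      have h3 : 1 ≤ L ^ (B + m + ⌈δ⌉₊) := one_le_pow₀ hL1
      nlinarith
    have hz1a : L ^ B ≤ z1 := (pow_le_pow_right₀ hL1 (by omega)).trans hz1c
    have hz1d : L ^ ((m : ℝ) + δ) ≤ z1 := by
      refine le_trans ?_ hz1c
      rw [← Real.rpow_natCast]
      refine Real.rpow_le_rpow_of_exponent_le hL1 ?_
      push_cast
      have h1 := Nat.le_ceil δ
      have h2 : (0 : ℝ) ≤ B := Nat.cast_nonneg _
      linarith
    have hz14 : z1 ^ 4 ≤ H := by
      have h1 : (z1 : ℝ) ^ 4 ≤ H := by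
        calc (z1 : ℝ) ^ 4 ≤ (L ^ B') ^ 4 := pow_le_pow_left₀ (Nat.cast_nonneg _) hz1b 4
          _ = L ^ (4 * B') := by rw [← pow_mul]; ring_nf
          _ ≤ L ^ (8 * (B' + 2)) := pow_le_pow_right₀ hL1 (by omega)
          _ ≤ H := hHl
      exact_mod_cast h1
    have hzB : (z1 : ℝ) * L ^ B ≤ H := by
      calc (z1 : ℝ) * L ^ B ≤ L ^ B' * L ^ B := mul_le_mul_of_nonneg_right hz1b (by positivity)
        _ = L ^ (B' + B) := (pow_add _ _ _).symm
        _ ≤ L ^ (8 * (B' + 2)) := pow_le_pow_right₀ hL1 (by omega)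
        _ ≤ H := hHl
    have hzA : (z1 : ℝ) ≤ ((z1 : ℝ) - (0 : ℕ)) * L ^ A := by
      rw [Nat.cast_zero, sub_zero]
      exact le_mul_of_one_le_right (Nat.cast_nonneg _) (one_le_pow₀ hL1)
    obtain ⟨hc1, hwz1⟩ := hw z1 hz1a hz14
    obtain ⟨e0, -, e2⟩ := hwz1 0 z1 hz1a hzB hzA
    have e1 := hlow z1 hz1d hz1b
    rw [hPe, hLe] at e2
    rw [hLe] at e0
    set c := Cz z a
    set c1 := Cz z1 a
    have hlam0 : 0 < Lf a z1 := by
      by_contra hcon
      push Not at hcon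
      have : c1 * Lf a z1 ≤ 0 := mul_nonpos_of_nonneg_of_nonpos hc1.le hcon
      linarith
    have hdiv : ∀ x : ℝ, 0 ≤ x → x / L ^ A ≤ e * x := by
      intro x hx
      calc x / L ^ A ≤ x / L := div_le_div_of_nonneg_left hx hL0 hLA
        _ = 1 / L * x := by ring
        _ ≤ e * x := mul_le_mul_of_nonneg_right heL hx
    have hcc := cmp c c1 (Lf a z1) (Pf a z1) e e hcz.le hc1.le hlam0 hep.le hep.le (by linarith) (by linarith) e1
      (e2.trans (hdiv _ (by positivity)))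
    obtain ⟨-, -, e3⟩ := hwz1 0 K (hBB'.trans hKB.le) hK2 (by
      rw [Nat.cast_zero, sub_zero]
      exact le_mul_of_one_le_right (Nat.cast_nonneg _) (one_le_pow₀ hL1))
    rw [hPe, hLe] at e3 ⊢
    have e4 := e3.trans (hdiv _ (mul_nonneg hc1.le hLf0))
    have hc1le : c1 ≤ 2 * c := by
      have h1 := (abs_le.1 hcc).2
      have h2 : 2 * (e + e) * c ≤ c := by
        have : 2 * (e + e) ≤ 1 := by linarith
        calc 2 * (e + e) * c ≤ 1 * c := mul_le_mul_of_nonneg_right this hcz.le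
          _ = c := one_mul c
      linarith
    calc |Pf a K - c * Lf a K| = |(Pf a K - c1 * Lf a K) + (c1 - c) * Lf a K| := by ring_nf
      _ ≤ |Pf a K - c1 * Lf a K| + |(c1 - c) * Lf a K| := abs_add_le _ _
      _ ≤ e * (c1 * Lf a K) + (2 * (e + e) * c) * Lf a K := by
          refine add_le_add e4 ?_
          rw [abs_mul, abs_of_nonneg hLf0]
          exact mul_le_mul_of_nonneg_right hcc hLf0
      _ ≤ e * (2 * c * Lf a K) + (2 * (e + e) * c) * Lf a K := by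
          refine add_le_add ?_ le_rfl
          exact mul_le_mul_of_nonneg_left (mul_le_mul_of_nonneg_right hc1le hLf0) hep.le
      _ = 6 * e * (c * Lf a K) := by ring
      _ ≤ ε * (c * Lf a K) := mul_le_mul_of_nonneg_right (by linarith) (mul_nonneg hcz.le hLf0)

end Pool.Agent.H13K.Join
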