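import Pool.Agent.H13K.KR6

/-!
# Project BH, stub KR: the kernel theorem (helper12)
-/

set_option autoImplicit false

namespace Pool.Agent.H13K.KR

open Finset
open Pool.Agent.H469R2.NK (e norm_e e_add e_zero e_nat)
open Pool.Agent.H442R2.EHI (nint)
open Pool.Agent.H993R2.FB (nint_le_sub nint_le_abs nint_add nint_add_int dvd_of_nint inv_full)
open Pool.Agent.H13V (fz)
open Pool.Agent.H373R2.T7 (lamz pz Vz Vz_pos lamz_nonneg)

/-- all pairs, from the major and the minor arcs -/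
lemma combine (hW : S_WTF) (hF : S_FIN) (d R M H K1 K M0 Q x : ℕ) (u v : ℕ → ℝ) (S Mi Ma : ℝ)
    (hM : 1 ≤ M) (hMR : M ≤ 2 * R + 1) (hHM2 : 2 * R + 1 ≤ 16 * H * M) (hK1K : K1 ≤ K) (hS : 0 ≤ S)
    (hu : ∀ n, |u n| ≤ S) (hv : ∀ n, |v n| ≤ S) (hMa : 0 ≤ Ma)
    (hmin : ∑ k ∈ Ioc K1 K, ∑ k' ∈ Ioc K1 K,
      ‖ker d R M (tr R (fun h => ((1 - sg R M0 Q h : ℝ) : ℂ) * fc R (per R x u) h)) (per R x v) k k'‖ ≤ Mi)
    (hmaj : ∀ p ∈ fr Q, ∑ k ∈ Ioc K1 K, ∑ k' ∈ Ioc K1 K,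
      ‖ker d R M (tr R (fun h => (chi R M0 (ctr R p) h : ℂ) * fc R (per R x u) h)) (per R x v) k k'‖ ≤ Q * Ma) :
    ∑ k ∈ Icc 1 K, ∑ k' ∈ Icc 1 K, ‖ker d R M (per R x u) (per R x v) k k'‖ ≤
      2 * K1 * K * ((32 * H) ^ (d + 1) * S ^ 2) + (Mi + (Q : ℝ) ^ 3 * Ma) := by
  have hM' : (0 : ℝ) < M := by exact_mod_cast hM
  have a1 : (2 * (2 * (R : ℝ) + 1) / M) ≤ 32 * H := by
    rw [div_le_iff₀ hM']
    have : ((2 * R + 1 : ℕ) : ℝ) ≤ ((16 * H * M : ℕ) : ℝ) := by exact_mod_cast hHM2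
    push_cast at this
    linarith
  have a2 : (2 * (2 * (R : ℝ) + 1) / M) ^ (d + 1) ≤ (32 * H) ^ (d + 1) :=
    pow_le_pow_left₀ (by positivity) a1 _
  have hTr : ∀ k k' : ℕ, ‖ker d R M (per R x u) (per R x v) k k'‖ ≤ (32 * H) ^ (d + 1) * S ^ 2 := by
    intro k k'
    refine (ker_trivial hW d R M hM hMR _ _ S S hS (norm_per_le R x u S hS hu)
      (norm_per_le R x v S hS hv) k k').trans ?_
    rw [← sq]
    exact mul_le_mul_of_nonneg_right a2 (by positivity)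
  refine (split_sum K1 K hK1K _ _ (by positivity) hTr).trans ?_
  apply add_le_add le_rfl
  have b1 : ∑ k ∈ Ioc K1 K, ∑ k' ∈ Ioc K1 K, ‖ker d R M (per R x u) (per R x v) k k'‖ ≤
      ∑ k ∈ Ioc K1 K, ∑ k' ∈ Ioc K1 K,
        (‖ker d R M (tr R (fun h => ((1 - sg R M0 Q h : ℝ) : ℂ) * fc R (per R x u) h)) (per R x v) k k'‖ +
        ∑ p ∈ fr Q, ‖ker d R M (tr R (fun h => (chi R M0 (ctr R p) h : ℂ) * fc R (per R x u) h))
          (per R x v) k k'‖) :=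
    sum_le_sum (fun k _ => sum_le_sum (fun k' _ =>
      ker_split hF d R M M0 Q (per R x u) (per R x v) (per_add R x u) k k'))
  refine b1.trans ?_
  simp only [sum_add_distrib]
  apply add_le_add hmin
  have b2 : ∑ k ∈ Ioc K1 K, ∑ k' ∈ Ioc K1 K, ∑ p ∈ fr Q,
      ‖ker d R M (tr R (fun h => (chi R M0 (ctr R p) h : ℂ) * fc R (per R x u) h)) (per R x v) k k'‖ =
      ∑ p ∈ fr Q, ∑ k ∈ Ioc K1 K, ∑ k' ∈ Ioc K1 K,
      ‖ker d R M (tr R (fun h => (chi R M0 (ctr R p) h : ℂ) * fc R (per R x u) h)) (per R x v) k k'‖ := by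
    rw [sum_congr rfl (fun k _ => sum_comm)]
    exact sum_comm
  rw [b2]
  calc _ ≤ ∑ p ∈ fr Q, (Q : ℝ) * Ma := sum_le_sum hmaj
    _ = ((fr Q).card : ℝ) * (Q * Ma) := by rw [sum_const, nsmul_eq_mul]
    _ ≤ ((Q * Q : ℕ) : ℝ) * (Q * Ma) := by
        apply mul_le_mul_of_nonneg_right _ (by positivity)
        exact_mod_cast card_fr Q
    _ = (Q : ℝ) ^ 3 * Ma := by push_cast; ring

/-- the last inequality between the parameters -/
lemma final_ineq (d U U2 Umj Ei D4 w : ℕ) (l K K1 H Q Θ T Gm : ℝ) (hl : 100 ≤ l)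
    (hl2 : 16 * 32 ^ (d + 1) * (2 * d + 4) ≤ l) (hK : 0 ≤ K) (hH : 0 ≤ H) (hK10 : 0 ≤ K1) (hQ0 : 0 ≤ Q)
    (hw : w = U + 4) (hU2 : U2 = U + D4 + 4) (hUmj : Umj = U + 3 * Ei + 1) (hΘ : Θ = l ^ D4) (hT : T = l ^ Ei)
    (hQ : Q ≤ T) (hK1 : K1 ≤ 2 * K / l ^ w) (hGm : Gm = K ^ 2 * H ^ (d + 1) / l ^ U) :
    2 * K1 * K * ((32 * H) ^ (d + 1) * l ^ 2) +
      ((32 * H) ^ (d + 1) * ((2 * d + 4) * Θ * l ^ 2) * (K / l ^ U2) * K +
        Q ^ 3 * (K ^ 2 * H ^ (d + 1) / l ^ Umj)) ≤ Gm := by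
  have hl0 : (0 : ℝ) < l := by linarith
  have hG0 : 0 ≤ Gm := by rw [hGm]; positivity
  have e1 : 2 * K1 * K * ((32 * H) ^ (d + 1) * l ^ 2) ≤ Gm / 4 := by
    have h1 : 2 * K1 * K * ((32 * H) ^ (d + 1) * l ^ 2) ≤
        2 * (2 * K / l ^ w) * K * ((32 * H) ^ (d + 1) * l ^ 2) := by
      have : 0 ≤ (32 * H) ^ (d + 1) * l ^ 2 := by positivity
      apply mul_le_mul_of_nonneg_right _ this
      apply mul_le_mul_of_nonneg_right _ hK
      linarith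
    refine h1.trans ?_
    have h2 : 2 * (2 * K / l ^ w) * K * ((32 * H) ^ (d + 1) * l ^ 2) = (4 * 32 ^ (d + 1)) / l ^ 2 * Gm := by
      rw [hGm, hw, mul_pow, pow_add l U 4]
      field_simp
      ring
    rw [h2]
    have h3 : (4 * 32 ^ (d + 1)) / l ^ 2 ≤ 1 / 4 := by
      rw [div_le_div_iff₀ (by positivity) (by norm_num)]
      have h4 : (16 : ℝ) * 32 ^ (d + 1) ≤ 16 * 32 ^ (d + 1) * (2 * d + 4) := by
        apply le_mul_of_one_le_right (by positivity)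
        have : (0 : ℝ) ≤ d := Nat.cast_nonneg _
        linarith
      nlinarith
    calc _ ≤ 1 / 4 * Gm := mul_le_mul_of_nonneg_right h3 hG0
      _ = Gm / 4 := by ring
  have e2 : (32 * H) ^ (d + 1) * ((2 * d + 4) * Θ * l ^ 2) * (K / l ^ U2) * K ≤ Gm / 4 := by
    have h2 : (32 * H) ^ (d + 1) * ((2 * d + 4) * Θ * l ^ 2) * (K / l ^ U2) * K =
        (32 ^ (d + 1) * (2 * d + 4)) / l ^ 2 * Gm := by
      rw [hGm, hU2, hΘ, mul_pow, pow_add l (U + D4) 4, pow_add l U D4]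
      field_simp
    rw [h2]
    have h3 : (32 ^ (d + 1) * (2 * d + 4)) / l ^ 2 ≤ 1 / 4 := by
      rw [div_le_div_iff₀ (by positivity) (by norm_num)]
      have h4 : (0 : ℝ) ≤ 32 ^ (d + 1) * (2 * d + 4) := by positivity
      nlinarith
    calc _ ≤ 1 / 4 * Gm := mul_le_mul_of_nonneg_right h3 hG0
      _ = Gm / 4 := by ring
  have e3 : Q ^ 3 * (K ^ 2 * H ^ (d + 1) / l ^ Umj) ≤ Gm / 4 := by
    have h1 : Q ^ 3 * (K ^ 2 * H ^ (d + 1) / l ^ Umj) ≤ T ^ 3 * (K ^ 2 * H ^ (d + 1) / l ^ Umj) := by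
      apply mul_le_mul_of_nonneg_right _ (by positivity)
      exact pow_le_pow_left₀ hQ0 hQ 3
    refine h1.trans ?_
    have h2 : T ^ 3 * (K ^ 2 * H ^ (d + 1) / l ^ Umj) = 1 / l * Gm := by
      rw [hGm, hUmj, hT, pow_add l (U + 3 * Ei) 1, pow_add l U (3 * Ei), ← pow_mul, mul_comm Ei 3]
      field_simp
    rw [h2]
    have h3 : 1 / l ≤ 1 / 4 := one_div_le_one_div_of_le (by norm_num) (by linarith)
    calc _ ≤ 1 / 4 * Gm := mul_le_mul_of_nonneg_right h3 hG0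
      _ = Gm / 4 := by ring
  linarith

theorem t (hVZ : S_VZ) (hW : S_WTF) (hF : S_FIN) (hMIN : S_MIN) (hMAJ : S_MAJ) (hPRJ : S_PRJ) (hMJ : S_MJ) :
    S_KER := by
  intro d U hd
  obtain ⟨Cz, hCz1, hCz⟩ := hVZ
  obtain ⟨w, hw⟩ : ∃ w : ℕ, w = U + 4 := ⟨_, rfl⟩
  obtain ⟨D4, hD4⟩ : ∃ D4 : ℕ, D4 = w * d := ⟨_, rfl⟩
  obtain ⟨U2, hU2⟩ : ∃ U2 : ℕ, U2 = U + D4 + 4 := ⟨_, rfl⟩
  obtain ⟨Ei0, L0i, hinv⟩ := inv_full d hd (U2 * 2) w 0
  obtain ⟨Ei, hEi⟩ : ∃ Ei : ℕ, Ei = Ei0 + 1 := ⟨_, rfl⟩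
  refine ⟨Ei, fun E hE => ?_⟩
  obtain ⟨Umj, hUmj⟩ : ∃ Umj : ℕ, Umj = U + 3 * Ei + 1 := ⟨_, rfl⟩
  obtain ⟨Ea, hEa⟩ : ∃ Ea : ℕ, Ea = D4 + Ei + E + Umj + w + 20 := ⟨_, rfl⟩
  obtain ⟨Bmj, H0mj, hmj⟩ := hMJ d Ea Umj hd
  obtain ⟨B, hB⟩ : ∃ B : ℕ, B = Bmj + Ea + 3 * Ei + 5 := ⟨_, rfl⟩
  obtain ⟨L2, hL2⟩ := log_small (2 * Cz * E)
  obtain ⟨L1, hL1⟩ : ∃ L1 : ℝ, L1 = max (max L0i L2) (16 * 32 ^ (d + 1) * (2 * d + 4) + 100) := ⟨_, rfl⟩
  refine ⟨B, max H0mj (⌈Real.exp L1⌉₊ + 2), fun H hH K hK hKH => ?_⟩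
  obtain ⟨l, hl⟩ : ∃ l : ℝ, l = Real.log H := ⟨_, rfl⟩
  rw [← hl] at hK hKH
  have hHmj : H0mj ≤ H := (le_max_left _ _).trans hH
  have hH2 : ⌈Real.exp L1⌉₊ + 2 ≤ H := (le_max_right _ _).trans hH
  have hH1 : 1 ≤ H := by omega
  have hlL1 : L1 ≤ l := by
    rw [hl, ← Real.log_exp L1]
    apply Real.log_le_log (Real.exp_pos _)
    refine (Nat.le_ceil _).trans ?_
    exact_mod_cast (show ⌈Real.exp L1⌉₊ ≤ H by omega)
  have hlc : 16 * 32 ^ (d + 1) * (2 * (d : ℝ) + 4) + 100 ≤ l := by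
    refine le_trans ?_ hlL1
    rw [hL1]; exact le_max_right _ _
  have hcpos : (0 : ℝ) ≤ 16 * 32 ^ (d + 1) * (2 * (d : ℝ) + 4) := by positivity
  have hl100 : 100 ≤ l := by linarith
  have hlL2 : L2 ≤ l := by
    refine le_trans ?_ hlL1
    rw [hL1]; exact (le_max_right _ _).trans (le_max_left _ _)
  have hlL0 : L0i ≤ l := by
    refine le_trans ?_ hlL1
    rw [hL1]; exact (le_max_left _ _).trans (le_max_left _ _)
  have hl1 : (1 : ℝ) ≤ l := by linarith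
  have hl0 : (0 : ℝ) < l := by linarith
  have hpm : ∀ a b : ℕ, a ≤ b → l ^ a ≤ l ^ b := fun a b h => pow_le_pow_right₀ hl1 h
  have hp1 : ∀ a : ℕ, 1 ≤ l ^ a := fun a => one_le_pow₀ hl1
  have hKR1 : (1 : ℝ) ≤ K := (hp1 B).trans hK
  have hK0 : (0 : ℝ) < K := by linarith
  have hKn : 1 ≤ K := by exact_mod_cast hKR1
  have hHR1 : (1 : ℝ) ≤ H := by exact_mod_cast hH1
  have hHR0 : (0 : ℝ) < H := by linarith
  have hKa : ∀ a : ℕ, a ≤ B → l ^ a ≤ K := fun a h => (hpm a B h).trans hK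
  have hKHa : ∀ a : ℕ, a ≤ B → (K : ℝ) * l ^ a ≤ H := fun a h =>
    (mul_le_mul_of_nonneg_left (hpm a B h) hK0.le).trans hKH
  have hKHn : K ≤ H := by
    have := hKHa 0 (by omega)
    rw [pow_zero, mul_one] at this
    exact_mod_cast this
  -- parameters
  obtain ⟨x, hx⟩ : ∃ x : ℕ, x = (d + 1) * H * K ^ d := ⟨_, rfl⟩
  obtain ⟨W, hWd⟩ : ∃ W : ℕ, W = ⌈l ^ (Umj + 8)⌉₊ := ⟨_, rfl⟩
  obtain ⟨R, hR⟩ : ∃ R : ℕ, R = x * W := ⟨_, rfl⟩
  obtain ⟨M, hMd⟩ : ∃ M : ℕ, M = (2 * R + 1) / (8 * H) := ⟨_, rfl⟩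
  obtain ⟨hHx, hxR, hxR2, hRx, hM, h8, h16, hMR, h100⟩ :=
    p_RM l d H K x R M (Umj + 8) W hl100 (by omega) hH1 hKn hx hWd hR hMd
  obtain ⟨K1, hK1d⟩ : ∃ K1 : ℕ, K1 = ⌈(K : ℝ) / l ^ w⌉₊ := ⟨_, rfl⟩
  obtain ⟨hK1, hK1K, hKK1, hK1K2⟩ := p_K1 l K K1 w hl1 (hKa w (by omega)) hK1d
  obtain ⟨P, hP⟩ : ∃ P : ℝ, P = (H : ℝ) * (K : ℝ) ^ (d - 1) := ⟨_, rfl⟩
  obtain ⟨T, hT⟩ : ∃ T : ℝ, T = l ^ Ei := ⟨_, rfl⟩
  obtain ⟨Θ, hΘ⟩ : ∃ Θ : ℝ, Θ = l ^ D4 := ⟨_, rfl⟩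
  have hT100 : 100 ≤ T := by
    rw [hT]
    calc (100 : ℝ) ≤ l := hl100
      _ = l ^ 1 := (pow_one l).symm
      _ ≤ l ^ Ei := hpm 1 Ei (by omega)
  have hΘ1 : 1 ≤ Θ := by rw [hΘ]; exact hp1 _
  have hKd1 : (1 : ℝ) ≤ (K : ℝ) ^ (d - 1) := one_le_pow₀ hKR1
  have hPH : (H : ℝ) ≤ P := by rw [hP]; exact le_mul_of_one_le_right hHR0.le hKd1
  have hP0 : 0 < P := by linarith
  have hPK : P * K = H * (K : ℝ) ^ d := by
    rw [hP, mul_assoc, ← pow_succ, Nat.sub_add_cancel hd]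
  have hNP : 2 * P ≤ 2 * (R : ℝ) + 1 := by
    have h1 : P ≤ x := by
      rw [hx]
      push_cast
      rw [mul_assoc, ← hPK]
      have : (0 : ℝ) ≤ d := Nat.cast_nonneg _
      have h2 : P ≤ P * K := le_mul_of_one_le_right hP0.le hKR1
      have h3 : P * K ≤ (d + 1) * (P * K) := le_mul_of_one_le_left (by positivity) (by linarith)
      linarith
    have h2 : (x : ℝ) ≤ R := by exact_mod_cast hxR
    linarith
  have hN : (0 : ℝ) < 2 * R + 1 := by positivity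
  obtain ⟨M0, hM0d⟩ : ∃ M0 : ℕ, M0 = ⌈T / (4 * P) * (2 * R + 1)⌉₊ + 1 := ⟨_, rfl⟩
  obtain ⟨M1, hM1d⟩ : ∃ M1 : ℕ, M1 = ⌈2 * Θ * T / P * (2 * R + 1)⌉₊ + 1 := ⟨_, rfl⟩
  obtain ⟨m1, m2, m3, m4, m5⟩ := p_M (2 * R + 1) P T Θ M0 M1 hN hP0 hNP hT100 hΘ1 hM0d hM1d
  have hM0 : 1 ≤ M0 := by omega
  have hM1 : 1 ≤ M1 := by omega
  have hΘT : 100 * (Θ * T) ≤ P := by
    refine le_trans ?_ hPH
    refine le_trans ?_ (hKHa (D4 + Ei + 1) (by omega))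
    have h1 : Θ * T * l = l ^ (D4 + Ei + 1) := by rw [hΘ, hT]; ring
    rw [← h1]
    have h2 : Θ * T * l ≤ K * (Θ * T * l) := le_mul_of_one_le_left (by positivity) hKR1
    refine le_trans ?_ h2
    have h3 : 0 ≤ Θ * T := by positivity
    nlinarith
  have hsm : 5 * Θ * T / P ≤ 1 / 8 := by
    rw [div_le_div_iff₀ hP0 (by norm_num)]
    have h3 : 0 ≤ Θ * T := by positivity
    nlinarith
  have hMM : ((M0 : ℝ) + M1) ≤ (2 * R + 1) / 8 := by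
    have := m4.trans hsm
    rw [div_le_iff₀ hN] at this
    linarith
  have hR100 : 100 ≤ R := by omega
  have hRR : (100 : ℝ) ≤ R := by exact_mod_cast hR100
  have hM0R : 2 * M0 ≤ R := by
    have : (2 : ℝ) * M0 ≤ R := by
      have : (0 : ℝ) ≤ M1 := Nat.cast_nonneg _
      linarith
    exact_mod_cast this
  have hM1R : 2 * M1 ≤ R := by
    have : (2 : ℝ) * M1 ≤ R := by
      have : (0 : ℝ) ≤ M0 := Nat.cast_nonneg _
      linarith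
    exact_mod_cast this
  obtain ⟨Q, hQ⟩ : ∃ Q : ℕ, Q = ⌊l ^ Ei⌋₊ := ⟨_, rfl⟩
  have hQT : (Q : ℝ) ≤ T := by rw [hQ, hT]; exact Nat.floor_le (by positivity)
  obtain ⟨z, hz⟩ : ∃ z : ℕ, z = ⌊l ^ E⌋₊ := ⟨_, rfl⟩
  have hQz : Q ≤ z := by rw [hQ, hz]; exact Nat.floor_le_floor (hpm Ei E hE)
  have hzl : (z : ℝ) ≤ l ^ E := by rw [hz]; exact Nat.floor_le (by positivity)
  have hz2 : 2 ≤ z := by
    rw [hz]
    apply Nat.le_floor
    have : l ^ 1 ≤ l ^ E := hpm 1 E (by omega)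
    rw [pow_one] at this
    push_cast
    linarith
  have hVzl : 1 + 2 * (Vz z)⁻¹ ≤ l := by
    refine le_trans ?_ (hL2 l hlL2)
    have h1 := hCz z hz2
    have h2 : Real.log z ≤ E * Real.log l := by
      rw [← Real.log_pow]
      exact Real.log_le_log (by positivity) hzl
    have h3 : Cz * Real.log z ≤ Cz * (E * Real.log l) := mul_le_mul_of_nonneg_left h2 (by linarith)
    linarith
  obtain ⟨fb1, fb2, fb3⟩ := fun_bounds z l hVzl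
  have hδQ : 2 * (T / P) * (Q : ℝ) ^ 2 < 1 := by
    have h1 : (Q : ℝ) ^ 2 ≤ T ^ 2 := pow_le_pow_left₀ (Nat.cast_nonneg _) hQT 2
    have h2 : 2 * (T / P) * (Q : ℝ) ^ 2 ≤ 2 * (T / P) * T ^ 2 :=
      mul_le_mul_of_nonneg_left h1 (by positivity)
    refine lt_of_le_of_lt h2 ?_
    have h3 : 2 * (T / P) * T ^ 2 = 2 * T ^ 3 / P := by ring
    rw [h3, div_lt_one hP0]
    refine lt_of_lt_of_le ?_ hPH
    refine lt_of_lt_of_le ?_ (hKHa (3 * Ei + 1) (by omega))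
    have h4 : T ^ 3 * l = l ^ (3 * Ei + 1) := by rw [hT]; ring
    rw [← h4]
    have h5 : T ^ 3 * l ≤ K * (T ^ 3 * l) := le_mul_of_one_le_left (by positivity) hKR1
    refine lt_of_lt_of_le ?_ h5
    have h6 : 0 < T ^ 3 := by positivity
    nlinarith
  have hΘK : (K : ℝ) ^ d ≤ (K1 : ℝ) ^ d * Θ := by
    rw [hΘ, hD4, pow_mul, ← mul_pow]
    exact pow_le_pow_left₀ hK0.le hKK1 d
  refine ⟨R, M, hM, ?_, h8, h16, ?_⟩
  · rw [← hx]; exact hxR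
  intro v hv
  rw [← hx, ← hl, ← hz]
  rw [← hl, ← hz] at hv
  have hvb : ∀ n, |v n| ≤ l := by
    rcases hv with hv | hv
    · rw [hv]; exact fb2
    · rw [hv]; exact fb3
  have hS : (0 : ℝ) ≤ l := hl0.le
  obtain ⟨Bd, hBd⟩ : ∃ Bd : ℝ, Bd = (K : ℝ) ^ 2 * (H : ℝ) ^ (d + 1) / l ^ Umj := ⟨_, rfl⟩
  have hBd0 : 0 ≤ Bd := by rw [hBd]; positivity
  have hmj' := hmj H hHmj
  simp only [← hl] at hmj'
  -- minor arcs
  have hmin := minor hF hMIN d R M H K1 K M0 Q x (fz z) v l (T / (4 * P)) (T / P) (K / l ^ U2) Θ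
    hd hM hH1 h8 h16 hK1 hK1K hKHn hS fb1 hvb hx hxR hΘK hΘ1 hM0 (by omega) m3 hδQ (by positivity) m1
    (by
      intro α hα
      rw [div_pow, ← pow_mul] at hα
      obtain ⟨q, hq1, hq2, b, hb⟩ := hinv l hlL0 K K1 (4 * H) (4 * H) (hKa Ei0 (by omega)) hK1K hKK1
        (by
          push_cast
          have := hKHa Ei0 (by omega)
          linarith)
        (by rw [pow_zero, mul_one]) α hα
      apply exists_fr Q q b α _ hq1
      · rw [hQ]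
        exact Nat.le_floor (hq2.trans (hpm Ei0 Ei (by omega)))
      · refine hb.trans ?_
        rw [hT, hP]
        push_cast
        rw [mul_assoc]
        apply div_le_div_of_nonneg_right (hpm Ei0 Ei (by omega))
        positivity)
  -- major arcs
  have hmaj : ∀ p ∈ fr Q, ∑ k ∈ Ioc K1 K, ∑ k' ∈ Ioc K1 K,
      ‖ker d R M (tr R (fun h => (chi R M0 (ctr R p) h : ℂ) * fc R (per R x (fz z)) h)) (per R x v) k k'‖ ≤
        Q * Bd := by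
    intro p hp
    obtain ⟨p1, p2, p3, p4⟩ := mem_fr hp
    have hp1Q : (p.1 : ℝ) ≤ Q := by exact_mod_cast p2
    have hp1T : (p.1 : ℝ) ≤ T := hp1Q.trans hQT
    have hp10 : (0 : ℝ) < p.1 := by exact_mod_cast p1
    have hω : (M : ℝ) ≤ 1 / (8 * H) * (2 * R + 1) := by
      rw [one_div, inv_mul_eq_div, le_div_iff₀ (by positivity)]
      have : ((8 * H * M : ℕ) : ℝ) ≤ ((2 * R + 1 : ℕ) : ℝ) := by exact_mod_cast h8
      push_cast at this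
      linarith
    have hTK : T / P * (K : ℝ) ^ (d - 1) = T / H := by
      rw [hP]
      field_simp
    have hTK2 : T / P * (K : ℝ) ^ d = T * K / H := by
      have : (K : ℝ) ^ d = K ^ (d - 1) * K := by rw [← pow_succ, Nat.sub_add_cancel hd]
      rw [this, ← mul_assoc, hTK]
      ring
    have hω2 : 1 / (8 * (H : ℝ)) ≤ T / H := by
      rw [div_le_div_iff₀ (by positivity) hHR0]
      nlinarith
    have h4 : 4 * (p.1 : ℝ) * (K + 1) * (1 / (8 * H) + T / P * (K : ℝ) ^ (d - 1)) ≤ 1 := by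
      rw [hTK]
      have c1 : 1 / (8 * (H : ℝ)) + T / H ≤ 2 * T / H := by
        have : 2 * T / H = T / H + T / H := by ring
        linarith
      have c2 : 4 * (p.1 : ℝ) * (K + 1) ≤ 8 * T * K := by
        have d1 : (p.1 : ℝ) * (K + 1) ≤ T * (2 * K) :=
          mul_le_mul hp1T (by linarith) (by positivity) (by linarith)
        linarith
      have c3 : 4 * (p.1 : ℝ) * (K + 1) * (1 / (8 * H) + T / H) ≤ 8 * T * K * (2 * T / H) :=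
        mul_le_mul c2 c1 (by positivity) (by positivity)
      refine c3.trans ?_
      have c4 : 8 * T * K * (2 * T / H) = 16 * (T ^ 2 * K) / H := by ring
      rw [c4, div_le_one hHR0]
      refine le_trans ?_ (hKHa (2 * Ei + 1) (by omega))
      have c5 : (K : ℝ) * l ^ (2 * Ei + 1) = l * (T ^ 2 * K) := by rw [hT]; ring
      rw [c5]
      apply mul_le_mul_of_nonneg_right _ (by positivity)
      linarith
    have hδ₂ : 1 / (8 * (H : ℝ)) + T / P * (K : ℝ) ^ d ≤ 2 * Θ * T / P * (K1 : ℝ) ^ d := by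
      have c1 : 2 * (T / P * (K : ℝ) ^ d) ≤ 2 * Θ * T / P * (K1 : ℝ) ^ d := by
        have d1 : 2 * (T / P) * (K : ℝ) ^ d ≤ 2 * (T / P) * ((K1 : ℝ) ^ d * Θ) :=
          mul_le_mul_of_nonneg_left hΘK (by positivity)
        have d2 : 2 * Θ * T / P * (K1 : ℝ) ^ d = 2 * (T / P) * ((K1 : ℝ) ^ d * Θ) := by ring
        linarith
      have c2 : 1 / (8 * (H : ℝ)) ≤ T / P * (K : ℝ) ^ d := by
        rw [hTK2]
        refine hω2.trans ?_
        apply div_le_div_of_nonneg_right _ hHR0.le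
        exact le_mul_of_one_le_right (by linarith) hKR1
      linarith
    have hcop : IsCoprime ((p.2 : ℕ) : ℤ) ((p.1 : ℕ) : ℤ) := Nat.isCoprime_iff_coprime.2 p4
    have hres := major hF hMAJ hPRJ d R M K1 K p.1 M0 M1 x ((p.2 : ℕ) : ℤ) (1 / (8 * H)) (T / P)
      (2 * Θ * T / P) (fz z) v Bd hd hM hMR hω p1 hcop hK1 m3 h4 hδ₂ hM0 hM0R hM1 hM1R m2 hxR
      (by
        intro θ0 θ1 hθ0 hθ1 r
        rw [hBd]
        apply hmj' K K1 R M M0 M1 x p.1 r z ((p.2 : ℕ) : ℤ) θ0 θ1 v (hKa Bmj (by omega))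
          (hKHa Bmj (by omega)) hK1K
          (hKK1.trans (mul_le_mul_of_nonneg_left (hpm w Ea (by omega)) (Nat.cast_nonneg _)))
          hx hM h8 h16 hxR2
          (hRx.trans (mul_le_mul_of_nonneg_left (hpm _ Ea (by omega)) (Nat.cast_nonneg _)))
          p1 (p2.trans hQz) (hzl.trans (hpm E Ea (by omega))) hM0 hM1 _ _ hθ0 hθ1 hvb
        · refine m4.trans ?_
          rw [← hP]
          apply div_le_div_of_nonneg_right _ hP0.le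
          have : 5 * Θ * T ≤ l ^ (D4 + Ei + 1) := by
            have e1 : l ^ (D4 + Ei + 1) = l * (Θ * T) := by rw [hΘ, hT]; ring
            rw [e1]
            have e2 : 5 * Θ * T = 5 * (Θ * T) := by ring
            rw [e2]
            apply mul_le_mul_of_nonneg_right _ (by positivity)
            linarith
          exact this.trans (hpm _ Ea (by omega))
        · rw [← hP]; exact m5)
    refine le_trans hres ?_
    exact mul_le_mul_of_nonneg_right hp1Q hBd0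
  refine (combine hW hF d R M H K1 K M0 Q x (fz z) v l _ Bd hM hMR h16 hK1K hS fb1 hvb hBd0 hmin hmaj).trans ?_
  rw [hBd]
  exact final_ineq d U U2 Umj Ei D4 w l K K1 H Q Θ T _ hl100 (by linarith) hK0.le hHR0.le
    (Nat.cast_nonneg _) (Nat.cast_nonneg _) hw hU2 hUmj hΘ hT hQT hK1K2 rfl

end Pool.Agent.H13K.KR
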