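import Pool.Agent.H13K.StmS
import Pool.Agent.H373R2.T7.Minor

/-! **ALL**: the theorem for all `K` simultaneously (project BH, helper13). -/

set_option autoImplicit false

namespace Pool.Agent.H13K.ALL

open Finset
open Pool.Agent.H373R2.T7 (lamz pz Vz mem_pz ev_log' ev_L')

theorem cheb {α : Type*} (s : Finset α) (f : α → ℝ) (t V : ℝ) (ht : 0 < t) (h : ∑ a ∈ s, f a ^ 2 ≤ V) :
    ((s.filter (fun a => t < |f a|)).card : ℝ) ≤ V / t ^ 2 := by
  rw [le_div_iff₀ (by positivity)]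
  refine le_trans ?_ h
  calc ((s.filter (fun a => t < |f a|)).card : ℝ) * t ^ 2 = ∑ _a ∈ s.filter (fun a => t < |f a|), t ^ 2 := by
        rw [sum_const, nsmul_eq_mul]
    _ ≤ ∑ a ∈ s.filter (fun a => t < |f a|), f a ^ 2 := by
        apply sum_le_sum
        intro a ha
        rw [mem_filter] at ha
        rw [← sq_abs (f a)]
        exact pow_le_pow_left₀ ht.le ha.2.le 2
    _ ≤ ∑ a ∈ s, f a ^ 2 :=
        sum_le_sum_of_subset_of_nonneg (filter_subset _ _) (fun _ _ _ => by positivity)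

theorem lead_count {m : ℕ} (dd : Fin m → ℕ) (H : ℕ) (i : Fin m) :
    (2 * H + 1) * ((bx dd H).filter (fun a => a i (Fin.last (dd i)) = 0)).card ≤ (bx dd H).card := by
  classical
  have h1 : (2 * H + 1) * ((bx dd H).filter (fun a => a i (Fin.last (dd i)) = 0)).card =
      ((Icc (-(H : ℤ)) H) ×ˢ ((bx dd H).filter (fun a => a i (Fin.last (dd i)) = 0))).card := by
    rw [card_product, Int.card_Icc]
    congr 1
    omega
  rw [h1]
  apply card_le_card_of_injOn
    (fun q : ℤ × (∀ i : Fin m, Fin (dd i + 1) → ℤ) =>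
      Function.update q.2 i (Function.update (q.2 i) (Fin.last (dd i)) q.1))
  · intro q hq
    rw [mem_coe, mem_product, mem_filter] at hq
    rw [mem_coe]
    unfold bx at hq ⊢
    rw [Fintype.mem_piFinset] at hq ⊢
    intro j
    rw [Fintype.mem_piFinset]
    intro l
    dsimp only
    by_cases hj : j = i
    · subst hj
      rw [Function.update_self]
      by_cases hl : l = Fin.last (dd j)
      · subst hl
        rw [Function.update_self]
        exact hq.1
      · rw [Function.update_of_ne hl]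
        exact (Fintype.mem_piFinset.1 (hq.2.1 j)) l
    · rw [Function.update_of_ne hj]
      exact (Fintype.mem_piFinset.1 (hq.2.1 j)) l
  · intro q hq q' hq' heq
    rw [mem_coe, mem_product, mem_filter] at hq hq'
    dsimp only at heq
    have e1 : q.1 = q'.1 := by
      have := congrFun (congrFun heq i) (Fin.last (dd i))
      rwa [Function.update_self, Function.update_self, Function.update_self, Function.update_self] at this
    have e2 : q.2 = q'.2 := by
      funext j l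
      by_cases hj : j = i
      · subst hj
        by_cases hl : l = Fin.last (dd j)
        · subst hl
          rw [hq.2.2, hq'.2.2]
        · have := congrFun (congrFun heq j) l
          rwa [Function.update_self, Function.update_self, Function.update_of_ne hl,
            Function.update_of_ne hl] at this
      · have := congrFun (congrFun heq j) l
        rwa [Function.update_of_ne hj, Function.update_of_ne hj] at this
    exact Prod.ext e1 e2

theorem pr_nonneg (n : ℕ) : 0 ≤ pr n := by unfold pr; split_ifs <;> norm_num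

theorem Pf_mono {m : ℕ} {dd : Fin m → ℕ} (a : ∀ i : Fin m, Fin (dd i + 1) → ℤ) {K K' : ℕ} (h : K ≤ K') :
    Pf a K ≤ Pf a K' := by
  unfold Pf
  apply sum_le_sum_of_subset_of_nonneg (Icc_subset_Icc_right h)
  intro n _ _
  exact prod_nonneg fun i _ => pr_nonneg _

theorem Lf_mono {m : ℕ} {dd : Fin m → ℕ} (a : ∀ i : Fin m, Fin (dd i + 1) → ℤ) (hW : ∀ n : ℤ, 0 ≤ Wf a n)
    {K K' : ℕ} (h : K ≤ K') : Lf a K ≤ Lf a K' := by
  unfold Lf
  exact sum_le_sum_of_subset_of_nonneg (Icc_subset_Icc_right h) (fun n _ _ => hW _)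

theorem Lf_diff {m : ℕ} {dd : Fin m → ℕ} (a : ∀ i : Fin m, Fin (dd i + 1) → ℤ) (C : ℝ) (hW : ∀ n : ℤ, Wf a n ≤ C)
    {K K' : ℕ} (h : K ≤ K') : Lf a K' - Lf a K ≤ C * (K' - K) := by
  unfold Lf
  have h2 : ∀ y : ℕ, Icc 1 y = Ioc 0 y := fun y => by
    ext a; simp only [mem_Icc, mem_Ioc]; omega
  rw [h2, h2, ← sum_Ioc_consecutive _ (Nat.zero_le K) h, add_sub_cancel_left]
  calc ∑ i ∈ Ioc K K', Wf a (i : ℤ) ≤ ∑ _i ∈ Ioc K K', C := sum_le_sum fun i _ => hW _
    _ = C * (K' - K) := by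
      rw [sum_const, Nat.card_Ioc, nsmul_eq_mul, Nat.cast_sub h, mul_comm]

/-- dyadic grid with `J` points in each octave -/
theorem grid (J K H : ℕ) (hJ : 1 ≤ J) (hJK : J ≤ K) (hKH : K ≤ H) : ∃ j s : ℕ, J ≤ j ∧ j + 1 ≤ 2 * J ∧
    s < Nat.log 2 H + 1 ∧ j * 2 ^ s ≤ K ∧ K ≤ (j + 1) * 2 ^ s ∧ J * 2 ^ s ≤ K := by
  set s := Nat.log 2 (K / J) with hs
  have h0 : K / J ≠ 0 := by
    have := Nat.div_pos hJK hJ
    omega
  have h1 : 2 ^ s ≤ K / J := Nat.pow_log_le_self 2 h0
  have h2 : K / J < 2 ^ (s + 1) := Nat.lt_pow_succ_log_self (by norm_num) _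
  have h3 : J * 2 ^ s ≤ K := by
    have := (Nat.le_div_iff_mul_le hJ).1 h1
    linarith
  have h4 : K < J * 2 ^ (s + 1) := by
    have := (Nat.div_lt_iff_lt_mul hJ).1 h2
    linarith
  have hp : 0 < 2 ^ s := by positivity
  refine ⟨K / 2 ^ s, s, ?_, ?_, ?_, ?_, ?_, h3⟩
  · exact (Nat.le_div_iff_mul_le hp).2 h3
  · have : K / 2 ^ s < 2 * J := by
      rw [Nat.div_lt_iff_lt_mul hp]
      calc K < J * 2 ^ (s + 1) := h4
        _ = 2 * J * 2 ^ s := by ring
    omega
  · have h5 : 2 ^ s ≤ H := by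
      calc 2 ^ s = 1 * 2 ^ s := (one_mul _).symm
        _ ≤ J * 2 ^ s := Nat.mul_le_mul_right _ hJ
        _ ≤ K := h3
        _ ≤ H := hKH
    have := Nat.le_log_of_pow_le (by norm_num : 1 < 2) h5
    omega
  · exact Nat.div_mul_le_self K (2 ^ s)
  · have e1 := Nat.div_add_mod K (2 ^ s)
    have e2 := Nat.mod_lt K hp
    nlinarith

theorem t : S_VZ → S_SEC → S_TV → S_LOWC → S_LOWL → S_ALL := by
  intro hVZ hSEC hTV hLC hLL m dd U hdd
  classical
  obtain ⟨CV, hCV1, hCV⟩ := hVZ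
  obtain ⟨CT, hCT1, hCT⟩ := hTV m dd
  obtain ⟨c, D, hc, hLC'⟩ := hLC m dd
  obtain ⟨K0, hLL'⟩ := hLL m dd hdd
  set U1 := U + m + 4 with hU1
  set U2 := U + m + 3 with hU2
  set U' := U + 2 * U2 + U1 + 2 with hU'
  obtain ⟨E1, hE1⟩ := hSEC m dd U' hdd
  refine ⟨max E1 1, fun E hE => ?_⟩
  have hE1' : E1 ≤ E := le_trans (le_max_left _ _) hE
  have hE1'' : 1 ≤ E := le_trans (le_max_right _ _) hE
  obtain ⟨B0, H0, hH0⟩ := hE1 E hE1'
  -- large parameters
  have hlim : Filter.Tendsto (fun N : ℕ => Real.log (N : ℝ)) Filter.atTop Filter.atTop :=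
    Real.tendsto_log_atTop.comp (tendsto_natCast_atTop_atTop (R := ℝ))
  have hpoly : ∀ (A ε : ℝ) (n : ℕ), 0 ≤ A → 0 < ε → ∃ H1 : ℕ, ∀ H : ℕ, H1 ≤ H →
      (A * Real.log (Real.log H)) ^ n ≤ ε * Real.log H := by
    intro A ε n hA hε
    have h3 := (Real.isLittleO_pow_log_id_atTop (n := n)).bound (show (0 : ℝ) < ε / (A ^ n + 1) by positivity)
    have h4 := (hlim.eventually h3).and (hlim.eventually_ge_atTop 1)
    obtain ⟨H1, hH1⟩ := Filter.eventually_atTop.1 h4
    refine ⟨H1, fun H hH => ?_⟩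
    obtain ⟨h5, h6⟩ := hH1 H hH
    simp only [id] at h5
    have hl0 : 0 ≤ Real.log (Real.log H) := Real.log_nonneg h6
    rw [Real.norm_of_nonneg (by positivity), Real.norm_of_nonneg (by linarith)] at h5
    rw [mul_pow]
    have hAn : (0 : ℝ) ≤ A ^ n := by positivity
    calc A ^ n * Real.log (Real.log H) ^ n ≤ (A ^ n + 1) * (ε / (A ^ n + 1) * Real.log H) := by
          apply mul_le_mul (by linarith) h5 (by positivity) (by positivity)
      _ = ε * Real.log H := by field_simp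
  obtain ⟨H1, hH1⟩ := hpoly (CV * E) 1 m (by positivity) one_pos
  obtain ⟨H2, hH2⟩ := hpoly (E : ℝ) c D (by positivity) hc
  obtain ⟨H3, hH3⟩ := ev_log' U (2 * m)
  obtain ⟨H4, hH4⟩ := ev_L' (12 + 2 * CT + 2 * (∏ i, ((dd i : ℝ) + 2)) + K0)
  refine ⟨B0 + U1 + 2, max (max H0 H1) (max (max H2 H3) (max H4 1)), fun H hH => ?_⟩
  have hHa : H0 ≤ H := le_trans (le_trans (le_max_left _ _) (le_max_left _ _)) hH
  have hHb : H1 ≤ H := le_trans (le_trans (le_max_right _ _) (le_max_left _ _)) hH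
  have hHc : H2 ≤ H := le_trans (le_trans (le_trans (le_max_left _ _) (le_max_left _ _)) (le_max_right _ _)) hH
  have hHd : H3 ≤ H := le_trans (le_trans (le_trans (le_max_right _ _) (le_max_left _ _)) (le_max_right _ _)) hH
  have hHe : H4 ≤ H := le_trans (le_trans (le_trans (le_max_left _ _) (le_max_right _ _)) (le_max_right _ _)) hH
  have hHf : 1 ≤ H := le_trans (le_trans (le_trans (le_max_right _ _) (le_max_right _ _)) (le_max_right _ _)) hH
  have a1 := hH1 H hHb
  have a2 := hH2 H hHc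
  have a3 := hH3 H hHd
  have a4 := hH4 H hHe
  have aS := hH0 H hHa
  have hHr : (1 : ℝ) ≤ H := by exact_mod_cast hHf
  have hHpos : (0 : ℝ) < H := by linarith
  set L := Real.log H with hL
  have hprod0 : (0 : ℝ) ≤ ∏ i, ((dd i : ℝ) + 2) := prod_nonneg fun i _ => by positivity
  have hK00 : (0 : ℝ) ≤ K0 := Nat.cast_nonneg _
  have hL12 : 12 ≤ L := by linarith
  have hL1 : 1 ≤ L := by linarith
  have hL0 : 0 < L := by linarith
  set z := ⌊L ^ E⌋₊ with hz
  have hLE : L ≤ L ^ E := by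
    calc L = L ^ 1 := (pow_one L).symm
      _ ≤ L ^ E := pow_le_pow_right₀ hL1 hE1''
  have hz3 : 3 ≤ z := Nat.le_floor (by push_cast; linarith)
  have hzr : (z : ℝ) ≤ L ^ E := Nat.floor_le (by positivity)
  have hz0 : (0 : ℝ) < z := by
    have : 0 < z := by omega
    exact_mod_cast this
  have hlz : Real.log z ≤ E * Real.log L := by
    have := Real.log_le_log hz0 hzr
    rwa [Real.log_pow] at this
  have hlz0 : 0 < Real.log z := Real.log_pos (by
    have : (3 : ℝ) ≤ z := by exact_mod_cast hz3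
    linarith)
  have hVpos : 0 < (Vz z)⁻¹ := inv_pos.2 (Pool.Agent.H373R2.T7.Vz_pos z)
  have hVL : ((Vz z)⁻¹) ^ m ≤ L := by
    calc ((Vz z)⁻¹) ^ m ≤ (CV * E * Real.log L) ^ m := by
          apply pow_le_pow_left₀ hVpos.le
          refine (hCV z (by omega)).trans ?_
          rw [mul_assoc]
          exact mul_le_mul_of_nonneg_left hlz (by linarith)
      _ ≤ L := by rw [one_mul] at a1; exact a1
  -- the grid
  set J := ⌈L ^ U1⌉₊ with hJ
  have hJ1 : 1 ≤ J := Nat.one_le_ceil_iff.2 (by positivity)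
  have hJr : L ^ U1 ≤ J := Nat.le_ceil _
  have hJr2 : (J : ℝ) ≤ L ^ U1 + 1 := (Nat.ceil_lt_add_one (by positivity)).le
  set S := Nat.log 2 H + 1 with hS
  have hSr : (S : ℝ) ≤ 3 * L := by
    have h1 : (2 : ℝ) ^ Nat.log 2 H ≤ H := by exact_mod_cast Nat.pow_log_le_self 2 (by omega)
    have h2 : (Nat.log 2 H : ℝ) * Real.log 2 ≤ L := by
      rw [← Real.log_pow]
      exact Real.log_le_log (by positivity) h1
    have h3 : (1 : ℝ) / 2 ≤ Real.log 2 := by have := Real.log_two_gt_d9; linarith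
    have h4 : (Nat.log 2 H : ℝ) * (1 / 2) ≤ L := by
      refine le_trans ?_ h2
      gcongr
    rw [hS]
    push_cast
    linarith
  set G : Finset (ℕ × ℕ) := (Icc J (2 * J) ×ˢ range S).filter
    (fun q => L ^ B0 ≤ ((q.1 * 2 ^ q.2 : ℕ) : ℝ) ∧ ((q.1 * 2 ^ q.2 : ℕ) : ℝ) * L ^ B0 ≤ H) with hG
  have hGc : (G.card : ℝ) ≤ 6 * L ^ (U1 + 1) := by
    have h1 : G.card ≤ (J + 1) * S := by
      refine (card_filter_le _ _).trans (le_of_eq ?_)
      rw [card_product, Nat.card_Icc, card_range]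
      congr 1
      omega
    have h2 : (G.card : ℝ) ≤ ((J : ℝ) + 1) * S := by exact_mod_cast h1
    have h3 : 2 ≤ L ^ U1 := by
      calc (2 : ℝ) ≤ L ^ 1 := by rw [pow_one]; linarith
        _ ≤ L ^ U1 := pow_le_pow_right₀ hL1 (by omega)
    calc (G.card : ℝ) ≤ ((J : ℝ) + 1) * S := h2
      _ ≤ (2 * L ^ U1) * (3 * L) := by
          apply mul_le_mul _ hSr (by positivity) (by positivity)
          linarith
      _ = 6 * L ^ (U1 + 1) := by ring
  -- exceptional sets
  set F : (ℕ × ℕ) → (∀ i : Fin m, Fin (dd i + 1) → ℤ) → ℝ :=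
    fun q a => Pf a (q.1 * 2 ^ q.2) - Cz z a * Lf a (q.1 * 2 ^ q.2) with hF
  set Bq : (ℕ × ℕ) → Finset (∀ i : Fin m, Fin (dd i + 1) → ℤ) :=
    fun q => (bx dd H).filter (fun a => ((q.1 * 2 ^ q.2 : ℕ) : ℝ) / L ^ U2 < |F q a|) with hBq
  have hGpos : ∀ q ∈ G, (0 : ℝ) < ((q.1 * 2 ^ q.2 : ℕ) : ℝ) := by
    intro q hq
    rw [hG, mem_filter, mem_product, mem_Icc] at hq
    have : 0 < q.1 * 2 ^ q.2 := Nat.mul_pos (by omega) (by positivity)
    exact_mod_cast this
  have hBqc : ∀ q ∈ G, ((Bq q).card : ℝ) ≤ ((bx dd H).card : ℝ) / L ^ (U + U1 + 2) := by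
    intro q hq
    have hp := hGpos q hq
    have hq' := hq
    rw [hG, mem_filter] at hq'
    have h1 := aS (q.1 * 2 ^ q.2) hq'.2.1 hq'.2.2
    have h2 := cheb (bx dd H) (F q) (((q.1 * 2 ^ q.2 : ℕ) : ℝ) / L ^ U2) _ (by positivity) h1
    refine h2.trans (le_of_eq ?_)
    have e1 : L ^ U' = L ^ (U + U1 + 2) * (L ^ U2) ^ 2 := by
      rw [← pow_mul, ← pow_add]
      congr 1
      omega
    rw [e1]
    field_simp
  set Z : Fin m → Finset (∀ i : Fin m, Fin (dd i + 1) → ℤ) :=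
    fun i => (bx dd H).filter (fun a => a i (Fin.last (dd i)) = 0) with hZ
  have hZc : ∀ i, ((Z i).card : ℝ) ≤ ((bx dd H).card : ℝ) / (2 * H + 1) := by
    intro i
    rw [le_div_iff₀ (by positivity)]
    have := lead_count dd H i
    have h2 : ((2 * H + 1 : ℕ) : ℝ) * ((Z i).card : ℝ) ≤ ((bx dd H).card : ℝ) := by exact_mod_cast this
    push_cast at h2
    linarith
  refine ⟨G.biUnion Bq ∪ univ.biUnion Z, ?_, ?_, ?_⟩
  · apply union_subset
    · exact biUnion_subset.2 fun q _ => filter_subset _ _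
    · exact biUnion_subset.2 fun i _ => filter_subset _ _
  · set X : ℝ := ((bx dd H).card : ℝ) with hX
    have hX0 : 0 ≤ X := Nat.cast_nonneg _
    have h1 : ((G.biUnion Bq).card : ℝ) ≤ 6 * L ^ (U1 + 1) * (X / L ^ (U + U1 + 2)) := by
      have h2 : ((G.biUnion Bq).card : ℝ) ≤ ∑ q ∈ G, ((Bq q).card : ℝ) := by exact_mod_cast card_biUnion_le
      refine h2.trans ((sum_le_sum hBqc).trans ?_)
      rw [sum_const, nsmul_eq_mul]
      exact mul_le_mul_of_nonneg_right hGc (by positivity)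
    have h3 : (((univ : Finset (Fin m)).biUnion Z).card : ℝ) ≤ m * (X / (2 * H + 1)) := by
      have h2 : (((univ : Finset (Fin m)).biUnion Z).card : ℝ) ≤ ∑ i, ((Z i).card : ℝ) := by
        exact_mod_cast card_biUnion_le
      refine h2.trans ((sum_le_sum fun i _ => hZc i).trans ?_)
      rw [sum_const, card_univ, Fintype.card_fin, nsmul_eq_mul]
    have h4 : ((G.biUnion Bq ∪ univ.biUnion Z).card : ℝ) ≤
        ((G.biUnion Bq).card : ℝ) + (((univ : Finset (Fin m)).biUnion Z).card : ℝ) := by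
      exact_mod_cast card_union_le _ _
    have h5 : 6 * L ^ (U1 + 1) * (X / L ^ (U + U1 + 2)) ≤ X / L ^ U / 2 := by
      rw [div_div, le_div_iff₀ (by positivity)]
      calc 6 * L ^ (U1 + 1) * (X / L ^ (U + U1 + 2)) * (L ^ U * 2) = 12 * X / L := by
            field_simp
            ring
        _ ≤ L * X / L := by gcongr
        _ = X := by field_simp
    have h6 : m * (X / (2 * H + 1)) ≤ X / L ^ U / 2 := by
      rw [div_div, le_div_iff₀ (by positivity)]
      have h7 : 2 * m * L ^ U ≤ 2 * H + 1 := by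
        have h8 : √(H : ℝ) ≤ H := by
          rw [Real.sqrt_le_left (by linarith)]
          nlinarith
        linarith
      calc m * (X / (2 * H + 1)) * (L ^ U * 2) = (2 * m * L ^ U) * (X / (2 * H + 1)) := by ring
        _ ≤ (2 * H + 1) * (X / (2 * H + 1)) := by gcongr
        _ = X := by field_simp
    linarith
  · intro a ha hbad
    rw [mem_union, not_or] at hbad
    obtain ⟨hb1, hb2⟩ := hbad
    have hlead : ∀ i, a i (Fin.last (dd i)) ≠ 0 := by
      intro i h
      apply hb2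
      rw [mem_biUnion]
      exact ⟨i, mem_univ _, mem_filter.2 ⟨ha, h⟩⟩
    refine ⟨hlead, fun hom => ?_⟩
    obtain ⟨hC0, hC1, hC2⟩ := hLC' z a hz3
    have hC3 := hC2 hom
    have hCpos : 0 < Cz z a := lt_of_lt_of_le (by positivity) hC3
    refine ⟨hCpos, fun K hK1 hK2 => ?_⟩
    obtain ⟨hW1, -⟩ := hCT a
    -- bounds for the main term
    have hCL : Cz z a ≤ L := hC1.trans hVL
    have hCge : 1 / L ≤ Cz z a := by
      refine le_trans ?_ hC3
      rw [div_le_div_iff₀ hL0 (by positivity), one_mul]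
      refine le_trans ?_ a2
      apply pow_le_pow_left₀ hlz0.le
      exact hlz
    have hK0' : (0 : ℝ) < K := lt_of_lt_of_le (by positivity) hK1
    have hKH : K ≤ H := by
      have h1 : (K : ℝ) ≤ H := by
        refine le_trans ?_ hK2
        have := one_le_pow₀ (n := B0 + U1 + 2) hL1
        nlinarith
      exact_mod_cast h1
    have hKL : L ≤ K := by
      refine le_trans ?_ hK1
      calc L = L ^ 1 := (pow_one L).symm
        _ ≤ L ^ (B0 + U1 + 2) := pow_le_pow_right₀ hL1 (by omega)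
    have hKK0 : K0 ≤ K := by
      have : (K0 : ℝ) ≤ K := by linarith
      exact_mod_cast this
    have hLf : K / L ^ (m + 1) ≤ Lf a K := by
      refine le_trans ?_ (hLL' H K hKK0 hKH a ha hlead)
      rw [div_le_div_iff₀ (by positivity) (by positivity)]
      have h1 : 2 * (∏ i, ((dd i : ℝ) + 2)) ≤ L := by linarith
      calc (K : ℝ) * (2 * (∏ i, ((dd i : ℝ) + 2)) * L ^ m) ≤ K * (L * L ^ m) := by gcongr
        _ = K * L ^ (m + 1) := by ring
    have hmain : K / L ^ (U + m + 2) ≤ Cz z a * Lf a K / L ^ U := by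
      rw [le_div_iff₀ (by positivity)]
      calc K / L ^ (U + m + 2) * L ^ U = (1 / L) * (K / L ^ (m + 1)) := by
            field_simp
            ring
        _ ≤ Cz z a * Lf a K := by
            apply mul_le_mul hCge hLf (by positivity) hCpos.le
    refine le_trans ?_ hmain
    -- the grid points
    have hJK : J ≤ K := by
      have h1 : (J : ℝ) ≤ K := by
        refine hJr2.trans (le_trans ?_ hK1)
        calc L ^ U1 + 1 ≤ L ^ U1 + L ^ U1 := by
              have := one_le_pow₀ (n := U1) hL1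
              linarith
          _ = 2 * L ^ U1 := by ring
          _ ≤ L * L ^ U1 := by gcongr; linarith
          _ = L ^ (U1 + 1) := by ring
          _ ≤ L ^ (B0 + U1 + 2) := pow_le_pow_right₀ hL1 (by omega)
      exact_mod_cast h1
    obtain ⟨j, s, hj1, hj2, hs1, hk1, hk2, hk3⟩ := grid J K H hJ1 hJK hKH
    have hjpos : 1 ≤ j := hJ1.trans hj1
    have hnext : (j + 1) * 2 ^ s ≤ 2 * (j * 2 ^ s) := by nlinarith [Nat.pos_of_ne_zero (pow_ne_zero s (two_ne_zero (α := ℕ)))]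
    have hB2 : 2 * L ^ B0 ≤ L ^ (B0 + U1 + 2) := by
      calc 2 * L ^ B0 ≤ L * L ^ B0 := by gcongr; linarith
        _ = L ^ (B0 + 1) := by ring
        _ ≤ L ^ (B0 + U1 + 2) := pow_le_pow_right₀ hL1 (by omega)
    have hk1r : ((j * 2 ^ s : ℕ) : ℝ) ≤ K := by exact_mod_cast hk1
    have hk2r : (K : ℝ) ≤ (((j + 1) * 2 ^ s : ℕ) : ℝ) := by exact_mod_cast hk2
    have hnr : (((j + 1) * 2 ^ s : ℕ) : ℝ) ≤ 2 * ((j * 2 ^ s : ℕ) : ℝ) := by exact_mod_cast hnext
    have hlow : L ^ B0 ≤ ((j * 2 ^ s : ℕ) : ℝ) := by linarith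
    have hup : (((j + 1) * 2 ^ s : ℕ) : ℝ) * L ^ B0 ≤ H := by
      calc (((j + 1) * 2 ^ s : ℕ) : ℝ) * L ^ B0 ≤ (2 * K) * L ^ B0 := by
            gcongr
            linarith
        _ = K * (2 * L ^ B0) := by ring
        _ ≤ K * L ^ (B0 + U1 + 2) := by gcongr
        _ ≤ H := hK2
    have hq1 : (j, s) ∈ G := by
      rw [hG, mem_filter, mem_product, mem_Icc, mem_range]
      refine ⟨⟨⟨hj1, by omega⟩, hs1⟩, hlow, ?_⟩
      refine le_trans ?_ hup
      gcongr
      exact Nat.le_succ j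
    have hq2 : (j + 1, s) ∈ G := by
      rw [hG, mem_filter, mem_product, mem_Icc, mem_range]
      exact ⟨⟨⟨by omega, hj2⟩, hs1⟩, hlow.trans (hk1r.trans hk2r), hup⟩
    have hgood : ∀ q ∈ G, |F q a| ≤ ((q.1 * 2 ^ q.2 : ℕ) : ℝ) / L ^ U2 := by
      intro q hq
      by_contra hcon
      apply hb1
      rw [mem_biUnion]
      exact ⟨q, hq, mem_filter.2 ⟨ha, not_le.1 hcon⟩⟩
    have g1 := hgood _ hq1
    have g2 := hgood _ hq2
    rw [hF] at g1 g2
    dsimp only at g1 g2
    have p1 : Pf a (j * 2 ^ s) ≤ Pf a K := Pf_mono a hk1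
    have p2 : Pf a K ≤ Pf a ((j + 1) * 2 ^ s) := Pf_mono a hk2
    have l1 : Lf a K - Lf a (j * 2 ^ s) ≤ CT * (K - ((j * 2 ^ s : ℕ) : ℝ)) :=
      Lf_diff a CT (fun n => (hW1 n).2) hk1
    have l2 : Lf a ((j + 1) * 2 ^ s) - Lf a K ≤ CT * ((((j + 1) * 2 ^ s : ℕ) : ℝ) - K) :=
      Lf_diff a CT (fun n => (hW1 n).2) hk2
    have hstep : (((j + 1) * 2 ^ s : ℕ) : ℝ) - ((j * 2 ^ s : ℕ) : ℝ) = 2 ^ s := by
      push_cast
      ring
    have hsJ : (2 : ℝ) ^ s ≤ K / L ^ U1 := by
      rw [le_div_iff₀ (by positivity)]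
      have h1 : (J : ℝ) * 2 ^ s ≤ K := by exact_mod_cast hk3
      calc (2 : ℝ) ^ s * L ^ U1 ≤ 2 ^ s * J := by gcongr
        _ = J * 2 ^ s := mul_comm _ _
        _ ≤ K := h1
    have hd1 : Lf a K - Lf a (j * 2 ^ s) ≤ CT * (K / L ^ U1) := by
      refine l1.trans ?_
      apply mul_le_mul_of_nonneg_left _ (by linarith)
      linarith
    have hd2 : Lf a ((j + 1) * 2 ^ s) - Lf a K ≤ CT * (K / L ^ U1) := by
      refine l2.trans ?_
      apply mul_le_mul_of_nonneg_left _ (by linarith)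
      linarith
    have hcd : Cz z a * (CT * (K / L ^ U1)) ≤ K / L ^ (U + m + 2) / 2 := by
      calc Cz z a * (CT * (K / L ^ U1)) ≤ L * ((L / 2) * (K / L ^ U1)) := by
            have : CT ≤ L / 2 := by linarith
            gcongr
        _ = K / L ^ (U + m + 2) / 2 := by
            rw [hU1, show U + m + 4 = (U + m + 2) + 2 by ring]
            field_simp
            ring
    have hkd : 2 * K / L ^ U2 ≤ K / L ^ (U + m + 2) / 2 := by
      rw [hU2, show U + m + 3 = (U + m + 2) + 1 by ring, div_div, div_le_div_iff₀ (by positivity) (by positivity)]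
      have : 4 ≤ L := by linarith
      calc 2 * (K : ℝ) * (L ^ (U + m + 2) * 2) = K * (L ^ (U + m + 2) * 4) := by ring
        _ ≤ K * (L ^ (U + m + 2) * L) := by gcongr
        _ = K * L ^ (U + m + 2 + 1) := by ring
    have hq1K : ((j * 2 ^ s : ℕ) : ℝ) / L ^ U2 ≤ 2 * K / L ^ U2 := by
      gcongr
      linarith
    have hq2K : (((j + 1) * 2 ^ s : ℕ) : ℝ) / L ^ U2 ≤ 2 * K / L ^ U2 := by
      gcongr
      linarith
    have hm1 : Cz z a * (Lf a K - Lf a (j * 2 ^ s)) ≤ Cz z a * (CT * (K / L ^ U1)) :=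
      mul_le_mul_of_nonneg_left hd1 hCpos.le
    have hm2 : Cz z a * (Lf a ((j + 1) * 2 ^ s) - Lf a K) ≤ Cz z a * (CT * (K / L ^ U1)) :=
      mul_le_mul_of_nonneg_left hd2 hCpos.le
    rw [abs_le] at g1 g2 ⊢
    constructor <;> linarith [g1.1, g1.2, g2.1, g2.2]

end Pool.Agent.H13K.ALL
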