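import Pool.Agent.H13K.LOWL

/-! Final assembly of project BH: windows and cut of the constant (helper13). -/

set_option autoImplicit false

namespace Pool.Agent.H13K.Fin

open Finset
open Pool.Agent.H373R2.T7 (lamz pz Vz mem_pz)

/-- the number of prime points in a window -/
noncomputable def PW {m : ℕ} {dd : Fin m → ℕ} (a : ∀ i : Fin m, Fin (dd i + 1) → ℤ) (u v : ℕ) : ℝ :=
  ∑ n ∈ Ioc u v, ∏ i, pr (Fv (a i) (n : ℤ)).natAbs

noncomputable def LW {m : ℕ} {dd : Fin m → ℕ} (a : ∀ i : Fin m, Fin (dd i + 1) → ℤ) (u v : ℕ) : ℝ :=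
  ∑ n ∈ Ioc u v, Wf a (n : ℤ)

lemma Icc_eq (K : ℕ) : Icc 1 K = Ioc 0 K := by
  ext n
  rw [mem_Icc, mem_Ioc]
  omega

lemma sum_win (g : ℕ → ℝ) (u v : ℕ) (h : u ≤ v) : ∑ n ∈ Ioc u v, g n = ∑ n ∈ Icc 1 v, g n - ∑ n ∈ Icc 1 u, g n := by
  rw [Icc_eq, Icc_eq, ← sum_Ioc_consecutive g (Nat.zero_le u) h]
  ring

lemma pr_nonneg (n : ℕ) : 0 ≤ pr n := by
  unfold pr
  split_ifs
  · exact zero_le_one
  · exact le_rfl

lemma Pf_mono {m : ℕ} {dd : Fin m → ℕ} (a : ∀ i : Fin m, Fin (dd i + 1) → ℤ) {u v : ℕ} (h : u ≤ v) : Pf a u ≤ Pf a v := by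
  unfold Pf
  refine sum_le_sum_of_subset_of_nonneg (Icc_subset_Icc_right h) fun _ _ _ => prod_nonneg fun _ _ => pr_nonneg _

lemma Lf_mono {m : ℕ} {dd : Fin m → ℕ} (a : ∀ i : Fin m, Fin (dd i + 1) → ℤ) {u v : ℕ} (h : u ≤ v) : Lf a u ≤ Lf a v := by
  unfold Lf
  refine sum_le_sum_of_subset_of_nonneg (Icc_subset_Icc_right h) fun _ _ _ => LOWL.Wf_nonneg _ _

lemma Pf_nonneg {m : ℕ} {dd : Fin m → ℕ} (a : ∀ i : Fin m, Fin (dd i + 1) → ℤ) (u : ℕ) : 0 ≤ Pf a u :=
  sum_nonneg fun _ _ => prod_nonneg fun _ _ => pr_nonneg _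

lemma Lf_nonneg {m : ℕ} {dd : Fin m → ℕ} (a : ∀ i : Fin m, Fin (dd i + 1) → ℤ) (u : ℕ) : 0 ≤ Lf a u :=
  sum_nonneg fun _ _ => LOWL.Wf_nonneg _ _

lemma Lf_le {m : ℕ} {dd : Fin m → ℕ} (a : ∀ i : Fin m, Fin (dd i + 1) → ℤ) (u : ℕ) (C : ℝ) (hC : ∀ n : ℤ, Wf a n ≤ C) :
    Lf a u ≤ C * u := by
  unfold Lf
  calc ∑ n ∈ Icc 1 u, Wf a (n : ℤ) ≤ ∑ n ∈ Icc 1 u, C := sum_le_sum fun n _ => hC _
    _ = C * u := by rw [sum_const, Nat.card_Icc, nsmul_eq_mul]; simp [mul_comm]

theorem core (hALL : S_ALL) (hPY : S_PY) (hTV : S_TV) (hLC : S_LOWC) (m : ℕ) (dd : Fin m → ℕ) (hdd : ∀ i, 1 ≤ dd i) (A : ℕ) :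
    ∃ B H0 : ℕ, ∀ H : ℕ, H0 ≤ H → ∃ Bad ⊆ bx dd H, (Bad.card : ℝ) ≤ ((bx dd H).card : ℝ) / Real.log H ^ A ∧
    ∀ a ∈ bx dd H, a ∉ Bad → (∀ i, a i (Fin.last (dd i)) ≠ 0) ∧
      ((∀ p : ℕ, p.Prime → om p a ≠ p) → ∀ z : ℕ, Real.log H ^ B ≤ z → z ^ 4 ≤ H → 0 < Cz z a ∧
        ∀ u v : ℕ, Real.log H ^ B ≤ v → (v : ℝ) * Real.log H ^ B ≤ H → (v : ℝ) ≤ ((v : ℝ) - u) * Real.log H ^ A →
          Real.log H ≤ Cz z a * LW a u v ∧
          ((v : ℝ) - u) / (2 * (∏ i, ((dd i : ℝ) + 2)) * Real.log H ^ m) ≤ LW a u v ∧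
          |PW a u v - Cz z a * LW a u v| ≤ Cz z a * LW a u v / Real.log H ^ A) := by
  obtain ⟨Ct, hCt1, hCt⟩ := hTV m dd
  obtain ⟨C1, z1, hC1, hpy⟩ := hPY m dd hdd
  obtain ⟨cl, Dl, hcl, hlc⟩ := hLC m dd
  set U := 2 * A + m + 5 with hU
  obtain ⟨E1, hE1⟩ := hALL m dd U hdd
  set E := max E1 (20 * (U + 1)) with hE
  obtain ⟨B1, H1, hall⟩ := hE1 E (le_max_left _ _)
  set S := ∑ i, dd i with hS
  set Pm : ℝ := ∏ i, ((dd i : ℝ) + 2) with hPm
  have hPm1 : 1 ≤ Pm := by
    rw [hPm]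
    calc (1 : ℝ) = ∏ _i : Fin m, (1 : ℝ) := by simp
      _ ≤ ∏ i, ((dd i : ℝ) + 2) := prod_le_prod (fun _ _ => zero_le_one) (fun i _ => by
          have : (0 : ℝ) ≤ dd i := Nat.cast_nonneg _
          linarith)
  set B := B1 + E + U + A + m + Dl + 10 with hB
  set X0 : ℝ := 100 * C1 * Ct * Pm * ((S : ℝ) + m + 1) + z1 + 1 / cl + 10 with hX0
  have hX0p : 0 ≤ 100 * C1 * Ct * Pm * ((S : ℝ) + m + 1) := by positivity
  obtain ⟨H3, hH3⟩ : ∃ H3 : ℕ, ∀ H : ℕ, H3 ≤ H → X0 ≤ Real.log H := by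
    have := (Real.tendsto_log_atTop.comp tendsto_natCast_atTop_atTop).eventually_ge_atTop X0
    exact Filter.eventually_atTop.1 this
  refine ⟨B, max (max H1 H3) (S + m + 4), fun H hH => ?_⟩
  have hHS : S + m + 4 ≤ H := (le_max_right _ _).trans hH
  have hLX : X0 ≤ Real.log H := hH3 H (((le_max_right _ _).trans (le_max_left _ _)).trans hH)
  obtain ⟨BadA, hA1, hA2, hA3⟩ := hall H (((le_max_left _ _).trans (le_max_left _ _)).trans hH)
  set L := Real.log H with hL
  set z0 := ⌊L ^ E⌋₊ with hz0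
  have hz1n : (0 : ℝ) ≤ z1 := Nat.cast_nonneg _
  have hcl0 : 0 < 1 / cl := by positivity
  have hL10 : 10 ≤ L := by linarith
  have hLcl : 1 / cl ≤ L := by linarith
  have hL1 : 1 ≤ L := by linarith
  have hL0 : 0 < L := by linarith
  have hLC : 100 * C1 ≤ L := by
    have h1 : 100 * C1 ≤ 100 * C1 * Ct * Pm * ((S : ℝ) + m + 1) := by
      have h2 : 1 ≤ Ct * Pm * ((S : ℝ) + m + 1) := by
        have h3 : 1 ≤ ((S : ℝ) + m + 1) := by
          have : (0 : ℝ) ≤ S := Nat.cast_nonneg _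
          have : (0 : ℝ) ≤ m := Nat.cast_nonneg _
          linarith
        exact one_le_mul_of_one_le_of_one_le (one_le_mul_of_one_le_of_one_le hCt1 hPm1) h3
      nlinarith
    linarith
  have hLCP : 100 * (Ct * Pm) ≤ L := by
    have h1 : 100 * (Ct * Pm) ≤ 100 * C1 * Ct * Pm * ((S : ℝ) + m + 1) := by
      have h2 : 1 ≤ C1 * ((S : ℝ) + m + 1) := by
        have h3 : 1 ≤ ((S : ℝ) + m + 1) := by
          have : (0 : ℝ) ≤ S := Nat.cast_nonneg _
          have : (0 : ℝ) ≤ m := Nat.cast_nonneg _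
          linarith
        exact one_le_mul_of_one_le_of_one_le hC1 h3
      have h4 : 0 ≤ Ct * Pm := by positivity
      nlinarith
    linarith
  have hLS : 6 * (S : ℝ) ≤ L := by
    have h1 : 6 * (S : ℝ) ≤ 100 * C1 * Ct * Pm * ((S : ℝ) + m + 1) := by
      have h2 : 1 ≤ C1 * Ct * Pm := one_le_mul_of_one_le_of_one_le (one_le_mul_of_one_le_of_one_le hC1 hCt1) hPm1
      have h3 : (0 : ℝ) ≤ S := Nat.cast_nonneg _
      have h4 : (0 : ℝ) ≤ m := Nat.cast_nonneg _
      nlinarith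
    linarith
  -- size of z0
  have hLE : L ≤ L ^ E := by
    have : 1 ≤ E := by
      rw [hE]
      exact le_trans (by omega) (le_max_right _ _)
    exact le_self_pow₀ hL1 (by omega)
  have hz0le : (z0 : ℝ) ≤ L ^ E := Nat.floor_le (by positivity)
  have hz0ge : L ^ E / 2 ≤ z0 := by
    have := Nat.lt_floor_add_one (L ^ E)
    rw [← hz0] at this
    linarith
  have hz0z1 : z1 ≤ z0 := by
    rw [hz0]
    refine Nat.le_floor ?_
    linarith
  have hz0pos : (0 : ℝ) < z0 := by
    have : 0 < L ^ E := by positivity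
    linarith
  have hz0one : (1 : ℝ) ≤ z0 := by
    exact_mod_cast (Nat.cast_pos.1 hz0pos)
  have hz20 : (z0 : ℝ) ^ (-(1 / 20) : ℝ) ≤ 2 / L ^ (U + 1) := by
    have h1 : (z0 : ℝ) ^ (-(1 / 20) : ℝ) ≤ (L ^ E / 2) ^ (-(1 / 20) : ℝ) :=
      Real.rpow_le_rpow_of_nonpos (by positivity) hz0ge (by norm_num)
    refine h1.trans ?_
    rw [Real.rpow_neg (by positivity), Real.div_rpow (by positivity) (by norm_num), inv_div]
    have h2 : (2 : ℝ) ^ (1 / 20 : ℝ) ≤ 2 := by
      calc (2 : ℝ) ^ (1 / 20 : ℝ) ≤ (2 : ℝ) ^ (1 : ℝ) := Real.rpow_le_rpow_of_exponent_le (by norm_num) (by norm_num)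
        _ = 2 := Real.rpow_one _
    have h3 : L ^ (U + 1) ≤ (L ^ E) ^ (1 / 20 : ℝ) := by
      rw [← Real.rpow_natCast, ← Real.rpow_natCast, ← Real.rpow_mul hL0.le]
      refine Real.rpow_le_rpow_of_exponent_le hL1 ?_
      have : 20 * (U + 1) ≤ E := le_max_right _ _
      have h4 : (20 : ℝ) * ((U : ℝ) + 1) ≤ E := by exact_mod_cast this
      push_cast
      linarith
    exact div_le_div₀ (by norm_num) h2 (by positivity) h3
  have hz4 : (z0 : ℝ) ^ (-(1 / 4) : ℝ) ≤ 2 / L ^ (U + 1) :=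
    (Real.rpow_le_rpow_of_exponent_le hz0one (by norm_num)).trans hz20
  have hH1 : 1 ≤ H := by omega
  obtain ⟨BadP, hP1, hP2, hP3⟩ := hpy H z0 hz0z1 hH1
  refine ⟨BadA ∪ BadP, union_subset hA1 hP1, ?_, ?_⟩
  · have h1 : ((BadA ∪ BadP).card : ℝ) ≤ BadA.card + BadP.card := by exact_mod_cast card_union_le _ _
    have h2 : (BadP.card : ℝ) ≤ ((bx dd H).card : ℝ) / L ^ U := by
      refine hP2.trans ?_
      calc C1 * ((bx dd H).card : ℝ) * (z0 : ℝ) ^ (-(1 / 4) : ℝ)
          ≤ C1 * ((bx dd H).card : ℝ) * (2 / L ^ (U + 1)) := mul_le_mul_of_nonneg_left hz4 (by positivity)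
        _ = ((bx dd H).card : ℝ) / L ^ U * (2 * C1 / L) := by
            rw [pow_succ]
            field_simp
        _ ≤ ((bx dd H).card : ℝ) / L ^ U * 1 := by
            refine mul_le_mul_of_nonneg_left ?_ (by positivity)
            rw [div_le_one hL0]
            linarith
        _ = ((bx dd H).card : ℝ) / L ^ U := mul_one _
    calc ((BadA ∪ BadP).card : ℝ) ≤ ((bx dd H).card : ℝ) / L ^ U + ((bx dd H).card : ℝ) / L ^ U := by linarith
      _ = ((bx dd H).card : ℝ) / L ^ A * (2 / L ^ (A + m + 5)) := by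
          rw [hU, show 2 * A + m + 5 = A + (A + m + 5) by ring, pow_add L A]
          field_simp
          ring
      _ ≤ ((bx dd H).card : ℝ) / L ^ A * 1 := by
          refine mul_le_mul_of_nonneg_left ?_ (by positivity)
          rw [div_le_one (by positivity)]
          calc (2 : ℝ) ≤ L := by linarith
            _ ≤ L ^ (A + m + 5) := le_self_pow₀ hL1 (by omega)
      _ = ((bx dd H).card : ℝ) / L ^ A := mul_one _
  · intro a ha hab
    rw [mem_union, not_or] at hab
    obtain ⟨hlead, hrest⟩ := hA3 a ha hab.1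
    refine ⟨hlead, fun hadm z hz hz4' => ?_⟩
    obtain ⟨hc0, hK⟩ := hrest (fun p hp => hadm p (mem_pz.1 hp).2)
    set c0 := Cz z0 a with hc0d
    have hz0z : z0 ≤ z := by
      have h1 : L ^ E ≤ L ^ B := pow_le_pow_right₀ hL1 (by omega)
      have h2 : (z0 : ℝ) ≤ z := hz0le.trans (h1.trans hz)
      exact_mod_cast h2
    have hcc : |Cz z a - c0| ≤ c0 / L ^ U := by
      refine (hP3 a ha hab.2 z hz0z hz4').trans ?_
      calc C1 * (z0 : ℝ) ^ (-(1 / 20) : ℝ) * c0 ≤ C1 * (2 / L ^ (U + 1)) * c0 :=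
            mul_le_mul_of_nonneg_right (mul_le_mul_of_nonneg_left hz20 (by positivity)) hc0.le
        _ = c0 / L ^ U * (2 * C1 / L) := by
            rw [pow_succ]
            field_simp
        _ ≤ c0 / L ^ U * 1 := by
            refine mul_le_mul_of_nonneg_left ?_ (by positivity)
            rw [div_le_one hL0]
            linarith
        _ = c0 / L ^ U := mul_one _
    have hLU : 10 ≤ L ^ U := hL10.trans (le_self_pow₀ hL1 (by omega))
    have hcc2 : c0 / L ^ U ≤ c0 / 10 := div_le_div_of_nonneg_left hc0.le (by norm_num) hLU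
    have hc2 : c0 / 2 ≤ Cz z a := by
      have := (abs_le.1 hcc).1
      linarith
    have hcpos : 0 < Cz z a := by linarith
    refine ⟨hcpos, fun u v hv1 hv2 huv => ?_⟩
    set c := Cz z a with hcd
    have hW0 : ∀ n : ℤ, 0 ≤ Wf a n := fun n => ((hCt a).1 n).1
    have hW1 : ∀ n : ℤ, Wf a n ≤ Ct := fun n => ((hCt a).1 n).2
    have hvpos : (0 : ℝ) < v := lt_of_lt_of_le (by positivity) hv1
    have hLA : 0 < L ^ A := by positivity
    have hw0 : 0 < (v : ℝ) - u := by
      by_contra hcon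
      push Not at hcon
      have : ((v : ℝ) - u) * L ^ A ≤ 0 := mul_nonpos_of_nonpos_of_nonneg hcon hLA.le
      linarith
    have huv' : u ≤ v := by
      have : (u : ℝ) ≤ v := by linarith
      exact_mod_cast this
    set w := (v : ℝ) - u with hw
    have hwB : L ^ (B - A) ≤ w := by
      have h1 : L ^ (B - A) * L ^ A ≤ w * L ^ A := by
        rw [← pow_add, show B - A + A = B by omega]
        exact hv1.trans huv
      exact le_of_mul_le_mul_right h1 hLA
    have hBA' : L ^ (m + Dl + 10) ≤ L ^ (B - A) := pow_le_pow_right₀ hL1 (by omega)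
    have hBA : L ^ (m + 10) ≤ L ^ (B - A) := pow_le_pow_right₀ hL1 (by omega)
    have hvH : v ≤ H := by
      have h1 : (v : ℝ) ≤ v * L ^ B := le_mul_of_one_le_right hvpos.le (one_le_pow₀ hL1)
      have h2 : (v : ℝ) ≤ H := h1.trans hv2
      exact_mod_cast h2
    have h6S : u + 6 * ∑ i, dd i ≤ v := by
      have h1 : (6 : ℝ) * S ≤ w := by
        calc 6 * (S : ℝ) ≤ L := hLS
          _ ≤ L ^ (m + 10) := le_self_pow₀ hL1 (by omega)
          _ ≤ w := hBA.trans hwB
      have h2 : (u : ℝ) + 6 * (S : ℝ) ≤ v := by linarith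
      rw [← hS]
      exact_mod_cast h2
    have hddH : ∀ i, dd i + 1 ≤ H := by
      intro i
      have h1 : dd i ≤ S := single_le_sum (f := dd) (fun _ _ => Nat.zero_le _) (mem_univ i)
      omega
    have hlow := LOWL.win dd hdd H u v hddH (by omega) h6S hvH a ha hlead
    have hLW : w / (2 * Pm * L ^ m) ≤ LW a u v := hlow
    have hden : 0 < 2 * Pm * L ^ m := by positivity
    have hone : 1 ≤ w / (2 * Pm * L ^ m) := by
      rw [le_div_iff₀ hden, one_mul]
      calc 2 * Pm * L ^ m ≤ L * L ^ m := by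
            refine mul_le_mul_of_nonneg_right ?_ (by positivity)
            have : Pm ≤ Ct * Pm := le_mul_of_one_le_left (by linarith) hCt1
            linarith
        _ = L ^ (m + 1) := by ring
        _ ≤ L ^ (m + 10) := pow_le_pow_right₀ hL1 (by omega)
        _ ≤ w := hBA.trans hwB
    have hLWpos : 0 < LW a u v := by linarith
    have hbig : L ≤ c * LW a u v := by
      have hz3 : 3 ≤ z := by
        have h1 : (3 : ℝ) ≤ z := by
          calc (3 : ℝ) ≤ L := by linarith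
            _ ≤ L ^ B := le_self_pow₀ hL1 (by omega)
            _ ≤ z := hz
        exact_mod_cast h1
      have hzr : (3 : ℝ) ≤ z := by exact_mod_cast hz3
      have h1 := (hlc z a hz3).2.2 (fun p hp => hadm p (mem_pz.1 hp).2)
      rw [← hcd] at h1
      have hzH : (z : ℝ) ≤ H := by
        have h3 : z ≤ z ^ 4 := Nat.le_self_pow (by norm_num) z
        exact_mod_cast h3.trans hz4'
      have hlogz : Real.log z ≤ L := Real.log_le_log (by linarith) hzH
      have hlogz0 : 0 < Real.log z := Real.log_pos (by linarith)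
      have h4 : cl / L ^ Dl ≤ c := by
        refine le_trans ?_ h1
        exact div_le_div_of_nonneg_left hcl.le (by positivity) (pow_le_pow_left₀ hlogz0.le hlogz _)
      have h5 : L ^ (m + Dl + 10) / (2 * Pm * L ^ m) ≤ LW a u v :=
        (div_le_div_of_nonneg_right (hBA'.trans hwB) hden.le).trans hLW
      calc L ≤ L * (L * L / (2 * Pm)) * (cl * L) * L ^ 6 := by
            have hPL : 2 * Pm ≤ L := by
              have : Pm ≤ Ct * Pm := le_mul_of_one_le_left (by linarith) hCt1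
              linarith
            have h6 : 1 ≤ L * L / (2 * Pm) := by
              rw [le_div_iff₀ (by linarith)]
              nlinarith
            have h7 : 1 ≤ cl * L := by
              rw [div_le_iff₀ hcl] at hLcl
              linarith
            have h8 : 1 ≤ L ^ 6 := one_le_pow₀ hL1
            calc L = L * 1 * 1 * 1 := by ring
              _ ≤ L * (L * L / (2 * Pm)) * (cl * L) * L ^ 6 := by gcongr
        _ = cl / L ^ Dl * (L ^ (m + Dl + 10) / (2 * Pm * L ^ m)) := by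
            rw [show m + Dl + 10 = m + Dl + 10 from rfl, pow_add, pow_add]
            field_simp
        _ ≤ c * LW a u v := mul_le_mul h4 h5 (by positivity) hcpos.le
    refine ⟨hbig, hLW, ?_⟩
    have hB1v : L ^ B1 ≤ v := (pow_le_pow_right₀ hL1 (by omega)).trans hv1
    have hB1v2 : (v : ℝ) * L ^ B1 ≤ H :=
      (mul_le_mul_of_nonneg_left (pow_le_pow_right₀ hL1 (by omega)) hvpos.le).trans hv2
    have hev := hK v hB1v hB1v2
    have hLv : Lf a v ≤ Ct * v := Lf_le a v Ct hW1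
    have hev2 : |Pf a v - c0 * Lf a v| ≤ c0 * Ct * v / L ^ U := by
      refine hev.trans (div_le_div_of_nonneg_right ?_ (by positivity))
      rw [mul_assoc]
      exact mul_le_mul_of_nonneg_left hLv hc0.le
    have heu2 : |Pf a u - c0 * Lf a u| ≤ 2 * (c0 * Ct * v / L ^ U) := by
      have hbase : 0 ≤ c0 * Ct * v / L ^ U := by positivity
      rcases le_or_gt (L ^ B1) (u : ℝ) with hu | hu
      · have h1 := hK u hu ((mul_le_mul_of_nonneg_right (by exact_mod_cast huv') (by positivity)).trans hB1v2)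
        have h2 : Lf a u ≤ Ct * v := (Lf_mono a huv').trans hLv
        have h3 : c0 * Lf a u / L ^ U ≤ c0 * Ct * v / L ^ U := by
          refine div_le_div_of_nonneg_right ?_ (by positivity)
          rw [mul_assoc]
          exact mul_le_mul_of_nonneg_left h2 hc0.le
        linarith
      · set u' := ⌈L ^ B1⌉₊ with hu'
        have hu'1 : L ^ B1 ≤ u' := Nat.le_ceil _
        have hu'2 : (u' : ℝ) ≤ 2 * L ^ B1 := by
          have h1 := Nat.ceil_lt_add_one (show 0 ≤ L ^ B1 by positivity)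
          rw [← hu'] at h1
          have h2 : 1 ≤ L ^ B1 := one_le_pow₀ hL1
          linarith
        have hu'3 : (u' : ℝ) ≤ v / L ^ U := by
          rw [le_div_iff₀ (by positivity)]
          calc (u' : ℝ) * L ^ U ≤ 2 * L ^ B1 * L ^ U := mul_le_mul_of_nonneg_right hu'2 (by positivity)
            _ ≤ L * L ^ B1 * L ^ U := by
                refine mul_le_mul_of_nonneg_right (mul_le_mul_of_nonneg_right (by linarith) (by positivity)) (by positivity)
            _ = L ^ (B1 + U + 1) := by ring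
            _ ≤ L ^ B := pow_le_pow_right₀ hL1 (by omega)
            _ ≤ v := hv1
        have hu'4 : (u' : ℝ) ≤ v := hu'3.trans (div_le_self hvpos.le (by linarith))
        have h1 := hK u' hu'1 ((mul_le_mul_of_nonneg_right hu'4 (by positivity)).trans hB1v2)
        have huu : u ≤ u' := by
          have : (u : ℝ) ≤ u' := hu.le.trans hu'1
          exact_mod_cast this
        have h2 : Lf a u' ≤ Ct * (v / L ^ U) := (Lf_le a u' Ct hW1).trans (mul_le_mul_of_nonneg_left hu'3 (by linarith))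
        have h3 : c0 * Lf a u' ≤ c0 * Ct * v / L ^ U := by
          calc c0 * Lf a u' ≤ c0 * (Ct * (v / L ^ U)) := mul_le_mul_of_nonneg_left h2 hc0.le
            _ = c0 * Ct * v / L ^ U := by ring
        have h4 : c0 * Lf a u' / L ^ U ≤ c0 * Lf a u' :=
          div_le_self (mul_nonneg hc0.le (Lf_nonneg a u')) (by linarith)
        have h5 : Pf a u' ≤ 2 * (c0 * Ct * v / L ^ U) := by
          have := (abs_le.1 h1).2
          linarith
        have h6 : Pf a u ≤ 2 * (c0 * Ct * v / L ^ U) := (Pf_mono a huu).trans h5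
        have h7 : c0 * Lf a u ≤ c0 * Ct * v / L ^ U := (mul_le_mul_of_nonneg_left (Lf_mono a huu) hc0.le).trans h3
        have h8 : 0 ≤ Pf a u := Pf_nonneg a u
        have h9 : 0 ≤ c0 * Lf a u := mul_nonneg hc0.le (Lf_nonneg a u)
        rw [abs_le]
        constructor <;> linarith
    have hPWe : PW a u v = Pf a v - Pf a u := sum_win _ u v huv'
    have hLWe : LW a u v = Lf a v - Lf a u := sum_win _ u v huv'
    have hvw : (v : ℝ) ≤ 2 * Pm * L ^ (m + A) * LW a u v := by
      have h1 : w ≤ LW a u v * (2 * Pm * L ^ m) := (div_le_iff₀ hden).1 hLW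
      calc (v : ℝ) ≤ w * L ^ A := huv
        _ ≤ LW a u v * (2 * Pm * L ^ m) * L ^ A := mul_le_mul_of_nonneg_right h1 hLA.le
        _ = 2 * Pm * L ^ (m + A) * LW a u v := by rw [pow_add]; ring
    have herr : 3 * (c0 * Ct * v / L ^ U) ≤ c0 * LW a u v / (4 * L ^ A) := by
      calc 3 * (c0 * Ct * v / L ^ U) ≤ 3 * (c0 * Ct * (2 * Pm * L ^ (m + A) * LW a u v) / L ^ U) := by gcongr
        _ = c0 * LW a u v / (4 * L ^ A) * (24 * (Ct * Pm) / L ^ 5) := by
            rw [hU, show 2 * A + m + 5 = (m + A) + A + 5 by ring, pow_add L (m + A + A), pow_add L (m + A) A]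
            field_simp
            ring
        _ ≤ c0 * LW a u v / (4 * L ^ A) * 1 := by
            refine mul_le_mul_of_nonneg_left ?_ (by positivity)
            rw [div_le_one (by positivity)]
            have h1 : L ≤ L ^ 5 := le_self_pow₀ hL1 (by norm_num)
            have h2 : 0 ≤ Ct * Pm := by positivity
            linarith
        _ = c0 * LW a u v / (4 * L ^ A) := mul_one _
    have hcerr : |c - c0| * LW a u v ≤ c0 * LW a u v / (4 * L ^ A) := by
      calc |c - c0| * LW a u v ≤ c0 / L ^ U * LW a u v := mul_le_mul_of_nonneg_right hcc hLWpos.le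
        _ = c0 * LW a u v / (4 * L ^ A) * (4 / L ^ (A + m + 5)) := by
            rw [hU, show 2 * A + m + 5 = A + (A + m + 5) by ring, pow_add L A]
            field_simp
        _ ≤ c0 * LW a u v / (4 * L ^ A) * 1 := by
            refine mul_le_mul_of_nonneg_left ?_ (by positivity)
            rw [div_le_one (by positivity)]
            calc (4 : ℝ) ≤ L := by linarith
              _ ≤ L ^ (A + m + 5) := le_self_pow₀ hL1 (by omega)
        _ = c0 * LW a u v / (4 * L ^ A) := mul_one _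
    have hfin : c0 * LW a u v / (4 * L ^ A) + c0 * LW a u v / (4 * L ^ A) ≤ c * LW a u v / L ^ A := by
      have h1 : c0 * LW a u v / (4 * L ^ A) + c0 * LW a u v / (4 * L ^ A) = (c0 / 2) * LW a u v / L ^ A := by
        field_simp
        ring
      rw [h1]
      exact div_le_div_of_nonneg_right (mul_le_mul_of_nonneg_right hc2 hLWpos.le) hLA.le
    have hsplit : PW a u v - c * LW a u v =
        ((Pf a v - c0 * Lf a v) - (Pf a u - c0 * Lf a u)) + -((c - c0) * LW a u v) := by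
      rw [hPWe, hLWe]
      ring
    rw [hsplit]
    refine (abs_add_le _ _).trans ?_
    rw [abs_neg, abs_mul, abs_of_pos hLWpos]
    have h1 := abs_sub (Pf a v - c0 * Lf a v) (Pf a u - c0 * Lf a u)
    linarith

end Pool.Agent.H13K.Fin
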