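import Pool.Agent.H13K.MJC

/-!
# Project BH, stub MJ: the major arcs in one residue class
-/

set_option autoImplicit false

namespace Pool.Agent.H13K.MJ

open Finset
open Pool.Agent.H469R2.NK (e)
open Pool.Agent.H442R2.EHI (nint)
open Pool.Agent.H300R2.FB (pw tR)
open Pool.Agent.Q236.CR (nt)
open Pool.Agent.H373R2.T7 (lamz pz Vz)
open Pool.Agent.H13V (fz)

lemma rr {L : ℝ} (hL : 1 ≤ L) {a b c : ℕ} (h : a + c ≤ b) : L ^ a / L ^ b ≤ 1 / L ^ c := by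
  have hL0 : 0 < L := by linarith
  rw [div_le_div_iff₀ (by positivity) (by positivity), one_mul, ← pow_add]
  exact pow_le_pow_right₀ hL h

/-- the total of `S_ARC` -/
lemma arc_num {L CA CG H K Tc δ I : ℝ} {d Ea U E8 E9 B : ℕ} (hd : 1 ≤ d) (hL3 : 3 ≤ L)
    (hCA : 0 ≤ CA) (hc1 : 12 * CA * CG ^ 2 ≤ L) (hc2 : 2 * CA ≤ L) (hK : L ^ B ≤ K)
    (hKH : K * L ^ B ≤ H) (hT0 : 0 ≤ Tc) (hT : Tc ≤ K) (hδ0 : 0 ≤ δ)
    (hδ : δ ≤ L ^ Ea / (H * K ^ (d - 1))) (hI0 : 0 ≤ I) (hI : I ≤ H) (hI2 : d = 1 → I = 0)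
    (hE8 : Ea + 3 * U + 9 ≤ E8) (hE9 : 2 * U + 4 + E8 ≤ E9) (hB : Ea + 3 * U + 9 + E8 ≤ B) :
    CA * H ^ (d + 1) * (CG * L) ^ 2 * Tc ^ 2 * (1 / L ^ (U + 3) + (1 / L ^ E8) * (L ^ (U + 3)) ^ 2 +
      (L ^ (U + 3)) ^ 2 / ((1 / L ^ E8) * H) + δ * (L ^ (U + 3)) ^ 2 * ((1 / L ^ E8) * H * K ^ (d - 1)
        + I + K ^ d / (1 / L ^ E8))) + CA * H ^ d * (L ^ (U + 3) / (1 / L ^ E8)) * (K ^ 2 * H / L ^ E9) ≤
      K ^ 2 * H ^ (d + 1) / L ^ U := by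
  have hL1 : 1 ≤ L := by linarith
  have hL0 : 0 < L := by linarith
  have hK1 : 1 ≤ K := le_trans (one_le_pow₀ hL1) hK
  have hK0 : 0 < K := by linarith
  have hLB0 : 0 < L ^ B := by positivity
  have hLBH : L ^ B ≤ H := le_trans (le_mul_of_one_le_left (by positivity) hK1) hKH
  have hH0 : 0 < H := lt_of_lt_of_le hLB0 hLBH
  have hKd : K ^ d = K ^ (d - 1) * K := by
    rw [← pow_succ, Nat.sub_add_cancel hd]
  have hKp : 0 < K ^ (d - 1) := by positivity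
  have e0 : (L ^ (U + 3)) ^ 2 = L ^ (2 * U + 6) := by
    rw [← pow_mul]
    congr 1
    ring
  rw [e0]
  have t2 : (1 / L ^ E8) * L ^ (2 * U + 6) ≤ 1 / L ^ (U + 3) := by
    have h1 := rr hL1 (a := 2 * U + 6) (b := E8) (c := U + 3) (by omega)
    calc (1 / L ^ E8) * L ^ (2 * U + 6) = L ^ (2 * U + 6) / L ^ E8 := by ring
      _ ≤ _ := h1
  have t3 : L ^ (2 * U + 6) / ((1 / L ^ E8) * H) ≤ 1 / L ^ (U + 3) := by
    have h1 := rr hL1 (a := 2 * U + 6 + E8) (b := B) (c := U + 3) (by omega)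
    calc L ^ (2 * U + 6) / ((1 / L ^ E8) * H) = L ^ (2 * U + 6 + E8) / H := by
          rw [pow_add L (2 * U + 6) E8]
          generalize L ^ (2 * U + 6) = W
          field_simp
      _ ≤ L ^ (2 * U + 6 + E8) / L ^ B := div_le_div_of_nonneg_left (by positivity) hLB0 hLBH
      _ ≤ _ := h1
  have t4 : δ * L ^ (2 * U + 6) * ((1 / L ^ E8) * H * K ^ (d - 1)) ≤ 1 / L ^ (U + 3) := by
    have h1 := rr hL1 (a := Ea + (2 * U + 6)) (b := E8) (c := U + 3) (by omega)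
    calc δ * L ^ (2 * U + 6) * ((1 / L ^ E8) * H * K ^ (d - 1))
        ≤ (L ^ Ea / (H * K ^ (d - 1))) * L ^ (2 * U + 6) * ((1 / L ^ E8) * H * K ^ (d - 1)) := by
          gcongr
      _ = L ^ (Ea + (2 * U + 6)) / L ^ E8 := by
          rw [pow_add L Ea (2 * U + 6)]
          generalize L ^ (2 * U + 6) = W
          generalize K ^ (d - 1) = k at *
          field_simp
      _ ≤ _ := h1
  have t5 : δ * L ^ (2 * U + 6) * I ≤ 1 / L ^ (U + 3) := by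
    rcases Nat.lt_or_ge d 2 with h | h
    · rw [hI2 (by omega), mul_zero]
      positivity
    · have h1 := rr hL1 (a := Ea + (2 * U + 6)) (b := B) (c := U + 3) (by omega)
      have h2 : L ^ B ≤ K ^ (d - 1) := by
        refine hK.trans ?_
        calc K = K ^ 1 := (pow_one K).symm
          _ ≤ K ^ (d - 1) := pow_le_pow_right₀ hK1 (by omega)
      calc δ * L ^ (2 * U + 6) * I ≤ (L ^ Ea / (H * K ^ (d - 1))) * L ^ (2 * U + 6) * H := by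
            gcongr
        _ = L ^ (Ea + (2 * U + 6)) / K ^ (d - 1) := by
            rw [pow_add L Ea (2 * U + 6)]
            generalize L ^ (2 * U + 6) = W
            generalize K ^ (d - 1) = k at *
            field_simp
        _ ≤ L ^ (Ea + (2 * U + 6)) / L ^ B := div_le_div_of_nonneg_left (by positivity) hLB0 h2
        _ ≤ _ := h1
  have t6 : δ * L ^ (2 * U + 6) * (K ^ d / (1 / L ^ E8)) ≤ 1 / L ^ (U + 3) := by
    have h1 := rr hL1 (a := Ea + (2 * U + 6) + E8) (b := B) (c := U + 3) (by omega)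
    calc δ * L ^ (2 * U + 6) * (K ^ d / (1 / L ^ E8))
        ≤ (L ^ Ea / (H * K ^ (d - 1))) * L ^ (2 * U + 6) * (K ^ d / (1 / L ^ E8)) := by
          gcongr
      _ = L ^ (Ea + (2 * U + 6) + E8) * (K / H) := by
          rw [hKd, pow_add L (Ea + (2 * U + 6)) E8, pow_add L Ea (2 * U + 6)]
          generalize L ^ (2 * U + 6) = W
          generalize K ^ (d - 1) = k at *
          field_simp
      _ ≤ L ^ (Ea + (2 * U + 6) + E8) * (1 / L ^ B) := by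
          refine mul_le_mul_of_nonneg_left ?_ (by positivity)
          rw [div_le_div_iff₀ hH0 hLB0, one_mul]
          exact hKH
      _ = L ^ (Ea + (2 * U + 6) + E8) / L ^ B := by ring
      _ ≤ _ := h1
  obtain ⟨S, hS⟩ : ∃ S : ℝ, S = 1 / L ^ (U + 3) + (1 / L ^ E8) * L ^ (2 * U + 6) +
      L ^ (2 * U + 6) / ((1 / L ^ E8) * H) + δ * L ^ (2 * U + 6) * ((1 / L ^ E8) * H * K ^ (d - 1)
        + I + K ^ d / (1 / L ^ E8)) := ⟨_, rfl⟩
  rw [← hS]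
  have hS6 : S ≤ 6 * (1 / L ^ (U + 3)) := by
    rw [hS, mul_add, mul_add]
    linarith
  have hS0 : 0 ≤ S := by
    rw [hS]
    positivity
  have p1 : CA * H ^ (d + 1) * (CG * L) ^ 2 * Tc ^ 2 * S ≤ (1 / 2) * (K ^ 2 * H ^ (d + 1) / L ^ U) := by
    have h1 := absorb' (C := 12 * CA * CG ^ 2) (a := 2) (b := U + 3) (c := U) hL1 hc1 (by omega)
    calc CA * H ^ (d + 1) * (CG * L) ^ 2 * Tc ^ 2 * S
        ≤ CA * H ^ (d + 1) * (CG * L) ^ 2 * K ^ 2 * (6 * (1 / L ^ (U + 3))) := by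
          gcongr
      _ = (1 / 2) * (K ^ 2 * H ^ (d + 1)) * (12 * CA * CG ^ 2 * L ^ 2 / L ^ (U + 3)) := by ring
      _ ≤ (1 / 2) * (K ^ 2 * H ^ (d + 1)) * (1 / L ^ U) :=
          mul_le_mul_of_nonneg_left h1 (by positivity)
      _ = _ := by ring
  have p2 : CA * H ^ d * (L ^ (U + 3) / (1 / L ^ E8)) * (K ^ 2 * H / L ^ E9) ≤
      (1 / 2) * (K ^ 2 * H ^ (d + 1) / L ^ U) := by
    have h1 := absorb' (C := 2 * CA) (a := U + 3 + E8) (b := E9) (c := U) hL1 hc2 (by omega)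
    calc CA * H ^ d * (L ^ (U + 3) / (1 / L ^ E8)) * (K ^ 2 * H / L ^ E9)
        = (1 / 2) * (K ^ 2 * H ^ (d + 1)) * (2 * CA * L ^ (U + 3 + E8) / L ^ E9) := by
          rw [pow_add L (U + 3) E8, pow_succ H d]
          field_simp
      _ ≤ (1 / 2) * (K ^ 2 * H ^ (d + 1)) * (1 / L ^ U) :=
          mul_le_mul_of_nonneg_left h1 (by positivity)
      _ = _ := by ring
  linarith

/-- **MJ** -/
theorem t (hVZ : S_VZ) (hGQB : S_GQB) (hMEL : S_MEL) (hVDC : S_VDC) (hRAY : S_RAY) (hARC : S_ARC)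
    (hTWI : Pool.Agent.H13V.S_TWI) : S_MJ := by
  intro d Ea U hd
  obtain ⟨CV, hCV, hV⟩ := hVZ
  obtain ⟨CG, hCG, hG⟩ := hGQB
  obtain ⟨CR, Cr, hCR, hCr, hR⟩ := hRAY
  obtain ⟨CM, hCM, hM⟩ := hMEL Cr
  obtain ⟨CA, hCA, hA⟩ := hARC d hd
  obtain ⟨E8, hE8⟩ : ∃ E8 : ℕ, E8 = Ea + 3 * U + 12 := ⟨_, rfl⟩
  obtain ⟨E9, hE9⟩ : ∃ E9 : ℕ, E9 = 2 * U + E8 + 20 := ⟨_, rfl⟩
  obtain ⟨E10, hE10⟩ : ∃ E10 : ℕ, E10 = E9 + d * Ea + U + 20 := ⟨_, rfl⟩
  obtain ⟨E11, hE11⟩ : ∃ E11 : ℕ, E11 = Ea + U + 2 * E10 + 10 := ⟨_, rfl⟩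
  obtain ⟨E4, Bv, L0v, hL0v, hVd⟩ := hVDC d (Ea + 2 * U + 6) (E10 + 1) hd
  obtain ⟨V, hVe⟩ : ∃ V : ℕ, V = E4 + 2 * (d * Ea + U + 4) + E11 + 4 + 2 * E10 + 1 := ⟨_, rfl⟩
  obtain ⟨X₀, hTw⟩ := hTWI Ea V
  obtain ⟨B, hB⟩ : ∃ B : ℕ, B = (E4 + (d * Ea + U + 4) + 1 + 2 * E10 + 1) + Bv + (E11 + 1) +
    (Ea + 2 * U + 7) + (Ea + 3 * U + 9 + E8) := ⟨_, rfl⟩
  obtain ⟨A, hAdef⟩ : ∃ A : ℝ, A = 3 + 2 * CV * Ea + E10 + (16 * (d + 1) + (d + 3) ^ 2 + 8 * CM +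
    CR * CG ^ 2 * (1 + 2 * (d + 1))) + 12 * CA * CG ^ 2 + 2 * CA + 8 + L0v := ⟨_, rfl⟩
  obtain ⟨L₁, hL₁, hbig⟩ := biglog A
  refine ⟨B, ⌈Real.exp L₁⌉₊ + X₀, fun H hH => ?_⟩
  intro K K1 R M M0 M1 x q r z b θ0 θ1 v hK hKH hK1K hKK1 hx hM1 hHM1 hHM2 hxR hRx hq hqz hz hM0 hM1'
    hMN hM0' hθ0 hθ1 hv
  obtain ⟨L, hL⟩ : ∃ L : ℝ, L = Real.log H := ⟨_, rfl⟩
  rw [← hL] at hK hKH hKK1 hxR hRx hz hMN hv
  rw [← hL]
  have hHe : Real.exp L₁ ≤ H := by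
    have h1 : Real.exp L₁ ≤ ⌈Real.exp L₁⌉₊ := Nat.le_ceil _
    have h2 : ((⌈Real.exp L₁⌉₊ : ℕ) : ℝ) ≤ H := by
      exact_mod_cast (by omega : ⌈Real.exp L₁⌉₊ ≤ H)
    linarith
  have hLL : L₁ ≤ L := by
    rw [hL, ← Real.log_exp L₁]
    exact Real.log_le_log (Real.exp_pos _) hHe
  have hAL := hbig L hLL
  have hL1 : 1 ≤ L := by linarith
  have hL0 : 0 < L := by linarith
  have hll : 0 ≤ Real.log L := Real.log_nonneg hL1
  have hd0 : (0 : ℝ) ≤ d := Nat.cast_nonneg d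
  have a1 : 0 ≤ 2 * CV * Ea := by positivity
  have a2 : (0 : ℝ) ≤ E10 := Nat.cast_nonneg _
  have a3 : 0 ≤ 16 * ((d : ℝ) + 1) := by positivity
  have a4 : 0 ≤ ((d : ℝ) + 3) ^ 2 := by positivity
  have a5 : 0 ≤ CR * CG ^ 2 * (1 + 2 * ((d : ℝ) + 1)) := by positivity
  have a6 : 0 ≤ 12 * CA * CG ^ 2 := by positivity
  have hA0 : 0 ≤ A := by rw [hAdef]; positivity
  have hAll : 0 ≤ A * Real.log L := mul_nonneg hA0 hll
  have hAle : A ≤ L := by linarith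
  have b1 : 3 + 2 * CV * Ea ≤ A := by rw [hAdef]; linarith
  have b2 : (E10 : ℝ) ≤ A := by rw [hAdef]; linarith
  have b3 : 16 * ((d : ℝ) + 1) + (d + 3) ^ 2 + 8 * CM + CR * CG ^ 2 * (1 + 2 * (d + 1)) ≤ A := by
    rw [hAdef]; linarith
  have b4 : 12 * CA * CG ^ 2 ≤ A := by rw [hAdef]; linarith
  have b5 : 2 * CA ≤ A := by rw [hAdef]; linarith
  have b6 : L0v ≤ A := by rw [hAdef]; linarith
  have b7 : 8 ≤ A := by rw [hAdef]; linarith
  have hL8 : 8 ≤ L := by linarith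
  -- sizes
  have hK1' : (1 : ℝ) ≤ K := le_trans (one_le_pow₀ hL1) hK
  have hK0 : (0 : ℝ) < K := by linarith
  have hH1 : (1 : ℝ) ≤ H := (ax1 hK1' (one_le_pow₀ hL1)).trans hKH
  have hH0 : (0 : ℝ) < H := by linarith
  have hH1n : 1 ≤ H := by exact_mod_cast hH1
  have hLBH : L ^ B ≤ H := le_trans (le_mul_of_one_le_left (by positivity) hK1') hKH
  have hKp : (1 : ℝ) ≤ (K : ℝ) ^ (d - 1) := one_le_pow₀ hK1'
  have hxR' : (x : ℝ) = (d + 1) * H * (K : ℝ) ^ d := by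
    rw [hx]; push_cast; ring
  have hHx : (H : ℝ) ≤ x := by
    rw [hxR']
    exact ax2 hd0 hH0.le (one_le_pow₀ hK1')
  have hx0 : (0 : ℝ) ≤ x := Nat.cast_nonneg x
  have hxleR : x ≤ R := by
    have h1 : (x : ℝ) ≤ x * L ^ (U + 8) := le_mul_of_one_le_right hx0 (one_le_pow₀ hL1)
    exact_mod_cast h1.trans hxR
  have hR1 : (1 : ℝ) ≤ R := by
    have h1 : (x : ℝ) ≤ R := by exact_mod_cast hxleR
    linarith
  have hN0 : (0 : ℝ) < 2 * (R : ℝ) + 1 := by positivity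
  obtain ⟨δ, hδdef⟩ : ∃ δ : ℝ, δ = ((M0 : ℝ) + M1) / (2 * R + 1) := ⟨_, rfl⟩
  rw [← hδdef] at hMN
  have hδ0 : 0 ≤ δ := by rw [hδdef]; positivity
  have hδ8 : δ ≤ 1 / 8 := by
    refine hMN.trans ?_
    rw [div_le_div_iff₀ (by positivity) (by norm_num)]
    have h1 : 8 * L ^ Ea ≤ L ^ B := absorb hL1 hL8 (by omega)
    have h2 : (H : ℝ) ≤ H * (K : ℝ) ^ (d - 1) := le_mul_of_one_le_right hH0.le hKp
    linarith
  have hMM : (M0 : ℝ) + M1 = δ * (2 * R + 1) := by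
    rw [hδdef]
    field_simp
  have hM0n : (0 : ℝ) ≤ M0 := Nat.cast_nonneg _
  have hM1n : (0 : ℝ) ≤ M1 := Nat.cast_nonneg _
  have hMMle : (M0 : ℝ) + M1 ≤ (2 * R + 1) / 8 := by
    rw [hMM]
    have h1 := mul_le_mul_of_nonneg_right hδ8 hN0.le
    linarith
  have h2M0 : 2 * M0 ≤ R := by
    have : (2 * M0 : ℝ) ≤ R := by linarith
    exact_mod_cast this
  have h2M1 : 2 * M1 ≤ R := by
    have : (2 * M1 : ℝ) ≤ R := by linarith
    exact_mod_cast this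
  have hM0δ : (M0 : ℝ) / (2 * R + 1) ≤ δ := by
    rw [hδdef]
    exact div_le_div_of_nonneg_right (by linarith) hN0.le
  have hM1δ : (M1 : ℝ) / (2 * R + 1) ≤ δ := by
    rw [hδdef]
    exact div_le_div_of_nonneg_right (by linarith) hN0.le
  -- the weight
  have hz1 : 1 ≤ z := hq.trans hqz
  have hf : ∀ n, |fz z n| ≤ L := by
    intro n
    refine (fz_le hCV hV hz1 n).trans ?_
    have h1 : Real.log z ≤ Ea * Real.log L := by
      rw [← Real.log_pow]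
      exact Real.log_le_log (by exact_mod_cast hz1) hz
    have h2 : 2 * CV * Real.log z ≤ 2 * CV * (Ea * Real.log L) :=
      mul_le_mul_of_nonneg_left h1 (by linarith)
    have h3 : (3 + 2 * CV * Ea) * Real.log L ≤ A * Real.log L :=
      mul_le_mul_of_nonneg_right b1 hll
    linarith
  obtain ⟨hg1, hg1l, hg1c⟩ := hG R M0 x q θ0 L b (fz z) hM0 h2M0 hxleR hθ0 hf
  obtain ⟨hg2, hg2l, hg2c⟩ := hG R M1 x q θ1 L (-b) v hM1' h2M1 hxleR hθ1 hv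
  have hCGL : 0 ≤ CG * L := by positivity
  have hlip1 : ∀ y y', ‖gq R M0 θ0 q b x (fz z) y - gq R M0 θ0 q b x (fz z) y'‖ ≤
      CG * L * δ * |y - y'| := by
    intro y y'
    refine (hg1l y y').trans ?_
    exact mul_le_mul_of_nonneg_right (mul_le_mul_of_nonneg_left hM0δ hCGL) (abs_nonneg _)
  have hlip2 : ∀ y y', ‖gq R M1 θ1 q (-b) x v y - gq R M1 θ1 q (-b) x v y'‖ ≤
      CG * L * δ * |y - y'| := by
    intro y y'
    refine (hg2l y y').trans ?_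
    exact mul_le_mul_of_nonneg_right (mul_le_mul_of_nonneg_left hM1δ hCGL) (abs_nonneg _)
  have hder : ∀ y, ‖deriv (gq R M0 θ0 q b x (fz z)) y‖ ≤ CG * L * δ := by
    intro y
    have h0 : 0 ≤ CG * L * δ := mul_nonneg hCGL hδ0
    have h1 : LipschitzWith (Real.toNNReal (CG * L * δ)) (gq R M0 θ0 q b x (fz z)) := by
      refine LipschitzWith.of_dist_le_mul fun y y' => ?_
      rw [dist_eq_norm, Real.dist_eq, Real.coe_toNNReal _ h0]
      exact hlip1 y y'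
    have h2 := norm_deriv_le_of_lipschitz (x₀ := y) h1
    rwa [Real.coe_toNNReal _ h0] at h2
  -- the parameters of `S_ARC`
  have hΛ1 : 1 ≤ L ^ (U + 3) := one_le_pow₀ hL1
  have hK1pos : (L ^ (U + 3)) ^ 2 ≤ K1 := by
    have h1 : L ^ (2 * U + 6 + Ea) ≤ L ^ B := pow_le_pow_right₀ hL1 (by omega)
    have h2 : L ^ (2 * U + 6 + Ea) ≤ K1 * L ^ Ea := (h1.trans hK).trans hKK1
    have h3 : L ^ (2 * U + 6 + Ea) = (L ^ (U + 3)) ^ 2 * L ^ Ea := by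
      rw [pow_add, ← pow_mul, show (U + 3) * 2 = 2 * U + 6 by ring]
    rw [h3] at h2
    exact le_of_mul_le_mul_right h2 (by positivity)
  have hK1n : 1 ≤ K1 := by
    have h1 : (1 : ℝ) ≤ (L ^ (U + 3)) ^ 2 := one_le_pow₀ hΛ1
    have h2 : (1 : ℝ) ≤ K1 := h1.trans hK1pos
    exact_mod_cast h2
  have h4HR : 4 * (H : ℝ) * L ^ (U + 3) ≤ R := by
    have h1 : 4 * L ^ (U + 3) ≤ L ^ (U + 8) := absorb hL1 (by linarith) (by omega)
    calc 4 * (H : ℝ) * L ^ (U + 3) = H * (4 * L ^ (U + 3)) := by ring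
      _ ≤ H * L ^ (U + 8) := mul_le_mul_of_nonneg_left h1 hH0.le
      _ ≤ x * L ^ (U + 8) := mul_le_mul_of_nonneg_right hHx (by positivity)
      _ ≤ R := hxR
  have hTsub : (Ioc K1 K).filter (fun k => k % q = r) ⊆ Icc K1 K := by
    intro k hk
    rw [Finset.mem_filter, Finset.mem_Ioc] at hk
    rw [Finset.mem_Icc]
    exact ⟨hk.1.1.le, hk.1.2⟩
  have hcard : (((Ioc K1 K).filter (fun k => k % q = r)).card : ℝ) ≤ K := by
    have h1 : ((Ioc K1 K).filter (fun k => k % q = r)).card ≤ K := by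
      refine (Finset.card_filter_le _ _).trans ?_
      rw [Nat.card_Ioc]
      omega
    exact_mod_cast h1
  have hκ1 : 1 / L ^ E8 ≤ 1 := by
    rw [div_le_one (by positivity)]
    exact one_le_pow₀ hL1
  have hE10L : 1 + (E10 : ℝ) * Real.log L ≤ L := by
    have h1 : (E10 : ℝ) * Real.log L ≤ A * Real.log L := mul_le_mul_of_nonneg_right b2 hll
    linarith
  have hmain := hA R M H K1 K ((Ioc K1 K).filter (fun k => k % q = r)) (L ^ (U + 3)) (1 / L ^ E8) δ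
    (CG * L) ((K : ℝ) ^ 2 * H / L ^ E9) (gq R M0 θ0 q b x (fz z)) (gq R M1 θ1 q (-b) x v)
    hM1 hHM1 hHM2 hH1n hK1n hTsub hΛ1 hK1pos h4HR (by positivity) hκ1 hδ0 hCGL (by positivity)
    (fun y => ⟨hg1 y, hg2 y⟩) (fun y y' => ⟨hlip1 y y', hlip2 y y'⟩)
    (by
      intro σ D bb c hσ hD1 hD2 hbb hc hdc
      exact ray_le (Bv := Bv) (B := B) (E11 := E11) (E4 := E4) (V := V) (CM := CM) hd hR hM
        (hVd L (b6.trans hAle)) hTw hL (by linarith) (by linarith) hCG (b3.trans hAle) hE10L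
        (by omega) (by omega) (by omega) (by omega) (by omega) (by omega) (by omega) (by omega)
        hK hKH hK1K hKK1 hx hxR hRx hq hqz hz hM0 h2M0 hM0' hθ0 hδ0 hMN hf hg1 hder hg1c hg2 hg2c
        (by positivity) hκ1 hσ hD1 hD2 hbb hc hdc)
  refine hmain.trans ?_
  exact arc_num (L := L) (CA := CA) (CG := CG) (H := H) (K := K)
    (I := if 2 ≤ d then (H : ℝ) else 0) (Ea := Ea) (B := B) hd (by linarith) (by linarith)
    (b4.trans hAle) (b5.trans hAle) hK hKH (Nat.cast_nonneg _) hcard hδ0 hMN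
    (by split_ifs <;> positivity) (by split_ifs <;> linarith)
    (fun h => by rw [if_neg (by omega)]) (by omega) (by omega) (by omega)

end Pool.Agent.H13K.MJ
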