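import Pool.Agent.H13K.StmS

/-!
# Project BH (helper13), stub TEN: tensor products of kernels (proved by helper71)
-/

set_option autoImplicit false

namespace Pool.Agent.H13K.TEN

open Finset

lemma tele {ι : Type} [DecidableEq ι] (s : Finset ι) (a b B : ι → ℝ)
    (ha : ∀ i ∈ s, |a i| ≤ B i) (hb : ∀ i ∈ s, |b i| ≤ B i) :
    |∏ i ∈ s, a i - ∏ i ∈ s, b i| ≤ ∑ i ∈ s, |a i - b i| * ∏ j ∈ s.erase i, B j := by
  induction s using Finset.induction_on with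
  | empty => simp
  | insert x s hx ih =>
    have ih' := ih (fun i hi => ha i (mem_insert_of_mem hi)) (fun i hi => hb i (mem_insert_of_mem hi))
    have hA : |∏ i ∈ s, a i| ≤ ∏ i ∈ s, B i := by
      rw [Finset.abs_prod]
      exact Finset.prod_le_prod (fun i _ => abs_nonneg _) (fun i hi => ha i (mem_insert_of_mem hi))
    rw [prod_insert hx, prod_insert hx, sum_insert hx, erase_insert hx]
    have h1 : a x * ∏ i ∈ s, a i - b x * ∏ i ∈ s, b i =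
        (a x - b x) * ∏ i ∈ s, a i + b x * (∏ i ∈ s, a i - ∏ i ∈ s, b i) := by ring
    rw [h1]
    have h2 : ∑ i ∈ s, |a i - b i| * ∏ j ∈ (insert x s).erase i, B j =
        B x * ∑ i ∈ s, |a i - b i| * ∏ j ∈ s.erase i, B j := by
      rw [mul_sum]
      refine sum_congr rfl fun i hi => ?_
      have hne : x ≠ i := fun h => hx (h ▸ hi)
      rw [erase_insert_of_ne hne, prod_insert (fun h => hx (mem_of_mem_erase h))]
      ring
    rw [h2]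
    calc |(a x - b x) * ∏ i ∈ s, a i + b x * (∏ i ∈ s, a i - ∏ i ∈ s, b i)|
        ≤ |(a x - b x) * ∏ i ∈ s, a i| + |b x * (∏ i ∈ s, a i - ∏ i ∈ s, b i)| := abs_add_le _ _
      _ = |a x - b x| * |∏ i ∈ s, a i| + |b x| * |∏ i ∈ s, a i - ∏ i ∈ s, b i| := by
          rw [abs_mul, abs_mul]
      _ ≤ _ := by
          refine add_le_add (mul_le_mul_of_nonneg_left hA (abs_nonneg _)) ?_
          exact mul_le_mul (hb x (mem_insert_self _ _)) ih' (abs_nonneg _)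
            ((abs_nonneg _).trans (hb x (mem_insert_self _ _)))

lemma bd {α : Type} (Ω : Finset α) (W U V : α → ℝ) (S w : ℝ) (hW : ∀ a ∈ Ω, 0 ≤ W a)
    (hw : ∑ a ∈ Ω, W a ≤ w) (hS : 0 ≤ S) (hU : ∀ a ∈ Ω, |U a| ≤ S) (hV : ∀ a ∈ Ω, |V a| ≤ S) :
    |∑ a ∈ Ω, W a * (U a * V a)| ≤ S ^ 2 * w := by
  calc |∑ a ∈ Ω, W a * (U a * V a)| ≤ ∑ a ∈ Ω, |W a * (U a * V a)| := abs_sum_le_sum_abs _ _
    _ ≤ ∑ a ∈ Ω, W a * S ^ 2 := by
        refine sum_le_sum fun a ha => ?_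
        rw [abs_mul, abs_mul, abs_of_nonneg (hW a ha), sq]
        exact mul_le_mul_of_nonneg_left (mul_le_mul (hU a ha) (hV a ha) (abs_nonneg _) hS) (hW a ha)
    _ = S ^ 2 * ∑ a ∈ Ω, W a := by rw [← sum_mul]; ring
    _ ≤ S ^ 2 * w := mul_le_mul_of_nonneg_left hw (by positivity)

lemma prods {m : ℕ} {α : Fin m → Type} (Ω : ∀ i, Finset (α i)) (W U V : ∀ i, α i → ℝ) :
    ∑ a ∈ Fintype.piFinset Ω, (∏ i, W i (a i)) * ((∏ i, U i (a i)) * ∏ i, V i (a i)) =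
      ∏ i, ∑ a ∈ Ω i, W i a * (U i a * V i a) := by
  rw [Finset.prod_univ_sum]
  refine sum_congr rfl fun a _ => ?_
  rw [← prod_mul_distrib, ← prod_mul_distrib]

lemma half {m : ℕ} (T : Finset ℕ) (P Q : Fin m → ℕ → ℕ → ℝ) (S ε : ℝ) (w : Fin m → ℝ)
    (hS : 1 ≤ S) (hε : 0 ≤ ε) (hw : ∀ i, 0 ≤ w i)
    (hP : ∀ i, ∀ k ∈ T, ∀ k' ∈ T, |P i k k'| ≤ S ^ 2 * w i)
    (hQ : ∀ i, ∀ k ∈ T, ∀ k' ∈ T, |Q i k k'| ≤ S ^ 2 * w i)
    (h : ∀ i, ∑ k ∈ T, ∑ k' ∈ T, |P i k k' - Q i k k'| ≤ ε * w i) :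
    ∑ k ∈ T, ∑ k' ∈ T, |∏ i, P i k k' - ∏ i, Q i k k'| ≤ m * S ^ (2 * m) * ε * ∏ i, w i := by
  have h1 : ∑ k ∈ T, ∑ k' ∈ T, |∏ i, P i k k' - ∏ i, Q i k k'| ≤
      ∑ k ∈ T, ∑ k' ∈ T, ∑ i, |P i k k' - Q i k k'| * ∏ j ∈ univ.erase i, (S ^ 2 * w j) := by
    refine sum_le_sum fun k hk => sum_le_sum fun k' hk' => ?_
    exact tele univ _ _ _ (fun i _ => hP i k hk k' hk') (fun i _ => hQ i k hk k' hk')
  have h2 : ∑ k ∈ T, ∑ k' ∈ T, ∑ i, |P i k k' - Q i k k'| * ∏ j ∈ univ.erase i, (S ^ 2 * w j) =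
      ∑ i, (∑ k ∈ T, ∑ k' ∈ T, |P i k k' - Q i k k'|) * ∏ j ∈ univ.erase i, (S ^ 2 * w j) := by
    rw [sum_congr rfl fun k _ => sum_comm (s := T) (t := univ), sum_comm]
    refine sum_congr rfl fun i _ => ?_
    rw [sum_mul]
    refine sum_congr rfl fun k _ => ?_
    rw [sum_mul]
  rw [h2] at h1
  refine h1.trans ?_
  have h3 : ∀ i ∈ (univ : Finset (Fin m)), (∑ k ∈ T, ∑ k' ∈ T, |P i k k' - Q i k k'|) *
      ∏ j ∈ univ.erase i, (S ^ 2 * w j) ≤ S ^ (2 * m) * ε * ∏ i, w i := by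
    intro i _
    have h4 : 0 ≤ ∏ j ∈ univ.erase i, (S ^ 2 * w j) :=
      prod_nonneg fun j _ => mul_nonneg (by positivity) (hw j)
    have h5 : ∏ j ∈ univ.erase i, (S ^ 2 * w j) = S ^ (2 * (m - 1)) * ∏ j ∈ univ.erase i, w j := by
      rw [prod_mul_distrib, prod_const, card_erase_of_mem (mem_univ i), card_univ, Fintype.card_fin,
        pow_mul]
    have h6 : w i * ∏ j ∈ univ.erase i, w j = ∏ j, w j := mul_prod_erase univ w (mem_univ i)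
    have h7 : S ^ (2 * (m - 1)) ≤ S ^ (2 * m) := pow_le_pow_right₀ hS (by omega)
    have h8 : 0 ≤ ∏ j, w j := prod_nonneg fun j _ => hw j
    calc _ ≤ (ε * w i) * ∏ j ∈ univ.erase i, (S ^ 2 * w j) := mul_le_mul_of_nonneg_right (h i) h4
      _ = S ^ (2 * (m - 1)) * (ε * (w i * ∏ j ∈ univ.erase i, w j)) := by rw [h5]; ring
      _ = S ^ (2 * (m - 1)) * (ε * ∏ j, w j) := by rw [h6]
      _ ≤ S ^ (2 * m) * (ε * ∏ j, w j) := mul_le_mul_of_nonneg_right h7 (mul_nonneg hε h8)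
      _ = _ := by ring
  refine (sum_le_sum h3).trans ?_
  rw [sum_const, card_univ, Fintype.card_fin, nsmul_eq_mul]
  exact le_of_eq (by ring)

theorem t0 (m : ℕ) (α : Fin m → Type) (Ω : ∀ i, Finset (α i)) (W : ∀ i, α i → ℝ)
    (X Y : ∀ i, α i → ℕ → ℝ) (T : Finset ℕ) (S ε : ℝ) (w : Fin m → ℝ) (hS : 1 ≤ S) (hε : 0 ≤ ε)
    (hw : ∀ i, 0 ≤ w i) (hW : ∀ i, ∀ a ∈ Ω i, 0 ≤ W i a) (hWw : ∀ i, ∑ a ∈ Ω i, W i a ≤ w i)
    (hXY : ∀ i, ∀ a ∈ Ω i, ∀ k ∈ T, |X i a k| ≤ S ∧ |Y i a k| ≤ S)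
    (h1 : ∀ i, ∑ k ∈ T, ∑ k' ∈ T, |∑ a ∈ Ω i, W i a * ((X i a k - Y i a k) * X i a k')| ≤ ε * w i)
    (h2 : ∀ i, ∑ k ∈ T, ∑ k' ∈ T, |∑ a ∈ Ω i, W i a * ((X i a k - Y i a k) * Y i a k')| ≤ ε * w i) :
    ∑ a ∈ Fintype.piFinset Ω, (∏ i, W i (a i)) *
      (∑ k ∈ T, (∏ i, X i (a i) k - ∏ i, Y i (a i) k)) ^ 2 ≤ 2 * m * S ^ (2 * m) * ε * ∏ i, w i := by
  have hS0 : 0 ≤ S := zero_le_one.trans hS
  set P : Fin m → ℕ → ℕ → ℝ := fun i k k' => ∑ a ∈ Ω i, W i a * (X i a k * X i a k') with hP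
  set Q : Fin m → ℕ → ℕ → ℝ := fun i k k' => ∑ a ∈ Ω i, W i a * (X i a k * Y i a k') with hQ
  set Q' : Fin m → ℕ → ℕ → ℝ := fun i k k' => ∑ a ∈ Ω i, W i a * (Y i a k * X i a k') with hQ'
  set R : Fin m → ℕ → ℕ → ℝ := fun i k k' => ∑ a ∈ Ω i, W i a * (Y i a k * Y i a k') with hR
  have hbP : ∀ i, ∀ k ∈ T, ∀ k' ∈ T, |P i k k'| ≤ S ^ 2 * w i := fun i k hk k' hk' =>
    bd (Ω i) _ _ _ S (w i) (hW i) (hWw i) hS0 (fun a ha => (hXY i a ha k hk).1)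
      (fun a ha => (hXY i a ha k' hk').1)
  have hbQ : ∀ i, ∀ k ∈ T, ∀ k' ∈ T, |Q i k k'| ≤ S ^ 2 * w i := fun i k hk k' hk' =>
    bd (Ω i) _ _ _ S (w i) (hW i) (hWw i) hS0 (fun a ha => (hXY i a ha k hk).1)
      (fun a ha => (hXY i a ha k' hk').2)
  have hbQ' : ∀ i, ∀ k ∈ T, ∀ k' ∈ T, |Q' i k k'| ≤ S ^ 2 * w i := fun i k hk k' hk' =>
    bd (Ω i) _ _ _ S (w i) (hW i) (hWw i) hS0 (fun a ha => (hXY i a ha k hk).2)
      (fun a ha => (hXY i a ha k' hk').1)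
  have hbR : ∀ i, ∀ k ∈ T, ∀ k' ∈ T, |R i k k'| ≤ S ^ 2 * w i := fun i k hk k' hk' =>
    bd (Ω i) _ _ _ S (w i) (hW i) (hWw i) hS0 (fun a ha => (hXY i a ha k hk).2)
      (fun a ha => (hXY i a ha k' hk').2)
  -- the two halves
  have e1 : ∑ k ∈ T, ∑ k' ∈ T, |∏ i, P i k k' - ∏ i, Q' i k k'| ≤
      m * S ^ (2 * m) * ε * ∏ i, w i := by
    refine half T P Q' S ε w hS hε hw hbP hbQ' fun i => ?_
    refine (le_of_eq ?_).trans (h1 i)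
    refine sum_congr rfl fun k _ => sum_congr rfl fun k' _ => ?_
    simp only [hP, hQ']
    rw [← sum_sub_distrib]
    congr 1
    refine sum_congr rfl fun a _ => ?_
    ring
  have e2 : ∑ k ∈ T, ∑ k' ∈ T, |∏ i, Q i k k' - ∏ i, R i k k'| ≤
      m * S ^ (2 * m) * ε * ∏ i, w i := by
    refine half T Q R S ε w hS hε hw hbQ hbR fun i => ?_
    refine (le_of_eq ?_).trans (h2 i)
    refine sum_congr rfl fun k _ => sum_congr rfl fun k' _ => ?_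
    simp only [hQ, hR]
    rw [← sum_sub_distrib]
    congr 1
    refine sum_congr rfl fun a _ => ?_
    ring
  -- the expansion
  have e3 : ∑ a ∈ Fintype.piFinset Ω, (∏ i, W i (a i)) *
      (∑ k ∈ T, (∏ i, X i (a i) k - ∏ i, Y i (a i) k)) ^ 2 =
      ∑ k ∈ T, ∑ k' ∈ T, ((∏ i, P i k k' - ∏ i, Q' i k k') - (∏ i, Q i k k' - ∏ i, R i k k')) := by
    have e4 : ∀ a : (∀ i, α i), (∏ i, W i (a i)) *
        (∑ k ∈ T, (∏ i, X i (a i) k - ∏ i, Y i (a i) k)) ^ 2 =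
        ∑ k ∈ T, ∑ k' ∈ T, ((∏ i, W i (a i)) * ((∏ i, X i (a i) k) * ∏ i, X i (a i) k') -
          (∏ i, W i (a i)) * ((∏ i, Y i (a i) k) * ∏ i, X i (a i) k') -
          ((∏ i, W i (a i)) * ((∏ i, X i (a i) k) * ∏ i, Y i (a i) k') -
          (∏ i, W i (a i)) * ((∏ i, Y i (a i) k) * ∏ i, Y i (a i) k'))) := by
      intro a
      rw [sq, sum_mul_sum, mul_sum]
      refine sum_congr rfl fun k _ => ?_
      rw [mul_sum]
      refine sum_congr rfl fun k' _ => ?_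
      ring
    rw [sum_congr rfl fun a _ => e4 a, sum_comm]
    refine sum_congr rfl fun k _ => ?_
    rw [sum_comm]
    refine sum_congr rfl fun k' _ => ?_
    rw [sum_sub_distrib, sum_sub_distrib, sum_sub_distrib]
    simp only [hP, hQ, hQ', hR]
    rw [← prods Ω W (fun i a => X i a k) (fun i a => X i a k'),
      ← prods Ω W (fun i a => Y i a k) (fun i a => X i a k'),
      ← prods Ω W (fun i a => X i a k) (fun i a => Y i a k'),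
      ← prods Ω W (fun i a => Y i a k) (fun i a => Y i a k')]
  rw [e3]
  calc _ ≤ ∑ k ∈ T, ∑ k' ∈ T, (|∏ i, P i k k' - ∏ i, Q' i k k'| + |∏ i, Q i k k' - ∏ i, R i k k'|) := by
        refine sum_le_sum fun k _ => sum_le_sum fun k' _ => ?_
        exact (le_abs_self _).trans (abs_sub _ _)
    _ = ∑ k ∈ T, ∑ k' ∈ T, |∏ i, P i k k' - ∏ i, Q' i k k'| +
        ∑ k ∈ T, ∑ k' ∈ T, |∏ i, Q i k k' - ∏ i, R i k k'| := by
        rw [← sum_add_distrib]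
        refine sum_congr rfl fun k _ => ?_
        rw [← sum_add_distrib]
    _ ≤ m * S ^ (2 * m) * ε * ∏ i, w i + m * S ^ (2 * m) * ε * ∏ i, w i := add_le_add e1 e2
    _ = _ := by ring

theorem t : S_TEN := fun m α Ω W X Y T S ε w hS hε hw hW hWw hXY h1 h2 =>
  t0 m α Ω W X Y T S ε w hS hε hw hW hWw hXY h1 h2

end Pool.Agent.H13K.TEN
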