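import Pool.Agent.H13K.VZ
import Pool.Agent.H13K.WTF
import Pool.Agent.H13K.FIN
import Pool.Agent.H13K.EXP
import Pool.Agent.H13K.MIN
import Pool.Agent.H13K.MAJ
import Pool.Agent.H13K.PRJ
import Pool.Agent.H13K.VPB
import Pool.Agent.H13K.GQB
import Pool.Agent.H13K.MEL
import Pool.Agent.H13K.VDC
import Pool.Agent.H13K.RAY
import Pool.Agent.H13K.ARC
import Pool.Agent.H13K.MJ
import Pool.Agent.H13K.KR
import Pool.Agent.H13K.CNTB
import Pool.Agent.H13K.LOC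
import Pool.Agent.H13K.FL
import Pool.Agent.H13K.CRT
import Pool.Agent.H13K.AV
import Pool.Agent.H13K.SM
import Pool.Agent.H13K.TV
import Pool.Agent.H13K.T2
import Pool.Agent.H13K.TEN
import Pool.Agent.H13K.T1
import Pool.Agent.H13K.SEC
import Pool.Agent.H13K.LOWC
import Pool.Agent.H13K.ALL
import Pool.Agent.H13K.OMV
import Pool.Agent.H13K.PY
import Pool.Agent.H13K.Fin
import Pool.Agent.H13V.TNB
import Pool.Agent.H13V.ZSB
import Pool.Agent.H13V.CHR
import Pool.Agent.H13V.LUP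
import Pool.Agent.H13V.LZF
import Pool.Agent.H13V.MOC
import Pool.Agent.H13V.LAM
import Pool.Agent.H13V.RGH
import Pool.Agent.H13V.TWL
import Pool.Agent.H13V.TWH
import Pool.Agent.H13V.TWI

/-! Project BH: composition of the stubs. -/

set_option autoImplicit false

namespace Pool.Agent.H13K.Main

open Pool.Agent.H13K Pool.Agent.H13V Pool.Agent.Q236.CR

theorem chr : S_CHR := Pool.Agent.H13V.CHR.t (Pool.Agent.H13V.ZSB.t Pool.Agent.H13V.TNB.t)
theorem moc : S_MOC := Pool.Agent.H13V.MOC.t (Pool.Agent.H13V.LZF.t (Pool.Agent.H13V.LUP.t chr))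
theorem lam : S_LAM := Pool.Agent.H13V.LAM.t chr moc
theorem twi : S_TWI := Pool.Agent.H13V.TWI.t Pool.Agent.H13V.TWL.t (Pool.Agent.H13V.TWH.t lam Pool.Agent.H13V.RGH.t)
theorem exp' : S_EXP := EXP.t WTF.t
theorem mj : S_MJ := MJ.t VZ.t (GQB.t VPB.t) (MEL.t VPB.t) VDC.t RAY.t (ARC.t WTF.t) twi
theorem kern : S_KER := KR.t VZ.t WTF.t FIN.t (MIN.t WTF.t exp') (MAJ.t WTF.t exp') PRJ.t mj
theorem t1 : S_T1 := T1.t VZ.t WTF.t kern TEN.t
theorem fl : S_FL := FL.t CNTB.t LOC.t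
theorem sm : S_SM := SM.t fl CRT.t AV.t
theorem t2 : S_T2 := T2.t VZ.t sm TV.t
theorem sec : S_SEC := SEC.t t1 t2
theorem all : S_ALL := ALL.t VZ.t sec TV.t (LOWC.t VZ.t) LOWL.t
theorem py : S_PY := PY.t (OMV.t CNTB.t LOC.t)

end Pool.Agent.H13K.Main
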