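import Pool.Agent.H13K.StmK

/-!
# Project BH, part K, ARC: elementary lemmas
-/

set_option autoImplicit false

namespace Pool.Agent.H13K.ARC

open Finset
open Pool.Agent.H300R2.FB (pw tR)
open Pool.Agent.H13K

theorem sum_cs {E : Type} [AddCommMonoid E] (f : ℤ → E) (R : ℕ) :
    ∑ m ∈ cs R, f m = f 0 + ∑ m ∈ Ioc 0 R, (f (m : ℤ) + f (-(m : ℤ))) := by
  induction R with
  | zero => simp [cs]
  | succ R ih =>
    have h1 : cs (R + 1) = insert ((R : ℤ) + 1) (insert (-((R : ℤ) + 1)) (cs R)) := by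
      ext m
      simp only [cs, mem_Icc, mem_insert]
      push_cast
      omega
    have h2 : -((R : ℤ) + 1) ∉ cs R := by
      simp only [cs, mem_Icc]
      omega
    have h3 : (R : ℤ) + 1 ∉ insert (-((R : ℤ) + 1)) (cs R) := by
      simp only [cs, mem_Icc, mem_insert]
      omega
    rw [h1, sum_insert h3, sum_insert h2, ih, Finset.sum_Ioc_succ_top (Nat.zero_le R)]
    push_cast
    rw [← add_assoc, add_comm (f ((R : ℤ) + 1) + f (-((R : ℤ) + 1))), add_assoc]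

theorem sum_blocks0 {E : Type} [AddCommMonoid E] (F : ℕ → E) (a : ℕ → ℕ) (ha : Monotone a) (I : ℕ) :
    ∑ m ∈ Ioc (a 0) (a I), F m = ∑ i ∈ range I, ∑ m ∈ Ioc (a i) (a (i + 1)), F m := by
  induction I with
  | zero => simp
  | succ I ih =>
    rw [sum_range_succ, ← ih, Finset.sum_Ioc_consecutive F (ha (Nat.zero_le I)) (ha (Nat.le_succ I))]

theorem sum_blocks {E : Type} [AddCommMonoid E] (F : ℕ → E) (a : ℕ → ℕ) (ha : Monotone a) (I R : ℕ)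
    (hR : a I ≤ R) :
    ∑ m ∈ Ioc 0 R, F m = ∑ m ∈ Ioc 0 (a 0), F m +
      ∑ i ∈ range I, ∑ m ∈ Ioc (a i) (a (i + 1)), F m + ∑ m ∈ Ioc (a I) R, F m := by
  rw [← sum_blocks0 F a ha I, Finset.sum_Ioc_consecutive F (Nat.zero_le _) (ha (Nat.zero_le I)),
    Finset.sum_Ioc_consecutive F (Nat.zero_le _) hR]

/-- sum over the integers and integral -/
theorem sum_int (ψ : ℝ → ℂ) (Lp : ℝ) (hc : Continuous ψ) (hLp : 0 ≤ Lp)
    (hL : ∀ u v, ‖ψ u - ψ v‖ ≤ Lp * |u - v|) (a n : ℕ) :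
    ‖∑ m ∈ Ioc a (a + n), ψ m - ∫ u in (a : ℝ)..((a + n : ℕ) : ℝ), ψ u‖ ≤ n * Lp := by
  induction n with
  | zero => simp
  | succ n ih =>
    have h1 : ∫ u in (a : ℝ)..((a + (n + 1) : ℕ) : ℝ), ψ u =
        (∫ u in (a : ℝ)..((a + n : ℕ) : ℝ), ψ u) + ∫ u in ((a + n : ℕ) : ℝ)..((a + (n + 1) : ℕ) : ℝ), ψ u :=
      (intervalIntegral.integral_add_adjacent_intervals (hc.intervalIntegrable _ _)
        (hc.intervalIntegrable _ _)).symm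
    have h2 : ∑ m ∈ Ioc a (a + (n + 1)), ψ m = ∑ m ∈ Ioc a (a + n), ψ m + ψ ((a + (n + 1) : ℕ) : ℝ) := by
      rw [← add_assoc, Finset.sum_Ioc_succ_top (Nat.le_add_right a n)]
    have h3 : ψ ((a + (n + 1) : ℕ) : ℝ) = ∫ _u in ((a + n : ℕ) : ℝ)..((a + (n + 1) : ℕ) : ℝ),
        ψ ((a + (n + 1) : ℕ) : ℝ) := by
      rw [intervalIntegral.integral_const]
      push_cast
      rw [show (a : ℝ) + (n + 1) - (a + n) = 1 by ring, one_smul]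
    have h4 : ‖ψ ((a + (n + 1) : ℕ) : ℝ) - ∫ u in ((a + n : ℕ) : ℝ)..((a + (n + 1) : ℕ) : ℝ), ψ u‖ ≤ Lp := by
      conv_lhs => rw [h3]
      rw [← intervalIntegral.integral_sub (by simp) (hc.intervalIntegrable _ _)]
      have h5 := intervalIntegral.norm_integral_le_of_norm_le_const (a := ((a + n : ℕ) : ℝ))
        (b := ((a + (n + 1) : ℕ) : ℝ)) (f := fun u => ψ ((a + (n + 1) : ℕ) : ℝ) - ψ u) (C := Lp) (by
          intro u hu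
          rw [Set.uIoc_of_le (by push_cast; linarith)] at hu
          refine (hL _ _).trans ?_
          obtain ⟨hu1, hu2⟩ := hu
          push_cast at hu1 hu2 ⊢
          have h6 : |(a : ℝ) + (n + 1) - u| ≤ 1 := by
            rw [abs_le]; constructor <;> linarith
          calc Lp * |(a : ℝ) + (n + 1) - u| ≤ Lp * 1 := mul_le_mul_of_nonneg_left h6 hLp
            _ = Lp := mul_one _)
      refine h5.trans (le_of_eq ?_)
      push_cast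
      rw [show (a : ℝ) + (n + 1) - (a + n) = 1 by ring, abs_one, mul_one]
    rw [h1, h2, show ∀ x y z w : ℂ, x + y - (z + w) = (x - z) + (y - w) by intros; ring]
    refine (norm_add_le _ _).trans ((add_le_add ih h4).trans (le_of_eq ?_))
    push_cast
    ring

theorem cont_of_lip (ψ : ℝ → ℂ) (Lp : ℝ) (hLp : 0 ≤ Lp)
    (hL : ∀ u v, ‖ψ u - ψ v‖ ≤ Lp * |u - v|) : Continuous ψ := by
  have h : LipschitzWith (Real.toNNReal Lp) ψ := by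
    refine LipschitzWith.of_dist_le_mul fun x y => ?_
    rw [dist_eq_norm, Real.dist_eq, Real.coe_toNNReal _ hLp]
    exact hL x y
  exact h.continuous

/-- one interval -/
theorem one (w : ℤ → ℝ) (h2 : ∀ a, 0 ≤ w a) (h3 : ∀ a, w a ≤ 2) (Lw : ℝ)
    (h4 : ∀ a b : ℤ, |w a - w b| ≤ Lw * |(a : ℝ) - b|) (hLw : 0 ≤ Lw)
    (φ : ℤ → ℂ) (ψ : ℝ → ℂ) (D D' B err Lp : ℝ) (hD : 0 ≤ D) (hD' : D ≤ D') (s : ℤ) (hs : s = 1 ∨ s = -1)
    (hφ : ∀ m, ‖φ m‖ ≤ B) (hψ : ∀ u, ‖ψ u‖ ≤ B) (hLp : 0 ≤ Lp) (hL : ∀ u v, ‖ψ u - ψ v‖ ≤ Lp * |u - v|)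
    (he : ∀ m : ℕ, D < m → m ≤ D' → ‖φ (s * m) - ψ m‖ ≤ err) (herr : 0 ≤ err) :
    ‖∑ m ∈ Ioc ⌊D⌋₊ ⌊D'⌋₊, (w (s * m) : ℂ) * φ (s * m)‖ ≤ 2 * ‖∫ u in D..D', ψ u‖ +
      (D' - D + 1) * (Lw * (D' - D + 1) * B + 2 * err + 2 * Lp) + 4 * B := by
  have hc := cont_of_lip ψ Lp hLp hL
  have hB : 0 ≤ B := (norm_nonneg _).trans (hφ 0)
  have hab : ⌊D⌋₊ ≤ ⌊D'⌋₊ := Nat.floor_le_floor hD'
  obtain ⟨n, hn⟩ : ∃ n, ⌊D'⌋₊ = ⌊D⌋₊ + n := ⟨⌊D'⌋₊ - ⌊D⌋₊, by omega⟩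
  have f1 := Nat.floor_le hD
  have f2 := Nat.lt_floor_add_one D
  have f3 := Nat.floor_le (hD.trans hD')
  have f4 := Nat.lt_floor_add_one D'
  have hnr : (n : ℝ) ≤ D' - D + 1 := by
    have : (⌊D'⌋₊ : ℝ) = ⌊D⌋₊ + n := by exact_mod_cast hn
    linarith
  have hX : 0 ≤ D' - D + 1 := by linarith
  set w0 : ℝ := w (s * ⌊D⌋₊) with hw0
  have hs1 : |(s : ℝ)| = 1 := by
    rcases hs with h | h <;> rw [h] <;> simp
  have e1 : ∑ m ∈ Ioc ⌊D⌋₊ ⌊D'⌋₊, (w (s * m) : ℂ) * φ (s * m) =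
      ∑ m ∈ Ioc ⌊D⌋₊ ⌊D'⌋₊, (((w (s * m) - w0 : ℝ) : ℂ) * φ (s * m) + (w0 : ℂ) * (φ (s * m) - ψ m)) +
      (w0 : ℂ) * ∑ m ∈ Ioc ⌊D⌋₊ ⌊D'⌋₊, ψ m := by
    rw [mul_sum, ← sum_add_distrib]
    refine sum_congr rfl fun m _ => ?_
    push_cast
    ring
  have e2 : ‖∑ m ∈ Ioc ⌊D⌋₊ ⌊D'⌋₊, (((w (s * m) - w0 : ℝ) : ℂ) * φ (s * m) +
      (w0 : ℂ) * (φ (s * m) - ψ m))‖ ≤ (D' - D + 1) * (Lw * (D' - D + 1) * B + 2 * err) := by
    refine (norm_sum_le _ _).trans ?_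
    have h5 : ∀ m ∈ Ioc ⌊D⌋₊ ⌊D'⌋₊, ‖((w (s * m) - w0 : ℝ) : ℂ) * φ (s * m) +
        (w0 : ℂ) * (φ (s * m) - ψ m)‖ ≤ Lw * (D' - D + 1) * B + 2 * err := by
      intro m hm
      obtain ⟨hm1, hm2⟩ := mem_Ioc.1 hm
      have hm3 : D < m := (Nat.floor_lt hD).1 hm1
      have hm4 : (m : ℝ) ≤ D' := (Nat.le_floor_iff (hD.trans hD')).1 hm2
      refine (norm_add_le _ _).trans (add_le_add ?_ ?_)
      · rw [norm_mul, Complex.norm_real, Real.norm_eq_abs]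
        refine mul_le_mul ((h4 _ _).trans ?_) (hφ _) (norm_nonneg _) (mul_nonneg hLw hX)
        refine mul_le_mul_of_nonneg_left ?_ hLw
        push_cast
        rw [← mul_sub, abs_mul, hs1, one_mul, abs_le]
        constructor <;> linarith
      · rw [norm_mul, Complex.norm_real, Real.norm_eq_abs, abs_of_nonneg (h2 _)]
        exact mul_le_mul (h3 _) (he m hm3 hm4) (norm_nonneg _) (by norm_num)
    refine (sum_le_sum h5).trans ?_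
    rw [sum_const, Nat.card_Ioc, nsmul_eq_mul]
    have h6 : ((⌊D'⌋₊ - ⌊D⌋₊ : ℕ) : ℝ) ≤ D' - D + 1 := by
      rw [hn]; simpa using hnr
    exact mul_le_mul_of_nonneg_right h6 (by positivity)
  have e3 : ‖∑ m ∈ Ioc ⌊D⌋₊ ⌊D'⌋₊, ψ m‖ ≤ ‖∫ u in D..D', ψ u‖ + (D' - D + 1) * Lp + 2 * B := by
    have h5 := sum_int ψ Lp hc hLp hL ⌊D⌋₊ n
    rw [← hn] at h5
    have h6 : ∫ u in (⌊D⌋₊ : ℝ)..(⌊D'⌋₊ : ℝ), ψ u = (∫ u in (⌊D⌋₊ : ℝ)..D, ψ u) +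
        (∫ u in D..D', ψ u) - ∫ u in (⌊D'⌋₊ : ℝ)..D', ψ u := by
      rw [intervalIntegral.integral_add_adjacent_intervals (hc.intervalIntegrable _ _)
        (hc.intervalIntegrable _ _), eq_sub_iff_add_eq,
        intervalIntegral.integral_add_adjacent_intervals (hc.intervalIntegrable _ _)
        (hc.intervalIntegrable _ _)]
    have h7 : ‖∫ u in (⌊D⌋₊ : ℝ)..D, ψ u‖ ≤ B := by
      have h8 := intervalIntegral.norm_integral_le_of_norm_le_const (a := (⌊D⌋₊ : ℝ))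
        (b := D) (f := ψ) (C := B) (fun u _ => hψ u)
      refine h8.trans ?_
      rw [abs_of_nonneg (by linarith)]
      calc B * (D - ⌊D⌋₊) ≤ B * 1 := mul_le_mul_of_nonneg_left (by linarith) hB
        _ = B := mul_one _
    have h9 : ‖∫ u in (⌊D'⌋₊ : ℝ)..D', ψ u‖ ≤ B := by
      have h8 := intervalIntegral.norm_integral_le_of_norm_le_const (a := (⌊D'⌋₊ : ℝ))
        (b := D') (f := ψ) (C := B) (fun u _ => hψ u)
      refine h8.trans ?_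
      rw [abs_of_nonneg (by linarith)]
      calc B * (D' - ⌊D'⌋₊) ≤ B * 1 := mul_le_mul_of_nonneg_left (by linarith) hB
        _ = B := mul_one _
    have h10 : ∑ m ∈ Ioc ⌊D⌋₊ ⌊D'⌋₊, ψ m = (∑ m ∈ Ioc ⌊D⌋₊ ⌊D'⌋₊, ψ m -
        ∫ u in (⌊D⌋₊ : ℝ)..(⌊D'⌋₊ : ℝ), ψ u) + ((∫ u in (⌊D⌋₊ : ℝ)..D, ψ u) +
        (∫ u in D..D', ψ u) - ∫ u in (⌊D'⌋₊ : ℝ)..D', ψ u) := by
      rw [← h6]; ring
    rw [h10]
    have h11 : (n : ℝ) * Lp ≤ (D' - D + 1) * Lp := mul_le_mul_of_nonneg_right hnr hLp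
    have h12 := norm_sub_le ((∫ u in (⌊D⌋₊ : ℝ)..D, ψ u) + ∫ u in D..D', ψ u)
      (∫ u in (⌊D'⌋₊ : ℝ)..D', ψ u)
    have h13 := norm_add_le (∫ u in (⌊D⌋₊ : ℝ)..D, ψ u) (∫ u in D..D', ψ u)
    refine (norm_add_le _ _).trans ?_
    linarith
  rw [e1]
  refine (norm_add_le _ _).trans ?_
  rw [norm_mul, Complex.norm_real, Real.norm_eq_abs, abs_of_nonneg (h2 _)]
  have e4 : w0 * ‖∑ m ∈ Ioc ⌊D⌋₊ ⌊D'⌋₊, ψ m‖ ≤
      2 * (‖∫ u in D..D', ψ u‖ + (D' - D + 1) * Lp + 2 * B) :=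
    mul_le_mul (h3 _) e3 (norm_nonneg _) (by norm_num)
  nlinarith [e2, e4]

end Pool.Agent.H13K.ARC
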