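import Pool.Agent.H13K.ARC1

/-!
# Project BH, part K, ARC: the inner sum
-/

set_option autoImplicit false

namespace Pool.Agent.H13K.ARC

open Finset
open Pool.Agent.H300R2.FB (pw tR)
open Pool.Agent.H13K

theorem inner (R I : ℕ) (w : ℤ → ℝ) (h2 : ∀ a, 0 ≤ w a) (h3 : ∀ a, w a ≤ 2) (Lw : ℝ)
    (h4 : ∀ a b : ℤ, |w a - w b| ≤ Lw * |(a : ℝ) - b|) (hLw : 0 ≤ Lw)
    (D : ℕ → ℝ) (κ X : ℝ) (hκ : 0 < κ) (hD0 : 0 < D 0) (hDs : ∀ i, D (i + 1) = D i + κ * D i)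
    (hlt : ∀ i < I, D i ≤ X) (hI : D I ≤ 2 * X) (hR : 2 * X ≤ R) (hX : 0 ≤ X)
    (Tl : ℝ) (ht : ∑ m ∈ Ioc ⌊D I⌋₊ R, (w (m : ℤ) + w (-(m : ℤ))) ≤ Tl)
    (φ : ℤ → ℂ) (ψ : ℕ → ℤ → ℝ → ℂ) (B err Lp : ℝ) (hφ : ∀ m, ‖φ m‖ ≤ B)
    (hψ : ∀ i < I, ∀ s : ℤ, (s = 1 ∨ s = -1) → ∀ u, ‖ψ i s u‖ ≤ B) (hLp : 0 ≤ Lp)
    (hL : ∀ i < I, ∀ s : ℤ, (s = 1 ∨ s = -1) → ∀ u v, ‖ψ i s u - ψ i s v‖ ≤ Lp * |u - v|)
    (he : ∀ i < I, ∀ s : ℤ, (s = 1 ∨ s = -1) → ∀ m : ℕ, D i < m → m ≤ D (i + 1) →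
      ‖φ (s * m) - ψ i s m‖ ≤ err) (herr : 0 ≤ err) :
    ‖∑ m ∈ cs R, (w m : ℂ) * φ m‖ ≤
      ∑ i ∈ range I, (2 * ‖∫ u in D i..D (i + 1), ψ i 1 u‖ + 2 * ‖∫ u in D i..D (i + 1), ψ i (-1) u‖) +
      (2 * B + 4 * D 0 * B + Tl * B +
        2 * ((2 * X + I) * (Lw * (κ * X + 1) * B + 2 * err + 2 * Lp) + I * (4 * B))) := by
  have hB : 0 ≤ B := (norm_nonneg _).trans (hφ 0)
  have hpos : ∀ i, 0 < D i := by
    intro i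
    induction i with
    | zero => exact hD0
    | succ i ih => rw [hDs]; positivity
  have hmono : Monotone D := monotone_nat_of_le_succ fun i => by
    rw [hDs]
    have := hpos i
    nlinarith
  have hfl : Monotone fun i => ⌊D i⌋₊ := fun i j h => Nat.floor_le_floor (hmono h)
  have hIR : ⌊D I⌋₊ ≤ R := by
    have h := Nat.floor_le (hpos I).le
    have : (⌊D I⌋₊ : ℝ) ≤ R := by linarith
    exact_mod_cast this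
  have hnorm : ∀ m : ℤ, ‖(w m : ℂ) * φ m‖ ≤ w m * B := by
    intro m
    rw [norm_mul, Complex.norm_real, Real.norm_eq_abs, abs_of_nonneg (h2 _)]
    exact mul_le_mul_of_nonneg_left (hφ _) (h2 _)
  have hnorm2 : ∀ m : ℤ, ‖(w m : ℂ) * φ m‖ ≤ 2 * B := fun m =>
    (hnorm m).trans (mul_le_mul_of_nonneg_right (h3 _) hB)
  rw [sum_cs, sum_blocks (fun m : ℕ => (w (m : ℤ) : ℂ) * φ (m : ℤ) + (w (-(m : ℤ)) : ℂ) * φ (-(m : ℤ)))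
    (fun i => ⌊D i⌋₊) hfl I R hIR]
  -- the four parts
  have p0 := hnorm2 0
  have p1 : ‖∑ m ∈ Ioc 0 ⌊D 0⌋₊, ((w (m : ℤ) : ℂ) * φ (m : ℤ) + (w (-(m : ℤ)) : ℂ) * φ (-(m : ℤ)))‖ ≤
      4 * D 0 * B := by
    refine (norm_sum_le _ _).trans ?_
    have h5 : ∀ m ∈ Ioc 0 ⌊D 0⌋₊, ‖(w (m : ℤ) : ℂ) * φ (m : ℤ) + (w (-(m : ℤ)) : ℂ) * φ (-(m : ℤ))‖ ≤
        4 * B := fun m _ => (norm_add_le _ _).trans (by
          have := hnorm2 (m : ℤ)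
          have := hnorm2 (-(m : ℤ))
          linarith)
    refine (sum_le_sum h5).trans ?_
    rw [sum_const, Nat.card_Ioc, nsmul_eq_mul, Nat.sub_zero]
    have := Nat.floor_le hD0.le
    nlinarith
  have p3 : ‖∑ m ∈ Ioc ⌊D I⌋₊ R, ((w (m : ℤ) : ℂ) * φ (m : ℤ) + (w (-(m : ℤ)) : ℂ) * φ (-(m : ℤ)))‖ ≤
      Tl * B := by
    refine (norm_sum_le _ _).trans ?_
    have h5 : ∀ m ∈ Ioc ⌊D I⌋₊ R, ‖(w (m : ℤ) : ℂ) * φ (m : ℤ) + (w (-(m : ℤ)) : ℂ) * φ (-(m : ℤ))‖ ≤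
        (w (m : ℤ) + w (-(m : ℤ))) * B := fun m _ => (norm_add_le _ _).trans (by
          have := hnorm (m : ℤ)
          have := hnorm (-(m : ℤ))
          linarith)
    refine (sum_le_sum h5).trans ?_
    rw [← sum_mul]
    exact mul_le_mul_of_nonneg_right ht hB
  have p2 : ‖∑ i ∈ range I, ∑ m ∈ Ioc ⌊D i⌋₊ ⌊D (i + 1)⌋₊,
      ((w (m : ℤ) : ℂ) * φ (m : ℤ) + (w (-(m : ℤ)) : ℂ) * φ (-(m : ℤ)))‖ ≤
      ∑ i ∈ range I, (2 * ‖∫ u in D i..D (i + 1), ψ i 1 u‖ + 2 * ‖∫ u in D i..D (i + 1), ψ i (-1) u‖) +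
        2 * ((2 * X + I) * (Lw * (κ * X + 1) * B + 2 * err + 2 * Lp) + I * (4 * B)) := by
    refine (norm_sum_le _ _).trans ?_
    set Z : ℝ := Lw * (κ * X + 1) * B + 2 * err + 2 * Lp with hZ
    have hZ0 : 0 ≤ Z := by positivity
    have h5 : ∀ i ∈ range I, ‖∑ m ∈ Ioc ⌊D i⌋₊ ⌊D (i + 1)⌋₊,
        ((w (m : ℤ) : ℂ) * φ (m : ℤ) + (w (-(m : ℤ)) : ℂ) * φ (-(m : ℤ)))‖ ≤
        (2 * ‖∫ u in D i..D (i + 1), ψ i 1 u‖ + 2 * ‖∫ u in D i..D (i + 1), ψ i (-1) u‖) +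
        2 * ((D (i + 1) - D i + 1) * Z + 4 * B) := by
      intro i hi
      have hi' := mem_range.1 hi
      have h6 : ∀ s : ℤ, (s = 1 ∨ s = -1) → ‖∑ m ∈ Ioc ⌊D i⌋₊ ⌊D (i + 1)⌋₊,
          (w (s * m) : ℂ) * φ (s * m)‖ ≤ 2 * ‖∫ u in D i..D (i + 1), ψ i s u‖ +
          ((D (i + 1) - D i + 1) * Z + 4 * B) := by
        intro s hs
        refine (one w h2 h3 Lw h4 hLw φ (ψ i s) (D i) (D (i + 1)) B err Lp (hpos i).le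
          (hmono (Nat.le_succ i)) s hs hφ (hψ i hi' s hs) hLp (hL i hi' s hs) (he i hi' s hs) herr).trans ?_
        have h7 : D (i + 1) - D i = κ * D i := by rw [hDs]; ring
        have h8 : κ * D i ≤ κ * X := mul_le_mul_of_nonneg_left (hlt i hi') hκ.le
        have h9 : 0 ≤ κ * D i := mul_nonneg hκ.le (hpos i).le
        rw [h7, add_assoc]
        refine add_le_add le_rfl (add_le_add (mul_le_mul_of_nonneg_left ?_ (by linarith)) le_rfl)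
        rw [hZ]
        have h10 : Lw * (κ * D i + 1) * B ≤ Lw * (κ * X + 1) * B := by
          refine mul_le_mul_of_nonneg_right (mul_le_mul_of_nonneg_left (by linarith) hLw) hB
        linarith
      rw [sum_add_distrib]
      refine (norm_add_le _ _).trans ?_
      have h7 := h6 1 (Or.inl rfl)
      have h8 := h6 (-1) (Or.inr rfl)
      simp only [one_mul, neg_mul] at h7 h8
      linarith
    refine (sum_le_sum h5).trans ?_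
    rw [sum_add_distrib]
    refine add_le_add le_rfl ?_
    rw [← mul_sum, sum_add_distrib, ← sum_mul, sum_add_distrib, Finset.sum_range_sub, sum_const, sum_const,
      card_range, nsmul_eq_mul, nsmul_eq_mul, mul_one]
    refine mul_le_mul_of_nonneg_left (add_le_add (mul_le_mul_of_nonneg_right ?_ hZ0) le_rfl) (by norm_num)
    linarith
  have q1 := norm_add_le ((w 0 : ℂ) * φ 0)
    (∑ m ∈ Ioc 0 ⌊D 0⌋₊, ((w (m : ℤ) : ℂ) * φ (m : ℤ) + (w (-(m : ℤ)) : ℂ) * φ (-(m : ℤ))) +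
      ∑ i ∈ range I, ∑ m ∈ Ioc ⌊D i⌋₊ ⌊D (i + 1)⌋₊,
      ((w (m : ℤ) : ℂ) * φ (m : ℤ) + (w (-(m : ℤ)) : ℂ) * φ (-(m : ℤ))) +
      ∑ m ∈ Ioc ⌊D I⌋₊ R, ((w (m : ℤ) : ℂ) * φ (m : ℤ) + (w (-(m : ℤ)) : ℂ) * φ (-(m : ℤ))))
  have q2 := norm_add_le (∑ m ∈ Ioc 0 ⌊D 0⌋₊, ((w (m : ℤ) : ℂ) * φ (m : ℤ) +
      (w (-(m : ℤ)) : ℂ) * φ (-(m : ℤ))) +
      ∑ i ∈ range I, ∑ m ∈ Ioc ⌊D i⌋₊ ⌊D (i + 1)⌋₊,
      ((w (m : ℤ) : ℂ) * φ (m : ℤ) + (w (-(m : ℤ)) : ℂ) * φ (-(m : ℤ))))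
      (∑ m ∈ Ioc ⌊D I⌋₊ R, ((w (m : ℤ) : ℂ) * φ (m : ℤ) + (w (-(m : ℤ)) : ℂ) * φ (-(m : ℤ))))
  have q3 := norm_add_le (∑ m ∈ Ioc 0 ⌊D 0⌋₊, ((w (m : ℤ) : ℂ) * φ (m : ℤ) +
      (w (-(m : ℤ)) : ℂ) * φ (-(m : ℤ))))
      (∑ i ∈ range I, ∑ m ∈ Ioc ⌊D i⌋₊ ⌊D (i + 1)⌋₊,
      ((w (m : ℤ) : ℂ) * φ (m : ℤ) + (w (-(m : ℤ)) : ℂ) * φ (-(m : ℤ))))
  refine q1.trans ?_
  linarith

end Pool.Agent.H13K.ARC
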