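import Pool.Agent.H13K.ARC2

/-!
# Project BH, part K, ARC: freezing the coefficients
-/

set_option autoImplicit false

namespace Pool.Agent.H13K.ARC

open Finset
open Pool.Agent.H300R2.FB (pw tR)
open Pool.Agent.H13K

theorem exists_I (κ Λ A0 : ℝ) (hκ : 0 < κ) (hκ1 : κ ≤ 1) (hΛ : 1 ≤ Λ) (hA : 0 < A0) :
    ∃ I : ℕ, (∀ i < I, A0 * (1 + κ) ^ i ≤ A0 * Λ ^ 2) ∧ A0 * Λ ^ 2 ≤ A0 * (1 + κ) ^ I ∧
      A0 * (1 + κ) ^ I ≤ 2 * (A0 * Λ ^ 2) ∧ (I : ℝ) ≤ 2 * Λ / κ := by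
  classical
  have hex : ∃ n : ℕ, Λ ^ 2 ≤ (1 + κ) ^ n := by
    obtain ⟨n, hn⟩ := pow_unbounded_of_one_lt (Λ ^ 2) (by linarith : 1 < 1 + κ)
    exact ⟨n, hn.le⟩
  refine ⟨Nat.find hex, ?_, ?_, ?_, ?_⟩
  · intro i hi
    have := Nat.find_min hex hi
    push Not at this
    exact mul_le_mul_of_nonneg_left this.le hA.le
  · exact mul_le_mul_of_nonneg_left (Nat.find_spec hex) hA.le
  · rw [mul_left_comm]
    refine mul_le_mul_of_nonneg_left ?_ hA.le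
    rcases h : Nat.find hex with _ | n
    · rw [pow_zero]; nlinarith
    · have h1 := Nat.find_min hex (m := n) (by omega)
      push Not at h1
      rw [pow_succ]
      nlinarith [pow_pos (by linarith : 0 < 1 + κ) n]
  · rw [le_div_iff₀ hκ]
    rcases h : Nat.find hex with _ | n
    · simp; linarith
    · have h1 := Nat.find_min hex (m := n) (by omega)
      push Not at h1
      have h2 : 1 + (n / 2 : ℕ) * κ < Λ := by
        have h3 := one_add_mul_le_pow (by linarith : (-2 : ℝ) ≤ κ) (n / 2)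
        have h4 : ((1 + κ) ^ (n / 2)) ^ 2 ≤ (1 + κ) ^ n := by
          rw [← pow_mul]
          exact pow_le_pow_right₀ (by linarith) (by omega)
        have h5 : ((1 + κ) ^ (n / 2)) ^ 2 < Λ ^ 2 := lt_of_le_of_lt h4 h1
        have h6 : (1 + κ) ^ (n / 2) < Λ := lt_of_pow_lt_pow_left₀ 2 (by linarith) h5
        linarith
      have h3 : ((n + 1 : ℕ) : ℝ) ≤ 2 * (n / 2 : ℕ) + 2 := by
        exact_mod_cast (by omega : n + 1 ≤ 2 * (n / 2) + 2)
      nlinarith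

/-- values of the part of degree `< d` -/
def Fl {d : ℕ} (a : Fin d → ℤ) (k : ℤ) : ℤ := ∑ l : Fin d, a l * k ^ (l : ℕ)

theorem Fv_snoc {d : ℕ} (a : Fin d → ℤ) (m k : ℤ) :
    Fv (Fin.snoc (α := fun _ => ℤ) a m) k = Fl a k + m * k ^ d := by
  unfold Fv Fl
  rw [Fin.sum_univ_castSucc]
  simp

/-- the frozen coefficients -/
noncomputable def bb {n : ℕ} (a : Fin (n + 1) → ℤ) (s : ℤ) (D : ℝ) : Fin (n + 1 - 1) → ℝ :=
  fun i => (s : ℝ) * a (Fin.succ (i : Fin n)) / D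

noncomputable def cc {n : ℕ} (a : Fin (n + 1) → ℤ) (s : ℤ) (D : ℝ) : ℝ :=
  if n = 0 then (s : ℝ) * a 0 / D else 0

theorem s_sq {s : ℤ} (hs : s = 1 ∨ s = -1) : (s : ℝ) * s = 1 := by
  rcases hs with h | h <;> rw [h] <;> norm_num

theorem s_abs {s : ℤ} (hs : s = 1 ∨ s = -1) : |(s : ℝ)| = 1 := by
  rcases hs with h | h <;> rw [h] <;> norm_num

theorem freeze {n : ℕ} (a : Fin (n + 1) → ℤ) (s : ℤ) (hs : s = 1 ∨ s = -1) (D κ Y : ℝ) (m : ℕ) (k K : ℕ)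
    (hD : 0 < D) (hκ : 0 ≤ κ) (h1 : D < m) (h2 : m ≤ D + κ * D) (ha : ∀ l, |(a l : ℝ)| ≤ Y)
    (hk1 : 1 ≤ k) (hk : k ≤ K) :
    |((Fl a k + (s * m) * (k : ℤ) ^ (n + 1) : ℤ) : ℝ) -
      s * (m * pw (n + 1) (bb a s D) (k + cc a s D))| ≤
      (n + 1) * κ * Y * (K : ℝ) ^ n + (if 2 ≤ n + 1 then Y else 0) := by
  have hY : 0 ≤ Y := (abs_nonneg _).trans (ha 0)
  have hss := s_sq hs
  have hm : |1 - (m : ℝ) / D| ≤ κ := by
    rw [abs_sub_comm]
    rw [abs_of_nonneg (by rw [sub_nonneg, le_div_iff₀ hD]; linarith)]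
    rw [sub_le_iff_le_add, div_le_iff₀ hD]
    linarith
  have hK1 : (1 : ℝ) ≤ K := by exact_mod_cast hk1.trans hk
  have hkK : (k : ℝ) ≤ K := by exact_mod_cast hk
  have hk1r : (1 : ℝ) ≤ k := by exact_mod_cast hk1
  have e0 : ((Fl a k : ℤ) : ℝ) = a 0 + ∑ i : Fin n, (a i.succ : ℝ) * (k : ℝ) ^ ((i : ℕ) + 1) := by
    unfold Fl
    rw [Fin.sum_univ_succ]
    push_cast
    simp
  rcases Nat.eq_zero_or_pos n with hn | hn
  · subst hn
    have e1 : pw (0 + 1) (bb a s D) (k + cc a s D) = k + (s : ℝ) * a 0 / D := by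
      unfold pw tR cc
      simp
    rw [e1]
    push_cast
    rw [e0]
    have e2 : (a 0 : ℝ) + ∑ i : Fin 0, (a i.succ : ℝ) * (k : ℝ) ^ ((i : ℕ) + 1) +
        (s : ℝ) * m * (k : ℝ) ^ (0 + 1) - s * (m * (k + (s : ℝ) * a 0 / D)) =
        a 0 * (1 - m / D) + (1 - s * s) * (m * a 0 / D) := by
      simp
      ring
    rw [e2, hss, sub_self, zero_mul, add_zero, abs_mul]
    have h3 : |(a 0 : ℝ)| * |1 - (m : ℝ) / D| ≤ Y * κ :=
      mul_le_mul (ha 0) hm (abs_nonneg _) hY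
    simp
    linarith
  · have hc : cc a s D = 0 := by
      unfold cc
      rw [if_neg (by omega)]
    rw [hc, add_zero]
    have e1 : pw (n + 1) (bb a s D) k = (k : ℝ) ^ (n + 1) +
        ∑ i : Fin n, (s : ℝ) * a i.succ / D * (k : ℝ) ^ ((i : ℕ) + 1) := rfl
    rw [e1]
    push_cast
    rw [e0]
    have e2 : (a 0 : ℝ) + ∑ i : Fin n, (a i.succ : ℝ) * (k : ℝ) ^ ((i : ℕ) + 1) +
        (s : ℝ) * m * (k : ℝ) ^ (n + 1) - s * (m * ((k : ℝ) ^ (n + 1) +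
        ∑ i : Fin n, (s : ℝ) * a i.succ / D * (k : ℝ) ^ ((i : ℕ) + 1))) =
        a 0 + ∑ i : Fin n, (a i.succ : ℝ) * (k : ℝ) ^ ((i : ℕ) + 1) * (1 - m / D) := by
      have e3 : (s : ℝ) * (m * ∑ i : Fin n, (s : ℝ) * a i.succ / D * (k : ℝ) ^ ((i : ℕ) + 1)) =
          ∑ i : Fin n, (a i.succ : ℝ) * (k : ℝ) ^ ((i : ℕ) + 1) * (m / D) := by
        rw [mul_sum, mul_sum]
        refine sum_congr rfl fun i _ => ?_
        calc (s : ℝ) * (m * ((s : ℝ) * a i.succ / D * (k : ℝ) ^ ((i : ℕ) + 1))) =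
            (s * s) * ((a i.succ : ℝ) * (k : ℝ) ^ ((i : ℕ) + 1) * (m / D)) := by ring
          _ = _ := by rw [hss, one_mul]
      have e4 : ∑ i : Fin n, (a i.succ : ℝ) * (k : ℝ) ^ ((i : ℕ) + 1) * (1 - m / D) =
          ∑ i : Fin n, (a i.succ : ℝ) * (k : ℝ) ^ ((i : ℕ) + 1) -
          ∑ i : Fin n, (a i.succ : ℝ) * (k : ℝ) ^ ((i : ℕ) + 1) * (m / D) := by
        rw [← sum_sub_distrib]
        refine sum_congr rfl fun i _ => ?_
        ring
      rw [e4, ← e3]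
      ring
    rw [e2]
    refine (abs_add_le _ _).trans ?_
    have h4 : |∑ i : Fin n, (a i.succ : ℝ) * (k : ℝ) ^ ((i : ℕ) + 1) * (1 - m / D)| ≤
        n * (Y * (K : ℝ) ^ n * κ) := by
      refine (abs_sum_le_sum_abs _ _).trans ?_
      have h5 : ∀ i ∈ (univ : Finset (Fin n)), |(a i.succ : ℝ) * (k : ℝ) ^ ((i : ℕ) + 1) * (1 - m / D)| ≤
          Y * (K : ℝ) ^ n * κ := by
        intro i _
        rw [abs_mul, abs_mul]
        refine mul_le_mul (mul_le_mul (ha _) ?_ (abs_nonneg _) hY) hm (abs_nonneg _) (by positivity)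
        rw [abs_of_nonneg (by positivity)]
        calc (k : ℝ) ^ ((i : ℕ) + 1) ≤ (K : ℝ) ^ ((i : ℕ) + 1) := pow_le_pow_left₀ (by linarith) hkK _
          _ ≤ (K : ℝ) ^ n := pow_le_pow_right₀ hK1 (by have := i.2; omega)
      refine (sum_le_sum h5).trans ?_
      rw [sum_const, card_univ, Fintype.card_fin, nsmul_eq_mul]
    rw [if_pos (by omega)]
    have h6 := ha 0
    have h7 : 0 ≤ Y * (K : ℝ) ^ n * κ := by positivity
    nlinarith

theorem pw_bound (d : ℕ) (hd : 1 ≤ d) (b : Fin (d - 1) → ℝ) (c Y : ℝ) (k K : ℕ) (hb : ∀ i, |b i| ≤ Y)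
    (hc : |c| ≤ Y) (hc2 : 2 ≤ d → c = 0) (hY : Y ≤ k) (hk1 : 1 ≤ k) (hk : k ≤ K) :
    |pw d b (k + c)| ≤ (d + 1) * (K : ℝ) ^ d := by
  have hK1 : (1 : ℝ) ≤ K := by exact_mod_cast hk1.trans hk
  have hkK : (k : ℝ) ≤ K := by exact_mod_cast hk
  have hk1r : (1 : ℝ) ≤ k := by exact_mod_cast hk1
  unfold pw tR
  rcases Nat.lt_or_ge d 2 with h | h
  · obtain rfl : d = 1 := by omega
    have h0 : ∑ i : Fin (1 - 1), b i * ((k : ℝ) + c) ^ ((i : ℕ) + 1) = 0 :=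
      sum_eq_zero fun i _ => absurd i.2 (by simp)
    rw [h0, add_zero, pow_one, pow_one]
    refine (abs_add_le _ _).trans ?_
    rw [abs_of_nonneg (by linarith : (0 : ℝ) ≤ k)]
    push_cast
    linarith
  · rw [hc2 h, add_zero]
    refine (abs_add_le _ _).trans ?_
    have h1 : |(k : ℝ) ^ d| ≤ (K : ℝ) ^ d := by
      rw [abs_of_nonneg (by positivity)]
      exact pow_le_pow_left₀ (by linarith) hkK _
    have h2 : |∑ i : Fin (d - 1), b i * (k : ℝ) ^ ((i : ℕ) + 1)| ≤ d * (K : ℝ) ^ d := by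
      refine (abs_sum_le_sum_abs _ _).trans ?_
      have h5 : ∀ i ∈ (univ : Finset (Fin (d - 1))), |b i * (k : ℝ) ^ ((i : ℕ) + 1)| ≤ (K : ℝ) ^ d := by
        intro i _
        rw [abs_mul, abs_of_nonneg (by positivity : (0 : ℝ) ≤ (k : ℝ) ^ ((i : ℕ) + 1))]
        calc |b i| * (k : ℝ) ^ ((i : ℕ) + 1) ≤ K * (K : ℝ) ^ (d - 1) := by
              refine mul_le_mul (((hb i).trans hY).trans hkK) ?_ (by positivity) (by linarith)
              calc (k : ℝ) ^ ((i : ℕ) + 1) ≤ (K : ℝ) ^ ((i : ℕ) + 1) :=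
                    pow_le_pow_left₀ (by linarith) hkK _
                _ ≤ (K : ℝ) ^ (d - 1) := pow_le_pow_right₀ hK1 (by have := i.2; omega)
          _ = (K : ℝ) ^ d := by
              rw [← pow_succ']
              congr 1
              omega
      refine (sum_le_sum h5).trans ?_
      rw [sum_const, card_univ, Fintype.card_fin, nsmul_eq_mul]
      refine mul_le_mul_of_nonneg_right ?_ (by positivity)
      exact_mod_cast Nat.sub_le d 1
    linarith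

end Pool.Agent.H13K.ARC
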