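import Pool.Agent.H13K.ARC3

/-!
# Project BH, part K, ARC: weights and numerical estimates
-/

set_option autoImplicit false

namespace Pool.Agent.H13K.ARC

open Finset
open Pool.Agent.H300R2.FB (pw tR)
open Pool.Agent.H13K

theorem sum_pi {d : ℕ} {E : Type} [AddCommMonoid E] (S : Finset ℤ) (f : (Fin (d + 1) → ℤ) → E) :
    ∑ a ∈ Fintype.piFinset (fun _ : Fin (d + 1) => S), f a =
      ∑ a ∈ Fintype.piFinset (fun _ : Fin d => S), ∑ m ∈ S, f (Fin.snoc (α := fun _ => ℤ) a m) := by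
  rw [← sum_product']
  refine Finset.sum_nbij' (fun a => (Fin.init a, a (Fin.last d)))
    (fun p => Fin.snoc (α := fun _ => ℤ) p.1 p.2) ?_ ?_ ?_ ?_ ?_
  · intro a ha
    rw [Fintype.mem_piFinset] at ha
    rw [mem_product, Fintype.mem_piFinset]
    exact ⟨fun l => ha _, ha _⟩
  · rintro ⟨a, m⟩ h
    rw [mem_product, Fintype.mem_piFinset] at h
    rw [Fintype.mem_piFinset]
    intro l
    refine Fin.lastCases ?_ (fun l => ?_) l
    · simpa using h.2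
    · simpa using h.1 l
  · intro a _
    exact Fin.snoc_init_self a
  · rintro ⟨a, m⟩ _
    simp
  · intro a _
    rw [Fin.snoc_init_self]

theorem prod_snoc {d : ℕ} (w : ℤ → ℝ) (a : Fin d → ℤ) (m : ℤ) :
    ∏ l, w ((Fin.snoc (α := fun _ => ℤ) a m : Fin (d + 1) → ℤ) l) = (∏ l, w (a l)) * w m := by
  rw [Fin.prod_univ_castSucc]
  simp

theorem mass (d : ℕ) (S : Finset ℤ) (w : ℤ → ℝ) :
    ∑ a ∈ Fintype.piFinset (fun _ : Fin d => S), ∏ l, w (a l) = (∑ m ∈ S, w m) ^ d := by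
  have h := Finset.prod_univ_sum (fun _ : Fin d => S) (fun _ m => w m)
  rw [← h, prod_const, card_univ, Fintype.card_fin]

theorem bad_mass (d : ℕ) (S : Finset ℤ) (w : ℤ → ℝ) (hw : ∀ m, 0 ≤ w m) (A : ℕ) (Tl : ℝ)
    (hTl : ∑ m ∈ S.filter (fun m => A < m.natAbs), w m ≤ Tl) :
    ∑ a ∈ (Fintype.piFinset (fun _ : Fin d => S)).filter (fun a => ∃ l, A < (a l).natAbs), ∏ l, w (a l) ≤
      d * (Tl * (∑ m ∈ S, w m) ^ (d - 1)) := by
  classical
  have h1 : ∑ a ∈ (Fintype.piFinset (fun _ : Fin d => S)).filter (fun a => ∃ l, A < (a l).natAbs),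
      ∏ l, w (a l) ≤ ∑ a ∈ Fintype.piFinset (fun _ : Fin d => S), ∑ l : Fin d,
        (if A < (a l).natAbs then ∏ l', w (a l') else 0) := by
    rw [sum_filter]
    refine sum_le_sum fun a _ => ?_
    have h2 : ∀ l ∈ (univ : Finset (Fin d)), 0 ≤ (if A < (a l).natAbs then ∏ l', w (a l') else 0) := by
      intro l _
      split_ifs
      · exact prod_nonneg fun _ _ => hw _
      · exact le_rfl
    split_ifs with h
    · obtain ⟨l, hl⟩ := h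
      refine le_trans (le_of_eq ?_) (single_le_sum h2 (mem_univ l))
      rw [if_pos hl]
    · exact sum_nonneg h2
  refine h1.trans ?_
  rw [sum_comm]
  have h3 : ∀ l ∈ (univ : Finset (Fin d)), ∑ a ∈ Fintype.piFinset (fun _ : Fin d => S),
      (if A < (a l).natAbs then ∏ l', w (a l') else 0) ≤ Tl * (∑ m ∈ S, w m) ^ (d - 1) := by
    intro l _
    have h4 : ∀ a : Fin d → ℤ, (if A < (a l).natAbs then ∏ l', w (a l') else 0) =
        ∏ l', (if l' = l then (if A < (a l').natAbs then w (a l') else 0) else w (a l')) := by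
      intro a
      split_ifs with h
      · refine prod_congr rfl fun l' _ => ?_
        split_ifs with h5 h6
        · rfl
        · rw [h5] at h6; exact absurd h h6
        · rfl
      · refine (prod_eq_zero (mem_univ l) ?_).symm
        rw [if_pos rfl, if_neg h]
    rw [sum_congr rfl fun a _ => h4 a]
    have h5 := Finset.prod_univ_sum (fun _ : Fin d => S)
      (fun l' m => if l' = l then (if A < m.natAbs then w m else 0) else w m)
    rw [← h5, ← Finset.mul_prod_erase univ _ (mem_univ l)]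
    have h6 : ∑ j ∈ S, (if l = l then (if A < j.natAbs then w j else 0) else w j) ≤ Tl := by
      simp only [if_true]
      rw [← sum_filter]
      exact hTl
    have h7 : ∏ x ∈ univ.erase l, ∑ j ∈ S, (if x = l then (if A < j.natAbs then w j else 0) else w j) =
        (∑ m ∈ S, w m) ^ (d - 1) := by
      have h8 : ∀ x ∈ univ.erase l, ∑ j ∈ S, (if x = l then (if A < j.natAbs then w j else 0) else w j) =
          ∑ m ∈ S, w m := by
        intro x hx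
        refine sum_congr rfl fun j _ => ?_
        rw [if_neg (ne_of_mem_erase hx)]
      rw [prod_congr rfl h8, prod_const, card_erase_of_mem (mem_univ l), card_univ, Fintype.card_fin]
    rw [h7]
    exact mul_le_mul_of_nonneg_right h6 (pow_nonneg (sum_nonneg fun _ _ => hw _) _)
  refine (sum_le_sum h3).trans ?_
  rw [sum_const, card_univ, Fintype.card_fin, nsmul_eq_mul]

/-- the tail of the weights -/
theorem tail (R : ℕ) (w : ℤ → ℝ) (Q : ℝ) (hQ : 0 ≤ Q)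
    (hw : ∀ m ∈ cs R, m ≠ 0 → w m ≤ Q / (2 * (m : ℝ) ^ 2)) (a : ℕ) (ha : 1 ≤ a) (haR : a ≤ R) :
    ∑ m ∈ Ioc a R, (w (m : ℤ) + w (-(m : ℤ))) ≤ Q / a := by
  have h1 : ∀ m ∈ Ioc a R, w (m : ℤ) + w (-(m : ℤ)) ≤ Q * (((m : ℝ) ^ 2)⁻¹) := by
    intro m hm
    obtain ⟨h2, h3⟩ := mem_Ioc.1 hm
    have h4 := hw (m : ℤ) (by simp only [cs, mem_Icc]; omega) (by omega)
    have h5 := hw (-(m : ℤ)) (by simp only [cs, mem_Icc]; omega) (by omega)
    push_cast at h4 h5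
    rw [neg_sq] at h5
    have h6 : Q / (2 * (m : ℝ) ^ 2) = Q * (((m : ℝ) ^ 2)⁻¹) / 2 := by
      have hm0 : 0 < m := by omega
      have : (m : ℝ) ≠ 0 := by positivity
      field_simp
    rw [h6] at h4 h5
    linarith
  refine (sum_le_sum h1).trans ?_
  rw [← mul_sum, div_eq_mul_inv]
  refine mul_le_mul_of_nonneg_left ?_ hQ
  refine (sum_Ioc_inv_sq_le_sub (α := ℝ) (by omega) haR).trans ?_
  have : (0 : ℝ) ≤ (R : ℝ)⁻¹ := by positivity
  linarith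

theorem tail2 (R : ℕ) (w : ℤ → ℝ) (a : ℕ) (haR : a ≤ R) :
    ∑ m ∈ (cs R).filter (fun m => a < m.natAbs), w m = ∑ m ∈ Ioc a R, (w (m : ℤ) + w (-(m : ℤ))) := by
  rw [sum_filter, sum_cs]
  have h1 : (if a < (0 : ℤ).natAbs then w 0 else 0) = 0 := by
    rw [if_neg (by simp)]
  rw [h1, zero_add]
  rw [← Finset.sum_Ioc_consecutive _ (Nat.zero_le a) haR]
  have h2 : ∑ m ∈ Ioc 0 a, ((if a < ((m : ℤ)).natAbs then w (m : ℤ) else 0) +
      (if a < (-(m : ℤ)).natAbs then w (-(m : ℤ)) else 0)) = 0 := by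
    refine sum_eq_zero fun m hm => ?_
    obtain ⟨_, h3⟩ := mem_Ioc.1 hm
    rw [if_neg (by simp; omega), if_neg (by simp; omega), add_zero]
  rw [h2, zero_add]
  refine sum_congr rfl fun m hm => ?_
  obtain ⟨h3, _⟩ := mem_Ioc.1 hm
  rw [if_pos (by simp; omega), if_pos (by simp; omega)]

theorem num (n : ℕ) (H Λ κ δ G2 Kn Kd I Tl t : ℝ) (hH : 1 ≤ H) (hΛ : 1 ≤ Λ) (hκ : 0 < κ) (hκ1 : κ ≤ 1)
    (hδ : 0 ≤ δ) (hG : 0 ≤ G2) (hKn : 1 ≤ Kn) (hKd : Kn ≤ Kd) (hI0 : 0 ≤ I) (hI : I ≤ 2 * Λ / κ)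
    (ht0 : 0 ≤ t) (ht1 : t ≤ 1) (hTl : Tl ≤ 512 * H / Λ) :
    2 * G2 + 4 * (H / Λ) * G2 + Tl * G2 + 2 * ((2 * (H * Λ) + I) *
      (2 / H * (κ * (H * Λ) + 1) * G2 + 2 * (2 * G2 * δ * ((n + 1) * κ * (H * Λ) * Kn + t * (H * Λ))) +
        2 * (2 * G2 * δ * ((n + 2) * Kd))) + I * (4 * G2)) ≤
      (600 + 48 * (n + 2)) * H * G2 * (1 / Λ + κ * Λ ^ 2 + Λ ^ 2 / (κ * H) +
        δ * Λ ^ 2 * (κ * H * Kn + t * H + Kd / κ)) := by
  obtain ⟨u, hu⟩ : ∃ u, u = 1 / κ := ⟨_, rfl⟩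
  obtain ⟨h, hh⟩ : ∃ h, h = 1 / H := ⟨_, rfl⟩
  have hκu : κ * u = 1 := by rw [hu]; field_simp
  have hHh : H * h = 1 := by rw [hh]; field_simp
  have hu1 : 1 ≤ u := by rw [hu, le_div_iff₀ hκ]; linarith
  have hh0 : 0 < h := by rw [hh]; positivity
  have hh1 : h ≤ 1 := by rw [hh, div_le_one (by linarith)]; exact hH
  have hI' : I ≤ 2 * Λ * u := by rw [hu]; rw [mul_one_div]; exact hI
  have hTl' : Tl ≤ 512 * (H / Λ) := by rw [← mul_div_assoc]; exact hTl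
  set A1 := H / Λ with hA1
  have hA1p : 0 ≤ A1 := by positivity
  have hKdp : 1 ≤ Kd := hKn.trans hKd
  have e1 : H * (1 / Λ + κ * Λ ^ 2 + Λ ^ 2 / (κ * H) + δ * Λ ^ 2 * (κ * H * Kn + t * H + Kd / κ)) =
      A1 + κ * Λ ^ 2 * H + Λ ^ 2 * u + δ * Λ ^ 2 * H * (κ * H * Kn) + δ * Λ ^ 2 * H * (t * H) +
        δ * Λ ^ 2 * H * (Kd * u) := by
    rw [hA1, hu]
    field_simp
    ring
  have e2 : (2 : ℝ) / H = 2 * h := by rw [hh]; ring
  have hΛ2 : Λ ≤ Λ ^ 2 := by nlinarith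
  have hA3 : Λ ^ 2 ≤ Λ ^ 2 * u := by nlinarith [sq_nonneg Λ]
  have hA3' : 1 ≤ Λ ^ 2 * u := by nlinarith
  -- reduction to `I = 2 Λ u`
  set Y : ℝ := 2 * h * (κ * (H * Λ) + 1) + 2 * (2 * δ * ((n + 1) * κ * (H * Λ) * Kn + t * (H * Λ))) +
    2 * (2 * δ * ((n + 2) * Kd)) with hY
  have hY0 : 0 ≤ Y := by positivity
  have s1 : (2 * (H * Λ) + I) * Y ≤ (2 * (H * Λ) + 2 * Λ * u) * Y :=
    mul_le_mul_of_nonneg_right (by linarith) hY0
  -- the pieces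
  have p4 : 2 * ((2 * (H * Λ) + 2 * Λ * u) * (2 * h * (κ * (H * Λ) + 1))) ≤
      8 * (κ * Λ ^ 2 * H) + 24 * (Λ ^ 2 * u) := by
    have h1 : 2 * ((2 * (H * Λ) + 2 * Λ * u) * (2 * h * (κ * (H * Λ) + 1))) =
        8 * Λ * ((H * h) * (κ * H * Λ) + (H * h) + (κ * u) * (H * h) * Λ + h * u) := by ring
    rw [h1, hκu, hHh]
    have h2 : Λ * (h * u) ≤ Λ ^ 2 * u := by
      have : Λ * (h * u) ≤ Λ * (1 * u) :=
        mul_le_mul_of_nonneg_left (mul_le_mul_of_nonneg_right hh1 (by linarith)) (by linarith)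
      nlinarith
    nlinarith
  have q1 : δ * Λ ^ 2 * H * Kn ≤ δ * Λ ^ 2 * H * (Kd * u) := by
    refine mul_le_mul_of_nonneg_left ?_ (by positivity)
    nlinarith
  have q2 : δ * Λ ^ 2 * H * (t * u) ≤ δ * Λ ^ 2 * H * (Kd * u) := by
    refine mul_le_mul_of_nonneg_left (mul_le_mul_of_nonneg_right (by linarith) (by linarith)) (by positivity)
  have q3 : 0 ≤ δ * Λ ^ 2 * H * (κ * H * Kn) := by positivity
  have q4 : 0 ≤ δ * Λ ^ 2 * H * (t * H) := by positivity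
  have q5 : 0 ≤ δ * Λ ^ 2 * H * (Kd * u) := by positivity
  have hn0 : (0 : ℝ) ≤ n := Nat.cast_nonneg n
  have p5 : 2 * ((2 * (H * Λ) + 2 * Λ * u) *
      (2 * (2 * δ * ((n + 1) * κ * (H * Λ) * Kn + t * (H * Λ))))) ≤
      16 * (n + 2) * (δ * Λ ^ 2 * H * (κ * H * Kn) + δ * Λ ^ 2 * H * (t * H) +
        δ * Λ ^ 2 * H * (Kd * u)) := by
    have h1 : 2 * ((2 * (H * Λ) + 2 * Λ * u) *
        (2 * (2 * δ * ((n + 1) * κ * (H * Λ) * Kn + t * (H * Λ))))) =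
        16 * ((n + 1) * (δ * Λ ^ 2 * H * (κ * H * Kn)) + δ * Λ ^ 2 * H * (t * H) +
          (n + 1) * ((κ * u) * (δ * Λ ^ 2 * H * Kn)) + δ * Λ ^ 2 * H * (t * u)) := by ring
    rw [h1, hκu, one_mul]
    have h2 : ((n : ℝ) + 1) * (δ * Λ ^ 2 * H * Kn) ≤ (n + 1) * (δ * Λ ^ 2 * H * (Kd * u)) :=
      mul_le_mul_of_nonneg_left q1 (by linarith)
    have h3 : 0 ≤ (n : ℝ) * (δ * Λ ^ 2 * H * (t * H)) := mul_nonneg hn0 q4
    nlinarith
  have p6 : 2 * ((2 * (H * Λ) + 2 * Λ * u) * (2 * (2 * δ * ((n + 2) * Kd)))) ≤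
      32 * (n + 2) * (δ * Λ ^ 2 * H * (Kd * u)) := by
    have h1 : 2 * ((2 * (H * Λ) + 2 * Λ * u) * (2 * (2 * δ * ((n + 2) * Kd)))) =
        16 * (n + 2) * (δ * Λ * Kd * (H + u)) := by ring
    have h2 : H + u ≤ 2 * (H * u) := by nlinarith
    have h3 : δ * Λ * Kd * (H + u) ≤ δ * Λ * Kd * (2 * (H * u)) :=
      mul_le_mul_of_nonneg_left h2 (by positivity)
    have h4 : δ * Λ * Kd * (2 * (H * u)) ≤ 2 * (δ * Λ ^ 2 * H * (Kd * u)) := by
      have h5 : 0 ≤ δ * Kd * H * u := by positivity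
      nlinarith
    rw [h1]
    nlinarith
  have total : 2 + 4 * A1 + Tl + 2 * ((2 * (H * Λ) + I) * Y + I * 4) ≤
      (600 + 48 * (n + 2)) * (A1 + κ * Λ ^ 2 * H + Λ ^ 2 * u + δ * Λ ^ 2 * H * (κ * H * Kn) +
        δ * Λ ^ 2 * H * (t * H) + δ * Λ ^ 2 * H * (Kd * u)) := by
    have h1 : 2 * ((2 * (H * Λ) + 2 * Λ * u) * Y) = 2 * ((2 * (H * Λ) + 2 * Λ * u) *
        (2 * h * (κ * (H * Λ) + 1))) + 2 * ((2 * (H * Λ) + 2 * Λ * u) *
        (2 * (2 * δ * ((n + 1) * κ * (H * Λ) * Kn + t * (H * Λ))))) +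
        2 * ((2 * (H * Λ) + 2 * Λ * u) * (2 * (2 * δ * ((n + 2) * Kd)))) := by rw [hY]; ring
    have h2 : Λ * u ≤ Λ ^ 2 * u := mul_le_mul_of_nonneg_right hΛ2 (by linarith)
    have h3 : 0 ≤ κ * Λ ^ 2 * H := by positivity
    have h4 : 0 ≤ Λ ^ 2 * u := by positivity
    nlinarith [mul_nonneg hn0 hA1p, mul_nonneg hn0 h3, mul_nonneg hn0 h4, mul_nonneg hn0 q3,
      mul_nonneg hn0 q4, mul_nonneg hn0 q5]
  calc 2 * G2 + 4 * A1 * G2 + Tl * G2 + 2 * ((2 * (H * Λ) + I) *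
      (2 / H * (κ * (H * Λ) + 1) * G2 + 2 * (2 * G2 * δ * ((n + 1) * κ * (H * Λ) * Kn + t * (H * Λ))) +
        2 * (2 * G2 * δ * ((n + 2) * Kd))) + I * (4 * G2)) =
      (2 + 4 * A1 + Tl + 2 * ((2 * (H * Λ) + I) * Y + I * 4)) * G2 := by
        rw [hY, e2]; ring
    _ ≤ ((600 + 48 * (n + 2)) * (A1 + κ * Λ ^ 2 * H + Λ ^ 2 * u + δ * Λ ^ 2 * H * (κ * H * Kn) +
        δ * Λ ^ 2 * H * (t * H) + δ * Λ ^ 2 * H * (Kd * u))) * G2 :=
        mul_le_mul_of_nonneg_right total hG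
    _ = _ := by rw [← e1]; ring

end Pool.Agent.H13K.ARC
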