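import Pool.Agent.H300R2.FB.Defs
import Pool.Agent.H13V.StmV

/-!
# Project BH (helper13): definitions for the parts K (correlation kernel of one random polynomial), S, F
-/

set_option autoImplicit false

namespace Pool.Agent.H13K

open Finset
open Pool.Agent.H469R2.NK (e)
open Pool.Agent.H442R2.EHI (nint)
open Pool.Agent.H373R2.T7 (lamz pz Vz)

/-- a complete system of residues modulo `2 R + 1` -/
noncomputable def cs (R : ℕ) : Finset ℤ := Icc (-(R : ℤ)) R

/-- value at `k` of the polynomial with the coefficients `a 0, ..., a d` -/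
def Fv {d : ℕ} (a : Fin (d + 1) → ℤ) (k : ℤ) : ℤ := ∑ l : Fin (d + 1), a l * k ^ (l : ℕ)

/-- trigonometric polynomial with period `2 R + 1` -/
noncomputable def tr (R : ℕ) (c : ℕ → ℂ) (y : ℤ) : ℂ :=
  ∑ h ∈ range (2 * R + 1), c h * e ((h : ℝ) * y / (2 * R + 1))

/-- Fourier coefficients modulo `2 R + 1` -/
noncomputable def fc (R : ℕ) (U : ℤ → ℂ) (h : ℕ) : ℂ :=
  (∑ y ∈ cs R, U y * e (-((h : ℝ) * y / (2 * R + 1)))) / (2 * R + 1)

/-- the weights of the coefficients (Fejer kernel): `≥ 1` for `8 |a| M ≤ 2 R + 1` -/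
noncomputable def wt (R M : ℕ) (a : ℤ) : ℝ :=
  2 / (M : ℝ) ^ 2 * ‖∑ h ∈ range M, e ((a : ℝ) * h / (2 * R + 1))‖ ^ 2

/-- the Fourier transform of the weights -/
noncomputable def wh (R M : ℕ) (t : ℤ) : ℝ :=
  2 * (2 * R + 1) / (M : ℝ) ^ 2 *
    ((range M ×ˢ range M).filter (fun p : ℕ × ℕ => (2 * (R : ℤ) + 1) ∣ (p.1 : ℤ) - p.2 + t)).card

/-- the correlation of `U` and `V` at the values at `k, k'` of a random polynomial of degree `≤ d` -/
noncomputable def ker (d R M : ℕ) (U V : ℤ → ℂ) (k k' : ℕ) : ℂ :=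
  ∑ a ∈ Fintype.piFinset (fun _ : Fin (d + 1) => cs R),
    ((∏ l, wt R M (a l) : ℝ) : ℂ) * (U (Fv a k) * V (Fv a k'))

/-- the even function with period `2 R + 1` which is `u |y|` for `|y| ≤ x` and `0` for `x < |y| ≤ R` -/
noncomputable def per (R x : ℕ) (u : ℕ → ℝ) (y : ℤ) : ℂ :=
  if (Int.bmod y (2 * R + 1)).natAbs ≤ x then (u (Int.bmod y (2 * R + 1)).natAbs : ℂ) else 0

/-- trapezoid: `1` for `|j| ≤ M`, `0` for `|j| ≥ 2 M` -/
noncomputable def tz (M : ℕ) (j : ℤ) : ℝ := max 0 (min 1 (2 - |(j : ℝ)| / M))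

/-- trapezoid around `h0` modulo `2 R + 1` -/
noncomputable def chi (R M : ℕ) (h0 : ℤ) (h : ℕ) : ℝ := tz M (Int.bmod ((h : ℤ) - h0) (2 * R + 1))

/-- the kernel of de la Vallee Poussin -/
noncomputable def vp (R M : ℕ) (t : ℝ) : ℂ :=
  (∑ j ∈ Icc (-(2 * (M : ℤ))) (2 * M), (tz M j : ℂ) * e ((j : ℝ) * t / (2 * R + 1))) / (2 * R + 1)

/-- the part of the even function `u` (cut at `x`) with frequencies near `b / q`, twisted by `e (- b y / q)` -/
noncomputable def gq (R M : ℕ) (θ : ℝ) (q : ℕ) (b : ℤ) (x : ℕ) (u : ℕ → ℝ) (y : ℝ) : ℂ :=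
  ∑ n ∈ Icc (-(x : ℤ)) x, (u n.natAbs : ℂ) * e (-((b : ℝ) * n / q)) * (e (θ * (y - n)) * vp R M (y - n))

/-- indicator function of the primes -/
noncomputable def pr (n : ℕ) : ℝ := if n.Prime then 1 else 0

/-- the sieve model of the primes; `Pool.Agent.H13V.fz z n = pr n - nu z n` -/
noncomputable def nu (z n : ℕ) : ℝ := if 2 ≤ n then lamz z n / Real.log n else 0

end Pool.Agent.H13K
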