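import Pool.Agent.H13K.Fin

/-! Distinct polynomials, irreducibility (helper13). -/

set_option autoImplicit false

namespace Pool.Agent.H13K.Irr

open Finset
open scoped Polynomial
open Pool.Agent.H13K.LOWL (po eval_po coeff_po natDegree_po)

theorem eq_count {m : ℕ} (dd : Fin m → ℕ) (H : ℕ) (i j : Fin m) (hij : i ≠ j) (s : ℤ) :
    (2 * H + 1) * ((bx dd H).filter (fun a => a i 0 = s * a j 0)).card ≤ (bx dd H).card := by
  classical
  have h1 : (2 * H + 1) * ((bx dd H).filter (fun a => a i 0 = s * a j 0)).card =
      ((Icc (-(H : ℤ)) H) ×ˢ ((bx dd H).filter (fun a => a i 0 = s * a j 0))).card := by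
    rw [card_product, Int.card_Icc]
    congr 1
    omega
  rw [h1]
  apply card_le_card_of_injOn
    (fun q : ℤ × (∀ i : Fin m, Fin (dd i + 1) → ℤ) =>
      Function.update q.2 i (Function.update (q.2 i) 0 q.1))
  · intro q hq
    rw [mem_coe, mem_product, mem_filter] at hq
    rw [mem_coe]
    unfold bx at hq ⊢
    rw [Fintype.mem_piFinset] at hq ⊢
    intro k
    rw [Fintype.mem_piFinset]
    intro l
    dsimp only
    by_cases hk : k = i
    · subst hk
      rw [Function.update_self]
      by_cases hl : l = 0
      · subst hl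
        rw [Function.update_self]
        exact hq.1
      · rw [Function.update_of_ne hl]
        exact (Fintype.mem_piFinset.1 (hq.2.1 k)) l
    · rw [Function.update_of_ne hk]
      exact (Fintype.mem_piFinset.1 (hq.2.1 k)) l
  · intro q hq q' hq' heq
    rw [mem_coe, mem_product, mem_filter] at hq hq'
    dsimp only at heq
    have e1 : q.1 = q'.1 := by
      have := congrFun (congrFun heq i) 0
      rwa [Function.update_self, Function.update_self, Function.update_self, Function.update_self] at this
    have e3 : q.2 j 0 = q'.2 j 0 := by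
      have := congrFun (congrFun heq j) 0
      rwa [Function.update_of_ne hij.symm, Function.update_of_ne hij.symm] at this
    have e2 : q.2 = q'.2 := by
      funext k l
      by_cases hk : k = i
      · subst hk
        by_cases hl : l = 0
        · subst hl
          rw [hq.2.2, hq'.2.2, e3]
        · have := congrFun (congrFun heq k) l
          rwa [Function.update_self, Function.update_self, Function.update_of_ne hl,
            Function.update_of_ne hl] at this
      · have := congrFun (congrFun heq k) l
        rwa [Function.update_of_ne hk, Function.update_of_ne hk] at this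
    exact Prod.ext e1 e2

open Classical in
/-- the systems with two polynomials equal up to sign -/
theorem eq_count2 {m : ℕ} (dd : Fin m → ℕ) (H : ℕ) :
    (2 * H + 1) * ((bx dd H).filter (fun a => ∃ i j, i ≠ j ∧ (po (a i) = po (a j) ∨ po (a i) = - po (a j)))).card ≤
      2 * m ^ 2 * (bx dd H).card := by
  have hsub : (bx dd H).filter (fun a => ∃ i j, i ≠ j ∧ (po (a i) = po (a j) ∨ po (a i) = - po (a j))) ⊆
      ((univ : Finset (Fin m × Fin m)) ×ˢ ({1, -1} : Finset ℤ)).biUnion
        (fun x => if x.1.1 ≠ x.1.2 then (bx dd H).filter (fun a => a x.1.1 0 = x.2 * a x.1.2 0) else ∅) := by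
    intro a ha
    rw [mem_filter] at ha
    obtain ⟨hab, i, j, hij, h⟩ := ha
    rw [mem_biUnion]
    rcases h with h | h
    · refine ⟨((i, j), 1), ?_, ?_⟩
      · simp
      · have h1 := coeff_po (a i) 0
        have h2 := coeff_po (a j) 0
        rw [h] at h1
        dsimp only
        rw [if_pos hij, mem_filter]
        refine ⟨hab, ?_⟩
        rw [one_mul, ← h1, ← h2]
        rfl
    · refine ⟨((i, j), -1), ?_, ?_⟩
      · simp
      · have h1 := coeff_po (a i) 0
        have h2 := coeff_po (a j) 0
        rw [h] at h1
        dsimp only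
        rw [if_pos hij, mem_filter]
        refine ⟨hab, ?_⟩
        rw [← h1, ← h2, neg_one_mul, Polynomial.coeff_neg]
        rfl
  have h1 := (card_le_card hsub).trans card_biUnion_le
  have h2 : ∑ x ∈ (univ : Finset (Fin m × Fin m)) ×ˢ ({1, -1} : Finset ℤ),
      (2 * H + 1) * (if x.1.1 ≠ x.1.2 then (bx dd H).filter (fun a => a x.1.1 0 = x.2 * a x.1.2 0) else ∅).card ≤
      ∑ x ∈ (univ : Finset (Fin m × Fin m)) ×ˢ ({1, -1} : Finset ℤ), (bx dd H).card := by
    refine sum_le_sum fun x _ => ?_
    split_ifs with h
    · exact eq_count dd H _ _ h _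
    · simp
  rw [← mul_sum] at h2
  refine (Nat.mul_le_mul_left _ h1).trans (h2.trans ?_)
  rw [sum_const, card_product, smul_eq_mul]
  have : ({1, -1} : Finset ℤ).card = 2 := rfl
  rw [this, card_univ, Fintype.card_prod, Fintype.card_fin]
  apply le_of_eq
  ring

/-- many prime values and no fixed divisor give irreducibility -/
theorem irr {d : ℕ} (hd : 1 ≤ d) (f : ℤ[X]) (hf : f.natDegree = d) (hc : ∀ p : ℕ, p.Prime → ∃ n : ℤ, ¬ (p : ℤ) ∣ f.eval n)
    (S : Finset ℕ) (hS : 4 * d < S.card) (hp : ∀ n ∈ S, (f.eval (n : ℤ)).natAbs.Prime) : Irreducible f := by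
  have hf0 : f ≠ 0 := by
    rintro rfl
    simp at hf
    omega
  -- values of modulus 1 of a nonconstant polynomial
  have key : ∀ g : ℤ[X], 1 ≤ g.natDegree → (S.filter (fun n : ℕ => (g.eval (n : ℤ)).natAbs = 1)).card ≤ 2 * g.natDegree := by
    intro g hg
    have hone : ∀ c : ℤ, (S.filter (fun n : ℕ => g.eval (n : ℤ) = c)).card ≤ g.natDegree := by
      intro c
      have hp0 : g - Polynomial.C c ≠ 0 := by
        intro h0
        have h1 : g = Polynomial.C c := sub_eq_zero.1 h0
        rw [h1, Polynomial.natDegree_C] at hg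
        omega
      have hmap : ((S.filter (fun n : ℕ => g.eval (n : ℤ) = c)).map Nat.castEmbedding : Finset ℤ) ⊆
          (g - Polynomial.C c).roots.toFinset := by
        intro x hx
        rw [mem_map] at hx
        obtain ⟨n, hn, rfl⟩ := hx
        rw [mem_filter] at hn
        rw [Multiset.mem_toFinset, Polynomial.mem_roots hp0, Polynomial.IsRoot, Polynomial.eval_sub, Polynomial.eval_C]
        change g.eval (n : ℤ) - c = 0
        rw [hn.2, sub_self]
      calc (S.filter (fun n : ℕ => g.eval (n : ℤ) = c)).card
          = ((S.filter (fun n : ℕ => g.eval (n : ℤ) = c)).map Nat.castEmbedding : Finset ℤ).card := (card_map _).symm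
        _ ≤ (g - Polynomial.C c).roots.toFinset.card := card_le_card hmap
        _ ≤ Multiset.card (g - Polynomial.C c).roots := Multiset.toFinset_card_le _
        _ ≤ (g - Polynomial.C c).natDegree := Polynomial.card_roots' _
        _ = g.natDegree := Polynomial.natDegree_sub_C
    have hsub : S.filter (fun n : ℕ => (g.eval (n : ℤ)).natAbs = 1) ⊆
        S.filter (fun n : ℕ => g.eval (n : ℤ) = 1) ∪ S.filter (fun n : ℕ => g.eval (n : ℤ) = -1) := by
      intro n hn
      rw [mem_filter] at hn
      rw [mem_union, mem_filter, mem_filter]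
      rcases Int.natAbs_eq_iff.1 hn.2 with h | h
      · exact Or.inl ⟨hn.1, by simpa using h⟩
      · exact Or.inr ⟨hn.1, by simpa using h⟩
    have h1 := hone 1
    have h2 := hone (-1)
    have h3 := (card_le_card hsub).trans (card_union_le _ _)
    omega
  refine ⟨?_, ?_⟩
  · intro hu
    have := Polynomial.natDegree_eq_zero_of_isUnit hu
    omega
  · intro g h hgh
    have hg0 : g ≠ 0 := by rintro rfl; exact hf0 (by rw [hgh, zero_mul])
    have hh0 : h ≠ 0 := by rintro rfl; exact hf0 (by rw [hgh, mul_zero])
    have hdeg : g.natDegree + h.natDegree = d := by rw [← hf, hgh, Polynomial.natDegree_mul hg0 hh0]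
    -- constant factors are units
    have hconst : ∀ g h : ℤ[X], f = g * h → g.natDegree = 0 → IsUnit g := by
      intro g h hgh hg
      obtain ⟨c, rfl⟩ := Polynomial.natDegree_eq_zero.1 hg
      rw [Polynomial.isUnit_C]
      by_contra hcu
      rw [Int.isUnit_iff_natAbs_eq] at hcu
      obtain ⟨p, hpp, hpc⟩ := Nat.exists_prime_and_dvd hcu
      obtain ⟨n, hn⟩ := hc p hpp
      apply hn
      rw [hgh, Polynomial.eval_mul, Polynomial.eval_C]
      exact (Int.natCast_dvd.2 hpc).mul_right _
    by_cases hg : g.natDegree = 0
    · exact Or.inl (hconst g h hgh hg)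
    · by_cases hh : h.natDegree = 0
      · exact Or.inr (hconst h g (by rw [hgh, mul_comm]) hh)
      · exfalso
        have h1 := key g (by omega)
        have h2 := key h (by omega)
        have hsub : S ⊆ S.filter (fun n : ℕ => (g.eval (n : ℤ)).natAbs = 1) ∪ S.filter (fun n : ℕ => (h.eval (n : ℤ)).natAbs = 1) := by
          intro n hn
          rw [mem_union, mem_filter, mem_filter]
          have h3 := hp n hn
          rw [hgh, Polynomial.eval_mul, Int.natAbs_mul] at h3
          rcases Nat.prime_mul_iff.1 h3 with h4 | h4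
          · exact Or.inr ⟨hn, h4.2⟩
          · exact Or.inl ⟨hn, h4.2⟩
        have h3 := (card_le_card hsub).trans (card_union_le _ _)
        omega

end Pool.Agent.H13K.Irr
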