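import Pool.Agent.H13K.StmK
import Pool.Agent.H993R2.FB_InvFull

/-!
# Project BH, stub KR: general lemmas (helper12)
-/

set_option autoImplicit false

namespace Pool.Agent.H13K.KR

open Finset
open Pool.Agent.H469R2.NK (e norm_e e_add e_zero e_nat)
open Pool.Agent.H442R2.EHI (nint)
open Pool.Agent.H993R2.FB (nint_le_sub nint_le_abs nint_add nint_add_int dvd_of_nint)
open Pool.Agent.H13V (fz)
open Pool.Agent.H373R2.T7 (lamz pz Vz)

/-! ### The function `per` -/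

lemma per_add (R x : ℕ) (u : ℕ → ℝ) (y : ℤ) : per R x u (y + (2 * R + 1)) = per R x u y := by
  unfold per
  have h : Int.bmod (y + (2 * R + 1)) (2 * R + 1) = Int.bmod y (2 * R + 1) := by
    have := Int.add_bmod_right y (2 * R + 1)
    push_cast at this
    exact this
  rw [h]

lemma norm_per_le (R x : ℕ) (u : ℕ → ℝ) (S : ℝ) (hS : 0 ≤ S) (hu : ∀ n, |u n| ≤ S) (y : ℤ) :
    ‖per R x u y‖ ≤ S := by
  unfold per
  split_ifs with h
  · rw [Complex.norm_real, Real.norm_eq_abs]; exact hu _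
  · simpa using hS

lemma per_zero (R x : ℕ) (u : ℕ → ℝ) (y : ℤ) (hy : y ∈ cs R) (h : x < y.natAbs) : per R x u y = 0 := by
  unfold per
  have hy' := hy
  rw [cs, mem_Icc] at hy'
  have h1 : Int.bmod y (2 * R + 1) = y := by
    apply Int.bmod_eq_of_le
    · push_cast; omega
    · push_cast; omega
  rw [h1, if_neg (by omega)]

lemma sum_per_sq (R x : ℕ) (u : ℕ → ℝ) (S : ℝ) (hS : 0 ≤ S) (hu : ∀ n, |u n| ≤ S) :
    ∑ y ∈ cs R, ‖per R x u y‖ ^ 2 ≤ (2 * x + 1) * S ^ 2 := by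
  have h1 : ∑ y ∈ cs R, ‖per R x u y‖ ^ 2 ≤ ∑ y ∈ (cs R).filter (fun y => y.natAbs ≤ x), S ^ 2 := by
    rw [sum_filter]
    apply sum_le_sum
    intro y hy
    split_ifs with h
    · exact pow_le_pow_left₀ (norm_nonneg _) (norm_per_le R x u S hS hu y) 2
    · rw [per_zero R x u y hy (by omega)]; simp
  refine h1.trans ?_
  rw [sum_const, nsmul_eq_mul]
  apply mul_le_mul_of_nonneg_right _ (by positivity)
  have h2 : (cs R).filter (fun y => y.natAbs ≤ x) ⊆ Icc (-(x : ℤ)) x := by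
    intro y hy
    rw [mem_filter] at hy
    rw [mem_Icc]
    omega
  have h3 := card_le_card h2
  rw [Int.card_Icc] at h3
  have h4 : ((x : ℤ) + 1 - -(x : ℤ)).toNat = 2 * x + 1 := by omega
  rw [h4] at h3
  exact_mod_cast h3

/-! ### Linearity -/

lemma ker_add (d R M : ℕ) (U1 U2 V : ℤ → ℂ) (k k' : ℕ) :
    ker d R M (fun y => U1 y + U2 y) V k k' = ker d R M U1 V k k' + ker d R M U2 V k k' := by
  unfold ker
  rw [← sum_add_distrib]
  apply sum_congr rfl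
  intro a _
  ring

lemma ker_sum {ι : Type*} (S : Finset ι) (d R M : ℕ) (U : ι → ℤ → ℂ) (V : ℤ → ℂ) (k k' : ℕ) :
    ker d R M (fun y => ∑ i ∈ S, U i y) V k k' = ∑ i ∈ S, ker d R M (U i) V k k' := by
  unfold ker
  rw [sum_comm]
  apply sum_congr rfl
  intro a _
  rw [sum_mul, mul_sum]

lemma tr_add (R : ℕ) (c1 c2 : ℕ → ℂ) (y : ℤ) : tr R (fun h => c1 h + c2 h) y = tr R c1 y + tr R c2 y := by
  unfold tr
  rw [← sum_add_distrib]
  apply sum_congr rfl
  intro a _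
  ring

lemma tr_sum {ι : Type*} (S : Finset ι) (R : ℕ) (c : ι → ℕ → ℂ) (y : ℤ) :
    tr R (fun h => ∑ i ∈ S, c i h) y = ∑ i ∈ S, tr R (c i) y := by
  unfold tr
  rw [sum_comm]
  apply sum_congr rfl
  intro a _
  rw [sum_mul]

/-! ### The trivial bound -/

lemma ker_trivial (hW : S_WTF) (d R M : ℕ) (hM : 1 ≤ M) (hMR : M ≤ 2 * R + 1) (U V : ℤ → ℂ) (G1 G2 : ℝ)
    (hG1 : 0 ≤ G1) (hU : ∀ y, ‖U y‖ ≤ G1) (hV : ∀ y, ‖V y‖ ≤ G2) (k k' : ℕ) :
    ‖ker d R M U V k k'‖ ≤ (2 * (2 * R + 1) / M) ^ (d + 1) * (G1 * G2) := by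
  obtain ⟨w0, -, -, -, -, -, -, wsum, -, -⟩ := hW R M hM hMR
  unfold ker
  have h1 : (2 * (2 * R + 1) / M : ℝ) ^ (d + 1) =
      ∑ a ∈ Fintype.piFinset (fun _ : Fin (d + 1) => cs R), ∏ l, wt R M (a l) := by
    rw [← Finset.prod_univ_sum (fun _ : Fin (d + 1) => cs R) (fun _ a => wt R M a)]
    rw [Finset.prod_const, wsum, Finset.card_univ, Fintype.card_fin]
  rw [h1, sum_mul]
  refine (norm_sum_le _ _).trans (sum_le_sum ?_)
  intro a _
  rw [norm_mul, norm_mul, Complex.norm_real, Real.norm_eq_abs]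
  have h2 : 0 ≤ ∏ l, wt R M (a l) := prod_nonneg (fun l _ => w0 _)
  rw [abs_of_nonneg h2]
  apply mul_le_mul_of_nonneg_left _ h2
  exact mul_le_mul (hU _) (hV _) (norm_nonneg _) hG1

end Pool.Agent.H13K.KR
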