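import Pool.Agent.H13K.KR1

/-!
# Project BH, stub KR: trapezoids and fractions (helper12)
-/

set_option autoImplicit false

namespace Pool.Agent.H13K.KR

open Finset
open Pool.Agent.H469R2.NK (e norm_e e_add e_zero e_nat)
open Pool.Agent.H442R2.EHI (nint)
open Pool.Agent.H993R2.FB (nint_le_sub nint_le_abs nint_add nint_add_int dvd_of_nint)

/-! ### The trapezoids -/

lemma tz_nonneg (M : ℕ) (j : ℤ) : 0 ≤ tz M j := le_max_left _ _

lemma tz_le_one (M : ℕ) (j : ℤ) : tz M j ≤ 1 := max_le (by norm_num) (min_le_left _ _)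

lemma tz_zero (M : ℕ) (hM : 1 ≤ M) (j : ℤ) (h : 2 * (M : ℝ) ≤ |(j : ℝ)|) : tz M j = 0 := by
  unfold tz
  apply max_eq_left
  refine (min_le_right _ _).trans ?_
  have hM0 : (0 : ℝ) < M := by exact_mod_cast hM
  have : 2 ≤ |(j : ℝ)| / M := by rw [le_div_iff₀ hM0]; exact h
  linarith

lemma tz_one (M : ℕ) (hM : 1 ≤ M) (j : ℤ) (h : |(j : ℝ)| ≤ M) : tz M j = 1 := by
  unfold tz
  have hM0 : (0 : ℝ) < M := by exact_mod_cast hM
  have h1 : |(j : ℝ)| / M ≤ 1 := by rw [div_le_one hM0]; exact h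
  rw [min_eq_left (by linarith)]
  exact max_eq_right (by norm_num)

lemma chi_nonneg (R M : ℕ) (h0 : ℤ) (h : ℕ) : 0 ≤ chi R M h0 h := tz_nonneg _ _

lemma chi_le_one (R M : ℕ) (h0 : ℤ) (h : ℕ) : chi R M h0 h ≤ 1 := tz_le_one _ _

/-- if `chi` does not vanish then `h / N` is near the centre -/
lemma near_of_chi (R M : ℕ) (hM : 1 ≤ M) (h0 : ℤ) (h : ℕ) (α : ℝ) (hα : |(h0 : ℝ) - α * (2 * R + 1)| ≤ 1 / 2)
    (hc : chi R M h0 h ≠ 0) : nint ((h : ℝ) / (2 * R + 1) - α) ≤ (2 * M + 1 / 2) / (2 * R + 1) := by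
  have hN : (0 : ℝ) < 2 * R + 1 := by positivity
  unfold chi at hc
  set j := Int.bmod ((h : ℤ) - h0) (2 * R + 1) with hj
  have h1 : |(j : ℝ)| < 2 * M := by
    by_contra hcon
    exact hc (tz_zero M hM j (not_lt.1 hcon))
  obtain ⟨m, hm⟩ : ∃ m : ℤ, (h : ℤ) - h0 = j + (2 * R + 1) * m := by
    have h2 : ((2 * R + 1 : ℕ) : ℤ) ∣ ((h : ℤ) - h0) - j := by
      rw [hj]
      exact Int.dvd_self_sub_bmod
    obtain ⟨m, hm⟩ := h2
    refine ⟨m, ?_⟩
    push_cast at hm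
    linarith
  have hmR : (h : ℝ) - h0 = j + (2 * R + 1) * m := by exact_mod_cast hm
  refine (nint_le_sub _ m).trans ?_
  rw [le_div_iff₀ hN, ← abs_of_pos hN, ← abs_mul, abs_of_pos hN]
  have h3 : ((h : ℝ) / (2 * R + 1) - α - m) * (2 * R + 1) = j + (h0 - α * (2 * R + 1)) := by
    field_simp
    linarith
  rw [h3]
  refine (abs_add_le _ _).trans ?_
  linarith

/-- if `h / N` is near the centre then `chi = 1` -/
lemma chi_of_near (R M : ℕ) (hM : 1 ≤ M) (hMR : M ≤ R) (h0 : ℤ) (h : ℕ) (α δ : ℝ)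
    (hα : |(h0 : ℝ) - α * (2 * R + 1)| ≤ 1 / 2) (hδ : δ * (2 * R + 1) + 1 / 2 ≤ M)
    (hc : nint ((h : ℝ) / (2 * R + 1) - α) ≤ δ) : chi R M h0 h = 1 := by
  have hN : (0 : ℝ) < 2 * R + 1 := by positivity
  unfold nint at hc
  set m := round ((h : ℝ) / (2 * R + 1) - α) with hm
  set j : ℤ := (h : ℤ) - h0 - m * (2 * R + 1) with hj
  have h1 : |(j : ℝ)| ≤ M := by
    have h2 : (j : ℝ) = ((h : ℝ) / (2 * R + 1) - α - m) * (2 * R + 1) - (h0 - α * (2 * R + 1)) := by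
      rw [hj]
      push_cast
      field_simp
      ring
    rw [h2]
    refine (abs_sub _ _).trans ?_
    rw [abs_mul, abs_of_pos hN]
    have := mul_le_mul_of_nonneg_right hc hN.le
    linarith
  have h1' : |j| ≤ (M : ℤ) := by exact_mod_cast h1
  have h3 : Int.bmod ((h : ℤ) - h0) (2 * R + 1) = j := by
    have h4 : (h : ℤ) - h0 = j + ((2 * R + 1 : ℕ) : ℤ) * m := by
      rw [hj]; push_cast; ring
    rw [h4, Int.add_mul_bmod_self_left]
    rw [abs_le] at h1'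
    apply Int.bmod_eq_of_le
    · push_cast; omega
    · push_cast; omega
  unfold chi
  rw [h3]
  exact tz_one M hM j h1

lemma round_near (x : ℝ) : |((round x : ℤ) : ℝ) - x| ≤ 1 / 2 := by
  rw [abs_sub_comm]
  exact abs_sub_round x

/-! ### Fractions -/

/-- reduced fractions `b / q` in `[0, 1)` with `q ≤ Q` -/
noncomputable def fr (Q : ℕ) : Finset (ℕ × ℕ) :=
  ((Icc 1 Q) ×ˢ (range Q)).filter (fun p => p.2 < p.1 ∧ Nat.Coprime p.2 p.1)

lemma mem_fr {Q : ℕ} {p : ℕ × ℕ} (hp : p ∈ fr Q) : 1 ≤ p.1 ∧ p.1 ≤ Q ∧ p.2 < p.1 ∧ Nat.Coprime p.2 p.1 := by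
  rw [fr, mem_filter, mem_product, mem_Icc] at hp
  exact ⟨hp.1.1.1, hp.1.1.2, hp.2.1, hp.2.2⟩

lemma card_fr (Q : ℕ) : (fr Q).card ≤ Q * Q := by
  refine (card_filter_le _ _).trans ?_
  rw [card_product, Nat.card_Icc, card_range]
  simp

lemma nint_nonneg' (x : ℝ) : 0 ≤ nint x := abs_nonneg _

lemma nint_neg' (x : ℝ) : nint (-x) ≤ nint x := by
  refine (nint_le_sub (-x) (-round x)).trans ?_
  unfold nint
  push_cast
  rw [← abs_neg]
  apply le_of_eq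
  congr 1
  ring

/-- a reduced fraction, from any fraction -/
lemma exists_fr (Q q : ℕ) (b : ℤ) (α δ : ℝ) (hq : 1 ≤ q) (hqQ : q ≤ Q) (h : |α - (b : ℝ) / q| ≤ δ) :
    ∃ p ∈ fr Q, nint (α - (p.2 : ℝ) / p.1) ≤ δ := by
  set g := Int.gcd b q with hg
  have hg0 : 0 < g := Int.gcd_pos_of_ne_zero_right b (by omega)
  obtain ⟨q', hq'⟩ : g ∣ q := by
    have := Int.gcd_dvd_right (a := b) (b := (q : ℤ))
    exact_mod_cast this
  obtain ⟨b', hb'⟩ : (g : ℤ) ∣ b := Int.gcd_dvd_left b q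
  have hq'1 : 1 ≤ q' := by
    rcases Nat.eq_zero_or_pos q' with h0 | h0
    · rw [h0, mul_zero] at hq'; omega
    · exact h0
  have hcop : Int.gcd b' q' = 1 := by
    have h1 : Int.gcd ((g : ℤ) * b') ((g : ℤ) * q') = g * Int.gcd b' q' := by
      rw [Int.gcd_mul_left]; simp
    have h2 : Int.gcd ((g : ℤ) * b') ((g : ℤ) * q') = g := by
      rw [← hb']
      have : (g : ℤ) * q' = q := by exact_mod_cast hq'.symm
      rw [this]
    rw [h2] at h1
    exact (Nat.eq_of_mul_eq_mul_left hg0 (by omega : g * 1 = g * Int.gcd b' q')).symm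
  set r := b' % (q' : ℤ) with hr
  have hr0 : 0 ≤ r := Int.emod_nonneg _ (by omega)
  have hr1 : r < q' := Int.emod_lt_of_pos _ (by omega)
  obtain ⟨b'', hb''⟩ : ∃ n : ℕ, r = n := ⟨r.toNat, by omega⟩
  have hcop2 : Nat.Coprime b'' q' := by
    have h1 : Int.gcd r q' = 1 := by
      rw [hr, Int.gcd_emod]
      exact hcop
    rw [hb''] at h1
    exact h1
  have hq'Q : q' ≤ Q := by
    refine le_trans ?_ hqQ
    rw [hq']
    exact Nat.le_mul_of_pos_left _ hg0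
  refine ⟨(q', b''), ?_, ?_⟩
  · rw [fr, mem_filter, mem_product, mem_Icc, mem_range]
    exact ⟨⟨⟨hq'1, hq'Q⟩, by show b'' < Q; omega⟩, by show b'' < q'; omega, hcop2⟩
  · have hdiv : b' = q' * (b' / q') + r := by rw [hr]; exact (Int.mul_ediv_add_emod _ _).symm
    have hqR : (0 : ℝ) < q' := by exact_mod_cast hq'1
    have hgR : (0 : ℝ) < g := by exact_mod_cast hg0
    have h1 : (b : ℝ) / q = ((b' / (q' : ℤ) : ℤ) : ℝ) + (b'' : ℝ) / q' := by
      have hbR : (b : ℝ) = g * b' := by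
        have : ((b : ℤ) : ℝ) = ((g : ℤ) * b' : ℤ) := by rw [← hb']
        rw [this]; push_cast; rfl
      have hqR' : (q : ℝ) = g * q' := by rw [hq']; push_cast; rfl
      have hbR2 : (b' : ℝ) = q' * ((b' / (q' : ℤ) : ℤ) : ℝ) + b'' := by
        have : ((b' : ℤ) : ℝ) = ((q' * (b' / q') + b'' : ℤ) : ℝ) := by rw [← hb'', ← hdiv]
        rw [this]; push_cast; rfl
      rw [hbR, hqR']
      rw [mul_div_mul_left _ _ hgR.ne']
      rw [div_eq_iff hqR.ne', add_mul, div_mul_cancel₀ _ hqR.ne']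
      rw [hbR2]; ring
    show nint (α - (b'' : ℝ) / q') ≤ δ
    refine (nint_le_sub _ (b' / (q' : ℤ))).trans ?_
    have h2 : α - (b'' : ℝ) / q' - ((b' / (q' : ℤ) : ℤ) : ℝ) = α - (b : ℝ) / q := by
      rw [h1]; ring
    rw [h2]
    exact h

/-- different reduced fractions are far from each other -/
lemma fr_unique (Q : ℕ) (α δ : ℝ) (hδ : 2 * δ * Q ^ 2 < 1) (p p' : ℕ × ℕ) (hp : p ∈ fr Q) (hp' : p' ∈ fr Q)
    (h : nint (α - (p.2 : ℝ) / p.1) ≤ δ) (h' : nint (α - (p'.2 : ℝ) / p'.1) ≤ δ) : p = p' := by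
  obtain ⟨h1, h2, h3, h4⟩ := mem_fr hp
  obtain ⟨h1', h2', h3', h4'⟩ := mem_fr hp'
  have hδ0 : 0 ≤ δ := (nint_nonneg' _).trans h
  have hq : (0 : ℝ) < p.1 := by exact_mod_cast h1
  have hq' : (0 : ℝ) < p'.1 := by exact_mod_cast h1'
  have e1 : nint ((p'.2 : ℝ) / p'.1 - (p.2 : ℝ) / p.1) ≤ 2 * δ := by
    have e2 : (p'.2 : ℝ) / p'.1 - (p.2 : ℝ) / p.1 = (α - (p.2 : ℝ) / p.1) + -(α - (p'.2 : ℝ) / p'.1) := by ring
    rw [e2]
    refine (nint_add _ _).trans ?_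
    have := nint_neg' (α - (p'.2 : ℝ) / p'.1)
    linarith
  have e3 : (p'.2 : ℝ) / p'.1 - (p.2 : ℝ) / p.1 =
      (((p'.2 : ℤ) * p.1 - (p.2 : ℤ) * p'.1 : ℤ) : ℝ) / ((p.1 * p'.1 : ℕ) : ℝ) := by
    push_cast
    field_simp
  rw [e3] at e1
  have e4 : ((p.1 * p'.1 : ℕ) : ℤ) ∣ ((p'.2 : ℤ) * p.1 - (p.2 : ℤ) * p'.1 : ℤ) := by
    apply dvd_of_nint (Nat.mul_pos h1 h1')
    refine lt_of_le_of_lt e1 ?_
    rw [lt_div_iff₀ (by positivity)]
    refine lt_of_le_of_lt ?_ hδ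
    apply mul_le_mul_of_nonneg_left _ (by positivity)
    push_cast
    have a1 : (p.1 : ℝ) ≤ Q := by exact_mod_cast h2
    have a2 : (p'.1 : ℝ) ≤ Q := by exact_mod_cast h2'
    nlinarith
  have e5 : (p'.2 : ℤ) * p.1 - (p.2 : ℤ) * p'.1 = 0 := by
    apply Int.eq_zero_of_abs_lt_dvd e4
    push_cast
    rw [abs_lt]
    have b1 : (p'.2 : ℤ) * p.1 < p'.1 * p.1 := by
      have : (p'.2 : ℤ) < p'.1 := by exact_mod_cast h3'
      have h0 : (0 : ℤ) < p.1 := by exact_mod_cast h1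
      exact mul_lt_mul_of_pos_right this h0
    have b2 : (p.2 : ℤ) * p'.1 < p.1 * p'.1 := by
      have : (p.2 : ℤ) < p.1 := by exact_mod_cast h3
      have h0 : (0 : ℤ) < p'.1 := by exact_mod_cast h1'
      exact mul_lt_mul_of_pos_right this h0
    have b3 : (0 : ℤ) ≤ (p'.2 : ℤ) * p.1 := by positivity
    have b4 : (0 : ℤ) ≤ (p.2 : ℤ) * p'.1 := by positivity
    constructor
    · nlinarith
    · nlinarith
  have e6 : p'.2 * p.1 = p.2 * p'.1 := by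
    have : (p'.2 : ℤ) * p.1 = (p.2 : ℤ) * p'.1 := by linarith
    exact_mod_cast this
  have d1 : p.1 ∣ p'.1 := by
    have : p.1 ∣ p.2 * p'.1 := ⟨p'.2, by rw [← e6]; ring⟩
    exact (Nat.Coprime.dvd_of_dvd_mul_left (Nat.Coprime.symm h4) this)
  have d2 : p'.1 ∣ p.1 := by
    have : p'.1 ∣ p'.2 * p.1 := ⟨p.2, by rw [e6]; ring⟩
    exact (Nat.Coprime.dvd_of_dvd_mul_left (Nat.Coprime.symm h4') this)
  have e7 : p.1 = p'.1 := Nat.dvd_antisymm d1 d2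
  have e8 : p.2 = p'.2 := by
    rw [e7] at e6
    exact (Nat.eq_of_mul_eq_mul_right h1' e6).symm
  exact Prod.ext e7 e8

/-! ### Classes -/

lemma sum_classes (T : Finset ℕ) (q : ℕ) (hq : 1 ≤ q) (f : ℕ → ℕ → ℝ) :
    ∑ k ∈ T, ∑ k' ∈ T, (if (q : ℤ) ∣ (k : ℤ) - k' then f k k' else 0) =
      ∑ r ∈ range q, ∑ k ∈ T.filter (fun k => k % q = r), ∑ k' ∈ T.filter (fun k => k % q = r), f k k' := by
  have h1 : ∀ k ∈ T, k % q ∈ range q := fun k _ => mem_range.2 (Nat.mod_lt _ hq)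
  rw [← sum_fiberwise_of_maps_to h1]
  apply sum_congr rfl
  intro r _
  apply sum_congr rfl
  intro k hk
  rw [mem_filter] at hk
  rw [sum_filter]
  apply sum_congr rfl
  intro k' _
  have h2 : (q : ℤ) ∣ (k : ℤ) - k' ↔ k' % q = r := by
    rw [← hk.2]
    constructor
    · intro h
      have := (Nat.modEq_iff_dvd).2 h
      exact this
    · intro h
      exact (Nat.modEq_iff_dvd).1 h
  by_cases h : (q : ℤ) ∣ (k : ℤ) - k'
  · rw [if_pos h, if_pos (h2.1 h)]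
  · rw [if_neg h, if_neg (fun h' => h (h2.2 h'))]

end Pool.Agent.H13K.KR
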