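import Pool.Agent.H13K.KR2

/-!
# Project BH, stub KR: one major arc (helper12)
-/

set_option autoImplicit false

namespace Pool.Agent.H13K.KR

open Finset
open Pool.Agent.H469R2.NK (e norm_e e_add e_zero e_nat)
open Pool.Agent.H442R2.EHI (nint)
open Pool.Agent.H993R2.FB (nint_le_sub nint_le_abs nint_add nint_add_int dvd_of_nint)

lemma e_int (m : ℤ) : e (m : ℝ) = 1 := by
  unfold e
  have : ((2 * Real.pi * (m : ℝ) : ℝ) : ℂ) * Complex.I = m * (2 * Real.pi * Complex.I) := by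
    push_cast; ring
  rw [this]
  exact Complex.exp_int_mul_two_pi_mul_I m

lemma dvd_Fv {d : ℕ} (a : Fin (d + 1) → ℤ) (q : ℕ) (k k' : ℤ) (h : (q : ℤ) ∣ k - k') :
    (q : ℤ) ∣ Fv a k - Fv a k' := by
  unfold Fv
  rw [← sum_sub_distrib]
  apply dvd_sum
  intro l _
  rw [← mul_sub]
  exact Dvd.dvd.mul_left (h.trans (sub_dvd_pow_sub_pow _ _ _)) _

lemma major (hF : S_FIN) (hMAJ : S_MAJ) (hPRJ : S_PRJ) (d R M K1 K q M0 M1 x : ℕ) (b : ℤ) (ω δ₁ δ₂ : ℝ)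
    (u v : ℕ → ℝ) (Bd : ℝ) (hd : 1 ≤ d) (hM : 1 ≤ M) (hMR : M ≤ 2 * R + 1) (hω : (M : ℝ) ≤ ω * (2 * R + 1))
    (hq : 1 ≤ q) (hcop : IsCoprime b (q : ℤ)) (hK1 : 1 ≤ K1) (hδ₁ : (2 * M0 + 1 / 2) / (2 * R + 1) ≤ δ₁)
    (h4 : 4 * q * (K + 1) * (ω + δ₁ * (K : ℝ) ^ (d - 1)) ≤ 1) (hδ₂ : ω + δ₁ * (K : ℝ) ^ d ≤ δ₂ * (K1 : ℝ) ^ d)
    (hM0 : 1 ≤ M0) (hM0R : 2 * M0 ≤ R) (hM1 : 1 ≤ M1) (hM1R : 2 * M1 ≤ R)
    (hM1δ : δ₂ * (2 * R + 1) + 1 / 2 ≤ M1) (hxR : x ≤ R)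
    (hMJ : ∀ θ0 θ1 : ℝ, |θ0| ≤ 1 / (2 * R + 1) → |θ1| ≤ 1 / (2 * R + 1) → ∀ r : ℕ,
      ∑ k ∈ (Ioc K1 K).filter (fun k => k % q = r), ∑ k' ∈ (Ioc K1 K).filter (fun k => k % q = r),
        ‖∑ a ∈ Fintype.piFinset (fun _ : Fin (d + 1) => cs R), ((∏ l, wt R M (a l) : ℝ) : ℂ) *
          (gq R M0 θ0 q b x u (Fv a k) * gq R M1 θ1 q (-b) x v (Fv a k'))‖ ≤ Bd) :
    ∑ k ∈ Ioc K1 K, ∑ k' ∈ Ioc K1 K,
      ‖ker d R M (tr R (fun h => (chi R M0 (round ((b : ℝ) / q * (2 * R + 1))) h : ℂ) * fc R (per R x u) h))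
        (per R x v) k k'‖ ≤ q * Bd := by
  have hN : (0 : ℝ) < 2 * R + 1 := by positivity
  have hqR : (0 : ℝ) < q := by exact_mod_cast hq
  obtain ⟨h0, hh0⟩ : ∃ h0 : ℤ, h0 = round ((b : ℝ) / q * (2 * R + 1)) := ⟨_, rfl⟩
  obtain ⟨h1, hh1⟩ : ∃ h1 : ℤ, h1 = round (-((b : ℝ) / q) * (2 * R + 1)) := ⟨_, rfl⟩
  have r0 : |(h0 : ℝ) - (b : ℝ) / q * (2 * R + 1)| ≤ 1 / 2 := by rw [hh0]; exact round_near _
  have r1 : |(h1 : ℝ) - -((b : ℝ) / q) * (2 * R + 1)| ≤ 1 / 2 := by rw [hh1]; exact round_near _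
  rw [← hh0]
  obtain ⟨c, hc⟩ : ∃ c : ℕ → ℂ, c = fun h => (chi R M0 h0 h : ℂ) * fc R (per R x u) h := ⟨_, rfl⟩
  rw [← hc]
  obtain ⟨c', hc'⟩ : ∃ c' : ℕ → ℂ, c' = fc R (per R x v) := ⟨_, rfl⟩
  have hV : per R x v = tr R c' := by
    funext y
    rw [hc']
    exact ((hF R (per R x v) (per_add R x v)).1 y).symm
  rw [hV]
  have hδ₁0 : 0 ≤ δ₁ := le_trans (by positivity) hδ₁
  have hmaj := hMAJ d R M K1 K q b ω δ₁ δ₂ c c' (chi R M1 h1) hd hM hMR hω hq hcop hK1 hδ₁0 h4 hδ₂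
    (by
      intro h _ hch
      refine (near_of_chi R M0 hM0 h0 h _ r0 ?_).trans hδ₁
      intro h0'
      apply hch
      rw [hc]
      simp only
      rw [h0']
      simp)
    (by
      intro h _ hn
      apply chi_of_near R M1 hM1 (by omega) h1 h (-((b : ℝ) / q)) δ₂ r1 hM1δ
      rw [sub_neg_eq_add]
      exact hn)
  obtain ⟨θ0, hθ0⟩ : ∃ θ0 : ℝ, θ0 = (h0 : ℝ) / (2 * R + 1) - b / q := ⟨_, rfl⟩
  obtain ⟨θ1, hθ1⟩ : ∃ θ1 : ℝ, θ1 = (h1 : ℝ) / (2 * R + 1) - ((-b : ℤ) : ℝ) / q := ⟨_, rfl⟩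
  have p0 : ∀ y : ℤ, tr R c y = e ((b : ℝ) * y / q) * gq R M0 θ0 q b x u y := by
    intro y
    rw [hc, hθ0]
    exact hPRJ R M0 x q h0 b u hM0 hM0R hxR hq y
  have p1 : ∀ y : ℤ, tr R (fun h => (chi R M1 h1 h : ℂ) * c' h) y =
      e (((-b : ℤ) : ℝ) * y / q) * gq R M1 θ1 q (-b) x v y := by
    intro y
    rw [hc', hθ1]
    exact hPRJ R M1 x q h1 (-b) v hM1 hM1R hxR hq y
  obtain ⟨X, hX⟩ : ∃ X : ℕ → ℕ → ℂ, X = fun (k k' : ℕ) => ∑ a ∈ Fintype.piFinset (fun _ : Fin (d + 1) => cs R),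
      ((∏ l, wt R M (a l) : ℝ) : ℂ) *
        (gq R M0 θ0 q b x u (Fv a (k : ℤ)) * gq R M1 θ1 q (-b) x v (Fv a (k' : ℤ))) := ⟨_, rfl⟩
  have hk : ∀ k ∈ Ioc K1 K, ∀ k' ∈ Ioc K1 K, ‖ker d R M (tr R c) (tr R c') k k'‖ =
      if (q : ℤ) ∣ (k : ℤ) - k' then ‖X k k'‖ else 0 := by
    intro k hk k' hk'
    rw [hmaj k (Ioc_subset_Icc_self hk) k' (Ioc_subset_Icc_self hk')]
    split_ifs with hdv
    · congr 1
      rw [hX]
      unfold ker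
      apply sum_congr rfl
      intro a _
      rw [p0, p1]
      congr 1
      obtain ⟨w, hw⟩ := dvd_Fv a q k k' hdv
      have hwR : (Fv a k : ℝ) - (Fv a k' : ℝ) = q * w := by exact_mod_cast hw
      have h5 : e ((b : ℝ) * (Fv a k : ℤ) / q) * e (((-b : ℤ) : ℝ) * (Fv a k' : ℤ) / q) = 1 := by
        rw [← e_add]
        have : (b : ℝ) * (Fv a k : ℤ) / q + ((-b : ℤ) : ℝ) * (Fv a k' : ℤ) / q = ((b * w : ℤ) : ℝ) := by
          push_cast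
          rw [← add_div, div_eq_iff hqR.ne']
          linear_combination (b : ℝ) * hwR
        rw [this, e_int]
      linear_combination (gq R M0 θ0 q b x u (Fv a k) * gq R M1 θ1 q (-b) x v (Fv a k')) * h5
    · exact norm_zero
  rw [sum_congr rfl (fun k hk1 => sum_congr rfl (fun k' hk2 => hk k hk1 k' hk2))]
  rw [sum_classes (Ioc K1 K) q hq (fun k k' => ‖X k k'‖)]
  have hθ0' : |θ0| ≤ 1 / (2 * R + 1) := by
    rw [hθ0, le_div_iff₀ hN, ← abs_of_pos hN, ← abs_mul, abs_of_pos hN]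
    have : ((h0 : ℝ) / (2 * R + 1) - b / q) * (2 * R + 1) = (h0 : ℝ) - (b : ℝ) / q * (2 * R + 1) := by
      field_simp
    rw [this]
    linarith
  have hθ1' : |θ1| ≤ 1 / (2 * R + 1) := by
    rw [hθ1, le_div_iff₀ hN, ← abs_of_pos hN, ← abs_mul, abs_of_pos hN]
    have : ((h1 : ℝ) / (2 * R + 1) - ((-b : ℤ) : ℝ) / q) * (2 * R + 1) =
        (h1 : ℝ) - -((b : ℝ) / q) * (2 * R + 1) := by
      push_cast
      field_simp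
    rw [this]
    linarith
  calc ∑ r ∈ range q, ∑ k ∈ (Ioc K1 K).filter (fun k => k % q = r),
        ∑ k' ∈ (Ioc K1 K).filter (fun k => k % q = r), ‖X k k'‖ ≤ ∑ r ∈ range q, Bd := by
        apply sum_le_sum
        intro r _
        rw [hX]
        exact hMJ θ0 θ1 hθ0' hθ1' r
    _ = q * Bd := by rw [sum_const, card_range, nsmul_eq_mul]

end Pool.Agent.H13K.KR
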