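import Pool.Agent.H13K.KR3

/-!
# Project BH, stub KR: decomposition and bounds (helper12)
-/

set_option autoImplicit false

namespace Pool.Agent.H13K.KR

open Finset
open Pool.Agent.H469R2.NK (e norm_e e_add e_zero e_nat)
open Pool.Agent.H442R2.EHI (nint)
open Pool.Agent.H993R2.FB (nint_le_sub nint_le_abs nint_add nint_add_int dvd_of_nint inv_full)
open Pool.Agent.H13V (fz)
open Pool.Agent.H373R2.T7 (lamz pz Vz Vz_pos lamz_nonneg)

/-- the centre of the major arc of a fraction -/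
noncomputable def ctr (R : ℕ) (p : ℕ × ℕ) : ℤ := round ((((p.2 : ℕ) : ℤ) : ℝ) / ((p.1 : ℕ) : ℝ) * (2 * R + 1))

lemma ctr_near (R : ℕ) (p : ℕ × ℕ) : |((ctr R p : ℤ) : ℝ) - (p.2 : ℝ) / p.1 * (2 * R + 1)| ≤ 1 / 2 := by
  have := round_near ((((p.2 : ℕ) : ℤ) : ℝ) / ((p.1 : ℕ) : ℝ) * (2 * R + 1))
  rw [Int.cast_natCast] at this
  unfold ctr
  rw [Int.cast_natCast]
  exact this

/-- the sum of all trapezoids -/
noncomputable def sg (R M0 Q : ℕ) (h : ℕ) : ℝ := ∑ p ∈ fr Q, chi R M0 (ctr R p) h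

lemma sg_bounds (R M0 Q : ℕ) (δ₁ : ℝ) (hM0 : 1 ≤ M0) (h1 : (2 * (M0 : ℝ) + 1 / 2) / (2 * R + 1) ≤ δ₁)
    (h2 : 2 * δ₁ * (Q : ℝ) ^ 2 < 1) (h : ℕ) : 0 ≤ sg R M0 Q h ∧ sg R M0 Q h ≤ 1 ∧
      ∀ p ∈ fr Q, chi R M0 (ctr R p) h = 1 → sg R M0 Q h = 1 := by
  have key : ∀ p ∈ fr Q, ∀ p' ∈ fr Q, chi R M0 (ctr R p) h ≠ 0 → chi R M0 (ctr R p') h ≠ 0 → p = p' := by
    intro p hp p' hp' hc hc'
    apply fr_unique Q ((h : ℝ) / (2 * R + 1)) δ₁ h2 p p' hp hp'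
    · exact (near_of_chi R M0 hM0 (ctr R p) h _ (ctr_near R p) hc).trans h1
    · exact (near_of_chi R M0 hM0 (ctr R p') h _ (ctr_near R p') hc').trans h1
  have key2 : ∀ p ∈ fr Q, chi R M0 (ctr R p) h ≠ 0 → sg R M0 Q h = chi R M0 (ctr R p) h := by
    intro p hp hc
    unfold sg
    apply sum_eq_single_of_mem p hp
    intro p' hp' hne
    by_contra hc'
    exact hne (key p' hp' p hp hc' hc)
  refine ⟨sum_nonneg (fun p _ => chi_nonneg _ _ _ _), ?_, ?_⟩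
  · by_cases hex : ∃ p ∈ fr Q, chi R M0 (ctr R p) h ≠ 0
    · obtain ⟨p, hp, hc⟩ := hex
      rw [key2 p hp hc]
      exact chi_le_one _ _ _ _
    · push Not at hex
      unfold sg
      rw [sum_eq_zero hex]
      norm_num
  · intro p hp hc
    rw [key2 p hp (by rw [hc]; norm_num), hc]

/-- decomposition of the kernel -/
lemma ker_split (hF : S_FIN) (d R M M0 Q : ℕ) (U V : ℤ → ℂ) (hU : ∀ y, U (y + (2 * R + 1)) = U y) (k k' : ℕ) :
    ‖ker d R M U V k k'‖ ≤ ‖ker d R M (tr R (fun h => ((1 - sg R M0 Q h : ℝ) : ℂ) * fc R U h)) V k k'‖ +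
      ∑ p ∈ fr Q, ‖ker d R M (tr R (fun h => (chi R M0 (ctr R p) h : ℂ) * fc R U h)) V k k'‖ := by
  have h1 : U = fun y => tr R (fun h => ((1 - sg R M0 Q h : ℝ) : ℂ) * fc R U h) y +
      ∑ p ∈ fr Q, tr R (fun h => (chi R M0 (ctr R p) h : ℂ) * fc R U h) y := by
    funext y
    rw [← tr_sum, ← tr_add]
    rw [← (hF R U hU).1 y]
    congr 1
    funext h
    rw [← sum_mul, ← add_mul]
    have : ((1 - sg R M0 Q h : ℝ) : ℂ) + ∑ p ∈ fr Q, (chi R M0 (ctr R p) h : ℂ) = 1 := by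
      unfold sg
      push_cast
      ring
    rw [this, one_mul]
  have h2 : ker d R M U V k k' =
      ker d R M (tr R (fun h => ((1 - sg R M0 Q h : ℝ) : ℂ) * fc R U h)) V k k' +
      ∑ p ∈ fr Q, ker d R M (tr R (fun h => (chi R M0 (ctr R p) h : ℂ) * fc R U h)) V k k' := by
    conv_lhs => rw [h1]
    rw [ker_add, ker_sum]
  rw [h2]
  exact (norm_add_le _ _).trans (add_le_add le_rfl (norm_sum_le _ _))

/-- splitting off the small `k` -/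
lemma split_sum (K1 K : ℕ) (hK : K1 ≤ K) (F : ℕ → ℕ → ℝ) (Tr : ℝ) (hTr : 0 ≤ Tr) (hF : ∀ k k', F k k' ≤ Tr) :
    ∑ k ∈ Icc 1 K, ∑ k' ∈ Icc 1 K, F k k' ≤ 2 * K1 * K * Tr + ∑ k ∈ Ioc K1 K, ∑ k' ∈ Ioc K1 K, F k k' := by
  have hI : Icc 1 K = Ioc 0 K := rfl
  have hs : ∀ g : ℕ → ℝ, ∑ k ∈ Ioc 0 K, g k = ∑ k ∈ Ioc 0 K1, g k + ∑ k ∈ Ioc K1 K, g k :=
    fun g => (Finset.sum_Ioc_consecutive g (Nat.zero_le _) hK).symm
  rw [hI, hs]
  have h1 : ∑ k ∈ Ioc 0 K1, ∑ k' ∈ Ioc 0 K, F k k' ≤ K1 * (K * Tr) := by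
    calc ∑ k ∈ Ioc 0 K1, ∑ k' ∈ Ioc 0 K, F k k' ≤ ∑ k ∈ Ioc 0 K1, ∑ k' ∈ Ioc 0 K, Tr :=
          sum_le_sum (fun k _ => sum_le_sum (fun k' _ => hF k k'))
      _ = K1 * (K * Tr) := by simp
  have h2 : ∑ k ∈ Ioc K1 K, ∑ k' ∈ Ioc 0 K, F k k' =
      ∑ k ∈ Ioc K1 K, ∑ k' ∈ Ioc 0 K1, F k k' + ∑ k ∈ Ioc K1 K, ∑ k' ∈ Ioc K1 K, F k k' := by
    rw [← sum_add_distrib]
    exact sum_congr rfl (fun k _ => hs _)
  have h3 : ∑ k ∈ Ioc K1 K, ∑ k' ∈ Ioc 0 K1, F k k' ≤ ((K - K1 : ℕ) : ℝ) * (K1 * Tr) := by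
    calc ∑ k ∈ Ioc K1 K, ∑ k' ∈ Ioc 0 K1, F k k' ≤ ∑ k ∈ Ioc K1 K, ∑ k' ∈ Ioc 0 K1, Tr :=
          sum_le_sum (fun k _ => sum_le_sum (fun k' _ => hF k k'))
      _ = ((K - K1 : ℕ) : ℝ) * (K1 * Tr) := by
          simp only [sum_const, Nat.card_Ioc, nsmul_eq_mul, Nat.sub_zero]
  have h4 : ((K - K1 : ℕ) : ℝ) * (K1 * Tr) ≤ K * (K1 * Tr) := by
    apply mul_le_mul_of_nonneg_right
    · exact_mod_cast Nat.sub_le _ _
    · exact mul_nonneg (Nat.cast_nonneg _) hTr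
  rw [h2]
  linarith

/-- bounds of the functions -/
lemma fun_bounds (z : ℕ) (W : ℝ) (hW : 1 + 2 * (Vz z)⁻¹ ≤ W) :
    (∀ n, |fz z n| ≤ W) ∧ (∀ n, |pr n| ≤ W) ∧ (∀ n, |nu z n| ≤ W) := by
  have hV : 0 < (Vz z)⁻¹ := inv_pos.2 (Vz_pos z)
  have h1 : ∀ n, 0 ≤ pr n ∧ pr n ≤ 1 := by
    intro n
    unfold pr
    split_ifs <;> norm_num
  have h2 : ∀ n, 0 ≤ nu z n ∧ nu z n ≤ 2 * (Vz z)⁻¹ := by
    intro n
    unfold nu
    split_ifs with hn
    · have hn2 : Real.log 2 ≤ Real.log n := Real.log_le_log (by norm_num) (by exact_mod_cast hn)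
      have hl : 1 / 2 < Real.log n := by
        have := Real.log_two_gt_d9
        linarith
      have hlam : lamz z n ≤ (Vz z)⁻¹ := by
        unfold lamz
        split_ifs
        · exact le_rfl
        · exact hV.le
      constructor
      · exact div_nonneg (lamz_nonneg z n) (by linarith)
      · rw [div_le_iff₀ (by linarith)]
        nlinarith
    · exact ⟨le_rfl, by positivity⟩
  refine ⟨?_, ?_, ?_⟩
  · intro n
    have : fz z n = pr n - nu z n := rfl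
    rw [this, abs_le]
    have a1 := h1 n
    have a2 := h2 n
    constructor <;> linarith
  · intro n
    rw [abs_of_nonneg (h1 n).1]
    have := (h1 n).2
    linarith
  · intro n
    rw [abs_of_nonneg (h2 n).1]
    have := (h2 n).2
    linarith

lemma log_small (a : ℝ) : ∃ L2 : ℝ, ∀ L : ℝ, L2 ≤ L → 1 + a * Real.log L ≤ L := by
  have h := Real.isLittleO_log_id_atTop.bound (show (0 : ℝ) < 1 / (2 * (|a| + 1)) by positivity)
  obtain ⟨L2, hL2⟩ := Filter.eventually_atTop.1 h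
  refine ⟨max L2 2, fun L hL => ?_⟩
  have h1 := hL2 L ((le_max_left _ _).trans hL)
  have h2 : 2 ≤ L := (le_max_right _ _).trans hL
  rw [Real.norm_eq_abs, Real.norm_eq_abs, id, abs_of_nonneg (Real.log_nonneg (by linarith)),
    abs_of_pos (by linarith : 0 < L)] at h1
  have hlog : 0 ≤ Real.log L := Real.log_nonneg (by linarith)
  have h3 : a * Real.log L ≤ (|a| + 1) * Real.log L :=
    mul_le_mul_of_nonneg_right (by linarith [le_abs_self a]) hlog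
  have h4 : (|a| + 1) * Real.log L ≤ (|a| + 1) * (1 / (2 * (|a| + 1)) * L) :=
    mul_le_mul_of_nonneg_left h1 (by positivity)
  have h5 : (|a| + 1) * (1 / (2 * (|a| + 1)) * L) = L / 2 := by field_simp
  linarith

end Pool.Agent.H13K.KR
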