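import Pool.Agent.H13K.KR4

/-!
# Project BH, stub KR: the minor arcs (helper12)
-/

set_option autoImplicit false

namespace Pool.Agent.H13K.KR

open Finset
open Pool.Agent.H469R2.NK (e norm_e e_add e_zero e_nat)
open Pool.Agent.H442R2.EHI (nint)
open Pool.Agent.H993R2.FB (nint_le_sub nint_le_abs nint_add nint_add_int dvd_of_nint inv_full)

lemma sum_fc (hF : S_FIN) (R x : ℕ) (u : ℕ → ℝ) (S : ℝ) (hS : 0 ≤ S) (hu : ∀ n, |u n| ≤ S) :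
    ∑ h ∈ range (2 * R + 1), ‖fc R (per R x u) h‖ ^ 2 ≤ (2 * x + 1) * S ^ 2 / (2 * R + 1) := by
  rw [(hF R (per R x u) (per_add R x u)).2]
  exact div_le_div_of_nonneg_right (sum_per_sq R x u S hS hu) (by positivity)

open Classical in
lemma minor (hF : S_FIN) (hMIN : S_MIN) (d R M H K1 K M0 Q x : ℕ) (u v : ℕ → ℝ) (S δ δ₁ Rq Θ : ℝ)
    (hd : 1 ≤ d) (hM : 1 ≤ M) (hH : 1 ≤ H) (hHM : 8 * H * M ≤ 2 * R + 1) (hHM2 : 2 * R + 1 ≤ 16 * H * M)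
    (hK1 : 1 ≤ K1) (hK1K : K1 ≤ K) (hKH : K ≤ H) (hS : 0 ≤ S) (hu : ∀ n, |u n| ≤ S) (hv : ∀ n, |v n| ≤ S)
    (hx : x = (d + 1) * H * K ^ d) (hxR : x ≤ R) (hΘ : (K : ℝ) ^ d ≤ (K1 : ℝ) ^ d * Θ) (hΘ1 : 1 ≤ Θ)
    (hM0 : 1 ≤ M0) (hM0R : M0 ≤ R) (h1 : (2 * (M0 : ℝ) + 1 / 2) / (2 * R + 1) ≤ δ₁)
    (h2 : 2 * δ₁ * (Q : ℝ) ^ 2 < 1) (hRq : 0 ≤ Rq) (hδ : δ * (2 * R + 1) + 1 / 2 ≤ M0)
    (hinv : ∀ α : ℝ, Rq ^ 2 < (((Ioc K1 K ×ˢ Ioc K1 K).filter (fun kk : ℕ × ℕ =>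
      ∃ β : ℝ, (∀ l < d, nint (α * (kk.1 : ℝ) ^ l - β * (kk.2 : ℝ) ^ l) ≤ 1 / (2 * ((4 * H : ℕ) : ℝ))) ∧
        nint (α * (kk.1 : ℝ) ^ d - β * (kk.2 : ℝ) ^ d) ≤ 1 / (2 * ((4 * H : ℕ) : ℝ)))).card : ℝ) →
      ∃ p ∈ fr Q, nint (α - (p.2 : ℝ) / p.1) ≤ δ) :
    ∑ k ∈ Ioc K1 K, ∑ k' ∈ Ioc K1 K,
      ‖ker d R M (tr R (fun h => ((1 - sg R M0 Q h : ℝ) : ℂ) * fc R (per R x u) h)) (per R x v) k k'‖ ≤
    (32 * H) ^ (d + 1) * ((2 * d + 4) * Θ * S ^ 2) * Rq * K := by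
  have hN : (0 : ℝ) < 2 * R + 1 := by positivity
  obtain ⟨cm, hcm⟩ : ∃ cm : ℕ → ℂ, cm = fun h => ((1 - sg R M0 Q h : ℝ) : ℂ) * fc R (per R x u) h := ⟨_, rfl⟩
  rw [← hcm]
  obtain ⟨c', hc'⟩ : ∃ c' : ℕ → ℂ, c' = fc R (per R x v) := ⟨_, rfl⟩
  have hV : per R x v = tr R c' := by
    funext y
    rw [hc']
    exact ((hF R (per R x v) (per_add R x v)).1 y).symm
  rw [hV]
  have hcm_le : ∀ h, ‖cm h‖ ≤ ‖fc R (per R x u) h‖ := by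
    intro h
    obtain ⟨s1, s2, -⟩ := sg_bounds R M0 Q δ₁ hM0 h1 h2 h
    rw [hcm]
    simp only
    rw [norm_mul, Complex.norm_real, Real.norm_eq_abs, abs_of_nonneg (by linarith)]
    exact mul_le_of_le_one_left (norm_nonneg _) (by linarith)
  have hmin := hMIN d R M (4 * H) K1 K (Ioc K1 K) cm c' (Rq ^ 2) hd hM hK1 (by omega)
    (by calc 2 * (4 * H) * M = 8 * H * M := by ring
          _ ≤ 2 * R + 1 := hHM) Ioc_subset_Icc_self (by positivity)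
    (by
      intro h _ hch
      by_contra hcon
      rw [not_le] at hcon
      obtain ⟨p, hp, hpn⟩ := hinv ((h : ℝ) / (2 * R + 1)) hcon
      have h3 : chi R M0 (ctr R p) h = 1 :=
        chi_of_near R M0 hM0 hM0R (ctr R p) h _ δ (ctr_near R p) hδ hpn
      obtain ⟨-, -, s3⟩ := sg_bounds R M0 Q δ₁ hM0 h1 h2 h
      apply hch
      rw [hcm]
      simp only
      rw [s3 p hp h3]
      simp)
  refine hmin.trans ?_
  have a1 : (2 * (2 * (R : ℝ) + 1) / M) ≤ 32 * H := by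
    have hM' : (0 : ℝ) < M := by exact_mod_cast hM
    rw [div_le_iff₀ hM']
    have : ((2 * R + 1 : ℕ) : ℝ) ≤ ((16 * H * M : ℕ) : ℝ) := by exact_mod_cast hHM2
    push_cast at this
    linarith
  have a2 : (2 * (2 * (R : ℝ) + 1) / M) ^ (d + 1) ≤ (32 * H) ^ (d + 1) :=
    pow_le_pow_left₀ (by positivity) a1 _
  have a3 : √(Rq ^ 2) = Rq := Real.sqrt_sq hRq
  have a4 : ((Ioc K1 K).card : ℝ) ≤ K := by
    rw [Nat.card_Ioc]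
    exact_mod_cast Nat.sub_le _ _
  obtain ⟨S0, hS0⟩ : ∃ S0 : ℝ, S0 = (2 * x + 1) * S ^ 2 / (2 * R + 1) := ⟨_, rfl⟩
  have hS00 : 0 ≤ S0 := by rw [hS0]; positivity
  have a5 : √(∑ h ∈ range (2 * R + 1), ‖cm h‖ ^ 2) ≤ √S0 := by
    apply Real.sqrt_le_sqrt
    rw [hS0]
    refine le_trans ?_ (sum_fc hF R x u S hS hu)
    exact sum_le_sum (fun h _ => pow_le_pow_left₀ (norm_nonneg _) (hcm_le h) 2)
  have a6 : √(∑ h ∈ range (2 * R + 1), ‖c' h‖ ^ 2) ≤ √S0 := by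
    apply Real.sqrt_le_sqrt
    rw [hS0, hc']
    exact sum_fc hF R x v S hS hv
  have a7 : √(∑ h ∈ range (2 * R + 1), ‖cm h‖ ^ 2) * √(∑ h ∈ range (2 * R + 1), ‖c' h‖ ^ 2) ≤ S0 := by
    calc _ ≤ √S0 * √S0 := mul_le_mul a5 a6 (Real.sqrt_nonneg _) (Real.sqrt_nonneg _)
      _ = S0 := Real.mul_self_sqrt hS00
  have hK1R : (1 : ℝ) ≤ K1 := by exact_mod_cast hK1
  have hKR : (1 : ℝ) ≤ K := by exact_mod_cast hK1.trans hK1K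
  have hHR : (1 : ℝ) ≤ H := by exact_mod_cast hH
  have hK1d : (0 : ℝ) < (K1 : ℝ) ^ d := by positivity
  have hKd : (1 : ℝ) ≤ (K : ℝ) ^ d := one_le_pow₀ hKR
  obtain ⟨Y, hY⟩ : ∃ Y : ℝ, Y = (4 * (2 * (R : ℝ) + 1) / (((4 * H : ℕ) : ℝ) * (K1 : ℝ) ^ d) + 1) := ⟨_, rfl⟩
  have hY0 : 0 ≤ Y := by rw [hY]; positivity
  have a8 : Y * S0 ≤ (2 * d + 4) * Θ * S ^ 2 := by
    have b1 : Y = (2 * (R : ℝ) + 1) / (H * (K1 : ℝ) ^ d) + 1 := by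
      rw [hY]
      push_cast
      have hH0 : (0 : ℝ) < H := by linarith
      rw [mul_assoc 4 (H : ℝ), mul_div_mul_left _ _ (by norm_num : (4 : ℝ) ≠ 0)]
    have b2 : Y * S0 = ((2 * x + 1) / (H * (K1 : ℝ) ^ d) + (2 * x + 1) / (2 * R + 1)) * S ^ 2 := by
      rw [b1, hS0]
      have hH0 : (H : ℝ) ≠ 0 := by linarith
      field_simp
    rw [b2]
    apply mul_le_mul_of_nonneg_right _ (by positivity)
    have hxr : (x : ℝ) = (d + 1) * H * (K : ℝ) ^ d := by rw [hx]; push_cast; ring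
    have b3 : (2 * (x : ℝ) + 1) / (H * (K1 : ℝ) ^ d) ≤ (2 * d + 3) * Θ := by
      rw [div_le_iff₀ (by positivity), hxr]
      have c1 : 1 ≤ (H : ℝ) * (K : ℝ) ^ d := one_le_mul_of_one_le_of_one_le hHR hKd
      have c2 : 2 * (((d : ℝ) + 1) * H * (K : ℝ) ^ d) + 1 ≤ (2 * d + 3) * (H * (K : ℝ) ^ d) := by
        have : (2 * (d : ℝ) + 3) * (H * (K : ℝ) ^ d) =
          2 * (((d : ℝ) + 1) * H * (K : ℝ) ^ d) + H * (K : ℝ) ^ d := by ring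
        rw [this]
        linarith
      refine c2.trans ?_
      have c3 : (H : ℝ) * (K : ℝ) ^ d ≤ H * ((K1 : ℝ) ^ d * Θ) := mul_le_mul_of_nonneg_left hΘ (by linarith)
      have c4 := mul_le_mul_of_nonneg_left c3 (by positivity : (0 : ℝ) ≤ 2 * d + 3)
      linarith
    have b4 : (2 * (x : ℝ) + 1) / (2 * R + 1) ≤ 1 := by
      rw [div_le_one hN]
      have : (x : ℝ) ≤ R := by exact_mod_cast hxR
      linarith
    have b5 : (2 * (d : ℝ) + 4) * Θ = (2 * d + 3) * Θ + Θ := by ring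
    rw [b5]
    linarith
  rw [← hY, a3]
  have e1 : (2 * (2 * (R : ℝ) + 1) / M) ^ (d + 1) * Y * Rq * ((Ioc K1 K).card : ℝ) *
      (√(∑ h ∈ range (2 * R + 1), ‖cm h‖ ^ 2) * √(∑ h ∈ range (2 * R + 1), ‖c' h‖ ^ 2)) ≤
      (32 * H) ^ (d + 1) * Y * Rq * K * S0 := by
    have n1 : (0 : ℝ) ≤ (32 * H) ^ (d + 1) := pow_nonneg (by linarith) _
    have n2 : (0 : ℝ) ≤ (32 * H) ^ (d + 1) * Y * Rq := mul_nonneg (mul_nonneg n1 hY0) hRq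
    have n3 : (0 : ℝ) ≤ K := by linarith
    apply mul_le_mul _ a7 (mul_nonneg (Real.sqrt_nonneg _) (Real.sqrt_nonneg _)) (mul_nonneg n2 n3)
    apply mul_le_mul _ a4 (Nat.cast_nonneg _) n2
    apply mul_le_mul_of_nonneg_right _ hRq
    exact mul_le_mul_of_nonneg_right a2 hY0
  refine e1.trans ?_
  have e2 : (32 * (H : ℝ)) ^ (d + 1) * Y * Rq * K * S0 = (32 * H) ^ (d + 1) * Rq * K * (Y * S0) := by ring
  have e3 : (32 * (H : ℝ)) ^ (d + 1) * ((2 * d + 4) * Θ * S ^ 2) * Rq * K =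
      (32 * H) ^ (d + 1) * Rq * K * ((2 * d + 4) * Θ * S ^ 2) := by ring
  rw [e2, e3]
  exact mul_le_mul_of_nonneg_left a8 (by positivity)

end Pool.Agent.H13K.KR
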