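import Pool.Agent.H13K.KR5

/-!
# Project BH, stub KR: parameters (helper12)
-/

set_option autoImplicit false

namespace Pool.Agent.H13K.KR

open Finset

lemma p_K1 (L : ℝ) (K K1 w : ℕ) (hL : 1 ≤ L) (hK : L ^ w ≤ K) (hK1 : K1 = ⌈(K : ℝ) / L ^ w⌉₊) :
    1 ≤ K1 ∧ K1 ≤ K ∧ (K : ℝ) ≤ K1 * L ^ w ∧ (K1 : ℝ) ≤ 2 * K / L ^ w := by
  have hLw : (1 : ℝ) ≤ L ^ w := one_le_pow₀ hL
  have hLw0 : (0 : ℝ) < L ^ w := by linarith
  have hK0 : (0 : ℝ) < K := by linarith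
  have h1 : 1 ≤ (K : ℝ) / L ^ w := by rw [le_div_iff₀ hLw0]; linarith
  refine ⟨?_, ?_, ?_, ?_⟩
  · rw [hK1]
    exact Nat.one_le_ceil_iff.2 (by linarith)
  · rw [hK1]
    apply Nat.ceil_le.2
    rw [div_le_iff₀ hLw0]
    nlinarith
  · have := Nat.le_ceil ((K : ℝ) / L ^ w)
    rw [← hK1, div_le_iff₀ hLw0] at this
    exact this
  · have h2 : (K1 : ℝ) < (K : ℝ) / L ^ w + 1 := by
      rw [hK1]
      exact Nat.ceil_lt_add_one (by positivity)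
    have h3 : 2 * (K : ℝ) / L ^ w = (K : ℝ) / L ^ w + (K : ℝ) / L ^ w := by ring
    rw [h3]
    linarith

lemma p_RM (L : ℝ) (d H K x R M w W : ℕ) (hL : 100 ≤ L) (hw : 1 ≤ w) (hH : 1 ≤ H) (hK : 1 ≤ K)
    (hx : x = (d + 1) * H * K ^ d) (hW : W = ⌈L ^ w⌉₊) (hR : R = x * W) (hM : M = (2 * R + 1) / (8 * H)) :
    H ≤ x ∧ x ≤ R ∧ (x : ℝ) * L ^ w ≤ R ∧ (R : ℝ) ≤ x * L ^ (w + 1) ∧ 1 ≤ M ∧ 8 * H * M ≤ 2 * R + 1 ∧
      2 * R + 1 ≤ 16 * H * M ∧ M ≤ 2 * R + 1 ∧ 100 * H ≤ R := by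
  have hLw : L ≤ L ^ w := by
    calc L = L ^ 1 := (pow_one L).symm
      _ ≤ L ^ w := pow_le_pow_right₀ (by linarith) hw
  have hW1 : L ^ w ≤ W := by rw [hW]; exact Nat.le_ceil _
  have hW2 : (W : ℝ) ≤ L ^ w + 1 := by
    rw [hW]
    exact (Nat.ceil_lt_add_one (by positivity)).le
  have hW3 : 100 ≤ W := by
    have : (100 : ℝ) ≤ W := by linarith
    exact_mod_cast this
  have hHx : H ≤ x := by
    rw [hx]
    calc H = 1 * H * 1 := by ring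
      _ ≤ (d + 1) * H * K ^ d := Nat.mul_le_mul (Nat.mul_le_mul (by omega) le_rfl) (Nat.one_le_pow _ _ (by omega))
  have hxR : x ≤ R := by
    rw [hR]
    exact Nat.le_mul_of_pos_right _ (by omega)
  have h100 : 100 * H ≤ R := by
    rw [hR]
    calc 100 * H ≤ W * x := Nat.mul_le_mul hW3 hHx
      _ = x * W := Nat.mul_comm _ _
  have hxr : (0 : ℝ) ≤ x := Nat.cast_nonneg _
  have hM1 : 1 ≤ M := by
    rw [hM]
    rw [Nat.one_le_div_iff (by omega)]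
    omega
  have h8 : 8 * H * M ≤ 2 * R + 1 := by rw [hM]; exact Nat.mul_div_le _ _
  have h16 : 2 * R + 1 ≤ 16 * H * M := by
    have h1 : 2 * R + 1 < 8 * H * (M + 1) := by
      rw [hM]
      exact Nat.lt_mul_div_succ _ (by omega)
    have h2 : 8 * H * (M + 1) ≤ 8 * H * (M + M) := Nat.mul_le_mul_left _ (by omega)
    have h3 : 8 * H * (M + M) = 16 * H * M := by ring
    omega
  refine ⟨hHx, hxR, ?_, ?_, hM1, h8, h16, ?_, h100⟩
  · rw [hR]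
    push_cast
    exact mul_le_mul_of_nonneg_left hW1 hxr
  · rw [hR]
    push_cast
    apply mul_le_mul_of_nonneg_left _ hxr
    rw [pow_succ]
    nlinarith
  · refine le_trans ?_ h8
    exact Nat.le_mul_of_pos_left _ (by omega)

/-- real parameters for the major arcs; `N = 2 R + 1`, `P = H K^(d-1)`, `T = L ^ Ei`, `Θ = L ^ (d (U + 4))` -/
lemma p_M (N P T Θ : ℝ) (M0 M1 : ℕ) (hN : 0 < N) (hP : 0 < P) (hNP : 2 * P ≤ N) (hT : 100 ≤ T) (hΘ : 1 ≤ Θ)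
    (hM0 : M0 = ⌈T / (4 * P) * N⌉₊ + 1) (hM1 : M1 = ⌈2 * Θ * T / P * N⌉₊ + 1) :
    T / (4 * P) * N + 1 / 2 ≤ M0 ∧ 2 * Θ * T / P * N + 1 / 2 ≤ M1 ∧ (2 * (M0 : ℝ) + 1 / 2) / N ≤ T / P ∧
      ((M0 : ℝ) + M1) / N ≤ 5 * Θ * T / P ∧ 1 / P ≤ (M0 : ℝ) / N := by
  have hT0 : 0 < T := by linarith
  have hΘ0 : 0 < Θ := by linarith
  have a1 := Nat.le_ceil (T / (4 * P) * N)
  have a2 := (Nat.ceil_lt_add_one (show 0 ≤ T / (4 * P) * N by positivity)).le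
  have a3 := Nat.le_ceil (2 * Θ * T / P * N)
  have a4 := (Nat.ceil_lt_add_one (show 0 ≤ 2 * Θ * T / P * N by positivity)).le
  have b0 : (M0 : ℝ) = (⌈T / (4 * P) * N⌉₊ : ℝ) + 1 := by rw [hM0]; push_cast; rfl
  have b1 : (M1 : ℝ) = (⌈2 * Θ * T / P * N⌉₊ : ℝ) + 1 := by rw [hM1]; push_cast; rfl
  have hNP' : 1 / P ≥ 2 / N := by
    rw [ge_iff_le, div_le_div_iff₀ hN hP]
    linarith
  have c1 : (M0 : ℝ) ≤ T / (4 * P) * N + 2 := by linarith
  have c2 : (M1 : ℝ) ≤ 2 * Θ * T / P * N + 2 := by linarith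
  have c3 : T / (4 * P) = T * (1 / P) / 4 := by field_simp
  have c4 : T / P = T * (1 / P) := by ring
  have c5 : 1 / N * 2 ≤ 1 / P := by
    have : 1 / N * 2 = 2 / N := by ring
    rw [this]; exact hNP'
  have hN' : 0 < 1 / N := by positivity
  have hP' : 0 < 1 / P := by positivity
  refine ⟨by linarith, by linarith, ?_, ?_, ?_⟩
  · have e1 : (2 * (M0 : ℝ) + 1 / 2) / N ≤ (2 * (T / (4 * P) * N + 2) + 1 / 2) / N :=
      div_le_div_of_nonneg_right (by linarith) hN.le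
    have e2 : (2 * (T / (4 * P) * N + 2) + 1 / 2) / N = T * (1 / P) / 2 + (9 / 2) * (1 / N) := by
      field_simp
      ring
    rw [e2] at e1
    rw [c4]
    nlinarith
  · have e1 : ((M0 : ℝ) + M1) / N ≤ ((T / (4 * P) * N + 2) + (2 * Θ * T / P * N + 2)) / N :=
      div_le_div_of_nonneg_right (by linarith) hN.le
    have e2 : ((T / (4 * P) * N + 2) + (2 * Θ * T / P * N + 2)) / N =
        T * (1 / P) / 4 + 2 * Θ * T * (1 / P) + 4 * (1 / N) := by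
      field_simp
      ring
    rw [e2] at e1
    have e3 : 5 * Θ * T / P = 5 * (Θ * T * (1 / P)) := by ring
    rw [e3]
    have e4 : T * (1 / P) ≤ Θ * T * (1 / P) := by
      apply mul_le_mul_of_nonneg_right _ hP'.le
      exact le_mul_of_one_le_left hT0.le hΘ
    have e5 : 1 / P ≤ T * (1 / P) := le_mul_of_one_le_left hP'.le (by linarith)
    linarith
  · rw [div_le_div_iff₀ hP hN]
    have e1 : T / (4 * P) * N * P = T * N / 4 := by field_simp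
    have e2 : T / (4 * P) * N * P ≤ M0 * P := mul_le_mul_of_nonneg_right (by linarith) hP.le
    nlinarith

end Pool.Agent.H13K.KR
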