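import Pool.Agent.H13K.StmK

/-!
# Project BH, stub MJ, first part: elementary bounds
-/

set_option autoImplicit false

namespace Pool.Agent.H13K.MJ

open Finset
open Pool.Agent.H469R2.NK (e)
open Pool.Agent.H442R2.EHI (nint)
open Pool.Agent.H300R2.FB (pw tR)
open Pool.Agent.Q236.CR (nt)
open Pool.Agent.H373R2.T7 (lamz pz Vz)
open Pool.Agent.H13V (fz)

lemma absorb {L C : ℝ} {a b : ℕ} (hL : 1 ≤ L) (hC : C ≤ L) (h : a + 1 ≤ b) : C * L ^ a ≤ L ^ b := by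
  have h0 : 0 ≤ L ^ a := by positivity
  calc C * L ^ a ≤ L * L ^ a := mul_le_mul_of_nonneg_right hC h0
    _ = L ^ (a + 1) := by rw [pow_succ]; ring
    _ ≤ L ^ b := pow_le_pow_right₀ hL h

lemma absorb' {L C : ℝ} {a b c : ℕ} (hL : 1 ≤ L) (hC : C ≤ L) (h : a + c + 1 ≤ b) :
    C * L ^ a / L ^ b ≤ 1 / L ^ c := by
  have hL0 : 0 < L := by linarith
  rw [div_le_div_iff₀ (by positivity) (by positivity), one_mul, mul_assoc, ← pow_add]
  exact absorb hL hC h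

lemma biglog (A : ℝ) : ∃ L₁ : ℝ, 1 ≤ L₁ ∧ ∀ L, L₁ ≤ L → A + A * Real.log L ≤ L := by
  have h1 : ∀ᶠ L : ℝ in Filter.atTop, ‖Real.log L‖ ≤ (1 / (2 * (|A| + 1))) * ‖id L‖ :=
    Real.isLittleO_log_id_atTop.bound (by positivity)
  have h2 := h1.and ((Filter.eventually_ge_atTop (1 : ℝ)).and
    (Filter.eventually_ge_atTop (2 * |A|)))
  obtain ⟨L₁, hL₁⟩ := Filter.eventually_atTop.1 h2
  refine ⟨max L₁ 1, le_max_right _ _, fun L hL => ?_⟩
  obtain ⟨h3, h4, h5⟩ := hL₁ L ((le_max_left _ _).trans hL)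
  rw [Real.norm_of_nonneg (Real.log_nonneg h4), id, Real.norm_of_nonneg (by linarith)] at h3
  have hA : A ≤ |A| := le_abs_self A
  have hA0 : 0 ≤ |A| := abs_nonneg A
  have hl0 := Real.log_nonneg h4
  have h6 : |A| * Real.log L ≤ L / 2 := by
    have h7 : (|A| + 1) * Real.log L ≤ (|A| + 1) * (1 / (2 * (|A| + 1)) * L) :=
      mul_le_mul_of_nonneg_left h3 (by positivity)
    have h8 : (|A| + 1) * (1 / (2 * (|A| + 1)) * L) = L / 2 := by
      field_simp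
    nlinarith
  nlinarith [mul_le_mul_of_nonneg_right hA hl0]

/-- bound for the weight -/
lemma fz_le {C : ℝ} (hC : 1 ≤ C) (hV : ∀ z : ℕ, 2 ≤ z → (Vz z)⁻¹ ≤ C * Real.log z) {z : ℕ}
    (hz : 1 ≤ z) (n : ℕ) : |fz z n| ≤ 3 + 2 * C * Real.log z := by
  have hlz : 0 ≤ Real.log z := Real.log_nonneg (by exact_mod_cast hz)
  have hVi : (Vz z)⁻¹ ≤ 1 + C * Real.log z := by
    rcases Nat.lt_or_ge z 2 with h | h
    · have h1 : z = 1 := by omega
      subst h1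
      have h2 : (Vz 1)⁻¹ ≤ ((1 : ℕ) : ℝ) := Pool.Agent.H373R2.T7.Vz_inv_le 1 le_rfl
      simpa using h2
    · have := hV z h
      linarith
  have hV0 : 0 < (Vz z)⁻¹ := inv_pos.2 (Pool.Agent.H373R2.T7.Vz_pos z)
  have h0 : 0 ≤ lamz z n := by
    unfold lamz
    split_ifs
    · exact hV0.le
    · exact le_rfl
  have h1 : lamz z n ≤ 1 + C * Real.log z := by
    unfold lamz
    split_ifs
    · exact hVi
    · positivity
  unfold fz
  have h2 : |(if n.Prime then (1 : ℝ) else 0)| ≤ 1 := by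
    split_ifs <;> simp
  have h3 : |(if 2 ≤ n then lamz z n / Real.log n else 0)| ≤ 2 * (1 + C * Real.log z) := by
    split_ifs with hn
    · have h4 : (1 / 2 : ℝ) ≤ Real.log n := by
        have h5 : Real.log 2 ≤ Real.log n :=
          Real.log_le_log (by norm_num) (by exact_mod_cast hn)
        have := Real.log_two_gt_d9
        linarith
      rw [abs_of_nonneg (div_nonneg h0 (by linarith)), div_le_iff₀ (by linarith)]
      have h6 : 0 ≤ 1 + C * Real.log z := by positivity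
      nlinarith
    · rw [abs_zero]
      positivity
  calc _ ≤ |(if n.Prime then (1 : ℝ) else 0)| + |(if 2 ≤ n then lamz z n / Real.log n else 0)| :=
        abs_sub _ _
    _ ≤ 1 + 2 * (1 + C * Real.log z) := add_le_add h2 h3
    _ = _ := by ring

lemma fz_zero (z : ℕ) : fz z 0 = 0 := by
  unfold fz
  simp [Nat.not_prime_zero]

/-- bounds for the values of the polynomial -/
lemma p_bounds {d : ℕ} (hd : 1 ≤ d) {b : Fin (d - 1) → ℝ} {c W : ℝ} (hW : 0 ≤ W)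
    (hb : ∀ i, |b i| ≤ W) (hc : |c| ≤ W) (hdc : 2 ≤ d → c = 0) {K1 K k : ℕ} (hk1 : K1 < k)
    (hk : k ≤ K) (hWK : 2 * d * W ≤ K1) :
    (K1 : ℝ) ^ d / 2 ≤ pw d b (k + c) ∧ pw d b (k + c) ≤ (d + 1) * (K : ℝ) ^ d := by
  have hk1' : (K1 : ℝ) ≤ k := by exact_mod_cast hk1.le
  have hk' : (k : ℝ) ≤ K := by exact_mod_cast hk
  have hk0 : (1 : ℝ) ≤ k := by
    have : 1 ≤ k := by omega
    exact_mod_cast this
  have hK10 : (0 : ℝ) ≤ K1 := Nat.cast_nonneg _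
  rcases Nat.lt_or_ge d 2 with h | h
  · have hd1 : d = 1 := by omega
    subst hd1
    have h1 : pw 1 b (k + c) = k + c := by
      unfold pw tR
      simp
    rw [h1]
    have h2 := abs_le.1 hc
    push_cast at hWK
    constructor
    · rw [pow_one]
      linarith
    · rw [pow_one]
      push_cast
      linarith
  · have hc0 := hdc h
    subst hc0
    rw [add_zero]
    have hd2 : (2 : ℝ) ≤ d := by exact_mod_cast h
    have h1 : |tR d b k| ≤ (d - 1) * W * (k : ℝ) ^ (d - 1) := by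
      unfold tR
      refine (Finset.abs_sum_le_sum_abs _ _).trans ?_
      have h2 : ∀ i : Fin (d - 1), |b i * (k : ℝ) ^ ((i : ℕ) + 1)| ≤ W * (k : ℝ) ^ (d - 1) := by
        intro i
        rw [abs_mul, abs_of_nonneg (by positivity : (0 : ℝ) ≤ (k : ℝ) ^ ((i : ℕ) + 1))]
        refine mul_le_mul (hb i) ?_ (by positivity) hW
        refine pow_le_pow_right₀ hk0 ?_
        have := i.2
        omega
      refine (Finset.sum_le_sum fun i _ => h2 i).trans ?_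
      rw [Finset.sum_const, Finset.card_univ, Fintype.card_fin, nsmul_eq_mul, Nat.cast_sub (by omega)]
      push_cast
      refine le_of_eq ?_
      ring
    have h3 : (d - 1) * W * (k : ℝ) ^ (d - 1) ≤ (k : ℝ) ^ d / 2 := by
      have e1 : (k : ℝ) ^ d = k * (k : ℝ) ^ (d - 1) := by
        rw [← pow_succ', Nat.sub_add_cancel hd]
      rw [e1]
      have h4 : (d - 1) * W ≤ (k : ℝ) / 2 := by nlinarith
      have h5 : (0 : ℝ) ≤ (k : ℝ) ^ (d - 1) := by positivity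
      nlinarith
    have h4 := abs_le.1 h1
    have h5 : (K1 : ℝ) ^ d ≤ (k : ℝ) ^ d := pow_le_pow_left₀ hK10 hk1' d
    have h6 : (k : ℝ) ^ d ≤ (K : ℝ) ^ d := pow_le_pow_left₀ (by linarith) hk' d
    have h7 : (0 : ℝ) ≤ (K : ℝ) ^ d := by positivity
    unfold pw
    constructor
    · linarith
    · nlinarith

/-- the twisted sums for an integer frequency -/
lemma twist {E V X₀ : ℕ} (hT : ∀ X : ℕ, X₀ ≤ X → ∀ z q b : ℕ, 1 ≤ q → q ≤ z →
    (z : ℝ) ≤ Real.log X ^ E → ∀ τ : ℝ, |τ| ≤ X → ∀ y : ℕ, y ≤ X →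
    ‖∑ n ∈ Icc 1 y, (fz z n : ℂ) * e ((b : ℝ) * n / q) * nt τ n‖ ≤ X / Real.log X ^ V)
    {X z q : ℕ} (b : ℤ) {σ : ℝ} (hσ : σ = 1 ∨ σ = -1) (hX : X₀ ≤ X) (hq : 1 ≤ q) (hqz : q ≤ z)
    (hz : (z : ℝ) ≤ Real.log X ^ E) {τ : ℝ} (hτ : |τ| ≤ X) {y : ℕ} (hy : y ≤ X) :
    ‖∑ n ∈ Icc 1 y, (fz z n : ℂ) * e (-(σ * b * n / q)) * nt τ n‖ ≤ X / Real.log X ^ V := by
  obtain ⟨b', hb'⟩ : ∃ b' : ℕ, ∀ n : ℕ, e (-(σ * b * n / q)) = e ((b' : ℝ) * n / q) := by
    obtain ⟨s, hs⟩ : ∃ s : ℤ, σ = s := by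
      rcases hσ with h | h
      · exact ⟨1, by rw [h]; norm_num⟩
      · exact ⟨-1, by rw [h]; norm_num⟩
    have hq0 : (q : ℤ) ≠ 0 := by omega
    have hqR : (q : ℝ) ≠ 0 := by
      have : 0 < q := by omega
      positivity
    refine ⟨((-(s * b)) % (q : ℤ)).toNat, fun n => ?_⟩
    have h1 : (0 : ℤ) ≤ (-(s * b)) % (q : ℤ) := Int.emod_nonneg _ hq0
    have h2 : ((((-(s * b)) % (q : ℤ)).toNat : ℕ) : ℝ) = (((-(s * b)) % (q : ℤ) : ℤ) : ℝ) := by
      have h3 : ((((-(s * b)) % (q : ℤ)).toNat : ℕ) : ℤ) = (-(s * b)) % (q : ℤ) :=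
        Int.toNat_of_nonneg h1
      exact_mod_cast congrArg (Int.cast : ℤ → ℝ) h3
    rw [h2, Int.emod_def]
    push_cast
    have h4 : -(σ * b * n / q) = (-(s * b) - (q : ℝ) * ((-(s * b)) / (q : ℤ) : ℤ)) * n / q +
        (((((-(s * b)) / (q : ℤ)) * (n : ℤ) : ℤ)) : ℝ) := by
      rw [hs]
      push_cast
      field_simp
      ring
    rw [h4]
    unfold e
    rw [show (2 * Real.pi * ((-(s * b) - (q : ℝ) * ((-(s * b)) / (q : ℤ) : ℤ)) * n / q +
        (((((-(s * b)) / (q : ℤ)) * (n : ℤ) : ℤ)) : ℝ)) : ℝ) =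
        2 * Real.pi * ((-(s * b) - (q : ℝ) * ((-(s * b)) / (q : ℤ) : ℤ)) * n / q) +
        2 * Real.pi * (((((-(s * b)) / (q : ℤ)) * (n : ℤ) : ℤ)) : ℝ) by ring]
    rw [Complex.ofReal_add, add_mul, Complex.exp_add]
    have h5 : Complex.exp (((2 * Real.pi * (((((-(s * b)) / (q : ℤ)) * (n : ℤ) : ℤ)) : ℝ) : ℝ) : ℂ) *
        Complex.I) = 1 := by
      rw [Complex.exp_eq_one_iff]
      refine ⟨((-(s * b)) / (q : ℤ)) * (n : ℤ), ?_⟩
      push_cast
      ring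
    rw [h5, mul_one]
  have h1 : ∑ n ∈ Icc 1 y, (fz z n : ℂ) * e (-(σ * b * n / q)) * nt τ n =
      ∑ n ∈ Icc 1 y, (fz z n : ℂ) * e ((b' : ℝ) * n / q) * nt τ n :=
    Finset.sum_congr rfl fun n _ => by rw [hb' n]
  rw [h1]
  exact hT X hX z q b' hq hqz hz τ hτ y hy

end Pool.Agent.H13K.MJ
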