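import Pool.Agent.H13K.MJA

/-!
# Project BH, stub MJ, second part: numerical bounds
-/

set_option autoImplicit false

namespace Pool.Agent.H13K.MJ

/-- the Mellin transforms are small -/
lemma Y_num {L x x0 K NM S1 Ξ lg CM E G DP : ℝ} {U E4 E10 E11 E12 V B : ℕ}
    (hL3 : 3 ≤ L) (hCM : 0 ≤ CM) (hCM8 : 8 * CM ≤ L)
    (hx : 0 < x) (hx0 : 0 < x0) (hK : 0 < K) (hNM0 : 0 ≤ NM) (hS10 : 0 ≤ S1) (hlg0 : 0 ≤ lg)
    (ha : x ≤ x0 * L ^ E12) (hb : x0 ≤ x * L ^ (U + 3)) (hc : NM ≤ x / K)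
    (hΞ : Ξ = K * L ^ E11) (hlg : lg ≤ L ^ 3)
    (hS1 : S1 ≤ x / L ^ V) (hKB : L ^ B ≤ K) (hUE : U ≤ E11) (hDP : x0 ≤ DP) (hG : 1 ≤ G)
    (hE : √E ≤ L ^ E4)
    (hV : E4 + 2 * E12 + E11 + 4 + 2 * E10 + 1 ≤ V) (hB : E4 + E12 + 1 + 2 * E10 + 1 ≤ B) :
    CM * (S1 * x0 ^ (-(3 / 2) : ℝ) * (x0 + x + Ξ * NM * lg) + L * NM * x0 ^ (-(1 / 2) : ℝ)) * √E /
      (G * √DP) ≤ (1 / 4) / L ^ (2 * E10) := by
  have hL1 : 1 ≤ L := by linarith
  have hL0 : 0 < L := by linarith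
  set w : ℝ := √x0 with hw
  have hw0 : 0 < w := Real.sqrt_pos.2 hx0
  have hw2 : w * w = x0 := Real.mul_self_sqrt hx0.le
  have e1 : x0 ^ (-(1 / 2) : ℝ) = 1 / w := by
    rw [Real.rpow_neg hx0.le, ← Real.sqrt_eq_rpow, one_div]
  have e2 : x0 ^ (-(3 / 2) : ℝ) = 1 / (x0 * w) := by
    rw [show (-(3 / 2) : ℝ) = -1 + (-(1 / 2)) by norm_num, Real.rpow_add hx0, Real.rpow_neg_one, e1]
    field_simp
  rw [e1, e2]
  have hΞ0 : 0 ≤ Ξ := by rw [hΞ]; positivity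
  set P : ℝ := x0 + x + Ξ * NM * lg with hP
  have hP0 : 0 ≤ P := by positivity
  have hP1 : P ≤ x * L ^ (E11 + 4) := by
    have h1 : x * L ^ (U + 3) ≤ x * L ^ (E11 + 3) :=
      mul_le_mul_of_nonneg_left (pow_le_pow_right₀ hL1 (by omega)) hx.le
    have h2 : x ≤ x * L ^ (E11 + 3) := le_mul_of_one_le_right hx.le (one_le_pow₀ hL1)
    have h3 : Ξ * NM * lg ≤ x * L ^ (E11 + 3) := by
      have h4 : Ξ * NM ≤ (K * L ^ E11) * (x / K) := by
        rw [hΞ]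
        exact mul_le_mul_of_nonneg_left hc (by positivity)
      have h5 : Ξ * NM * lg ≤ (K * L ^ E11) * (x / K) * L ^ 3 :=
        mul_le_mul h4 hlg hlg0 (by positivity)
      refine h5.trans (le_of_eq ?_)
      rw [pow_add]
      field_simp
    have h4 : 3 * (x * L ^ (E11 + 3)) ≤ L * (x * L ^ (E11 + 3)) :=
      mul_le_mul_of_nonneg_right hL3 (by positivity)
    have h5 : L * (x * L ^ (E11 + 3)) = x * L ^ (E11 + 4) := by
      rw [pow_succ L (E11 + 3)]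
      ring
    rw [hP]
    linarith
  set Q : ℝ := CM * (S1 * (1 / (x0 * w)) * P + L * NM * (1 / w)) * √E with hQ
  have hQ0 : 0 ≤ Q := by positivity
  have hden : w ≤ G * √DP := by
    have h1 : w ≤ √DP := Real.sqrt_le_sqrt hDP
    have h2 : √DP ≤ G * √DP := le_mul_of_one_le_left (Real.sqrt_nonneg _) hG
    linarith
  have h1 : Q / (G * √DP) ≤ Q / w := div_le_div_of_nonneg_left hQ0 hw0 hden
  refine h1.trans ?_
  have h2 : Q / w = CM * √E * (S1 * P / (x0 * x0) + L * NM / x0) := by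
    rw [hQ]
    have e3 : CM * (S1 * (1 / (x0 * w)) * P + L * NM * (1 / w)) * √E / w =
        CM * √E * (S1 * P / (x0 * (w * w)) + L * NM / (w * w)) := by
      field_simp
    rw [e3, hw2]
  rw [h2]
  have h3 : S1 * P / (x0 * x0) ≤ L ^ (2 * E12 + E11 + 4) / L ^ V := by
    rw [div_le_div_iff₀ (by positivity) (by positivity)]
    have h4 : S1 * P ≤ (x / L ^ V) * (x * L ^ (E11 + 4)) :=
      mul_le_mul hS1 hP1 hP0 (by positivity)
    have h5 : S1 * P * L ^ V ≤ (x / L ^ V) * (x * L ^ (E11 + 4)) * L ^ V :=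
      mul_le_mul_of_nonneg_right h4 (by positivity)
    have h6 : (x / L ^ V) * (x * L ^ (E11 + 4)) * L ^ V = (x * x) * L ^ (E11 + 4) := by
      field_simp
    have h7 : x * x ≤ (x0 * L ^ E12) * (x0 * L ^ E12) := mul_le_mul ha ha hx.le (by positivity)
    have h8 : (x * x) * L ^ (E11 + 4) ≤ (x0 * L ^ E12) * (x0 * L ^ E12) * L ^ (E11 + 4) :=
      mul_le_mul_of_nonneg_right h7 (by positivity)
    have h9 : (x0 * L ^ E12) * (x0 * L ^ E12) * L ^ (E11 + 4) =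
        L ^ (2 * E12 + E11 + 4) * (x0 * x0) := by
      rw [show 2 * E12 + E11 + 4 = E12 + E12 + (E11 + 4) by ring, pow_add, pow_add]
      ring
    linarith
  have h4 : L * NM / x0 ≤ L ^ (E12 + 1) / L ^ B := by
    have h5 : NM ≤ x0 * L ^ E12 / K := hc.trans (by gcongr)
    have h6 : NM ≤ x0 * L ^ E12 / L ^ B := h5.trans (by gcongr)
    rw [div_le_iff₀ hx0]
    calc L * NM ≤ L * (x0 * L ^ E12 / L ^ B) := mul_le_mul_of_nonneg_left h6 hL0.le
      _ = L ^ (E12 + 1) / L ^ B * x0 := by rw [pow_succ]; ring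
  have h5 : CM * √E ≤ CM * L ^ E4 := mul_le_mul_of_nonneg_left hE hCM
  have h6 : 0 ≤ S1 * P / (x0 * x0) + L * NM / x0 := by positivity
  calc CM * √E * (S1 * P / (x0 * x0) + L * NM / x0)
      ≤ CM * L ^ E4 * (L ^ (2 * E12 + E11 + 4) / L ^ V + L ^ (E12 + 1) / L ^ B) :=
        mul_le_mul h5 (add_le_add h3 h4) h6 (by positivity)
    _ = (1 / 8) * ((8 * CM) * L ^ (E4 + 2 * E12 + E11 + 4) / L ^ V) +
        (1 / 8) * ((8 * CM) * L ^ (E4 + E12 + 1) / L ^ B) := by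
        rw [show E4 + 2 * E12 + E11 + 4 = E4 + (2 * E12 + E11 + 4) by ring,
          show E4 + E12 + 1 = E4 + (E12 + 1) by ring, pow_add, pow_add L E4 (E12 + 1)]
        ring
    _ ≤ (1 / 8) * (1 / L ^ (2 * E10)) + (1 / 8) * (1 / L ^ (2 * E10)) := by
        refine add_le_add ?_ ?_
        · exact mul_le_mul_of_nonneg_left (absorb' hL1 hCM8 (by omega)) (by norm_num)
        · exact mul_le_mul_of_nonneg_left (absorb' hL1 hCM8 (by omega)) (by norm_num)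
    _ = (1 / 4) / L ^ (2 * E10) := by ring

/-- the square root is small -/
lemma root_num {L K δDP Ξ X2 Z Y4 D1 : ℝ} {m E10 E11 B : ℕ} (hL3 : 3 ≤ L) (hD1 : 1 ≤ D1)
    (hD8 : 8 * D1 ≤ L) (hK : 1 ≤ K) (hδ0 : 0 ≤ δDP) (hδ : 1 + δDP ≤ D1 * L ^ m * K)
    (hΞ : Ξ = K * L ^ E11) (hX2 : X2 = K ^ 2) (hZ : Z = K / L ^ (E10 + 1))
    (hY : Y4 ≤ (1 / 4) / L ^ (2 * E10)) (hKB : L ^ B ≤ K) (hB : E11 ≤ B)
    (hE : m + 2 * E10 + 1 ≤ E11) :
    √(Y4 + (1 + δDP) * (1 / Ξ + 1 / X2) + (Z / K) ^ 2) ≤ 1 / L ^ E10 := by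
  have hL1 : 1 ≤ L := by linarith
  have hL0 : 0 < L := by linarith
  have hK0 : 0 < K := by linarith
  have hΞ0 : 0 < Ξ := by rw [hΞ]; positivity
  have h1 : 1 / X2 ≤ 1 / Ξ := by
    refine one_div_le_one_div_of_le hΞ0 ?_
    rw [hΞ, hX2, sq]
    exact mul_le_mul_of_nonneg_left ((pow_le_pow_right₀ hL1 hB).trans hKB) hK0.le
  have h2 : (1 + δDP) * (1 / Ξ + 1 / X2) ≤ (1 / 4) / L ^ (2 * E10) := by
    have h3 : (1 + δDP) * (1 / Ξ + 1 / X2) ≤ (D1 * L ^ m * K) * (1 / Ξ + 1 / Ξ) := by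
      refine mul_le_mul hδ (by linarith) ?_ (by positivity)
      have : 0 < X2 := by rw [hX2]; positivity
      positivity
    have h4 : (D1 * L ^ m * K) * (1 / Ξ + 1 / Ξ) = (1 / 4) * ((8 * D1) * L ^ m / L ^ E11) := by
      rw [hΞ]
      field_simp
      ring
    rw [h4] at h3
    have h5 := absorb' (C := 8 * D1) (a := m) (b := E11) (c := 2 * E10) hL1 hD8 (by omega)
    calc _ ≤ (1 / 4) * ((8 * D1) * L ^ m / L ^ E11) := h3
      _ ≤ (1 / 4) * (1 / L ^ (2 * E10)) := mul_le_mul_of_nonneg_left h5 (by norm_num)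
      _ = _ := by ring
  have h3 : (Z / K) ^ 2 ≤ (1 / 4) / L ^ (2 * E10) := by
    have h4 : Z / K = 1 / L ^ (E10 + 1) := by
      rw [hZ]
      field_simp
    rw [h4, one_div, inv_pow, ← pow_mul, ← one_div, div_le_div_iff₀ (by positivity) (by positivity)]
    rw [show (E10 + 1) * 2 = 2 * E10 + 2 by ring, pow_add]
    have h5 : (0 : ℝ) < L ^ (2 * E10) := by positivity
    have h6 : (4 : ℝ) ≤ L ^ 2 := by nlinarith
    have h7 := mul_le_mul_of_nonneg_left h6 h5.le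
    linarith
  rw [Real.sqrt_le_left (by positivity)]
  have h4 : (1 / L ^ E10) ^ 2 = 1 / L ^ (2 * E10) := by
    rw [one_div, inv_pow, ← pow_mul, ← one_div]
    congr 2
    ring
  rw [h4]
  have h5 : 0 < 1 / L ^ (2 * E10) := by positivity
  have h6 : (1 / 4) / L ^ (2 * E10) = (1 / 4) * (1 / L ^ (2 * E10)) := by ring
  rw [h6] at h2 h3 hY
  linarith

/-- sizes of the endpoints of the windows -/
lemma x_num {L H K K1 D x x0 R : ℝ} {d U Ea : ℕ} (hL : 16 * (d + 1) ≤ L) (hH : 0 < H)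
    (hK1 : 0 < K1) (hK1K : K1 ≤ K) (hKK1 : K ≤ K1 * L ^ Ea) (hx : x = (d + 1) * H * K ^ d)
    (hD1 : H / L ^ (U + 3) ≤ D) (hD2 : D ≤ H * L ^ (U + 3))
    (hx0 : x0 = D * (K1 ^ d / 2) * Real.exp (-2)) (hR : x * L ^ (U + 8) ≤ R) :
    0 < x0 ∧ x ≤ x0 * L ^ (d * Ea + U + 4) ∧ x0 ≤ x * L ^ (U + 3) ∧ x0 ≤ D * ((d + 1) * K ^ d) ∧
      x + 2 * D * ((d + 1) * K ^ d) * Real.exp 2 ≤ R := by
  have hd0 : (0 : ℝ) ≤ d := Nat.cast_nonneg d
  have hL1 : 1 ≤ L := by linarith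
  have hL0 : 0 < L := by linarith
  have hD0 : 0 < D := lt_of_lt_of_le (by positivity) hD1
  have hK0 : 0 < K := by linarith
  have hx00 : 0 < x0 := by rw [hx0]; positivity
  have hxpos : 0 < x := by rw [hx]; positivity
  have he1 : Real.exp (-2) ≤ 1 := by
    rw [← Real.exp_zero]
    exact Real.exp_le_exp.2 (by norm_num)
  have he2 : Real.exp 2 ≤ 15 / 2 := by
    have h5 := Real.exp_one_lt_d9
    have h6 : Real.exp 2 = Real.exp 1 * Real.exp 1 := by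
      rw [← Real.exp_add]; norm_num
    rw [h6]
    have h7 := Real.exp_pos 1
    nlinarith
  have he3 : Real.exp (-2) * Real.exp 2 = 1 := by
    rw [← Real.exp_add]; norm_num
  have hKd : K ^ d ≤ K1 ^ d * L ^ (d * Ea) := by
    have h1 := pow_le_pow_left₀ hK0.le hKK1 d
    rw [mul_pow, ← pow_mul, mul_comm Ea d] at h1
    exact h1
  have hK1d : K1 ^ d ≤ K ^ d := pow_le_pow_left₀ hK1.le hK1K d
  have hHD : H ≤ D * L ^ (U + 3) := by
    rwa [div_le_iff₀ (by positivity)] at hD1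
  refine ⟨hx00, ?_, ?_, ?_, ?_⟩
  · have h1 : x ≤ (d + 1) * (D * L ^ (U + 3)) * (K1 ^ d * L ^ (d * Ea)) := by
      rw [hx]
      refine mul_le_mul ?_ hKd (by positivity) (by positivity)
      exact mul_le_mul_of_nonneg_left hHD (by positivity)
    refine h1.trans ?_
    have h2 : (d + 1) * (D * L ^ (U + 3)) * (K1 ^ d * L ^ (d * Ea)) =
        (2 * (d + 1) * Real.exp 2) * L ^ (d * Ea + U + 3) * x0 := by
      have h3 : (2 * (d + 1) * Real.exp 2) * L ^ (d * Ea + U + 3) * x0 =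
          (d + 1) * D * K1 ^ d * L ^ (d * Ea + U + 3) * (Real.exp (-2) * Real.exp 2) := by
        rw [hx0]
        ring
      rw [h3, he3, show d * Ea + U + 3 = (U + 3) + d * Ea by ring, pow_add]
      ring
    rw [h2, mul_comm x0]
    refine mul_le_mul_of_nonneg_right ?_ hx00.le
    exact absorb hL1 (by nlinarith) (by omega)
  · rw [hx0, hx]
    calc D * (K1 ^ d / 2) * Real.exp (-2) ≤ (H * L ^ (U + 3)) * (K ^ d) * 1 := by
          refine mul_le_mul ?_ he1 (Real.exp_pos _).le (by positivity)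
          refine mul_le_mul hD2 ?_ (by positivity) (by positivity)
          have : 0 < K1 ^ d := by positivity
          linarith
      _ ≤ (d + 1) * H * K ^ d * L ^ (U + 3) := by
          have h1 : 0 ≤ d * (H * K ^ d * L ^ (U + 3)) := by positivity
          nlinarith
  · rw [hx0]
    have h1 : K1 ^ d / 2 ≤ (d + 1) * K ^ d := by
      have h2 : 0 < K1 ^ d := by positivity
      nlinarith
    calc D * (K1 ^ d / 2) * Real.exp (-2) ≤ D * ((d + 1) * K ^ d) * 1 := by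
          refine mul_le_mul ?_ he1 (Real.exp_pos _).le (by positivity)
          exact mul_le_mul_of_nonneg_left h1 hD0.le
      _ = _ := by ring
  · have h1 : 2 * D * ((d + 1) * K ^ d) * Real.exp 2 ≤ 15 * L ^ (U + 3) * x := by
      calc 2 * D * ((d + 1) * K ^ d) * Real.exp 2
          ≤ 2 * (H * L ^ (U + 3)) * ((d + 1) * K ^ d) * (15 / 2) := by
            refine mul_le_mul ?_ he2 (Real.exp_pos _).le (by positivity)
            refine mul_le_mul_of_nonneg_right ?_ (by positivity)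
            linarith
        _ = 15 * L ^ (U + 3) * x := by rw [hx]; ring
    have h2 : x ≤ L ^ (U + 3) * x := le_mul_of_one_le_left hxpos.le (one_le_pow₀ hL1)
    have h3 : 16 * L ^ (U + 3) ≤ L ^ (U + 8) := absorb hL1 (by linarith) (by omega)
    have h4 : 16 * L ^ (U + 3) * x ≤ L ^ (U + 8) * x := mul_le_mul_of_nonneg_right h3 hxpos.le
    linarith

/-- the logarithm of the period -/
lemma lg_num {L H K x R : ℝ} {d Ea B : ℕ} (hLH : L = Real.log H) (hL : 16 * (d + 1) + (d + 3) ^ 2 ≤ L)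
    (hK : 1 ≤ K) (hKH : K * L ^ B ≤ H) (hx : x = (d + 1) * H * K ^ d) (hR0 : 0 ≤ R)
    (hR : R ≤ x * L ^ Ea) (hB : Ea + 1 ≤ B) :
    0 ≤ Real.log (2 * R + 1) ∧ (1 + Real.log (2 * R + 1)) ^ 2 ≤ L ^ 3 := by
  have hd0 : (0 : ℝ) ≤ d := Nat.cast_nonneg d
  have hL1 : 1 ≤ L := by nlinarith
  have hL0 : 0 < L := by linarith
  have hLB : 1 ≤ L ^ B := one_le_pow₀ hL1
  have hKH' : K ≤ H := le_trans (le_mul_of_one_le_right (by linarith) hLB) hKH
  have hH1 : 1 ≤ H := by linarith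
  have hLBH : L ^ B ≤ H := le_trans (le_mul_of_one_le_left (by positivity) hK) hKH
  have h0 : 0 ≤ Real.log (2 * R + 1) := Real.log_nonneg (by linarith)
  refine ⟨h0, ?_⟩
  have h1 : 2 * R + 1 ≤ H ^ (d + 2) := by
    have h2 : x * L ^ Ea ≤ (d + 1) * H ^ (d + 1) * L ^ Ea := by
      refine mul_le_mul_of_nonneg_right ?_ (by positivity)
      rw [hx, mul_assoc, pow_succ' H d]
      refine mul_le_mul_of_nonneg_left ?_ (by positivity)
      exact mul_le_mul_of_nonneg_left (pow_le_pow_left₀ (by linarith) hKH' d) (by linarith)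
    have h3 : (3 * (d + 1)) * L ^ Ea ≤ L ^ B := absorb hL1 (by nlinarith) (by omega)
    have h4 : (3 * (d + 1)) * L ^ Ea * H ^ (d + 1) ≤ H * H ^ (d + 1) :=
      mul_le_mul_of_nonneg_right (h3.trans hLBH) (by positivity)
    have h5 : 1 ≤ (d + 1) * H ^ (d + 1) * L ^ Ea := by
      have h6 : (1 : ℝ) ≤ H ^ (d + 1) := one_le_pow₀ hH1
      have h7 : (1 : ℝ) ≤ L ^ Ea := one_le_pow₀ hL1
      have h8 : (1 : ℝ) ≤ (d + 1) * H ^ (d + 1) := by nlinarith
      nlinarith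
    rw [← pow_succ'] at h4
    linarith
  have h2 : Real.log (2 * R + 1) ≤ (d + 2) * L := by
    have h3 := Real.log_le_log (by linarith) h1
    rw [Real.log_pow, ← hLH] at h3
    push_cast at h3
    exact h3
  have h3 : 1 + Real.log (2 * R + 1) ≤ (d + 3) * L := by nlinarith
  calc (1 + Real.log (2 * R + 1)) ^ 2 ≤ ((d + 3) * L) ^ 2 := pow_le_pow_left₀ (by linarith) h3 2
    _ = (d + 3) ^ 2 * L ^ 2 := by ring
    _ ≤ L ^ 3 := absorb hL1 (by nlinarith) (by norm_num)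

/-- the total for one ray -/
lemma ray_num {L CR CG K H D η lη PP rt D1 : ℝ} {U m E9 E10 : ℕ} (hL3 : 3 ≤ L) (hCR : 0 ≤ CR)
    (hH : 0 ≤ H) (hD : D ≤ H * L ^ (U + 3)) (hη : η = 1 / L ^ E10)
    (hlη0 : 0 ≤ lη) (hlη : lη ≤ L)
    (hPP0 : 0 ≤ PP) (hPP : PP ≤ D1 * L ^ m) (hrt0 : 0 ≤ rt) (hrt : rt ≤ 1 / L ^ E10)
    (hD1 : 1 ≤ D1) (hc : CR * CG ^ 2 * (1 + D1) ≤ L) (hE : E9 + U + m + 7 ≤ E10) :
    CR * (CG * L) ^ 2 * K ^ 2 * D * (η + lη * PP * rt) ≤ K ^ 2 * H / L ^ E9 := by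
  have hL1 : 1 ≤ L := by linarith
  have hL0 : 0 < L := by linarith
  have h1 : lη * PP * rt ≤ L * (D1 * L ^ m) * (1 / L ^ E10) := by
    refine mul_le_mul ?_ hrt hrt0 (by positivity)
    exact mul_le_mul hlη hPP hPP0 hL0.le
  have h2 : η + lη * PP * rt ≤ (1 + D1) * L ^ (m + 1) / L ^ E10 := by
    have h3 : η ≤ L ^ (m + 1) / L ^ E10 := by
      rw [hη]
      exact div_le_div_of_nonneg_right (one_le_pow₀ hL1) (by positivity)
    have h4 : L * (D1 * L ^ m) * (1 / L ^ E10) = D1 * L ^ (m + 1) / L ^ E10 := by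
      rw [pow_succ]; ring
    have h5 : (1 + D1) * L ^ (m + 1) / L ^ E10 = L ^ (m + 1) / L ^ E10 + D1 * L ^ (m + 1) / L ^ E10 := by
      ring
    linarith
  have h3 : 0 ≤ η + lη * PP * rt := by
    rw [hη]
    positivity
  have h4 : CR * (CG * L) ^ 2 * K ^ 2 * D * (η + lη * PP * rt) ≤
      CR * (CG * L) ^ 2 * K ^ 2 * (H * L ^ (U + 3)) * ((1 + D1) * L ^ (m + 1) / L ^ E10) := by
    refine mul_le_mul ?_ h2 h3 (by positivity)
    exact mul_le_mul_of_nonneg_left hD (by positivity)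
  refine h4.trans ?_
  have h5 : CR * (CG * L) ^ 2 * K ^ 2 * (H * L ^ (U + 3)) * ((1 + D1) * L ^ (m + 1) / L ^ E10) =
      K ^ 2 * H * ((CR * CG ^ 2 * (1 + D1)) * L ^ (2 + (U + 3) + (m + 1)) / L ^ E10) := by
    rw [pow_add, pow_add, mul_pow]
    ring
  rw [h5]
  have h6 := absorb' (C := CR * CG ^ 2 * (1 + D1)) (a := 2 + (U + 3) + (m + 1)) (b := E10) (c := E9)
    hL1 hc (by omega)
  calc _ ≤ K ^ 2 * H * (1 / L ^ E9) := mul_le_mul_of_nonneg_left h6 (by positivity)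
    _ = _ := by ring

end Pool.Agent.H13K.MJ
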