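import Pool.Agent.H13K.MJB

/-!
# Project BH, stub MJ, third part: one ray
-/

set_option autoImplicit false

namespace Pool.Agent.H13K.MJ

open Finset
open Pool.Agent.H469R2.NK (e)
open Pool.Agent.H442R2.EHI (nint)
open Pool.Agent.H300R2.FB (pw tR)
open Pool.Agent.Q236.CR (nt)
open Pool.Agent.H373R2.T7 (lamz pz Vz)
open Pool.Agent.H13V (fz)

/-- body of `S_RAY` -/
def RAYb (C Cr : ℝ) : Prop := ∀ (T : Finset ℕ) (K : ℕ) (p : ℕ → ℝ)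
  (D P0 P1 κ δ G Y E Ξ X2 Z η σ : ℝ) (g1 g2 : ℝ → ℂ), T.card ≤ K → 0 < D → 0 < P0 → P0 ≤ P1 →
  (∀ k ∈ T, P0 ≤ p k ∧ p k ≤ P1) → 0 < κ → κ ≤ 1 → 0 < η → η ≤ 1 → 0 ≤ δ → 0 < G → 0 ≤ Y → 1 ≤ E → 0 < Ξ →
  0 < X2 → 0 ≤ Z → (σ = 1 ∨ σ = -1) → ContDiff ℝ (⊤ : ℕ∞) g1 → ContDiff ℝ (⊤ : ℕ∞) g2 →
  (∀ y, ‖g1 y‖ ≤ G ∧ ‖g2 y‖ ≤ G ∧ ‖deriv g1 y‖ ≤ G * δ) →
  (∀ ρ : ℝ → ℝ, ContDiff ℝ (⊤ : ℕ∞) ρ → (∀ s, 0 ≤ ρ s ∧ ρ s ≤ 1) → (∀ s, |deriv ρ s| ≤ Cr) →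
    (∀ s, s ≤ Real.log (D * P0) - 2 → ρ s = 0) → (∀ s, Real.log (2 * D * P1) + 2 ≤ s → ρ s = 0) →
    ∀ ξ : ℝ, |ξ| ≤ Ξ →
      ‖∫ s : ℝ, ((Real.exp (s / 2) * ρ s : ℝ) : ℂ) * g1 (σ * Real.exp s) * e (-(ξ * s))‖ ≤ Y) →
  (∀ η' : ℝ, E ≤ |η'| → |η'| ≤ X2 → ‖∑ k ∈ T, e (η' * Real.log (p k))‖ ≤ Z) →
  ∑ k ∈ T, ∑ k' ∈ T, ‖∫ u in D..((1 + κ) * D), g1 (σ * (u * p k)) * g2 (σ * (u * p k'))‖ ≤
    C * G ^ 2 * (K : ℝ) ^ 2 * D * (η + (1 - Real.log η) * (P1 / P0) *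
      √(Y * √E / (G * √(D * P1)) + (1 + δ * (D * P1)) * (1 / Ξ + 1 / X2) + (Z / K) ^ 2))

/-- body of `S_MEL` -/
def MELb (Cr C : ℝ) : Prop := ∀ (R M x q : ℕ) (θ S S1 Ξ x0 x1 σ : ℝ) (b : ℤ) (u : ℕ → ℝ)
  (ρ : ℝ → ℝ), 1 ≤ M → 2 * M ≤ R → 1 ≤ x → 1 ≤ x0 → x0 ≤ x1 → x + x1 ≤ R → |θ| ≤ 1 / (2 * R + 1) →
  (σ = 1 ∨ σ = -1) → (∀ n, |u n| ≤ S) → u 0 = 0 → 0 ≤ Ξ →
  (∀ τ : ℝ, |τ| ≤ 2 * Real.pi * Ξ → ∀ y : ℕ, y ≤ x →
    ‖∑ n ∈ Icc 1 y, (u n : ℂ) * e (-(σ * b * n / q)) * nt τ n‖ ≤ S1) →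
  ContDiff ℝ (⊤ : ℕ∞) ρ → (∀ s, 0 ≤ ρ s ∧ ρ s ≤ 1) → (∀ s, |deriv ρ s| ≤ Cr) →
  (∀ s, s ≤ Real.log x0 → ρ s = 0) → (∀ s, Real.log x1 ≤ s → ρ s = 0) →
  ∀ ξ : ℝ, |ξ| ≤ Ξ →
    ‖∫ s : ℝ, ((Real.exp (s / 2) * ρ s : ℝ) : ℂ) * gq R M θ q b x u (σ * Real.exp s) * e (-(ξ * s))‖ ≤
      C * (S1 * x0 ^ (-(3 / 2) : ℝ) * (x0 + x + Ξ * ((2 * R + 1) / M) * (1 + Real.log (2 * R + 1)) ^ 2) +
        S * ((2 * R + 1) / M) * x0 ^ (-(1 / 2) : ℝ))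

/-- body of `S_VDC` at one `L` -/
def VDCb (d Ea U E4 B : ℕ) (L : ℝ) : Prop :=
  ∀ K K1 q r : ℕ, L ^ B ≤ K → K1 ≤ K → (K : ℝ) ≤ K1 * L ^ Ea → 1 ≤ q → (q : ℝ) ≤ L ^ Ea →
  ∀ (b : Fin (d - 1) → ℝ) (c : ℝ), (∀ i, |b i| ≤ L ^ Ea) → |c| ≤ L ^ Ea →
  ∀ η : ℝ, L ^ E4 ≤ |η| → |η| ≤ (K : ℝ) ^ 2 →
  ‖∑ k ∈ (Ioc K1 K).filter (fun k => k % q = r), e (η * Real.log (pw d b (k + c)))‖ ≤ K / L ^ U

/-- body of `S_TWI` -/
def TWIb (E V X₀ : ℕ) : Prop := ∀ X : ℕ, X₀ ≤ X → ∀ z q b : ℕ, 1 ≤ q → q ≤ z →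
    (z : ℝ) ≤ Real.log X ^ E → ∀ τ : ℝ, |τ| ≤ X → ∀ y : ℕ, y ≤ X →
    ‖∑ n ∈ Icc 1 y, (fz z n : ℂ) * e ((b : ℝ) * n / q) * nt τ n‖ ≤ X / Real.log X ^ V

lemma ax1 {a b : ℝ} (ha : 1 ≤ a) (hb : 1 ≤ b) : 1 ≤ a * b := one_le_mul_of_one_le_of_one_le ha hb

lemma ax2 {d H k : ℝ} (hd : 0 ≤ d) (hH : 0 ≤ H) (hk : 1 ≤ k) : H ≤ (d + 1) * H * k := by
  have h1 : H ≤ H * k := le_mul_of_one_le_right hH hk
  have h2 : 0 ≤ d * (H * k) := by positivity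
  linarith

lemma ax3 {d a b : ℝ} (hd : 0 ≤ d) (ha : 0 < a) (hab : a ≤ b) : a / 2 ≤ (d + 1) * b := by
  have h2 : 0 ≤ d * b := mul_nonneg hd (by linarith)
  linarith

lemma ax4 {a E : ℝ} (ha : 0 ≤ a) (hE : 1 ≤ E) : a ≤ 2 * a * E := by
  have h2 : a ≤ a * E := le_mul_of_one_le_right ha hE
  linarith

lemma ax5 {d H a K : ℝ} (hd : 0 ≤ d) (h : 0 ≤ H * a) (hK : 0 ≤ K) :
    H * a * K ≤ (d + 1) * H * (a * K) := by
  have h2 : 0 ≤ d * ((H * a) * K) := by positivity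
  linarith

lemma ax6 {π Ξ : ℝ} (hπ : π ≤ 3.15) (hΞ : 0 ≤ Ξ) : 2 * π * Ξ ≤ 7 * Ξ := by
  have h := mul_le_mul_of_nonneg_right hπ hΞ
  linarith

lemma ax7 {a : ℝ} (ha : 1 ≤ a) : a ≤ a * a := le_mul_of_one_le_right (by linarith) ha

/-- one ray -/
theorem ray_le {d Ea U E4 E9 E10 E11 V B Bv X₀ H : ℕ} {CR Cr CM CG L : ℝ} (hd : 1 ≤ d)
    (hRAY : RAYb CR Cr) (hMEL : MELb Cr CM)
    (hVDC : VDCb d (Ea + 2 * U + 6) (E10 + 1) E4 Bv L) (hTWI : TWIb Ea V X₀)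
    (hLH : L = Real.log H) (hCR : 0 ≤ CR) (hCM : 0 ≤ CM) (hCG : 1 ≤ CG)
    (hL : 16 * (d + 1) + (d + 3) ^ 2 + 8 * CM + CR * CG ^ 2 * (1 + 2 * (d + 1)) ≤ L)
    (hLlog : 1 + E10 * Real.log L ≤ L)
    (hXH : X₀ ≤ H)
    (hE10 : E9 + U + d * Ea + 7 ≤ E10) (hE11 : (Ea + U + 3) + 2 * E10 + 1 ≤ E11)
    (hV : E4 + 2 * (d * Ea + U + 4) + E11 + 4 + 2 * E10 + 1 ≤ V)
    (hB1 : E4 + (d * Ea + U + 4) + 1 + 2 * E10 + 1 ≤ B) (hB2 : Bv ≤ B) (hB3 : E11 + 1 ≤ B)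
    (hB4 : Ea + 2 * U + 6 + 1 ≤ B)
    {K K1 R M0 x q r z : ℕ} {b : ℤ} {θ δ κ : ℝ} {g2 : ℝ → ℂ}
    (hK : L ^ B ≤ K) (hKH : (K : ℝ) * L ^ B ≤ H) (hK1K : K1 ≤ K) (hKK1 : (K : ℝ) ≤ K1 * L ^ Ea)
    (hx : x = (d + 1) * H * K ^ d) (hxR : x * L ^ (U + 8) ≤ R) (hRx : (R : ℝ) ≤ x * L ^ Ea)
    (hq : 1 ≤ q) (hqz : q ≤ z) (hz : (z : ℝ) ≤ L ^ Ea) (hM0 : 1 ≤ M0) (hMR : 2 * M0 ≤ R)
    (hM0' : 1 / (H * (K : ℝ) ^ (d - 1)) ≤ (M0 : ℝ) / (2 * R + 1)) (hθ : |θ| ≤ 1 / (2 * R + 1))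
    (hδ0 : 0 ≤ δ) (hδ : δ ≤ L ^ Ea / (H * (K : ℝ) ^ (d - 1)))
    (hf : ∀ n, |fz z n| ≤ L)
    (hg1 : ∀ y, ‖gq R M0 θ q b x (fz z) y‖ ≤ CG * L)
    (hg1' : ∀ y, ‖deriv (gq R M0 θ q b x (fz z)) y‖ ≤ CG * L * δ)
    (hg1c : ContDiff ℝ (⊤ : ℕ∞) (gq R M0 θ q b x (fz z)))
    (hg2 : ∀ y, ‖g2 y‖ ≤ CG * L) (hg2c : ContDiff ℝ (⊤ : ℕ∞) g2)
    (hκ0 : 0 < κ) (hκ1 : κ ≤ 1)
    {σ D c : ℝ} {bb : Fin (d - 1) → ℝ} (hσ : σ = 1 ∨ σ = -1) (hD1 : H / L ^ (U + 3) ≤ D)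
    (hD2 : D ≤ H * L ^ (U + 3)) (hbb : ∀ i, |bb i| ≤ (L ^ (U + 3)) ^ 2)
    (hc : |c| ≤ (L ^ (U + 3)) ^ 2) (hdc : 2 ≤ d → c = 0) :
    ∑ k ∈ (Ioc K1 K).filter (fun k => k % q = r), ∑ k' ∈ (Ioc K1 K).filter (fun k => k % q = r),
      ‖∫ u in D..((1 + κ) * D), gq R M0 θ q b x (fz z) (σ * (u * pw d bb (k + c))) *
      g2 (σ * (u * pw d bb (k' + c)))‖ ≤ (K : ℝ) ^ 2 * H / L ^ E9 := by
  have hd0 : (0 : ℝ) ≤ d := Nat.cast_nonneg d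
  have hd1 : (1 : ℝ) ≤ d := by exact_mod_cast hd
  have hc0 : 0 ≤ CR * CG ^ 2 * (1 + 2 * (d + 1)) := by positivity
  have hsq := sq_nonneg ((d : ℝ) + 3)
  have h8 : 0 ≤ 8 * CM := by positivity
  have hL16 : 16 * ((d : ℝ) + 1) ≤ L := by linarith
  have hL16' : 16 * ((d : ℝ) + 1) + (d + 3) ^ 2 ≤ L := by linarith
  have hL3 : 3 ≤ L := by linarith
  have hL1 : 1 ≤ L := by linarith
  have hL0 : 0 < L := by linarith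
  have hCM8 : 8 * CM ≤ L := by linarith
  have hcc : CR * CG ^ 2 * (1 + 2 * (d + 1)) ≤ L := by linarith
  have hK1' : (1 : ℝ) ≤ K := le_trans (one_le_pow₀ hL1) hK
  have hK0 : (0 : ℝ) < K := by linarith
  have hH1 : (1 : ℝ) ≤ H := (ax1 hK1' (one_le_pow₀ hL1)).trans hKH
  have hH0 : (0 : ℝ) < H := by linarith
  have hLBH : L ^ B ≤ H := le_trans (le_mul_of_one_le_left (by positivity) hK1') hKH
  have hK1pos : (0 : ℝ) < K1 := by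
    by_contra hcon
    push Not at hcon
    have h1 : (K1 : ℝ) * L ^ Ea ≤ 0 := mul_nonpos_of_nonpos_of_nonneg hcon (by positivity)
    linarith
  have hK1K' : (K1 : ℝ) ≤ K := by exact_mod_cast hK1K
  have hxR' : (x : ℝ) = (d + 1) * H * (K : ℝ) ^ d := by
    rw [hx]; push_cast; ring
  have hxpos : (0 : ℝ) < x := by rw [hxR']; positivity
  have hx1 : 1 ≤ x := by
    have : 0 < x := by exact_mod_cast hxpos
    exact this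
  have hHx : (H : ℝ) ≤ x := by
    rw [hxR']
    exact ax2 hd0 hH0.le (one_le_pow₀ hK1')
  -- endpoints
  obtain ⟨x0, hx0⟩ : ∃ x0 : ℝ, x0 = D * ((K1 : ℝ) ^ d / 2) * Real.exp (-2) := ⟨_, rfl⟩
  obtain ⟨hx00, hxa, hxb, hxc, hxd⟩ := x_num hL16 hH0 hK1pos hK1K' hKK1 hxR' hD1 hD2 hx0 hxR
  obtain ⟨hlg0, hlg⟩ := lg_num (R := (R : ℝ)) hLH hL16' hK1' hKH hxR' (Nat.cast_nonneg R) hRx
    (by omega : Ea + 1 ≤ B)
  have hD0 : 0 < D := lt_of_lt_of_le (by positivity) hD1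
  set P0 : ℝ := (K1 : ℝ) ^ d / 2 with hP0
  set P1 : ℝ := (d + 1) * (K : ℝ) ^ d with hP1
  have hP00 : 0 < P0 := by positivity
  have hP10 : 0 < P1 := by positivity
  have hK1d : (K1 : ℝ) ^ d ≤ (K : ℝ) ^ d := pow_le_pow_left₀ hK1pos.le hK1K' d
  have hP01 : P0 ≤ P1 := by
    rw [hP0, hP1]
    exact ax3 hd0 (by positivity) hK1d
  have hx01 : 1 ≤ x0 := by
    have h1 : L ^ (d * Ea + U + 4) ≤ x :=
      ((pow_le_pow_right₀ hL1 (by omega)).trans hLBH).trans hHx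
    by_contra hcon
    push Not at hcon
    have h2 : x0 * L ^ (d * Ea + U + 4) < 1 * L ^ (d * Ea + U + 4) :=
      mul_lt_mul_of_pos_right hcon (by positivity)
    linarith
  -- parameters
  obtain ⟨Ξ, hΞ⟩ : ∃ Ξ : ℝ, Ξ = K * L ^ E11 := ⟨_, rfl⟩
  have hΞ0 : 0 < Ξ := by rw [hΞ]; positivity
  obtain ⟨S1, hS1⟩ : ∃ S1 : ℝ, S1 = x / L ^ V := ⟨_, rfl⟩
  have hS10 : 0 ≤ S1 := by rw [hS1]; positivity
  obtain ⟨x1, hx1'⟩ : ∃ x1 : ℝ, x1 = 2 * D * P1 * Real.exp 2 := ⟨_, rfl⟩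
  have hlx0 : Real.log x0 = Real.log (D * P0) - 2 := by
    rw [hx0, Real.log_mul (by positivity) (Real.exp_pos _).ne', Real.log_exp]
    ring
  have hlx1 : Real.log x1 = Real.log (2 * D * P1) + 2 := by
    rw [hx1', Real.log_mul (by positivity) (Real.exp_pos _).ne', Real.log_exp]
  have hx0x1 : x0 ≤ x1 := by
    have h1 : (1 : ℝ) ≤ Real.exp 2 := Real.one_le_exp (by norm_num)
    have h2 : D * P1 ≤ 2 * D * P1 * Real.exp 2 := by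
      have h3 := ax4 (mul_pos hD0 hP10).le h1
      rw [← mul_assoc 2 D P1] at h3
      exact h3
    rw [hx1']
    exact hxc.trans h2
  have hLx : L ≤ Real.log x := by
    rw [hLH]
    exact Real.log_le_log hH0 hHx
  obtain ⟨NM, hNM⟩ : ∃ NM : ℝ, NM = (2 * R + 1) / M0 := ⟨_, rfl⟩
  have hM0R : (1 : ℝ) ≤ M0 := by exact_mod_cast hM0
  have hM00 : (0 : ℝ) < M0 := by linarith
  have hN0 : (0 : ℝ) < 2 * (R : ℝ) + 1 := by positivity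
  have hNM0 : 0 ≤ NM := by rw [hNM]; positivity
  have hKd1 : (0 : ℝ) < H * (K : ℝ) ^ (d - 1) := by positivity
  have hKd : (K : ℝ) ^ d = (K : ℝ) ^ (d - 1) * K := by
    rw [← pow_succ, Nat.sub_add_cancel hd]
  have hNMx : NM ≤ x / K := by
    have h1 : NM ≤ H * (K : ℝ) ^ (d - 1) := by
      rw [hNM, div_le_iff₀ hM00]
      rw [div_le_div_iff₀ hKd1 hN0] at hM0'
      linarith
    refine h1.trans ?_
    rw [le_div_iff₀ hK0, hxR', hKd]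
    exact ax5 hd0 hKd1.le hK0.le
  obtain ⟨Y, hY⟩ : ∃ Y : ℝ, Y = CM * (S1 * x0 ^ (-(3 / 2) : ℝ) * (x0 + x + Ξ * NM *
      (1 + Real.log (2 * R + 1)) ^ 2) + L * NM * x0 ^ (-(1 / 2) : ℝ)) := ⟨_, rfl⟩
  have hY0 : 0 ≤ Y := by rw [hY]; positivity
  have hG1 : 1 ≤ CG * L := ax1 hCG hL1
  -- the Mellin transforms
  have hYb : ∀ ρ : ℝ → ℝ, ContDiff ℝ (⊤ : ℕ∞) ρ → (∀ s, 0 ≤ ρ s ∧ ρ s ≤ 1) →
      (∀ s, |deriv ρ s| ≤ Cr) → (∀ s, s ≤ Real.log (D * P0) - 2 → ρ s = 0) →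
      (∀ s, Real.log (2 * D * P1) + 2 ≤ s → ρ s = 0) → ∀ ξ : ℝ, |ξ| ≤ Ξ →
      ‖∫ s : ℝ, ((Real.exp (s / 2) * ρ s : ℝ) : ℂ) * gq R M0 θ q b x (fz z) (σ * Real.exp s) *
        e (-(ξ * s))‖ ≤ Y := by
    intro ρ h1 h2 h3 h4 h5 ξ hξ
    rw [← hlx0] at h4
    rw [← hlx1] at h5
    have h6 := hMEL R M0 x q θ L S1 Ξ x0 x1 σ b (fz z) ρ hM0 hMR hx1 hx01 hx0x1
      (by rw [hx1']; exact hxd) hθ hσ hf (fz_zero z) hΞ0.le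
      (by
        intro τ hτ y hy
        have h7 : (z : ℝ) ≤ Real.log x ^ Ea := hz.trans (pow_le_pow_left₀ hL0.le hLx Ea)
        have h8 : |τ| ≤ x := by
          refine hτ.trans ?_
          have h9 : 2 * Real.pi * Ξ ≤ 7 * Ξ := ax6 Real.pi_lt_d2.le hΞ0.le
          have h10 : 7 * Ξ ≤ K * L ^ B := by
            rw [hΞ]
            have h11 : 7 * L ^ E11 ≤ L ^ B := absorb hL1 (by linarith) hB3
            have h12 := mul_le_mul_of_nonneg_left h11 hK0.le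
            calc 7 * (K * L ^ E11) = K * (7 * L ^ E11) := by ring
              _ ≤ K * L ^ B := h12
          exact (h9.trans h10).trans (hKH.trans hHx)
        have h9 := twist hTWI b hσ (show X₀ ≤ x by
          have : H ≤ x := by exact_mod_cast hHx
          omega) hq hqz h7 h8 hy
        refine h9.trans ?_
        rw [hS1]
        exact div_le_div_of_nonneg_left hxpos.le (by positivity)
          (pow_le_pow_left₀ hL0.le hLx V))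
      h1 h2 h3 h4 h5 ξ hξ
    rw [hY, hNM]
    exact h6
  -- van der Corput
  have hZb : ∀ η' : ℝ, L ^ E4 ≤ |η'| → |η'| ≤ (K : ℝ) ^ 2 →
      ‖∑ k ∈ (Ioc K1 K).filter (fun k => k % q = r), e (η' * Real.log (pw d bb (k + c)))‖ ≤
        K / L ^ (E10 + 1) := by
    have h1 : (L ^ (U + 3)) ^ 2 ≤ L ^ (Ea + 2 * U + 6) := by
      rw [← pow_mul]
      exact pow_le_pow_right₀ hL1 (by omega)
    intro η' h2 h3
    refine hVDC K K1 q r ((pow_le_pow_right₀ hL1 hB2).trans hK) hK1K ?_ hq ?_ bb c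
      (fun i => (hbb i).trans h1) (hc.trans h1) η' h2 h3
    · exact hKK1.trans (mul_le_mul_of_nonneg_left (pow_le_pow_right₀ hL1 (by omega))
        (Nat.cast_nonneg _))
    · have h4 : (q : ℝ) ≤ z := by exact_mod_cast hqz
      exact (h4.trans hz).trans (pow_le_pow_right₀ hL1 (by omega))
  -- the polynomial
  have hpb : ∀ k ∈ (Ioc K1 K).filter (fun k => k % q = r),
      P0 ≤ pw d bb (k + c) ∧ pw d bb (k + c) ≤ P1 := by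
    intro k hk
    rw [Finset.mem_filter, Finset.mem_Ioc] at hk
    have hW : 2 * (d : ℝ) * (L ^ (U + 3)) ^ 2 ≤ K1 := by
      have h1 : (2 * (d : ℝ)) * L ^ (2 * U + 6 + Ea) ≤ L ^ B := absorb hL1 (by linarith) (by omega)
      have h2 : (2 * (d : ℝ)) * L ^ (2 * U + 6 + Ea) ≤ K1 * L ^ Ea := (h1.trans hK).trans hKK1
      have h3 : (2 * (d : ℝ)) * L ^ (2 * U + 6 + Ea) = (2 * d * (L ^ (U + 3)) ^ 2) * L ^ Ea := by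
        rw [pow_add, ← pow_mul, show (U + 3) * 2 = 2 * U + 6 by ring]
        ring
      rw [h3] at h2
      exact le_of_mul_le_mul_right h2 (by positivity)
    exact p_bounds hd (by positivity) hbb hc hdc hk.1.1 hk.1.2 hW
  have hcard : ((Ioc K1 K).filter (fun k => k % q = r)).card ≤ K := by
    refine (Finset.card_filter_le _ _).trans ?_
    rw [Nat.card_Ioc]
    omega
  have hmain := hRAY ((Ioc K1 K).filter (fun k => k % q = r)) K (fun k => pw d bb (k + c)) D P0 P1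
    κ δ (CG * L) Y (L ^ E4) Ξ ((K : ℝ) ^ 2) (K / L ^ (E10 + 1)) (1 / L ^ E10) σ
    (gq R M0 θ q b x (fz z)) g2 hcard hD0 hP00 hP01 hpb hκ0 hκ1 (by positivity)
    (by
      rw [div_le_one (by positivity)]
      exact one_le_pow₀ hL1) hδ0 (by linarith) hY0 (one_le_pow₀ hL1) hΞ0 (by positivity)
    (by positivity) hσ hg1c hg2c (fun y => ⟨hg1 y, hg2 y, hg1' y⟩) hYb hZb
  refine hmain.trans ?_
  -- numbers
  have hYn := Y_num (L := L) (x := x) (x0 := x0) (K := K) (NM := NM) (S1 := S1) (Ξ := Ξ)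
    (lg := (1 + Real.log (2 * R + 1)) ^ 2) (CM := CM) (E := L ^ E4) (G := CG * L) (DP := D * P1)
    (U := U) (E4 := E4) (E10 := E10) (E11 := E11) (E12 := d * Ea + U + 4) (V := V) (B := B)
    hL3 hCM hCM8 hxpos hx00 hK0 hNM0 hS10 (by positivity) hxa hxb hNMx hΞ hlg hS1.le hK (by omega)
    hxc hG1 (by
      rw [Real.sqrt_le_left (by positivity), sq]
      exact ax7 (one_le_pow₀ hL1)) hV hB1
  rw [← hY] at hYn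
  have hrt := root_num (L := L) (K := K) (δDP := δ * (D * P1)) (Ξ := Ξ) (X2 := (K : ℝ) ^ 2)
    (Z := K / L ^ (E10 + 1)) (D1 := (d : ℝ) + 2) (m := Ea + U + 3) (E10 := E10) (E11 := E11) (B := B)
    hL3 (by linarith) (by linarith) hK1' (by positivity) (by
      have h1 : δ * (D * P1) ≤ (L ^ Ea / (H * (K : ℝ) ^ (d - 1))) * ((H * L ^ (U + 3)) * P1) := by
        refine mul_le_mul hδ ?_ (by positivity) (by positivity)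
        exact mul_le_mul_of_nonneg_right hD2 hP10.le
      have h2 : (L ^ Ea / (H * (K : ℝ) ^ (d - 1))) * ((H * L ^ (U + 3)) * P1) =
          (d + 1) * L ^ (Ea + U + 3) * K := by
        have e5 : L ^ (Ea + U + 3) = L ^ Ea * L ^ (U + 3) := by rw [add_assoc, pow_add]
        rw [hP1, hKd, e5]
        generalize L ^ Ea = A1
        generalize L ^ (U + 3) = A2
        field_simp
      have h3 : 1 ≤ L ^ (Ea + U + 3) * K := ax1 (one_le_pow₀ hL1) hK1'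
      rw [h2] at h1
      calc 1 + δ * (D * P1) ≤ L ^ (Ea + U + 3) * K + (d + 1) * L ^ (Ea + U + 3) * K :=
            add_le_add h3 h1
        _ = ((d : ℝ) + 2) * L ^ (Ea + U + 3) * K := by ring) hΞ rfl rfl hYn hK (by omega) hE11
  have hlogη : Real.log (1 / L ^ E10) = -(E10 * Real.log L) := by
    rw [one_div, Real.log_inv, Real.log_pow]
  have hll : 0 ≤ Real.log L := Real.log_nonneg hL1
  have hfin := ray_num (L := L) (CR := CR) (CG := CG) (K := K) (H := H) (D := D)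
    (η := 1 / L ^ E10) (lη := 1 - Real.log (1 / L ^ E10)) (PP := P1 / P0)
    (rt := √(Y * √(L ^ E4) / (CG * L * √(D * P1)) + (1 + δ * (D * P1)) * (1 / Ξ + 1 / (K : ℝ) ^ 2) +
      (K / L ^ (E10 + 1) / K) ^ 2)) (D1 := 2 * ((d : ℝ) + 1)) (U := U) (m := d * Ea) (E9 := E9)
    (E10 := E10) hL3 hCR hH0.le hD2 rfl (by
      rw [hlogη]
      have : 0 ≤ (E10 : ℝ) * Real.log L := by positivity
      linarith) (by rw [hlogη]; linarith) (by positivity) (by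
      rw [div_le_iff₀ hP00, hP1, hP0]
      have h1 := pow_le_pow_left₀ hK0.le hKK1 d
      rw [mul_pow, ← pow_mul, mul_comm Ea d] at h1
      have h2 : ((d : ℝ) + 1) * (K : ℝ) ^ d ≤ (d + 1) * ((K1 : ℝ) ^ d * L ^ (d * Ea)) :=
        mul_le_mul_of_nonneg_left h1 (by positivity)
      refine h2.trans (le_of_eq ?_)
      ring) (Real.sqrt_nonneg _) hrt (by linarith) hcc hE10
  exact hfin

end Pool.Agent.H13K.MJ
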