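import Pool.Agent.H13K.StmK
import Pool.Agent.H442R2.EHI.Planch

/-!
# Project BH, stub RAY, part A: correlation of translates, in mean square over the pairs
-/

set_option autoImplicit false

namespace Pool.Agent.H13K.RAYA

open MeasureTheory FourierTransform Finset
open scoped SchwartzMap
open Pool.Agent.H469R2.NK (e e_add norm_e conj_e e_zero)
open Pool.Agent.H442R2.EHI (planch_tail)
open Pool.Agent.H442R2.EHI.PlanchAux (four_eq planch0 integ0)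

/-- smooth with compact support -/
def SC (h : ℝ → ℂ) : Prop := ContDiff ℝ (⊤ : ℕ∞) h ∧ HasCompactSupport h

/-- Fourier transform -/
noncomputable def ft (h : ℝ → ℂ) (ξ : ℝ) : ℂ := ∫ s : ℝ, h s * e (-(ξ * s))

lemma ft_eq (h : ℝ → ℂ) : ft h = 𝓕 h := funext fun ξ => (four_eq h ξ).symm

lemma ft_sch {h : ℝ → ℂ} (hh : SC h) : ∃ F : 𝓢(ℝ, ℂ), ⇑F = h ∧ ⇑(𝓕 F : 𝓢(ℝ, ℂ)) = ft h := by
  refine ⟨hh.2.toSchwartzMap hh.1, rfl, ?_⟩
  rw [ft_eq, SchwartzMap.fourier_coe]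
  rfl

lemma parseval {a b : ℝ → ℂ} (ha : SC a) (hb : SC b) :
    ∫ s, a s * b s = ∫ ξ, ft a (-ξ) * ft b ξ := by
  obtain ⟨A, hA, hA'⟩ := ft_sch ha
  obtain ⟨B, hB, hB'⟩ := ft_sch hb
  have h := SchwartzMap.integral_fourier_mul_eq (𝓕⁻ A : 𝓢(ℝ, ℂ)) B
  rw [FourierTransform.fourier_fourierInv_eq] at h
  rw [hA, hB, hB'] at h
  rw [h]
  refine integral_congr_ae (Filter.Eventually.of_forall fun ξ => ?_)
  simp only
  congr 1
  rw [SchwartzMap.fourierInv_coe, Real.fourierInv_eq_fourier_neg, hA, ft_eq]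

lemma continuous_e : Continuous e := by
  unfold Pool.Agent.H469R2.NK.e
  fun_prop

lemma contDiff_e : ContDiff ℝ (⊤ : ℕ∞) e := by
  unfold Pool.Agent.H469R2.NK.e
  have h1 : ContDiff ℝ (⊤ : ℕ∞) (fun x : ℝ => (((2 * Real.pi * x : ℝ) : ℂ) * Complex.I)) := by
    refine ContDiff.mul ?_ contDiff_const
    exact Complex.ofRealCLM.contDiff.comp (contDiff_const.mul contDiff_id)
  exact h1.cexp

lemma ft_cont {h : ℝ → ℂ} (hh : SC h) : Continuous (ft h) := by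
  obtain ⟨F, _, hF⟩ := ft_sch hh
  rw [← hF]
  exact (𝓕 F : 𝓢(ℝ, ℂ)).continuous

lemma ft_int {h : ℝ → ℂ} (hh : SC h) : Integrable (ft h) := by
  obtain ⟨F, _, hF⟩ := ft_sch hh
  rw [← hF]
  exact (𝓕 F : 𝓢(ℝ, ℂ)).integrable

lemma SC.shift {h : ℝ → ℂ} (hh : SC h) (μ : ℝ) : SC (fun s => h (s + μ)) :=
  ⟨hh.1.comp (contDiff_id.add contDiff_const), hh.2.comp_homeomorph (Homeomorph.addRight μ)⟩

lemma SC.mul_e {h : ℝ → ℂ} (hh : SC h) (τ : ℝ) : SC (fun s => h s * e (-(τ * s))) := by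
  refine ⟨hh.1.mul ?_, hh.2.mul_right⟩
  exact contDiff_e.comp ((contDiff_const.mul contDiff_id).neg)

lemma SC.mul {h g : ℝ → ℂ} (hh : SC h) (hg : SC g) : SC (fun s => h s * g s) :=
  ⟨hh.1.mul hg.1, hh.2.mul_right⟩

lemma ft_shift (h : ℝ → ℂ) (μ ξ : ℝ) : ft (fun s => h (s + μ)) ξ = ft h ξ * e (ξ * μ) := by
  unfold ft
  rw [← integral_add_right_eq_self (fun s => h s * e (-(ξ * s))) μ, ← integral_mul_const]
  refine integral_congr_ae (Filter.Eventually.of_forall fun s => ?_)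
  simp only
  rw [mul_assoc, ← e_add]
  congr 2
  ring

lemma ft_mul_e (h : ℝ → ℂ) (τ ξ : ℝ) : ft (fun s => h s * e (-(τ * s))) ξ = ft h (ξ + τ) := by
  unfold ft
  refine integral_congr_ae (Filter.Eventually.of_forall fun s => ?_)
  simp only
  rw [mul_assoc, ← e_add]
  congr 2
  ring

/-- the correlation as a Fourier integral -/
lemma corr {h1 h2 : ℝ → ℂ} (hh1 : SC h1) (hh2 : SC h2) (μ τ : ℝ) :
    ∫ s, h1 (s + μ) * (h2 s * e (-(τ * s))) = ∫ ξ, (ft h1 ξ * ft h2 (τ - ξ)) * e (ξ * μ) := by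
  rw [parseval (hh1.shift μ) (hh2.mul_e τ)]
  rw [← integral_neg_eq_self (fun ξ => (ft h1 ξ * ft h2 (τ - ξ)) * e (ξ * μ))]
  refine integral_congr_ae (Filter.Eventually.of_forall fun ξ => ?_)
  simp only
  rw [ft_shift, ft_mul_e]
  have : τ - -ξ = ξ + τ := by ring
  rw [this]
  ring

lemma norm_corr {h1 h2 : ℝ → ℂ} (μ μ' τ : ℝ) :
    ‖∫ s, h1 (s + μ) * h2 (s + μ') * e (-(τ * s))‖ =
      ‖∫ s, h1 (s + (μ - μ')) * (h2 s * e (-(τ * s)))‖ := by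
  have h : ∫ s, h1 (s + μ) * h2 (s + μ') * e (-(τ * s)) =
      (∫ s, h1 (s + (μ - μ')) * (h2 s * e (-(τ * s)))) * e (τ * μ') := by
    rw [← integral_add_right_eq_self (fun s => h1 (s + (μ - μ')) * (h2 s * e (-(τ * s)))) μ',
      ← integral_mul_const]
    refine integral_congr_ae (Filter.Eventually.of_forall fun s => ?_)
    simp only
    have h3 : s + μ' + (μ - μ') = s + μ := by ring
    rw [h3, mul_assoc, mul_assoc, mul_assoc, ← e_add]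
    congr 3
    ring
  rw [h, norm_mul, norm_e, mul_one]

lemma sum_sq (T : Finset ℕ) (lam : ℕ → ℝ) (v : ℝ) :
    ∑ p ∈ T ×ˢ T, e (v * (lam p.1 - lam p.2)) =
      ((‖∑ k ∈ T, e (v * lam k)‖ ^ 2 : ℝ) : ℂ) := by
  rw [Finset.sum_product]
  have h : ((‖∑ k ∈ T, e (v * lam k)‖ ^ 2 : ℝ) : ℂ) =
      (∑ k ∈ T, e (v * lam k)) * (starRingEnd ℂ) (∑ k ∈ T, e (v * lam k)) := by
    rw [Complex.mul_conj, Complex.normSq_eq_norm_sq]
  rw [h, map_sum, Finset.sum_mul_sum]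
  refine Finset.sum_congr rfl fun k _ => Finset.sum_congr rfl fun k' _ => ?_
  rw [conj_e, ← e_add]
  congr 1
  ring

/-- Gram -/
lemma gram (φ : ℝ → ℂ) (hφ : Integrable φ) (T : Finset ℕ) (lam : ℕ → ℝ)
    (J : ℝ → ℂ) (hJ : ∀ μ, J μ = ∫ ξ, φ ξ * e (ξ * μ)) (W : ℝ → ℝ)
    (hW : ∀ ξ, ∫ ξ', ‖φ ξ'‖ * ‖∑ k ∈ T, e ((ξ - ξ') * lam k)‖ ^ 2 ≤ W ξ)
    (hWi : Integrable (fun ξ => ‖φ ξ‖ * W ξ)) :
    ∑ k ∈ T, ∑ k' ∈ T, ‖J (lam k - lam k')‖ ^ 2 ≤ ∫ ξ, ‖φ ξ‖ * W ξ := by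
  rw [← Finset.sum_product']
  have hi : ∀ μ : ℝ, Integrable (fun ξ => φ ξ * e (ξ * μ)) := fun μ => by
    refine hφ.mul_bdd (c := 1) ?_ ?_
    · exact (continuous_e.comp (continuous_id.mul continuous_const)).aestronglyMeasurable
    · exact Filter.Eventually.of_forall fun ξ => (norm_e _).le
  set V : ℝ → ℂ := fun ξ => ∑ p ∈ T ×ˢ T, e (ξ * (lam p.1 - lam p.2)) *
    (starRingEnd ℂ) (J (lam p.1 - lam p.2)) with hV
  have hVW : ∀ ξ, ‖V ξ‖ ≤ W ξ := by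
    intro ξ
    refine le_trans ?_ (hW ξ)
    have h1 : V ξ = ∫ ξ', (starRingEnd ℂ) (φ ξ') *
        ((‖∑ k ∈ T, e ((ξ - ξ') * lam k)‖ ^ 2 : ℝ) : ℂ) := by
      simp only [hV]
      have h2 : ∀ p ∈ T ×ˢ T, e (ξ * (lam p.1 - lam p.2)) *
          (starRingEnd ℂ) (J (lam p.1 - lam p.2)) =
          ∫ ξ', (starRingEnd ℂ) (φ ξ') * e ((ξ - ξ') * (lam p.1 - lam p.2)) := by
        intro p _
        rw [hJ, ← integral_conj, ← integral_const_mul]
        refine integral_congr_ae (Filter.Eventually.of_forall fun ξ' => ?_)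
        simp only [map_mul, conj_e]
        rw [mul_left_comm, ← e_add]
        congr 2
        ring
      rw [Finset.sum_congr rfl h2, ← integral_finsetSum]
      · refine integral_congr_ae (Filter.Eventually.of_forall fun ξ' => ?_)
        simp only
        rw [← Finset.mul_sum, sum_sq]
      · intro p _
        have h3 : Integrable (fun ξ' => (starRingEnd ℂ) (φ ξ')) :=
          Complex.conjCLE.toContinuousLinearMap.integrable_comp hφ
        refine h3.mul_bdd (c := 1) ?_ ?_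
        · exact (continuous_e.comp
            ((continuous_const.sub continuous_id).mul continuous_const)).aestronglyMeasurable
        · exact Filter.Eventually.of_forall fun ξ => (norm_e _).le
    rw [h1]
    refine (norm_integral_le_integral_norm _).trans (le_of_eq ?_)
    refine integral_congr_ae (Filter.Eventually.of_forall fun ξ' => ?_)
    simp only
    rw [norm_mul, RCLike.norm_conj, Complex.norm_real, Real.norm_eq_abs,
      abs_of_nonneg (by positivity)]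
  have h4 : ((∑ p ∈ T ×ˢ T, ‖J (lam p.1 - lam p.2)‖ ^ 2 : ℝ) : ℂ) = ∫ ξ, φ ξ * V ξ := by
    have h5 : ∀ p ∈ T ×ˢ T, ((‖J (lam p.1 - lam p.2)‖ ^ 2 : ℝ) : ℂ) =
        ∫ ξ, φ ξ * (e (ξ * (lam p.1 - lam p.2)) * (starRingEnd ℂ) (J (lam p.1 - lam p.2))) := by
      intro p _
      have h6 : ((‖J (lam p.1 - lam p.2)‖ ^ 2 : ℝ) : ℂ) =
          J (lam p.1 - lam p.2) * (starRingEnd ℂ) (J (lam p.1 - lam p.2)) := by
        rw [Complex.mul_conj, Complex.normSq_eq_norm_sq]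
      rw [h6]
      nth_rewrite 1 [hJ]
      rw [← integral_mul_const]
      refine integral_congr_ae (Filter.Eventually.of_forall fun ξ' => ?_)
      simp only
      ring
    rw [Complex.ofReal_sum, Finset.sum_congr rfl h5, ← integral_finsetSum]
    · refine integral_congr_ae (Filter.Eventually.of_forall fun ξ' => ?_)
      simp only [hV]
      rw [Finset.mul_sum]
    · intro p _
      have := (hi (lam p.1 - lam p.2)).mul_const ((starRingEnd ℂ) (J (lam p.1 - lam p.2)))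
      simpa only [mul_assoc] using this
  have h7 : (∑ p ∈ T ×ˢ T, ‖J (lam p.1 - lam p.2)‖ ^ 2) = ‖∫ ξ, φ ξ * V ξ‖ := by
    rw [← h4, Complex.norm_real, Real.norm_eq_abs, abs_of_nonneg (by positivity)]
  rw [h7]
  refine (norm_integral_le_integral_norm _).trans ?_
  refine integral_mono_of_nonneg (Filter.Eventually.of_forall fun ξ => norm_nonneg _) hWi ?_
  refine Filter.Eventually.of_forall fun ξ => ?_
  simp only
  rw [norm_mul]
  exact mul_le_mul_of_nonneg_left (hVW ξ) (norm_nonneg _)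

lemma CS {f g : ℝ → ℝ} (hf0 : ∀ x, 0 ≤ f x) (hg0 : ∀ x, 0 ≤ g x) (hf : MemLp f 2) (hg : MemLp g 2)
    {a b : ℝ} (ha : 0 ≤ a) (hb : 0 ≤ b) (h1 : ∫ x, f x ^ 2 ≤ a ^ 2) (h2 : ∫ x, g x ^ 2 ≤ b ^ 2) :
    ∫ x, f x * g x ≤ a * b := by
  have h := integral_mul_le_Lp_mul_Lq_of_nonneg (μ := volume) (p := 2) (q := 2) (f := f) (g := g)
    Real.HolderConjugate.two_two (Filter.Eventually.of_forall hf0) (Filter.Eventually.of_forall hg0)
    (by simpa using hf) (by simpa using hg)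
  refine h.trans ?_
  simp only [Real.rpow_two]
  refine mul_le_mul ?_ ?_ (by positivity) ha
  · calc (∫ x, f x ^ 2) ^ (1 / 2 : ℝ) ≤ (a ^ 2) ^ (1 / 2 : ℝ) :=
        Real.rpow_le_rpow (integral_nonneg fun x => by positivity) h1 (by norm_num)
      _ = a := by rw [← Real.sqrt_eq_rpow, Real.sqrt_sq ha]
  · calc (∫ x, g x ^ 2) ^ (1 / 2 : ℝ) ≤ (b ^ 2) ^ (1 / 2 : ℝ) :=
        Real.rpow_le_rpow (integral_nonneg fun x => by positivity) h2 (by norm_num)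
      _ = b := by rw [← Real.sqrt_eq_rpow, Real.sqrt_sq hb]

lemma memLp_ft {h : ℝ → ℂ} (hh : SC h) : MemLp (fun ξ => ‖ft h ξ‖) 2 := by
  obtain ⟨F, _, hF⟩ := ft_sch hh
  rw [← hF]
  exact ((𝓕 F : 𝓢(ℝ, ℂ)).memLp 2 volume).norm

lemma memLp_refl {f : ℝ → ℝ} (hc : Continuous f) (h : MemLp f 2) (τ : ℝ) :
    MemLp (fun ξ => f (τ - ξ)) 2 := by
  have hc' : Continuous (fun ξ => f (τ - ξ)) := hc.comp (continuous_const.sub continuous_id)
  rw [memLp_two_iff_integrable_sq hc'.aestronglyMeasurable]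
  exact ((memLp_two_iff_integrable_sq hc.aestronglyMeasurable).1 h).comp_sub_left τ

lemma int5 (f1 f2 f3 f4 f5 : ℝ → ℝ) (h1 : Integrable f1) (h2 : Integrable f2) (h3 : Integrable f3)
    (h4 : Integrable f4) (h5 : Integrable f5) :
    ∫ x, (f1 x + f2 x + f3 x + f4 x + f5 x) =
      (∫ x, f1 x) + (∫ x, f2 x) + (∫ x, f3 x) + (∫ x, f4 x) + ∫ x, f5 x := by
  have e1 := integral_add (f := fun x => f1 x + f2 x + f3 x + f4 x) (g := f5)
    (((h1.add h2).add h3).add h4) h5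
  have e2 := integral_add (f := fun x => f1 x + f2 x + f3 x) (g := f4) ((h1.add h2).add h3) h4
  have e3 := integral_add (f := fun x => f1 x + f2 x) (g := f3) (h1.add h2) h3
  have e4 := integral_add (f := f1) (g := f2) h1 h2
  rw [e1, e2, e3, e4]

/-- the mean square of the correlations -/
theorem core {h1 h2 : ℝ → ℂ} (hh1 : SC h1) (hh2 : SC h2) (T : Finset ℕ) (K : ℕ) (lam : ℕ → ℝ)
    {N1 N2 D1 Y E Ξ X2 Z τ : ℝ} (hT : T.card ≤ K) (hN1 : 0 ≤ N1) (hN2 : 0 ≤ N2) (hD1 : 0 ≤ D1)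
    (hY0 : 0 ≤ Y) (hE : 0 ≤ E) (hΞ : 0 < Ξ) (hX2 : 0 < X2) (hZ0 : 0 ≤ Z)
    (h1N : ∫ s, ‖h1 s‖ ^ 2 ≤ N1 ^ 2) (h2N : ∫ s, ‖h2 s‖ ^ 2 ≤ N2 ^ 2)
    (h1D : ∫ s, ‖deriv h1 s‖ ^ 2 ≤ D1 ^ 2)
    (hY : ∀ ξ, |ξ| ≤ Ξ → ‖ft h1 ξ‖ ≤ Y)
    (hZ : ∀ v, E ≤ |v| → |v| ≤ X2 → ‖∑ k ∈ T, e (v * lam k)‖ ≤ Z) :
    ∑ k ∈ T, ∑ k' ∈ T, ‖∫ s, h1 (s + lam k) * h2 (s + lam k') * e (-(τ * s))‖ ^ 2 ≤
      (K : ℝ) ^ 2 * (N1 * N2) * ((Y * √(2 * E) + D1 / Ξ + 4 * (D1 / X2)) * N2) +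
        Z ^ 2 * (N1 * N2) ^ 2 := by
  set A : ℝ → ℝ := fun ξ => ‖ft h1 ξ‖ with hA
  set B : ℝ → ℝ := fun ξ => ‖ft h2 (τ - ξ)‖ with hB
  have hA0 : ∀ ξ, 0 ≤ A ξ := fun ξ => norm_nonneg _
  have hB0 : ∀ ξ, 0 ≤ B ξ := fun ξ => norm_nonneg _
  have hA2 : MemLp A 2 := memLp_ft hh1
  have hB2 : MemLp B 2 := memLp_refl (ft_cont hh2).norm (memLp_ft hh2) τ
  obtain ⟨-, hAe, -⟩ := planch_tail h1 hh1.1 hh1.2 Ξ hΞ
  obtain ⟨-, hBe, -⟩ := planch_tail h2 hh2.1 hh2.2 Ξ hΞ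
  have hAN : ∫ ξ, A ξ ^ 2 ≤ N1 ^ 2 := by
    refine le_trans (le_of_eq ?_) h1N
    exact hAe
  have hBN : ∫ ξ, B ξ ^ 2 ≤ N2 ^ 2 := by
    refine le_trans (le_of_eq ?_) h2N
    rw [← hBe]
    exact integral_sub_left_eq_self (fun ξ => ‖ft h2 ξ‖ ^ 2) volume τ
  -- tails
  have htail : ∀ x : ℝ, 0 < x → ∫ ξ, (Set.indicator {ξ : ℝ | x < |ξ|} A ξ) * B ξ ≤ D1 / x * N2 := by
    intro x hx
    have hms : MeasurableSet {ξ : ℝ | x < |ξ|} := measurableSet_lt measurable_const measurable_norm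
    refine CS (f := Set.indicator {ξ : ℝ | x < |ξ|} A)
      (fun ξ => Set.indicator_nonneg (fun _ _ => hA0 _) _) hB0 (hA2.indicator hms) hB2
      (by positivity) hN2 ?_ hBN
    have h3 : (fun ξ => Set.indicator {ξ : ℝ | x < |ξ|} A ξ ^ 2) =
        Set.indicator {ξ : ℝ | x < |ξ|} (fun ξ => A ξ ^ 2) := by
      funext ξ
      by_cases h : ξ ∈ {ξ : ℝ | x < |ξ|}
      · simp [Set.indicator_of_mem h]
      · simp [Set.indicator_of_notMem h]
    rw [h3, integral_indicator hms]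
    refine (planch_tail h1 hh1.1 hh1.2 x hx).2.2.trans ?_
    calc 1 / x ^ 2 * ∫ s, ‖deriv h1 s‖ ^ 2 ≤ 1 / x ^ 2 * D1 ^ 2 := by gcongr
      _ = (D1 / x) ^ 2 := by ring
  have hAB : ∫ ξ, A ξ * B ξ ≤ N1 * N2 := CS hA0 hB0 hA2 hB2 hN1 hN2 hAN hBN
  have hABi : Integrable (fun ξ => A ξ * B ξ) := hA2.integrable_mul hB2
  have hTi : ∀ x : ℝ, Integrable (fun ξ => (Set.indicator {ξ : ℝ | x < |ξ|} A ξ) * B ξ) := by
    intro x
    have hms : MeasurableSet {ξ : ℝ | x < |ξ|} := measurableSet_lt measurable_const measurable_norm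
    exact (hA2.indicator hms).integrable_mul hB2
  set φ : ℝ → ℂ := fun ξ => ft h1 ξ * ft h2 (τ - ξ) with hφ
  have hφn : ∀ ξ, ‖φ ξ‖ = A ξ * B ξ := fun ξ => norm_mul _ _
  have hφc : Continuous φ := (ft_cont hh1).mul ((ft_cont hh2).comp (continuous_const.sub continuous_id))
  have hφi : Integrable φ := by
    rw [← integrable_norm_iff hφc.aestronglyMeasurable]
    simpa only [hφn] using hABi
  have hS : ∀ v : ℝ, ‖∑ k ∈ T, e (v * lam k)‖ ≤ K := by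
    intro v
    refine (norm_sum_le _ _).trans ?_
    simp only [norm_e, sum_const, nsmul_eq_mul, mul_one]
    exact_mod_cast hT
  -- the window
  have hms2 : ∀ ξ : ℝ, MeasurableSet {ξ' : ℝ | |ξ - ξ'| ≤ E} := fun ξ =>
    measurableSet_le ((measurable_const.sub measurable_id).abs) measurable_const
  have hset : ∀ ξ : ℝ, {ξ' : ℝ | |ξ - ξ'| ≤ E} = Set.Icc (ξ - E) (ξ + E) := by
    intro ξ
    ext x
    simp only [Set.mem_ofPred_eq, abs_le, Set.mem_Icc]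
    constructor
    · rintro ⟨a, b⟩
      constructor <;> linarith
    · rintro ⟨a, b⟩
      constructor <;> linarith
  have hvol : ∀ ξ : ℝ, volume {ξ' : ℝ | |ξ - ξ'| ≤ E} ≠ ⊤ := by
    intro ξ
    rw [hset, Real.volume_Icc]
    exact ENNReal.ofReal_ne_top
  have hwinM : ∀ ξ : ℝ, MemLp (Set.indicator {ξ' : ℝ | |ξ - ξ'| ≤ E} (fun _ => (1 : ℝ))) 2 := fun ξ =>
    memLp_indicator_const 2 (hms2 ξ) 1 (Or.inr (hvol ξ))
  have hwin : ∀ ξ : ℝ, ∫ ξ', (Set.indicator {ξ' : ℝ | |ξ - ξ'| ≤ E} (fun _ => (1 : ℝ)) ξ') * B ξ' ≤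
      √(2 * E) * N2 := by
    intro ξ
    refine CS (f := Set.indicator {ξ' : ℝ | |ξ - ξ'| ≤ E} (fun _ => (1 : ℝ)))
      (fun ξ => Set.indicator_nonneg (fun _ _ => zero_le_one) _) hB0 (hwinM ξ) hB2
      (by positivity) hN2 ?_ hBN
    have h3 : (fun ξ' => Set.indicator {ξ' : ℝ | |ξ - ξ'| ≤ E} (fun _ => (1 : ℝ)) ξ' ^ 2) =
        Set.indicator {ξ' : ℝ | |ξ - ξ'| ≤ E} (fun _ => (1 : ℝ)) := by
      funext x
      by_cases h : x ∈ {ξ' : ℝ | |ξ - ξ'| ≤ E}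
      · simp [Set.indicator_of_mem h]
      · simp [Set.indicator_of_notMem h]
    rw [h3, integral_indicator (hms2 ξ), hset, setIntegral_const, Real.sq_sqrt (by positivity)]
    simp only [Measure.real, Real.volume_Icc, smul_eq_mul, mul_one]
    rw [ENNReal.toReal_ofReal (by linarith)]
    linarith
  have hwini : ∀ ξ : ℝ, Integrable (fun ξ' => (Set.indicator {ξ' : ℝ | |ξ - ξ'| ≤ E}
      (fun _ => (1 : ℝ)) ξ') * B ξ') := fun ξ => (hwinM ξ).integrable_mul hB2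
  set W : ℝ → ℝ := fun ξ => (K : ℝ) ^ 2 * ((Y * √(2 * E) + D1 / Ξ + 2 * (D1 / X2)) * N2) +
    Z ^ 2 * (N1 * N2) +
    (K : ℝ) ^ 2 * (N1 * N2) * (Set.indicator {ξ : ℝ | X2 / 2 < |ξ|} (fun _ => (1 : ℝ)) ξ) with hW
  have hmsX : MeasurableSet {ξ : ℝ | X2 / 2 < |ξ|} := measurableSet_lt measurable_const measurable_norm
  have hWi : Integrable (fun ξ => ‖φ ξ‖ * W ξ) := by
    simp only [hφn, hW, mul_add]
    refine ((hABi.mul_const _).add (hABi.mul_const _)).add ?_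
    have := (hTi (X2 / 2)).const_mul ((K : ℝ) ^ 2 * (N1 * N2))
    refine this.congr (Filter.Eventually.of_forall fun ξ => ?_)
    simp only
    by_cases h : ξ ∈ {ξ : ℝ | X2 / 2 < |ξ|}
    · simp only [Set.indicator_of_mem h]; ring
    · simp only [Set.indicator_of_notMem h]; ring
  have hWb : ∀ ξ, ∫ ξ', ‖φ ξ'‖ * ‖∑ k ∈ T, e ((ξ - ξ') * lam k)‖ ^ 2 ≤ W ξ := by
    intro ξ
    set cX : ℝ := Set.indicator {ξ : ℝ | X2 / 2 < |ξ|} (fun _ => (1 : ℝ)) ξ with hcX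
    have hcX0 : 0 ≤ cX := Set.indicator_nonneg (fun _ _ => zero_le_one) _
    have hpt : ∀ ξ', ‖φ ξ'‖ * ‖∑ k ∈ T, e ((ξ - ξ') * lam k)‖ ^ 2 ≤
        (K : ℝ) ^ 2 * Y * ((Set.indicator {ξ' : ℝ | |ξ - ξ'| ≤ E} (fun _ => (1 : ℝ)) ξ') * B ξ') +
        (K : ℝ) ^ 2 * ((Set.indicator {ξ : ℝ | Ξ < |ξ|} A ξ') * B ξ') + Z ^ 2 * (A ξ' * B ξ') +
        (K : ℝ) ^ 2 * ((Set.indicator {ξ : ℝ | X2 / 2 < |ξ|} A ξ') * B ξ') +
        (K : ℝ) ^ 2 * cX * (A ξ' * B ξ') := by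
      intro ξ'
      rw [hφn]
      have p0 : 0 ≤ A ξ' * B ξ' := mul_nonneg (hA0 _) (hB0 _)
      have p1 : 0 ≤ (K : ℝ) ^ 2 * Y * ((Set.indicator {ξ' : ℝ | |ξ - ξ'| ≤ E}
          (fun _ => (1 : ℝ)) ξ') * B ξ') :=
        mul_nonneg (by positivity) (mul_nonneg (Set.indicator_nonneg (fun _ _ => zero_le_one) _) (hB0 _))
      have p2 : 0 ≤ (K : ℝ) ^ 2 * ((Set.indicator {ξ : ℝ | Ξ < |ξ|} A ξ') * B ξ') :=
        mul_nonneg (by positivity) (mul_nonneg (Set.indicator_nonneg (fun _ _ => hA0 _) _) (hB0 _))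
      have p3 : 0 ≤ Z ^ 2 * (A ξ' * B ξ') := mul_nonneg (by positivity) p0
      have p4 : 0 ≤ (K : ℝ) ^ 2 * ((Set.indicator {ξ : ℝ | X2 / 2 < |ξ|} A ξ') * B ξ') :=
        mul_nonneg (by positivity) (mul_nonneg (Set.indicator_nonneg (fun _ _ => hA0 _) _) (hB0 _))
      have p5 : 0 ≤ (K : ℝ) ^ 2 * cX * (A ξ' * B ξ') := mul_nonneg (by positivity) p0
      have hSK : ‖∑ k ∈ T, e ((ξ - ξ') * lam k)‖ ^ 2 ≤ (K : ℝ) ^ 2 :=
        pow_le_pow_left₀ (norm_nonneg _) (hS _) 2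
      have hle : A ξ' * B ξ' * ‖∑ k ∈ T, e ((ξ - ξ') * lam k)‖ ^ 2 ≤ (K : ℝ) ^ 2 * (A ξ' * B ξ') := by
        rw [mul_comm]
        exact mul_le_mul_of_nonneg_right hSK p0
      by_cases c1 : |ξ - ξ'| ≤ E
      · have i1 : Set.indicator {ξ' : ℝ | |ξ - ξ'| ≤ E} (fun _ => (1 : ℝ)) ξ' = 1 :=
          Set.indicator_of_mem (s := {ξ' : ℝ | |ξ - ξ'| ≤ E}) c1 _
        by_cases c2 : |ξ'| ≤ Ξ
        · have h5 : (K : ℝ) ^ 2 * (A ξ' * B ξ') ≤ (K : ℝ) ^ 2 * (Y * B ξ') :=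
            mul_le_mul_of_nonneg_left (mul_le_mul_of_nonneg_right (hY ξ' c2) (hB0 _)) (by positivity)
          have h6 : (K : ℝ) ^ 2 * Y * (Set.indicator {ξ' : ℝ | |ξ - ξ'| ≤ E}
              (fun _ => (1 : ℝ)) ξ' * B ξ') = (K : ℝ) ^ 2 * (Y * B ξ') := by
            rw [i1]; ring
          rw [h6]
          linarith
        · have i2 : Set.indicator {ξ : ℝ | Ξ < |ξ|} A ξ' = A ξ' :=
            Set.indicator_of_mem (s := {ξ : ℝ | Ξ < |ξ|}) (not_le.1 c2) _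
          rw [i2]
          linarith
      · by_cases c3 : |ξ - ξ'| ≤ X2
        · have h5 : ‖∑ k ∈ T, e ((ξ - ξ') * lam k)‖ ^ 2 ≤ Z ^ 2 :=
            pow_le_pow_left₀ (norm_nonneg _) (hZ _ (not_le.1 c1).le c3) 2
          have h6 : A ξ' * B ξ' * ‖∑ k ∈ T, e ((ξ - ξ') * lam k)‖ ^ 2 ≤ Z ^ 2 * (A ξ' * B ξ') := by
            rw [mul_comm]
            exact mul_le_mul_of_nonneg_right h5 p0
          linarith
        · by_cases c4 : X2 / 2 < |ξ'|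
          · have i2 : Set.indicator {ξ : ℝ | X2 / 2 < |ξ|} A ξ' = A ξ' :=
              Set.indicator_of_mem (s := {ξ : ℝ | X2 / 2 < |ξ|}) c4 _
            rw [i2]
            linarith
          · have c5 : X2 / 2 < |ξ| := by
              have := abs_sub ξ ξ'
              have h7 := not_le.1 c3
              have h8 := not_lt.1 c4
              linarith
            have i2 : cX = 1 := Set.indicator_of_mem (s := {ξ : ℝ | X2 / 2 < |ξ|}) c5 _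
            have h9 : (K : ℝ) ^ 2 * cX * (A ξ' * B ξ') = (K : ℝ) ^ 2 * (A ξ' * B ξ') := by
              rw [i2, mul_one]
            rw [h9]
            linarith
    have hint := ((((((hwini ξ).const_mul ((K : ℝ) ^ 2 * Y)).add ((hTi Ξ).const_mul ((K : ℝ) ^ 2))).add
      (hABi.const_mul (Z ^ 2))).add ((hTi (X2 / 2)).const_mul ((K : ℝ) ^ 2))).add
      (hABi.const_mul ((K : ℝ) ^ 2 * cX)))
    refine (integral_mono_of_nonneg (Filter.Eventually.of_forall fun ξ' => by positivity) hint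
      (Filter.Eventually.of_forall hpt)).trans ?_
    simp only [Pi.add_apply]
    rw [int5 _ _ _ _ _ ((hwini ξ).const_mul ((K : ℝ) ^ 2 * Y)) ((hTi Ξ).const_mul ((K : ℝ) ^ 2))
      (hABi.const_mul (Z ^ 2)) ((hTi (X2 / 2)).const_mul ((K : ℝ) ^ 2))
      (hABi.const_mul ((K : ℝ) ^ 2 * cX)),
      integral_const_mul, integral_const_mul, integral_const_mul, integral_const_mul,
      integral_const_mul]
    have q1 := mul_le_mul_of_nonneg_left (hwin ξ) (show 0 ≤ (K : ℝ) ^ 2 * Y by positivity)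
    have q2 := mul_le_mul_of_nonneg_left (htail Ξ hΞ) (show 0 ≤ (K : ℝ) ^ 2 by positivity)
    have q3 := mul_le_mul_of_nonneg_left hAB (show 0 ≤ Z ^ 2 by positivity)
    have q4 := mul_le_mul_of_nonneg_left (htail (X2 / 2) (by positivity))
      (show 0 ≤ (K : ℝ) ^ 2 by positivity)
    have q5 := mul_le_mul_of_nonneg_left hAB (show 0 ≤ (K : ℝ) ^ 2 * cX by positivity)
    have q6 : D1 / (X2 / 2) = 2 * (D1 / X2) := by field_simp
    rw [q6] at q4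
    simp only [hW]
    linarith
  have hmain := gram φ hφi T lam (fun μ => ∫ s, h1 (s + μ) * (h2 s * e (-(τ * s))))
    (fun μ => corr hh1 hh2 μ τ) W hWb hWi
  have hlhs : ∑ k ∈ T, ∑ k' ∈ T, ‖∫ s, h1 (s + lam k) * h2 (s + lam k') * e (-(τ * s))‖ ^ 2 =
      ∑ k ∈ T, ∑ k' ∈ T, ‖∫ s, h1 (s + (lam k - lam k')) * (h2 s * e (-(τ * s)))‖ ^ 2 := by
    refine Finset.sum_congr rfl fun k _ => Finset.sum_congr rfl fun k' _ => ?_
    rw [norm_corr]
  rw [hlhs]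
  refine hmain.trans ?_
  have hsplit : ∫ ξ, ‖φ ξ‖ * W ξ = ((K : ℝ) ^ 2 * ((Y * √(2 * E) + D1 / Ξ + 2 * (D1 / X2)) * N2) +
      Z ^ 2 * (N1 * N2)) * (∫ ξ, A ξ * B ξ) +
      (K : ℝ) ^ 2 * (N1 * N2) * ∫ ξ, (Set.indicator {ξ : ℝ | X2 / 2 < |ξ|} A ξ) * B ξ := by
    rw [← integral_const_mul, ← integral_const_mul,
      ← integral_add (hABi.const_mul _) ((hTi (X2 / 2)).const_mul _)]
    refine integral_congr_ae (Filter.Eventually.of_forall fun ξ => ?_)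
    simp only [hφn, hW]
    by_cases h : ξ ∈ {ξ : ℝ | X2 / 2 < |ξ|}
    · simp only [Set.indicator_of_mem h]; ring
    · simp only [Set.indicator_of_notMem h]; ring
  rw [hsplit]
  have r1 := mul_le_mul_of_nonneg_left hAB (show 0 ≤ (K : ℝ) ^ 2 *
    ((Y * √(2 * E) + D1 / Ξ + 2 * (D1 / X2)) * N2) + Z ^ 2 * (N1 * N2) by positivity)
  have r2 := mul_le_mul_of_nonneg_left (htail (X2 / 2) (by positivity))
    (show 0 ≤ (K : ℝ) ^ 2 * (N1 * N2) by positivity)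
  have r3 : D1 / (X2 / 2) = 2 * (D1 / X2) := by field_simp
  rw [r3] at r2
  refine (add_le_add r1 r2).trans (le_of_eq ?_)
  ring

end Pool.Agent.H13K.RAYA
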