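import Pool.Agent.H13K.RAYA
import Pool.Agent.H442R2.EHI.Cutoff

/-!
# Project BH, stub RAY, part B: the smooth cutoff and the `L^1` norm of its Fourier transform
-/

set_option autoImplicit false

namespace Pool.Agent.H13K.RAYB

open MeasureTheory FourierTransform Finset
open Pool.Agent.H469R2.NK (e e_add norm_e conj_e e_zero)
open Pool.Agent.H13K.RAYA

/-- the cutoff -/
noncomputable def cut (a b η s : ℝ) : ℝ := Real.smoothTransition ((s - (a - η)) / η) * Real.smoothTransition ((b + η - s) / η)

noncomputable def cut1 (a b η s : ℝ) : ℝ :=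
  (1 / η) * (deriv Real.smoothTransition ((s - (a - η)) / η) * Real.smoothTransition ((b + η - s) / η) -
    Real.smoothTransition ((s - (a - η)) / η) * deriv Real.smoothTransition ((b + η - s) / η))

noncomputable def cut2 (a b η s : ℝ) : ℝ :=
  (1 / η ^ 2) * (deriv (deriv Real.smoothTransition) ((s - (a - η)) / η) * Real.smoothTransition ((b + η - s) / η) -
    2 * (deriv Real.smoothTransition ((s - (a - η)) / η) * deriv Real.smoothTransition ((b + η - s) / η)) +
    Real.smoothTransition ((s - (a - η)) / η) * deriv (deriv Real.smoothTransition) ((b + η - s) / η))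

lemma cut_nonneg (a b η s : ℝ) : 0 ≤ cut a b η s :=
  mul_nonneg (Real.smoothTransition.nonneg _) (Real.smoothTransition.nonneg _)

lemma cut_le_one (a b η s : ℝ) : cut a b η s ≤ 1 :=
  mul_le_one₀ (Real.smoothTransition.le_one _) (Real.smoothTransition.nonneg _)
    (Real.smoothTransition.le_one _)

lemma cut_one {a b η s : ℝ} (hη : 0 < η) (h1 : a ≤ s) (h2 : s ≤ b) : cut a b η s = 1 := by
  unfold cut
  rw [Real.smoothTransition.one_of_one_le, Real.smoothTransition.one_of_one_le, mul_one]
  · rw [le_div_iff₀ hη]; linarith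
  · rw [le_div_iff₀ hη]; linarith

lemma cut_left {a b η s : ℝ} (hη : 0 < η) (h1 : s ≤ a - η) : cut a b η s = 0 := by
  unfold cut
  rw [Real.smoothTransition.zero_of_nonpos, zero_mul]
  exact div_nonpos_of_nonpos_of_nonneg (by linarith) hη.le

lemma cut_right {a b η s : ℝ} (hη : 0 < η) (h1 : b + η ≤ s) : cut a b η s = 0 := by
  unfold cut
  rw [mul_comm, Real.smoothTransition.zero_of_nonpos, zero_mul]
  exact div_nonpos_of_nonpos_of_nonneg (by linarith) hη.le

lemma cut_smooth (a b η : ℝ) : ContDiff ℝ (⊤ : ℕ∞) (cut a b η) := by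
  unfold cut
  refine ContDiff.mul ?_ ?_
  · exact Real.smoothTransition.contDiff.comp ((contDiff_id.sub contDiff_const).div_const _)
  · exact Real.smoothTransition.contDiff.comp ((contDiff_const.sub contDiff_id).div_const _)

lemma psi_facts : Continuous (deriv Real.smoothTransition) ∧ Continuous (deriv (deriv Real.smoothTransition)) ∧
    (∀ x, HasDerivAt Real.smoothTransition (deriv Real.smoothTransition x) x) ∧ (∀ x, HasDerivAt (deriv Real.smoothTransition) (deriv (deriv Real.smoothTransition) x) x) ∧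
    Integrable (deriv Real.smoothTransition) ∧ Integrable (deriv (deriv Real.smoothTransition)) := by
  have hc : ContDiff ℝ 2 Real.smoothTransition := Real.smoothTransition.contDiff
  have h1 : ContDiff ℝ 1 (deriv Real.smoothTransition) := by
    have : ContDiff ℝ (1 + 1) Real.smoothTransition := by
      rw [one_add_one_eq_two]
      exact hc
    exact (contDiff_succ_iff_deriv.1 this).2.2
  have h2 : Continuous (deriv (deriv Real.smoothTransition)) := h1.continuous_deriv le_rfl
  have hz : ∀ x, x ∉ Set.Icc (0 : ℝ) 1 → deriv Real.smoothTransition x = 0 := by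
    intro x hx
    rw [Set.mem_Icc, not_and_or, not_le, not_le] at hx
    rcases hx with h | h
    · have : Real.smoothTransition =ᶠ[nhds x] fun _ => 0 := by
        filter_upwards [Iio_mem_nhds h] with y hy
        exact Real.smoothTransition.zero_of_nonpos (le_of_lt hy)
      rw [this.deriv_eq, deriv_const]
    · have : Real.smoothTransition =ᶠ[nhds x] fun _ => 1 := by
        filter_upwards [Ioi_mem_nhds h] with y hy
        exact Real.smoothTransition.one_of_one_le (le_of_lt hy)
      rw [this.deriv_eq, deriv_const]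
  have hz2 : ∀ x, x ∉ Set.Icc (0 : ℝ) 1 → deriv (deriv Real.smoothTransition) x = 0 := by
    intro x hx
    have hopen : (Set.Icc (0 : ℝ) 1)ᶜ ∈ nhds x := isClosed_Icc.isOpen_compl.mem_nhds hx
    have : deriv Real.smoothTransition =ᶠ[nhds x] fun _ => 0 := by
      filter_upwards [hopen] with y hy
      exact hz y hy
    rw [this.deriv_eq, deriv_const]
  refine ⟨h1.continuous, h2, fun x => ?_, fun x => ?_, ?_, ?_⟩
  · exact (hc.differentiable (by norm_num) x).hasDerivAt
  · exact (h1.differentiable (by norm_num) x).hasDerivAt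
  · exact h1.continuous.integrable_of_hasCompactSupport (HasCompactSupport.intro isCompact_Icc hz)
  · exact h2.integrable_of_hasCompactSupport (HasCompactSupport.intro isCompact_Icc hz2)

lemma d_left (a η s : ℝ) : HasDerivAt (fun s => (s - (a - η)) / η) (1 / η) s :=
  ((hasDerivAt_id s).sub_const _).div_const _

lemma d_right (b η s : ℝ) : HasDerivAt (fun s => (b + η - s) / η) (-(1 / η)) s := by
  have := ((hasDerivAt_id s).const_sub (b + η)).div_const η
  simpa [neg_div] using this

lemma cut_d1 (a b η s : ℝ) : HasDerivAt (cut a b η) (cut1 a b η s) s := by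
  obtain ⟨-, -, h1, h2, -, -⟩ := psi_facts
  have hu := (h1 ((s - (a - η)) / η)).comp s (d_left a η s)
  have hv := (h1 ((b + η - s) / η)).comp s (d_right b η s)
  have := hu.mul hv
  refine this.congr_deriv ?_
  simp only [cut1, Function.comp]
  ring

lemma cut_d2 (a b η s : ℝ) : HasDerivAt (cut1 a b η) (cut2 a b η s) s := by
  obtain ⟨-, -, h1, h2, -, -⟩ := psi_facts
  have hu := (h1 ((s - (a - η)) / η)).comp s (d_left a η s)
  have hv := (h1 ((b + η - s) / η)).comp s (d_right b η s)
  have hu' := (h2 ((s - (a - η)) / η)).comp s (d_left a η s)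
  have hv' := (h2 ((b + η - s) / η)).comp s (d_right b η s)
  have := ((hu'.mul hv).sub (hu.mul hv')).const_mul (1 / η)
  refine this.congr_deriv ?_
  simp only [cut2, Function.comp]
  ring

lemma int_left (g : ℝ → ℝ) {η : ℝ} (hη : 0 < η) (a : ℝ) :
    ∫ s, g ((s - (a - η)) / η) = η * ∫ x, g x := by
  rw [integral_sub_right_eq_self (fun s => g (s / η)) (a - η), Measure.integral_comp_div,
    abs_of_pos hη, smul_eq_mul]

lemma int_right (g : ℝ → ℝ) {η : ℝ} (hη : 0 < η) (b : ℝ) :
    ∫ s, g ((b + η - s) / η) = η * ∫ x, g x := by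
  rw [integral_sub_left_eq_self (fun s => g (s / η)) volume (b + η), Measure.integral_comp_div,
    abs_of_pos hη, smul_eq_mul]

lemma i_left {g : ℝ → ℝ} (hg : Integrable g) {η : ℝ} (hη : 0 < η) (a : ℝ) :
    Integrable (fun s => g ((s - (a - η)) / η)) :=
  (hg.comp_div hη.ne').comp_sub_right (a - η)

lemma i_right {g : ℝ → ℝ} (hg : Integrable g) {η : ℝ} (hη : 0 < η) (b : ℝ) :
    Integrable (fun s => g ((b + η - s) / η)) :=
  (hg.comp_div hη.ne').comp_sub_left (b + η)

lemma half {G : ℝ → ℝ} (hG : Integrable G) {M η : ℝ} (hη : 0 < η) (hη1 : η ≤ 1)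
    (h0 : ∀ x, 0 < x → G x ≤ M) (h1 : ∀ x, 0 < x → G x * x ≤ M) (h2 : ∀ x, 0 < x → G x * x ^ 2 ≤ M / η) :
    ∫ x in Set.Ioi 0, G x ≤ M * (2 - Real.log η) := by
  have hη' : 1 ≤ 1 / η := by rw [le_div_iff₀ hη]; linarith
  have e1 := intervalIntegral.integral_interval_add_Ioi (a := (0 : ℝ)) (b := 1)
    (hG.integrableOn (s := Set.Ioi 0)) (hG.integrableOn (s := Set.Ioi 1))
  have e2 := intervalIntegral.integral_interval_add_Ioi (a := (1 : ℝ)) (b := 1 / η)
    (hG.integrableOn (s := Set.Ioi 1)) (hG.integrableOn (s := Set.Ioi (1 / η)))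
  have b1 : ∫ x in (0 : ℝ)..1, G x ≤ M := by
    rw [intervalIntegral.integral_of_le zero_le_one]
    calc ∫ x in Set.Ioc (0 : ℝ) 1, G x ≤ ∫ x in Set.Ioc (0 : ℝ) 1, M := by
          refine setIntegral_mono_on hG.integrableOn ?_ measurableSet_Ioc fun x hx => h0 x hx.1
          exact integrableOn_const (by simp)
      _ = M := by simp
  have b2 : ∫ x in (1 : ℝ)..(1 / η), G x ≤ M * (-Real.log η) := by
    have hi : IntervalIntegrable (fun x : ℝ => M * x⁻¹) volume 1 (1 / η) := by
      refine (ContinuousOn.intervalIntegrable ?_)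
      rw [Set.uIcc_of_le hη']
      refine continuousOn_const.mul (continuousOn_id.inv₀ fun x hx => ?_)
      have : (0 : ℝ) < x := lt_of_lt_of_le zero_lt_one hx.1
      exact this.ne'
    calc ∫ x in (1 : ℝ)..(1 / η), G x ≤ ∫ x in (1 : ℝ)..(1 / η), M * x⁻¹ := by
          refine intervalIntegral.integral_mono_on hη' hG.intervalIntegrable hi fun x hx => ?_
          have hx0 : (0 : ℝ) < x := lt_of_lt_of_le zero_lt_one hx.1
          rw [← div_eq_mul_inv, le_div_iff₀ hx0]
          exact h1 x hx0
      _ = M * (-Real.log η) := by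
          rw [intervalIntegral.integral_const_mul, integral_inv_of_pos one_pos (by positivity),
            div_one, one_div, Real.log_inv]
  have b3 : ∫ x in Set.Ioi (1 / η), G x ≤ M := by
    have hi : IntegrableOn (fun x : ℝ => M / η * x ^ (-2 : ℝ)) (Set.Ioi (1 / η)) :=
      (integrableOn_Ioi_rpow_of_lt (by norm_num) (by positivity)).const_mul _
    calc ∫ x in Set.Ioi (1 / η), G x ≤ ∫ x in Set.Ioi (1 / η), M / η * x ^ (-2 : ℝ) := by
          refine setIntegral_mono_on hG.integrableOn hi measurableSet_Ioi fun x hx => ?_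
          have hx0 : (0 : ℝ) < x := lt_trans (by positivity) (Set.mem_Ioi.1 hx)
          rw [Real.rpow_neg hx0.le, ← div_eq_mul_inv, le_div_iff₀ (by positivity)]
          have := h2 x hx0
          simpa using this
      _ = M := by
          rw [integral_const_mul, integral_Ioi_rpow_of_lt (by norm_num) (by positivity)]
          have h3 : (-2 + 1 : ℝ) = -1 := by norm_num
          rw [h3, Real.rpow_neg_one, one_div, inv_inv]
          field_simp
  rw [← e1, ← e2]
  linarith

lemma whole {F : ℝ → ℂ} (hF : Integrable F) {M η : ℝ} (hη : 0 < η) (hη1 : η ≤ 1)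
    (h0 : ∀ x, ‖F x‖ ≤ M) (h1 : ∀ x, ‖F x‖ * |x| ≤ M) (h2 : ∀ x, ‖F x‖ * x ^ 2 ≤ M / η) :
    ∫ x, ‖F x‖ ≤ 2 * M * (2 - Real.log η) := by
  have e1 : (∫ x in Set.Iic 0, ‖F x‖) + (∫ x in Set.Ioi 0, ‖F x‖) = ∫ x, ‖F x‖ :=
    intervalIntegral.integral_Iic_add_Ioi hF.norm.integrableOn hF.norm.integrableOn
  have e2 : ∫ x in Set.Iic 0, ‖F x‖ = ∫ x in Set.Ioi 0, ‖F (-x)‖ := by
    have := integral_comp_neg_Ioi (0 : ℝ) (fun x => ‖F x‖)
    rw [this, neg_zero]
  have b1 := half hF.norm hη hη1 (fun x _ => h0 x)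
    (fun x hx => by have := h1 x; rwa [abs_of_pos hx] at this) (fun x _ => h2 x)
  have b2 := half (G := fun x => ‖F (-x)‖) hF.norm.comp_neg hη hη1 (fun x _ => h0 (-x))
    (fun x hx => by have := h1 (-x); rwa [abs_neg, abs_of_pos hx] at this)
    (fun x _ => by have := h2 (-x); rwa [neg_sq] at this)
  rw [← e1, e2]
  linarith

/-- complex valued cutoff -/
noncomputable def cc (a b η s : ℝ) : ℂ := (cut a b η s : ℂ)

lemma cc_SC {a b η : ℝ} (hη : 0 < η) : SC (cc a b η) := by
  refine ⟨Complex.ofRealCLM.contDiff.comp (cut_smooth a b η), ?_⟩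
  refine HasCompactSupport.intro (K := Set.Icc (a - η) (b + η)) isCompact_Icc fun x hx => ?_
  rw [Set.mem_Icc, not_and_or, not_le, not_le] at hx
  unfold cc
  rcases hx with h | h
  · rw [cut_left hη h.le, Complex.ofReal_zero]
  · rw [cut_right hη h.le, Complex.ofReal_zero]

lemma deriv_cc (a b η : ℝ) : deriv (cc a b η) = fun s => (cut1 a b η s : ℂ) := by
  funext s
  exact (cut_d1 a b η s).ofReal_comp.deriv

lemma deriv2_cc (a b η : ℝ) : deriv (deriv (cc a b η)) = fun s => (cut2 a b η s : ℂ) := by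
  rw [deriv_cc]
  funext s
  exact (cut_d2 a b η s).ofReal_comp.deriv

lemma scDeriv {h : ℝ → ℂ} (hh : SC h) : SC (deriv h) := by
  refine ⟨?_, hh.2.deriv⟩
  have h2 : ContDiff ℝ ((⊤ : ℕ∞) + 1) h := by simpa using hh.1
  exact ((contDiff_succ_iff_deriv.1 h2).2.2)

lemma scInt {h : ℝ → ℂ} (hh : SC h) : Integrable h :=
  hh.1.continuous.integrable_of_hasCompactSupport hh.2

lemma ft_deriv {h : ℝ → ℂ} (hh : SC h) (ξ : ℝ) :
    ft (deriv h) ξ = (2 * Real.pi * Complex.I * ξ) * ft h ξ := by
  have := congrFun (Real.fourier_deriv (f := h) (scInt hh)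
      (hh.1.differentiable (by simp)) (scInt (scDeriv hh))) ξ
  rw [ft_eq, ft_eq, this]
  simp [smul_eq_mul]

lemma norm_ft_le (h : ℝ → ℂ) (ξ : ℝ) : ‖ft h ξ‖ ≤ ∫ s, ‖h s‖ := by
  unfold ft
  refine (norm_integral_le_integral_norm _).trans (le_of_eq ?_)
  refine integral_congr_ae (Filter.Eventually.of_forall fun ξ' => ?_)
  simp only
  rw [norm_mul, norm_e, mul_one]

lemma ft_one {h : ℝ → ℂ} (hh : SC h) (ξ : ℝ) : ‖ft h ξ‖ * |ξ| ≤ ∫ s, ‖deriv h s‖ := by
  have h1 := norm_ft_le (deriv h) ξ
  rw [ft_deriv hh, norm_mul] at h1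
  have h3 : ‖(2 * Real.pi * Complex.I * ξ : ℂ)‖ = 2 * Real.pi * |ξ| := by
    simp [abs_of_pos Real.pi_pos]
  rw [h3] at h1
  refine le_trans ?_ h1
  have h4 : 0 ≤ ‖ft h ξ‖ * |ξ| := by positivity
  nlinarith [Real.pi_gt_three]

lemma ft_two {h : ℝ → ℂ} (hh : SC h) (ξ : ℝ) : ‖ft h ξ‖ * ξ ^ 2 ≤ ∫ s, ‖deriv (deriv h) s‖ := by
  have h1 := ft_one (scDeriv hh) ξ
  rw [ft_deriv hh, norm_mul] at h1
  have h3 : ‖(2 * Real.pi * Complex.I * ξ : ℂ)‖ = 2 * Real.pi * |ξ| := by
    simp [abs_of_pos Real.pi_pos]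
  rw [h3] at h1
  refine le_trans ?_ h1
  have h4 : 0 ≤ ‖ft h ξ‖ * |ξ| ^ 2 := by positivity
  rw [← sq_abs ξ]
  nlinarith [Real.pi_gt_three]

/-- the `L^1` norm of the Fourier transform of the cutoff -/
theorem l1 : ∃ C : ℝ, 1 ≤ C ∧ ∀ a b η : ℝ, 0 < η → η ≤ 1 → a ≤ b → b ≤ a + 1 →
    ∫ ξ, ‖ft (cc a b η) ξ‖ ≤ C * (1 - Real.log η) := by
  obtain ⟨K, hK, hK1, -⟩ := Pool.Agent.H442R2.EHI.Cutoff_bounds
  obtain ⟨hc1, hc2, hd1, hd2, hi1, hi2⟩ := psi_facts
  set I1 : ℝ := ∫ x, |deriv Real.smoothTransition x| with hI1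
  set I2 : ℝ := ∫ x, |deriv (deriv Real.smoothTransition) x| with hI2
  have hI10 : 0 ≤ I1 := integral_nonneg fun x => abs_nonneg _
  have hI20 : 0 ≤ I2 := integral_nonneg fun x => abs_nonneg _
  set M : ℝ := 3 + 2 * I1 + (2 * I2 + 2 * K * I1) with hM
  refine ⟨4 * M, by nlinarith, fun a b η hη hη1 hab hba => ?_⟩
  have hp0 : ∀ x, |Real.smoothTransition x| ≤ 1 := fun x => by
    rw [abs_of_nonneg (Real.smoothTransition.nonneg x)]
    exact Real.smoothTransition.le_one x
  have hsc : SC (cc a b η) := cc_SC hη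
  have m0 : ∀ ξ, ‖ft (cc a b η) ξ‖ ≤ M := by
    intro ξ
    refine (norm_ft_le _ _).trans ?_
    have h3 : ∫ s, ‖cc a b η s‖ ≤ ∫ s, Set.indicator (Set.Icc (a - η) (b + η)) (fun _ => (1 : ℝ)) s := by
      refine integral_mono (scInt hsc).norm ?_ fun s => ?_
      · rw [integrable_indicator_iff measurableSet_Icc]
        exact integrableOn_const (by simp)
      · simp only [cc, Complex.norm_real, Real.norm_eq_abs, abs_of_nonneg (cut_nonneg _ _ _ _)]
        by_cases h : s ∈ Set.Icc (a - η) (b + η)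
        · rw [Set.indicator_of_mem h]
          exact cut_le_one _ _ _ _
        · rw [Set.indicator_of_notMem h]
          rw [Set.mem_Icc, not_and_or, not_le, not_le] at h
          rcases h with h | h
          · rw [cut_left hη h.le]
          · rw [cut_right hη h.le]
    refine h3.trans ?_
    rw [integral_indicator measurableSet_Icc, setIntegral_const, smul_eq_mul, mul_one]
    simp only [Measure.real, Real.volume_Icc]
    rw [ENNReal.toReal_ofReal (by linarith)]
    nlinarith
  have m1 : ∀ ξ, ‖ft (cc a b η) ξ‖ * |ξ| ≤ M := by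
    intro ξ
    refine (ft_one hsc ξ).trans ?_
    rw [deriv_cc]
    have h3 : ∫ s, ‖((cut1 a b η s : ℝ) : ℂ)‖ ≤ ∫ s, (1 / η) * (|deriv Real.smoothTransition ((s - (a - η)) / η)| +
        |deriv Real.smoothTransition ((b + η - s) / η)|) := by
      have hI := ((i_left hi1.abs hη a).add (i_right hi1.abs hη b)).const_mul (1 / η)
      refine integral_mono_of_nonneg (Filter.Eventually.of_forall fun s => norm_nonneg _) hI
        (Filter.Eventually.of_forall fun s => ?_)
      simp only [Complex.norm_real, Real.norm_eq_abs, cut1]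
      rw [abs_mul, abs_of_pos (by positivity : 0 < 1 / η)]
      refine mul_le_mul_of_nonneg_left ?_ (by positivity)
      refine (abs_sub _ _).trans ?_
      rw [abs_mul, abs_mul]
      have a1 := mul_le_mul_of_nonneg_left (hp0 ((b + η - s) / η)) (abs_nonneg (deriv Real.smoothTransition ((s - (a - η)) / η)))
      have a2 := mul_le_mul_of_nonneg_right (hp0 ((s - (a - η)) / η)) (abs_nonneg (deriv Real.smoothTransition ((b + η - s) / η)))
      linarith
    refine h3.trans ?_
    rw [integral_const_mul, integral_add (i_left hi1.abs hη a) (i_right hi1.abs hη b),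
      int_left (fun x => |deriv Real.smoothTransition x|) hη a, int_right (fun x => |deriv Real.smoothTransition x|) hη b]
    have : 1 / η * (η * I1 + η * I1) = 2 * I1 := by field_simp; ring
    rw [this]
    nlinarith
  have m2 : ∀ ξ, ‖ft (cc a b η) ξ‖ * ξ ^ 2 ≤ M / η := by
    intro ξ
    refine (ft_two hsc ξ).trans ?_
    rw [deriv2_cc]
    have h3 : ∫ s, ‖((cut2 a b η s : ℝ) : ℂ)‖ ≤ ∫ s, (1 / η ^ 2) *
        ((|deriv (deriv Real.smoothTransition) ((s - (a - η)) / η)| + |deriv (deriv Real.smoothTransition) ((b + η - s) / η)|) +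
          2 * K * |deriv Real.smoothTransition ((s - (a - η)) / η)|) := by
      have hI := (((i_left hi2.abs hη a).add (i_right hi2.abs hη b)).add
        ((i_left hi1.abs hη a).const_mul (2 * K))).const_mul (1 / η ^ 2)
      refine integral_mono_of_nonneg (Filter.Eventually.of_forall fun s => norm_nonneg _) hI
        (Filter.Eventually.of_forall fun s => ?_)
      simp only [Complex.norm_real, Real.norm_eq_abs, cut2, Pi.add_apply]
      rw [abs_mul, abs_of_pos (by positivity : 0 < 1 / η ^ 2)]
      refine mul_le_mul_of_nonneg_left ?_ (by positivity)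
      refine (abs_add_le _ _).trans ?_
      have a0 := abs_sub (deriv (deriv Real.smoothTransition) ((s - (a - η)) / η) * Real.smoothTransition ((b + η - s) / η))
        (2 * (deriv Real.smoothTransition ((s - (a - η)) / η) * deriv Real.smoothTransition ((b + η - s) / η)))
      rw [abs_mul (deriv (deriv Real.smoothTransition) ((s - (a - η)) / η)), abs_mul 2, abs_mul (deriv Real.smoothTransition ((s - (a - η)) / η)),
        abs_of_pos (by norm_num : (0 : ℝ) < 2)] at a0
      rw [abs_mul (Real.smoothTransition ((s - (a - η)) / η))]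
      have a1 := mul_le_mul_of_nonneg_left (hp0 ((b + η - s) / η))
        (abs_nonneg (deriv (deriv Real.smoothTransition) ((s - (a - η)) / η)))
      have a2 := mul_le_mul_of_nonneg_right (hp0 ((s - (a - η)) / η))
        (abs_nonneg (deriv (deriv Real.smoothTransition) ((b + η - s) / η)))
      have a3 := mul_le_mul_of_nonneg_left (hK1 ((b + η - s) / η))
        (abs_nonneg (deriv Real.smoothTransition ((s - (a - η)) / η)))
      linarith
    refine h3.trans ?_
    rw [integral_const_mul]
    have e1 := integral_add (f := fun s => |deriv (deriv Real.smoothTransition) ((s - (a - η)) / η)| +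
      |deriv (deriv Real.smoothTransition) ((b + η - s) / η)|) (g := fun s => 2 * K * |deriv Real.smoothTransition ((s - (a - η)) / η)|)
      ((i_left hi2.abs hη a).add (i_right hi2.abs hη b)) ((i_left hi1.abs hη a).const_mul (2 * K))
    rw [e1, integral_add (i_left hi2.abs hη a) (i_right hi2.abs hη b), integral_const_mul,
      int_left (fun x => |deriv (deriv Real.smoothTransition) x|) hη a, int_right (fun x => |deriv (deriv Real.smoothTransition) x|) hη b,
      int_left (fun x => |deriv Real.smoothTransition x|) hη a]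
    have : 1 / η ^ 2 * (η * I2 + η * I2 + 2 * K * (η * I1)) = (2 * I2 + 2 * K * I1) / η := by
      field_simp; ring
    rw [this]
    refine div_le_div_of_nonneg_right ?_ hη.le
    nlinarith
  have := whole (ft_int hsc) hη hη1 m0 m1 m2
  refine this.trans ?_
  have hlog : Real.log η ≤ 0 := Real.log_nonpos hη.le hη1
  have hM0 : 0 ≤ M := by positivity
  nlinarith

end Pool.Agent.H13K.RAYB
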