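import Pool.Agent.H13K.Defs

/-!
# Project BH (helper13), part K: statements

The correlation kernel of one random polynomial. Notation: `N = 2 R + 1` (the modulus), `L = log H`.
Stub `X`: file `Pool/Agent/H13K/X.lean`, theorem `Pool.Agent.H13K.X.t` of the type given in the table `bhstubs`
(usually `S_X`, or an implication).
-/

set_option autoImplicit false

namespace Pool.Agent.H13K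

open Finset
open Pool.Agent.H469R2.NK (e)
open Pool.Agent.H442R2.EHI (nint)
open Pool.Agent.H300R2.FB (pw)
open Pool.Agent.Q236.CR (nt)
open Pool.Agent.H373R2.T7 (lamz pz Vz)
open Pool.Agent.H13V (fz)

/-- **VZ** (Mertens): search the library first, e.g. `Pool/Agent/H202R2/FB_SSUpper.lean`, or any file on Mertens' theorem.
`∏_{p ≤ z} (1 - 1/p)⁻¹ ≤ C log z`. (Proof: `-log(1 - 1/p) ≤ 1/p + 1/p^2` for `p ≥ 2` and `∑_{p ≤ z} 1/p ≤ log log z + C`.) -/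
def S_VZ : Prop := ∃ C : ℝ, 1 ≤ C ∧ ∀ z : ℕ, 2 ≤ z → (Vz z)⁻¹ ≤ C * Real.log z

/-- **WTF**: properties of the weights. `S(a) = ∑_{h < M} e(a h / N)`.
* `8 |a| M ≤ N`: all `|a h / N| ≤ 1/8`, real parts `≥ cos(π/4)`, so `|S|^2 ≥ M^2/2`.
* `|S(a)| ≤ 1 / |sin (π a / N)| ≤ N / (2 |a|)` for `0 < |a| ≤ R` (geometric sum).
* Lipschitz: `|S(a) - S(b)| ≤ ∑_h 2 π h |a - b| / N ≤ π M^2 |a - b| / N` and `|S| ≤ M`; `4 π ≤ 13`.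
* Fourier transform: `|S(a)|^2 = ∑_{h,h'} e(a (h - h') / N)` and `∑_{a ∈ cs R} e(a t / N) = N` or `0`.
* `wh ≠ 0` gives `N ∣ h - h' + t` with `|h - h'| ≤ M - 1`. `wh ≤ 2 N / M`: for each `h` at most one `h'` as `M ≤ N`. -/
def S_WTF : Prop := ∀ R M : ℕ, 1 ≤ M → M ≤ 2 * R + 1 →
  (∀ a : ℤ, 0 ≤ wt R M a) ∧ (∀ a : ℤ, wt R M a ≤ 2) ∧ (∀ a : ℤ, wt R M (a + (2 * R + 1)) = wt R M a) ∧
  (∀ a : ℤ, 8 * |a| * M ≤ 2 * R + 1 → 1 ≤ wt R M a) ∧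
  (∀ a ∈ cs R, a ≠ 0 → wt R M a ≤ ((2 * R + 1 : ℝ) / M) ^ 2 / (2 * (a : ℝ) ^ 2)) ∧
  (∀ a b : ℤ, |wt R M a - wt R M b| ≤ 13 * (M / (2 * R + 1 : ℝ)) * |(a : ℝ) - b|) ∧
  (∀ t : ℤ, ∑ a ∈ cs R, (wt R M a : ℂ) * e ((a : ℝ) * t / (2 * R + 1)) = (wh R M t : ℂ)) ∧
  (∑ a ∈ cs R, wt R M a = 2 * (2 * R + 1) / M) ∧
  (∀ t : ℤ, 0 ≤ wh R M t ∧ wh R M t ≤ 2 * (2 * R + 1) / M) ∧
  (∀ t : ℤ, wh R M t ≠ 0 → nint ((t : ℝ) / (2 * R + 1)) < M / (2 * R + 1))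

/-- **FIN**: Fourier inversion and Parseval modulo `2 R + 1`. -/
def S_FIN : Prop := ∀ (R : ℕ) (U : ℤ → ℂ), (∀ y, U (y + (2 * R + 1)) = U y) →
  (∀ y, tr R (fc R U) y = U y) ∧
  ∑ h ∈ range (2 * R + 1), ‖fc R U h‖ ^ 2 = (∑ y ∈ cs R, ‖U y‖ ^ 2) / (2 * R + 1)

/-- **EXP** (type `S_WTF → S_EXP`, or prove it directly): expansion of the kernel. Proof: insert the two trigonometric
polynomials, exchange the sums; `e(h F_a(k)/N) e(h' F_a(k')/N) = ∏_l e(a_l (h k^l + h' k'^l) / N)`, and the sum over `a` is a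
product of sums over `cs R` (`Finset.prod_univ_sum`). (If `M = 0` both sides vanish.) -/
def S_EXP : Prop := ∀ (d R M : ℕ) (c c' : ℕ → ℂ) (k k' : ℕ), M ≤ 2 * R + 1 →
  ker d R M (tr R c) (tr R c') k k' = ∑ h ∈ range (2 * R + 1), ∑ h' ∈ range (2 * R + 1),
    c h * c' h' *
      ((∏ l : Fin (d + 1), wh R M ((h : ℤ) * (k : ℤ) ^ (l : ℕ) + (h' : ℤ) * (k' : ℤ) ^ (l : ℕ)) : ℝ) : ℂ)

open Classical in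
/-- **MIN** (type `S_WTF → S_EXP → S_MIN`): the minor arcs, in `L^1` over the pairs `(k, k')`. Proof. By EXP,
`|ker| ≤ (2N/M)^{d+1} ∑_{h,h'} |c h| |c' h'| 1[good]`, good: all the `d + 1` factors `wh` are nonzero, so
`‖(h k^l + h' k'^l)/N‖ < M/N ≤ 1/(2A)` for all `l ≤ d`. Cauchy-Schwarz over the good quadruples with `c h ≠ 0`:
`∑_{k,k'} |ker| ≤ (2N/M)^{d+1} (∑_quad |c h|^2)^{1/2} (∑_quad |c' h'|^2)^{1/2}`.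
Fibres: for given `k, k', h` the number of the `h' ∈ range N` is `≤ F := 4 N / (A K1^d) + 1` by
`Pool.Agent.H300R2.FB.fibre_full` (file `H300R2/FB/F3.lean`, with `A = D := A`, `w l = - h k^l / N`, `nint` is even); for
given `k, k', h'` the number of the `h` is `≤ F` in the same way. So the first sum is
`≤ ∑_h |c h|^2 · #{(k,k') : ∃ h' good} · F ≤ Rc F ∑ |c|^2` (`β = -h'/N` in the hypothesis), the second one is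
`≤ (#T)^2 F ∑ |c'|^2`. -/
def S_MIN : Prop := ∀ (d R M A K1 K : ℕ) (T : Finset ℕ) (c c' : ℕ → ℂ) (Rc : ℝ), 1 ≤ d → 1 ≤ M → 1 ≤ K1 →
  4 * K ≤ A → 2 * A * M ≤ 2 * R + 1 → T ⊆ Icc K1 K → 0 ≤ Rc →
  (∀ h ∈ range (2 * R + 1), c h ≠ 0 → (((T ×ˢ T).filter (fun kk : ℕ × ℕ => ∃ β : ℝ,
    (∀ l < d, nint ((h : ℝ) / (2 * R + 1) * (kk.1 : ℝ) ^ l - β * (kk.2 : ℝ) ^ l) ≤ 1 / (2 * (A : ℝ))) ∧
    nint ((h : ℝ) / (2 * R + 1) * (kk.1 : ℝ) ^ d - β * (kk.2 : ℝ) ^ d) ≤ 1 / (2 * (A : ℝ)))).card : ℝ) ≤ Rc) →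
  ∑ k ∈ T, ∑ k' ∈ T, ‖ker d R M (tr R c) (tr R c') k k'‖ ≤
    (2 * (2 * R + 1) / M) ^ (d + 1) * (4 * (2 * R + 1) / (A * (K1 : ℝ) ^ d) + 1) * √Rc * T.card *
      (√(∑ h ∈ range (2 * R + 1), ‖c h‖ ^ 2) * √(∑ h ∈ range (2 * R + 1), ‖c' h‖ ^ 2))

/-- **MAJ** (type `S_WTF → S_EXP → S_MAJ`): the major arcs are localised in both variables, and `k ≡ k' (mod q)`.
Proof. In the expansion EXP take `h, h'` with `c h ≠ 0` and all factors `wh ≠ 0`: `‖(h k^l + h' k'^l)/N‖ ≤ ω` for `l ≤ d`.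
Write `h/N = b/q + m + β`, `|β| ≤ δ₁`. `l = 0`: `h'/N = -b/q + m' + β'`, `|β'| ≤ ω + δ₁`. Put `B_l = ω + δ₁ K^l`.
Induction on `l`: `|β'| k'^l ≤ B_l` for `0 ≤ l ≤ d`. For `1 ≤ l ≤ d` the number `(h k^l + h' k'^l)/N` is
`b (k^l - k'^l)/q + integer + (β k^l + β' k'^l)` and `|β k^l + β' k'^l| ≤ δ₁ K^l + K B_{l-1} ≤ K ω + 2 δ₁ K^d`, so
`‖b (k^l - k'^l)/q‖ ≤ (K + 1) ω + 2 δ₁ K^d ≤ 2 (K+1) (ω + δ₁ K^{d-1}) ≤ 1/(2q) < 1/q`, hence `q ∣ b (k^l - k'^l)`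
(`Pool.Agent.H993R2.FB.dvd_of_nint`), for `l = 1`: `q ∣ k - k'`. Then `β k^l + β' k'^l` is within `ω` of an integer and
is `< 1/2` in absolute value, so `|β k^l + β' k'^l| ≤ ω` and `|β'| k'^l ≤ B_l`. For `l = d`: `|β'| ≤ B_d / K1^d ≤ δ₂`, so
`χ h' = 1`. Hence all nonzero terms have `q ∣ k - k'` and `χ h' = 1`. -/
def S_MAJ : Prop := ∀ (d R M K1 K q : ℕ) (b : ℤ) (ω δ₁ δ₂ : ℝ) (c c' : ℕ → ℂ) (χ : ℕ → ℝ), 1 ≤ d → 1 ≤ M →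
  M ≤ 2 * R + 1 → (M : ℝ) ≤ ω * (2 * R + 1) → 1 ≤ q → IsCoprime b (q : ℤ) → 1 ≤ K1 → 0 ≤ δ₁ →
  4 * q * (K + 1) * (ω + δ₁ * (K : ℝ) ^ (d - 1)) ≤ 1 → ω + δ₁ * (K : ℝ) ^ d ≤ δ₂ * (K1 : ℝ) ^ d →
  (∀ h ∈ range (2 * R + 1), c h ≠ 0 → nint ((h : ℝ) / (2 * R + 1) - b / q) ≤ δ₁) →
  (∀ h ∈ range (2 * R + 1), nint ((h : ℝ) / (2 * R + 1) + b / q) ≤ δ₂ → χ h = 1) →
  ∀ k ∈ Icc K1 K, ∀ k' ∈ Icc K1 K, ker d R M (tr R c) (tr R c') k k' =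
    if (q : ℤ) ∣ (k : ℤ) - k' then ker d R M (tr R c) (tr R (fun h => (χ h : ℂ) * c' h)) k k' else 0

/-- **PRJ**: the smooth projection as a convolution. Proof. `h ↦ j = bmod (h - h0) N` is a bijection of `range N` with
`[-R, R]`, `chi = tz M j = 0` for `|j| ≥ 2M`; insert `fc`, exchange the sums:
`∑_n per(n) e(h0 (y - n)/N) vp(y - n)` over `n ∈ cs R` (`y - n` is an integer, so `e(h (y-n)/N) = e((h0 + j)(y - n)/N)`);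
`per n = u |n|` for `|n| ≤ x`, `0` for `x < |n| ≤ R`; `e(h0 (y-n)/N) = e(b y / q) e(-b n / q) e(θ (y - n))`. -/
def S_PRJ : Prop := ∀ (R M x q : ℕ) (h0 b : ℤ) (u : ℕ → ℝ), 1 ≤ M → 2 * M ≤ R → x ≤ R → 1 ≤ q → ∀ y : ℤ,
  tr R (fun h => (chi R M h0 h : ℂ) * fc R (per R x u) h) y =
    e ((b : ℝ) * y / q) * gq R M ((h0 : ℝ) / (2 * R + 1) - b / q) q b x u y

/-- **VPB**: bounds for the kernel. Proof. `tz M j = 2 (1 - |j|/(2M))_+ - (1 - |j|/M)_+`, and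
`(1/N) ∑_{|j| < M} (1 - |j|/M) e(j t / N) = (1/(N M)) |S_M(t)|^2`, `S_M(t) = ∑_{j < M} e(j t / N)`. For `|t| ≤ N/2`:
`|S_M(t)| ≤ min(M, N / (2|t|))` and `|S_M'(t)| ≤ (2π/N) M · min(M, 2 N / |t|)` (Abel summation). So
`|vp| ≤ C min(M/N, N/(M t^2))`, `|vp'| ≤ C (M/N) min(M/N, N/(M t^2))`. -/
def S_VPB : Prop := ∃ C : ℝ, 1 ≤ C ∧ ∀ (R M : ℕ) (t : ℝ), 1 ≤ M → 2 * M ≤ R →
  vp R M (t + (2 * R + 1)) = vp R M t ∧ Differentiable ℝ (vp R M) ∧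
  (|t| ≤ (2 * R + 1) / 2 →
    ‖vp R M t‖ ≤ C * (M / (2 * R + 1)) ∧ ‖vp R M t‖ * t ^ 2 ≤ C * ((2 * R + 1) / M) ∧
    ‖deriv (vp R M) t‖ ≤ C * (M / (2 * R + 1)) ^ 2 ∧ ‖deriv (vp R M) t‖ * t ^ 2 ≤ C)

/-- **GQB** (type `S_VPB → S_GQB`): sup norm and Lipschitz bound of `gq`. Proof. For real `y` the sum over `n ∈ [-x, x]` is at
most the sum over a full period of `C min(M/N, N/(M t_n^2))`, `t_n = y - n` reduced modulo `N` to `|t_n| ≤ N/2`; the `t_n`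
are spaced by `1`: `≤ C (2 N/M + 3) M/N + 2 C (N/M) ∑_{i ≥ N/M} 1/i^2 ≤ C'`. The derivative: the same with an additional
factor `M/N`, and `2π|θ| ≤ 7/N ≤ 7 M/N`; mean value theorem. `gq` is a finite sum of smooth functions. -/
def S_GQB : Prop := ∃ C : ℝ, 1 ≤ C ∧ ∀ (R M x q : ℕ) (θ S : ℝ) (b : ℤ) (u : ℕ → ℝ), 1 ≤ M → 2 * M ≤ R → x ≤ R →
  |θ| ≤ 1 / (2 * R + 1) → (∀ n, |u n| ≤ S) →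
  (∀ y, ‖gq R M θ q b x u y‖ ≤ C * S) ∧
  (∀ y y', ‖gq R M θ q b x u y - gq R M θ q b x u y'‖ ≤ C * S * (M / (2 * R + 1)) * |y - y'|) ∧
  ContDiff ℝ (⊤ : ℕ∞) (gq R M θ q b x u)

/-- **MEL** (type `S_VPB → S_MEL`): the Mellin transform of `gq` is bounded by twisted sums. Proof. `κ(t) = e(θ t) vp(t)`. With
`y = e^s` the integral is `∑_{0 < |n| ≤ x} u(|n|) e(-b n/q) ∫_{x0}^{x1} y^{-1/2 - 2πiξ} ρ(log y) κ(σ y - n) dy`.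
Terms `n = -σ n'`, `n' ≥ 1`: `|κ| ≤ C N/(M (y + n')^2)` (`y + n' ≤ x1 + x ≤ R`), `∑_{n'} (y + n')^{-2} ≤ 1/y`; total
`≤ 2 C S (N/M) x0^{-1/2}`.
Terms `n = σ n'`, `n' = n ≥ 1`: `n^{-2πiξ} = nt (2πξ) n`; put `w(v) = ∫ (v + t)^{-1/2} (1 + t/v)^{-2πiξ} ρ(log (v + t)) κ(σ t) dt`
over the real `t` with `v + t > 0` (`ρ(log(v+t)) = 0` unless `x0 ≤ v + t ≤ x1`), `v ≥ 1`, so the term is
`u(n) e(-σ b n/q) nt (2πξ) n · w(n)`. Abel summation: `≤ S1 (|w(x)| + ∑_{n < x} |w(n+1) - w(n)|)`. By VPB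
`∫_{|t| ≤ R} |κ| ≤ C`, `∫_{|t| ≤ R} |κ(t)| |t| dt ≤ C (N/M) (1 + log N)`; `|w| ≤ C x0^{-1/2}`. For fixed `t` the integrand is a
`C^1` function of `v`, with derivative at most
`|κ| (v+t)^{-1/2} ((1 + Cr)/(v + t) + 2π|ξ| |t| / (v (v + t)))`, `v + t ≥ x0`. So
`|w(n+1) - w(n)| ≤ C (1 + Cr) x0^{-3/2} + C |ξ| x0^{-3/2} (N/M) (1 + log N) / n`; add over `n < x`. -/
def S_MEL : Prop := ∀ Cr : ℝ, ∃ C : ℝ, 1 ≤ C ∧ ∀ (R M x q : ℕ) (θ S S1 Ξ x0 x1 σ : ℝ) (b : ℤ) (u : ℕ → ℝ)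
  (ρ : ℝ → ℝ), 1 ≤ M → 2 * M ≤ R → 1 ≤ x → 1 ≤ x0 → x0 ≤ x1 → x + x1 ≤ R → |θ| ≤ 1 / (2 * R + 1) →
  (σ = 1 ∨ σ = -1) → (∀ n, |u n| ≤ S) → u 0 = 0 → 0 ≤ Ξ →
  (∀ τ : ℝ, |τ| ≤ 2 * Real.pi * Ξ → ∀ y : ℕ, y ≤ x →
    ‖∑ n ∈ Icc 1 y, (u n : ℂ) * e (-(σ * b * n / q)) * nt τ n‖ ≤ S1) →
  ContDiff ℝ (⊤ : ℕ∞) ρ → (∀ s, 0 ≤ ρ s ∧ ρ s ≤ 1) → (∀ s, |deriv ρ s| ≤ Cr) →
  (∀ s, s ≤ Real.log x0 → ρ s = 0) → (∀ s, Real.log x1 ≤ s → ρ s = 0) →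
  ∀ ξ : ℝ, |ξ| ≤ Ξ →
    ‖∫ s : ℝ, ((Real.exp (s / 2) * ρ s : ℝ) : ℂ) * gq R M θ q b x u (σ * Real.exp s) * e (-(ξ * s))‖ ≤
      C * (S1 * x0 ^ (-(3 / 2) : ℝ) * (x0 + x + Ξ * ((2 * R + 1) / M) * (1 + Real.log (2 * R + 1)) ^ 2) +
        S * ((2 * R + 1) / M) * x0 ^ (-(1 / 2) : ℝ))

/-- **VDC** (from `Pool.Agent.H300R2.FB.vdcPoly`, file `H300R2/FB/Vdc.lean`, with `M = 3`; adapt
`Pool/Agent/H497R2/FB_KSumQ.lean`, where `L = log x` and `K ≥ x^ε`; here `L` is any large number and `K ≥ L^B`).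
Proof. `k = q n + r`: `pw d b (q n + r + c) = q^d pw d b' (n + (r + c)/q)`, `b'_i = b_i / q^{d-1-i}` (lemma `pw_scale`; `VdcPoly`
allows the real shift `u`). Cut the range of `n` into `≤ 2 Ea log L + 4` blocks `[u, u + ℓ]` with `J ≤ u`, `ℓ ≤ J`,
`u + ℓ ≤ 3 J`, `J ≥ K1/(4q) ≥ L^{B/2}`; `|b'_i| ≤ L^{Ea} ≤ κ J^{d-1-i}` because `d - 1 - i ≥ 1`; `|η| ≤ K^2 ≤ J^3`. Each block
is `≤ C (J^{1-η₀} + J/|η|)`, `J ≤ K`, `J^{η₀} ≥ L^{U+2}` if `B` is large, and `|η| ≥ L^{E4}`. (`r ≥ q`: empty sum.) -/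
def S_VDC : Prop := ∀ d Ea U : ℕ, 1 ≤ d → ∃ (E4 B : ℕ) (L0 : ℝ), 1 ≤ L0 ∧ ∀ L : ℝ, L0 ≤ L →
  ∀ K K1 q r : ℕ, L ^ B ≤ K → K1 ≤ K → (K : ℝ) ≤ K1 * L ^ Ea → 1 ≤ q → (q : ℝ) ≤ L ^ Ea →
  ∀ (b : Fin (d - 1) → ℝ) (c : ℝ), (∀ i, |b i| ≤ L ^ Ea) → |c| ≤ L ^ Ea →
  ∀ η : ℝ, L ^ E4 ≤ |η| → |η| ≤ (K : ℝ) ^ 2 →
  ‖∑ k ∈ (Ioc K1 K).filter (fun k => k % q = r), e (η * Real.log (pw d b (k + c)))‖ ≤ K / L ^ U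

/-- **RAY**: `L^1` over the pairs, on a ray, by Plancherel. Proof. `λ_k = log (p k)`, `x1 = 2 e^2 D P1`. Let `ρ` be a smooth
cutoff, `ρ = 1` on `[log(D P0) - 1, log(2 D P1) + 1]`, `0` outside the `1`-neighbourhood, `|ρ'| ≤ Cr` (lemma `cutoff` used in
`Pool/Agent/H469R2/FB_MajGenQ.lean`), `h_i(s) = e^{s/2} ρ(s) g_i(σ e^s)`. Let `Φ` be the trapezoid in `s = log u`, `1` on
`[log D, log((1+κ)D)]`, ramps of width `η`; replacing the indicator function by `Φ` costs `≤ C η D G^2` for each pair.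
`∫ Φ(log u) g1(σ u p_k) g2(σ u p_k') du = (p_k p_k')^{-1/2} ∫ Φ(s) h1(s + λ_k) h2(s + λ_k') ds`. Insert
`Φ(s) = ∫ Φ^(τ) e(τ s) dτ`, `‖Φ^‖_1 ≤ C (1 - log η)` (`|Φ^(τ)| ≤ min(2, 1/(π|τ|), 1/(π^2 τ^2 η))`). For fixed `τ`:
`X_{kk'} = ∫ e(τ s) h1(s + λ_k) h2(s + λ_k') ds = e(-τ λ_k) ∫ φ(ξ) e(ξ (λ_k - λ_k')) dξ` by Plancherel,
`φ(ξ) = h1^(ξ - τ) conj((conj h2)^(ξ))`, `‖φ‖_1 ≤ ‖h1‖_2 ‖h2‖_2 ≤ G^2 x1`. So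
`∑_{k,k'} |X|^2 = ∫∫ φ(ξ) conj φ(ξ') |S(ξ - ξ')|^2 dξ dξ'`, `S(η) = ∑_{k ∈ T} e(η λ_k)`, `|S| ≤ K`. Four regions:
(1) `|ξ - ξ'| ≤ E`, `|ξ - τ|, |ξ' - τ| ≤ Ξ`: inner integral `≤ Y (2E)^{1/2} ‖h2‖_2`: `≤ K^2 G^2 x1 · Y √(2E) G √x1`;
(2) `|ξ - ξ'| ≤ E`, one of `|ξ - τ|, |ξ' - τ| > Ξ`: `≤ 2 K^2 ‖h1'‖_2/(2πΞ) ‖h2‖_2 ‖φ‖_1`, `‖h1'‖_2^2 ≤ C G^2 x1 (1 + δ x1)^2`;
(3) `E < |ξ - ξ'| ≤ X2`: `≤ Z^2 ‖φ‖_1^2`; (4) `|ξ - ξ'| > X2`: one of `|ξ-τ|, |ξ'-τ|` is `> X2/2`, as in (2).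
Finally `∑ (p_k p_k')^{-1/2} |X| ≤ (1/P0) K (∑ |X|^2)^{1/2}`. (`planch0`, `planch_tail` in `Pool/Agent/H378R2`, `H442R2/EHI`.) -/
def S_RAY : Prop := ∃ C Cr : ℝ, 1 ≤ C ∧ 1 ≤ Cr ∧ ∀ (T : Finset ℕ) (K : ℕ) (p : ℕ → ℝ)
  (D P0 P1 κ δ G Y E Ξ X2 Z η σ : ℝ) (g1 g2 : ℝ → ℂ), T.card ≤ K → 0 < D → 0 < P0 → P0 ≤ P1 →
  (∀ k ∈ T, P0 ≤ p k ∧ p k ≤ P1) → 0 < κ → κ ≤ 1 → 0 < η → η ≤ 1 → 0 ≤ δ → 0 < G → 0 ≤ Y → 1 ≤ E → 0 < Ξ →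
  0 < X2 → 0 ≤ Z → (σ = 1 ∨ σ = -1) → ContDiff ℝ (⊤ : ℕ∞) g1 → ContDiff ℝ (⊤ : ℕ∞) g2 →
  (∀ y, ‖g1 y‖ ≤ G ∧ ‖g2 y‖ ≤ G ∧ ‖deriv g1 y‖ ≤ G * δ) →
  (∀ ρ : ℝ → ℝ, ContDiff ℝ (⊤ : ℕ∞) ρ → (∀ s, 0 ≤ ρ s ∧ ρ s ≤ 1) → (∀ s, |deriv ρ s| ≤ Cr) →
    (∀ s, s ≤ Real.log (D * P0) - 2 → ρ s = 0) → (∀ s, Real.log (2 * D * P1) + 2 ≤ s → ρ s = 0) →
    ∀ ξ : ℝ, |ξ| ≤ Ξ →
      ‖∫ s : ℝ, ((Real.exp (s / 2) * ρ s : ℝ) : ℂ) * g1 (σ * Real.exp s) * e (-(ξ * s))‖ ≤ Y) →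
  (∀ η' : ℝ, E ≤ |η'| → |η'| ≤ X2 → ‖∑ k ∈ T, e (η' * Real.log (p k))‖ ≤ Z) →
  ∑ k ∈ T, ∑ k' ∈ T, ‖∫ u in D..((1 + κ) * D), g1 (σ * (u * p k)) * g2 (σ * (u * p k'))‖ ≤
    C * G ^ 2 * (K : ℝ) ^ 2 * D * (η + (1 - Real.log η) * (P1 / P0) *
      √(Y * √E / (G * √(D * P1)) + (1 + δ * (D * P1)) * (1 / Ξ + 1 / X2) + (Z / K) ^ 2))

/-- **ARC** (type `S_WTF → S_ARC`): from the weighted sum over the coefficients to rays. Proof. `G δ` is a Lipschitz constant of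
`g1, g2`, `N = 2R+1`, `∑_{cs R} wt = 2N/M ≤ 32 H`. For fixed `k, k' ∈ T`:
(1) the `a` with `|a_l| > HΛ` for some `l` contribute `≤ C H^{d+1} G^2 / Λ` (`wt(a) ≤ 128 H^2/a^2`).
(2) the `a` with `|a_d| ≤ H/Λ`: `≤ C H^d (H/Λ + 1) G^2`.
(3) the others: `D_i = (H/Λ)(1+κ)^i`, `i < I`, `I` least with `D_I ≥ HΛ`, `I ≤ 5Λ/κ`, `D_I ≤ 2HΛ ≤ R`. For fixed sign `σ`
of `a_d`, fixed `i` and fixed `a_0, ..., a_{d-1}` (`|a_l| ≤ HΛ`) sum over `a = |a_d| ∈ (D_i, D_{i+1}]`: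
* replace `wt(σ a)` by `wt(σ ⌊D_i⌋)`: error `≤ 13 M/N (κ D_i + 2) ≤ (2/H)(κ D_i + 2)` for each of `≤ κ D_i + 1` numbers `a`;
* replace `F_a(k)` by `σ a p_k`, `p_k = pw d b (k + c)`: if `d ≥ 2`: `b_i = σ a_{i+1}/D_i`, `c = 0`,
  `F_a(k) - σ a p_k = ∑_{1≤l<d} a_l k^l (1 - a/D_i) + a_0`, of size `≤ d κ HΛ K^{d-1} + HΛ`; if `d = 1`: `c = σ a_0/D_i`,
  `F_a(k) - σ a (k + c) = a_0 (1 - a/D_i)`, of size `≤ κ HΛ`; error in `g1 g2`: `2 G^2 δ` times this;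
* replace the sum over the integers `a` by the integral over `u ∈ [D_i, D_{i+1}]`: `u ↦ g1(σ u p_k) g2(σ u p_k')` has
  Lipschitz constant `2 G^2 δ (d+1) K^d` (`|p_k| ≤ (d+1) K^d` as `Λ^2 ≤ K1 ≤ k`) and sup norm `G^2`: error
  `≤ 2 G^2 δ (d+1) K^d (κ D_i + 2) + 2 G^2`.
Add over `i < I`, both signs, all `a_0, ..., a_{d-1}` with weights (`∑ ∏ wt ≤ (32 H)^d`), then over `k, k' ∈ T`; the integrals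
contribute `≤ (32 H)^d · 2 · 2 · I · Rr`. -/
def S_ARC : Prop := ∀ d : ℕ, 1 ≤ d → ∃ C : ℝ, 1 ≤ C ∧ ∀ (R M H K1 K : ℕ) (T : Finset ℕ) (Λ κ δ G Rr : ℝ)
  (g1 g2 : ℝ → ℂ), 1 ≤ M → 8 * H * M ≤ 2 * R + 1 → 2 * R + 1 ≤ 16 * H * M → 1 ≤ H → 1 ≤ K1 → T ⊆ Icc K1 K →
  1 ≤ Λ → Λ ^ 2 ≤ K1 → 4 * H * Λ ≤ R → 0 < κ → κ ≤ 1 → 0 ≤ δ → 0 ≤ G → 0 ≤ Rr →
  (∀ y, ‖g1 y‖ ≤ G ∧ ‖g2 y‖ ≤ G) →
  (∀ y y', ‖g1 y - g1 y'‖ ≤ G * δ * |y - y'| ∧ ‖g2 y - g2 y'‖ ≤ G * δ * |y - y'|) →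
  (∀ (σ D : ℝ) (b : Fin (d - 1) → ℝ) (c : ℝ), (σ = 1 ∨ σ = -1) → H / Λ ≤ D → D ≤ H * Λ →
    (∀ i, |b i| ≤ Λ ^ 2) → |c| ≤ Λ ^ 2 → (2 ≤ d → c = 0) →
    ∑ k ∈ T, ∑ k' ∈ T, ‖∫ u in D..((1 + κ) * D), g1 (σ * (u * pw d b (k + c))) *
      g2 (σ * (u * pw d b (k' + c)))‖ ≤ Rr) →
  ∑ k ∈ T, ∑ k' ∈ T, ‖∑ a ∈ Fintype.piFinset (fun _ : Fin (d + 1) => cs R),
      ((∏ l, wt R M (a l) : ℝ) : ℂ) * (g1 (Fv a k) * g2 (Fv a k'))‖ ≤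
    C * (H : ℝ) ^ (d + 1) * G ^ 2 * (T.card : ℝ) ^ 2 * (1 / Λ + κ * Λ ^ 2 + Λ ^ 2 / (κ * H) +
      δ * Λ ^ 2 * (κ * H * (K : ℝ) ^ (d - 1) + (if 2 ≤ d then (H : ℝ) else 0) + (K : ℝ) ^ d / κ)) +
    C * (H : ℝ) ^ d * (Λ / κ) * Rr

/-- **MJ** (type `S_VZ → S_GQB → S_MEL → S_VDC → S_RAY → S_ARC → S_TWI → S_MJ`, `S_TWI = Pool.Agent.H13V.S_TWI`): the major arcs in
one residue class. Proof (only parameters). `L = log H`, `x = (d+1) H K^d`, `N = 2R+1`. `|fz z n| ≤ 1 + 2 (Vz z)⁻¹ ≤ L` by VZ.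
GQB: `G = C L`, `δ = (M0 + M1)/N ≤ L^{Ea}/(H K^{d-1})`. `Λ = L^{U+2}`, `κ = L^{-E8}`, `E8 = Ea + 3U + 12`. ARC: the error terms
are `≤ H^{d+1} K^2 L^2 C (L^{-U-2}·...)`: take `Λ = L^{U+4}` if needed (the hypothesis `x L^{U+8} ≤ R` gives
`x + 2 e^2 D P1 ≤ R` for `D ≤ HΛ`, `P1 = (d+1) K^d`); the other error terms are smaller because `K ≥ L^B`, `K L^B ≤ H`.
Then `Rr ≤ K^2 H L^{-E9}`, `E9 = 2U + E8 + 20`, is needed. RAY for `p k = pw d b (k + c)`, `k ∈ T` (class `r` modulo `q` in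
`(K1, K]`), `P0 = K1^d/2`, `P1 = (d+1) K^d`, `P1/P0 ≤ L^{d Ea + 1}`, `D ≤ HΛ`: take `η = L^{-E10}`, then the square root must be
`≤ L^{-E10}` with `E10 = E9 + d Ea + U + 20`: `X2 = K^2`; `δ D P1 ≤ L^{Ea + U + 6} K`; `Ξ = K L^{E11}`,
`E11 = Ea + U + 2 E10 + 10`; `Z = K L^{-E10}` and `E = L^{E4}` from VDC (exponents `Ea' = max(Ea, 2U + 8)`, `U' = E10 + 1`).
MEL with `x0 = D P0 e^{-2} ≥ x / L^{d Ea + U + 8}`, `x1 = 2 e^2 D P1`, `S = L`, `S1 = x / L^V` from TWI with `X = x` (`log x ≥ L`,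
`2π Ξ ≤ x`, the integer `-σ b` is replaced by a natural number congruent to it modulo `q`), `N/M0 ≤ H K^{d-1} ≤ x/K`:
`Y ≤ C √x L^{2 (d Ea + U + 8) + E11 + 3} (L^{-V} + 1/K)`; choose `V`, then `B`. -/
def S_MJ : Prop := ∀ d Ea U : ℕ, 1 ≤ d → ∃ B H0 : ℕ, ∀ H : ℕ, H0 ≤ H →
  ∀ (K K1 R M M0 M1 x q r z : ℕ) (b : ℤ) (θ0 θ1 : ℝ) (v : ℕ → ℝ), Real.log H ^ B ≤ K →
  (K : ℝ) * Real.log H ^ B ≤ H → K1 ≤ K → (K : ℝ) ≤ K1 * Real.log H ^ Ea → x = (d + 1) * H * K ^ d → 1 ≤ M →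
  8 * H * M ≤ 2 * R + 1 → 2 * R + 1 ≤ 16 * H * M → x * Real.log H ^ (U + 8) ≤ R →
  (R : ℝ) ≤ x * Real.log H ^ Ea → 1 ≤ q → q ≤ z → (z : ℝ) ≤ Real.log H ^ Ea → 1 ≤ M0 → 1 ≤ M1 →
  ((M0 : ℝ) + M1) / (2 * R + 1) ≤ Real.log H ^ Ea / (H * (K : ℝ) ^ (d - 1)) →
  1 / (H * (K : ℝ) ^ (d - 1)) ≤ (M0 : ℝ) / (2 * R + 1) → |θ0| ≤ 1 / (2 * R + 1) → |θ1| ≤ 1 / (2 * R + 1) →
  (∀ n, |v n| ≤ Real.log H) →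
  ∑ k ∈ (Ioc K1 K).filter (fun k => k % q = r), ∑ k' ∈ (Ioc K1 K).filter (fun k => k % q = r),
    ‖∑ a ∈ Fintype.piFinset (fun _ : Fin (d + 1) => cs R), ((∏ l, wt R M (a l) : ℝ) : ℂ) *
      (gq R M0 θ0 q b x (fz z) (Fv a k) * gq R M1 θ1 q (-b) x v (Fv a k'))‖ ≤
    (K : ℝ) ^ 2 * (H : ℝ) ^ (d + 1) / Real.log H ^ U

/-- **KR** (type `S_VZ → S_WTF → S_FIN → S_MIN → S_MAJ → S_PRJ → S_MJ → S_KER`): the kernel theorem. Proof. `L = log H`,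
`x = (d+1) H K^d`, `f = fz z`, `|f|, |v| ≤ L` (VZ, `z = ⌊L^E⌋`). `K1 = ⌈K / L^{U+4}⌉`; the pairs with `k ≤ K1` or
`k' ≤ K1` are trivial: `|ker| ≤ (2N/M)^{d+1} L^2 ≤ (32H)^{d+1} L^2`. Let `U1 = 2 (U + d (U+5) + 10)`, and `Ei`, `L0` from
`Pool.Agent.H993R2.FB.inv_full` for `(j, U, E2, E6) = (d, U1, U + 5, 1)`, used with `A = D = 4H`. `E1 = Ei + 1`, so `L^Ei ≤ z`.
`Umj = U + 3 Ei + 10`, `Ea` large. `R = x ⌈L^{Umj + 8}⌉`, `M = ⌊(2R+1)/(8H)⌋`. `δ = L^Ei/(4 H K^{d-1})`,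
`M0 = ⌈δ N⌉ + 1`; for `1 ≤ q ≤ L^Ei`, `0 ≤ b < q`, `(b, q) = 1` let `h0 = round(b N / q)`, `χ = chi R M0 h0`: `χ = 1` where
`‖h/N - b/q‖ ≤ δ` (then `|bmod (h - h0) N| ≤ δ N + 1/2`), `χ h ≠ 0` implies `‖h/N - b/q‖ ≤ (2 M0 + 1/2)/N =: δ₁`; the supports
for different `b/q` are disjoint (spacing `≥ L^{-2 Ei}`). `c = fc R (per f)`, `c' = fc R (per v)`, `c = c_min + ∑_{q,b} χ_{q,b} c`,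
`|c_min| ≤ |c|`, and `c_min h = 0` if `‖h/N - b/q‖ ≤ δ` for some `q ≤ L^Ei`, `b` (reduce the fraction), so MIN applies with
`Rc = K^2/L^{U1}` (`inv_full`), `T = Ioc K1 K`, `A = 4H`; FIN: `∑ |c|^2 ≤ (2x+1) L^2/N`, the same for `c'`, and
`(4N/(4H K1^d) + 1) (2x+1)/N ≤ L^{d(U+5) + 3}`: the minor part is `≤ K^2 H^{d+1} L^{-U-2}`.
Major part: MAJ with `ω = 1/(8H)`, `δ₂ = (ω + δ₁ K^d)/K1^d`, `χ' = chi R M1 (round(-b N/q))`, `M1 = ⌈δ₂ N⌉ + 1`, then PRJ for both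
factors (centres `b/q` and `-b/q`), and for `q ∣ k - k'` (`q ∣ F_a(k) - F_a(k')`) the factor `e(b (F_a(k) - F_a(k'))/q)` is `1`; the
classes `r < q`; MJ with `Umj`. There are `≤ L^{3 Ei}` triples `(q, b, r)`. -/
def S_KER : Prop := ∀ d U : ℕ, 1 ≤ d → ∃ E1 : ℕ, ∀ E : ℕ, E1 ≤ E → ∃ B H0 : ℕ, ∀ H : ℕ, H0 ≤ H → ∀ K : ℕ,
  Real.log H ^ B ≤ K → (K : ℝ) * Real.log H ^ B ≤ H → ∃ R M : ℕ, 1 ≤ M ∧ (d + 1) * H * K ^ d ≤ R ∧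
  8 * H * M ≤ 2 * R + 1 ∧ 2 * R + 1 ≤ 16 * H * M ∧
  ∀ v : ℕ → ℝ, (v = pr ∨ v = nu ⌊Real.log H ^ E⌋₊) →
    ∑ k ∈ Icc 1 K, ∑ k' ∈ Icc 1 K,
      ‖ker d R M (per R ((d + 1) * H * K ^ d) (fz ⌊Real.log H ^ E⌋₊)) (per R ((d + 1) * H * K ^ d) v) k k'‖ ≤
    (K : ℝ) ^ 2 * (H : ℝ) ^ (d + 1) / Real.log H ^ U

end Pool.Agent.H13K
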